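import Pool.Agent.Lib.NV5.DomBlue
import Pool.Agent.Lib.HS76.Diag

/-! Row DET of block DOM. -/

open scoped Classical Topology ContDiff ENNReal ComplexOrder Matrix
open Set MeasureTheory Complex Metric Filter

noncomputable section

namespace Pool.Agent.Lib.DM

open Pool.Agent.Lib.SV (E nsq)
open Pool.Agent.Lib.HS32 Pool.Agent.Lib.EX Pool.Agent.Lib.EXS Pool.Agent.Lib.ZL

theorem dDET : St_DET := by
  intro n G T a δ hG hT hδ h
  have hu : IsUnit G.det := (Matrix.isUnit_iff_isUnit_det G).1 hG.isUnit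
  have e1 : (G⁻¹ * r1 a).trace = star (star a) ⬝ᵥ (G⁻¹ *ᵥ star a) := by
    rw [r1, Matrix.mul_vecMulVec, Matrix.trace_vecMulVec, star_star, dotProduct_comm]
  have p1 : 0 ≤ (G⁻¹ * r1 a).trace := by
    rw [e1]; exact hG.inv.posSemidef.dotProduct_mulVec_nonneg _
  have t0 : 0 ≤ trm G (r1 a) := (Complex.nonneg_iff.1 p1).1
  have t1 : (G⁻¹ * r1 a).trace = (trm G (r1 a) : ℂ) :=
    Complex.ext rfl (by simpa using (Complex.nonneg_iff.1 p1).2.symm)
  refine ⟨t0, ?_⟩
  have m := HS76.det_mono hT h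
  have e2 : (2 : ℝ) • G + δ • r1 a = ((2 : ℂ) • G) *
      (1 + Matrix.replicateCol Unit (((δ / 2 : ℝ) : ℂ) • (G⁻¹ *ᵥ star a)) * Matrix.replicateRow Unit a) := by
    rw [← Matrix.vecMulVec_eq, Matrix.mul_add, Matrix.mul_one, Matrix.mul_vecMulVec,
      Matrix.smul_mulVec, Matrix.mulVec_smul, Matrix.mulVec_mulVec, Matrix.mul_nonsing_inv _ hu,
      Matrix.one_mulVec]
    ext i j
    simp [r1, Matrix.vecMulVec_apply]
    ring
  have e3 : ((2 : ℝ) • G + δ • r1 a).det =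
      ((2 ^ n * G.det.re * (1 + δ / 2 * trm G (r1 a)) : ℝ) : ℂ) := by
    rw [e2, Matrix.det_mul, Matrix.det_smul, Matrix.det_one_add_replicateCol_mul_replicateRow,
      dotProduct_smul, smul_eq_mul]
    rw [star_star, t1] at e1
    rw [← e1]
    push_cast
    rw [← HS76.det_eq_re hG.posSemidef, Fintype.card_fin]
  rw [e3, Complex.ofReal_re] at m
  have g0 := HS76.det_re_pos hG
  rw [HS76.det_eq_re hG.posSemidef, Complex.div_ofReal_re, div_le_iff₀ g0]
  have : 2 ^ n * G.det.re * (δ / 2 * trm G (r1 a)) ≤ 2 ^ n * G.det.re * (δ * trm G (r1 a)) :=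
    mul_le_mul_of_nonneg_left (by nlinarith [mul_nonneg hδ t0]) (by positivity)
  nlinarith

end Pool.Agent.Lib.DM
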