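import Pool.Agent.Lib.NV5.DomBlue

/-! Block DOM, row LOG: the Hessian of a logarithm. -/

open scoped Classical Topology ContDiff Matrix
open Set Complex Filter

noncomputable section

namespace Pool.Agent.Lib.DM

open Pool.Agent.Lib.SV (E)
open Pool.Agent.Lib.HS32
open Pool.Agent.Lib.EXS.K32 (hol_cd cd_normSq)
open Pool.Agent.Lib.RAA (hl)

namespace LOG

variable {n : ℕ} {V : E n → ℝ} {g : E n → ℂ} {z : E n} {s : ℝ}

theorem log36 (hV : ContDiffAt ℝ ∞ V z) (h0 : 0 < V z) :
    hl V z = (V z)⁻¹ • hess (fun w => (V w : ℂ)) z -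
      (V z ^ 2)⁻¹ • dd (fun w => (V w : ℂ)) (fun w => (V w : ℂ)) z := by
  ext i j
  have h1 := cd_ofReal hV
  have h2 : (V z : ℂ) ≠ 0 := ofReal_ne_zero.2 h0.ne'
  have e : dz j (fun w => (Real.log (V w) : ℝ)) =ᶠ[𝓝 z]
      fun w => (V w : ℂ)⁻¹ * dz j (fun w => (V w : ℂ)) w := by
    filter_upwards [cd_ev_diff hV, hV.continuousAt.eventually (lt_mem_nhds h0)] with w a b
    rw [dz_comp_real (Real.hasDerivAt_log b.ne') a, ofReal_inv]
  rw [hl, hess_apply, dzb_congr e, dzb_mul (f := fun w => (V w : ℂ)⁻¹) ((cd_diff h1).inv h2)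
    (cd_diff (cd_dz h1 j)), dzb_inv (cd_diff h1) h2]
  simp only [Matrix.sub_apply, Matrix.smul_apply, hess_apply, dd_apply, real_smul, ofReal_inv,
    ofReal_pow]
  ring

theorem one36 (hg : HolN g z) (hs : 0 ≤ s) :
    hl (fun w => 1 + s * normSq (g w)) z =
      r1 fun j => (√s / (1 + s * normSq (g z)) : ℝ) * dz j g z := by
  have h1 := hol_cd hg
  have h2 := cd_star h1
  have h3 : 0 < 1 + s * normSq (g z) := by
    have := normSq_nonneg (g z)
    positivity
  have h4 := ((mHOL n g z).1 (cd_diff h1)).1 hg.self_of_nhds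
  have h5 := ((mHOL n g z).2.2 hg).2.2.1
  have e : (fun w => ((1 + s * normSq (g w) : ℝ) : ℂ)) = fun w => 1 + s * (g w * star (g w)) := by
    funext w
    rw [star_def, mul_conj, ofReal_add, ofReal_mul, ofReal_one]
  have d := cd_diff (h1.mul h2)
  rw [log36 (contDiffAt_const.add (contDiffAt_const.mul (cd_normSq h1))) h3, e,
    hess_add contDiffAt_const (contDiffAt_const.mul (h1.mul h2)), hess_const_mul _ (h1.mul h2),
    hess_mul h1 h2, hess_star h1, h5]
  ext i j
  have h6 : ((1 + s * normSq (g z) : ℝ) : ℂ) ≠ 0 := ofReal_ne_zero.2 h3.ne'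
  have h7 : (√s : ℂ) ^ 2 = s := by rw [← ofReal_pow, Real.sq_sqrt hs]
  have h8 := congrFun e z
  have a3 : ∀ i, dzb i (fun w => star (g w)) z = star (dz i g z) := fun i => dzb_star (cd_diff h1)
  have a4 : ∀ i, dz i (fun w => star (g w)) z = 0 := fun i => by
    rw [dz_star (cd_diff h1), h4, star_zero]
  have a1 : dzb i (fun w => 1 + s * (g w * star (g w))) z = s * (g z * star (dz i g z)) := by
    rw [dzb_add (differentiableAt_const _) (d.const_mul _), dzb_const_mul _ d,
      dzb_mul (cd_diff h1) (cd_diff h2), a3, h4, dzb_const]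
    ring
  have a2 : dz j (fun w => 1 + s * (g w * star (g w))) z = s * (dz j g z * star (g z)) := by
    rw [dz_add (differentiableAt_const _) (d.const_mul _), dz_const_mul _ d,
      dz_mul (cd_diff h1) (cd_diff h2), a4, dz_const]
    ring
  simp only [Matrix.sub_apply, Matrix.smul_apply, Matrix.add_apply, dd_apply, a1, a2, a3, a4, h4,
    hess_const, Matrix.conjTranspose_zero, Matrix.zero_apply, r1, Matrix.vecMulVec_apply,
    Pi.star_apply]
  simp only [real_smul, ofReal_inv, ofReal_pow, star_mul', smul_eq_mul, ofReal_div, star_div₀,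
    star_def, conj_ofReal] at h8 ⊢
  field_simp
  rw [h7]
  linear_combination (s * (starRingEnd ℂ) (dz i g z) * dz j g z) * h8

end LOG

open LOG

theorem dLOG : St_LOG := by
  refine fun n V W z hV h0 => ⟨log36 hV h0, fun g s hg hs h =>
    ⟨fun j => (√s / (1 + s * normSq (g z)) : ℝ) * dz j g z, ?_⟩⟩
  have h1 : ContDiffAt ℝ ∞ (fun w => 1 + s * normSq (g w)) z :=
    contDiffAt_const.add (contDiffAt_const.mul (cd_normSq (hol_cd hg)))
  have h2 : ∀ w, 0 < 1 + s * normSq (g w) := fun w => by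
    have := normSq_nonneg (g w)
    positivity
  rw [← one36 hg hs, hl, hl, hl,
    ← hess_add (cd_ofReal (hV.log h0.ne')) (cd_ofReal (h1.log (h2 z).ne'))]
  refine hess_congr ?_
  filter_upwards [h, hV.continuousAt.eventually (lt_mem_nhds h0)] with w a b
  rw [← ofReal_add, ← Real.log_mul b.ne' (h2 w).ne', a]
  ring_nf

end Pool.Agent.Lib.DM
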