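import Pool.Agent.Lib.NV5.DomBlue

/-! Project NV5, block DOM: the pointwise properties of a pair. -/

open scoped Classical Topology ContDiff ENNReal ComplexOrder Matrix
open Set MeasureTheory Complex Metric Filter

noncomputable section

namespace Pool.Agent.Lib.DM

open Pool.Agent.Lib.SV (E)
open Pool.Agent.Lib.HS32
open Pool.Agent.Lib.RAA (hl)

namespace PRK

variable {n : ℕ} {M : Mf n} {G : M.Fam (Mat n)} {e : M.Ch} {x : M.X}

theorem ll_eq (hL : St_LOG) (hG : M.Met G) {U : M.X → ℝ} (hU : M.Sm U) (he : e ∈ M.C)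
    (hx : x ∈ e.source) (h0 : 0 < U x) :
    ll M G U x = trm (G e (e x)) (hl (U ∘ e.symm) (e x)) := by
  have hz := e.map_source hx
  have a := ((mINV n M G hG).1 _ ((mHES n M).1 U hU).toTen).1 e he _ hz
  have b := ((mINV n M G hG).1 _ ((mHES n M).2.1 U U hU hU).1).1 e he _ hz
  have v : (U ∘ e.symm) (e x) = U x := congrArg U (e.left_inv hx)
  simp only [e.left_inv hx] at a b
  rw [(hL n _ 0 _ (hU e he _ hz) (v ▸ h0)).1, v, ll, Mf.lap, Mf.gr, a, b, trm, Matrix.mul_sub,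
    Matrix.mul_smul, Matrix.mul_smul, Matrix.trace_sub, Matrix.trace_smul, Matrix.trace_smul,
    sub_re, smul_re, smul_re, smul_eq_mul, smul_eq_mul]
  change _ = _ * ((G e (e x))⁻¹ * M.hs U e (e x)).trace.re -
    _ * ((G e (e x))⁻¹ * M.ds U U e (e x)).trace.re
  field_simp

theorem hs_bar {A B V : E n → ℝ} {z : E n} (hA : ContDiffAt ℝ ∞ A z) (hB : ContDiffAt ℝ ∞ B z)
    (hV : ContDiffAt ℝ ∞ V z) (a : A z ≠ 0) (b : B z ≠ 0) (v : V z ≠ 0) (δ η : ℝ) :
    hess (fun w => ((δ * (Real.log (A w) - Real.log (B w)) - η * Real.log (V w) : ℝ) : ℂ)) z =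
      δ • (hl A z - hl B z) - η • hl V z := by
  have a' := cd_ofReal (hA.log a)
  have b' := cd_ofReal (hB.log b)
  have v' := cd_ofReal (hV.log v)
  simp only [ofReal_sub, ofReal_mul]
  rw [hess_sub (contDiffAt_const.mul (a'.sub b')) (contDiffAt_const.mul v'),
    hess_const_mul _ (a'.sub b'), hess_const_mul _ v', hess_sub a' b', coe_smul, coe_smul]
  rfl

end PRK

open PRK in
theorem dPRK (hDET : St_DET) (hLOG : St_LOG) : St_PRK := by
  intro n M G l C V W hG hP x hx s hs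
  obtain ⟨e, he, hs', g, g1, g2, g3, g4⟩ := hP.loc x hx
  have hz := e.map_source hs'
  have v0 : 0 < V x := (hP.nV x).lt_of_ne' hx
  have v : (V ∘ e.symm) (e x) = V x := congrArg V (e.left_inv hs')
  have pG := hG.pos e he _ hz
  have sm : ∀ t : ℝ, M.Sm fun y => V y + t * W y := fun t b hb z h =>
    (hP.sV b hb z h).add (contDiffAt_const.mul (hP.sW b hb z h))
  have ps : ∀ t : ℝ, 0 ≤ t → 0 < V x + t * W x := fun t ht =>
    add_pos_of_pos_of_nonneg v0 (mul_nonneg ht (hP.nW x))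
  have lg := fun t ht => (hLOG n _ (W ∘ e.symm) _ (hP.sV e he _ hz) (v ▸ v0)).2 g t g1 ht g2
  obtain ⟨a, ha⟩ := lg s hs
  obtain ⟨b, hb⟩ := lg 1 zero_le_one
  have e0 := ll_eq hLOG hG hP.sV he hs' v0
  have e1 : bb M G V W s x = trm (G e (e x)) (r1 a) := by
    rw [bb, e0, ll_eq hLOG hG (sm s) he hs' (ps s hs),
      show hl ((fun y => V y + s * W y) ∘ e.symm) (e x) = _ from ha, trm, trm, trm, Matrix.mul_add,
      Matrix.trace_add, add_re, add_sub_cancel_left]
  refine ⟨e0 ▸ g4, e1 ▸ (hDET n _ _ a 0 pG pG le_rfl ?_).1,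
    fun δ η h1 h2 h3 => ⟨e, he, hs', fun T hT h => e1 ▸ (hDET n _ T a δ pG hT h1 ?_).2⟩⟩
  · rw [zero_smul, add_zero, two_smul, add_sub_cancel_right]
    exact pG.posSemidef
  have k : M.hs (bar V W δ s η) e (e x) = δ • (r1 a - r1 b) - η • hl (V ∘ e.symm) (e x) := by
    have := hs_bar (sm s e he _ hz) (sm 1 e he _ hz) (hP.sV e he _ hz)
      (by simpa [e.left_inv hs'] using (ps s hs).ne')
      (by simpa [e.left_inv hs'] using (ps 1 zero_le_one).ne') (v ▸ hx) δ η
    rw [show hl ((fun y => V y + s * W y) ∘ e.symm) (e x) = _ from ha,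
      show hl ((fun y => V y + 1 * W y) ∘ e.symm) (e x) = _ from hb, add_sub_add_left_eq_sub] at this
    rw [← this]
    simp only [Function.comp_apply, one_mul]
    rfl
  have p : (r1 b).PosSemidef := Matrix.posSemidef_vecMulVec_star_self b
  have := ((h.add (p.smul h1)).add (g3.smul h2)).add (pG.posSemidef.smul (sub_nonneg.2 h3))
  rw [k] at this
  rwa [show (2 : ℝ) • G e (e x) + δ • r1 a - T =
    G e (e x) + (δ • (r1 a - r1 b) - η • hl (V ∘ e.symm) (e x)) - T + δ • r1 b +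
      η • (C • G e (e x) + hl (V ∘ e.symm) (e x)) + (1 - η * C) • G e (e x) by module]

end Pool.Agent.Lib.DM
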