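import Pool.Agent.Lib.NV5.DomBlue

/-! Project NV5, block DOM, row MV: the potentials. -/

open scoped Classical Topology ContDiff ENNReal ComplexOrder Matrix
open Set MeasureTheory Complex Metric Filter

noncomputable section

namespace Pool.Agent.Lib.DM

open Pool.Agent.Lib.SV (E)
open Pool.Agent.Lib.HS32 Pool.Agent.Lib.HS32.Mf

namespace MV

variable {n : ℕ} {M : Mf n} {G : M.Fam (Mat n)} {V W : M.X → ℝ} {δ s η : ℝ} {x : M.X}

theorem num_sm (hG : M.Met G) (hV : M.Sm V) :
    M.Sm fun x => V x * M.lap G V x - M.gr G V V x :=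
  have h := (mLAP n M V V hV hV).2.2 G hG
  (hV.mul h.1).sub h.2.1

theorem ll_sm (hG : M.Met G) (hV : M.Sm V) :
    M.All fun e z => V (e.symm z) ≠ 0 → ContDiffAt ℝ ∞ (ll M G V ∘ e.symm) z :=
  fun e he z hz h => (num_sm hG hV e he z hz).div ((hV e he z hz).pow 2) (pow_ne_zero 2 h)

theorem bar_lo {a b : ℝ} (ha : 0 < a) (hb : 0 ≤ b) (hs : s ∈ Ioc (0 : ℝ) 1) :
    Real.log s ≤ Real.log (a + s * b) - Real.log (a + b) ∧
      Real.log a ≤ Real.log (a + s * b) := by
  have h1 : 0 < a + b := by linarith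
  have h2 := mul_nonneg hs.1.le hb
  refine ⟨?_, Real.log_le_log ha (by linarith)⟩
  rw [le_sub_iff_add_le, ← Real.log_mul hs.1.ne' h1.ne']
  exact Real.log_le_log (mul_pos hs.1 h1) (by nlinarith [hs.2])

end MV

open MV

theorem dMV (hPRK : St_PRK) (hSLP : St_SLP) (hMAX : St_MAX) (hVOL : St_VOL) : St_MV := by
  intro n M _ G l C δ V W hn hG hP l0 δ0 hl
  obtain ⟨-, hfin, -, hpos, hint, -⟩ := mMU n M G hG.toMet
  have pk := hPRK n M G l C V W hG.toMet hP
  have cV := hP.sV.continuous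
  have cW := hP.sW.continuous
  have pV : ∀ {x}, V x ≠ 0 → 0 < V x := fun h => (hP.nV _).lt_of_ne' h
  have ae : ∀ᵐ x ∂M.mu G, V x ≠ 0 := by simpa only [ae_iff, not_not] using hP.nul
  obtain ⟨B, B0, hB⟩ := hP.sV.exists_bound
  obtain ⟨L, t₀, hL⟩ := hVOL M.X (M.mu G)
    (fun x => δ * (Real.log (V x + W x) - Real.log (V x))) (2 ^ n)
    (fun h => by simp [h] at hpos)
    ((((cV.add cW).measurable.log).sub cV.measurable.log).const_mul δ).aemeasurable (by positivity)
  have lB : 0 ≤ Real.log (B + 1) := Real.log_nonneg (by linarith)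
  refine ⟨L + Real.log (B + 1), fun s hs η hη hC => ?_⟩
  have sU : M.Sm fun y => V y + s * W y := hP.sV.add (hP.sW.const_mul s)
  have lU : ∀ x, V x ≤ V x + s * W x := fun x =>
    le_add_of_nonneg_right (mul_nonneg hs.1.le (hP.nW x))
  obtain ⟨B₁, B1, hB₁⟩ := (num_sm hG.toMet sU).exists_bound
  obtain ⟨t, t1, t2⟩ : ∃ t, t₀ ≤ t ∧ 3 / η ≤ t := ⟨max _ _, le_max_left _ _, le_max_right _ _⟩
  have t0 : 0 < t := (div_pos three_pos hη.1).trans_le t2
  rw [div_le_iff₀ hη.1] at t2
  have lo : ∀ x, V x ≠ 0 → δ * Real.log s - η * Real.log (V x) ≤ bar V W δ s η x := fun x h =>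
    sub_le_sub_right (mul_le_mul_of_nonneg_left (bar_lo (pV h) (hP.nW x) hs).1 δ0) _
  obtain ⟨u, u1, u2, u3⟩ := hMAX n M G V (bar V W δ s η) (fun x => 2 ^ n * (1 + δ * bb M G V W s x))
    t (1 / 8) hn hG t0 (by norm_num) cV hP.nV
    (fun e he z hz h => by
      have a := hP.sV e he z hz
      have b := hP.sW e he z hz
      have c := ((pV h).trans_le (lU _)).ne'
      exact ⟨(contDiffAt_const.mul (((sU e he z hz).log c).sub ((a.add b).log
        (add_pos_of_pos_of_nonneg (pV h) (hP.nW _)).ne'))).sub (contDiffAt_const.mul (a.log h)),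
        contDiffAt_const.mul (contDiffAt_const.add (contDiffAt_const.mul
          ((ll_sm hG.toMet sU e he z hz c).sub (ll_sm hG.toMet hP.sV e he z hz h))))⟩)
    (fun x h => ⟨by have := (pk x h s hs.1.le).2.1; positivity,
      (pk x h s hs.1.le).2.2 δ η δ0 hη.1.le hC⟩)
    (fun R => ⟨Real.exp ((δ * Real.log s - R) / η), Real.exp_pos _, fun x h h' => by
      have := (Real.log_le_iff_le_exp (pV h)).2 h'
      rw [le_div_iff₀ hη.1] at this
      linarith [lo x h]⟩)
    (by
      obtain ⟨K, K0, hK⟩ : ∃ K : ℝ, 0 < K ∧ K = Real.exp (-(t * (δ * Real.log s))) *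
        (2 ^ n * (1 + δ * (B₁ + l))) := ⟨_, by positivity, rfl⟩
      refine ⟨min 1 (1 / 8 / K), by positivity, fun x h h' => ?_⟩
      have p := pV h
      have v1 := h'.trans (min_le_left _ _)
      have v2 := (le_div_iff₀ K0).1 (h'.trans (min_le_right _ _))
      have a1 : Real.exp (-(t * bar V W δ s η x)) ≤
          Real.exp (-(t * (δ * Real.log s))) * V x ^ 3 := by
        rw [← Real.exp_log (pow_pos p 3), ← Real.exp_add, Real.exp_le_exp, Real.log_pow]
        have := Real.log_nonpos p.le v1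
        have := mul_le_mul_of_nonneg_left (lo x h) t0.le
        push_cast
        nlinarith
      have a2 : bb M G V W s x * V x ^ 2 ≤ B₁ + l := by
        have b1 : ll M G (fun y => V y + s * W y) x ≤ B₁ / V x ^ 2 :=
          (div_le_div_of_nonneg_right ((le_abs_self _).trans (hB₁ x)) (sq_nonneg _)).trans
            (div_le_div_of_nonneg_left B1.le (pow_pos p 2) (pow_le_pow_left₀ p.le (lU x) 2))
        have b2 := (pk x h s hs.1.le).1
        have b3 : V x ^ 2 ≤ 1 := pow_le_one₀ p.le v1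
        rw [le_div_iff₀ (pow_pos p 2)] at b1
        rw [bb, sub_mul]
        nlinarith [mul_le_mul_of_nonneg_right b2 (sq_nonneg (V x))]
      have a3 : V x ^ 2 * (1 + δ * bb M G V W s x) ≤ 1 + δ * (B₁ + l) := by
        nlinarith [mul_le_mul_of_nonneg_left a2 δ0, pow_le_one₀ (n := 2) p.le v1]
      have a4 := (pk x h s hs.1.le).2.1
      calc _ ≤ Real.exp (-(t * (δ * Real.log s))) * V x ^ 3 *
            (2 ^ n * (1 + δ * bb M G V W s x)) := by gcongr
        _ = V x * (Real.exp (-(t * (δ * Real.log s))) *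
            (2 ^ n * (V x ^ 2 * (1 + δ * bb M G V W s x)))) := by ring
        _ ≤ V x * K := by rw [hK]; gcongr
        _ ≤ _ := v2)
  obtain ⟨m1, m2⟩ := hSLP n M G l _ V hG l0 sU hP.sV (fun x => ⟨hP.nV x, lU x⟩) hP.nul
    fun x h => ⟨(pk x h s hs.1.le).1, sub_nonneg.1 (pk x h s hs.1.le).2.1⟩
  have c0 : 0 ≤ η * Real.log (B + 1) := mul_nonneg hη.1.le lB
  obtain ⟨y, hy⟩ := hL (fun x => u x + η * Real.log (B + 1))
    (fun x => bar V W δ s η x + η * Real.log (B + 1)) (bb M G V W s) (M.dq G (G + M.hs u)) δ t t1 m1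
    (ae.mono fun x h => by
      have a4 := (pk x h s hs.1.le).2.1
      have a5 := mul_le_mul_of_nonneg_left (bar_lo (pV h) (hP.nW x) hs).2 δ0
      have a6 := mul_le_mul_of_nonneg_left (Real.log_le_log (pV h)
        (((le_abs_self _).trans (hB x)).trans (le_add_of_nonneg_right zero_le_one))) hη.1.le
      refine ⟨mul_nonneg δ0 a4, by linarith [(u3 x h).1], by rw [bar]; linarith,
        (u3 x h).2.trans ?_⟩
      rw [mul_add, mul_add (Real.exp _), ← mul_assoc, ← mul_assoc (Real.exp _), ← Real.exp_add,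
        ← Real.exp_add]
      refine add_le_add (le_of_eq ?_) (mul_le_mul_of_nonneg_right
        (Real.exp_le_exp.2 (by nlinarith [mul_nonneg t0.le c0])) (by norm_num))
      rw [show t * (u x + η * Real.log (B + 1)) + -(t * (bar V W δ s η x + η * Real.log (B + 1))) =
        t * u x + -(t * bar V W δ s η x) by ring])
    (by
      have e : ∀ x, ENNReal.ofReal (2 ^ n * (δ * bb M G V W s x)) =
          ENNReal.ofReal (2 ^ n * δ) * ENNReal.ofReal (bb M G V W s x) := fun x => by
        rw [← mul_assoc, ENNReal.ofReal_mul (by positivity)]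
      simp only [e]
      rw [lintegral_const_mul' _ _ ENNReal.ofReal_ne_top]
      refine (mul_le_mul_right m2 _).trans ?_
      rw [← mul_assoc, ← ENNReal.ofReal_mul (by positivity), div_eq_mul_inv, mul_comm (M.mu G univ)]
      refine mul_le_mul_left ?_ _
      rw [show (4 : ℝ≥0∞)⁻¹ = ENNReal.ofReal (1 / 4) by
        rw [one_div, ENNReal.ofReal_inv_of_pos four_pos, ENNReal.ofReal_ofNat]]
      refine ENNReal.ofReal_le_ofReal ?_
      rw [pow_add] at hl
      linarith)
    (by
      have h1 := mCOH n M G G u hG.toMet hG.toClo u1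
      have h2 := ((mINV n M G hG.toMet).1 _ u2.toTen).2.2.2.1.continuous
      simp only [hG.toMet.dq_self, integral_const, smul_eq_mul, mul_one] at h1
      rw [← ofReal_integral_eq_lintegral_ofReal (hint ℝ _ h2) (.of_forall fun x =>
        (((mINV n M G hG.toMet).2.2.2.2.2.2.2 _ u2.toMet).1 x).le), h1, ofReal_measureReal])
  obtain ⟨x₀, hx⟩ := u1.exists_max
  refine ⟨fun x => u x - u x₀, u1.sub (sm_const _), u2.congr fun e he z hz => ?_,
    fun x => sub_nonpos.2 (hx x), ⟨x₀, sub_self _⟩, fun x h => ?_⟩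
  · obtain ⟨a, -, b, -⟩ := (mLAP n M u (fun _ => u x₀) u1 (sm_const _)).1 (u x₀) e he z hz
    simp only [Pi.add_apply]
    rw [b, a, sub_zero]
  · have := mul_le_of_le_one_left lB hη.2
    linarith [(u3 x h).1, hx y]

end Pool.Agent.Lib.DM
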