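import Pool.Agent.Lib.NV5.DomBlue
import Pool.Agent.Lib.HS32.MAll

/-! Project NV5, block DOM, row SLP: the mean of the slope of a pencil. -/

open scoped Classical Topology ContDiff ENNReal ComplexOrder Matrix
open Set MeasureTheory Complex Metric Filter

set_option linter.unusedVariables false

noncomputable section

namespace Pool.Agent.Lib.DM

open Pool.Agent.Lib.HS32

namespace SLP

theorem d1 (z : ℝ) : deriv (fun t : ℝ => Real.log (t + z)) = fun t => (t + z)⁻¹ := by
  funext t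
  rw [deriv_comp_add_const Real.log z t, Real.deriv_log]

theorem d2 (z t : ℝ) : deriv (fun t : ℝ => (t + z)⁻¹) t = -((t + z) ^ 2)⁻¹ := by
  rw [deriv_comp_add_const (fun x : ℝ => x⁻¹) z t, deriv_inv]

theorem key {u z a g l : ℝ} (hu : 0 < u) (hz : 0 < z) (hg : 0 ≤ g) (hl : 0 ≤ l) :
    u / (u + z) * ((u * a - g) / u ^ 2 + l) ≤ (u + z)⁻¹ * a + -((u + z) ^ 2)⁻¹ * g + l := by
  have h1 : 0 < u + z := by positivity
  have e : (u + z)⁻¹ * a + -((u + z) ^ 2)⁻¹ * g + l - u / (u + z) * ((u * a - g) / u ^ 2 + l) =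
      g * z / (u * (u + z) ^ 2) + l * z / (u + z) := by
    field_simp
    ring
  have h2 : 0 ≤ g * z / (u * (u + z) ^ 2) + l * z / (u + z) := by positivity
  linarith

variable {n : ℕ} {M : Mf n} {G : M.Fam (Mat n)}

theorem meas (hG : M.Met G) {U : M.X → ℝ} (hU : M.Sm U) : Measurable (ll M G U) := by
  have h := (mLAP n M U U hU hU).2.2 G hG
  have c0 := ((mTR n M).2.2.2.1 ℝ U).1 hU
  have c1 := ((mTR n M).2.2.2.1 ℝ _).1 h.1
  have c2 := ((mTR n M).2.2.2.1 ℝ _).1 h.2.1
  exact ((c0.mul c1).sub c2).measurable.div (c0.pow 2).measurable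

theorem step [M.Cpt] (hG : M.Kae G) {U : M.X → ℝ} (hU : M.Sm U) (h0 : ∀ x, 0 ≤ U x) {l z : ℝ}
    (hl : 0 ≤ l) (hz : 0 < z) (hae : ∀ᵐ x ∂M.mu G, 0 < U x ∧ 0 ≤ ll M G U x + l) :
    ∫⁻ x, ENNReal.ofReal (U x / (U x + z) * (ll M G U x + l)) ∂M.mu G ≤
      ENNReal.ofReal l * M.mu G univ := by
  have hφ : ∀ x, ContDiffAt ℝ ∞ (fun t : ℝ => Real.log (t + z)) (U x) := fun x =>
    (contDiffAt_id.add contDiffAt_const).log (by have := h0 x; simp only [id]; positivity)
  have hL := mLAP n M U U hU hU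
  have hs := (hL.2.1 _ hφ).1
  have hP := hL.2.2 G hG.toMet
  have hmu := mMU n M G hG.toMet
  haveI := hmu.2.1
  have hc : Continuous (M.lap G fun y => Real.log (U y + z)) :=
    ((mTR n M).2.2.2.1 ℝ _).1 ((mLAP n M _ _ hs hs).2.2 G hG.toMet).1
  have hi : Integrable (M.lap G fun y => Real.log (U y + z)) (M.mu G) := hmu.2.2.2.2.1 ℝ _ hc
  have hz0 : ∫ x, M.lap G (fun y => Real.log (U y + z)) x ∂M.mu G = 0 :=
    ((mGRN n M).2 G _ _ hG hs hs).1
  have hle : ∀ᵐ x ∂M.mu G, 0 ≤ U x / (U x + z) * (ll M G U x + l) ∧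
      U x / (U x + z) * (ll M G U x + l) ≤ M.lap G (fun y => Real.log (U y + z)) x + l := by
    filter_upwards [hae] with x hx
    refine ⟨mul_nonneg (div_nonneg hx.1.le (by have := hx.1; positivity)) hx.2, ?_⟩
    have e := (hP.2.2.2.1 _ hφ x).1
    rw [d1, d2] at e
    rw [e]
    exact key hx.1 hz (hP.2.2.1 x 0).2.2.2.2.2.2.1 hl
  calc ∫⁻ x, ENNReal.ofReal (U x / (U x + z) * (ll M G U x + l)) ∂M.mu G
      ≤ ∫⁻ x, ENNReal.ofReal (M.lap G (fun y => Real.log (U y + z)) x + l) ∂M.mu G :=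
        lintegral_mono_ae (hle.mono fun x hx => ENNReal.ofReal_le_ofReal hx.2)
    _ = ENNReal.ofReal (∫ x, (M.lap G (fun y => Real.log (U y + z)) x + l) ∂M.mu G) :=
        (ofReal_integral_eq_lintegral_ofReal (hi.add (integrable_const l))
          (hle.mono fun x hx => hx.1.trans hx.2)).symm
    _ = ENNReal.ofReal l * M.mu G univ := by
        rw [integral_add hi (integrable_const l), hz0, zero_add, integral_const, smul_eq_mul,
          mul_comm, ENNReal.ofReal_mul hl, Measure.real, ENNReal.ofReal_toReal (measure_ne_top _ _)]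

end SLP

theorem dSLP : St_SLP := by
  intro n M _ G l U V hG hl hU hV hVU hnul hll
  have mU := SLP.meas hG.toMet hU
  have mV := SLP.meas hG.toMet hV
  refine ⟨(mU.sub mV).aemeasurable, ?_⟩
  have hV0 : ∀ᵐ x ∂M.mu G, V x ≠ 0 := by
    rw [ae_iff]
    simpa using hnul
  have h0 : ∀ x, 0 ≤ U x := fun x => (hVU x).1.trans (hVU x).2
  have hae : ∀ᵐ x ∂M.mu G, 0 < U x ∧ 0 ≤ ll M G U x + l := by
    filter_upwards [hV0] with x hx
    have h1 := hll x hx
    exact ⟨(lt_of_le_of_ne (hVU x).1 hx.symm).trans_le (hVU x).2, by linarith [h1.1, h1.2]⟩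
  have cU := ((mTR n M).2.2.2.1 ℝ U).1 hU
  have hm : ∀ k : ℕ, Measurable fun x =>
      ENNReal.ofReal (U x / (U x + 1 / ((k : ℝ) + 1)) * (ll M G U x + l)) := fun k =>
    ((cU.measurable.div (cU.measurable.add_const _)).mul (mU.add_const l)).ennreal_ofReal
  calc ∫⁻ x, ENNReal.ofReal (ll M G U x - ll M G V x) ∂M.mu G
      ≤ ∫⁻ x, liminf (fun k : ℕ =>
          ENNReal.ofReal (U x / (U x + 1 / ((k : ℝ) + 1)) * (ll M G U x + l))) atTop ∂M.mu G := by
        refine lintegral_mono_ae ?_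
        filter_upwards [hV0, hae] with x hx hx'
        have t1 : Tendsto (fun k : ℕ => U x / (U x + 1 / ((k : ℝ) + 1)) * (ll M G U x + l)) atTop
            (𝓝 (U x / (U x + 0) * (ll M G U x + l))) :=
          (tendsto_const_nhds.div (tendsto_const_nhds.add tendsto_one_div_add_atTop_nhds_zero_nat)
            (by rw [add_zero]; exact hx'.1.ne')).mul_const _
        rw [add_zero, div_self hx'.1.ne', one_mul] at t1
        rw [(ENNReal.tendsto_ofReal t1).liminf_eq]
        exact ENNReal.ofReal_le_ofReal (by linarith [(hll x hx).1])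
    _ ≤ liminf (fun k : ℕ => ∫⁻ x,
          ENNReal.ofReal (U x / (U x + 1 / ((k : ℝ) + 1)) * (ll M G U x + l)) ∂M.mu G) atTop :=
        lintegral_liminf_le hm
    _ ≤ ENNReal.ofReal l * M.mu G univ :=
        liminf_le_of_frequently_le' (Frequently.of_forall fun k =>
          SLP.step hG hU h0 hl (by positivity) hae)

end Pool.Agent.Lib.DM
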