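import Pool.Agent.Lib.NV5.D_CRV
import Pool.Agent.Lib.NV5.D_SLP
import Pool.Agent.Lib.NV5.D_MV

/-! Project NV5, block DOM: the slope inequality and the potentials with a variable bound. -/

open scoped Classical Topology ContDiff ENNReal ComplexOrder Matrix
open Set MeasureTheory Complex Metric Filter

noncomputable section

namespace Pool.Agent.Lib.DM.XK

open Pool.Agent.Lib.SV (E)
open Pool.Agent.Lib.HS32 Pool.Agent.Lib.HS32.Mf

variable {n : ℕ} {M : Mf n} {G : M.Fam (Mat n)}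

open RAA RAA.A4 CRV in
theorem trace {N B : ℕ} {T : E n → Mat n} {z : E n} {s : E n → (Fin N → Fin n) → ℂ} {Q : Mat n}
    (h0 : ∀ᶠ w in 𝓝 z, SmM T w ∧ (T w).PosDef) (hs : HolN s z) (hB : N ≤ B)
    (hc : ∀ᶠ w in 𝓝 z, ClM T w) (hQ : Q.PosSemidef) (hr : (Q - hess (ld T) z).PosSemidef)
    (hz : s z ≠ 0) : -(B * trm (T z) Q) ≤ trm (T z) (hl (uv N B T s) z) := by
  have h : Ok T z := ⟨h0.self_of_nhds.1, h0.mono fun w hw => hw.2⟩
  have p0 := h.pos
  set R := hess (ld T) z with hR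
  have t0 := HS76.tr_nonneg p0 hr
  have t1 := HS76.le_tr_smul p0 hr le_rfl
  set τ := ((T z)⁻¹ * (Q - R)).trace.re with hτ
  have t2 : (R + τ • T z).PosSemidef := by
    rw [← BLAP.rs] at t1
    have e : R + τ • T z = τ • T z - (Q - R) + Q := by abel
    rw [e]
    exact t1.add hQ
  have t3 := tr_part h hc hs hz t2
  have t4 : τ = trm (T z) Q - trm (T z) R := by
    rw [hτ, Matrix.mul_sub, Matrix.trace_sub, sub_re, trm, trm]
  have t5 : trm (T z) (hl (uv N B T s) z) =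
      trm (T z) (hl (uw N T s) z) - B * trm (T z) R := by
    rw [split h hs hz, trm, Matrix.mul_sub, Matrix.trace_sub, sub_re, Matrix.mul_smul,
      Matrix.trace_smul, real_smul, re_ofReal_mul, trm, trm]
  have t6 : (N : ℝ) ≤ B := by exact_mod_cast hB
  have t7 : trm (T z) R = trm (T z) Q - τ := by linarith
  rw [t5, t7]
  nlinarith [mul_nonneg (sub_nonneg.2 t6) t0]

theorem step [M.Cpt] (hG : M.Kae G) {U l : M.X → ℝ} (hU : M.Sm U) (h0 : ∀ x, 0 ≤ U x) {z : ℝ}
    (lc : Continuous l) (hl : ∀ x, 0 ≤ l x) (hz : 0 < z)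
    (hae : ∀ᵐ x ∂M.mu G, 0 < U x ∧ 0 ≤ ll M G U x + l x) :
    ∫⁻ x, ENNReal.ofReal (U x / (U x + z) * (ll M G U x + l x)) ∂M.mu G ≤
      ENNReal.ofReal (∫ x, l x ∂M.mu G) := by
  have hφ : ∀ x, ContDiffAt ℝ ∞ (fun t : ℝ => Real.log (t + z)) (U x) := fun x =>
    (contDiffAt_id.add contDiffAt_const).log (by have := h0 x; simp only [id]; positivity)
  have hL := mLAP n M U U hU hU
  have hs := (hL.2.1 _ hφ).1
  have hP := hL.2.2 G hG.toMet
  have hmu := mMU n M G hG.toMet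
  have il : Integrable l (M.mu G) := hmu.2.2.2.2.1 ℝ _ lc
  have hc : Continuous (M.lap G fun y => Real.log (U y + z)) :=
    ((mTR n M).2.2.2.1 ℝ _).1 ((mLAP n M _ _ hs hs).2.2 G hG.toMet).1
  have hi : Integrable (M.lap G fun y => Real.log (U y + z)) (M.mu G) := hmu.2.2.2.2.1 ℝ _ hc
  have hz0 : ∫ x, M.lap G (fun y => Real.log (U y + z)) x ∂M.mu G = 0 :=
    ((mGRN n M).2 G _ _ hG hs hs).1
  have hle : ∀ᵐ x ∂M.mu G, 0 ≤ U x / (U x + z) * (ll M G U x + l x) ∧
      U x / (U x + z) * (ll M G U x + l x) ≤ M.lap G (fun y => Real.log (U y + z)) x + l x := by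
    filter_upwards [hae] with x hx
    refine ⟨mul_nonneg (div_nonneg hx.1.le (by have := hx.1; positivity)) hx.2, ?_⟩
    have e := (hP.2.2.2.1 _ hφ x).1
    rw [SLP.d1, SLP.d2] at e
    rw [e]
    exact SLP.key hx.1 hz (hP.2.2.1 x 0).2.2.2.2.2.2.1 (hl x)
  calc ∫⁻ x, ENNReal.ofReal (U x / (U x + z) * (ll M G U x + l x)) ∂M.mu G
      ≤ ∫⁻ x, ENNReal.ofReal (M.lap G (fun y => Real.log (U y + z)) x + l x) ∂M.mu G :=
        lintegral_mono_ae (hle.mono fun x hx => ENNReal.ofReal_le_ofReal hx.2)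
    _ = ENNReal.ofReal (∫ x, (M.lap G (fun y => Real.log (U y + z)) x + l x) ∂M.mu G) :=
        (ofReal_integral_eq_lintegral_ofReal (hi.add il)
          (hle.mono fun x hx => hx.1.trans hx.2)).symm
    _ = _ := by rw [integral_add hi il, hz0, zero_add]

theorem slp [M.Cpt] (hG : M.Kae G) {U V l : M.X → ℝ} (lc : Continuous l) (hl : ∀ x, 0 ≤ l x)
    (hU : M.Sm U) (hV : M.Sm V) (hVU : ∀ x, 0 ≤ V x ∧ V x ≤ U x) (hnul : M.mu G {x | V x = 0} = 0)
    (hll : ∀ x, V x ≠ 0 → -l x ≤ ll M G V x ∧ ll M G V x ≤ ll M G U x) :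
    AEMeasurable (fun x => ll M G U x - ll M G V x) (M.mu G) ∧
    ∫⁻ x, ENNReal.ofReal (ll M G U x - ll M G V x) ∂M.mu G ≤
      ENNReal.ofReal (∫ x, l x ∂M.mu G) := by
  have mU := SLP.meas hG.toMet hU
  have mV := SLP.meas hG.toMet hV
  refine ⟨(mU.sub mV).aemeasurable, ?_⟩
  have hV0 : ∀ᵐ x ∂M.mu G, V x ≠ 0 := by
    rw [ae_iff]
    simpa using hnul
  have h0 : ∀ x, 0 ≤ U x := fun x => (hVU x).1.trans (hVU x).2
  have hae : ∀ᵐ x ∂M.mu G, 0 < U x ∧ 0 ≤ ll M G U x + l x := by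
    filter_upwards [hV0] with x hx
    have h1 := hll x hx
    exact ⟨(lt_of_le_of_ne (hVU x).1 hx.symm).trans_le (hVU x).2, by linarith [h1.1, h1.2]⟩
  have cU := ((mTR n M).2.2.2.1 ℝ U).1 hU
  have hm : ∀ k : ℕ, Measurable fun x =>
      ENNReal.ofReal (U x / (U x + 1 / ((k : ℝ) + 1)) * (ll M G U x + l x)) := fun k =>
    ((cU.measurable.div (cU.measurable.add_const _)).mul (mU.add lc.measurable)).ennreal_ofReal
  calc ∫⁻ x, ENNReal.ofReal (ll M G U x - ll M G V x) ∂M.mu G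
      ≤ ∫⁻ x, liminf (fun k : ℕ =>
          ENNReal.ofReal (U x / (U x + 1 / ((k : ℝ) + 1)) * (ll M G U x + l x))) atTop ∂M.mu G := by
        refine lintegral_mono_ae ?_
        filter_upwards [hV0, hae] with x hx hx'
        have t1 : Tendsto (fun k : ℕ => U x / (U x + 1 / ((k : ℝ) + 1)) * (ll M G U x + l x)) atTop
            (𝓝 (U x / (U x + 0) * (ll M G U x + l x))) :=
          (tendsto_const_nhds.div (tendsto_const_nhds.add tendsto_one_div_add_atTop_nhds_zero_nat)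
            (by rw [add_zero]; exact hx'.1.ne')).mul_const _
        rw [add_zero, div_self hx'.1.ne', one_mul] at t1
        rw [(ENNReal.tendsto_ofReal t1).liminf_eq]
        exact ENNReal.ofReal_le_ofReal (by linarith [(hll x hx).1])
    _ ≤ liminf (fun k : ℕ => ∫⁻ x,
          ENNReal.ofReal (U x / (U x + 1 / ((k : ℝ) + 1)) * (ll M G U x + l x)) ∂M.mu G) atTop :=
        lintegral_liminf_le hm
    _ ≤ _ :=
        liminf_le_of_frequently_le' (Frequently.of_forall fun k =>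
          step hG hU h0 lc hl (by positivity) hae)

open MV in
theorem mv (hPRK : St_PRK) (hMAX : St_MAX) (hVOL : St_VOL) [M.Cpt] {l l' C δ : ℝ}
    {V W p : M.X → ℝ} (hn : 0 < n) (hG : M.Kae G) (hP : Pr M G l C V W) (l0 : 0 ≤ l) (δ0 : 0 ≤ δ)
    (pc : Continuous p) (p0 : ∀ x, 0 ≤ p x) (hp : ∀ x, V x ≠ 0 → -p x ≤ ll M G V x)
    (l1 : 0 ≤ l') (pI : ∫ x, p x ∂M.mu G ≤ l' * (M.mu G).real univ)
    (hl : 2 ^ (n + 2) * δ * l' ≤ 1) : ∃ L : ℝ,
    ∀ s ∈ Ioc (0 : ℝ) 1, ∀ η ∈ Ioc (0 : ℝ) 1, η * C ≤ 1 → ∃ u, M.Sm u ∧ M.Kae (G + M.hs u) ∧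
      (∀ x, u x ≤ 0) ∧ (∃ x, u x = 0) ∧ ∀ x, V x ≠ 0 → u x ≤ bar V W δ s η x + L := by
  obtain ⟨-, hfin, -, hpos, hint, -⟩ := mMU n M G hG.toMet
  have pk := hPRK n M G l C V W hG.toMet hP
  have cV := hP.sV.continuous
  have cW := hP.sW.continuous
  have pV : ∀ {x}, V x ≠ 0 → 0 < V x := fun h => (hP.nV _).lt_of_ne' h
  have ae : ∀ᵐ x ∂M.mu G, V x ≠ 0 := by simpa only [ae_iff, not_not] using hP.nul
  obtain ⟨B, B0, hB⟩ := hP.sV.exists_bound
  obtain ⟨L, t₀, hL⟩ := hVOL M.X (M.mu G)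
    (fun x => δ * (Real.log (V x + W x) - Real.log (V x))) (2 ^ n)
    (fun h => by simp [h] at hpos)
    ((((cV.add cW).measurable.log).sub cV.measurable.log).const_mul δ).aemeasurable (by positivity)
  have lB : 0 ≤ Real.log (B + 1) := Real.log_nonneg (by linarith)
  refine ⟨L + Real.log (B + 1), fun s hs η hη hC => ?_⟩
  have sU : M.Sm fun y => V y + s * W y := hP.sV.add (hP.sW.const_mul s)
  have lU : ∀ x, V x ≤ V x + s * W x := fun x =>
    le_add_of_nonneg_right (mul_nonneg hs.1.le (hP.nW x))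
  obtain ⟨B₁, B1, hB₁⟩ := (num_sm hG.toMet sU).exists_bound
  obtain ⟨t, t1, t2⟩ : ∃ t, t₀ ≤ t ∧ 3 / η ≤ t := ⟨max _ _, le_max_left _ _, le_max_right _ _⟩
  have t0 : 0 < t := (div_pos three_pos hη.1).trans_le t2
  rw [div_le_iff₀ hη.1] at t2
  have lo : ∀ x, V x ≠ 0 → δ * Real.log s - η * Real.log (V x) ≤ bar V W δ s η x := fun x h =>
    sub_le_sub_right (mul_le_mul_of_nonneg_left (bar_lo (pV h) (hP.nW x) hs).1 δ0) _
  obtain ⟨u, u1, u2, u3⟩ := hMAX n M G V (bar V W δ s η) (fun x => 2 ^ n * (1 + δ * bb M G V W s x))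
    t (1 / 8) hn hG t0 (by norm_num) cV hP.nV
    (fun e he z hz h => by
      have a := hP.sV e he z hz
      have b := hP.sW e he z hz
      have c := ((pV h).trans_le (lU _)).ne'
      exact ⟨(contDiffAt_const.mul (((sU e he z hz).log c).sub ((a.add b).log
        (add_pos_of_pos_of_nonneg (pV h) (hP.nW _)).ne'))).sub (contDiffAt_const.mul (a.log h)),
        contDiffAt_const.mul (contDiffAt_const.add (contDiffAt_const.mul
          ((ll_sm hG.toMet sU e he z hz c).sub (ll_sm hG.toMet hP.sV e he z hz h))))⟩)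
    (fun x h => ⟨by have := (pk x h s hs.1.le).2.1; positivity,
      (pk x h s hs.1.le).2.2 δ η δ0 hη.1.le hC⟩)
    (fun R => ⟨Real.exp ((δ * Real.log s - R) / η), Real.exp_pos _, fun x h h' => by
      have := (Real.log_le_iff_le_exp (pV h)).2 h'
      rw [le_div_iff₀ hη.1] at this
      linarith [lo x h]⟩)
    (by
      obtain ⟨K, K0, hK⟩ : ∃ K : ℝ, 0 < K ∧ K = Real.exp (-(t * (δ * Real.log s))) *
        (2 ^ n * (1 + δ * (B₁ + l))) := ⟨_, by positivity, rfl⟩
      refine ⟨min 1 (1 / 8 / K), by positivity, fun x h h' => ?_⟩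
      have p := pV h
      have v1 := h'.trans (min_le_left _ _)
      have v2 := (le_div_iff₀ K0).1 (h'.trans (min_le_right _ _))
      have a1 : Real.exp (-(t * bar V W δ s η x)) ≤
          Real.exp (-(t * (δ * Real.log s))) * V x ^ 3 := by
        rw [← Real.exp_log (pow_pos p 3), ← Real.exp_add, Real.exp_le_exp, Real.log_pow]
        have := Real.log_nonpos p.le v1
        have := mul_le_mul_of_nonneg_left (lo x h) t0.le
        push_cast
        nlinarith
      have a2 : bb M G V W s x * V x ^ 2 ≤ B₁ + l := by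
        have b1 : ll M G (fun y => V y + s * W y) x ≤ B₁ / V x ^ 2 :=
          (div_le_div_of_nonneg_right ((le_abs_self _).trans (hB₁ x)) (sq_nonneg _)).trans
            (div_le_div_of_nonneg_left B1.le (pow_pos p 2) (pow_le_pow_left₀ p.le (lU x) 2))
        have b2 := (pk x h s hs.1.le).1
        have b3 : V x ^ 2 ≤ 1 := pow_le_one₀ p.le v1
        rw [le_div_iff₀ (pow_pos p 2)] at b1
        rw [bb, sub_mul]
        nlinarith [mul_le_mul_of_nonneg_right b2 (sq_nonneg (V x))]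
      have a3 : V x ^ 2 * (1 + δ * bb M G V W s x) ≤ 1 + δ * (B₁ + l) := by
        nlinarith [mul_le_mul_of_nonneg_left a2 δ0, pow_le_one₀ (n := 2) p.le v1]
      have a4 := (pk x h s hs.1.le).2.1
      calc _ ≤ Real.exp (-(t * (δ * Real.log s))) * V x ^ 3 *
            (2 ^ n * (1 + δ * bb M G V W s x)) := by gcongr
        _ = V x * (Real.exp (-(t * (δ * Real.log s))) *
            (2 ^ n * (V x ^ 2 * (1 + δ * bb M G V W s x)))) := by ring
        _ ≤ V x * K := by rw [hK]; gcongr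
        _ ≤ _ := v2)
  obtain ⟨m1, m3⟩ := slp hG pc p0 sU hP.sV (fun x => ⟨hP.nV x, lU x⟩) hP.nul
    fun x h => ⟨hp x h, sub_nonneg.1 (pk x h s hs.1.le).2.1⟩
  have m2 := m3.trans (ENNReal.ofReal_le_ofReal pI)
  rw [ENNReal.ofReal_mul l1, ofReal_measureReal] at m2
  have c0 : 0 ≤ η * Real.log (B + 1) := mul_nonneg hη.1.le lB
  obtain ⟨y, hy⟩ := hL (fun x => u x + η * Real.log (B + 1))
    (fun x => bar V W δ s η x + η * Real.log (B + 1)) (bb M G V W s) (M.dq G (G + M.hs u)) δ t t1 m1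
    (ae.mono fun x h => by
      have a4 := (pk x h s hs.1.le).2.1
      have a5 := mul_le_mul_of_nonneg_left (bar_lo (pV h) (hP.nW x) hs).2 δ0
      have a6 := mul_le_mul_of_nonneg_left (Real.log_le_log (pV h)
        (((le_abs_self _).trans (hB x)).trans (le_add_of_nonneg_right zero_le_one))) hη.1.le
      refine ⟨mul_nonneg δ0 a4, by linarith [(u3 x h).1], by rw [bar]; linarith,
        (u3 x h).2.trans ?_⟩
      rw [mul_add, mul_add (Real.exp _), ← mul_assoc, ← mul_assoc (Real.exp _), ← Real.exp_add,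
        ← Real.exp_add]
      refine add_le_add (le_of_eq ?_) (mul_le_mul_of_nonneg_right
        (Real.exp_le_exp.2 (by nlinarith [mul_nonneg t0.le c0])) (by norm_num))
      rw [show t * (u x + η * Real.log (B + 1)) + -(t * (bar V W δ s η x + η * Real.log (B + 1))) =
        t * u x + -(t * bar V W δ s η x) by ring])
    (by
      have e : ∀ x, ENNReal.ofReal (2 ^ n * (δ * bb M G V W s x)) =
          ENNReal.ofReal (2 ^ n * δ) * ENNReal.ofReal (bb M G V W s x) := fun x => by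
        rw [← mul_assoc, ENNReal.ofReal_mul (by positivity)]
      simp only [e]
      rw [lintegral_const_mul' _ _ ENNReal.ofReal_ne_top]
      refine (mul_le_mul_right m2 _).trans ?_
      rw [← mul_assoc, ← ENNReal.ofReal_mul (by positivity), div_eq_mul_inv, mul_comm (M.mu G univ)]
      refine mul_le_mul_left ?_ _
      rw [show (4 : ℝ≥0∞)⁻¹ = ENNReal.ofReal (1 / 4) by
        rw [one_div, ENNReal.ofReal_inv_of_pos four_pos, ENNReal.ofReal_ofNat]]
      refine ENNReal.ofReal_le_ofReal ?_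
      rw [pow_add] at hl
      linarith)
    (by
      have h1 := mCOH n M G G u hG.toMet hG.toClo u1
      have h2 := ((mINV n M G hG.toMet).1 _ u2.toTen).2.2.2.1.continuous
      simp only [hG.toMet.dq_self, integral_const, smul_eq_mul, mul_one] at h1
      rw [← ofReal_integral_eq_lintegral_ofReal (hint ℝ _ h2) (.of_forall fun x =>
        (((mINV n M G hG.toMet).2.2.2.2.2.2.2 _ u2.toMet).1 x).le), h1, ofReal_measureReal])
  obtain ⟨x₀, hx⟩ := u1.exists_max
  refine ⟨fun x => u x - u x₀, u1.sub (sm_const _), u2.congr fun e he z hz => ?_,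
    fun x => sub_nonpos.2 (hx x), ⟨x₀, sub_self _⟩, fun x h => ?_⟩
  · obtain ⟨a, -, b, -⟩ := (mLAP n M u (fun _ => u x₀) u1 (sm_const _)).1 (u x₀) e he z hz
    simp only [Pi.add_apply]
    rw [b, a, sub_zero]
  · have := mul_le_of_le_one_left lB hη.2
    linarith [(u3 x h).1, hx y]

end Pool.Agent.Lib.DM.XK
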