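import Pool.Agent.Lib.NV5.DomBlue
import Pool.Agent.Lib.RAA.T_KQ
import Pool.Agent.Lib.HS32.MAll

/-! Project NV5, block DOM: row NRM (the norm of a tensor is a function on the manifold). -/

open scoped Classical Topology ContDiff ComplexOrder Matrix
open Set Complex Metric Filter

set_option linter.unusedVariables false

noncomputable section

namespace Pool.Agent.Lib.DM

open Pool.Agent.Lib.SV (E nsq)
open Pool.Agent.Lib.HS32 Pool.Agent.Lib.EX
open Pool.Agent.Lib.RAA (hq kp kq hl st_KQ)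

namespace NRM

theorem kp_conj {n : ℕ} (N : ℕ) (T J : Mat n) :
    kp N (Jᴴ * T * J) = (kp N J)ᴴ * kp N T * kp N J := by
  obtain ⟨h1, h2, -⟩ := st_KQ N (Fin n) (Fin n) (Fin n)
  unfold kp
  rw [(h2 _).1, h1, h1]

theorem hq_conj {κ : Type} [Fintype κ] (H K : Matrix κ κ ℂ) (s : κ → ℂ) :
    hq (Kᴴ * H * K) s = hq H (K *ᵥ s) := by
  unfold hq
  rw [← Matrix.mulVec_mulVec, ← Matrix.mulVec_mulVec, Matrix.dotProduct_mulVec,
    Matrix.star_mulVec]

theorem hq_smul {κ : Type} [Fintype κ] (H : Matrix κ κ ℂ) (c : ℂ) (s : κ → ℂ) :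
    hq H (c • s) = normSq c * hq H s := by
  unfold hq
  rw [Matrix.mulVec_smul, star_smul, smul_dotProduct, dotProduct_smul, smul_eq_mul, smul_eq_mul,
    ← mul_assoc, star_def, ← Complex.normSq_eq_conj_mul_self, Complex.re_ofReal_mul]

theorem det_conj {n : ℕ} (T J : Mat n) : (Jᴴ * T * J).det.re = normSq J.det * T.det.re := by
  rw [Matrix.det_mul, Matrix.det_mul, Matrix.det_conjTranspose, mul_right_comm, star_def,
    ← Complex.normSq_eq_conj_mul_self, Complex.re_ofReal_mul]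

theorem uv_eq {n : ℕ} (N B : ℕ) (T T' : E n → Mat n) (s s' : E n → (Fin N → Fin n) → ℂ)
    (z z' : E n) (J : Mat n) (hJ : J.det ≠ 0) (hT : T' z' = Jᴴ * T z * J)
    (hs : J.det ^ B • s z = kp N J *ᵥ s' z') : uv N B T' s' z' = uv N B T s z := by
  unfold uv
  rw [hT, kp_conj, hq_conj, ← hs, hq_smul, det_conj, mul_pow, map_pow]
  have h : normSq J.det ^ B ≠ 0 := pow_ne_zero _ (by simpa using hJ)
  rw [mul_div_mul_left _ _ h]

end NRM

theorem dNRM (hCRV : St_CRV) : St_NRM := by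
  intro n M _ ι _ _ D N B s G hG hs
  obtain ⟨-, hOv, -, hSm, -⟩ := mTR n M
  have hcov : ∀ x : M.X, ∃ a, x ∈ (D.e a).source := by
    intro x
    by_contra h
    have h0 : ∀ a, D.χ a x = 0 := fun a => by
      by_contra h'
      exact h ⟨a, (D.supp a x h').1⟩
    have h1 := D.sum x
    simp [h0] at h1
  choose a ha using hcov
  have key : ∀ d, ∀ z ∈ B2 n, uv N B (G (D.e (a ((D.e d).symm z)))) (s (a ((D.e d).symm z)))
      (D.e (a ((D.e d).symm z)) ((D.e d).symm z)) = uv N B (G (D.e d)) (s d) z := by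
    intro d z hz
    have hz' : z ∈ (D.e d).target := by rw [D.tgt]; exact hz
    have hx := (D.e d).map_target hz'
    set x := (D.e d).symm z with hxd
    have hzx : D.e d x = z := (D.e d).right_inv hz'
    have h1 := hG.cmp _ (D.mem (a x)) _ (D.mem d) x (ha x) hx
    have h2 := hs.law (a x) d x (ha x) hx
    have h3 := (hOv _ (D.mem (a x)) _ (D.mem d) x (ha x) hx).2.1
    rw [← hzx]
    exact (NRM.uv_eq N B _ _ _ _ _ _ _ h3 h1 h2).symm
  refine ⟨fun x => uv N B (G (D.e (a x))) (s (a x)) (D.e (a x) x), ?_, fun d z hz => key d z hz⟩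
  refine (hSm ℝ _).2.2 fun x => ⟨D.e (a x), D.mem _, ha x, ?_⟩
  have hz : D.e (a x) x ∈ (D.e (a x)).target := (D.e (a x)).map_source (ha x)
  have hnb : ∀ᶠ w in 𝓝 (D.e (a x) x), w ∈ (D.e (a x)).target :=
    (D.e (a x)).open_target.mem_nhds hz
  have hzB : D.e (a x) x ∈ B2 n := by rw [← D.tgt (a x)]; exact hz
  have hc := ((hCRV n N B).1 (G (D.e (a x))) (s (a x)) (D.e (a x) x)
    (hnb.mono fun w hw => ⟨hG.sm _ (D.mem _) w hw, hG.pos _ (D.mem _) w hw⟩)
    (hs.hol _ _ hzB)).1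
  refine hc.congr_of_eventuallyEq (hnb.mono fun w hw => ?_)
  exact key (a x) w (by rw [← D.tgt (a x)]; exact hw)

end Pool.Agent.Lib.DM
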