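import Pool.Agent.Lib.NV5.DomBlue

/-! Project NV5, block DOM, row VOL: the volume argument. -/

open scoped Classical Topology ENNReal
open Set MeasureTheory Filter

noncomputable section

namespace Pool.Agent.Lib.DM

namespace VOL

theorem tail {Y : Type} [MeasurableSpace Y] (μ : Measure Y) [IsFiniteMeasure μ] {q : Y → ℝ}
    (hq : Measurable q) {ε : ℝ≥0∞} (hε : 0 < ε) : ∃ L : ℕ, μ {x | (L : ℝ) < q x} ≤ ε := by
  have h1 : Antitone fun L : ℕ => {x | (L : ℝ) < q x} := fun a b hab x (hx : (b : ℝ) < q x) =>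
    lt_of_le_of_lt (Nat.cast_le.2 hab) hx
  have h2 := tendsto_measure_iInter_atTop (μ := μ)
    (fun L : ℕ => (measurableSet_lt measurable_const hq).nullMeasurableSet) h1
    ⟨0, measure_ne_top _ _⟩
  have h3 : ⋂ L : ℕ, {x | (L : ℝ) < q x} = ∅ := by
    refine eq_empty_of_forall_notMem fun x hx => ?_
    obtain ⟨L, hL⟩ := exists_nat_ge (q x)
    exact absurd (mem_iInter.1 hx L) (not_lt.2 hL)
  rw [h3, measure_empty] at h2
  exact ((tendsto_order.1 h2).2 ε hε).exists.imp fun L h => h.le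

theorem point {K t u Ψ β F q L : ℝ} (hK : 0 ≤ K) (ht : 8 * K ≤ t) (hL : 0 ≤ L) (hβ : 0 ≤ β)
    (h1 : u ≤ Ψ) (h2 : -q ≤ Ψ) (hu : u < -(L + 1))
    (hF : F ≤ Real.exp (t * u) * (Real.exp (-(t * Ψ)) * (K * (1 + β)) + 1 / 8)) :
    F ≤ 1 / 4 + (if L < q then K else 0) + K * β := by
  have ht0 : 0 ≤ t := by linarith
  have e : Real.exp (t * u) * (Real.exp (-(t * Ψ)) * (K * (1 + β)) + 1 / 8) =
      Real.exp (t * (u - Ψ)) * K + Real.exp (t * (u - Ψ)) * (K * β) + Real.exp (t * u) / 8 := by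
    rw [mul_sub, sub_eq_add_neg, Real.exp_add]
    ring
  have a1 : Real.exp (t * (u - Ψ)) ≤ 1 :=
    Real.exp_le_one_iff.2 (mul_nonpos_of_nonneg_of_nonpos ht0 (by linarith))
  have a2 : Real.exp (t * u) ≤ 1 :=
    Real.exp_le_one_iff.2 (mul_nonpos_of_nonneg_of_nonpos ht0 (by linarith))
  have a3 : Real.exp (t * (u - Ψ)) * (K * β) ≤ K * β :=
    mul_le_of_le_one_left (mul_nonneg hK hβ) a1
  have a4 : Real.exp (t * (u - Ψ)) * K ≤ 1 / 8 + (if L < q then K else 0) := by
    by_cases hq : L < q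
    · rw [if_pos hq]
      linarith [mul_le_of_le_one_left hK a1]
    · rw [if_neg hq]
      have b1 : t * (u - Ψ) ≤ -t := by nlinarith [not_lt.1 hq]
      have b2 : Real.exp (t * (u - Ψ)) * Real.exp t ≤ 1 := by
        rw [← Real.exp_add]
        exact Real.exp_le_one_iff.2 (by linarith)
      have b3 := Real.add_one_le_exp t
      have b4 := Real.exp_pos (t * (u - Ψ))
      nlinarith
  linarith

end VOL

theorem dVOL : St_VOL := by
  intro Y _ μ _ q K hμ hq hK
  have hm0 : μ univ ≠ 0 := Measure.measure_univ_ne_zero.2 hμ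
  have hmt : μ univ ≠ ⊤ := measure_ne_top _ _
  have hm : 0 < (μ univ).toReal := ENNReal.toReal_pos hm0 hmt
  have hme : μ univ = ENNReal.ofReal (μ univ).toReal := (ENNReal.ofReal_toReal hmt).symm
  generalize (μ univ).toReal = m at hm hme
  obtain ⟨L, hL⟩ := VOL.tail μ hq.measurable_mk
    (ENNReal.ofReal_pos.2 (by positivity : 0 < m / (8 * (K + 1))))
  refine ⟨L + 1, 8 * K, fun u Ψ b F δ t ht hb hae h1 h2 => ?_⟩
  by_contra hn
  have hu : ∀ x, u x < -((L : ℝ) + 1) := fun x => not_le.1 fun h => hn ⟨x, h⟩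
  have hS : MeasurableSet {x | (L : ℝ) < hq.mk q x} :=
    measurableSet_lt measurable_const hq.measurable_mk
  have h3 : ∫⁻ x, ENNReal.ofReal (F x) ∂μ ≤ ∫⁻ x, (ENNReal.ofReal (1 / 4) +
      {x | (L : ℝ) < hq.mk q x}.indicator (fun _ => ENNReal.ofReal K) x) +
      ENNReal.ofReal (K * (δ * b x)) ∂μ := by
    refine lintegral_mono_ae ?_
    filter_upwards [hae, hq.ae_eq_mk] with x hx hx'
    have h4 := VOL.point hK ht (Nat.cast_nonneg L) hx.1 hx.2.1 hx.2.2.1 (hu x) hx.2.2.2
    refine (ENNReal.ofReal_le_ofReal h4).trans (ENNReal.ofReal_add_le.trans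
      (add_le_add (ENNReal.ofReal_add_le.trans (add_le_add le_rfl ?_)) le_rfl))
    by_cases h5 : (L : ℝ) < q x
    · rw [if_pos h5, indicator_of_mem (show x ∈ {x | (L : ℝ) < hq.mk q x} from h5.trans_eq hx')]
    · rw [if_neg h5, ENNReal.ofReal_zero]
      exact bot_le
  rw [lintegral_add_left (measurable_const.fun_add (measurable_const.indicator hS)),
    lintegral_add_left measurable_const, lintegral_const, lintegral_indicator_const hS] at h3
  have h6 : ENNReal.ofReal K * μ {x | (L : ℝ) < hq.mk q x} ≤ ENNReal.ofReal (m / 8) := by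
    refine (mul_le_mul_right hL _).trans ?_
    rw [← ENNReal.ofReal_mul hK]
    refine ENNReal.ofReal_le_ofReal ?_
    rw [← mul_div_assoc, div_le_div_iff₀ (by positivity) (by positivity)]
    nlinarith
  have h7 : μ univ / 4 = ENNReal.ofReal (m / 4) := by
    rw [hme, ENNReal.ofReal_div_of_pos (by norm_num), ENNReal.ofReal_ofNat]
  have h8 := h2.trans (h3.trans (add_le_add (add_le_add le_rfl h6) h1))
  rw [h7, hme, ← ENNReal.ofReal_mul (by norm_num),
    ← ENNReal.ofReal_add (by positivity) (by positivity),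
    ← ENNReal.ofReal_add (by positivity) (by positivity),
    ENNReal.ofReal_le_ofReal_iff (by positivity)] at h8
  linarith

end Pool.Agent.Lib.DM
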