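import Pool.Agent.Lib.NV5.X_MAE
import Pool.Agent.Lib.NV5.D_SLP
import Pool.Agent.Lib.NV5.D_LOG

/-! Project NV5, domination on resolutions: the part without divisors. -/

open scoped Classical Topology ContDiff ENNReal ComplexOrder Matrix
open Set MeasureTheory Complex Metric Filter

set_option linter.unusedVariables false

noncomputable section

namespace Pool.Agent.Lib.DM.K63

open Pool.Agent.Lib.HS32

variable {n : ℕ} {M : Mf n}

variable (M) in
/-- The form that concentrates on the zero set. -/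
def pk (σ : M.X → ℝ) (Θ : M.Fam (Mat n)) : M.Fam (Mat n) :=
  fun e z => M.hs σ e z + σ (e.symm z) • Θ e z

variable (M) in
/-- The squared norm of a section and the curvature of the metric. -/
structure Sg (σ : M.X → ℝ) (Θ : M.Fam (Mat n)) : Prop where
  sm : M.Sm σ
  nn : ∀ x, 0 ≤ σ x
  ne : ∃ x, σ x ≠ 0
  clo : M.Clo Θ
  psd : M.Le 0 (pk M σ Θ)
  eqn : M.All fun e z => σ (e.symm z) • pk M σ Θ e z = M.ds σ σ e z

variable {G H B Θ β : M.Fam (Mat n)} {σ F : M.X → ℝ} {δ C : ℝ}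

theorem pk_form (hσ : M.Sm σ) (hΘ : M.Form Θ) : M.Form (pk M σ Θ) :=
  ((mHES n M).1 σ hσ).toForm.add (hΘ.fsmul hσ)

theorem le0 {T : M.Fam (Mat n)} : M.Le 0 T ↔ M.All fun e z => (T e z).PosSemidef := by
  simp only [Mf.Le, Pi.zero_apply, sub_zero]

theorem psd_closed : IsClosed {A : Mat n | A.PosSemidef} := by
  simp only [Matrix.posSemidef_iff_dotProduct_mulVec, ofPred_and, ofPred_forall]
  exact (isClosed_eq continuous_id.matrix_conjTranspose continuous_id).inter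
    (isClosed_iInter fun x => isClosed_le continuous_const
      (continuous_const.dotProduct (continuous_id.matrix_mulVec continuous_const)))

theorem Sg.of_dense (hσ : M.Sm σ) (h0 : ∀ x, 0 ≤ σ x) (hne : ∃ x, σ x ≠ 0) (hΘ : M.Clo Θ)
    {S : Set M.Ch} (hS : M.Sub S) (h : M.AllOn S fun e z => ∃ᶠ w in 𝓝 z, σ (e.symm w) ≠ 0 ∧
      hess (fun y => (Real.log (σ (e.symm y)) : ℝ)) w = -Θ e w) : Sg M σ Θ := by
  have hp := pk_form hσ hΘ.toForm
  have hd := ((mHES n M).2.2.1 σ hσ)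
  have k : M.AllOn S fun e z => ∃ᶠ w in 𝓝 z, 0 < σ (e.symm w) ∧ w ∈ e.target ∧
      σ (e.symm w) • pk M σ Θ e w = M.ds σ σ e w := fun e he z hz => by
    refine ((h e he z hz).and_eventually (e.open_target.mem_nhds hz)).mono fun w hw => ?_
    have p : 0 < σ (e.symm w) := (h0 _).lt_of_ne' hw.1.1
    refine ⟨p, hw.2, ?_⟩
    have l : (σ (e.symm w))⁻¹ • M.hs σ e w - (σ (e.symm w) ^ 2)⁻¹ • M.ds σ σ e w = -Θ e w :=
      (LOG.log36 (hσ e (hS.sub he) w hw.2) p).symm.trans hw.1.2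
    have l2 : (σ (e.symm w))⁻¹ • M.hs σ e w + Θ e w = (σ (e.symm w) ^ 2)⁻¹ • M.ds σ σ e w := by
      rw [← sub_eq_zero, add_sub_right_comm, l, neg_add_cancel]
    have l3 := congrArg (σ (e.symm w) ^ 2 • ·) l2
    simp only [smul_add, smul_smul] at l3
    rw [mul_inv_cancel₀ (by positivity), one_smul, pow_two, mul_inv_cancel_right₀ p.ne'] at l3
    rw [← l3, pk, smul_add, smul_smul]
  refine ⟨hσ, h0, hne, hΘ, le0.2 (((mSUB n M S hS).1 _ hp.toTen).2.2.1 fun e he z hz => ?_),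
    ((mSUB n M S hS).1 _ (hp.toTen.fsmul hσ)).2.2.2.2.1 _ hd.1.toTen fun e he z hz => ?_⟩
  · refine psd_closed.mem_of_frequently_of_tendsto ((k e he z hz).mono fun w hw => ?_)
      (hp.sm e (hS.sub he) z hz).continuousAt
    have := Mf.psd_rsmul (le0.1 hd.2 e (hS.sub he) w hw.2.1) (inv_pos.2 hw.1).le
    rwa [← hw.2.2, smul_smul, inv_mul_cancel₀ hw.1.ne', one_smul] at this
  · exact tendsto_nhds_unique_of_frequently_eq
      ((hp.toTen.fsmul hσ).sm e (hS.sub he) z hz).continuousAt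
      (hd.1.sm e (hS.sub he) z hz).continuousAt ((k e he z hz).mono fun w hw => hw.2.2)

namespace Sg

theorem pos (h : Sg M σ Θ) (hδ : 0 < δ) (x : M.X) : 0 < σ x + δ :=
  add_pos_of_nonneg_of_pos (h.nn x) hδ

theorem lsm (h : Sg M σ Θ) (hδ : 0 < δ) : M.Sm fun x => Real.log (σ x + δ) :=
  (h.sm.add (Mf.sm_const δ)).log fun x => (h.pos hδ x).ne'

theorem lam (h : Sg M σ Θ) (hδ : 0 < δ) : M.Sm fun x => δ / (σ x + δ) :=
  (Mf.sm_const δ).div (h.sm.add (Mf.sm_const δ)) fun x => (h.pos hδ x).ne'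

theorem lam2 (h : Sg M σ Θ) (hδ : 0 < δ) : M.Sm fun x => δ / (σ x + δ) ^ 2 :=
  (Mf.sm_const δ).div ((h.sm.add (Mf.sm_const δ)).pow 2) fun x => pow_ne_zero 2 (h.pos hδ x).ne'

theorem lam01 (h : Sg M σ Θ) (hδ : 0 < δ) (x : M.X) : 0 ≤ δ / (σ x + δ) ∧ δ / (σ x + δ) ≤ 1 :=
  ⟨div_nonneg hδ.le (h.pos hδ x).le, (div_le_one (h.pos hδ x)).2 (le_add_of_nonneg_left (h.nn x))⟩

theorem hs_log (h : Sg M σ Θ) (hδ : 0 < δ) : M.All fun e z =>
    M.hs (fun x => Real.log (σ x + δ)) e z + Θ e z = (δ / (σ (e.symm z) + δ)) • Θ e z +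
      (δ / (σ (e.symm z) + δ) ^ 2) • pk M σ Θ e z := fun e he z hz => by
  have p := (h.pos hδ (e.symm z)).ne'
  have k := (((mLAP n M σ σ h.sm h.sm).2.1 (fun t => Real.log (t + δ)) fun x =>
    (contDiffAt_id.add contDiffAt_const).log (h.pos hδ x).ne').2 e he z hz).1
  rw [SLP.d1, SLP.d2, ← h.eqn e he z hz] at k
  beta_reduce
  have k2 : M.hs σ e z = pk M σ Θ e z - σ (e.symm z) • Θ e z := eq_sub_of_add_eq rfl
  rw [k, k2]
  generalize pk M σ Θ e z = A
  ext i j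
  simp only [Matrix.add_apply, Matrix.sub_apply, Matrix.smul_apply, real_smul]
  have p' : ((σ (e.symm z) : ℝ) : ℂ) + δ ≠ 0 := by exact_mod_cast p
  push_cast
  field_simp
  ring

theorem low (h : Sg M σ Θ) (hH : M.Met H) (C0 : 0 ≤ C) (hC : M.Le Θ (C • H)) :
    ∀ δ > 0, M.Le 0 (C • H + M.hs fun x => Real.log (σ x + δ)) := fun δ hδ => le0.2
  fun e he z hz => by
    obtain ⟨l0, l1⟩ := h.lam01 hδ (e.symm z)
    have k := ((Mf.psd_rsmul (hC e he z hz) (sub_nonneg.2 l1)).add (Mf.psd_rsmul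
      (Mf.psd_rsmul (hH.pos e he z hz).posSemidef C0) l0)).add (Mf.psd_rsmul
      (le0.1 h.psd e he z hz) (div_nonneg hδ.le (sq_nonneg (σ (e.symm z) + δ))))
    refine (congrArg Matrix.PosSemidef ?_).mp k
    simp only [Pi.add_apply, Pi.smul_apply, eq_sub_of_add_eq (h.hs_log hδ e he z hz), sub_smul,
      smul_sub, one_smul]
    abel

theorem qq (h : Sg M σ Θ) (hδ : 0 < δ) (hC : M.Le (-(C • H)) Θ) :
    M.Le 0 ((M.hs fun x => Real.log (σ x + δ)) + Θ +
      fun e z => (δ / (σ (e.symm z) + δ)) • (C • H) e z) := le0.2 fun e he z hz => by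
  have k := (Mf.psd_rsmul (hC e he z hz) (h.lam01 hδ (e.symm z)).1).add (Mf.psd_rsmul
    (le0.1 h.psd e he z hz) (div_nonneg hδ.le (sq_nonneg (σ (e.symm z) + δ))))
  refine (congrArg Matrix.PosSemidef ?_).mp k
  simp only [Pi.add_apply, Pi.neg_apply, h.hs_log hδ e he z hz, sub_neg_eq_add, smul_add]
  abel

variable [M.Cpt]

theorem lam0 (h : Sg M σ Θ) (hG : M.Met G) {q : M.X → ℝ} (hq : M.Sm q) {η : ℝ} (η0 : 0 < η) :
    ∀ᶠ δ in 𝓝[>] (0 : ℝ), ∫ x, δ / (σ x + δ) * q x ∂M.mu G ≤ η := by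
  obtain ⟨C, C0, hC, -⟩ := (mBD n M G hG).1 Θ h.clo.toForm
  obtain ⟨S, S0, hS⟩ := h.sm.exists_bound
  obtain ⟨K, K0, hK⟩ := hq.exists_bound
  have σ1 : ∀ x, 0 ≤ σ x ∧ σ x ≤ S := fun x => ⟨h.nn x, (le_abs_self _).trans (hS x)⟩
  obtain ⟨A, A0, hA⟩ := psi_bd hG h.sm σ1 h.ne (h.low hG C0.le hC) (Mf.sm_const K)
  have := (mMU n M G hG).2.1
  set R := 2 * (A + 1) / η with hR
  have R0 : 0 < R := by positivity
  have t : Tendsto (fun δ : ℝ => δ * (Real.exp R * K * (M.mu G).real univ)) (𝓝[>] 0) (𝓝 0) := by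
    simpa using ((continuous_mul_const (Real.exp R * K * (M.mu G).real univ)).tendsto 0).mono_left
      (nhdsWithin_le_nhds (s := Ioi 0))
  filter_upwards [t.eventually (gt_mem_nhds (half_pos η0)), Ioc_mem_nhdsGT zero_lt_one] with δ a b
  have hψ := ((Mf.sm_const S).sub (h.lsm b.1)).mul (Mf.sm_const K)
  calc _ ≤ ∫ x, (δ * Real.exp R * K + R⁻¹ * ((S - Real.log (σ x + δ)) * K)) ∂M.mu G :=
        integral_mono (int hG ((h.lam b.1).mul hq).continuous)
          (int hG ((Mf.sm_const _).add (hψ.const_mul _)).continuous) fun x =>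
          (mul_le_mul_of_nonneg_left ((le_abs_self _).trans (hK x)) (h.lam01 b.1 x).1).trans
            ((mul_le_mul_of_nonneg_right (lam_le (h.nn x) b.1 S0.le R0 (by
              linarith [Real.log_le_sub_one_of_pos (h.pos b.1 x), (σ1 x).2, b.2])) K0.le).trans_eq
              (by ring))
    _ ≤ η := by
        rw [integral_add (integrable_const _) (int hG (hψ.const_mul _).continuous),
          integral_const, integral_const_mul, smul_eq_mul]
        have k : R⁻¹ * (A + 1) = η / 2 := by rw [hR]; field_simp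
        have k2 := mul_le_mul_of_nonneg_left ((hA δ b).trans (le_add_of_nonneg_right zero_le_one))
          (inv_pos.2 R0).le
        linarith

theorem grn (h : Sg M σ Θ) (hG : M.Kae G) (hδ : 0 < δ) :
    ∫ x, M.tr G ((M.hs fun x => Real.log (σ x + δ)) + Θ) x ∂M.mu G = ∫ x, M.tr G Θ x ∂M.mu G := by
  have k := ((mGRN n M).2 G _ _ hG (h.lsm hδ) (h.lsm hδ)).1
  simp only [Mf.tr_add]
  rw [integral_add (int hG.toMet (tr_c hG.toMet ((mHES n M).1 _ (h.lsm hδ)).toTen))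
    (int hG.toMet (tr_c hG.toMet h.clo.toTen))]
  exact (congrArg (· + _) k).trans (zero_add _)

theorem qint (h : Sg M σ Θ) (hG : M.Kae G) (hH : M.Form H) (hδ : 0 < δ) :
    ∫ x, M.tr G ((M.hs fun x => Real.log (σ x + δ)) + Θ +
      fun e z => (δ / (σ (e.symm z) + δ)) • (C • H) e z) x ∂M.mu G =
      ∫ x, M.tr G Θ x ∂M.mu G + C * ∫ x, δ / (σ x + δ) * M.tr G H x ∂M.mu G := by
  rw [← h.grn hG hδ, ← integral_const_mul, ← integral_add (int hG.toMet (tr_c hG.toMet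
    (((mHES n M).1 _ (h.lsm hδ)).toTen.add h.clo.toTen))) (int hG.toMet (continuous_const.fun_mul
      ((h.lam hδ).continuous.fun_mul (tr_c hG.toMet hH.toTen))))]
  refine integral_congr_ae (ae_of_all _ fun x => ?_)
  beta_reduce
  rw [Mf.tr_add, Mf.tr_fsmul (fun x => δ / (σ x + δ)), Mf.tr_smul]
  ring

theorem split (h : Sg M σ Θ) (hG : M.Kae G) (hδ : 0 < δ) :
    ∫ x, M.tr G Θ x ∂M.mu G = ∫ x, δ / (σ x + δ) * M.tr G Θ x ∂M.mu G +
      ∫ x, δ / (σ x + δ) ^ 2 * M.tr G (pk M σ Θ) x ∂M.mu G := by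
  rw [← h.grn hG hδ, ← integral_add (int hG.toMet ((h.lam hδ).continuous.fun_mul
    (tr_c hG.toMet h.clo.toTen))) (int hG.toMet ((h.lam2 hδ).continuous.fun_mul
    (tr_c hG.toMet (pk_form h.sm h.clo.toForm).toTen)))]
  refine integral_congr_ae (ae_of_all _ fun x => ?_)
  beta_reduce
  rw [← Mf.tr_fsmul (fun x => δ / (σ x + δ)), ← Mf.tr_fsmul (fun x => δ / (σ x + δ) ^ 2),
    ← Mf.tr_add]
  exact congrFun (Mf.tr_congr (fun _ _ _ _ => rfl) (h.hs_log hδ)) x

/-- The degree of an effective class is monotone. -/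
theorem deg_le (h : Sg M σ Θ) (hG : M.Kae G) (hB : M.Kae B) (hl : M.Le G B) :
    ∫ x, M.tr G Θ x ∂M.mu G ≤ ∫ x, M.tr B Θ x ∂M.mu B := by
  obtain ⟨C, C0, -, hC⟩ := (mBD n M B hB.toMet).1 Θ h.clo.toForm
  refine le_of_forall_pos_le_add fun η η0 => ?_
  obtain ⟨δ, a, hδ⟩ := ((h.lam0 hB.toMet ((mINV n M B hB.toMet).1 B hB.toTen).2.1
    (div_pos η0 C0)).and self_mem_nhdsWithin).exists
  have f := (((mHES n M).1 _ (h.lsm hδ)).toForm.add h.clo.toForm).add
    ((hB.toForm.smul C).fsmul (h.lam hδ))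
  have k := mono hG.toMet hB.toMet hl f (h.qq hδ hC) (w := fun _ => 1) continuous_const
    fun _ => zero_le_one
  simp only [one_mul] at k
  rw [h.qint hG hB.toForm hδ, h.qint hB hB.toForm hδ] at k
  have k2 : 0 ≤ ∫ x, δ / (σ x + δ) * M.tr G B x ∂M.mu G := integral_nonneg fun x =>
    mul_nonneg (h.lam01 hδ x).1 (hG.toMet.tr_nonneg hB.toMet.nonneg x)
  have k3 := (le_div_iff₀ C0).1 a
  nlinarith [mul_nonneg C0.le k2]

end Sg

variable [M.Cpt]

/-- The metrics with a mean bound for the Ricci curvature. -/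
theorem kxa (hA : HS.St_AUBIN) (hn : 0 < n) (hG : M.Kae G) (hB : M.Kae B) (hl : M.Le G B)
    (h : Sg M σ Θ) (hF : M.Sm F) {a η : ℝ} (a0 : 0 ≤ a) (η0 : 0 < η)
    (hr : M.Le (M.hs F - M.ric G) (G + a • Θ)) : ∃ u Q, M.Sm u ∧ M.Kae (G + M.hs u) ∧ M.Form Q ∧
      M.Le 0 Q ∧ M.Le 0 (Q + M.ric (G + M.hs u)) ∧
      ∫ x, M.tr (G + M.hs u) Q x ∂M.mu (G + M.hs u) ≤
        n * (M.mu (G + M.hs u)).real univ + a * ∫ x, M.tr B Θ x ∂M.mu B + η := by
  obtain ⟨C, C0, h1, h2⟩ := (mBD n M B hB.toMet).1 Θ h.clo.toForm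
  obtain ⟨δ, hδ, u, u1, u2, u3, u4⟩ := mae hA hn hB hG h.sm h.nn h.ne hF a0 C0.le
    (h.low hB.toMet C0.le h1) (η := η / (a * C + 1)) (by positivity)
  have fl := (mHES n M).1 _ (h.lsm hδ)
  have f := (fl.toForm.add h.clo.toForm).add ((hB.toForm.smul C).fsmul (h.lam hδ))
  have q := h.qq hδ h2
  refine ⟨u, _, u1, u2, u2.toForm.add (f.smul a), ?_, le0.2 fun e he z hz => ?_, ?_⟩
  · simpa using u2.toMet.nonneg.add (q.smul a0)
  · have r := ((mHES n M).2.2.2.2.2.2.2.2.2 _ G u2.toMet hG.toMet).2 e he z hz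
    simp only [u3, Real.log_exp] at r
    have s1 := h.lsm hδ
    have s2 := s1.const_mul a
    have e1 := ((mLAP n M _ _ u1 (hF.add s2)).1 0 e he z hz).2.1
    have e2 := ((mLAP n M _ _ hF s2).1 0 e he z hz).2.1
    have e3 := ((mLAP n M _ _ s1 s1).1 a e he z hz).2.2.2.1
    have k := (hr e he z hz).add (Mf.psd_rsmul (Mf.psd_rsmul (Mf.psd_rsmul
      (hB.pos e he z hz).posSemidef C0.le) (h.lam01 hδ (e.symm z)).1) a0)
    refine (congrArg Matrix.PosSemidef ?_).mp k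
    simp only [Pi.add_apply, Pi.sub_apply, Pi.smul_apply, r, e1, e2, e3, smul_add]
    abel
  · have := (mMU n M _ u2.toMet).2.1
    simp only [Mf.tr_add (S := G + M.hs u), Mf.tr_smul a, u2.toMet.tr_self]
    rw [integral_add (integrable_const _) ((int u2.toMet (tr_c u2.toMet f.toTen)).const_mul a),
      integral_const_mul, h.qint u2 hB.toForm hδ, mix hG u1 u2.toMet h.clo, integral_const,
      smul_eq_mul]
    have k := (le_div_iff₀ (by positivity)).1 u4
    have k2 : 0 ≤ ∫ x, δ / (σ x + δ) * M.tr (G + M.hs u) B x ∂M.mu (G + M.hs u) :=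
      integral_nonneg fun x => mul_nonneg (h.lam01 hδ x).1 (u2.toMet.tr_nonneg hB.toMet.nonneg x)
    nlinarith [mul_le_mul_of_nonneg_left (h.deg_le hG hB hl) a0]

theorem tr_pos' {A T : Mat n} (hA : A.PosDef) (hT : T.PosSemidef) (h0 : T ≠ 0) :
    0 < (A⁻¹ * T).trace.re := by
  refine lt_of_not_ge fun k => h0 ?_
  have k2 := HS76.le_tr_smul hA hT k
  rw [ofReal_zero, zero_smul, zero_sub] at k2
  have k3 := (hT.trace_eq_zero_iff).1 (le_antisymm (by simpa using k2.trace_nonneg)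
    hT.trace_nonneg)
  exact k3

/-- The degree of an exceptional class tends to zero. -/
theorem exc (hH : M.Kae H) (hβ : M.Clo β) (β0 : M.Le 0 β) (h : Sg M σ Θ)
    (hd : ∀ x, σ x = 0 → ∃ e ∈ M.C, x ∈ e.source ∧ pk M σ Θ e (e x) ≠ 0 ∧
      ((β e (e x)).adjugate * pk M σ Θ e (e x)).trace = 0) {η : ℝ} (η0 : 0 < η) :
    ∀ᶠ ε in 𝓝[>] (0 : ℝ), ∫ x, M.tr (β + ε • H) Θ x ∂M.mu (β + ε • H) ≤ η := by
  have hm := hH.toMet
  have hp := pk_form h.sm h.clo.toForm
  have hK : ∀ ε > (0 : ℝ), M.Kae (β + ε • H) := fun ε ε0 =>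
    { hβ.add (hH.toClo.smul ε), (hm.smul ε0).of_le (hβ.toForm.add (hH.toForm.smul ε))
      (by simpa using β0.add (Mf.Le.refl (ε • H))) with }
  obtain ⟨K, K0, hKb⟩ := ((mINV n M H hm).1 Θ h.clo.toTen).2.1.exists_bound
  have fin := (mMU n M H hm).2.1
  set V := 2 * K * (M.mu H).real univ + 1 with hV
  have V0 : 0 < V := by positivity
  let m : ℝ → M.X → ℝ := fun ε x => M.dq H (β + ε • H) x * M.tr (β + ε • H) (pk M σ Θ) x
  have mc : ∀ ε > (0 : ℝ), Continuous (m ε) := fun ε ε0 =>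
    (dq_c hm (hK ε ε0).toTen).mul (tr_c (hK ε ε0).toMet hp.toTen)
  have mm : ∀ ε > (0 : ℝ), ∀ ε' ≥ ε, ∀ x, m ε x ≤ m ε' x := fun ε ε0 ε' l x => by
    simp only [m, dq_tr hm]
    refine div_le_div_of_nonneg_right (adj_mono ((hK ε ε0).toMet.ev_pos x) ?_ (ev_psd h.psd x))
      (HS76.det_re_pos (hm.ev_pos x)).le
    exact Mf.AllOn.ch ((Mf.Le.refl β).add (hm.le_smul l)) x
  have tc := tr_c hm hp.toTen
  let U : ℕ → Set M.X := fun k => {x | m (1 / (k + 1)) x < η / 3 / V * M.tr H (pk M σ Θ) x}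
  have Uo : ∀ k, IsOpen (U k) := fun k =>
    isOpen_lt (mc _ Nat.one_div_pos_of_nat) (continuous_const.mul tc)
  obtain ⟨k, hk⟩ := (isClosed_eq h.sm.continuous continuous_const : IsClosed {x | σ x = 0})
    |>.isCompact.elim_directed_cover U Uo (fun x hx => by
      obtain ⟨e, he, h1, h2, h3⟩ := hd x hx
      have hz := e.map_source h1
      have t0 : 0 < η / 3 / V * M.tr H (pk M σ Θ) x := by
        rw [((mINV n M H hm).1 _ hp.toTen).1.at he h1]
        exact mul_pos (by positivity) (tr_pos' (hm.pos e he _ hz) (le0.1 h.psd e he _ hz) h2)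
      have c : Continuous fun ε : ℝ => (((β e (e x) + ε • H e (e x)).adjugate *
          pk M σ Θ e (e x)).trace / (H e (e x)).det).re :=
        continuous_re.comp ((((continuous_const.add (continuous_id.smul
          continuous_const)).matrix_adjugate.matrix_mul continuous_const).matrix_trace).div_const _)
      have t1 := (c.tendsto 0).comp (tendsto_one_div_add_atTop_nhds_zero_nat (𝕜 := ℝ))
      rw [zero_smul, add_zero, h3, zero_div, zero_re] at t1
      obtain ⟨k, hk⟩ := (t1.eventually (gt_mem_nhds t0)).exists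
      refine mem_iUnion.2 ⟨k, lt_of_eq_of_lt ?_ hk⟩
      have g := (hK _ (Nat.one_div_pos_of_nat (n := k))).toMet
      have a1 := ((mINV n M H hm).2.1 _ g.toForm e he _ hz).2.1
      have a2 := ((mINV n M _ g).2.1 _ hp e he _ hz).1
      rw [e.left_inv h1] at a1 a2
      rw [← adj_tr] at a2
      have a3 := congrArg re (congrArg₂ (· * ·) a1 a2)
      rw [← ofReal_mul, ofReal_re, div_mul_div_comm, mul_comm (H e (e x)).det,
        mul_div_mul_left _ _ (g.det_ne e he _ hz)] at a3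
      exact a3)
      (directed_of_isDirected_le fun a b l x hx => (mm _ Nat.one_div_pos_of_nat _
        (Nat.one_div_le_one_div l) x).trans_lt hx)
  obtain ⟨κ, κ0, hκ⟩ := (Uo k).isClosed_compl.isCompact.exists_forall_le' (a := (0 : ℝ))
    h.sm.continuous.continuousOn fun x hx => (h.nn x).lt_of_ne' fun l => hx (hk l)
  filter_upwards [Ioc_mem_nhdsGT (Nat.one_div_pos_of_nat (α := ℝ) (n := k))] with ε hε
  have g := hK ε hε.1
  have t : Tendsto (fun δ : ℝ => δ / κ ^ 2 * ∫ x, m ε x ∂M.mu H) (𝓝[>] 0) (𝓝 0) := by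
    simpa using (((continuous_id'.div_const (κ ^ 2)).fun_mul (continuous_const
      (y := ∫ x, m ε x ∂M.mu H))).tendsto 0).mono_left (nhdsWithin_le_nhds (s := Ioi 0))
  have η3 : 0 < η / 3 := by positivity
  obtain ⟨δ, ⟨d1, d2⟩, hδ⟩ := (((h.lam0 g.toMet ((mINV n M _ g.toMet).1 Θ h.clo.toTen).2.1 η3).and
    (t.eventually (gt_mem_nhds η3))).and self_mem_nhdsWithin).exists
  have l2 := (h.lam2 hδ).continuous
  have b1 : ∫ x, δ / (σ x + δ) ^ 2 * M.tr H (pk M σ Θ) x ∂M.mu H ≤ V := by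
    have s := h.split hH hδ
    have cΘ := tr_c hm h.clo.toTen
    rw [← sub_eq_iff_eq_add', ← integral_sub (int hm cΘ)
      (int hm ((h.lam hδ).continuous.fun_mul cΘ))] at s
    rw [← s]
    refine (integral_mono (int hm (cΘ.fun_sub ((h.lam hδ).continuous.fun_mul cΘ)))
      (integrable_const (2 * K)) fun x => ?_).trans (by rw [integral_const, smul_eq_mul]; linarith)
    obtain ⟨l0, l1⟩ := h.lam01 hδ x
    have := abs_le.1 (hKb x)
    nlinarith
  rw [h.split g hδ, ((mMU n M H hm).2.2.2.2.2.2 _ g.toMet).2.1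
    fun x => δ / (σ x + δ) ^ 2 * M.tr (β + ε • H) (pk M σ Θ) x]
  have b2 : ∫ x, M.dq H (β + ε • H) x * (δ / (σ x + δ) ^ 2 * M.tr (β + ε • H) (pk M σ Θ) x)
      ∂M.mu H ≤ ∫ x, (η / 3 / V * (δ / (σ x + δ) ^ 2 * M.tr H (pk M σ Θ) x) +
        δ / κ ^ 2 * m ε x) ∂M.mu H := integral_mono
    (int hm ((dq_c hm g.toTen).mul (l2.mul (tr_c g.toMet hp.toTen))))
    (int hm ((continuous_const.mul (l2.mul tc)).add (continuous_const.mul (mc ε hε.1)))) fun x => by
      have m0 : 0 ≤ m ε x := mul_nonneg (((mINV n M H hm).2.2.2.2.2.2.2 _ g.toMet).1 x).le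
        (g.toMet.tr_nonneg h.psd x)
      have l0 : 0 ≤ δ / (σ x + δ) ^ 2 := div_nonneg (le_of_lt hδ) (sq_nonneg _)
      have l1 : 0 ≤ δ / κ ^ 2 := div_nonneg (le_of_lt hδ) (sq_nonneg _)
      have t0 := hm.tr_nonneg h.psd x
      refine (mul_left_comm _ _ _).trans_le ?_
      change δ / (σ x + δ) ^ 2 * m ε x ≤ _
      by_cases hx : x ∈ U k
      · have := mul_le_mul_of_nonneg_left ((mm ε hε.1 _ hε.2 x).trans (le_of_lt hx)) l0
        nlinarith [mul_nonneg l1 m0]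
      · have := mul_le_mul_of_nonneg_right (div_le_div_of_nonneg_left (le_of_lt hδ) (pow_pos κ0 2)
          (pow_le_pow_left₀ κ0.le ((hκ x hx).trans (le_add_of_nonneg_right (le_of_lt hδ))) 2)) m0
        linarith [mul_nonneg (div_pos η3 V0).le (mul_nonneg l0 t0)]
  rw [integral_add (int hm (continuous_const.fun_mul (l2.fun_mul tc)))
    (int hm (continuous_const.fun_mul (mc ε hε.1))), integral_const_mul, integral_const_mul] at b2
  have b3 := mul_le_mul_of_nonneg_left b1 (div_pos η3 V0).le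
  rw [div_mul_cancel₀ _ V0.ne'] at b3
  linarith

end Pool.Agent.Lib.DM.K63
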