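import Pool.Agent.Lib.NV5.DomBlue
import Pool.Agent.Lib.RAA.T_A4

/-! Project NV5, block DOM, row CRV: the curvature of the norm of a tensor. -/

open scoped Classical Topology ContDiff ComplexOrder Matrix
open Set Complex Metric Filter

set_option linter.unusedVariables false

noncomputable section

namespace Pool.Agent.Lib.DM

open Pool.Agent.Lib.SV (E)
open Pool.Agent.Lib.HS32 Pool.Agent.Lib.HS32.Mf
open Pool.Agent.Lib.RAA Pool.Agent.Lib.RAA.A4

namespace CRV

variable {n N B : ℕ} {T : E n → Mat n} {z : E n} {s : E n → (Fin N → Fin n) → ℂ}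

/-- The squared norm of a contravariant tensor. -/
def uw (N : ℕ) (T : E n → Mat n) (s : E n → (Fin N → Fin n) → ℂ) (w : E n) : ℝ :=
  hq (kp N (T w)) (s w)

theorem bs (h : Ok T z) :
    SmI (fun w => kp N (T w)) z ∧ (∀ᶠ w in 𝓝 z, (kp N (T w)).PosDef) ∧
    ∀ v, cv (fun w => kp N (T w)) v z = der N (T z) (cv T v z) := by
  have t := fun v => st_TEN1 n N 0 (Fin n) T z v h.1 (pd_det_ne h.pos)
  exact ⟨(t 0).1, h.2.mono fun w hw =>
    ((st_KQ N (Fin n) (Fin n) (Fin n)).2.2.2.2.1 fun _ => T w).2 fun _ => hw, fun v => (t v).2.1⟩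

theorem sm (h : Ok T z) (hs : HolN s z) : ContDiffAt ℝ ∞ (uw N T s) z :=
  (st_TEN0 n _ (fun w => kp N (T w)) s z 0 (bs h).1 (bs h).2.1
    fun K => ((mHOL n _ z).2.2 (hol_cd hs K)).1).1

theorem pos (h : Ok T z) (hz : s z ≠ 0) : 0 < uw N T s z :=
  (bs (N := N) h).2.1.self_of_nhds.re_dotProduct_pos hz

theorem gr (h : Ok T z) (hs : HolN s z) (hz : s z ≠ 0) (v : E n) :
    hq (der N (T z) (cv T v z)) (s z) / uw N T s z ≤ nq (hl (uw N T s) z) v := by
  obtain ⟨b1, b2, b3⟩ := bs (N := N) h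
  have g := fun K => (mHOL n _ z).2.2 (hol_cd hs K)
  have := (st_TEN0 n _ (fun w => kp N (T w)) s z v b1 b2 fun K => (g K).1).2 (fun K => ?_) hz
  · rwa [b3] at this
  · have a := ((mHOL n (fun w => s w K) z).1 (cd_diff (g K).1)).1 (hol_cd hs K).self_of_nhds
    exact ⟨by simp only [dVb, a, mul_zero, Finset.sum_const_zero],
      by rw [hV, (g K).2.2.1, Matrix.zero_mulVec, dotProduct_zero]⟩

theorem split (h : Ok T z) (hs : HolN s z) (hz : s z ≠ 0) :
    hl (uv N B T s) z = hl (uw N T s) z - (B : ℝ) • hess (ld T) z := by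
  have c := (mCOF n T z h.1).2.2.2.2.2 h.2
  have u := sm h hs
  have p := pos h hz
  have e : (fun w => ((Real.log (uv N B T s w) : ℝ) : ℂ)) =ᶠ[𝓝 z]
      fun w => ((Real.log (uw N T s w) : ℝ) : ℂ) - ((B : ℝ) : ℂ) * ld T w := by
    filter_upwards [h.2, u.continuousAt.eventually_ne p.ne'] with w h1 h2
    rw [uv, ← uw, Real.log_div h2 (pow_ne_zero B (pd_det_re h1).ne'), Real.log_pow, ld, ofReal_sub,
      ofReal_mul]
  rw [hl, hess_congr e, hess_sub (cd_ofReal (u.log p.ne')) (contDiffAt_const.mul c.1),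
    hess_const_mul _ c.1, BLAP.rs]
  rfl

theorem tr_part (h : Ok T z) (hc : ∀ᶠ w in 𝓝 z, ClM T w) (hs : HolN s z) (hz : s z ≠ 0) {c : ℝ}
    (hr : (hess (ld T) z + c • T z).PosSemidef) : -(N * c) ≤ trm (T z) (hl (uw N T s) z) := by
  have p0 := h.pos
  obtain ⟨W, hW⟩ := psd_factor p0.inv.posSemidef
  set Q := hl (uw N T s) z with hQ
  have e1 : trm (T z) Q = ∑ a, nq Q (star (W a)) := by
    rw [trm, hW, Matrix.mul_assoc, Matrix.trace_mul_comm]
    simp only [Matrix.trace, Matrix.diag, re_sum, nq, star_star, dotProduct, Matrix.mulVec,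
      Matrix.mul_apply, Matrix.conjTranspose_apply, Pi.star_apply, Finset.sum_mul, Finset.mul_sum]
    refine Finset.sum_congr rfl fun a _ => ?_
    rw [Finset.sum_comm]
    exact Finset.sum_congr rfl fun i _ => Finset.sum_congr rfl fun j _ => by rw [mul_assoc]
  have e2 : ∑ a, cv T (star (W a)) z = hess (ld T) z := by
    rw [← ric_eq h hc]
    simp only [cv_eq]
    rw [Finset.sum_comm]
    refine Finset.sum_congr rfl fun k _ => ?_
    rw [Finset.sum_comm]
    refine Finset.sum_congr rfl fun l _ => ?_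
    rw [← Finset.sum_smul, hW]
    simp only [Matrix.mul_apply, Matrix.conjTranspose_apply, Pi.star_apply, star_star]
  rw [← e2] at hr
  have e5 := low st_KQ p0 hr (pos h hz)
  rw [(st_KQ N (Fin n) (Fin n) (Fin n)).2.2.2.2.2.2.2.1, hq_sum, Finset.sum_div] at e5
  exact e1 ▸ e5.trans (Finset.sum_le_sum fun a _ => gr h hs hz (star (W a)))

theorem trace (h : Ok T z) (hs : HolN s z) (hB : N ≤ B) (hc : ∀ᶠ w in 𝓝 z, ClM T w)
    (hr : (T z - hess (ld T) z).PosSemidef) (hz : s z ≠ 0) :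
    -(B * n : ℝ) ≤ trm (T z) (hl (uv N B T s) z) := by
  have p0 := h.pos
  set R := hess (ld T) z with hR
  have t0 := HS76.tr_nonneg p0 hr
  have t1 := HS76.le_tr_smul p0 hr le_rfl
  set τ := ((T z)⁻¹ * (T z - R)).trace.re with hτ
  have t2 : (R + (τ - 1) • T z).PosSemidef := by
    rw [← BLAP.rs] at t1
    have e : R + (τ - 1) • T z = τ • T z - (T z - R) := by
      rw [sub_smul, one_smul]
      abel
    rwa [e]
  have t3 := tr_part h hc hs hz t2
  have t4 : τ = n - trm (T z) R := by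
    rw [hτ, Matrix.mul_sub, Matrix.nonsing_inv_mul _ (pd_det_ne p0).isUnit, Matrix.trace_sub,
      sub_re, Matrix.trace_one, Fintype.card_fin, natCast_re, trm]
  have t5 : trm (T z) (hl (uv N B T s) z) =
      trm (T z) (hl (uw N T s) z) - B * trm (T z) R := by
    rw [split h hs hz, trm, Matrix.mul_sub, Matrix.trace_sub, sub_re, Matrix.mul_smul,
      Matrix.trace_smul, real_smul, re_ofReal_mul, trm, trm]
  have t6 : (N : ℝ) ≤ B := by exact_mod_cast hB
  have t7 : trm (T z) R = n - τ := by linarith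
  rw [t5, t7]
  nlinarith [mul_nonneg (sub_nonneg.2 t6) t0, (Nat.cast_nonneg N : (0 : ℝ) ≤ N)]

theorem bound (h : Ok T z) (hs : HolN s z) (hz : s z ≠ 0) {C : ℝ}
    (hC : 0 ≤ C) (hb : ∀ v y, normSq (rm T z v v y y) ≤
      C ^ 2 * (nq (T z) v * nq (T z) v * nq (T z) y * nq (T z) y)) :
    (hl (uw N T s) z + (N * C) • T z).PosSemidef := by
  have p0 := h.pos
  have up := pos h hz
  refine psd_of ((hess_herm ((sm h hs).log up.ne')).add (herm_rsmul p0.1 _)) fun v => ?_
  have a : (cv T v z + (C * nq (T z) v) • T z).PosSemidef := by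
    refine psd_of ((cv_herm h v).add (herm_rsmul p0.1 _)) fun y => ?_
    rw [nq_add, nq_smul, cv_rm h.1 (pd_det_ne p0)]
    have n1 : 0 ≤ nq (T z) v := p0.posSemidef.re_dotProduct_nonneg v
    have n2 : 0 ≤ nq (T z) y := p0.posSemidef.re_dotProduct_nonneg y
    have k := hb v y
    have k2 : (rm T z v v y y).re ^ 2 ≤ (C * nq (T z) v * nq (T z) y) ^ 2 := by
      rw [normSq_apply] at k
      nlinarith [mul_self_nonneg (rm T z v v y y).im]
    have := (abs_le_of_sq_le_sq' k2 (by positivity)).2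
    linarith
  have g := (low st_KQ p0 a up).trans (gr h hs hz v)
  rw [nq_add, nq_smul]
  linarith

end CRV

open CRV in
theorem dCRV : St_CRV := by
  refine fun n N B => ⟨fun T s z h hs => ?_, fun M _ G hG => ?_⟩
  · have k : Ok T z := ⟨h.self_of_nhds.1, h.mono fun w hw => hw.2⟩
    have d := pow_pos (pd_det_re k.pos) B
    refine ⟨(sm k hs).div ((cd_re k.1.det).pow B) d.ne',
      div_nonneg (hq_nonneg (bs k).2.1.self_of_nhds.posSemidef _) d.le,
      ⟨fun hu => ?_, fun hz => ?_⟩, trace k hs⟩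
    · by_contra hz
      exact (div_pos (pos k hz) d).ne' hu
    · simp only [uv, hq, hz, Matrix.mulVec_zero, dotProduct_zero, zero_re, zero_div]
  · obtain ⟨C, hC, hb⟩ := (mBD n M G hG).2.1
    obtain ⟨C', hC', -, hb'⟩ := (mBD n M G hG).1 _ ((mHES n M).2.2.2.2.2.2.2.2.1 G hG).toForm
    refine ⟨N * √C + B * C' + 1, by positivity, fun e he z hz s hs h0 => ?_⟩
    have k : Ok (G e) z := ⟨hG.sm e he z hz, hG.pos.ev he hz⟩
    have a := bound k hs h0 (Real.sqrt_nonneg C)
      fun v y => by rw [Real.sq_sqrt hC.le]; exact hb e he z hz v v y y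
    have b := (a.add (psd_rsmul (hb' e he z hz) (Nat.cast_nonneg B))).add k.pos.posSemidef
    have e1 : (N * √C + B * C' + 1) • G e z + hl (uv N B (G e) s) z =
        hl (uw N (G e) s) z + (N * √C) • G e z +
          (B : ℝ) • (M.ric G e z - (-(C' • G)) e z) + G e z := by
      rw [split k hs h0]
      simp only [Mf.ric, Pi.neg_apply, Pi.smul_apply]
      module
    rwa [e1]

end Pool.Agent.Lib.DM
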