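import Pool.Agent.Lib.NV5.DomBlue

/-! Project NV5, block DOM: the maximum principle. -/

open scoped Classical Topology ContDiff ENNReal ComplexOrder Matrix
open Set MeasureTheory Complex Metric Filter

noncomputable section

namespace Pool.Agent.Lib.DM

open Pool.Agent.Lib.SV (E)
open Pool.Agent.Lib.HS32

theorem dMAX (hA : HS.St_AUBIN) : St_MAX := by
  intro n M _ G V Ψ f t ζ hn hG ht hζ hV V0 hs hf hR ⟨κ, κ0, hκ⟩
  obtain ⟨χ, c1, c2, c3, c4⟩ := (mCOV n M).2.2.2.2.2 {x | κ ≤ V x} {x | V x ≠ 0}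
    (isClosed_le continuous_const hV) (isOpen_ne_fun hV continuous_const)
    fun x hx => (κ0.trans_le hx).ne'
  set F : M.X → ℝ := fun x => χ x * (Real.exp (-(t * Ψ x)) * f x) + ζ with hF
  have F1 : M.Sm F := fun e he z hz => by
    by_cases h : V (e.symm z) = 0
    · have h1 : χ =ᶠ[𝓝 (e.symm z)] 0 := notMem_tsupport_iff_eventuallyEq.1 fun k => c4 k h
      refine (contDiffAt_const (c := ζ)).congr_of_eventuallyEq
        (((e.continuousAt_symm hz).eventually h1).mono fun w hw => ?_)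
      simp only [hF, Function.comp_apply, hw, Pi.zero_apply, zero_mul, zero_add]
    · exact ((c1 e he z hz).mul ((contDiffAt_const.mul (hs e he z hz h).1).neg.exp.mul
        (hs e he z hz h).2)).add contDiffAt_const
  have F2 : ∀ x, V x ≠ 0 → Real.exp (-(t * Ψ x)) * f x ≤ F x ∧
      F x ≤ Real.exp (-(t * Ψ x)) * f x + ζ := fun x hx => by
    have h1 := mul_pos (Real.exp_pos (-(t * Ψ x))) (hf x hx).1
    have h2 := mul_nonneg (c2 x).1 h1.le
    refine ⟨?_, add_le_add_left (mul_le_of_le_one_left h1.le (c2 x).2) _⟩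
    rcases le_total κ (V x) with h | h
    · simp only [hF, c3.self_of_nhdsSet x h, one_mul]
      linarith
    · exact (hκ x hx h).trans (le_add_of_nonneg_left h2)
  have F3 : ∀ x, 0 < F x := fun x => by
    by_cases h : V x = 0
    · simp only [hF, image_eq_zero_of_notMem_tsupport fun k => c4 k h, zero_mul, zero_add, hζ]
    · exact (mul_pos (Real.exp_pos _) (hf x h).1).trans_le (F2 x h).1
  obtain ⟨u, u1, u2, u3⟩ := hA n M G (fun x => Real.log (F x)) t hn hG
    (fun e he z hz => (F1 e he z hz).log (F3 _).ne') ht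
  have u4 : ∀ x, M.dq G (G + M.hs u) x = Real.exp (t * u x) * F x := fun x => by
    rw [u3, Real.exp_add, Real.exp_log (F3 x)]
  refine ⟨u, u1, u2, fun x hx => ⟨le_of_not_gt fun hlt => ?_,
    (u4 x).trans_le (mul_le_mul_of_nonneg_left (F2 x hx).2 (Real.exp_pos _).le)⟩⟩
  have uc := ((mTR n M).2.2.2.1 ℝ u).1 u1
  obtain ⟨R, hR'⟩ := (isCompact_range uc).bddAbove
  obtain ⟨k, k0, hk⟩ := hR R
  have k1 : ∀ y, V y ≠ 0 → Ψ y < u y → k < V y := fun y h1 h2 => lt_of_not_ge fun h =>
    ((hR' (mem_range_self y)).trans (hk y h1 h)).not_gt h2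
  have cΨ : ∀ y, V y ≠ 0 → ContinuousAt Ψ y := fun y hy => by
    obtain ⟨e, he, h⟩ := M.cov y
    exact (ContinuousAt.comp (g := Ψ ∘ e.symm) (hs e he _ (e.map_source h)
      (by rwa [e.left_inv h])).1.continuousAt (e.continuousAt h)).congr
      ((e.eventually_left_inverse h).mono fun w hw => by simp only [Function.comp_apply, hw])
  obtain ⟨y, y1, y2⟩ := (isClosed_le continuous_const hV : IsClosed {y | k ≤ V y}).isCompact
    |>.exists_isMaxOn ⟨x, (k1 x hx hlt).le⟩ (f := fun y => u y - Ψ y) fun y hy =>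
      (uc.continuousAt.sub (cΨ y (k0.trans_le hy).ne')).continuousWithinAt
  have y3 : V y ≠ 0 := (k0.trans_le y1).ne'
  have y4 : 0 < u y - Ψ y := (sub_pos.2 hlt).trans_le (y2 (k1 x hx hlt).le)
  have y5 : IsLocalMax (fun y => u y - Ψ y) y := y2.isLocalMax (mem_of_superset
    ((isOpen_lt continuous_const hV).mem_nhds (k1 y y3 (sub_pos.1 y4)))
      fun w (hw : k < V w) => hw.le)
  obtain ⟨f0, e, he, h, hT⟩ := hf y y3
  have z1 := e.map_source h
  have s1 := u1 e he _ z1
  have s2 := (hs e he _ z1 (by rwa [e.left_inv h])).1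
  have m := (mMAXE n (fun z => u (e.symm z) - Ψ (e.symm z)) (e y) (s1.sub s2) (by
    refine IsLocalMax.comp_continuous (f := fun y => u y - Ψ y) (g := e.symm) ?_
      (e.continuousAt_symm z1)
    rwa [e.left_inv h])).1
  have d := hT _ (u2.pos e he _ z1) (by
    have k2 := hess_sub (cd_ofReal s1) (cd_ofReal s2)
    simp only [ofReal_sub, Function.comp_apply] at m k2
    rw [k2, neg_sub] at m
    rw [Pi.add_apply, Pi.add_apply, add_sub_add_left_eq_sub]
    exact m)
  have q := ((mINV n M G hG.toMet).1 _ u2.toTen).2.2.1 e he _ z1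
  beta_reduce at q
  rw [e.left_inv h, u4] at q
  have q2 := (mul_le_mul_of_nonneg_left (F2 y y3).1 (Real.exp_pos (t * u y)).le).trans
    (q.trans_le d)
  rw [← mul_assoc, ← Real.exp_add] at q2
  exact q2.not_gt (lt_mul_of_one_lt_left f0 (Real.one_lt_exp_iff.2 (by nlinarith)))

end Pool.Agent.Lib.DM
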