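import Pool.Agent.Lib.NV5.Blue

/-! Project NV5, row CRM: the rule of Cramer, infinitely many proportional tensors. -/

open scoped Classical Topology
open Set Filter

set_option linter.unusedVariables false

noncomputable section

namespace Pool.Agent.Lib.NV5

open Pool.Agent.Lib.SV (E)
open Pool.Agent.Lib.HS32 Pool.Agent.Lib.EX Pool.Agent.Lib.ZL Pool.Agent.Lib.NV2

namespace CRMb

variable {A κ : Type}

/-- The minor with rows `a` and columns `I`. -/
def mn (v : A → κ → ℂ) {r : ℕ} (a : Fin r → A) (I : Fin r → κ) : ℂ :=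
  (Matrix.of fun i i' : Fin r => v (a i) (I i')).det

theorem comb (v : A → κ → ℂ) {r : ℕ} (a : Fin r → A) (I₀ : Fin r → κ) (h0 : mn v a I₀ ≠ 0) (b : A)
    (hb : ∀ I : Fin (r + 1) → κ, mn v (Fin.cons b a) I = 0) :
    ∃ c : Fin r → ℂ, ∀ j, v b j = ∑ i, c i * v (a i) j := by
  have uniq : ∀ c : Fin r → ℂ, (∀ i', ∑ i, c i * v (a i) (I₀ i') = 0) → c = 0 := fun c hc =>
    Matrix.eq_zero_of_vecMul_eq_zero h0 (funext fun i' => hc i')
  have ex : ∀ j, ∃ c : Fin r → ℂ, v b j = ∑ i, c i * v (a i) j ∧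
      ∀ i', v b (I₀ i') = ∑ i, c i * v (a i) (I₀ i') := by
    intro j
    obtain ⟨w, hw, hw0⟩ := Matrix.exists_vecMul_eq_zero_iff.2 (hb (Fin.cons j I₀))
    have hc : ∀ i' : Fin (r + 1), w 0 * v b ((Fin.cons j I₀ : Fin (r + 1) → κ) i') +
        ∑ i : Fin r, w i.succ * v (a i) ((Fin.cons j I₀ : Fin (r + 1) → κ) i') = 0 := by
      intro i'
      have h : ∑ i, w i * v ((Fin.cons b a : Fin (r + 1) → A) i)
          ((Fin.cons j I₀ : Fin (r + 1) → κ) i') = 0 := congrFun hw0 i'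
      rw [Fin.sum_univ_succ] at h
      exact h
    have hne : w 0 ≠ 0 := by
      intro h
      have h1 : (fun i : Fin r => w i.succ) = 0 := uniq _ fun i' => by
        have h2 := hc i'.succ
        rw [h, zero_mul, zero_add] at h2
        exact h2
      refine hw (funext fun i => ?_)
      refine Fin.cases h (fun i => congrFun h1 i) i
    have key : ∀ i' : Fin (r + 1), v b ((Fin.cons j I₀ : Fin (r + 1) → κ) i') =
        ∑ i : Fin r, -(w i.succ / w 0) * v (a i) ((Fin.cons j I₀ : Fin (r + 1) → κ) i') := by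
      intro i'
      apply mul_left_cancel₀ hne
      rw [eq_neg_of_add_eq_zero_left (hc i'), Finset.mul_sum, ← Finset.sum_neg_distrib]
      refine Finset.sum_congr rfl fun i _ => ?_
      field_simp
    exact ⟨fun i => -(w i.succ / w 0), key 0, fun i' => key i'.succ⟩
  choose c hc hc' using ex
  by_cases hκ : Nonempty κ
  · obtain ⟨j₀⟩ := hκ
    refine ⟨c j₀, fun j => ?_⟩
    have h1 : c j - c j₀ = 0 := uniq _ fun i' => by
      simp only [Pi.sub_apply, sub_mul, Finset.sum_sub_distrib]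
      rw [← hc' j i', ← hc' j₀ i', sub_self]
    rw [← sub_eq_zero.1 h1]
    exact hc j
  · exact ⟨0, fun j => (hκ ⟨j⟩).elim⟩

theorem prop (v : A → κ → ℂ) {r : ℕ} (p : A → Prop)
    (h : ∀ a : Fin (r + 1) → A, (∀ i, p (a i)) → ∀ I, mn v a I = 0) (a a' : Fin r → A)
    (ha : ∀ i, p (a i)) (ha' : ∀ i, p (a' i)) (I J : Fin r → κ) :
    mn v a I * mn v a' J = mn v a J * mn v a' I := by
  by_cases h0 : ∀ I₀, mn v a I₀ = 0
  · rw [h0 I, h0 J, zero_mul, zero_mul]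
  obtain ⟨I₀, h0⟩ := not_forall.1 h0
  choose c hc using fun i => comb v a I₀ h0 (a' i)
    (h _ fun i' => Fin.cases (ha' i) (fun i'' => ha i'') i')
  have e : ∀ I, mn v a' I = (Matrix.of c).det * mn v a I := by
    intro I
    unfold mn
    rw [← Matrix.det_mul]
    congr 1
    ext i i'
    exact hc i (I i')
  rw [e, e]
  ring

theorem big [Fintype κ] (v : A → κ → ℂ) {r : ℕ} (hr : Fintype.card κ < r) (a : Fin r → A)
    (I : Fin r → κ) : mn v a I = 0 := by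
  obtain ⟨i, j, hij, h⟩ := Fintype.exists_ne_map_eq_of_card_lt I (by rwa [Fintype.card_fin])
  exact Matrix.det_zero_of_column_eq hij fun k => congrArg (v (a k)) h

theorem main {X : Type} [Fintype κ] (T : Set ℕ) (hT : T.Infinite) (v : X → ℕ → κ → ℂ)
    (hv : ∀ a ∈ T, ∃ x j, v x a j ≠ 0) (q : ℕ) :
    ∃ (r : ℕ) (S : Set ℕ) (α : ℕ → Fin r → ℕ), S.Infinite ∧
      (∀ s ∈ S, r * q ≤ s ∧ (∀ i, α s i ∈ T) ∧ ∑ i, α s i = s ∧ ∃ x I, mn (v x) (α s) I ≠ 0) ∧
      ∀ s ∈ S, ∀ s' ∈ S, ∀ x I J,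
        mn (v x) (α s) I * mn (v x) (α s') J = mn (v x) (α s) J * mn (v x) (α s') I := by
  let P : ℕ → Prop := fun r => ∀ k, ∃ a : Fin (r + 1) → ℕ, (∀ i, a i ∈ T ∧ k ≤ a i) ∧
    ∃ x I, mn (v x) a I ≠ 0
  have h0 : P 0 := by
    intro k
    obtain ⟨a, ha, hk⟩ := hT.exists_gt k
    obtain ⟨x, j, hx⟩ := hv a ha
    refine ⟨fun _ => a, fun _ => ⟨ha, hk.le⟩, x, fun _ => j, ?_⟩
    unfold mn
    rw [Matrix.det_fin_one]
    exact hx
  have h1 : ¬ P (Fintype.card κ) := fun h => by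
    obtain ⟨a, -, x, I, hx⟩ := h 0
    exact hx (big _ (Nat.lt_succ_self _) a I)
  obtain ⟨r, hr, hr'⟩ : ∃ r, P r ∧ ¬ P (r + 1) := by
    by_contra h
    refine h1 (Nat.rec h0 (fun r hr => ?_) (Fintype.card κ))
    by_contra h'
    exact h ⟨r, hr, h'⟩
  obtain ⟨k₀, hk₀⟩ := not_forall.1 hr'
  let R : ℕ → (Fin (r + 1) → ℕ) → Prop := fun s a => (r + 1) * q ≤ s ∧
    (∀ i, a i ∈ T ∧ k₀ ≤ a i) ∧ ∑ i, a i = s ∧ ∃ x I, mn (v x) a I ≠ 0
  have hα : ∀ s, ∃ a, (∃ a, R s a) → R s a := fun s => by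
    by_cases h : ∃ a, R s a
    · exact ⟨h.choose, fun _ => h.choose_spec⟩
    · exact ⟨0, fun h' => (h h').elim⟩
  choose α hα using hα
  refine ⟨r + 1, {s | ∃ a, R s a}, α, ?_, fun s hs => ?_, fun s hs s' hs' x I J => ?_⟩
  · refine Set.infinite_of_forall_exists_gt fun k => ?_
    obtain ⟨a, ha, hx⟩ := hr (k + 1 + k₀ + (r + 1) * q)
    have h2 : a 0 ≤ ∑ i, a i :=
      Finset.single_le_sum (f := a) (fun i _ => Nat.zero_le _) (Finset.mem_univ 0)
    have h3 := (ha 0).2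
    refine ⟨∑ i, a i, ⟨a, by omega, fun i => ⟨(ha i).1, ?_⟩, rfl, hx⟩, by omega⟩
    have h4 := (ha i).2
    omega
  · obtain ⟨h2, h3, h4, h5⟩ := hα s hs
    exact ⟨h2, fun i => (h3 i).1, h4, h5⟩
  · refine prop (v x) (fun a => a ∈ T ∧ k₀ ≤ a) (fun a ha I => ?_) _ _ (hα s hs).2.1
      (hα s' hs').2.1 I J
    by_contra h
    exact hk₀ ⟨a, ha, x, I, h⟩

end CRMb

theorem bCRM (hTNS : Sb_TNS) : Sb_CRM := by
  intro n M _ ι _ _ D l q hT
  have hb : ∀ a : ℕ, ∃ b, (∃ b, Ten D q (fun i => a * l i) b) → Ten D q (fun i => a * l i) b :=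
    fun a => by
      by_cases h : ∃ b, Ten D q (fun i => a * l i) b
      · exact ⟨h.choose, fun _ => h.choose_spec⟩
      · exact ⟨0, fun h' => (h h').elim⟩
  choose b hb using hb
  obtain ⟨r, S, α, hS, h1, h2⟩ := CRMb.main
    (X := {x : D.A × E n // x.2 ∈ B2 n ∧ Off (D.c x.1) x.2}) _ hT
    (fun x a I => b a x.1.1 I x.1.2) (fun a ha => by
      obtain ⟨d, I, z, hz, ho, h⟩ := (hb a ha).ne
      exact ⟨⟨(d, z), hz, ho⟩, I, h⟩) q
  refine ⟨r * q, 0, S, fun s d I z => (Matrix.of fun a a' : Fin r =>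
    b (α s a) d (fun p => I (finProdFinEquiv (a', p))) z).det, hS, fun s hs => ?_,
    fun s hs s' hs' d z hz ho I J => ?_⟩
  · obtain ⟨h3, h4, h5, x, I, h6⟩ := h1 s hs
    refine ⟨h3, ?_, x.1.1, fun m => I (finProdFinEquiv.symm m).1 (finProdFinEquiv.symm m).2,
      x.1.2, x.2.1, x.2.2, ?_⟩
    · have h7 := (hTNS n M ι D).2.1 q r (fun a i => (α s a : ℤ) * l i) (fun a => b (α s a))
        fun a => ⟨(hb _ (h4 a)).pol, (hb _ (h4 a)).law⟩
      have h8 : (∑ a : Fin r, fun i => (α s a : ℤ) * l i) = fun i => ((s + 0 : ℕ) : ℤ) * l i := by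
        funext i
        rw [Finset.sum_apply, ← Finset.sum_mul, ← Nat.cast_sum, h5, add_zero]
      rw [h8] at h7
      exact h7
    · simp only [Equiv.symm_apply_apply]
      exact h6
  · exact h2 s hs s' hs' ⟨(d, z), hz, ho⟩ (fun a' p => I (finProdFinEquiv (a', p)))
      fun a' p => J (finProdFinEquiv (a', p))

end Pool.Agent.Lib.NV5
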