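import Pool.Agent.Lib.NV5.DomBlue
import Pool.Agent.Lib.ZL.B_CX
import Pool.Agent.Lib.ZL.B_LWC
import Pool.Agent.Lib.ZL.B_POL

/-! Project NV5, block DOM, row RHO: weights on the multiples of the canonical class. -/

open scoped Classical Topology ContDiff ComplexOrder Matrix
open Set Complex Metric Filter

noncomputable section

namespace Pool.Agent.Lib.DM

open Pool.Agent.Lib.SV (E nsq)
open Pool.Agent.Lib.HS32 Pool.Agent.Lib.EX Pool.Agent.Lib.EXS Pool.Agent.Lib.ZL
open Pool.Agent.Lib.EXS.K32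

namespace RHO

variable {n : ℕ} {M : Mf n} {ι : Type} [Fintype ι] [DecidableEq ι] {D : Ad M ι} (X : Cx D)
  (H : M.Fam (Mat n)) {d : D.A} {z : E n}

theorem nq_add30 (A B : Mat n) (v : E n) : nq (A + B) v = nq A v + nq B v := by
  simp only [nq, Matrix.add_mulVec, dotProduct_add, add_re]

theorem nq_smul30 (c : ℝ) (A : Mat n) (v : E n) : nq (c • A) v = c * nq A v := by
  simp only [nq, Matrix.smul_mulVec, dotProduct_smul, real_smul, re_ofReal_mul]

/-- The logarithm of the determinant in a chart. -/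
def ldt (d : D.A) (y : E n) : ℝ := Real.log (H (D.e d) y).det.re

/-- The local numerator of the canonical form. -/
def num (d : D.A) (y : E n) : ℂ := X.w d y * xm (D.c d) X.l y

/-- The metric of the canonical bundle as a function off the divisor. -/
def kap (x : M.X) : ℝ := ldt H (GLU.ex_ch D x).choose (D.e (GLU.ex_ch D x).choose x) -
  Real.log (normSq (num X (GLU.ex_ch D x).choose (D.e (GLU.ex_ch D x).choose x)))

theorem num_ne (hz : z ∈ B2 n) (ho : Off (D.c d) z) : num X d z ≠ 0 :=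
  mul_ne_zero (X.wne d z hz) (MON.xm_ne _ ho)

theorem num_hol (hz : z ∈ B2 n) (ho : Off (D.c d) z) : HolN (num X d) z := by
  filter_upwards [isOpen_ball.mem_nhds hz, MON.off_ev ho] with y h1 h2
  exact (X.whol d y h1).mul (MON.diff_xm fun i => Or.inl (h2 i))

variable {H}

theorem ldt_sm (hH : M.Met H) (hz : z ∈ B2 n) : ContDiffAt ℝ ∞ (ldt H d) z :=
  (mINV n M H hH).2.2.2.2.2.2.1.sm _ (D.mem d) z (GLU.mem_tgt d hz)

theorem kap_eq (hC : Can D X.l X.w) (hH : M.Met H) {x : M.X} (hx : x ∈ (D.e d).source)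
    (ho : x ∈ off D) : kap X H x = ldt H d (D.e d x) - Real.log (normSq (num X d (D.e d x))) := by
  have hb := (GLU.ex_ch D x).choose_spec
  rw [kap]
  generalize (GLU.ex_ch D x).choose = b at hb
  have h1 := (mINV n M H hH).2.2.2.2.2.2.1.cmp _ (D.mem b) _ (D.mem d) x hb hx
  have h2 : (D.J b d x).det ≠ 0 := ((mTR n M).2.1 _ (D.mem b) _ (D.mem d) x hb hx).2.1
  have h3 : num X d (D.e d x) = num X b (D.e b x) * (D.J b d x).det := by
    rw [num, num, hC b d x hb hx, TRF.xm_eq D hb hx]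
    ring
  rw [h3, map_mul, Real.log_mul (normSq_pos.2 (num_ne X (GLU.mem_B2 hb) (ho b hb))).ne'
    (normSq_pos.2 h2).ne', ldt, ldt, h1, Ad.J]
  ring

theorem kap_bd [M.Cpt] (hPW : ZL.St_PW) (hC : Can D X.l X.w) (hH : M.Met H) :
    ∃ C, ∀ x ∈ off D, |kap X H x + lw D (fun i => X.l i) x| ≤ C := by
  obtain ⟨-, p1, -, -, -, -, -, -, p2, -⟩ := hPW n M ι D
  obtain ⟨C, -, hC'⟩ := p2 1 one_lt_two
  have hb : ∀ d, ∃ B, ∀ z ∈ closedBall (0 : E n) 1,
      ‖ldt H d z - Real.log (normSq (X.w d z))‖ ≤ B := fun d =>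
    (isCompact_closedBall (0 : E n) 1).exists_bound_of_continuousOn fun z hz => by
      have hz' : z ∈ B2 n := closedBall_subset_ball (by norm_num) hz
      have h : HolN (X.w d) z := by
        filter_upwards [isOpen_ball.mem_nhds hz'] with y hy using X.whol d y hy
      exact ((ldt_sm hH hz').sub (lv_log h (X.wne d z hz')).1).continuousAt.continuousWithinAt
  choose B hB using hb
  obtain ⟨B', hB'⟩ := (Set.finite_range B).bddAbove
  refine ⟨B' + C * ∑ i, |(X.l i : ℝ)|, fun x hx => ?_⟩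
  obtain ⟨d, hd, h1⟩ := p1 x
  have hz := GLU.mem_B2 hd
  have ho := hx d hd
  have h2 := abs_le.1 ((hB d _ (mem_closedBall_zero_iff.2 h1)).trans (hB' ⟨d, rfl⟩))
  obtain ⟨h3, h4⟩ := hC' (fun i => X.l i) d _ h1 ho
  have h6 := MON.xr_pos (fun i => (X.l i : ℝ)) ho
  rw [GLU.rd_e _ hd, ← Real.exp_add, ← Real.log_le_iff_le_exp h6] at h3
  rw [GLU.rd_e _ hd, ← Real.exp_log h6, ← Real.exp_add, Real.exp_le_exp] at h4
  rw [kap_eq X hC hH hd hx, num, map_mul, ← POL.xr_int,
    Real.log_mul (normSq_pos.2 (X.wne d _ hz)).ne' h6.ne', abs_le]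
  constructor <;> linarith [h2.1, h2.2]

variable (A : Am D) (H) (ε : ℝ) (v : M.X → ℝ)

/-- The local potential of the twisted form. -/
def pot (d : D.A) (y : E n) : ℝ := ε * Real.log (nsq (A.t d y)) + ldt H d y + D.rd v d y

variable {A H v}

theorem pot_lv (hF : Fs A H) (hv : M.Sm v) (hz : z ∈ B2 n) : ContDiffAt ℝ ∞ (pot H A ε v d) z ∧
    ∀ y, lv (pot H A ε v d) z y = nq (M.gE H ε v (D.e d) z) y := by
  have h1 := (lv_lg (A.thol d z hz).1 (A.thol d z hz).2.1).1
  have h2 := ldt_sm (d := d) hF.1.toMet hz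
  have h3 : ContDiffAt ℝ ∞ (D.rd v d) z := hv _ (D.mem d) z (GLU.mem_tgt d hz)
  have h4 := (contDiffAt_const (c := ε)).mul h1
  refine ⟨(h4.add h2).add h3, fun y => ?_⟩
  have e : M.gE H ε v (D.e d) z = ε • H (D.e d) z + hess (ld (H (D.e d))) z +
      M.hs v (D.e d) z := by
    simp only [Mf.gE, Pi.add_apply, Pi.sub_apply, Pi.smul_apply, Mf.ric, sub_neg_eq_add]
  rw [e, nq_add30, nq_add30, nq_smul30, hF.2 d z hz]
  exact (lv_add (h4.add h2) h3 y).trans (by rw [lv_add h4 h2, lv_mul h1]; rfl)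

end RHO

open RHO

theorem dRHO (hPW : ZL.St_PW) : St_RHO := by
  intro n M _ ι _ _ D X A H J v hC hF he hα hJ hv _
  have hH := hF.1.toMet
  have J0 : (0 : ℝ) < J := Nat.cast_pos.2 hJ
  obtain ⟨C₁, h1⟩ := kap_bd X hPW hC hH
  obtain ⟨C₂, h2⟩ := isCompact_univ.exists_bound_of_continuousOn
    (((mTR n M).2.2.2.1 ℝ v).1 hv).continuousOn
  obtain ⟨C₃, h3⟩ := X.αb
  have sub : ∀ z ∈ closedBall (0 : E n) (3 / 2), z ∈ B2 n := fun z hz =>
    closedBall_subset_ball (by norm_num) hz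
  choose B B0 hB using fun d => LWC.bd (u := pot H A (1 / J) v d)
    (isCompact_closedBall 0 (3 / 2)) fun z hz => (pot_lv _ hF hv (sub z hz)).1
  obtain ⟨B', hB'⟩ := (Set.finite_range B).bddAbove
  obtain ⟨-, -, p1, -, p2, -⟩ := hPW n M ι D
  refine ⟨fun x => J * (kap X H x + v x) + X.α x, |J * (C₁ + C₂) + C₃| + |B'|, by positivity,
    fun x hx => ?_, fun u hu hG => ?_⟩
  · have e : (fun i => ((J * X.l i + X.e i : ℤ) : ℝ)) =
        (J : ℝ) • (fun i => (X.l i : ℝ)) + fun i => (X.e i : ℝ) := by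
      funext i
      simp
    have a1 := abs_le.1 (h1 x hx)
    have a2 := abs_le.1 (h2 x (mem_univ x))
    have a3 := abs_le.1 (h3 x hx)
    have a4 := le_abs_self (J * (C₁ + C₂) + C₃)
    rw [e, p1, p2, abs_le]
    constructor <;> nlinarith [abs_nonneg B', a1.1, a1.2, a2.1, a2.2, a3.1, a3.2]
  have su : ∀ d, ∀ z ∈ B2 n, ContDiffAt ℝ ∞ (D.rd u d) z := fun d z hz =>
    hu _ (D.mem d) z (GLU.mem_tgt d hz)
  have ps : ∀ d, ∀ z ∈ B2 n, ∀ y, 0 ≤ lv (pot H A (1 / J) v d) z y + lv (D.rd u d) z y :=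
    fun d z hz y => by
      have := (Complex.nonneg_iff.1 ((hG.pos _ (D.mem d) z
        (GLU.mem_tgt d hz)).posSemidef.dotProduct_mulVec_nonneg y)).1
      rw [(pot_lv _ hF hv hz).2]
      exact this.trans_eq (nq_add30 _ _ y)
  have key : OA D fun d z => ContDiffAt ℝ ∞ (D.rd (fun x => J * (kap X H x + v x) + X.α x +
      J * u x) d) z ∧ ∀ y, 0 ≤ lv (D.rd (fun x => J * (kap X H x + v x) + X.α x +
      J * u x) d) z y := fun d z hz ho => by
    have e : D.rd (fun x => J * (kap X H x + v x) + X.α x + J * u x) d =ᶠ[𝓝 z] fun y =>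
        J * (pot H A (1 / J) v d y + D.rd u d y) + (Real.log (normSq (CX.g36 A d y)) -
          J * Real.log (normSq (num X d y))) := by
      filter_upwards [isOpen_ball.mem_nhds hz, MON.off_ev ho] with y a b
      have c := GLU.mem_src d a
      have o : (D.e d).symm y ∈ off D := (GLU.mem_off c).2 (by rwa [GLU.rinv d a])
      have f := CX.lg A a b
      simp only [Ad.rd, pot] at f ⊢
      rw [kap_eq X hC hH c o, GLU.rinv d a, hα _ o, f]
      field_simp
      ring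
    have s1 := ((pot_lv (d := d) (1 / J) hF hv hz).1.add (su d z hz))
    obtain ⟨s2, t2⟩ := lv_log (CX.g_hol A ho) (MON.xm_ne _ ho)
    obtain ⟨s3, t3⟩ := lv_log (num_hol X hz ho) (num_ne X hz ho)
    have s4 := (contDiffAt_const (c := (J : ℝ))).mul s1
    have s5 := (contDiffAt_const (c := (J : ℝ))).mul s3
    refine ⟨(s4.add (s2.sub s5)).congr_of_eventuallyEq e, fun y => ?_⟩
    rw [lv_congr e, lv_add s4 (s2.sub s5), lv_sub s2 s5, lv_mul s1, lv_mul s3, t2, t3,
      lv_add (pot_lv _ hF hv hz).1 (su d z hz)]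
    simpa using mul_nonneg J0.le (ps d z hz y)
  refine ⟨⟨fun d z hz ho => (key d z hz ho).1, fun d z hz ho => (key d z hz ho).2⟩,
    fun d z hz _ => contDiffAt_const.mul (su d z hz), fun d z hz => ⟨su d z hz, fun h y => ?_⟩⟩
  have a1 := (le_abs_self _).trans (hB d z (mem_closedBall_zero_iff.2 h) y)
  have a2 := (hB' ⟨d, rfl⟩).trans (le_abs_self B')
  nlinarith [ps d z hz y, sq_nonneg ‖y‖, abs_nonneg (J * (C₁ + C₂) + C₃)]

end Pool.Agent.Lib.DM
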