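import Pool.Agent.Lib.NV5.D_KAH
import Pool.Agent.Lib.NV5.D_RHO
import Pool.Agent.Lib.ZL.Core

/-! Project NV5: smooth metrics on divisors and their curvature forms. -/

open scoped Classical Topology ContDiff ComplexOrder Matrix
open Set Complex Metric Filter

set_option linter.unusedSectionVars false

noncomputable section

namespace Pool.Agent.Lib.DM

open Pool.Agent.Lib.SV (E nsq)
open Pool.Agent.Lib.HS32 Pool.Agent.Lib.HS32.Mf Pool.Agent.Lib.EX Pool.Agent.Lib.EXS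
open Pool.Agent.Lib.ZL Pool.Agent.Lib.EXS.K32 Pool.Agent.Lib.EXS.GLU

variable {n : ℕ} {M : Mf n} {ι : Type} [Fintype ι] [DecidableEq ι]

/-- The Hessian of a real function. -/
abbrev hr (u : E n → ℝ) : E n → Mat n := hess fun y => (u y : ℂ)

/-- The weight `φ` of the divisor `P` has the smooth local potentials `ψ`. -/
def Lo (D : Ad M ι) (P : ι → ℝ) (φ : M.X → ℝ) (ψ : D.A → E n → ℝ) : Prop :=
  D.All fun d z => ContDiffAt ℝ ∞ (ψ d) z ∧
    (Off (D.c d) z → D.rd φ d z = ψ d z - lm (D.c d) P z)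

/-- The form `T` is the curvature of the weight `φ` of the divisor `P`. -/
def Cv (D : Ad M ι) (P : ι → ℝ) (T : M.Fam (Mat n)) (φ : M.X → ℝ) : Prop :=
  M.Clo T ∧ ∃ ψ, Lo D P φ ψ ∧ D.All fun d z => T (D.e d) z = hr (ψ d) z

namespace XC

variable {D : Ad M ι} {P P' : ι → ℝ} {T T' : M.Fam (Mat n)} {φ φ' : M.X → ℝ}
  {ψ : D.A → E n → ℝ} {a b : D.A} {x : M.X} {u w : E n → ℝ} {z : E n}

theorem hr_add (hu : ContDiffAt ℝ ∞ u z) (hw : ContDiffAt ℝ ∞ w z) :
    hr (fun y => u y + w y) z = hr u z + hr w z := by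
  simp only [hr, ofReal_add]
  exact hess_add (cd_ofReal hu) (cd_ofReal hw)

theorem hr_mul (c : ℝ) (hu : ContDiffAt ℝ ∞ u z) : hr (fun y => c * u y) z = c • hr u z := by
  simp only [hr, ofReal_mul]
  exact hess_const_mul _ (cd_ofReal hu)

theorem hr_congr (e : u =ᶠ[𝓝 z] w) : hr u z = hr w z :=
  hess_congr (e.mono fun _ h => congrArg ofReal h)

theorem hr_sum {κ : Type} {s : Finset κ} {f : κ → E n → ℝ} (h : ∀ i ∈ s, ContDiffAt ℝ ∞ (f i) z) :
    hr (fun y => ∑ i ∈ s, f i y) z = ∑ i ∈ s, hr (f i) z := by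
  induction s using Finset.induction_on with
  | empty => simp [hr]
  | insert i s hi ih =>
    have h2 := fun j hj => h j (Finset.mem_insert_of_mem hj)
    simp only [Finset.sum_insert hi]
    rw [hr_add (h i (Finset.mem_insert_self _ _)) (ContDiffAt.sum h2), ih h2]

theorem ext_off (c : ι → Option (Fin n)) (hu : ∀ᶠ y in 𝓝 z, ContinuousAt u y ∧ ContinuousAt w y)
    (h : ∀ᶠ y in 𝓝 z, Off c y → u y = w y) : u =ᶠ[𝓝 z] w := by
  filter_upwards [hu, h.eventually_nhds] with y h1 h2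
  exact tendsto_nhds_unique_of_frequently_eq h1.1 h1.2
    (((MON.off_freq c y).and_eventually h2).mono fun _ h => h.2 h.1)

variable (D) in
theorem sub : M.Sub (range D.e) := ⟨range_subset_iff.2 D.mem, fun x =>
  let ⟨d, hd⟩ := GLU.ex_ch D x
  ⟨_, ⟨d, rfl⟩, hd⟩⟩

theorem on {p : M.Ch → E n → Prop} (h : D.All fun d z => p (D.e d) z) : M.AllOn (range D.e) p := by
  rintro _ ⟨d, rfl⟩ z hz
  exact h d z (D.tgt d ▸ hz)

theorem cmp (h : Lo D P φ ψ) (ha : x ∈ (D.e a).source) (hb : x ∈ (D.e b).source) :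
    hr (ψ b) (D.e b x) =
      (M.J (D.e a) (D.e b) x)ᴴ * hr (ψ a) (D.e a x) * M.J (D.e a) (D.e b) x := by
  obtain ⟨t1, -, -, t2, -⟩ := (mTR n M).2.1 _ (D.mem a) _ (D.mem b) x ha hb
  have e0 : (D.e a ∘ (D.e b).symm) (D.e b x) = D.e a x := congrArg (D.e a) ((D.e b).left_inv hb)
  have lg : ∀ {y}, y ∈ (D.e a).source → y ∈ (D.e b).source → ∀ i, _ := fun {y} h1 h2 i =>
    ((mHOL n _ _).2.2 (D.uhol a b i y h1 h2)).2.2.2 (by
      rw [Function.comp, (D.e b).left_inv h2]; exact D.une a b i y h1 h2)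
  let U : E n → ℝ := fun w => ∑ i, -P i * Real.log (normSq ((D.u a b i ∘ (D.e b).symm) w))
  have sU : ∀ {y}, y ∈ (D.e a).source → y ∈ (D.e b).source → ContDiffAt ℝ ∞ U (D.e b y) :=
    fun h1 h2 => ContDiffAt.sum fun i _ => contDiffAt_const.mul (lg h1 h2 i).1
  have s1 := (h a _ (e0.symm ▸ mem_B2 ha)).1
  have e : ψ b =ᶠ[𝓝 (D.e b x)] fun w => U w + (ψ a ∘ D.e a ∘ (D.e b).symm) w := by
    refine ext_off (D.c b) ?_ (t2.mono fun w hw ho => ?_)
    · filter_upwards [t1, t2] with w w1 w2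
      have k := sU w2.2.1 w2.2.2.1
      rw [w2.2.2.2.2.2.1] at k
      exact ⟨(h b _ (D.tgt b ▸ w2.1)).1.continuousAt, k.continuousAt.add
        (ContinuousAt.comp (h a _ (mem_B2 w2.2.1)).1.continuousAt w1.continuousAt)⟩
    have o1 : Off (D.c b) (D.e b ((D.e b).symm w)) := by rwa [hw.2.2.2.2.2.1]
    have a1 := (h a _ (mem_B2 hw.2.1)).2 ((mem_off hw.2.1).1 ((mem_off hw.2.2.1).2 o1))
    have a2 := (h b _ (mem_B2 hw.2.2.1)).2 o1
    rw [rd_e _ hw.2.1] at a1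
    rw [rd_e _ hw.2.2.1, hw.2.2.2.2.2.1, a1] at a2
    have a3 : lm (D.c a) P (D.e a ((D.e b).symm w)) = lm (D.c b) P w - U w := by
      simp only [lm, U, ← Finset.sum_sub_distrib]
      refine Finset.sum_congr rfl fun i _ => ?_
      rw [D.urel a b i _ hw.2.1 hw.2.2.1, hw.2.2.2.2.2.1, map_mul, Real.log_mul
        (normSq_pos.2 (D.une a b i _ hw.2.1 hw.2.2.1)).ne' (normSq_pos.2 (ho i)).ne']
      simp only [Function.comp]
      ring
    simp only [Function.comp]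
    linarith
  have z1 : hr U (D.e b x) = 0 := by
    rw [hr_sum fun i _ => contDiffAt_const.mul (lg ha hb i).1]
    exact Finset.sum_eq_zero fun i _ => by
      rw [hr_mul _ (lg ha hb i).1, show hr _ _ = 0 from (lg ha hb i).2.1, smul_zero]
  rw [hr_congr e, hr_add (sU ha hb) (s1.comp _ (mCHN n _ _ t1).1), z1, zero_add]
  exact ((mCHN n _ _ t1).2.2.2.2.2.2.2.2.2.2.2 _ (cd_ofReal s1)).trans (by rw [e0]; rfl)

theorem clo (hT : M.Ten T) (h : D.All fun d z => ContDiffAt ℝ ∞ (ψ d) z)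
    (h3 : D.All fun d z => T (D.e d) z = hr (ψ d) z) : M.Clo T := by
  obtain ⟨s1, -, -, s4, -⟩ := (mSUB n M _ (sub D)).1 T hT
  refine ⟨⟨hT, s1 (on fun d z hz => ?_)⟩, s4 (on fun d z hz i j k => ?_)⟩
  · beta_reduce
    rw [h3 d z hz]
    exact hess_herm (h d z hz)
  have ev : ∀ᶠ w in 𝓝 z, T (D.e d) w = hr (ψ d) w :=
    (isOpen_ball.eventually_mem hz).mono fun w hw => h3 d w hw
  have e : ∀ k j, dM k (T (D.e d)) z i j = dM k (hr (ψ d)) z i j := fun k j =>
    dz_congr (ev.mono fun w hw => congrFun (congrFun hw i) j)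
  rw [e, e]
  exact clM_hess (cd_ofReal (h d z hz)) i j k

theorem ex (h : Lo D P φ ψ) :
    ∃ T, Cv D P T φ ∧ D.All fun d z => T (D.e d) z = hr (ψ d) z := by
  let T : M.Fam (Mat n) := fun e => if h : ∃ d, D.e d = e then hr (ψ h.choose) else 0
  have hT : ∀ d, ∃ d', D.e d' = D.e d ∧ T (D.e d) = hr (ψ d') := fun d =>
    have h : ∃ d', D.e d' = D.e d := ⟨d, rfl⟩
    ⟨_, h.choose_spec, dif_pos h⟩
  obtain ⟨H, h1, h2⟩ := (mEXT n M _ (sub D)).1 T (on fun d z hz => by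
    obtain ⟨d', -, e⟩ := hT d
    rw [e]
    exact smM_hess (cd_ofReal (h d' z hz).1)) (by
    rintro _ ⟨a, rfl⟩ _ ⟨b, rfl⟩ x ha hb
    obtain ⟨a', a1, a2⟩ := hT a
    obtain ⟨b', b1, b2⟩ := hT b
    change T (D.e b) (D.e b x) = _ * T (D.e a) (D.e a x) * _
    rw [a2, b2, ← a1, ← b1]
    exact cmp h (a1.symm ▸ ha) (b1.symm ▸ hb))
  have h3 : D.All fun d z => H (D.e d) z = hr (ψ d) z := fun d z hz => by
    obtain ⟨d', e1, e2⟩ := hT d
    have k := cmp h (a := d') (by rw [e1]; exact mem_src d hz) (mem_src d hz)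
    rw [e1, (mTR n M).2.2.1 _ (D.mem d) _ (mem_src d hz), rinv d hz, Matrix.conjTranspose_one,
      Matrix.one_mul, Matrix.mul_one] at k
    exact (h2 _ ⟨d, rfl⟩ z (mem_tgt d hz)).trans ((congrFun e2 z).trans k.symm)
  exact ⟨H, ⟨clo h1 (fun d z hz => (h d z hz).1) h3, ψ, h, h3⟩, h3⟩

theorem add (h : Cv D P T φ) (h' : Cv D P' T' φ') :
    Cv D (P + P') (T + T') fun x => φ x + φ' x := by
  obtain ⟨c, ψ, l, e⟩ := h
  obtain ⟨c', ψ', l', e'⟩ := h'
  refine ⟨c.add c', fun d y => ψ d y + ψ' d y, fun d z hz => ⟨(l d z hz).1.add (l' d z hz).1,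
    fun ho => ?_⟩, fun d z hz => ?_⟩
  · have a := (l d z hz).2 ho
    have b := (l' d z hz).2 ho
    simp only [Ad.rd, lm, Pi.add_apply, add_mul, Finset.sum_add_distrib] at a b ⊢
    linarith
  · exact (congrArg₂ (· + ·) (e d z hz) (e' d z hz)).trans (hr_add (l d z hz).1 (l' d z hz).1).symm

theorem smul (c : ℝ) (h : Cv D P T φ) : Cv D (c • P) (c • T) fun x => c * φ x := by
  obtain ⟨c', ψ, l, e⟩ := h
  refine ⟨c'.smul c, fun d y => c * ψ d y, fun d z hz => ⟨contDiffAt_const.mul (l d z hz).1,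
    fun ho => ?_⟩, fun d z hz => ?_⟩
  · have a := (l d z hz).2 ho
    simp only [Ad.rd, lm, Pi.smul_apply, smul_eq_mul, mul_assoc, ← Finset.mul_sum] at a ⊢
    rw [a, mul_sub]
  · exact (congrArg (c • ·) (e d z hz)).trans (hr_mul c (l d z hz).1).symm

theorem congr (h : Cv D P T φ) (hP : P' = P) (hT : M.All fun e z => T' e z = T e z)
    (hφ : ∀ x ∈ off D, φ' x = φ x) : Cv D P' T' φ' := by
  obtain ⟨c, ψ, l, e⟩ := h
  subst hP
  exact ⟨c.congr hT, ψ, fun d z hz => ⟨(l d z hz).1, fun ho => (hφ _ ((mem_off (mem_src d hz)).2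
    (by rwa [rinv d hz]))).trans ((l d z hz).2 ho)⟩,
    fun d z hz => (hT _ (D.mem d) z (mem_tgt d hz)).trans (e d z hz)⟩

variable (D) in
theorem sm {f : M.X → ℝ} (hf : M.Sm f) : Cv D 0 (M.hs f) f :=
  ⟨(mHES n M).1 f hf, D.rd f, fun d z hz => ⟨hf _ (D.mem d) z (mem_tgt d hz), fun _ => by
    simp [lm]⟩, fun _ _ _ => rfl⟩

theorem zero (h : Cv D 0 T φ) : ∃ f, M.Sm f ∧ (M.All fun e z => T e z = M.hs f e z) ∧
    ∀ x ∈ off D, φ x = f x := by
  obtain ⟨c, ψ, l, e⟩ := h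
  have r : ∀ d, ∀ z ∈ B2 n, Off (D.c d) z → D.rd φ d z = ψ d z := fun d z hz ho => by
    simpa [lm] using (l d z hz).2 ho
  have g : D.All fun d z => D.rd (glu D φ) d =ᶠ[𝓝 z] ψ d := fun d z hz =>
    bGLU n M ι D ℝ φ d (ψ d) z hz
      ((isOpen_ball.eventually_mem hz).mono fun y hy => (l d y hy).1.continuousAt)
      ((isOpen_ball.eventually_mem hz).mono fun y hy => r d y hy)
  have s : M.Sm (glu D φ) := (mSUB n M _ (sub D)).2.1 ℝ _
    (on fun d z hz => (l d z hz).1.congr_of_eventuallyEq (g d z hz))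
  refine ⟨_, s, ((mSUB n M _ (sub D)).1 T c.toTen).2.2.2.2.1 _ ((mHES n M).1 _ s).toTen
    (on fun d z hz => (e d z hz).trans (hr_congr (g d z hz)).symm), fun x hx => ?_⟩
  obtain ⟨d, hd⟩ := GLU.ex_ch D x
  rw [← rd_e φ hd, ← rd_e (glu D φ) hd, (g d _ (mem_B2 hd)).self_of_nhds]
  exact r d _ (mem_B2 hd) (hx d hd)

theorem diff (h : Cv D P T φ) (h' : Cv D P T' φ') : ∃ f, M.Sm f ∧
    (M.All fun e z => T' e z = (T + M.hs f) e z) ∧ ∀ x ∈ off D, φ' x = φ x + f x := by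
  obtain ⟨f, f1, f2, f3⟩ := zero (congr (add h' (smul (-1) h)) (by simp) (fun _ _ _ _ => rfl)
    fun _ _ => rfl)
  refine ⟨f, f1, fun e he z hz => ?_, fun x hx => by linarith [f3 x hx]⟩
  have := f2 e he z hz
  simp only [Pi.add_apply, Pi.neg_apply, neg_smul, one_smul] at this ⊢
  rw [← this]
  abel

theorem le (hT : M.Ten T) (h : D.All fun d z => (T (D.e d) z).PosSemidef) : M.Le 0 T :=
  fun e he z hz => by
    simpa using ((mSUB n M _ (sub D)).1 T hT).2.2.1 (on h) e he z hz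

variable [M.Cpt]

variable (D P) in
theorem lw_lo : Lo D P (fun x => -lw D P x)
    fun d y => -∑ i, P i * Real.log (PW.gf D d i y) := fun d z hz =>
  ⟨(ContDiffAt.sum fun i _ =>
    contDiffAt_const.mul ((PW.gf_sm D i hz).log (PW.gf_pos D i hz).ne')).neg, fun ho => by
      have := PW.rd_lw D P hz ho
      simp only [Ad.rd] at this ⊢
      linarith⟩

theorem bd (h : Cv D P T φ) : SmO D φ ∧ (∃ C, ∀ x ∈ off D, |φ x + lw D P x| ≤ C) ∧
    OA D fun d z => ∀ y, lv (D.rd φ d) z y = nq (T (D.e d) z) y := by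
  obtain ⟨Θ, t, -⟩ := ex (lw_lo D P)
  obtain ⟨f, f1, -, f3⟩ := diff t h
  obtain ⟨C, -, hC⟩ := f1.exists_bound
  obtain ⟨-, ψ, l, e⟩ := h
  have ev : OA D fun d z => D.rd φ d =ᶠ[𝓝 z] fun y => ψ d y - lm (D.c d) P y := fun d z hz ho => by
    filter_upwards [isOpen_ball.eventually_mem hz, MON.off_ev ho] with y h1 h2 using (l d y h1).2 h2
  refine ⟨fun d z hz ho => ((l d z hz).1.sub (LWC.lm_ph P ho).1).congr_of_eventuallyEq
    (ev d z hz ho), ⟨C, fun x hx => ?_⟩, fun d z hz ho y => ?_⟩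
  · rw [f3 x hx, neg_add_cancel_comm]
    exact hC x
  · rw [lv_congr (ev d z hz ho), lv_sub (l d z hz).1 (LWC.lm_ph P ho).1, (LWC.lm_ph P ho).2,
      sub_zero, e d z hz]
    rfl

omit [M.Cpt] in
theorem tt {κ : Type} [Fintype κ] {Q : ι → ℤ} {τ : M.X → κ → ℂ} {t : D.A → E n → κ → ℂ}
    (h : D.All fun d z => HolN (t d) z ∧ t d z ≠ 0 ∧
      (Off (D.c d) z → D.rd τ d z = xm (D.c d) (-Q) z • t d z)) :
    ∃ T, Cv D (fun i => Q i) T (fun x => Real.log (nsq (τ x))) ∧ M.Le 0 T ∧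
      D.All fun d z => T (D.e d) z = hr (fun y => Real.log (nsq (t d y))) z := by
  have k := fun d z hz => lv_lg (h d z hz).1 (h d z hz).2.1
  obtain ⟨T, h1, h2⟩ := ex (D := D) (P := fun i => Q i) (φ := fun x => Real.log (nsq (τ x)))
    (ψ := fun d y => Real.log (nsq (t d y))) fun d z hz => ⟨(k d z hz).1, fun ho => by
      have a := (h d z hz).2.2 ho
      have e1 : ∀ (c : ℂ) (v : κ → ℂ), nsq (c • v) = normSq c * nsq v := fun c v => by
        simp [nsq, Finset.mul_sum]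
      simp only [Ad.rd] at a ⊢
      rw [a, e1, MON.xm_neg, map_inv₀, xm_exp fun i _ => ho i, Real.log_mul
        (inv_ne_zero (Real.exp_pos _).ne') (nsq_pos (h d z hz).2.1).ne', Real.log_inv, Real.log_exp]
      ring⟩
  exact ⟨T, h1, le h1.1.toTen fun d z hz => by
    beta_reduce
    rw [h2 d z hz]
    exact psd_of_lv (k d z hz).1 fun v => ((k d z hz).2 v).1, h2⟩

theorem gen {Q : ι → ℤ} (h : Gens D Q) : ∃ T φ, Cv D (fun i => Q i) T φ ∧ M.Le 0 T := by
  obtain ⟨r, G, hM, hg⟩ := h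
  have hv := fun d a => (st_UPB n M ι D Q).2.2.2.2.2.1 (D.c d) (D.rd (G a) d) (hM a d)
  have Sh : D.All fun d z => HolN (fun y a => val (D.c d) Q (D.rd (G a) d) y) z := fun d z hz =>
    (isOpen_ball.eventually_mem hz).mono fun y hy => differentiableAt_pi.2 fun a =>
      (hv d a).1.differentiableAt (isOpen_ball.mem_nhds hy)
  obtain ⟨T, h1, h2, -⟩ := tt (D := D) (Q := Q) (τ := fun x a => G a x)
    (t := fun d y a => val (D.c d) Q (D.rd (G a) d) y) fun d z hz => ⟨Sh d z hz, by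
      obtain ⟨a, s, s1, s2, s3⟩ := hg d z hz
      refine Function.ne_iff.2 ⟨a, ?_⟩
      have e : val (D.c d) Q (D.rd (G a) d) z = s z := tendsto_nhds_unique_of_frequently_eq
        (hol_apply (Sh d z hz) a).self_of_nhds.continuousAt s1.self_of_nhds.continuousAt
        (((MON.off_freq (D.c d) z).and_eventually (s3.and (isOpen_ball.mem_nhds hz))).mono
          fun y hy => by
            show val (D.c d) Q (D.rd (G a) d) y = s y
            rw [(hv d a).2 y hy.2.2 hy.1, hy.2.1 hy.1, MON.xm_neg,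
              mul_inv_cancel_left₀ (MON.xm_ne Q hy.1)])
      rwa [e], fun ho => funext fun a => by
        rw [Pi.smul_apply, (hv d a).2 z hz ho, MON.xm_neg, smul_eq_mul,
          inv_mul_cancel_left₀ (MON.xm_ne Q ho)]
        rfl⟩
  exact ⟨T, _, h1, h2⟩

omit [M.Cpt] in
theorem can (X : Cx D) {H : M.Fam (Mat n)} (hC : Can D X.l X.w) (hH : M.Met H) :
    Cv D (fun i => X.l i) (-M.ric H) (RHO.kap X H) := by
  have wh : D.All fun d z => HolN (X.w d) z := fun d z hz =>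
    (isOpen_ball.eventually_mem hz).mono fun y hy => X.whol d y hy
  have k := fun d z hz => ((mHOL n _ _).2.2 (wh d z hz)).2.2.2 (X.wne d z hz)
  refine ⟨((mHES n M).2.2.2.2.2.2.2.2.1 H hH).neg,
    fun d y => RHO.ldt H d y + -1 * Real.log (normSq (X.w d y)), fun d z hz =>
      ⟨(RHO.ldt_sm hH hz).add (contDiffAt_const.mul (k d z hz).1), fun ho => ?_⟩, fun d z hz => ?_⟩
  · rw [Ad.rd, RHO.kap_eq X hC hH (mem_src d hz) ((mem_off (mem_src d hz)).2 (by rwa [rinv d hz])),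
      rinv d hz, RHO.num, map_mul, xm_exp fun i _ => ho i, Real.log_mul
        (normSq_pos.2 (X.wne d z hz)).ne' (Real.exp_pos _).ne', Real.log_exp]
    ring
  · beta_reduce
    rw [hr_add (RHO.ldt_sm hH hz) (contDiffAt_const.mul (k d z hz).1), hr_mul _ (k d z hz).1,
      show hr (fun y => Real.log (normSq (X.w d y))) z = 0 from (k d z hz).2.1, smul_zero, add_zero]
    exact neg_neg _

omit [M.Cpt] in
theorem amp {A : Am D} {H : M.Fam (Mat n)} (h : Fs A H) :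
    Cv D (fun i => A.e i) H fun x => Real.log (nsq (A.τ x)) := by
  obtain ⟨T, h1, -, h3⟩ := tt (Q := fun i => (A.e i : ℤ)) A.thol
  exact congr h1 (by simp) (((mSUB n M _ (sub D)).1 H h.1.toTen).2.2.2.2.1 _ h1.1.toTen
    (on fun d z hz => (h.2 d z hz).trans (h3 d z hz).symm)) fun _ _ => rfl

theorem nef {A : Am D} {H : M.Fam (Mat n)} (h : Fs A H) {ν : ι → ℤ} {c : ℕ}
    (hG : ∀ j : ℕ, Gens D fun i => j * ν i + c * A.e i) {ε : ℝ} (hε : 0 < ε) :
    ∃ T φ, Cv D (fun i => ν i) T φ ∧ M.Le 0 (T + ε • H) := by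
  obtain ⟨j, hj⟩ := exists_nat_gt (c / ε)
  have j0 : (0 : ℝ) < j := lt_of_le_of_lt (by positivity) hj
  have jc : 0 ≤ ε - c / j := by
    rw [sub_nonneg, div_le_iff₀ j0, mul_comm]
    exact ((div_lt_iff₀ hε).1 hj).le
  obtain ⟨T, φ, h1, h2⟩ := gen (hG j)
  refine ⟨_, _, congr (add (smul (j : ℝ)⁻¹ h1) (smul (-(c / j)) (amp h))) (funext fun i => ?_)
    (fun _ _ _ _ => rfl) fun _ _ => rfl, fun e he z hz => ?_⟩
  · simp only [Pi.add_apply, Pi.smul_apply, smul_eq_mul]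
    push_cast
    field_simp
    ring
  have := (psd_rsmul (h2 e he z hz) (inv_nonneg.2 j0.le)).add
    (psd_rsmul (h.1.pos e he z hz).posSemidef jc)
  simp only [Pi.add_apply, Pi.smul_apply, Pi.zero_apply, sub_zero] at this ⊢
  rwa [add_assoc, ← add_smul, neg_add_eq_sub]

/-- The squared norm of the section of a component. -/
def sg (D : Ad M ι) (i : ι) (x : M.X) : ℝ := ∑ d, D.χ d x * normSq (xi (D.c d) i (D.e d x))

theorem sig (D : Ad M ι) (i : ι) : M.Sm (sg D i) ∧ (∀ x, 0 ≤ sg D i x) ∧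
    (∀ x, lw D (Pi.single i 1) x = Real.log (sg D i x)) ∧
    (D.All fun d z => D.rd (sg D i) d z = PW.gf D d i z * normSq (xi (D.c d) i z)) ∧
    ∃ Θ, Cv D (Pi.single i 1) Θ (fun x => -Real.log (sg D i x)) ∧
      D.All fun d z => Θ (D.e d) z = -hr (fun y => Real.log (PW.gf D d i y)) z := by
  have r : D.All fun d z => D.rd (sg D i) d z = PW.gf D d i z * normSq (xi (D.c d) i z) :=
    fun d z hz => PW.gf_rep D i hz
  have l : ∀ x, lw D (Pi.single i 1) x = Real.log (sg D i x) := fun x => by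
    simp [lw, sg, Pi.single_apply]
  obtain ⟨Θ, h1, h2⟩ := ex (lw_lo D (Pi.single i 1))
  refine ⟨(mSUB n M _ (sub D)).2.1 ℝ _ (on fun d z hz => ((PW.gf_sm D i hz).mul (K32.cd_normSq
    (hol_cd (.of_forall fun w => MON.diff_xi (D.c d) i w)))).congr_of_eventuallyEq
      ((isOpen_ball.eventually_mem hz).mono fun y hy => r d y hy)),
    fun x => Finset.sum_nonneg fun d _ => mul_nonneg (D.nn d x) (normSq_nonneg _), l, r, Θ,
    congr h1 rfl (fun _ _ _ _ => rfl) fun x _ => by rw [l], fun d z hz => (h2 d z hz).trans ?_⟩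
  simp only [Pi.single_apply, ite_mul, one_mul, zero_mul, Finset.sum_ite_eq', Finset.mem_univ,
    if_true, hr, ofReal_neg]
  exact hess_neg

end XC

end Pool.Agent.Lib.DM
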