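import Pool.Agent.Lib.NV5.DomBlue

/-! Project NV5, block DOX: domination when the canonical class is nef plus exceptional. -/

open scoped Classical Topology ContDiff ENNReal ComplexOrder Matrix
open Set MeasureTheory Complex Metric Filter

set_option linter.unusedVariables false

noncomputable section

namespace Pool.Agent.Lib.DX

open Pool.Agent.Lib.SV (E nsq)
open Pool.Agent.Lib.HS32 Pool.Agent.Lib.EX Pool.Agent.Lib.EXS Pool.Agent.Lib.ZL Pool.Agent.Lib.DM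
open Pool.Agent.Lib.EXS.K32 (lv)
open Pool.Agent.Lib.RAA (hl)

section defs

variable {n : ℕ} (M : Mf n)

/-- The mixed density. -/
def ta (H T S : M.Fam (Mat n)) (x : M.X) : ℝ :=
  (((M.ev T x).adjugate * M.ev S x).trace / (M.ev H x).det).re

/-- The mixed volume. -/
def mx (H T S : M.Fam (Mat n)) : ℝ := ∫ x, ta M H T S x ∂M.mu H

/-- The regularised logarithm. -/
def fl {Y : Type} (σ : Y → ℝ) (d : ℝ) (x : Y) : ℝ := Real.log (σ x + d)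

/-- The regularised indicator of the zero set. -/
def la {Y : Type} (σ : Y → ℝ) (d : ℝ) (x : Y) : ℝ := d / (σ x + d)

/-- The regularised current of integration. -/
def qd (H Θ : M.Fam (Mat n)) (σ : M.X → ℝ) (C d : ℝ) : M.Fam (Mat n) :=
  M.hs (fl σ d) + Θ + fun e z => (C * la σ d (e.symm z)) • H e z

/-- The squared norm of a section of a bundle with curvature `Θ`. -/
structure Sg (Θ : M.Fam (Mat n)) (σ : M.X → ℝ) : Prop where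
  sm : M.Sm σ
  nn : ∀ x, 0 ≤ σ x
  clo : M.Clo Θ
  eq : M.All fun e z =>
    σ (e.symm z) • M.hs σ e z + σ (e.symm z) ^ 2 • Θ e z = M.ds σ σ e z
  nul : ∀ G, M.Met G → M.mu G {x | σ x = 0} = 0
  int : ∀ G, M.Met G → Integrable (fun x => Real.log (σ x)) (M.mu G)

/-- A nef class. -/
def Nf (H T : M.Fam (Mat n)) : Prop :=
  ∀ ε > (0 : ℝ), ∃ w, M.Sm w ∧ M.All fun e z => ((T + ε • H + M.hs w) e z).PosDef

/-- A lower bound of the Ricci form with a controlled mean. -/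
structure Rc (G Q : M.Fam (Mat n)) : Prop where
  kae : M.Kae G
  frm : M.Form Q
  nn : M.Le 0 Q
  ric : M.Le 0 (Q + M.ric G)
  int : ∫ x, M.tr G Q x ∂M.mu G ≤ (n + 1) * (M.mu G).real univ

variable {M} {ι : Type} [Fintype ι] [DecidableEq ι] (D : Ad M ι)

/-- The curvature forms of the divisors. -/
structure Cv (Θ : (ι → ℝ) →ₗ[ℝ] M.Fam (Mat n)) : Prop where
  clo : ∀ a, M.Clo (Θ a)
  cur : ∀ a, OA D fun d z => hess (fun y => (D.rd (lw D a) d y : ℝ)) z = -Θ a (D.e d) z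
  loc : ∀ a (φ : M.X → ℝ) (s : D.A → E n → ℝ), (D.All fun d z => ContDiffAt ℝ ∞ (s d) z) →
    (OA D fun d z => D.rd φ d z = s d z - Real.log (xr (D.c d) a z)) → ∃ w, M.Sm w ∧
      (∀ x ∈ off D, w x = φ x + lw D a x) ∧
      D.All fun d z => (Θ a + M.hs w) (D.e d) z = hess (fun y => (s d y : ℝ)) z

/-- A generically immersive map to a projective space that contracts the components in `T`. -/
structure Bm (T : Set ι) where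
  r : ℕ
  b : ι → ℤ
  τ : M.X → E r
  t : D.A → E n → E r
  thol : D.All fun d z => HolN (t d) z ∧ t d z ≠ 0 ∧
    (Off (D.c d) z → D.rd τ d z = xm (D.c d) (-b) z • t d z)
  imm : ∃ d, ∃ z ∈ B2 n, ∀ (y : E n) (c : ℂ), fderiv ℂ (t d) z y = c • t d z → y = 0
  deg : D.All fun d z => ∀ i ∈ T, ∀ k, D.c d i = some k → z k = 0 →
    ∃ (y : E n) (c : ℂ), y ≠ 0 ∧ y k = 0 ∧ fderiv ℂ (t d) z y = c • t d z

/-- The local form of the squared norm of a divisor. -/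
def Lf (a : ι → ℕ) (σ : M.X → ℝ) : Prop := ∃ g : D.A → E n → ℝ, D.All fun d z =>
  ContDiffAt ℝ ∞ (g d) z ∧ 0 < g d z ∧ D.rd σ d z = normSq (xm (D.c d) (fun i => a i) z) * g d z

/-- The form is degenerate on the components in `T`. -/
def Dg (T : Set ι) (β : M.Fam (Mat n)) : Prop := D.All fun d z => ∀ i ∈ T, ∀ k,
  D.c d i = some k → z k = 0 → (β (D.e d) z).adjugate k k = 0

/-- The multiple `J` of the class of `G` is below the divisor `Q`. -/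
def Rh (G : M.Fam (Mat n)) (J : ℕ) (Q : ι → ℤ) : Prop := ∃ (ρ : M.X → ℝ) (C : ℝ), 0 ≤ C ∧
  (∀ x ∈ off D, |ρ x + lw D (fun i => Q i) x| ≤ C) ∧
  ∀ u, M.Sm u → M.Met (G + M.hs u) → Psh D (fun x => ρ x + J * u x) ∧
    SmO D (fun x => J * u x) ∧ D.All fun d z => ContDiffAt ℝ ∞ (D.rd u d) z ∧
      (‖z‖ ≤ 3 / 2 → ∀ y, -(C * ‖y‖ ^ 2) ≤ lv (D.rd u d) z y)

end defs

/-! ### Mixed volumes -/

/-- The adjugate of a semi-positive matrix. -/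
def St_ADJ : Prop := ∀ (n : ℕ) (G : Mat n), G.PosSemidef → G.adjugate.PosSemidef ∧
  (∀ (v : E n) k, v ≠ 0 → v k = 0 → G *ᵥ v = 0 → G.adjugate k k = 0) ∧
  ∀ Q : Mat n, Q.PosSemidef → 0 ≤ (G.adjugate * Q).trace.re ∧
    (G.adjugate * Q).trace.re ≤ (G + Q).det.re ∧ G.det.re ≤ (G + Q).det.re ∧
    ∀ T : Mat n, (T - G).PosSemidef → (G.adjugate * Q).trace.re ≤ (T.adjugate * Q).trace.re

/-- The mixed density at a point. -/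
def St_TA : Prop := ∀ (n : ℕ) (M : Mf n) (H T S : M.Fam (Mat n)), M.Met H →
  (M.Ten T → M.Ten S → M.Sm (ta M H T S) ∧
    M.Rep (ta M H T S) fun e z => (((T e z).adjugate * S e z).trace / (H e z).det).re) ∧
  ∀ x, (∀ U, ta M H T (S + U) x = ta M H T S x + ta M H T U x) ∧
    (∀ c : ℝ, ta M H T (c • S) x = c * ta M H T S x ∧
      ta M H (c • T) S x = c ^ (n - 1) * ta M H T S x) ∧
    (∀ u : M.X → ℝ, ta M H T (fun e z => u (e.symm z) • S e z) x = u x * ta M H T S x) ∧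
    (∀ T' S', (M.All fun e z => T' e z = T e z) → (M.All fun e z => S' e z = S e z) →
      ta M H T' S' x = ta M H T S x) ∧
    ta M H T T x = n * M.dq H T x ∧ (M.Met T → ta M H T S x = M.dq H T x * M.tr T S x) ∧
    (M.Le 0 T → M.Le 0 S → 0 ≤ ta M H T S x ∧ ta M H T S x ≤ M.dq H (T + S) x ∧
      0 ≤ M.dq H T x ∧ M.dq H T x ≤ M.dq H (T + S) x ∧
      (∀ U, M.Le T U → ta M H T S x ≤ ta M H U S x) ∧ ∀ U, M.Le U S → ta M H T U x ≤ ta M H T S x)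

/-- The formula of Green. -/
def St_GR : Prop := ∀ (n : ℕ) (M : Mf n) [M.Cpt] (H T : M.Fam (Mat n)) (u w : M.X → ℝ), M.Met H →
  M.Clo T → M.Sm u → M.Sm w → mx M H T (M.hs u) = 0 ∧
    ∫ x, w x * ta M H T (M.hs u) x ∂M.mu H = ∫ x, u x * ta M H T (M.hs w) x ∂M.mu H

/-- The derivative of the volume. -/
def St_POL : Prop := ∀ (n : ℕ) (M : Mf n) [M.Cpt] (H T S : M.Fam (Mat n)), M.Met H → M.Ten T →
  M.Ten S → (∀ (w : M.X → ℝ) (t : ℝ), Continuous w →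
    HasDerivAt (fun s : ℝ => ∫ x, w x * M.dq H (T + s • S) x ∂M.mu H)
      (∫ x, w x * ta M H (T + t • S) S x ∂M.mu H) t) ∧
  (∀ U, M.Ten U → Continuous fun t : ℝ => mx M H (T + t • S) U) ∧
  (M.Clo T → M.Clo S → ∀ u, M.Sm u → mx M H (T + M.hs u) S = mx M H T S)

/-- The regularisation. -/
def St_REG : Prop := ∀ (n : ℕ) (M : Mf n) [M.Cpt] (H Θ : M.Fam (Mat n)) (σ : M.X → ℝ), M.Met H →
  Sg M Θ σ → ∃ C > (0 : ℝ), ∀ d > (0 : ℝ), M.Sm (fl σ d) ∧ M.Sm (la σ d) ∧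
    M.Form (qd M H Θ σ C d) ∧ M.Le 0 (qd M H Θ σ C d) ∧ M.Le 0 (C • H + M.hs (fl σ d)) ∧
    M.All fun e z => σ (e.symm z) ≠ 0 → (M.hs (fl σ d) + Θ) e z = la σ d (e.symm z) • Θ e z +
      (d / (σ (e.symm z) * (σ (e.symm z) + d) ^ 2)) • M.ds σ σ e z

/-- Monotonicity of the intersection with an effective divisor. -/
def St_MON : Prop := ∀ (n : ℕ) (M : Mf n) [M.Cpt] (H Θ G T : M.Fam (Mat n)) (σ : M.X → ℝ),
  M.Met H → Sg M Θ σ → M.Clo G → M.Clo T → M.Le 0 G → M.Le G T → mx M H G Θ ≤ mx M H T Θ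

/-- Orthogonality. -/
def St_ORT : Prop := ∀ (n : ℕ) (M : Mf n) [M.Cpt] (H Θ β : M.Fam (Mat n)) (σ : M.X → ℝ),
  M.Met H → Sg M Θ σ → M.Clo β →
  Integrable (fun x => ta M H β (M.ds σ σ) x / σ x ^ 2) (M.mu H) →
  ∀ (C η : ℝ), 0 < η → ∃ ε₀ > (0 : ℝ), ∀ ε ∈ Icc 0 ε₀, mx M H (C • β + ε • H) Θ ≤ η

/-- The oscillation of the potentials. -/
def St_OSC : Prop := ∀ (n : ℕ) (M : Mf n) [M.Cpt] (G Θ : M.Fam (Mat n)) (σ F : M.X → ℝ) (κ : ℝ),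
  M.Kae G → Sg M Θ σ → M.Sm F → 0 ≤ κ → ∃ C : ℝ, ∀ d ∈ Ioc (0 : ℝ) 1, ∀ u, M.Sm u →
    M.Met (G + M.hs u) → (∀ x, M.dq G (G + M.hs u) x = Real.exp (u x + (κ * fl σ d x + F x))) →
    ∀ x y, u x - u y ≤ C

/-- No mass near the divisor. -/
def St_CLN : Prop := ∀ (n : ℕ) (M : Mf n) [M.Cpt] (H G Θ : M.Fam (Mat n)) (σ : M.X → ℝ) (A η : ℝ),
  M.Kae H → M.Kae G → Sg M Θ σ → 0 < η → ∃ d₀ > (0 : ℝ), ∀ d ∈ Ioc 0 d₀, ∀ u, M.Sm u →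
    M.Met (G + M.hs u) → (∀ x y, u x - u y ≤ A) →
    ∫ x, la σ d x * ta M H (G + M.hs u) H x ∂M.mu H ≤ η

/-- The metrics. -/
def St_MET : Prop := ∀ (n : ℕ) (M : Mf n) [M.Cpt] (H T Θ β : M.Fam (Mat n)) (σ : M.X → ℝ) (κ : ℝ),
  0 < n → M.Kae H → Sg M Θ σ → 0 < κ → M.Clo T → M.Clo β → M.Le 0 β →
  (M.All fun e z => T e z + κ • Θ e z + M.ric H e z = 0) → Nf M H T → Nf M H (κ • β - T) →
  0 < ∫ x, M.dq H β x ∂M.mu H → Integrable (fun x => ta M H β (M.ds σ σ) x / σ x ^ 2) (M.mu H) →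
  ∀ ε > (0 : ℝ), ∃ v Q, ∃ ε' ∈ Icc 0 ε, M.Sm v ∧ Rc M (T + ε • β + ε' • H + M.hs v) Q

/-! ### Divisors -/

/-- The curvature forms exist. -/
def St_CUR : Prop := ∀ (n : ℕ) (M : Mf n) [M.Cpt] (ι : Type) [Fintype ι] [DecidableEq ι]
  (D : Ad M ι), ∃ Θ, Cv D Θ

/-- An integrable majorant. -/
def St_INT : Prop := ∀ (n : ℕ) (M : Mf n) [M.Cpt] (ι : Type) [Fintype ι] [DecidableEq ι]
  (D : Ad M ι) (G : M.Fam (Mat n)), M.Met G → M.mu G (off D)ᶜ = 0 ∧ ∀ (f : M.X → ℝ) (C : ℝ),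
    Measurable f → (OA D fun d z => ‖z‖ ≤ 1 → |D.rd f d z| ≤ C * xr (D.c d) (fun _ => -(1 / 2)) z) →
    Integrable f (M.mu G)

/-- The norm of an effective divisor. -/
def St_SIG : Prop := ∀ (n : ℕ) (M : Mf n) [M.Cpt] (ι : Type) [Fintype ι] [DecidableEq ι]
  (D : Ad M ι) (Θ : (ι → ℝ) →ₗ[ℝ] M.Fam (Mat n)) (a : ι → ℕ), Cv D Θ →
  ∃ σ, Sg M (Θ fun i => a i) σ ∧ Lf D a σ

/-- The pull-back of the metric of Fubini and Study. -/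
def St_BET : Prop := ∀ (n : ℕ) (M : Mf n) [M.Cpt] (ι : Type) [Fintype ι] [DecidableEq ι]
  (D : Ad M ι) (Θ : (ι → ℝ) →ₗ[ℝ] M.Fam (Mat n)) (T : Set ι) (R : Bm D T), Cv D Θ →
  ∃ w, M.Sm w ∧ M.Le 0 (Θ (fun i => R.b i) + M.hs w) ∧ Dg D T (Θ (fun i => R.b i) + M.hs w) ∧
    ∀ H, M.Met H → 0 < ∫ x, M.dq H (Θ (fun i => R.b i) + M.hs w) x ∂M.mu H

/-- The dominating function. -/
def St_DEG : Prop := ∀ (n : ℕ) (M : Mf n) [M.Cpt] (ι : Type) [Fintype ι] [DecidableEq ι]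
  (D : Ad M ι) (H β : M.Fam (Mat n)) (a : ι → ℕ) (σ : M.X → ℝ), M.Met H → M.Form β → M.Le 0 β →
  M.Sm σ → Lf D a σ → Dg D {i | a i ≠ 0} β →
  Integrable (fun x => ta M H β (M.ds σ σ) x / σ x ^ 2) (M.mu H)

/-- The classes of the ample divisor and of the canonical divisor. -/
def St_REL : Prop := ∀ (n : ℕ) (M : Mf n) [M.Cpt] (ι : Type) [Fintype ι] [DecidableEq ι]
  (D : Ad M ι) (Θ : (ι → ℝ) →ₗ[ℝ] M.Fam (Mat n)) (H : M.Fam (Mat n)), Cv D Θ →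
  (∀ A : Am D, Fs A H →
    ∃ w, M.Sm w ∧ M.All fun e z => H e z = (Θ (fun i => A.e i) + M.hs w) e z) ∧
  ∀ X : Cx D, Can D X.l X.w → M.Met H →
    ∃ w, M.Sm w ∧ M.All fun e z => -M.ric H e z = (Θ (fun i => X.l i) + M.hs w) e z

/-- Nef divisors. -/
def St_GNF : Prop := ∀ (n : ℕ) (M : Mf n) [M.Cpt] (ι : Type) [Fintype ι] [DecidableEq ι]
  (D : Ad M ι) (Θ : (ι → ℝ) →ₗ[ℝ] M.Fam (Mat n)) (A : Am D) (H : M.Fam (Mat n)) (P : ι → ℤ) (c : ℕ),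
  Cv D Θ → Fs A H → (∀ j : ℕ, Gens D fun i => j * P i + c * A.e i) → Nf M H (Θ fun i => P i)

/-- The weights. -/
def St_RHX : Prop := ∀ (n : ℕ) (M : Mf n) [M.Cpt] (ι : Type) [Fintype ι] [DecidableEq ι]
  (D : Ad M ι) (Θ : (ι → ℝ) →ₗ[ℝ] M.Fam (Mat n)) (G : M.Fam (Mat n)) (J : ℕ) (Q : ι → ℤ)
  (v : M.X → ℝ), Cv D Θ → M.Met G → M.Sm v → M.Le ((J : ℝ) • G) (Θ (fun i => Q i) + M.hs v) →
  Rh D G J Q

/-- The metrics for the nef part. -/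
def St_GEO : Prop := ∀ (n : ℕ) (M : Mf n) [M.Cpt] (ι : Type) [Fintype ι] [DecidableEq ι]
  (D : Ad M ι) (X : Cx D) (A : Am D) (T : Set ι) (R : Bm D T) (ν : ι → ℤ) (c c₀ c₁ : ℕ), 0 < n →
  0 < c → Can D X.l X.w → (∀ i, ν i ≤ c * X.l i) → (∀ i, ν i ≠ c * X.l i → i ∈ T) →
  (∀ j : ℕ, Gens D fun i => j * ν i + c₀ * A.e i) →
  (∀ j : ℕ, Gens D fun i => j * (R.b i - ν i) + c₁ * A.e i) →
  ∃ a : ℕ, ∀ J : ℕ, 0 < J → ∃ G Q, Rc M G Q ∧ Rh D G (J * c) fun i => J * ν i + a * A.e i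

/-! ### Sections -/

/-- The pair of norms. -/
def St_PAX : Prop := ∀ (n : ℕ) (M : Mf n) [M.Cpt] (ι : Type) [Fintype ι] [DecidableEq ι]
  (D : Ad M ι) (X : Cx D) (N B : ℕ) (s₁ s₂ : D.A → E n → (Fin N → Fin n) → ℂ) (O : Set M.X)
  (g : M.X → ℂ) (G Q : M.Fam (Mat n)), N ≤ B → Hs D N B s₁ → Hs D N B s₂ → Rat D O g →
  (D.All fun d z => ((D.e d).symm z ∈ O ↔ s₂ d z ≠ 0) ∧
    (s₂ d z ≠ 0 → s₁ d z = D.rd g d z • s₂ d z)) → Rc M G Q →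
  ∃ V W l C, 0 ≤ l ∧ 0 < C ∧ Pr M G l C V W ∧
    (∀ x, V x ≠ 0 → -(B * M.tr G Q x) ≤ ll M G V x) ∧ (∀ x, V x ≠ 0 ↔ x ∈ O) ∧
    ∀ x ∈ O, W x = V x * normSq (g x)

/-- The sections for one level. -/
def St_ONX : Prop := ∀ (n : ℕ) (M : Mf n) [M.Cpt] (ι : Type) [Fintype ι] [DecidableEq ι]
  (D : Ad M ι) (X : Cx D), 0 < n → X.Big → ∃ a : ℕ, ∀ (J j : ℕ) (l l' C : ℝ) (G : M.Fam (Mat n))
    (p V W : M.X → ℝ) (O : Set M.X) (g : M.X → ℂ) (Q : ι → ℤ), 0 < J → 0 ≤ l → 0 ≤ l' → 0 < C →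
    2 ^ (n + 2) * j * l' ≤ J → M.Kae G → Pr M G l C V W → Continuous p → (∀ x, 0 ≤ p x) →
    (∀ x, V x ≠ 0 → -p x ≤ ll M G V x) → ∫ x, p x ∂M.mu G ≤ l' * (M.mu G).real univ →
    Rh D G J Q → Rat D O g → (∀ x, V x ≠ 0 ↔ x ∈ O) → (∀ x ∈ O, W x = V x * normSq (g x)) →
    ∃ F, Sp D (fun i => Q i + a * X.e i) F ∧ F ≠ 0 ∧ X.I (fun x => normSq (F x) *
      Real.exp (lw D (fun i => (Q i + a * X.e i : ℤ) - X.o i) x) * (1 + normSq (g x)) ^ j) ≠ ⊤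

/-- Domination by the nef part. -/
def St_DOX : Prop := ∀ (n : ℕ) (M : Mf n) [M.Cpt] (ι : Type) [Fintype ι] [DecidableEq ι]
  (D : Ad M ι) (X : Cx D) (A : Am D) (T : Set ι) (R : Bm D T) (ν : ι → ℤ) (c c₀ c₁ N B : ℕ)
  (b₁ b₂ : D.A → (Fin N → Fin n) → E n → ℂ), 0 < n → 0 < c → Can D X.l X.w → X.e = A.e → X.Big →
  (∀ i, ν i ≤ c * X.l i) → (∀ i, ν i ≠ c * X.l i → i ∈ T) →
  (∀ j : ℕ, Gens D fun i => j * ν i + c₀ * X.e i) →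
  (∀ j : ℕ, Gens D fun i => j * (R.b i - ν i) + c₁ * X.e i) → N ≤ B →
  Tn D N (fun i => B * X.l i) b₁ → Tn D N (fun i => B * X.l i) b₂ →
  (∃ d I, ∃ z ∈ B2 n, Off (D.c d) z ∧ b₂ d I z ≠ 0) →
  (OA D fun d z => ∀ I I', b₁ d I z * b₂ d I' z = b₁ d I' z * b₂ d I z) →
  ∃ k a : ℕ, 0 < k ∧ ∀ j : ℕ, ∃ w : ℕ → M.X → ℂ, w 0 ≠ 0 ∧
    (∀ i ≤ j, Sp D (fun p => j * k * ν p + a * X.e p) (w i)) ∧
    ∀ i < j, OA D fun d z => ∀ I, D.rd (w (i + 1)) d z * b₂ d I z = D.rd (w i) d z * b₁ d I z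

end Pool.Agent.Lib.DX
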