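import Pool.Agent.Lib.NV5.X_K63
import Pool.Agent.Lib.EXS.K32

/-! Project NV5, block DOM: the local computations along a contracted divisor. -/

open scoped Classical Topology ContDiff ComplexOrder Matrix
open Set MeasureTheory Complex Metric Filter

noncomputable section

namespace Pool.Agent.Lib.DM.KL

open Pool.Agent.Lib.SV (E nsq)
open Pool.Agent.Lib.HS32 Pool.Agent.Lib.EXS.K32

variable {n r : ℕ} {z : E n}

/-- The kernel of the pull-back of the form of Fubini and Study. -/
theorem ker {F : E n → E r} (h : HolN F z) (h0 : F z ≠ 0) {y : E n} {c : ℂ}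
    (hy : fderiv ℂ F z y = c • F z) :
    hess (fun w => (Real.log (nsq (F w)) : ℝ)) z *ᵥ y = 0 := by
  obtain ⟨a1, a2⟩ := lv_lg h h0
  have p := psd_of_lv a1 fun v => (a2 v).1
  have h2 := ((SV.stFS SV.stSMO n _ F z 0 le_rfl h (by simpa using nsq_pos h0)).2 y).1
  have e1 : nsq (c • F z) = normSq c * nsq (F z) := by simp [nsq, Finset.mul_sum]
  have e2 : ∑ i, (c • F z) i * (starRingEnd ℂ) (F z i) = c * (nsq (F z) : ℝ) := by
    simp only [nsq, Pi.smul_apply, smul_eq_mul, mul_assoc, mul_conj, ofReal_sum, Finset.mul_sum]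
  simp only [add_zero] at h2
  rw [hy, e1, e2, map_mul, normSq_ofReal] at h2
  refine (p.dotProduct_mulVec_zero_iff y).1 (Complex.ext ?_ (p.1.im_star_dotProduct_mulVec_self y))
  have h3 := lv_eq a1 y
  rw [h2] at h3
  exact h3.trans (by simp only [zero_re]; ring)

/-- The Hessian of the squared norm of a section at a simple zero. -/
theorem peak {g σ : E n → ℝ} {j : Fin n} (hg : ContDiffAt ℝ ∞ g z) (hj : z j = 0)
    (e : ∀ᶠ w in 𝓝 z, σ w = g w * normSq (w j)) :
    hess (fun w => (σ w : ℂ)) z = (g z : ℂ) • Matrix.single j j 1 := by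
  have c1 : ContDiffAt ℝ ∞ (fun w : E n => w j) z := contDiffAt_apply ℝ ℂ j z
  have c2 := cd_star c1
  have e' : (fun w => (σ w : ℂ)) =ᶠ[𝓝 z] fun w => (g w : ℂ) * (w j * star (w j)) :=
    e.mono fun w hw => by simp only [hw, ofReal_mul, star_def, mul_conj]
  have d1 : ∀ k, dz k (fun w : E n => w j * star (w j)) z = 0 := fun k => by
    rw [dz_mul (cd_diff c1) (cd_diff c2)]; simp [hj]
  have d2 : ∀ k, dzb k (fun w : E n => w j * star (w j)) z = 0 := fun k => by
    rw [dzb_mul (cd_diff c1) (cd_diff c2)]; simp [hj]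
  rw [hess_congr e', hess_mul (cd_ofReal hg) (c1.mul c2), hess_mul c1 c2]
  ext i k
  simp only [Matrix.add_apply, Matrix.smul_apply, dd_apply, d1, d2, hj, dzb_coord,
    dzb_star (cd_diff c1), dz_coord, Matrix.single_apply, smul_eq_mul]
  by_cases h1 : j = i <;> by_cases h2 : j = k <;> simp [h1, h2]

theorem peak_tr {T : Mat n} {j : Fin n} {c : ℂ} (hc : c ≠ 0) (h : T.adjugate j j = 0) :
    c • Matrix.single j j (1 : ℂ) ≠ 0 ∧ (T.adjugate * (c • Matrix.single j j 1)).trace = 0 := by
  refine ⟨fun k => hc (by simpa using congrFun (congrFun k j) j), ?_⟩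
  rw [Matrix.mul_smul, Matrix.trace_smul, Matrix.trace_mul_single]
  simp [h]

/-- The volume of a semi-positive form that is positive at one point. -/
theorem vol_pos {M : Mf n} [M.Cpt] {H T : M.Fam (Mat n)} (hH : M.Met H) (hT : M.Form T)
    (h0 : M.Le 0 T) {e : M.Ch} (he : e ∈ M.C) (hz : z ∈ e.target) (hp : (T e z).PosDef) :
    0 < ∫ x, M.dq H T x ∂M.mu H := by
  have := (mMU n M H hH).2.2.1
  have r := ((mINV n M H hH).1 T hT.toTen).2.2.1
  have k : ∀ e ∈ M.C, ∀ z ∈ e.target, M.dq H T (e.symm z) = (T e z).det.re / (H e z).det.re :=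
    fun e he z hz => (r e he z hz).trans (by
      beta_reduce
      rw [← Mf.herm_det (hH.herm e he z hz), div_ofReal_re, ofReal_re])
  refine integral_pos_of_integrable_nonneg_nonzero (x := e.symm z) (K63.dq_c hH hT.toTen)
    (K63.int hH (K63.dq_c hH hT.toTen)) (fun x => ?_) ?_
  · have := k _ (Mf.ch_mem x) _ (Mf.ch_tgt x)
    rw [Mf.ch_symm] at this
    rw [this]
    exact div_nonneg (Complex.nonneg_iff.1 (K63.ev_psd h0 x).det_nonneg).1
      (Mf.pd_det_re (hH.ev_pos x)).le
  · rw [k e he z hz]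
    exact (div_pos (Mf.pd_det_re hp) (Mf.pd_det_re (hH.pos e he z hz))).ne'

end Pool.Agent.Lib.DM.KL
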