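import Pool.Agent.Lib.HS32.MAll
import Pool.Agent.Lib.HS76.Diag

/-! Project NV5, domination on resolutions: mixed volumes and the inequality of
Chern, Levine and Nirenberg. -/

open scoped Classical Topology ContDiff ENNReal ComplexOrder Matrix
open Set MeasureTheory Complex Metric Filter

set_option linter.unusedVariables false

noncomputable section

namespace Pool.Agent.Lib.DM.K63

open Pool.Agent.Lib.HS32

section mat

variable {n : ℕ} {G B Q : Mat n}

/-- The adjugate is monotone. -/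
theorem adj_mono (hG : G.PosDef) (hB : (B - G).PosSemidef) (hQ : Q.PosSemidef) :
    G.det.re * (G⁻¹ * Q).trace.re ≤ B.det.re * (B⁻¹ * Q).trace.re := by
  have hB' : B.PosDef := by
    have := hG.add_posSemidef hB
    rwa [add_sub_cancel] at this
  have g0 := HS76.det_re_pos hG
  have h1 := HS76.le_of_det_le (c := 1) (d := B.det.re / G.det.re) hG hB'.1 one_pos
    (by simpa using hB) (by rw [div_mul_cancel₀ _ g0.ne'])
  have h2 := HS76.tr_mul_mono hQ (HS76.inv_le_of_le hG hB' h1)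
  rw [Matrix.mul_smul, Matrix.trace_smul, smul_eq_mul, re_ofReal_mul, one_pow, div_one,
    Matrix.trace_mul_comm Q, Matrix.trace_mul_comm Q, div_mul_eq_mul_div, le_div_iff₀ g0] at h2
  linarith

theorem det_tr_le (hG : G.PosDef) (hB : B.PosSemidef) :
    G.det.re * (G⁻¹ * B).trace.re ≤ (G + B).det.re := by
  have := HS76.det_add_ge hG hB
  have := HS76.det_re_pos hG
  linarith

/-- A diagonal entry of the adjugate vanishes if the kernel meets the coordinate hyperplane. -/
theorem adj_kk (T : Mat n) (k : Fin n) (v : Fin n → ℂ) (h0 : v ≠ 0) (hk : v k = 0)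
    (hv : T *ᵥ v = 0) : T.adjugate k k = 0 := by
  rw [Matrix.adjugate_apply, ← Matrix.exists_mulVec_eq_zero_iff]
  refine ⟨v, h0, funext fun i => ?_⟩
  by_cases h : i = k
  · subst h
    simp [Matrix.mulVec, hk]
  · have := congrFun hv i
    simpa [Matrix.mulVec, Matrix.updateRow_ne h] using this

theorem adj_tr (A B : Mat n) : (A.adjugate * B).trace / A.det = (A⁻¹ * B).trace := by
  rw [Matrix.inv_def, Ring.inverse_eq_inv', Matrix.smul_mul, Matrix.trace_smul, smul_eq_mul,
    div_eq_inv_mul]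

end mat

open Polynomial in
theorem poly_lin {Y : Type} [MeasurableSpace Y] (μ : Measure Y) (P : Y → ℂ[X]) (n : ℕ)
    (hdeg : ∀ x, (P x).natDegree ≤ n)
    (hint : ∀ t : ℝ, Integrable (fun x => (P x).eval (t : ℂ)) μ) :
    ∃ Q : ℂ[X], ∀ L : ℂ[X] →ₗ[ℂ] ℂ, ∫ x, L (P x) ∂μ = L Q := by
  have hv : Set.InjOn (fun i : ℕ => (i : ℂ)) (Finset.range (n + 1)) :=
    fun a _ b _ h => Nat.cast_injective h
  have hP : ∀ x, P x = ∑ i ∈ Finset.range (n + 1), C ((P x).eval (i : ℂ)) *
      Lagrange.basis (Finset.range (n + 1)) (fun i : ℕ => (i : ℂ)) i := fun x => by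
    have := Lagrange.eq_interpolate (f := P x) hv (by
      rw [Finset.card_range]
      exact lt_of_le_of_lt degree_le_natDegree (by exact_mod_cast Nat.lt_succ_of_le (hdeg x)))
    rwa [Lagrange.interpolate_apply] at this
  have hi : ∀ i : ℕ, Integrable (fun x => (P x).eval (i : ℂ)) μ := fun i => by
    simpa using hint (i : ℝ)
  refine ⟨∑ i ∈ Finset.range (n + 1), C (∫ x, (P x).eval (i : ℂ) ∂μ) *
    Lagrange.basis (Finset.range (n + 1)) (fun i : ℕ => (i : ℂ)) i, fun L => ?_⟩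
  have e1 : ∀ x, L (P x) = ∑ i ∈ Finset.range (n + 1), (P x).eval (i : ℂ) *
      L (Lagrange.basis (Finset.range (n + 1)) (fun i : ℕ => (i : ℂ)) i) := fun x => by
    conv_lhs => rw [hP x]
    simp only [map_sum, ← smul_eq_C_mul, map_smul, smul_eq_mul]
  simp only [e1]
  rw [integral_finsetSum _ fun i _ => (hi i).mul_const _]
  simp only [map_sum, ← smul_eq_C_mul, map_smul, smul_eq_mul, integral_mul_const]

open Polynomial in
theorem poly_der {Y : Type} [MeasurableSpace Y] (μ : Measure Y) (P : Y → ℂ[X]) (n : ℕ)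
    (hdeg : ∀ x, (P x).natDegree ≤ n)
    (hint : ∀ t : ℝ, Integrable (fun x => (P x).eval (t : ℂ)) μ) (s : ℝ) :
    HasDerivAt (fun t : ℝ => ∫ x, (P x).eval (t : ℂ) ∂μ)
      (∫ x, (derivative (P x)).eval (s : ℂ) ∂μ) s := by
  obtain ⟨Q, hQ⟩ := poly_lin μ P n hdeg hint
  have h1 := fun t : ℝ => hQ (leval (t : ℂ))
  have h2 := hQ ((leval (s : ℂ)).comp derivative)
  simp only [LinearMap.comp_apply, leval_apply] at h1 h2
  simp only [h1, h2]
  exact (Q.hasDerivAt (s : ℂ)).comp_ofReal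

variable {n : ℕ} {M : Mf n} [M.Cpt] {G H T : M.Fam (Mat n)} {u w : M.X → ℝ}

omit [M.Cpt] in
theorem ev_psd (h : M.Le 0 T) (x : M.X) : (M.ev T x).PosSemidef := by
  have := Mf.AllOn.ch h x
  simp only [Pi.zero_apply, sub_zero] at this
  exact this

theorem int (hH : M.Met H) (hw : Continuous w) : Integrable w (M.mu H) :=
  (mMU n M H hH).2.2.2.2.1 ℝ w hw

omit [M.Cpt] in
theorem dq_c (hH : M.Met H) (hT : M.Ten T) : Continuous (M.dq H T) :=
  ((mINV n M H hH).1 T hT).2.2.2.1.continuous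

omit [M.Cpt] in
theorem tr_c (hH : M.Met H) (hT : M.Ten T) : Continuous (M.tr H T) :=
  ((mINV n M H hH).1 T hT).2.1.continuous

/-- Change of the reference metric. -/
theorem chg (hH : M.Met H) (hG : M.Met G) (hT : M.Form T) (w : M.X → ℝ) :
    ∫ x, w x * M.dq G T x ∂M.mu G = ∫ x, w x * M.dq H T x ∂M.mu H := by
  rw [((mMU n M H hH).2.2.2.2.2.2 G hG).2.1]
  refine integral_congr_ae (ae_of_all _ fun x => ?_)
  simp only
  rw [((mINV n M H hH).2.2.2.2.2.2.2 G hG).2.2.1 T hT x]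
  ring

open Polynomial in
/-- The derivative of a weighted volume. -/
theorem der0 (hG : M.Met G) (hT : M.Form T) (hw : Continuous w) :
    HasDerivAt (fun t : ℝ => ∫ x, w x * M.dq G (G + t • T) x ∂M.mu G)
      (∫ x, w x * M.tr G T x ∂M.mu G) 0 := by
  have hF : ∀ t : ℝ, M.Form (G + t • T) := fun t => hG.toForm.add (hT.smul t)
  have hdq : ∀ (t : ℝ) x, ((w x * M.dq G (G + t • T) x : ℝ) : ℂ) =
      (BCOH.pl (M.ev G x) (M.ev T x) * C ((w x : ℂ) * (M.ev G x).det⁻¹)).eval (t : ℂ) :=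
    fun t x => by
    have h := ((mINV n M G hG).2.1 _ (hF t) (M.ch x) (Mf.ch_mem x) _ (Mf.ch_tgt x)).2.1
    rw [Mf.ch_symm] at h
    rw [ofReal_mul, h, eval_mul, eval_C, BCOH.pl_eval, div_eq_mul_inv, mul_left_comm]
    rfl
  have h := poly_der (M.mu G)
    (fun x => BCOH.pl (M.ev G x) (M.ev T x) * C ((w x : ℂ) * (M.ev G x).det⁻¹)) n
    (fun x => (natDegree_mul_C_le _ _).trans ((natDegree_det_X_add_C_le _ _).trans (by simp)))
    (fun t => by
      simp only [← hdq]
      exact (int hG (hw.mul (dq_c hG (hF t).toTen))).ofReal) 0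
  have e : ∀ x, (derivative (BCOH.pl (M.ev G x) (M.ev T x) *
      C ((w x : ℂ) * (M.ev G x).det⁻¹))).eval ((0 : ℝ) : ℂ) = ((w x * M.tr G T x : ℝ) : ℂ) :=
    fun x => by
    have h := ((mINV n M G hG).2.1 _ hT (M.ch x) (Mf.ch_mem x) _ (Mf.ch_tgt x)).1
    rw [Mf.ch_symm] at h
    rw [derivative_mul, derivative_C, mul_zero, add_zero, eval_mul, eval_C, BCOH.pl_deriv,
      ofReal_zero, zero_smul, add_zero, ofReal_mul, h, ← adj_tr, div_eq_mul_inv, mul_left_comm]
    rfl
  simp only [← hdq, e, integral_complex_ofReal] at h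
  exact reCLM.hasFDerivAt.comp_hasDerivAt (0 : ℝ) h

/-- The derivative of a weighted volume along a line of forms. -/
theorem der (hH : M.Met H) (hG : M.Form G) (hT : M.Form T) (hw : Continuous w) {s : ℝ}
    (hs : M.Met (G + s • T)) :
    HasDerivAt (fun t : ℝ => ∫ x, w x * M.dq H (G + t • T) x ∂M.mu H)
      (∫ x, w x * M.tr (G + s • T) T x ∂M.mu (G + s • T)) s := by
  have h0 := der0 hs hT hw
  rw [← sub_self s] at h0
  refine (h0.comp_sub_const s s).congr_of_eventuallyEq (Eventually.of_forall fun t => ?_)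
  have e : G + s • T + (t - s) • T = G + t • T := by rw [add_assoc, ← add_smul]; simp
  simp only [e]
  exact (chg hH hs (hG.add (hT.smul t)) w).symm

/-- The mixed volume depends only on the class. -/
theorem mix (hG : M.Kae G) (hu : M.Sm u) (hG' : M.Met (G + M.hs u)) (hT : M.Clo T) :
    ∫ x, M.tr (G + M.hs u) T x ∂M.mu (G + M.hs u) = ∫ x, M.tr G T x ∂M.mu G := by
  have h1 := der0 hG.toMet hT.toForm (w := fun _ => 1) continuous_const
  have h2 := der0 hG' hT.toForm (w := fun _ => 1) continuous_const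
  have e : (fun t : ℝ => ∫ x, (1 : ℝ) * M.dq (G + M.hs u) (G + M.hs u + t • T) x ∂M.mu (G + M.hs u)) =
      fun t : ℝ => ∫ x, (1 : ℝ) * M.dq G (G + t • T) x ∂M.mu G := by
    funext t
    rw [chg hG.toMet hG' (hG'.toForm.add (hT.toForm.smul t)) fun _ => 1, add_right_comm]
    simpa using mCOH n M G (G + t • T) u hG.toMet (hG.toClo.add (hT.smul t)) hu
  rw [e] at h2
  simpa using h2.unique h1

/-- The volume depends only on the class. -/
theorem vol (hG : M.Kae G) (hu : M.Sm u) (hG' : M.Met (G + M.hs u)) :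
    (M.mu (G + M.hs u)).real univ = (M.mu G).real univ := by
  have h := mCOH n M G G u hG.toMet hG.toClo hu
  have h2 := ((mMU n M G hG.toMet).2.2.2.2.2.2 _ hG').2.1 fun _ => 1
  simp only [hG.toMet.dq_self, integral_const, smul_eq_mul, mul_one] at h h2
  rw [h2, h]

omit [M.Cpt] in
theorem dq_tr (hH : M.Met H) (G T : M.Fam (Mat n)) (x : M.X) :
    M.dq H G x * M.tr G T x =
      (M.ev G x).det.re * ((M.ev G x)⁻¹ * M.ev T x).trace.re / (M.ev H x).det.re := by
  rw [Mf.dq, Mf.tr, HS76.det_eq_re (hH.ev_pos x).posSemidef, div_ofReal_re, ofReal_re]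
  ring

/-- The mixed volume is monotone. -/
theorem mono {B : M.Fam (Mat n)} (hG : M.Met G) (hB : M.Met B) (h : M.Le G B) (hT : M.Form T)
    (h0 : M.Le 0 T) (hw : Continuous w) (w0 : ∀ x, 0 ≤ w x) :
    ∫ x, w x * M.tr G T x ∂M.mu G ≤ ∫ x, w x * M.tr B T x ∂M.mu B := by
  rw [((mMU n M G hG).2.2.2.2.2.2 B hB).2.1]
  refine integral_mono (int hG (hw.mul (tr_c hG hT.toTen)))
    (int hG ((dq_c hG hB.toTen).mul (hw.mul (tr_c hB hT.toTen)))) fun x => ?_
  simp only
  rw [mul_left_comm, dq_tr hG]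
  refine mul_le_mul_of_nonneg_left ?_ (w0 x)
  rw [le_div_iff₀ (HS76.det_re_pos (hG.ev_pos x)), mul_comm]
  exact adj_mono (hG.ev_pos x) (Mf.AllOn.ch h x) (ev_psd h0 x)

/-- A mixed volume is bounded by a volume. -/
theorem tr_le (hH : M.Met H) (hG : M.Met G) (hT : M.Form T) (h0 : M.Le 0 T) (hw : Continuous w)
    (w0 : ∀ x, 0 ≤ w x) :
    ∫ x, w x * M.tr G T x ∂M.mu G ≤ ∫ x, w x * M.dq H (G + T) x ∂M.mu H := by
  rw [← chg hH hG (hG.toForm.add hT)]
  refine integral_mono (int hG (hw.mul (tr_c hG hT.toTen)))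
    (int hG (hw.mul (dq_c hG (hG.toTen.add hT.toTen)))) fun x => ?_
  refine mul_le_mul_of_nonneg_left ?_ (w0 x)
  rw [Mf.dq, HS76.det_eq_re (hG.ev_pos x).posSemidef, div_ofReal_re,
    le_div_iff₀ (HS76.det_re_pos (hG.ev_pos x)), mul_comm]
  exact det_tr_le (hG.ev_pos x) (ev_psd h0 x)

/-- The inequality of Chern, Levine and Nirenberg. -/
theorem cln {C K : ℝ} (hH : M.Kae H) (hG : M.Kae G) (hu : M.Sm u) (hG' : M.Met (G + M.hs u))
    (hw : M.Sm w) (hC : M.Le (M.hs w) (C • H)) (C0 : 0 ≤ C) (hK : ∀ x, 0 ≤ u x ∧ u x ≤ K) :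
    ∫ x, w x * M.dq H (G + M.hs u + H) x ∂M.mu H ≤
      ∫ x, w x * M.dq H (G + H) x ∂M.mu H + n * C * K * ∫ x, M.dq H (G + H) x ∂M.mu H := by
  have hA : M.Clo (M.hs u) := (mHES n M).1 u hu
  have hW : M.Clo (M.hs w) := (mHES n M).1 w hw
  have hGH : M.Clo (G + H) := hG.toClo.add hH.toClo
  have hl : ∀ t ∈ Icc (0 : ℝ) 1, M.Le H (G + H + t • M.hs u) := fun t ht e he z hz => by
    have h1 := Mf.psd_rsmul (hG.pos e he z hz).posSemidef (sub_nonneg.2 ht.2)
    have h2 := Mf.psd_rsmul (hG'.pos e he z hz).posSemidef ht.1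
    have e1 : (G + H + t • M.hs u) e z - H e z = (1 - t) • G e z + t • (G + M.hs u) e z := by
      simp only [Pi.add_apply, Pi.smul_apply, smul_add, sub_smul, one_smul]
      abel
    exact (congrArg Matrix.PosSemidef e1).mpr (h1.add h2)
  have hc : ∀ t : ℝ, M.Clo (G + H + t • M.hs u) := fun t => hGH.add (hA.smul t)
  have hm : ∀ t ∈ Icc (0 : ℝ) 1, M.Met (G + H + t • M.hs u) := fun t ht =>
    hH.toMet.of_le (hc t).toForm (hl t ht)
  have hd := fun t (ht : t ∈ Icc (0 : ℝ) 1) =>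
    der hH.toMet hGH.toForm hA.toForm hw.continuous (hm t ht)
  have hb : ∀ t ∈ Icc (0 : ℝ) 1, ∫ x, w x * M.tr (G + H + t • M.hs u) (M.hs u) x
      ∂M.mu (G + H + t • M.hs u) ≤ n * C * K * ∫ x, M.dq H (G + H) x ∂M.mu H := fun t ht => by
    have k : M.Kae (G + H + t • M.hs u) := { hc t, hm t ht with }
    have g := ((mGRN n M).2 _ u w k hu hw).2.2
    have v : (M.mu (G + H + t • M.hs u)).real univ = ∫ x, M.dq H (G + H) x ∂M.mu H := by
      have h1 := mCOH n M H (G + H) (fun x => t * u x) hH.toMet hGH (hu.const_mul t)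
      have h2 := ((mMU n M H hH.toMet).2.2.2.2.2.2 _ k.toMet).2.1 fun _ => 1
      simp only [integral_const, smul_eq_mul, mul_one] at h2
      rw [h2, ← h1]
      refine integral_congr_ae (ae_of_all _ fun x => ?_)
      exact congrFun (Mf.dq_congr (fun _ _ _ _ => rfl) fun e he z hz => by
        simp only [Pi.add_apply, Pi.smul_apply]
        rw [((mLAP n M u u hu hu).1 t e he z hz).2.2.2.1]) x
    have := (mMU n M _ k.toMet).2.1
    have p : ∀ x, u x * M.lap (G + H + t • M.hs u) w x ≤ n * C * K := fun x => by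
      have h1 := k.toMet.tr_mono (hC.trans ((hl t ht).smul C0)) x
      rw [Mf.tr_smul, k.toMet.tr_self] at h1
      have h2 := mul_le_mul_of_nonneg_left h1 (hK x).1
      have h3 := mul_le_mul_of_nonneg_right (hK x).2 (mul_nonneg C0 (Nat.cast_nonneg (α := ℝ) n))
      exact h2.trans (h3.trans_eq (by ring))
    refine g.trans_le ((integral_mono (int k.toMet (hu.continuous.mul (tr_c k.toMet hW.toTen)))
      (integrable_const _) p).trans_eq ?_)
    rw [integral_const, smul_eq_mul, v, mul_comm]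
  obtain ⟨t, ht, e⟩ := exists_hasDerivAt_eq_slope _ _ zero_lt_one
    (fun t ht => (hd t ht).continuousAt.continuousWithinAt) fun t ht => hd t (Ioo_subset_Icc_self ht)
  have := hb t (Ioo_subset_Icc_self ht)
  rw [e, sub_zero, div_one, one_smul, zero_smul, add_zero, add_right_comm] at this
  linarith

end Pool.Agent.Lib.DM.K63
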