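import Pool.Agent.Lib.NV5.Alg

/-! Row ALG: assembly of the algebraic theorem. -/

open Filter WithZero

noncomputable section

namespace Pool.Agent.Lib.NV5

theorem aALG (hFIB : Sa_FIB) (hLOW : Sa_LOW) (hWR : Sa_WR) (hCNT : Sa_CNT) : Sa_ALG := by
  intro n F _ _ V L A M S f hL hA hM hFD hQ hI
  obtain ⟨d, z, k, a, c, b, τ, hP, h1⟩ := hFIB n F V L A M S f hL hI
  by_cases hN : V.Nv L
  · exact Or.inl hN
  by_cases hd : d ≤ 1
  · exact Or.inl (hLOW n F V L A M d z k a c b τ hL hM hQ hP hd)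
  by_cases hU : V.Unb L A k a b τ
  · obtain ⟨h2, h3⟩ := hCNT n F V L A M d z k a c b τ hL hFD hN hP hU
    exact Or.inr ⟨d, z, k, a, c, b, τ, by omega, h2, hP, h1, hU, h3⟩
  · exact Or.inl (hWR n F V L A M d z k a c b τ hL hA hP hU)

end Pool.Agent.Lib.NV5
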