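import Pool.Agent.Lib.NV5.Alg

/-! Project NV5: row BIG. -/

open Filter WithZero

noncomputable section

namespace Pool.Agent.Lib.NV5

namespace BIG

variable {F : Type} [Field F] {d : ℕ}

theorem iter (v : Valuation F Zm) (z : Fin d → F) (q : F) (c : ℕ) {B : Zm} (hB : B ≠ 0)
    (h : ∀ (w : F) (E : Zm), (∀ α : Fin d → ℕ, ∑ i, α i ≤ c → v (w * ∏ i, z i ^ α i) ≤ E) →
      B * v (w * q) ≤ E) (j : ℕ) : ∀ (w : F) (E : Zm),
    (∀ α : Fin d → ℕ, ∑ i, α i ≤ j * c → v (w * ∏ i, z i ^ α i) ≤ E) →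
      B ^ j * v (w * q ^ j) ≤ E := by
  induction j with
  | zero => intro w E hw; simpa using hw 0 (by simp)
  | succ j ih =>
    intro w E hw
    have h0 : 0 < B ^ j := zero_lt_iff.2 (pow_ne_zero _ hB)
    have h1 := h (w * q ^ j) ((B ^ j)⁻¹ * E) fun α hα => by
      rw [le_inv_mul_iff₀ h0, mul_right_comm]
      refine ih _ _ fun β hβ => ?_
      have h2 := hw (α + β) (by
        simp only [Pi.add_apply, Finset.sum_add_distrib]
        rw [Nat.succ_mul]; omega)
      simpa only [Pi.add_apply, pow_add, Finset.prod_mul_distrib, mul_assoc] using h2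
    rw [le_inv_mul_iff₀ h0] at h1
    simpa only [pow_succ, mul_assoc] using h1

end BIG

theorem aBIG (hKT : Sa_KT) : Sa_BIG := by
  intro n F _ _ V L A M d z k a c b τ hL hP hO
  simp only [VF.One, not_forall] at hO
  obtain ⟨m, f, g, hf, hg, f0, hu⟩ := hO
  set u := g / f with hud
  let z' : Fin (d + 1) → F := Fin.cons u z
  let K' := IntermediateField.adjoin ℂ (Set.range z')
  let k' : IntermediateField ℂ F := (algebraicClosure K' F).restrictScalars ℂ
  have hk' : ∀ x, x ∈ k' ↔ IsAlgebraic K' x := fun x => mem_algebraicClosure_iff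
  have hle : IntermediateField.adjoin ℂ (Set.range z) ≤ K' :=
    IntermediateField.adjoin.mono _ _ _ (by rintro _ ⟨i, rfl⟩; exact ⟨i.succ, by simp [z']⟩)
  have hkk : ∀ x ∈ k, x ∈ k' := fun x hx => (hk' x).2
    (IsAlgebraic.tower_top_of_subalgebra_le (A := (IntermediateField.adjoin ℂ
      (Set.range z)).toSubalgebra) (B := K'.toSubalgebra) hle ((hP.alg x).1 hx))
  have hind : AlgebraicIndependent ℂ z' := by
    have h1 : Transcendental (Algebra.adjoin ℂ (Set.range z)) u :=
      IntermediateField.transcendental_adjoin_iff.1 fun h => hu ((hP.alg u).2 h)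
    have h2 := ((hP.ind.option_iff_transcendental u).2 h1).comp (finSuccEquiv d)
      (finSuccEquiv d).injective
    have h3 : z' = (fun o : Option (Fin d) => o.elim u z) ∘ finSuccEquiv d := by
      funext i
      refine Fin.cases ?_ (fun i => ?_) i <;> simp [z']
    rwa [h3]
  obtain ⟨Q, c0, Q0, -, hQ⟩ := hKT n F V d z k hP.ind hP.alg
    (fun p => max (V.v p f) (V.v p g) * exp (-(m • L) p)) (by
      filter_upwards [V.cof f, V.cof g, hL] with p h1 h2 h3
      simpa [h3] using And.intro h1 h2)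
  set q := MvPolynomial.aeval z Q with hq
  have q0 : q ≠ 0 := fun h => Q0 (algebraicIndependent_iff.1 hP.ind Q h)
  have qk : q ∈ k := by
    have h1 : q ∈ IntermediateField.adjoin ℂ (Set.range z) :=
      IntermediateField.algebra_adjoin_le_adjoin ℂ _ (by
        rw [Algebra.adjoin_range_eq_range_aeval]; exact ⟨Q, rfl⟩)
    exact (hP.alg q).2 (isAlgebraic_algebraMap (⟨q, h1⟩ : IntermediateField.adjoin ℂ (Set.range z)))
  refine ⟨z', k', (c0 + 1) * c + m, b, hind, hk', fun j => ?_, hP.a0, hP.τ0,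
    fun p hp => hP.sec p fun x hx => hp x (hkk x hx), ?_⟩
  · obtain ⟨w, w0, hw⟩ := hP.dom (j * (c0 + 1))
    refine ⟨w * (f * q) ^ j, mul_ne_zero w0 (pow_ne_zero _ (mul_ne_zero f0 q0)), fun α hα p => ?_⟩
    rw [Fin.sum_univ_succ] at hα
    obtain ⟨i, hi⟩ : ∃ i, j = α 0 + i := ⟨j - α 0, by omega⟩
    set W := w * ∏ l, z l ^ α l.succ with hW
    set E := exp (((j * (c0 + 1) * c) • L + b • A) p) with hE
    set e := exp ((m • L) p) with he
    obtain ⟨B, b1, b2, b3⟩ : ∃ B : Zm, V.v p f ≤ B * e ∧ V.v p g ≤ B * e ∧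
        B ^ j * V.v p (W * q ^ j) ≤ E := by
      by_cases hz : V.Hz k p
      · refine ⟨1, (one_mul e).symm ▸ hf p hz, (one_mul e).symm ▸ hg p hz, ?_⟩
        rw [one_pow, one_mul, map_mul, map_pow]
        exact (mul_le_of_le_one_right' (pow_le_one' (hz q qk) j)).trans
          (hw (fun l => α l.succ) (by nlinarith [Nat.zero_le (j * c0)]) p)
      · have h1 : max (V.v p f) (V.v p g) * exp (-(m • L) p) * e = max (V.v p f) (V.v p g) := by
          rw [he, mul_assoc, ← exp_add, neg_add_cancel, exp_zero, mul_one]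
        refine ⟨_, h1.symm ▸ le_max_left _ _, h1.symm ▸ le_max_right _ _, ?_⟩
        refine BIG.iter (V.v p) z q c0 (mul_ne_zero (fun h => f0 ?_) exp_ne_zero) (hQ p hz) j W E
          fun β hβ => ?_
        · exact (V.v p).zero_iff.1 (le_zero_iff.1 (h ▸ le_max_left _ _))
        · have h2 := hw (fun l => α l.succ + β l) (by
            rw [Finset.sum_add_distrib]; nlinarith) p
          rw [hW, mul_assoc, ← Finset.prod_mul_distrib]
          simpa only [pow_add] using h2
    have h4 : w * (f * q) ^ j * ∏ l, z' l ^ α l = g ^ α 0 * f ^ i * (W * q ^ j) := by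
      rw [Fin.prod_univ_succ, hW]
      simp only [z', Fin.cons_zero, Fin.cons_succ, hud]
      rw [mul_pow, div_pow, show f ^ j = f ^ α 0 * f ^ i by rw [← pow_add, ← hi]]
      field_simp
    have h5 : exp (((j * ((c0 + 1) * c + m)) • L + b • A) p) = e ^ j * E := by
      rw [he, hE, ← exp_nsmul, ← exp_add]
      congr 1
      simp only [Pi.add_apply, Pi.smul_apply]
      simp only [nsmul_eq_mul]
      push_cast
      ring
    rw [h4, h5, map_mul, map_mul, map_pow, map_pow]
    calc _ ≤ (B * e) ^ α 0 * (B * e) ^ i * V.v p (W * q ^ j) := by gcongr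
      _ = e ^ j * (B ^ j * V.v p (W * q ^ j)) := by
        rw [← pow_add, ← hi, mul_pow, mul_comm (B ^ j), mul_assoc]
      _ ≤ _ := by gcongr
  · obtain ⟨t, t0, x, y, h⟩ := hP.psf
    exact ⟨t, t0, x, y, h.mono fun i hi => hi.imp fun g hg => ⟨hkk g hg.1, hg.2⟩⟩

end Pool.Agent.Lib.NV5
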