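import Pool.Agent.Lib.NV5.Alg

/-! Project NV5: the count of sections. -/

open Filter WithZero

set_option linter.unusedVariables false

noncomputable section

namespace Pool.Agent.Lib.NV5

namespace CNT

variable {F : Type} [Field F] [Algebra ℂ F]

theorem mem_z {d : ℕ} {z : Fin d → F} {k : IntermediateField ℂ F}
    (h : ∀ g, g ∈ k ↔ IsAlgebraic (IntermediateField.adjoin ℂ (Set.range z)) g) (i : Fin d) :
    z i ∈ k :=
  (h _).mpr (isAlgebraic_algebraMap (⟨z i, IntermediateField.subset_adjoin _ _ ⟨i, rfl⟩⟩ :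
    IntermediateField.adjoin ℂ (Set.range z)))

theorem mem_aeval {d : ℕ} {z : Fin d → F} {k : IntermediateField ℂ F} (h : ∀ i, z i ∈ k)
    (Q : MvPolynomial (Fin d) ℂ) : MvPolynomial.aeval z Q ∈ k := by
  induction Q using MvPolynomial.induction_on with
  | C a => rw [MvPolynomial.aeval_C]; exact k.algebraMap_mem a
  | add p q hp hq => rw [map_add]; exact add_mem hp hq
  | mul_X p i hp => rw [map_mul, MvPolynomial.aeval_X]; exact mul_mem hp (h i)

theorem li_mon {d : ℕ} {z : Fin d → F} (hz : AlgebraicIndependent ℂ z) (s : ℕ) :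
    LinearIndependent ℂ fun β : Fin d → Fin s => ∏ i, z i ^ (β i : ℕ) := by
  have h1 := (MvPolynomial.basisMonomials (Fin d) ℂ).linearIndependent.map'
    (MvPolynomial.aeval z).toLinearMap (LinearMap.ker_eq_bot.mpr hz)
  have h2 := h1.comp (fun β : Fin d → Fin s => Finsupp.equivFunOnFinite.symm fun i => (β i : ℕ))
    fun β β' h => funext fun i => Fin.ext (congrFun (Finsupp.equivFunOnFinite.symm.injective h) i)
  refine (congrArg (fun f => LinearIndependent ℂ f) (funext fun β => ?_)).mp h2
  simp [MvPolynomial.aeval_monomial, Finsupp.prod_fintype]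

theorem lt_dim {n d : ℕ} {z : Fin d → F} {k : IntermediateField ℂ F}
    (htr : Algebra.trdeg ℂ F = n) (hz : AlgebraicIndependent ℂ z)
    (h : ∀ g, g ∈ k ↔ IsAlgebraic (IntermediateField.adjoin ℂ (Set.range z)) g)
    {y : Fin 2 → F} (hy : LinearIndependent k y) : d < n := by
  have h0 := hy.ne_zero 0
  have hu : y 1 / y 0 ∉ k := fun hu => by
    have := Fintype.linearIndependent_iff.mp hy ![⟨_, hu⟩, -1] (by
      rw [Fin.sum_univ_two]
      show y 1 / y 0 * y 0 + (-1 : k) • y 1 = 0
      rw [div_mul_cancel₀ _ h0, neg_one_smul, add_neg_cancel]) 1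
    exact one_ne_zero (neg_eq_zero.mp this)
  have ht : Transcendental (Algebra.adjoin ℂ (Set.range z)) (y 1 / y 0) :=
    Transcendental.of_tower_top_of_subalgebra_le
      (IntermediateField.algebra_adjoin_le_adjoin ℂ (Set.range z)) fun h' => hu ((h _).mpr h')
  have := ((hz.option_iff_transcendental _).mpr ht).cardinalMk_le_trdeg
  rw [htr, Cardinal.mk_fintype, Fintype.card_option, Fintype.card_fin] at this
  exact_mod_cast this

end CNT

open CNT in
theorem aCNT (hKT : Sa_KT) : Sa_CNT := by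
  intro n F _ _ V L A M d z k a c b τ hL hFD _ hP hU
  obtain ⟨y2, hy2, -⟩ := hU 2
  refine ⟨lt_dim V.tr hP.ind hP.alg hy2, b + b, fun C => frequently_atTop.mpr fun N => ?_⟩
  obtain ⟨y, hy, hi⟩ := hU (C * (d * c + 1) ^ d + 1)
  choose e he using hi
  set i := N + ∑ l, e l with hi
  have hei : ∀ l, e l ≤ i := fun l =>
    (Finset.single_le_sum (fun _ _ => Nat.zero_le _) (Finset.mem_univ l)).trans (Nat.le_add_left _ _)
  set u : V.P → Zm := fun p => max 1 (V.v p τ * exp (-(a • L p))) with hu
  obtain ⟨Q, c1, hQ, -, hK⟩ := hKT n F V d z k hP.ind hP.alg (fun p => u p ^ i) (by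
    filter_upwards [V.cof τ, hL] with p h1 h2
    simp [hu, h2, max_eq_left h1])
  set s := i * a + c1 * c with hs
  obtain ⟨w, hw, hS⟩ := hP.dom (d * s + c1)
  have hz := mem_z hP.alg
  have hq : MvPolynomial.aeval z Q ≠ 0 := fun h => hQ (hP.ind (by rw [h, map_zero]))
  set j := i * a + (d * s + c1) * c with hj
  have key : ∀ m ≤ i, ∀ β : Fin d → Fin (s + 1), V.Sec ((m * a) • L + (((d * s + c1) * c) • L + b • A))
      (τ ^ m * (w * (∏ x, z x ^ (β x : ℕ)) * MvPolynomial.aeval z Q)) := by
    intro m hm β p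
    rw [map_mul, map_pow, Pi.add_apply, exp_add, Pi.smul_apply, mul_nsmul', exp_nsmul]
    by_cases hp : V.Hz k p
    · refine mul_le_mul' (pow_le_pow_left' (hP.sec p hp) m) ?_
      have h1 := hS 0 (by simp) p
      simp only [Pi.zero_apply, pow_zero, Finset.prod_const_one, mul_one] at h1
      rw [mul_assoc, map_mul]
      exact mul_le_of_le_of_le_one h1
        (hp _ (mul_mem (prod_mem fun x _ => pow_mem (hz x) _) (mem_aeval hz Q)))
    · have h1 := hK p hp (w * ∏ x, z x ^ (β x : ℕ)) _ fun α hα => by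
        have h2 : ∑ x, ((β x : ℕ) + α x) ≤ d * s + c1 := by
          rw [Finset.sum_add_distrib]
          refine add_le_add ?_ hα
          simpa using Finset.sum_le_card_nsmul Finset.univ (fun x => (β x : ℕ)) s
            fun x _ => Nat.lt_succ_iff.mp (β x).2
        have h3 := hS (fun x => (β x : ℕ) + α x) h2 p
        simp only [pow_add, Finset.prod_mul_distrib, ← mul_assoc] at h3
        exact h3
      have h4 : V.v p τ ≤ exp (a • L p) * u p := by
        calc V.v p τ = exp (a • L p) * (V.v p τ * exp (-(a • L p))) := by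
              rw [mul_left_comm, ← exp_add, add_neg_cancel, exp_zero, mul_one]
          _ ≤ _ := mul_le_mul' le_rfl (le_max_right _ _)
      calc _ ≤ (exp (a • L p) * u p) ^ m * _ := mul_le_mul' (pow_le_pow_left' h4 m) le_rfl
        _ ≤ exp (a • L p) ^ m * (u p ^ i * _) := by
          rw [mul_pow, mul_assoc]
          exact mul_le_mul' le_rfl (mul_le_mul' (pow_le_pow_right' (le_max_left _ _) hm) le_rfl)
        _ ≤ _ := mul_le_mul' le_rfl h1
  set t := τ ^ i * (w * MvPolynomial.aeval z Q) with ht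
  have t0 : t ≠ 0 := mul_ne_zero (pow_ne_zero _ hP.τ0) (mul_ne_zero hw hq)
  have l1 : LinearIndependent ℂ fun β : Fin d → Fin (s + 1) =>
      (⟨∏ x, z x ^ (β x : ℕ), prod_mem fun x _ => pow_mem (hz x) _⟩ : k) :=
    LinearIndependent.of_comp k.val.toLinearMap (li_mon hP.ind (s + 1))
  have l2 := (linearIndependent_smul l1 hy).map' (LinearMap.mulLeft ℂ t)
    (LinearMap.ker_eq_bot.mpr (mul_right_injective₀ t0))
  have mem : ∀ q : (Fin d → Fin (s + 1)) × Fin (C * (d * c + 1) ^ d + 1),
      V.Sec (j • L + (b + b) • A) (t * ((∏ x, z x ^ (q.1 x : ℕ)) * y q.2)) := by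
    intro q p
    have h1 := mul_le_mul' (he q.2 p) (key (i - e q.2) (Nat.sub_le _ _) q.1 p)
    rw [← map_mul, ← exp_add] at h1
    obtain ⟨m, hm⟩ := Nat.exists_eq_add_of_le (hei q.2)
    have e1 : i - e q.2 = m := by omega
    rw [e1] at h1
    refine le_of_eq_of_le (congrArg _ ?_) (h1.trans_eq (congrArg _ ?_))
    · rw [ht, hm]; ring
    · simp only [Pi.add_apply, Pi.smul_apply]
      simp only [hj, nsmul_eq_mul]
      have : (i : ℤ) = e q.2 + m := by exact_mod_cast hm
      push_cast
      rw [this]; ring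
  have := hFD j (b + b)
  have l3 : LinearIndependent ℂ fun q : (Fin d → Fin (s + 1)) × Fin (C * (d * c + 1) ^ d + 1) =>
      (⟨_, Submodule.subset_span (mem q)⟩ :
        Submodule.span ℂ {f | V.Sec (j • L + (b + b) • A) f}) :=
    LinearIndependent.of_comp (Submodule.subtype _) l2
  have l4 := l3.fintype_card_le_finrank
  simp only [Fintype.card_prod, Fintype.card_fun, Fintype.card_fin] at l4
  refine ⟨j, ?_, lt_of_lt_of_le ?_ l4⟩
  · have := Nat.le_mul_of_pos_right i hP.a0
    omega
  · have h1 : j ≤ (d * c + 1) * (s + 1) := by rw [hj]; nlinarith [Nat.zero_le (d * c)]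
    have h2 := Nat.pow_le_pow_left h1 d
    rw [mul_pow] at h2
    have h3 : 0 < (s + 1) ^ d := by positivity
    nlinarith [Nat.mul_le_mul_left C h2]

end Pool.Agent.Lib.NV5
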