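import Pool.Agent.Lib.NV5.Alg

/-! Project NV5, row COF: finiteness of the set of poles. -/

open Filter WithZero

noncomputable section

namespace Pool.Agent.Lib.NV5.COF

variable {F : Type} [Field F]

theorem mono : StrictMono fun m : Zm =>
    ((WithZeroMulInt.toNNReal (e := 2) two_ne_zero m : NNReal) : ℝ) :=
  fun _ _ h => NNReal.coe_lt_coe.2 (WithZeroMulInt.toNNReal_strictMono one_lt_two h)

/-- The absolute value of a valuation. -/
def av (w : Valuation F Zm) : AbsoluteValue F ℝ where
  toFun z := (WithZeroMulInt.toNNReal (e := 2) two_ne_zero (w z) : NNReal)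
  map_mul' x y := by rw [map_mul, map_mul, NNReal.coe_mul]
  nonneg' _ := NNReal.coe_nonneg _
  eq_zero' x := by rw [NNReal.coe_eq_zero, map_eq_zero, map_eq_zero]
  add_le' x y := by
    rcases le_max_iff.1 (w.map_add x y) with h | h
    · exact (mono.monotone h).trans (le_add_of_nonneg_right (NNReal.coe_nonneg _))
    · exact (mono.monotone h).trans (le_add_of_nonneg_left (NNReal.coe_nonneg _))

theorem av_lt (w : Valuation F Zm) (x y : F) : av w x < av w y ↔ w x < w y := mono.lt_iff_lt

theorem eq_of_equiv {w w' : Valuation F Zm} {x : F} (h1 : 1 < w x) (h2 : w x = w' x)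
    (h : (av w).IsEquiv (av w')) : w = w' := by
  obtain ⟨c, -, hc⟩ := AbsoluteValue.isEquiv_iff_exists_rpow_eq.1 h
  have h3 : 1 < av w x := by
    rw [← map_one (av w), av_lt, map_one]
    exact h1
  have h4 : av w x = av w' x := congrArg
    (fun m : Zm => ((WithZeroMulInt.toNNReal (e := 2) two_ne_zero m : NNReal) : ℝ)) h2
  have h5 : av w x ^ c = av w x ^ (1 : ℝ) := by
    rw [Real.rpow_one]
    exact (congrFun hc x).trans h4.symm
  have h6 : c = 1 := (Real.rpow_right_inj (one_pos.trans h3) h3.ne').1 h5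
  ext z
  refine mono.injective ?_
  have h7 := congrFun hc z
  rw [h6, Real.rpow_one] at h7
  exact h7

/-- Weak approximation. -/
theorem approx {ι : Type} [Finite ι] (w : ι → Valuation F Zm) (hw : Function.Injective w) {x : F}
    {b : Zm} (hb : 1 < b) (hx : ∀ i, w i x = b) (i : ι) :
    ∃ t, w i t = 1 ∧ ∀ j ≠ i, w j t < 1 := by
  have h1 : ∀ i, 1 < av (w i) x := fun i => by
    rw [← map_one (av (w i)), av_lt, map_one, hx]
    exact hb
  obtain ⟨a, h2, h3⟩ := AbsoluteValue.exists_one_lt_lt_one_pi_of_not_isEquiv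
    (v := fun i => av (w i))
    (fun i => ⟨x, fun e => by
      have h := h1 i
      rw [e, map_zero] at h
      exact absurd h (by norm_num), (h1 i).ne'⟩)
    (fun i j hij h => hij (hw (eq_of_equiv (hx i ▸ hb) ((hx i).trans (hx j).symm) h))) i
  rw [← map_one (av (w i)), av_lt] at h2
  refine ⟨a / (1 + a), ?_, fun j hj => ?_⟩
  · rw [map_div₀, (w i).map_add_eq_of_lt_right h2]
    exact div_self (zero_le.trans_lt h2).ne'
  · have h4 := h3 j hj
    rw [← map_one (av (w j)), av_lt, map_one] at h4
    rw [map_div₀, (w j).map_one_add_of_lt h4, div_one]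
    exact h4

theorem val_poly {R : Type} [CommRing R] (φ : R →+* F) (w : Valuation F Zm)
    (h : ∀ r ≠ 0, w (φ r) = 1) {x : F} (hx : 1 < w x) {p : Polynomial R} (hp : p ≠ 0) :
    w (p.eval₂ φ x) = w x ^ p.natDegree := by
  have h0 : w (φ (p.coeff p.natDegree) * x ^ p.natDegree) = w x ^ p.natDegree := by
    rw [map_mul, map_pow,
      h (p.coeff p.natDegree) (Polynomial.leadingCoeff_ne_zero.2 hp), one_mul]
  rw [Polynomial.eval₂_eq_sum_range,
    w.map_sum_eq_of_lt (Finset.self_mem_range_succ _) fun i hi => ?_, h0]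
  rw [h0, map_mul, map_pow]
  have h1 : i < p.natDegree := by
    simp only [Finset.mem_sdiff, Finset.mem_range, Finset.mem_singleton] at hi
    omega
  have h2 : w (φ (p.coeff i)) ≤ 1 := by
    by_cases e : p.coeff i = 0
    · rw [e, map_zero, map_zero]
      exact zero_le
    · exact (h _ e).le
  exact (mul_le_of_le_one_left' h2).trans_lt (pow_lt_pow_right₀ hx h1)

variable [Algebra ℂ F]

theorem val_mv {σ : Type} (T : σ → F) (x : F) (w : Valuation F Zm)
    (h : ∀ Q : MvPolynomial σ ℂ, Q ≠ 0 → w (MvPolynomial.aeval T Q) = 1) (hx : 1 < w x)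
    {P : MvPolynomial (Option σ) ℂ} (hP : P ≠ 0) :
    w (MvPolynomial.aeval (fun o : Option σ => o.elim x T) P) =
      w x ^ (MvPolynomial.optionEquivLeft ℂ σ P).natDegree := by
  have e : ∀ P : MvPolynomial (Option σ) ℂ,
      MvPolynomial.aeval (fun o : Option σ => o.elim x T) P =
        (MvPolynomial.optionEquivLeft ℂ σ P).eval₂
          (MvPolynomial.aeval T : MvPolynomial σ ℂ →ₐ[ℂ] F).toRingHom x := by
    intro P
    induction P using MvPolynomial.induction_on with
    | C a => simp [MvPolynomial.optionEquivLeft_C]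
    | add p q hp hq => rw [map_add, map_add, Polynomial.eval₂_add, hp, hq]
    | mul_X p o hp =>
      rw [map_mul, map_mul, Polynomial.eval₂_mul, hp]
      cases o <;> simp [MvPolynomial.optionEquivLeft_X_some, MvPolynomial.optionEquivLeft_X_none]
  rw [e]
  exact val_poly _ w h hx ((map_ne_zero_iff _ (AlgEquiv.injective _)).2 hP)

theorem fin_level {n : ℕ} (T : Fin (n - 1) → F) (hfg : (⊤ : IntermediateField ℂ F).FG)
    (htr : Algebra.trdeg ℂ F = n) (x : F) {b : Zm} (hb : 1 < b) :
    {w : Valuation F Zm | (∀ Q : MvPolynomial (Fin (n - 1)) ℂ, Q ≠ 0 →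
      w (MvPolynomial.aeval T Q) = 1) ∧ w x = b}.Finite := by
  classical
  by_contra hinf
  have hinf := Set.not_finite.1 hinf
  let z : Option (Fin (n - 1)) → F := fun o => o.elim x T
  let k := IntermediateField.adjoin ℂ (Set.range z)
  obtain ⟨w₀, h0, h0'⟩ := hinf.nonempty
  have hind : AlgebraicIndependent ℂ z := by
    refine algebraicIndependent_iff.2 fun P hP => by_contra fun hne => ?_
    have h1 := val_mv T x w₀ h0 (h0' ▸ hb) hne
    rw [hP, map_zero, h0'] at h1
    exact pow_ne_zero _ (zero_le.trans_lt hb).ne' h1.symm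
  have hbas : IsTranscendenceBasis ℂ z := hind.isTranscendenceBasis_of_trdeg_le_of_finite (by
    rw [htr, Cardinal.mk_fintype, Nat.cast_le, Fintype.card_option, Fintype.card_fin]
    omega)
  have : Algebra.IsAlgebraic k F := hbas.isAlgebraic_field
  have : Algebra.EssFiniteType ℂ F := IntermediateField.fg_top_iff.1 hfg
  have : Algebra.EssFiniteType k F := .of_comp ℂ k F
  have : Module.Finite k F := Algebra.finite_of_essFiniteType_of_isAlgebraic
  let f := hinf.natEmbedding
  let w : Fin (Module.finrank k F + 1) → Valuation F Zm := fun i => f i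
  have hw : Function.Injective w := fun i j h => Fin.ext (f.injective (Subtype.ext h))
  have hT := fun i : Fin (Module.finrank k F + 1) => (f i).2.1
  have hx : ∀ i, w i x = b := fun i => (f i).2.2
  have hagree : ∀ i, ∀ c : k, w i c = w₀ c := by
    intro i c
    have h1 : ∀ P : MvPolynomial (Option (Fin (n - 1))) ℂ,
        w i (MvPolynomial.aeval z P) = w₀ (MvPolynomial.aeval z P) := fun P => by
      by_cases hP : P = 0
      · rw [hP, map_zero, map_zero, map_zero]
      · rw [val_mv T x (w i) (hT i) ((hx i).symm ▸ hb) hP, val_mv T x w₀ h0 (h0' ▸ hb) hP, hx, h0']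
    obtain ⟨r, s, hrs⟩ := (IntermediateField.mem_adjoin_range_iff ℂ z c).1 c.2
    rw [hrs, map_div₀, map_div₀, h1, h1]
  choose t ht1 ht2 using approx w hw hb hx
  have hli : LinearIndependent k t := by
    refine Fintype.linearIndependent_iff.2 fun c hc => ?_
    obtain ⟨i, hi⟩ := Finite.exists_max fun i => w₀ (c i)
    by_contra hne
    obtain ⟨j, hj⟩ := not_forall.1 hne
    have hpos : 0 < w₀ (c i) :=
      ((w₀.pos_iff).2 fun e => hj (Subtype.ext e)).trans_le (hi j)
    have h1 : ∀ l, w i (c l • t l) = w₀ (c l) * w i (t l) := fun l => by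
      rw [← hagree i]
      exact map_mul (w i) (c l : F) (t l)
    have h2 := (w i).map_sum_eq_of_lt (f := fun l => c l • t l) (Finset.mem_univ i) fun l hl => by
      have h3 : i ≠ l := fun e => by simp [e] at hl
      rw [h1, h1, ht1, mul_one]
      exact (mul_le_mul_left (hi l) _).trans_lt (mul_lt_of_lt_one_right hpos (ht2 l i h3))
    rw [hc, map_zero, h1, ht1, mul_one] at h2
    exact hpos.ne h2
  have h4 := hli.fintype_card_le_finrank
  rw [Fintype.card_fin] at h4
  omega

end Pool.Agent.Lib.NV5.COF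

namespace Pool.Agent.Lib.NV5

theorem aCOF : Sa_COF := by
  intro n F _ _ P κ _ v T hfg htr hT hN x
  obtain ⟨N, hN⟩ := hN x
  refine (Set.finite_iUnion fun s : κ => (Set.finite_Ioc (0 : ℤ) N).biUnion fun m hm =>
    COF.fin_level (T s) hfg htr x (b := exp m) ?_).subset ?_
  · rw [← exp_zero, exp_lt_exp]
    exact hm.1
  · rintro _ ⟨p, rfl, hp⟩
    obtain ⟨s, hs⟩ := hT p
    have h0 : v p x ≠ 0 := (zero_le.trans_lt hp).ne'
    refine Set.mem_iUnion.2 ⟨s, Set.mem_biUnion (x := log (v p x))
      ⟨lt_log_of_exp_lt (by rwa [exp_zero]), (log_le_iff_le_exp h0).2 (hN p)⟩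
      ⟨hs, (exp_log h0).symm⟩⟩

end Pool.Agent.Lib.NV5
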