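import Pool.Agent.Lib.NV5.Alg

/-! Row FIB: the maximal dominated field. -/

open Filter WithZero

noncomputable section

namespace Pool.Agent.Lib.NV5

namespace FIB

/-- An independent family has at most `n` members. -/
theorem le_dim {n : ℕ} {F : Type} [Field F] [Algebra ℂ F] (V : VF n F) {d : ℕ} {z : Fin d → F}
    (hz : AlgebraicIndependent ℂ z) : d ≤ n := by
  have h := hz.lift_cardinalMk_le_trdeg
  rw [V.tr] at h
  simpa using h

end FIB

theorem aFIB (hPRE : Sa_PRE) (hBIG : Sa_BIG) : Sa_FIB := by
  intro n F _ _ V L A M S f hL hI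
  obtain ⟨d, z, k, a, c, b, τ, hP⟩ := hPRE n F V L A M S f hI
  have key : ∀ (e d : ℕ) (z : Fin d → F) (k : IntermediateField ℂ F) (c b : ℕ), n - d ≤ e →
      V.Pre L A M d z k a c b τ →
      ∃ d z k a c b τ, V.Pre L A M d z k a c b τ ∧ V.One L k := by
    intro e
    induction e with
    | zero =>
      intro d z k c b he hP
      by_cases h1 : V.One L k
      · exact ⟨d, z, k, a, c, b, τ, hP, h1⟩
      · obtain ⟨z', k', c', b', hP'⟩ := hBIG n F V L A M d z k a c b τ hL hP h1
        have := FIB.le_dim V hP'.ind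
        omega
    | succ e ih =>
      intro d z k c b he hP
      by_cases h1 : V.One L k
      · exact ⟨d, z, k, a, c, b, τ, hP, h1⟩
      · obtain ⟨z', k', c', b', hP'⟩ := hBIG n F V L A M d z k a c b τ hL hP h1
        exact ih (d + 1) z' k' c' b' (by omega) hP'
  exact key (n - d) d z k c b le_rfl hP

end Pool.Agent.Lib.NV5
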