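import Pool.Agent.Lib.NV5.Alg

/-! Project NV5, row KT. -/

open Filter WithZero

noncomputable section

namespace Pool.Agent.Lib.NV5

namespace KT

variable {F : Type} [Field F] [Algebra ℂ F] {d : ℕ} (v : Valuation F Zm) (z : Fin d → F)

/-- The largest value of a coordinate. -/
def mu : Zm := max 1 (Finset.univ.sup fun i => v (z i))

theorem one_le : 1 ≤ mu v z := le_max_left _ _

theorem le_mu (i : Fin d) : v (z i) ≤ mu v z :=
  (Finset.le_sup (f := fun i => v (z i)) (Finset.mem_univ i)).trans (le_max_right _ _)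

theorem poly_le (hc : ∀ c, v (algebraMap ℂ F c) ≤ 1) (Q : MvPolynomial (Fin d) ℂ) {c : ℕ}
    (h : Q.totalDegree ≤ c) : v (MvPolynomial.aeval z Q) ≤ mu v z ^ c := by
  rw [MvPolynomial.aeval_def, MvPolynomial.eval₂_eq']
  refine v.map_sum_le fun α hα => ?_
  rw [map_mul, map_prod]
  have h1 : ∑ i, α i ≤ c := by
    have := (MvPolynomial.le_totalDegree hα).trans h
    rwa [Finsupp.sum_fintype _ _ fun _ => rfl] at this
  refine (mul_le_mul' (hc _) (Finset.prod_le_prod' (g := fun i => mu v z ^ α i) fun i _ => ?_)).trans ?_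
  · rw [map_pow]
    exact pow_le_pow_left' (le_mu v z i) _
  · rw [one_mul, Finset.prod_pow_eq_pow_sum]
    exact pow_le_pow_right' (one_le v z) h1

theorem mul_le {c : ℕ} {w : F} {E : Zm}
    (h : ∀ α : Fin d → ℕ, ∑ i, α i ≤ c → v (w * ∏ i, z i ^ α i) ≤ E) : v w * mu v z ^ c ≤ E := by
  rcases max_choice 1 (Finset.univ.sup fun i => v (z i)) with e | e
  · have := h 0 (by simp)
    rw [mu, e]
    simpa using this
  · rcases (Finset.univ : Finset (Fin d)).eq_empty_or_nonempty with e0 | e0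
    · have h1 := one_le v z
      rw [mu, e, e0, Finset.sup_empty] at h1
      exact absurd h1 (by simp)
    obtain ⟨i, -, hi⟩ := Finset.exists_mem_eq_sup _ e0 fun i => v (z i)
    have := h (Pi.single i c) (by simp)
    rw [Finset.prod_eq_single i (fun j _ hj => by simp [hj]) (by simp), Pi.single_eq_same,
      map_mul, map_pow] at this
    rwa [mu, e, hi]

theorem alg_le (K : IntermediateField ℂ F) (h : ∀ x ∈ K, v x ≤ 1) {g : F}
    (hg : IsAlgebraic K g) : v g ≤ 1 :=
  (Valuation.integer.integers v).mem_of_integral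
    (hg.isIntegral.map_of_comp_eq ((algebraMap K F).codRestrict v.integer fun x => h x x.2)
      (RingHom.id F) rfl)

theorem ex_poly (hc : ∀ c, v (algebraMap ℂ F c) ≤ 1) {g : F} (h1 : ¬ v g ≤ 1)
    (hg : IsAlgebraic (IntermediateField.adjoin ℂ (Set.range z)) g) (B : Zm) :
    ∃ (Q : MvPolynomial (Fin d) ℂ) (c : ℕ), Q ≠ 0 ∧ Q.totalDegree ≤ c ∧
      B * v (MvPolynomial.aeval z Q) ≤ mu v z ^ c := by
  obtain ⟨x, hx, h2⟩ : ∃ x ∈ IntermediateField.adjoin ℂ (Set.range z), 1 < v x := by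
    by_contra! h
    exact h1 (alg_le v _ h hg)
  obtain ⟨P, R, rfl⟩ := (IntermediateField.mem_adjoin_range_iff ℂ z x).1 hx
  have h0 : v (MvPolynomial.aeval z R) ≠ 0 := fun e => by
    rw [map_div₀, e, div_zero] at h2
    exact absurd h2 (by simp)
  obtain ⟨N, hN⟩ := MulArchimedean.arch B h2
  refine ⟨R ^ N, N * max P.totalDegree R.totalDegree,
    pow_ne_zero _ fun e => h0 (by rw [e, map_zero, map_zero]),
    (MvPolynomial.totalDegree_pow _ _).trans (Nat.mul_le_mul_left _ (le_max_right _ _)), ?_⟩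
  rw [map_pow, map_pow, mul_comm N, pow_mul]
  refine (mul_le_mul' hN le_rfl).trans ?_
  rw [← mul_pow, map_div₀, div_mul_cancel₀ _ h0]
  exact pow_le_pow_left' (poly_le v z hc P (le_max_left _ _)) _

end KT

open KT in
theorem aKT : Sa_KT := by
  classical
  intro n F _ _ V d z k _ hk B hB
  have h1 : ∀ p, ∃ (Q : MvPolynomial (Fin d) ℂ) (c : ℕ), Q ≠ 0 ∧ Q.totalDegree ≤ c ∧
      (¬ V.Hz k p → B p * V.v p (MvPolynomial.aeval z Q) ≤ mu (V.v p) z ^ c) := fun p => by
    by_cases h : V.Hz k p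
    · exact ⟨1, 0, one_ne_zero, by simp, fun h' => absurd h h'⟩
    · obtain ⟨g, hg⟩ := not_forall.1 h
      obtain ⟨g1, g2⟩ := Classical.not_imp.1 hg
      obtain ⟨Q, c, a1, a2, a3⟩ := ex_poly (V.v p) z (V.cst p) g2 ((hk g).1 g1) (B p)
      exact ⟨Q, c, a1, a2, fun _ => a3⟩
  choose Q c q0 q1 q2 using h1
  have hS : {p | ¬ B p ≤ 1}.Finite := hB
  have hd : (∏ p ∈ hS.toFinset, Q p).totalDegree ≤ ∑ p ∈ hS.toFinset, c p :=
    (MvPolynomial.totalDegree_finsetProd _ _).trans (Finset.sum_le_sum fun p _ => q1 p)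
  refine ⟨∏ p ∈ hS.toFinset, Q p, ∑ p ∈ hS.toFinset, c p,
    Finset.prod_ne_zero_iff.2 fun p _ => q0 p, hd, fun p hp w E h => ?_⟩
  refine le_trans ?_ (mul_le (V.v p) z h)
  rw [map_mul, mul_left_comm]
  refine mul_le_mul' le_rfl ?_
  by_cases hb : B p ≤ 1
  · exact (mul_le_mul' hb (poly_le _ z (V.cst p) _ hd)).trans_eq (one_mul _)
  · have hm : p ∈ hS.toFinset := hS.mem_toFinset.2 hb
    rw [← Finset.mul_prod_erase _ _ hm, ← Finset.add_sum_erase _ _ hm, map_mul, map_mul,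
      ← mul_assoc, pow_add]
    exact mul_le_mul' (q2 p hp) (poly_le _ z (V.cst p) _
      ((MvPolynomial.totalDegree_finsetProd _ _).trans (Finset.sum_le_sum fun p _ => q1 p)))

end Pool.Agent.Lib.NV5
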