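import Pool.Agent.Lib.NV5.Alg

/-! Row LOW: base of dimension at most one. -/

open Filter WithZero

noncomputable section

namespace Pool.Agent.Lib.NV5

namespace LOW

variable {n : ℕ} {F : Type} [Field F] [Algebra ℂ F] (V : VF n F)

/-- A non-zero element is a unit at almost all primes. -/
theorem fs_log {t : F} (ht : t ≠ 0) : V.Fs fun p => log (V.v p t) := by
  filter_upwards [V.cof t, V.cof t⁻¹] with p h1 h2
  have h0 : V.v p t ≠ 0 := (Valuation.ne_zero_iff _).2 ht
  rw [map_inv₀, inv_le_one₀ (zero_lt_iff.2 h0)] at h2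
  rw [le_antisymm h1 h2, log_one]

theorem fs_smul {L : V.P → ℤ} (hL : V.Fs L) (a : ℕ) : V.Fs (a • L) := by
  filter_upwards [hL] with p h
  simp [h]

theorem fs_add {L M : V.P → ℤ} (hL : V.Fs L) (hM : V.Fs M) : V.Fs (L + M) := by
  filter_upwards [hL, hM] with p h h'
  simp [h, h']

theorem fs_sub {L M : V.P → ℤ} (hL : V.Fs L) (hM : V.Fs M) : V.Fs (L - M) := by
  filter_upwards [hL, hM] with p h h'
  simp [h, h']

/-- Elements algebraic over the constants have no poles. -/
theorem le_one_of_alg {g : F} (hg : IsAlgebraic ℂ g) (p : V.P) : V.v p g ≤ 1 := by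
  obtain ⟨c, rfl⟩ := minpoly.mem_range_of_degree_eq_one ℂ g
    (IsAlgClosed.degree_eq_one_of_irreducible ℂ (minpoly.irreducible hg.isIntegral))
  exact V.cst p c

end LOW

theorem aLOW (hRAT : Sa_RAT) (hP1 : Sa_P1) : Sa_LOW := by
  intro n F _ _ V L A M d z k a c b τ hL hM hQ hP hd
  rcases Nat.le_one_iff_eq_zero_or_eq_one.1 hd with rfl | rfl
  · refine ⟨a, hP.a0, τ, hP.τ0, fun p => hP.sec p fun g hg => LOW.le_one_of_alg V ?_ p⟩
    have h1 := (hP.alg g).1 hg
    rw [Set.range_eq_empty, IntermediateField.adjoin_empty] at h1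
    have : Algebra.IsAlgebraic ℂ (⊥ : IntermediateField ℂ F) :=
      (IntermediateField.botEquiv ℂ F).symm.isAlgebraic
    exact h1.restrictScalars ℂ
  · obtain ⟨t, ht, rfl⟩ := hRAT n F V z k hQ hP.ind hP.alg
    obtain ⟨u, hu, x, y, hS⟩ := hP.psf
    obtain ⟨m, hm, s, hs, hs'⟩ := hP1 n F V (a • L)
      ((x • L + y • M) - fun p => log (V.v p u)) t τ (LOW.fs_smul V hL a)
      (LOW.fs_sub V (LOW.fs_add V (LOW.fs_smul V hL x) (LOW.fs_smul V hM y)) (LOW.fs_log V hu))
      ht hP.τ0 hP.sec (hS.mono (by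
        rintro i ⟨g, hg, hg0, hs⟩
        refine ⟨g, hg, hg0, fun p => ?_⟩
        have h0 : V.v p u ≠ 0 := (Valuation.ne_zero_iff _).2 hu
        have h1 := hs p
        rw [map_mul] at h1
        rw [smul_smul, ← add_sub_assoc, Pi.sub_apply, exp_sub, exp_log h0,
          le_div_iff₀ (zero_lt_iff.2 h0)]
        exact h1))
    exact ⟨m * a, Nat.mul_pos hm hP.a0, s, hs, by rwa [smul_smul] at hs'⟩

end Pool.Agent.Lib.NV5
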