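import Pool.Agent.Lib.NV5.Alg

/-! Row MUL: domination of each function gives domination of the family. -/

open Filter WithZero

noncomputable section

namespace Pool.Agent.Lib.NV5

namespace MUL

/-- The product of two sections. -/
theorem sec_mul {n : ℕ} {F : Type} [Field F] [Algebra ℂ F] (V : VF n F) {N M : V.P → ℤ} {f g : F}
    (hf : V.Sec N f) (hg : V.Sec M g) : V.Sec (N + M) (f * g) := by
  intro p
  rw [map_mul, Pi.add_apply, exp_add]
  exact mul_le_mul' (hf p) (hg p)

/-- The product of finitely many sections. -/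
theorem sec_prod {n : ℕ} {F : Type} [Field F] [Algebra ℂ F] (V : VF n F) {ι : Type}
    (s : Finset ι) (N : ι → V.P → ℤ) (f : ι → F) (h : ∀ i ∈ s, V.Sec (N i) (f i)) :
    V.Sec (∑ i ∈ s, N i) (∏ i ∈ s, f i) := by
  classical
  induction s using Finset.induction_on with
  | empty => intro p; simp
  | insert a s ha ih =>
    rw [Finset.sum_insert ha, Finset.prod_insert ha]
    exact sec_mul V (h a (Finset.mem_insert_self a s))
      (ih fun i hi => h i (Finset.mem_insert_of_mem hi))

end MUL

theorem aMUL : Sa_MUL := by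
  intro n F _ _ V L A d z h
  choose c b hcb using h
  refine ⟨∑ i, c i, ∑ i, b i, fun j => ?_⟩
  choose w hw0 hw using fun i => hcb i j
  refine ⟨∏ i, w i, Finset.prod_ne_zero_iff.2 fun i _ => hw0 i, fun α hα => ?_⟩
  have h1 := MUL.sec_prod V Finset.univ (fun i => (j * c i) • L + b i • A)
    (fun i => w i * z i ^ α i) fun i _ => hw i (α i)
      ((Finset.single_le_sum (fun i _ => Nat.zero_le (α i)) (Finset.mem_univ i)).trans hα)
  rw [Finset.sum_add_distrib, ← Finset.sum_smul, ← Finset.sum_smul, ← Finset.mul_sum,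
    Finset.prod_mul_distrib] at h1
  exact h1

end Pool.Agent.Lib.NV5
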