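import Pool.Agent.Lib.NV5.Alg

/-! Project NV5, row P1: the degree count on the projective line. -/

open Filter WithZero Polynomial
open scoped Classical

noncomputable section

namespace Pool.Agent.Lib.NV5

namespace P1

/-- The combinatorial core. -/
theorem comb {P O : Type} (ov : P → O → Prop) (e l N : P → ℤ)
    (uniq : ∀ p o o', ov p o → ov p o' → o = o') (fin : ∀ o, {p | ov p o}.Finite)
    (ne : ∀ o, ∃ p, ov p o) (pos : ∀ p o, ov p o → 0 < e p) (hl : {p | l p ≠ 0}.Finite)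
    (hN : {p | N p ≠ 0}.Finite)
    (inf : {i : ℕ | ∃ (S : Finset O) (μ : O → ℤ), (∀ o ∉ S, μ o = 0) ∧ ∑ o ∈ S, μ o = 0 ∧
      ∀ p o, ov p o → 0 ≤ i * l p + e p * μ o + N p}.Infinite) :
    ∃ m : ℕ, 0 < m ∧ ∃ (S : Finset O) (μ : O → ℤ), (∀ o ∉ S, μ o = 0) ∧ ∑ o ∈ S, μ o ≤ 0 ∧
      ∀ p o, ov p o → 0 ≤ m * l p + e p * μ o := by
  have h1 : ∀ o, ∃ q, ov q o ∧ ∀ p, ov p o → (l q : ℚ) / e q ≤ (l p : ℚ) / e p := fun o =>
    Set.exists_min_image {p | ov p o} (fun p => (l p : ℚ) / e p) (fin o) (ne o)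
  choose q hq hmin using h1
  have hinj : Function.Injective q := fun o o' h => uniq (q o) o o' (hq o) (h ▸ hq o')
  have hT : (q ⁻¹' ({p | l p ≠ 0} ∪ {p | N p ≠ 0})).Finite :=
    (hl.union hN).preimage hinj.injOn
  have hT0 : ∀ o ∉ hT.toFinset, l (q o) = 0 ∧ N (q o) = 0 := fun o ho => by
    rw [Set.Finite.mem_toFinset] at ho
    exact ⟨by_contra fun h => ho (Or.inl h), by_contra fun h => ho (Or.inr h)⟩
  generalize hT.toFinset = T at hT0
  have he : ∀ o, (0 : ℚ) < e (q o) := fun o => by exact_mod_cast pos _ _ (hq o)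
  obtain ⟨δ, hδ⟩ : ∃ δ : O → ℚ, ∀ o, δ o = (l (q o) : ℚ) / e (q o) := ⟨_, fun _ => rfl⟩
  have hsum : 0 ≤ ∑ o ∈ T, δ o := by
    by_contra hneg
    have h2 : 0 < -∑ o ∈ T, δ o := by linarith [not_le.1 hneg]
    obtain ⟨j, hj⟩ := exists_nat_gt ((∑ o ∈ T, (N (q o) : ℚ) / e (q o)) / -∑ o ∈ T, δ o)
    obtain ⟨i, ⟨S, μ, hμ, hs, hp⟩, hi⟩ := inf.exists_gt j
    have h3 : ∀ o, -(i * δ o) - (N (q o) : ℚ) / e (q o) ≤ μ o := fun o => by
      have h4 : (0 : ℚ) ≤ i * l (q o) + e (q o) * μ o + N (q o) := by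
        exact_mod_cast hp _ _ (hq o)
      have h5 : (0 : ℚ) ≤ (i * l (q o) + e (q o) * μ o + N (q o)) / e (q o) :=
        div_nonneg h4 (he o).le
      rw [add_div, add_div, mul_div_cancel_left₀ _ (he o).ne', mul_div_assoc, ← hδ] at h5
      linarith
    have h6 : ∑ o ∈ T, μ o ≤ ∑ o ∈ T ∪ S, μ o :=
      Finset.sum_le_sum_of_subset_of_nonneg Finset.subset_union_left fun o _ ho => by
        have h7 := h3 o
        rw [hδ, (hT0 o ho).1, (hT0 o ho).2] at h7
        simpa using h7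
    rw [← Finset.sum_subset Finset.subset_union_right fun o _ ho => hμ o ho, hs] at h6
    have h8 : ∑ o ∈ T, (-(i * δ o) - (N (q o) : ℚ) / e (q o)) ≤ 0 :=
      (Finset.sum_le_sum fun o _ => h3 o).trans (by exact_mod_cast h6)
    rw [Finset.sum_sub_distrib, Finset.sum_neg_distrib, ← Finset.mul_sum] at h8
    rw [div_lt_iff₀ h2] at hj
    have h9 : (j : ℚ) < i := by exact_mod_cast hi
    nlinarith
  have hm : ∀ o ∈ T, ∃ z : ℤ, (z : ℚ) = (∏ o ∈ T, (δ o).den : ℕ) * δ o := fun o ho => by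
    obtain ⟨c, hc⟩ := Finset.dvd_prod_of_mem (fun o => (δ o).den) ho
    refine ⟨c * (δ o).num, ?_⟩
    rw [hc]
    push_cast
    rw [← Rat.mul_den_eq_num]
    ring
  choose! z hz using hm
  have hm0 : 0 < ∏ o ∈ T, (δ o).den := Finset.prod_pos fun o _ => (δ o).den_pos
  generalize ∏ o ∈ T, (δ o).den = m at hz hm0
  have hm1 : (0 : ℚ) ≤ m := Nat.cast_nonneg m
  refine ⟨m, hm0, T, fun o => if o ∈ T then -z o else 0, fun o ho => if_neg ho, ?_,
    fun p o hp => ?_⟩
  · have h2 : ((∑ o ∈ T, (if o ∈ T then -z o else 0) : ℤ) : ℚ) = -(m * ∑ o ∈ T, δ o) := by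
      rw [Int.cast_sum, Finset.mul_sum, ← Finset.sum_neg_distrib]
      exact Finset.sum_congr rfl fun o ho => by rw [if_pos ho, Int.cast_neg, hz o ho]
    have h3 : ((∑ o ∈ T, (if o ∈ T then -z o else 0) : ℤ) : ℚ) ≤ 0 := by
      rw [h2]
      exact neg_nonpos.2 (mul_nonneg hm1 hsum)
    exact_mod_cast h3
  · have h2 : (((if o ∈ T then -z o else 0) : ℤ) : ℚ) = -(m * δ o) := by
      by_cases ho : o ∈ T
      · rw [if_pos ho, Int.cast_neg, hz o ho]
      · rw [if_neg ho, hδ, (hT0 o ho).1]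
        simp
    have h3 : (0 : ℚ) < e p := by exact_mod_cast pos _ _ hp
    have h4 := hmin o p hp
    rw [← hδ, le_div_iff₀ h3] at h4
    have h5 : (0 : ℚ) ≤ m * l p + e p * ((if o ∈ T then -z o else 0 : ℤ) : ℚ) := by
      rw [h2]
      nlinarith
    exact_mod_cast h5

variable {n : ℕ} {F : Type} [Field F] [Algebra ℂ F] (V : VF n F)

theorem v_ne (p : V.P) {x : F} (hx : x ≠ 0) : V.v p x ≠ 0 := (V.v p).ne_zero_iff.2 hx

theorem od_mul (p : V.P) {x y : F} (hx : x ≠ 0) (hy : y ≠ 0) :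
    V.od p (x * y) = V.od p x + V.od p y := by
  simp only [VF.od, map_mul, log_mul (v_ne V p hx) (v_ne V p hy), neg_add]

theorem od_zpow (p : V.P) (x : F) (m : ℤ) : V.od p (x ^ m) = m * V.od p x := by
  simp only [VF.od, map_zpow₀, log_zpow, smul_eq_mul, mul_neg]

theorem od_pow (p : V.P) (x : F) (m : ℕ) : V.od p (x ^ m) = m * V.od p x := by
  rw [← zpow_natCast, od_zpow]

theorem od_inv (p : V.P) (x : F) : V.od p x⁻¹ = -V.od p x := by
  rw [← zpow_neg_one, od_zpow, neg_one_mul]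

theorem le_iff (p : V.P) {x : F} (hx : x ≠ 0) (a : ℤ) :
    V.v p x ≤ exp a ↔ 0 ≤ V.od p x + a := by
  rw [← log_le_iff_le_exp (v_ne V p hx), VF.od]
  omega

theorem le_one (p : V.P) {x : F} (hx : x ≠ 0) : V.v p x ≤ 1 ↔ 0 ≤ V.od p x := by
  rw [← exp_zero, le_iff V p hx, add_zero]

theorem lt_one (p : V.P) {x : F} (hx : x ≠ 0) : V.v p x < 1 ↔ 0 < V.od p x := by
  rw [← exp_zero, ← log_lt_iff_lt_exp (v_ne V p hx), VF.od]
  omega

theorem v_c (p : V.P) {c : ℂ} (hc : c ≠ 0) : V.v p (algebraMap ℂ F c) = 1 := by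
  refine le_antisymm (V.cst p c) ?_
  have h := V.cst p c⁻¹
  rw [map_inv₀, map_inv₀] at h
  exact (inv_le_one₀ (zero_lt_iff.2 (v_ne V p ((_root_.map_ne_zero _).2 hc)))).1 h

theorem od_fin {x : F} (hx : x ≠ 0) : {p | V.od p x ≠ 0}.Finite := by
  refine (eventually_cofinite.1 ((V.cof x).and (V.cof x⁻¹))).subset fun p hp h => hp ?_
  have h1 := (le_one V p hx).1 h.1
  have h2 := (le_one V p (inv_ne_zero hx)).1 h.2
  rw [od_inv] at h2
  omega

theorem zero_ex {x : F} (hx : x ≠ 0) (h : x⁻¹ ∉ Set.range (algebraMap ℂ F)) :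
    ∃ p, 0 < V.od p x := by
  by_contra hn
  refine h (V.lio _ fun p => (le_one V p (inv_ne_zero hx)).2 ?_)
  have h1 : ¬ 0 < V.od p x := fun h2 => hn ⟨p, h2⟩
  rw [od_inv]
  omega

variable {t : F}

/-- A coordinate at a point of the projective line. -/
def u (t : F) : Option ℂ → F
  | none => t⁻¹
  | some a => t - algebraMap ℂ F a

theorem not_c (ht : Transcendental ℂ t) : t ∉ Set.range (algebraMap ℂ F) := by
  rintro ⟨c, rfl⟩
  exact ht (isAlgebraic_algebraMap c)

theorem u_ne (ht : Transcendental ℂ t) : ∀ o, u t o ≠ 0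
  | none => inv_ne_zero fun h => not_c ht ⟨0, by rw [map_zero, h]⟩
  | some a => fun h => not_c ht ⟨a, (sub_eq_zero.1 h).symm⟩

theorem u_nc (ht : Transcendental ℂ t) : ∀ o, (u t o)⁻¹ ∉ Set.range (algebraMap ℂ F)
  | none => by
    rw [u, inv_inv]
    exact not_c ht
  | some a => by
    rintro ⟨c, hc⟩
    refine not_c ht ⟨c⁻¹ + a, ?_⟩
    rw [map_add, map_inv₀, hc, inv_inv, u, sub_add_cancel]

theorem w_none (ht : Transcendental ℂ t) (p : V.P) (h : 0 < V.od p (u t none)) (a : ℂ) :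
    V.od p (u t (some a)) = -V.od p (u t none) := by
  have h1 := (lt_one V p (u_ne ht none)).2 h
  have h0 : t ≠ 0 := fun h => not_c ht ⟨0, by rw [map_zero, h]⟩
  rw [u, map_inv₀, inv_lt_one₀ (zero_lt_iff.2 (v_ne V p h0))] at h1
  have h2 : V.v p (t - algebraMap ℂ F a) = V.v p t :=
    (V.v p).map_sub_eq_of_lt_left ((V.cst p a).trans_lt h1)
  rw [u, u, od_inv, neg_neg, VF.od, h2, VF.od]

theorem w_some (ht : Transcendental ℂ t) (p : V.P) {a b : ℂ} (h : 0 < V.od p (u t (some a)))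
    (hb : b ≠ a) : V.od p (u t (some b)) = 0 := by
  have h1 := (lt_one V p (u_ne ht (some a))).2 h
  have h2 : u t (some b) = u t (some a) + algebraMap ℂ F (a - b) := by
    rw [u, u, map_sub]
    ring
  have h3 := v_c V p (sub_ne_zero.2 hb.symm)
  rw [h2, VF.od, (V.v p).map_add_eq_of_lt_right (h3 ▸ h1), h3, log_one, neg_zero]

theorem w_hor (ht : Transcendental ℂ t) (p : V.P) (h : ∀ o, ¬ 0 < V.od p (u t o)) (a : ℂ) :
    V.od p (u t (some a)) = 0 := by
  have h0 : t ≠ 0 := fun h => not_c ht ⟨0, by rw [map_zero, h]⟩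
  have h1 := h none
  rw [u, od_inv] at h1
  have h2 : V.v p t ≤ 1 := (le_one V p h0).2 (by omega)
  have h3 : V.v p (u t (some a)) ≤ 1 := (V.v p).map_sub_le h2 (V.cst p a)
  have h4 := (le_one V p (u_ne ht (some a))).1 h3
  have h5 := h (some a)
  omega

theorem uniq (ht : Transcendental ℂ t) (p : V.P) : ∀ o o', 0 < V.od p (u t o) →
    0 < V.od p (u t o') → o = o'
  | none, none, _, _ => rfl
  | none, some a, h, h' => by
    have := w_none V ht p h a
    omega
  | some a, none, h, h' => by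
    have := w_none V ht p h' a
    omega
  | some a, some b, h, h' => by
    by_contra hne
    have := w_some V ht p h fun e : b = a => hne (congrArg some e.symm)
    omega

/-- The order of `g` is given by the multiplicities `ν`. -/
def Rep (t g : F) (ν : ℂ →₀ ℤ) : Prop :=
  g ≠ 0 ∧ ∀ p, V.od p g = Finsupp.linearCombination ℤ (fun a => V.od p (u t (some a))) ν

theorem rep_mul {g g' : F} {ν ν' : ℂ →₀ ℤ} (h : Rep V t g ν) (h' : Rep V t g' ν') :
    Rep V t (g * g') (ν + ν') :=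
  ⟨mul_ne_zero h.1 h'.1, fun p => by rw [od_mul V p h.1 h'.1, map_add, h.2, h'.2]⟩

theorem rep_u (ht : Transcendental ℂ t) (a : ℂ) (m : ℤ) :
    Rep V t (u t (some a) ^ m) (Finsupp.single a m) :=
  ⟨zpow_ne_zero _ (u_ne ht _), fun p => by
    rw [od_zpow, Finsupp.linearCombination_single, smul_eq_mul]⟩

theorem rep_c {c : ℂ} (hc : c ≠ 0) : Rep V t (algebraMap ℂ F c) 0 :=
  ⟨(_root_.map_ne_zero _).2 hc, fun p => by rw [VF.od, v_c V p hc, log_one, neg_zero, map_zero]⟩

theorem rep_ex (ht : Transcendental ℂ t) (ν : ℂ →₀ ℤ) : ∃ g, Rep V t g ν := by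
  induction ν using Finsupp.induction_linear with
  | zero => exact ⟨_, rep_c V one_ne_zero⟩
  | add ν ν' h h' =>
    obtain ⟨g, h⟩ := h
    obtain ⟨g', h'⟩ := h'
    exact ⟨_, rep_mul V h h'⟩
  | single a m => exact ⟨_, rep_u V ht a m⟩

theorem rep_poly (ht : Transcendental ℂ t) {r : ℂ[X]} (hr : r ≠ 0) :
    ∃ ν, Rep V t (aeval t r) ν := by
  have h1 : ∀ s : Multiset ℂ, ∃ ν, Rep V t (aeval t (s.map (X - C ·)).prod) ν := fun s => by
    induction s using Multiset.induction_on with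
    | empty =>
      refine ⟨0, ?_⟩
      rw [Multiset.map_zero, Multiset.prod_zero, map_one, ← map_one (algebraMap ℂ F)]
      exact rep_c V one_ne_zero
    | cons a s ih =>
      obtain ⟨ν, h⟩ := ih
      have h2 := rep_mul V (rep_u V ht a 1) h
      rw [zpow_one, u] at h2
      rw [Multiset.map_cons, Multiset.prod_cons, map_mul, map_sub, aeval_X, aeval_C]
      exact ⟨_, h2⟩
  obtain ⟨ν, h⟩ := h1 r.roots
  have h2 := rep_mul V (rep_c V (leadingCoeff_ne_zero.2 hr)) h
  rw [← aeval_C t, ← map_mul, ← (IsAlgClosed.splits r).eq_prod_roots] at h2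
  exact ⟨_, h2⟩

theorem rep_k (ht : Transcendental ℂ t) {g : F} (hg : g ∈ IntermediateField.adjoin ℂ {t})
    (h0 : g ≠ 0) : ∃ ν, Rep V t g ν := by
  obtain ⟨r, s, rfl⟩ := (IntermediateField.mem_adjoin_simple_iff ℂ g).1 hg
  have hr : r ≠ 0 := fun h => h0 (by rw [h, map_zero, zero_div])
  have hs : s ≠ 0 := fun h => h0 (by rw [h, map_zero, div_zero])
  obtain ⟨ν, h⟩ := rep_poly V ht hr
  obtain ⟨ν', h'⟩ := rep_poly V ht hs
  refine ⟨ν - ν', h0, fun p => ?_⟩
  rw [div_eq_mul_inv, od_mul V p h.1 (inv_ne_zero h'.1), od_inv, map_sub, h.2, h'.2,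
    sub_eq_add_neg]

theorem rep_none (ht : Transcendental ℂ t) {g : F} {ν : ℂ →₀ ℤ} (h : Rep V t g ν) (p : V.P)
    (hp : 0 < V.od p (u t none)) :
    V.od p g = V.od p (u t none) * -∑ a ∈ ν.support, ν a := by
  rw [h.2, Finsupp.linearCombination_apply, Finsupp.sum, mul_neg, Finset.mul_sum,
    ← Finset.sum_neg_distrib]
  exact Finset.sum_congr rfl fun a _ => by rw [w_none V ht p hp, smul_eq_mul]; ring

theorem rep_some (ht : Transcendental ℂ t) {g : F} {ν : ℂ →₀ ℤ} (h : Rep V t g ν) (p : V.P)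
    {a : ℂ} (hp : 0 < V.od p (u t (some a))) : V.od p g = V.od p (u t (some a)) * ν a := by
  rw [h.2, Finsupp.linearCombination_apply, Finsupp.sum_eq_single a
    (fun b _ hb => by rw [w_some V ht p hp hb, smul_zero]) fun _ => zero_smul _ _,
    smul_eq_mul, mul_comm]

theorem rep_hor (ht : Transcendental ℂ t) {g : F} {ν : ℂ →₀ ℤ} (h : Rep V t g ν) (p : V.P)
    (hp : ∀ o, ¬ 0 < V.od p (u t o)) : V.od p g = 0 := by
  rw [h.2, Finsupp.linearCombination_apply, Finsupp.sum]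
  exact Finset.sum_eq_zero fun a _ => by rw [w_hor V ht p hp, smul_zero]

end P1

open P1 in
theorem aP1 : Sa_P1 := by
  intro n F _ _ V L N t τ hL hN ht hτ hG hinf
  obtain ⟨e, he⟩ : ∃ e : V.P → ℤ, ∀ p o, 0 < V.od p (u t o) → e p = V.od p (u t o) :=
    ⟨fun p => if h : ∃ o, 0 < V.od p (u t o) then V.od p (u t h.choose) else 0, fun p o h => by
      have h1 : ∃ o, 0 < V.od p (u t o) := ⟨o, h⟩
      exact (dif_pos h1).trans (by rw [uniq V ht p _ _ h1.choose_spec h])⟩
  obtain ⟨m, hm, S, μ, hμ, hs, hp⟩ := comb (fun p o => 0 < V.od p (u t o)) e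
    (fun p => V.od p τ + L p) N (uniq V ht)
    (fun o => (od_fin V (u_ne ht o)).subset fun p hp => ne_of_gt hp)
    (fun o => zero_ex V (u_ne ht o) (u_nc ht o)) (fun p o h => he p o h ▸ h)
    (((od_fin V hτ).union (eventually_cofinite.1 hL)).subset fun p hp => by
      by_contra h
      simp only [Set.mem_union, Set.mem_setOf_eq, not_or, not_not] at h
      exact hp (by rw [h.1, h.2, add_zero]))
    (eventually_cofinite.1 hN) (hinf.mono (by
      rintro i ⟨g, hg, hg0, hsec⟩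
      obtain ⟨ν, hν⟩ := rep_k V ht hg hg0
      refine ⟨ν.support.insertNone, fun o => o.elim (-∑ a ∈ ν.support, ν a) ν, ?_, ?_, ?_⟩
      · rintro (_ | a) ho
        · exact absurd Finset.none_mem_insertNone ho
        · exact Finsupp.notMem_support_iff.1 fun h => ho (Finset.some_mem_insertNone.2 h)
      · rw [Finset.sum_insertNone]
        exact neg_add_cancel _
      · intro p o ho
        have h1 := (le_iff V p (mul_ne_zero (pow_ne_zero i hτ) hg0) _).1 (hsec p)
        rw [od_mul V p (pow_ne_zero i hτ) hg0, od_pow, Pi.add_apply, Pi.smul_apply,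
          nsmul_eq_mul] at h1
        rw [he p o ho]
        rcases o with _ | a
        · rw [rep_none V ht hν p ho] at h1
          simp only [Option.elim_none]
          linarith
        · rw [rep_some V ht hν p ho] at h1
          simp only [Option.elim_some]
          linarith))
  have hsup : ∀ a, μ (some a) ≠ 0 → a ∈ S.eraseNone := fun a h =>
    Finset.mem_eraseNone.2 (by_contra fun h' => h (hμ _ h'))
  obtain ⟨g, hg⟩ := rep_ex V ht (Finsupp.onFinset S.eraseNone (fun a => μ (some a)) hsup)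
  have h0 := mul_ne_zero (pow_ne_zero m hτ) hg.1
  refine ⟨m, hm, τ ^ m * g, h0, fun p => (le_iff V p h0 _).2 ?_⟩
  rw [od_mul V p (pow_ne_zero m hτ) hg.1, od_pow, Pi.smul_apply, nsmul_eq_mul]
  by_cases h : ∃ o, 0 < V.od p (u t o)
  · obtain ⟨o, ho⟩ := h
    have h1 := hp p o ho
    rw [he p o ho] at h1
    rcases o with _ | a
    · have h2 : ∑ a ∈ (Finsupp.onFinset S.eraseNone (fun a => μ (some a)) hsup).support,
          Finsupp.onFinset S.eraseNone (fun a => μ (some a)) hsup a =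
          ∑ a ∈ S.eraseNone, μ (some a) :=
        Finset.sum_subset Finsupp.support_onFinset_subset fun a _ ha =>
          Finsupp.notMem_support_iff.1 ha
      have h3 : ∑ o ∈ S, μ o = ∑ o ∈ S.eraseNone.insertNone, μ o :=
        Finset.sum_subset (by
          rintro (_ | a) ha
          · exact Finset.none_mem_insertNone
          · exact Finset.some_mem_insertNone.2 (Finset.mem_eraseNone.2 ha)) fun o _ ho => hμ o ho
      rw [h3, Finset.sum_insertNone] at hs
      rw [rep_none V ht hg p ho, h2]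
      nlinarith
    · rw [rep_some V ht hg p ho, Finsupp.onFinset_apply]
      linarith
  · have h' : ∀ o, ¬ 0 < V.od p (u t o) := fun o ho => h ⟨o, ho⟩
    have h1 := (le_iff V p hτ _).1 (hG p fun x hx => by
      by_cases hx0 : x = 0
      · rw [hx0, map_zero]
        exact zero_le_one
      · obtain ⟨ν, hν⟩ := rep_k V ht hx hx0
        exact (le_one V p hx0).2 (rep_hor V ht hν p h').ge)
    rw [rep_hor V ht hg p h']
    nlinarith [Int.natCast_nonneg m]

end Pool.Agent.Lib.NV5
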