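import Pool.Agent.Lib.NV5.Alg

/-! Row PRE: the field generated by the ratios. -/

open Filter WithZero

set_option linter.unusedVariables false

noncomputable section

namespace Pool.Agent.Lib.NV5

namespace PRE

variable {F : Type} [Field F] [Algebra ℂ F]

/-- A maximal algebraically independent family inside a set. -/
theorem maxfam (n : ℕ) (tr : Algebra.trdeg ℂ F = n) (H : Set F) :
    ∃ (d : ℕ) (z : Fin d → F), AlgebraicIndependent ℂ z ∧ (∀ i, z i ∈ H) ∧
      ∀ h ∈ H, IsAlgebraic (IntermediateField.adjoin ℂ (Set.range z)) h := by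
  obtain ⟨u, -, hu⟩ := exists_maximal_algebraicIndependent (R := ℂ) (∅ : Set F) H
    (Set.empty_subset _) (algebraicIndependent_empty_type)
  have hind : AlgebraicIndependent ℂ (fun x : u => (x : F)) := hu.prop.1
  have hfin : Finite u := by
    have h1 := hind.cardinalMk_le_trdeg
    rw [tr] at h1
    exact Cardinal.lt_aleph0_iff_finite.1 (h1.trans_lt Cardinal.natCast_lt_aleph0)
  obtain ⟨d, ⟨e⟩⟩ := Finite.exists_equiv_fin u
  have hr : Set.range (fun i : Fin d => (e.symm i : F)) = u := by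
    ext x
    constructor
    · rintro ⟨i, rfl⟩; exact (e.symm i).2
    · intro hx; exact ⟨e ⟨x, hx⟩, by simp⟩
  refine ⟨d, fun i => (e.symm i : F), hind.comp e.symm e.symm.injective,
    fun i => hu.prop.2 (e.symm i).2, fun h hh => ?_⟩
  rw [hr, IntermediateField.isAlgebraic_adjoin_iff]
  by_contra hn
  have h1 : AlgebraicIndepOn ℂ id (insert h u) := by
    refine AlgebraicIndepOn.insert hu.prop.1 ?_
    rw [Set.image_id]
    exact hn
  have h2 : h ∈ u := hu.le_of_ge ⟨h1, Set.insert_subset hh hu.prop.2⟩ (Set.subset_insert _ _)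
    (Set.mem_insert _ _)
  exact hn (isAlgebraic_algebraMap (⟨h, Algebra.subset_adjoin h2⟩ : Algebra.adjoin ℂ u))

/-- A slope bound from infinitely many inequalities. -/
theorem slope {T : Set ℕ} (hT : T.Infinite) {u l w N : ℤ}
    (h : ∀ i ∈ T, (i : ℤ) * u + w ≤ i * l + N) : u ≤ l := by
  by_contra hn
  obtain ⟨i, hi, hlt⟩ := hT.exists_gt (N - w).toNat
  have h1 := h i hi
  have h2 : N - w < i := lt_of_le_of_lt (Int.self_le_toNat _) (by exact_mod_cast hlt)
  have h3 : (0 : ℤ) ≤ i := Int.natCast_nonneg i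
  have h4 : l + 1 ≤ u := by omega
  nlinarith

end PRE

theorem aPRE (hMUL : Sa_MUL) : Sa_PRE := by
  intro n F _ _ V L A M S f I
  obtain ⟨a0, ha0⟩ := I.inf.nonempty
  obtain ⟨a1, ha1, hlt⟩ := I.inf.exists_gt a0
  obtain ⟨a, rfl⟩ := Nat.exists_eq_add_of_le hlt.le
  have hap : 0 < a := by omega
  set T : Set ℕ := {i | a0 + i ∈ S} with hT
  have hTi : T.Infinite := by
    refine Set.infinite_of_forall_exists_gt fun m => ?_
    obtain ⟨k, hk, hlt'⟩ := I.inf.exists_gt (a0 + m)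
    refine ⟨k - a0, ?_, by omega⟩
    show a0 + (k - a0) ∈ S
    rwa [Nat.add_sub_cancel' (by omega)]
  let h : ℕ → F := fun i => f (a0 + i) ^ a * f a0 ^ i / (f a0 ^ a * f (a0 + a) ^ i)
  obtain ⟨d, z, hz, hzH, hal⟩ := PRE.maxfam n V.tr (h '' T)
  have hdom : ∀ i, V.Dom1 L A (z i) := fun i => by
    obtain ⟨j, hj, he⟩ := hzH i
    rw [← he]
    exact I.dom _ hj _ ha0 _ ha0 _ ha1 a j (by ring)
  obtain ⟨c, b, hcb⟩ := hMUL n F V L A d z hdom
  have n0 := I.ne _ ha0
  have n1 := I.ne _ ha1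
  let k : IntermediateField ℂ F :=
    (algebraicClosure (IntermediateField.adjoin ℂ (Set.range z)) F).restrictScalars ℂ
  have hk : ∀ g, g ∈ k ↔ IsAlgebraic (IntermediateField.adjoin ℂ (Set.range z)) g := fun g =>
    mem_algebraicClosure_iff
  have hhk : ∀ i ∈ T, h i ∈ k := fun i hi => (hk _).2 (hal _ ⟨i, hi, rfl⟩)
  have hh0 : ∀ i ∈ T, h i ≠ 0 := fun i hi =>
    div_ne_zero (mul_ne_zero (pow_ne_zero _ (I.ne _ hi)) (pow_ne_zero _ n0))
      (mul_ne_zero (pow_ne_zero _ n0) (pow_ne_zero _ n1))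
  have hid : ∀ i, (f (a0 + a) / f a0) ^ i * h i * f a0 ^ a = f (a0 + i) ^ a := fun i => by
    simp only [h, div_pow]
    field_simp
  have hsec : ∀ i ∈ T, V.Sec ((i * a) • L + ((a * a0) • L + a • M))
      ((f (a0 + a) / f a0) ^ i * h i * f a0 ^ a) := fun i hi p => by
    rw [hid, map_pow]
    refine (pow_le_pow_left₀ zero_le (I.sec _ hi p) a).trans (le_of_eq ?_)
    rw [← exp_nsmul]
    congr 1
    show a • ((a0 + i) • L p + M p) = (i * a) • L p + ((a * a0) • L p + a • M p)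
    simp only [nsmul_eq_mul]
    push_cast
    ring
  have hτ : f (a0 + a) / f a0 ≠ 0 := div_ne_zero n1 n0
  refine ⟨d, z, k, a, c, b, f (a0 + a) / f a0, hz, hk, hcb, hap, hτ, fun p hp => ?_,
    f a0 ^ a, pow_ne_zero _ n0, a * a0, a, hTi.mono fun i hi =>
      ⟨h i, hhk i hi, hh0 i hi, hsec i hi⟩⟩
  have v0 : V.v p (f (a0 + a) / f a0) ≠ 0 := (V.v p).ne_zero_iff.2 hτ
  have v1 : V.v p (f a0 ^ a) ≠ 0 := (V.v p).ne_zero_iff.2 (pow_ne_zero _ n0)
  rw [← exp_log v0, exp_le_exp]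
  refine PRE.slope hTi (w := log (V.v p (f a0 ^ a))) (N := ((a * a0) • L + a • M) p)
    fun i hi => ?_
  have h1 : V.v p (h i) = 1 := by
    refine le_antisymm (hp _ (hhk i hi)) ?_
    have h2 := hp _ (k.inv_mem (hhk i hi))
    rw [map_inv₀] at h2
    exact (inv_le_one₀ (zero_lt_iff.2 ((V.v p).ne_zero_iff.2 (hh0 i hi)))).1 h2
  have h3 := hsec i hi p
  rw [map_mul, map_mul, h1, mul_one, map_pow, ← exp_log v0, ← exp_log v1, ← exp_nsmul, ← exp_add,
    exp_le_exp] at h3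
  have h4 : i • log (V.v p (f (a0 + a) / f a0)) + log (V.v p (f a0 ^ a)) ≤
      (i * a) • L p + ((a * a0) • L + a • M) p := h3
  show _ ≤ (i : ℤ) * (a • L p) + _
  rw [nsmul_eq_mul, nsmul_eq_mul, Nat.cast_mul] at h4
  rw [nsmul_eq_mul, ← mul_assoc]
  exact h4

end Pool.Agent.Lib.NV5
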