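import Pool.Agent.Lib.NV5.A_P1
import Pool.Agent.Lib.MP_e06174_ag.ThmA

/-! Project NV5, row RAT: without regular one-forms, curves are rational. -/

open Filter WithZero IntermediateField
open scoped Classical IntermediateField.algebraAdjoinAdjoin

noncomputable section

namespace Pool.Agent.Lib.NV5

open Pool.Agent.Lib.MP_e06174_ag

namespace RAT

/-- An algebraic subextension of a finitely generated extension is finite. -/
theorem fin (K L F : Type) [Field K] [Field L] [Field F] [Algebra K L] [Algebra L F] [Algebra K F]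
    [IsScalarTower K L F] [Algebra.IsAlgebraic K L] [Algebra.EssFiniteType K F] :
    FiniteDimensional K L := by
  obtain ⟨s, hT⟩ := exists_isTranscendenceBasis K F
  haveI := hT.isAlgebraic_field
  haveI := Algebra.EssFiniteType.of_comp K (adjoin K (Set.range ((↑) : s → F))) F
  haveI : Module.Finite (adjoin K (Set.range ((↑) : s → F))) F :=
    Algebra.finite_of_essFiniteType_of_isAlgebraic
  let b := Module.Basis.ofVectorSpace K L
  have h1 : LinearIndependent (Algebra.adjoin K (Set.range ((↑) : s → F)))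
      fun i => algebraMap L F (b i) := by
    refine linearIndependent_iff'.2 fun u g hg i hi => ?_
    have h2 : ∀ i, ∃ P : MvPolynomial s K, MvPolynomial.aeval ((↑) : s → F) P = g i := fun i =>
      (Algebra.adjoin_range_eq_range_aeval K ((↑) : s → F)).le (g i).2
    choose P hP using h2
    have h4 : ∑ i ∈ u, MvPolynomial.C (b i) * MvPolynomial.map (algebraMap K L) (P i) = 0 := by
      refine (hT.1.extendScalars L).eq_zero_of_aeval_eq_zero _ ?_
      rw [map_sum, ← hg]
      refine Finset.sum_congr rfl fun i _ => ?_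
      rw [map_mul, MvPolynomial.aeval_C, MvPolynomial.aeval_map_algebraMap, hP, mul_comm]
      rfl
    have h5 : P i = 0 := MvPolynomial.ext _ _ fun α => by
      have h6 := congrArg (MvPolynomial.coeff α) h4
      rw [MvPolynomial.coeff_sum, MvPolynomial.coeff_zero] at h6
      refine linearIndependent_iff'.1 b.linearIndependent u (fun i => (P i).coeff α) ?_ i hi
      rw [← h6]
      refine Finset.sum_congr rfl fun i _ => ?_
      rw [MvPolynomial.coeff_C_mul, MvPolynomial.coeff_map, Algebra.smul_def, mul_comm]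
    exact Subtype.ext (by rw [← hP, h5, map_zero]; rfl)
  haveI := ((LinearIndependent.iff_fractionRing _
    (adjoin K (Set.range ((↑) : s → F)))).1 h1).finite
  exact Module.Finite.of_basis b

/-- An order function on a field is zero or a positive multiple of the order of a place. -/
theorem res {L : Type} [Field L] [Algebra ℂ L] (o : L → ℤ)
    (hmul : ∀ x y, x ≠ 0 → y ≠ 0 → o (x * y) = o x + o y)
    (hpow : ∀ x (m : ℤ), o (x ^ m) = m * o x)
    (hadd : ∀ x y, x ≠ 0 → y ≠ 0 → x + y ≠ 0 → min (o x) (o y) ≤ o (x + y))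
    (hc : ∀ c : ℂ, c ≠ 0 → o (algebraMap ℂ L c) = 0) : (∀ x, x ≠ 0 → o x = 0) ∨
      ∃ q : Place ℂ L, ∀ x, x ≠ 0 → 1 ≤ q.ord x → 0 < o x := by
  by_cases h : ∃ c : ℕ, 0 < c ∧ ∃ x, x ≠ 0 ∧ o x = c
  · right
    obtain ⟨c0, π, π0, hπ⟩ := Nat.find_spec h
    have hmin := fun m => Nat.find_min h (m := m)
    generalize Nat.find h = c at c0 hπ hmin
    have c1 : (0 : ℤ) < c := Int.natCast_pos.2 c0
    have ho : ∀ x, x ≠ 0 → o x = c * (o x / c) := fun x hx => by
      have h1 := hmul x (π ^ (-(o x / c))) hx (zpow_ne_zero _ π0)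
      have h2 := Int.emod_add_mul_ediv (o x) c
      have h3 := Int.emod_nonneg (o x) c1.ne'
      have h4 := Int.emod_lt_of_pos (o x) c1
      rw [hpow, hπ] at h1
      by_contra h5
      refine hmin (o x % c).toNat (by omega)
        ⟨by omega, _, mul_ne_zero hx (zpow_ne_zero (-(o x / c)) π0), ?_⟩
      rw [h1, Int.toNat_of_nonneg h3]
      linarith
    refine ⟨Place.ofOrd (fun x => o x / c) (fun x y hx hy => ?_) (fun x y hx hy hxy => ?_)
      (fun a ha => by rw [hc a ha, Int.zero_ediv]) ⟨π, π0, by rw [hπ, Int.ediv_self c1.ne']⟩,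
      fun x hx h1 => ?_⟩
    · apply mul_left_cancel₀ c1.ne'
      rw [mul_add, ← ho x hx, ← ho y hy, ← ho _ (mul_ne_zero hx hy), hmul x y hx hy]
    · exact (min_le_iff.1 (hadd x y hx hy hxy)).elim
        (fun h1 => (min_le_left _ _).trans (Int.ediv_le_ediv c1 h1))
        fun h1 => (min_le_right _ _).trans (Int.ediv_le_ediv c1 h1)
    · rw [Place.ofOrd_ord _ _ _ _ _ hx] at h1
      rw [ho x hx]
      exact mul_pos c1 (by omega)
  · refine Or.inl fun x hx => ?_
    by_contra h1
    rcases lt_or_gt_of_ne h1 with h2 | h2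
    · exact h ⟨(-o x).toNat, by omega, x ^ (-1 : ℤ), zpow_ne_zero _ hx, by rw [hpow]; omega⟩
    · exact h ⟨(o x).toNat, by omega, x, hx, by omega⟩

end RAT

theorem aRAT : Sa_RAT := by
  intro n F _ _ V z k hQ hz hk
  have hz0 : z 0 ∈ k := (hk _).2
    (isAlgebraic_algebraMap (⟨z 0, subset_adjoin _ _ ⟨0, rfl⟩⟩ : adjoin ℂ (Set.range z)))
  obtain ⟨x, hx⟩ : ∃ x : k, (x : F) = z 0 := ⟨⟨_, hz0⟩, rfl⟩
  have hxt : Transcendental ℂ (x : F) := hx ▸ hz.transcendental 0
  have hxt' : Transcendental ℂ x := fun h => hxt (h.algebraMap (A := F))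
  have hmap : ∀ t : k, (adjoin ℂ {t}).map k.val = adjoin ℂ {(t : F)} := fun t => by
    rw [adjoin_map, Set.image_singleton]
    rfl
  have hr : adjoin ℂ (Set.range z) = (adjoin ℂ {x}).map k.val := by
    rw [hmap, hx, Set.range_unique]
    rfl
  rw [hr] at hk
  haveI : Algebra.IsAlgebraic (adjoin ℂ {x}) k := ⟨fun g =>
    IsAlgebraic.of_ringHom_of_comp_eq (equivMap (adjoin ℂ {x}) k.val).toRingEquiv.toRingHom
      (algebraMap k F) ((hk g).1 g.2) (equivMap (adjoin ℂ {x}) k.val).surjective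
      (algebraMap k F).injective rfl⟩
  haveI : Algebra.EssFiniteType ℂ F := fg_top_iff.1 V.fg
  haveI := Algebra.EssFiniteType.of_comp ℂ (adjoin ℂ {x}) F
  have hco : IsCoord ℂ x := ⟨hxt', RAT.fin _ k F⟩
  by_cases h : ∃ t : k, adjoin ℂ {t} = ⊤
  · obtain ⟨t, ht⟩ := h
    refine ⟨t, fun h1 => hxt' ?_, ?_⟩
    · have h2 : IsAlgebraic ℂ t := (isAlgebraic_algebraMap_iff (algebraMap k F).injective).1 h1
      have h3 := isAlgebraic_adjoin_simple h2.isIntegral
      exact (h3.isAlgebraic ⟨x, ht ▸ mem_top⟩).algebraMap (A := k)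
    · rw [← hmap, ht, ← AlgHom.fieldRange_eq_map, fieldRange_val]
  exfalso
  obtain ⟨f, hf, hp⟩ := hco.exists_regular fun t ht => h ⟨t, ht⟩
  have hne : ∀ y : k, y ≠ 0 → (y : F) ≠ 0 := fun y hy e => hy (Subtype.ext e)
  refine (hQ f x fun p => ?_).elim (hne f hf) (P1.not_c hxt)
  refine (RAT.res (fun y : k => V.od p y) (fun a b ha hb => P1.od_mul V p (hne a ha) (hne b hb))
    (fun a m => ?_) (fun a b ha hb hab => ?_) fun c hc => ?_).symm.imp ?_ fun h0 => ?_
  · rw [← P1.od_zpow]
    exact congrArg _ (map_zpow₀ (algebraMap k F) a m)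
  · have h1 := (P1.le_iff V p (hne _ hab) (-min (V.od p a) (V.od p b))).1
      ((V.v p).map_add_le ((P1.le_iff V p (hne a ha) _).2 (by omega))
        ((P1.le_iff V p (hne b hb) _).2 (by omega)))
    omega
  · exact (P1.rep_c V (t := 0) hc).2 p |>.trans (map_zero _)
  · rintro ⟨q, hq⟩
    have h1 := mul_ne_zero hf (Place.loc_ne_zero (p := q) hxt')
    exact ⟨q.cen x, (P1.lt_one V p (hne _ h1)).2 (hq _ h1 (hp q))⟩
  · have h1 := Place.ne_zero_of_transcendental hxt'
    exact ⟨(P1.le_one V p (hne f hf)).2 (h0 f hf).ge, (P1.le_one V p (hne x h1)).2 (h0 x h1).ge⟩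

end Pool.Agent.Lib.NV5
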