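import Pool.Agent.Lib.NV5.Alg

/-! Project NV5: the count of Siegel. -/

noncomputable section

namespace Pool.Agent.Lib.NV5

namespace SIE

variable {F : Type} [Field F] [Algebra ℂ F] {U : ℕ → Submodule ℂ F}

theorem prod_mem (hm : ∀ i j, ∀ x ∈ U i, ∀ y ∈ U j, x * y ∈ U (i + j)) (h1 : 1 ∈ U 0) {κ : Type}
    (s : Finset κ) (d : κ → ℕ) (y : κ → F) (h : ∀ a ∈ s, y a ∈ U (d a)) :
    ∏ a ∈ s, y a ∈ U (∑ a ∈ s, d a) := by
  classical
  induction s using Finset.induction_on with
  | empty => simpa using h1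
  | insert a s ha ih =>
    rw [Finset.prod_insert ha, Finset.sum_insert ha]
    exact hm _ _ _ (h a (Finset.mem_insert_self _ _)) _
      (ih fun b hb => h b (Finset.mem_insert_of_mem hb))

theorem pow_mem (hm : ∀ i j, ∀ x ∈ U i, ∀ y ∈ U j, x * y ∈ U (i + j)) (h1 : 1 ∈ U 0) {y : F}
    (h : y ∈ U 1) (a : ℕ) : y ^ a ∈ U a := by
  simpa using prod_mem hm h1 (Finset.range a) (fun _ => 1) (fun _ => y) fun _ _ => h

theorem mono_li {n : ℕ} {x : Fin n → F} (hx : AlgebraicIndependent ℂ x) (J : ℕ) :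
    LinearIndependent ℂ fun β : Fin n → Fin J => ∏ i, x i ^ (β i : ℕ) := by
  have h := ((MvPolynomial.basisMonomials (Fin n) ℂ).linearIndependent.map'
    (MvPolynomial.aeval x).toLinearMap (LinearMap.ker_eq_bot.2 hx)).comp
    (fun β : Fin n → Fin J => Finsupp.equivFunOnFinite.symm fun i => (β i : ℕ))
    fun β γ e => funext fun i => Fin.ext (congrFun (Finsupp.equivFunOnFinite.symm.injective e) i)
  refine (congrArg (LinearIndependent ℂ ·) (funext fun β => ?_)).mp h
  simp [MvPolynomial.aeval_monomial, Finsupp.prod_fintype]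

end SIE

open SIE in
theorem aSIE : Sa_SIE := by
  intro n r F _ _ U C t i₀ I fd hC hm h1 ht t0 hx hF
  classical
  set x : Fin n → F := fun i => t (I i) / t i₀ with ex
  let K := IntermediateField.adjoin ℂ (Set.range x)
  have fin : Module.Finite K F := by
    refine Module.rank_lt_aleph0_iff.1 ((rank_le (n := C * (n + 1) ^ n) fun s hs => ?_).trans_lt
      Cardinal.natCast_lt_aleph0)
    choose j y hy y' hy' y0 e using hF
    set J := ∑ a ∈ s, j a
    let b : (Fin n → Fin (J + 1)) → K := fun β => ∏ i,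
      (⟨x i, IntermediateField.subset_adjoin _ _ ⟨i, rfl⟩⟩ : K) ^ (β i : ℕ)
    have eb : ∀ β, (b β : F) = ∏ i, x i ^ (β i : ℕ) := fun β => by simp [b]
    have hb : LinearIndependent ℂ b := LinearIndependent.of_comp K.val.toLinearMap
      ((congrArg (LinearIndependent ℂ ·) (funext fun β => (eb β).symm)).mp (mono_li hx (J + 1)))
    have Y0 : (∏ a ∈ s, y' a) * ∏ _ : Fin n, t i₀ ^ J ≠ 0 := mul_ne_zero
      (Finset.prod_ne_zero_iff.2 fun a _ => y0 a)
      (Finset.prod_ne_zero_iff.2 fun _ _ => pow_ne_zero _ t0)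
    have li := (linearIndependent_smul hb hs).map' (LinearMap.mulLeft ℂ _)
      (LinearMap.ker_eq_bot.2 (mul_right_injective₀ Y0))
    have mem : ∀ p : (Fin n → Fin (J + 1)) × s,
        ((∏ a ∈ s, y' a) * ∏ _ : Fin n, t i₀ ^ J) * (b p.1 • (p.2 : F)) ∈ U (J + n * J) := by
      rintro ⟨β, a, ha⟩
      have m1 := hm _ _ _ (hy a) _ (prod_mem hm h1 (s.erase a) j y' fun c _ => hy' c)
      have m2 := prod_mem hm h1 Finset.univ (fun _ => J)
        (fun i => t (I i) ^ (β i : ℕ) * t i₀ ^ (J - β i)) fun i _ => by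
          have := hm _ _ _ (pow_mem hm h1 (ht (I i)) (β i)) _ (pow_mem hm h1 (ht i₀) (J - β i))
          rwa [Nat.add_sub_cancel' (Nat.lt_succ_iff.1 (β i).2)] at this
      rw [Finset.add_sum_erase s j ha] at m1
      have m3 := hm _ _ _ m1 _ m2
      rw [Finset.sum_const, Finset.card_univ, Fintype.card_fin, smul_eq_mul] at m3
      refine (congrArg (· ∈ U (J + n * J)) ?_).mp m3
      have e1 : ∏ i, t (I i) ^ (β i : ℕ) * t i₀ ^ (J - β i) =
          (∏ _ : Fin n, t i₀ ^ J) * ∏ i, x i ^ (β i : ℕ) := by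
        rw [← Finset.prod_mul_distrib]
        refine Finset.prod_congr rfl fun i _ => ?_
        rw [pow_sub₀ _ t0 (Nat.lt_succ_iff.1 (β i).2), ex, div_pow]
        ring
      have e2 : y a = a * y' a := (div_eq_iff (y0 a)).1 (e a).symm
      rw [e1, e2, ← Finset.mul_prod_erase s y' ha, IntermediateField.smul_def, eb, smul_eq_mul]
      ring
    have := fd (J + n * J)
    let w : (Fin n → Fin (J + 1)) × s → U (J + n * J) := fun p => ⟨_, mem p⟩
    have lw : LinearIndependent ℂ w := LinearIndependent.of_comp (U (J + n * J)).subtype li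
    have c1 := lw.fintype_card_le_finrank.trans (hC _)
    rw [Fintype.card_prod, Fintype.card_fun, Fintype.card_fin, Fintype.card_fin,
      Fintype.card_coe] at c1
    refine Nat.le_of_mul_le_mul_left (c1.trans ?_) (pow_pos J.succ_pos n)
    rw [mul_left_comm, ← mul_pow]
    gcongr
    nlinarith
  obtain ⟨S, hS⟩ := IntermediateField.fg_of_noetherian (⊤ : IntermediateField K F)
  refine ⟨?_, ?_⟩
  · have := IntermediateField.fg_adjoin_of_finite (F := ℂ)
      ((Set.finite_range x).union S.finite_toSet)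
    rwa [← IntermediateField.adjoin_adjoin_left, hS, IntermediateField.restrictScalars_top] at this
  · rw [← (hx.isTranscendenceBasis_iff_isAlgebraic.2
      (IntermediateField.isAlgebraic_adjoin_iff_top.1 inferInstance)).cardinalMk_eq_trdeg,
      Cardinal.mk_fin]

end Pool.Agent.Lib.NV5
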