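import Pool.Agent.Lib.NV5.Alg

/-! Project NV5: bounded dimension on the generic fibre gives a section. -/

open Filter WithZero

set_option linter.style.haveILetI false

noncomputable section

namespace Pool.Agent.Lib.NV5

namespace WR

variable {F : Type} [Field F] [Algebra ℂ F] {d : ℕ} {z : Fin d → F} {k : IntermediateField ℂ F}

theorem le45 (h : ∀ g, g ∈ k ↔ IsAlgebraic (IntermediateField.adjoin ℂ (Set.range z)) g) :
    IntermediateField.adjoin ℂ (Set.range z) ≤ k := fun g hg =>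
  (h g).2 (isAlgebraic_algebraMap (⟨g, hg⟩ : IntermediateField.adjoin ℂ (Set.range z)))

theorem closed45 (h : ∀ g, g ∈ k ↔ IsAlgebraic (IntermediateField.adjoin ℂ (Set.range z)) g)
    (x : F) (hx : IsAlgebraic k x) : x ∈ Set.range (algebraMap k F) := by
  letI := (IntermediateField.inclusion (le45 h)).toAlgebra
  haveI : IsScalarTower (IntermediateField.adjoin ℂ (Set.range z)) k F :=
    IsScalarTower.of_algebraMap_eq fun _ => rfl
  haveI : Algebra.IsAlgebraic (IntermediateField.adjoin ℂ (Set.range z)) k :=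
    ⟨fun g => (isAlgebraic_algebraMap_iff (algebraMap k F).injective).1 ((h g).1 g.2)⟩
  exact ⟨⟨x, (h x).2 (hx.restrictScalars _)⟩, rfl⟩

theorem aeval45 (h : ∀ g, g ∈ k ↔ IsAlgebraic (IntermediateField.adjoin ℂ (Set.range z)) g)
    (Q : MvPolynomial (Fin d) ℂ) : MvPolynomial.aeval z Q ∈ k :=
  le45 h (IntermediateField.algebra_adjoin_le_adjoin ℂ _
    (by rw [Algebra.adjoin_range_eq_range_aeval]; exact ⟨Q, rfl⟩))

omit [Algebra ℂ F] in
/-- A set without long independent families has a finite independent spanning family. -/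
theorem basis45 {K : Type} [Field K] [Module K F] (Y : Set F) (r : ℕ)
    (h : ∀ y : Fin r → F, LinearIndependent K y → ¬ ∀ l, y l ∈ Y) :
    ∃ s : Finset F, LinearIndependent K ((↑) : s → F) ∧
      ∀ y ∈ Y, ∃ c : s → K, ∑ j, c j • (j : F) = y := by
  obtain ⟨b, b1, b2, b3⟩ := exists_linearIndependent K Y
  have hb : b.Finite := by
    by_contra hb
    have e := Set.Infinite.natEmbedding b hb
    exact h (fun l => e l) (b3.comp (fun l : Fin r => e l) (e.injective.comp Fin.val_injective))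
      fun l => b1 (e l).2
  lift b to Finset F using hb
  refine ⟨b, b3, fun y hy => (Submodule.mem_span_range_iff_exists_fun K).1 ?_⟩
  have e : Set.range ((↑) : b → F) = b := Subtype.range_coe
  rw [e, b2]
  exact Submodule.subset_span hy

end WR

open WR in
theorem aWR (hKT : Sa_KT) : Sa_WR := by
  intro n F _ _ V L A M d z k a c b τ hL hA hP hU
  classical
  simp only [VF.Unb, not_forall, not_exists, not_and] at hU
  obtain ⟨r, hr⟩ := hU
  obtain ⟨s, s1, s2⟩ := basis45 (K := k)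
    {y | ∃ i : ℕ, V.Sec ((i * a) • L + b • A) (y * τ ^ i)} r fun y hy h => by
      obtain ⟨l, hl⟩ := hr y hy
      obtain ⟨i, hi⟩ := h l
      exact hl i hi
  have cf : ∀ {q : V.P → Prop}, (∀ᶠ p in cofinite, q p) →
      ∀ᶠ p : {p // ¬ V.Hz k p} in cofinite, q p := fun h =>
    Subtype.val_injective.tendsto_cofinite.eventually h
  obtain ⟨B, B1, B2⟩ := K3.wro_unit (C := ℂ) (k := k) (fun p : {p // ¬ V.Hz k p} => V.v p)
    (closed45 hP.alg) (fun p => V.cst p) (fun x => cf (V.cof x))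
    (fun D => by
      obtain ⟨B, h1, h2⟩ := V.der D
      exact ⟨fun p => B p, cf h1, fun p => h2 p⟩)
    (fun p => by
      obtain ⟨p, hp⟩ := p
      simp only [VF.Hz, not_forall, not_le] at hp
      obtain ⟨g, hg, h1⟩ := hp
      refine ⟨⟨g, hg⟩, fun h0 => ?_, h1.ne'⟩
      rw [show g = 0 from congrArg Subtype.val h0, map_zero] at h1
      exact not_lt_zero h1) _ s1
  have B3 : ∀ᶠ p in cofinite, ∀ h : ¬ V.Hz k p, B ⟨p, h⟩ ≤ 1 := by
    refine ((eventually_cofinite.1 B1).image Subtype.val).subset fun p hp => ?_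
    obtain ⟨h, h1⟩ := not_forall.1 (show ¬ ∀ h : ¬ V.Hz k p, B ⟨p, h⟩ ≤ 1 from hp)
    exact ⟨⟨p, h⟩, h1, rfl⟩
  obtain ⟨Q, c', Q0, -, hQ⟩ := hKT n F V d z k hP.ind hP.alg
    (fun p => (if h : ¬ V.Hz k p then B ⟨p, h⟩ else 1) * V.v p τ * exp (b * A p - a * L p)) (by
      filter_upwards [B3, V.cof τ, hL, hA] with p h1 h2 h3 h4
      rw [h3, h4, mul_zero, mul_zero, sub_zero, exp_zero, mul_one]
      refine mul_le_one' ?_ h2
      split_ifs with h
      · exact le_rfl
      · exact h1 h)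
  obtain ⟨w, w0, hw⟩ := hP.dom (a * c')
  have τ0 := hP.τ0
  have e : a * c' * c = c' * c * a := by ring
  rw [e] at hw
  obtain ⟨g, hg⟩ := s2 (w / τ ^ (c' * c)) ⟨c' * c, by
    simpa [div_mul_cancel₀ w (pow_ne_zero _ τ0)] using hw 0 (by simp)⟩
  obtain ⟨l, hl⟩ : ∃ l, g l ≠ 0 := by
    by_contra h
    simp only [not_exists, not_not] at h
    simp only [h, zero_smul, Finset.sum_const_zero] at hg
    exact div_ne_zero w0 (pow_ne_zero _ τ0) hg.symm
  refine ⟨(c' * c + 1) * a, Nat.mul_pos (Nat.succ_pos _) hP.a0,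
    τ ^ (c' * c + 1) * g l * MvPolynomial.aeval z Q,
    mul_ne_zero (mul_ne_zero (pow_ne_zero _ τ0) fun h => hl (Subtype.ext h))
      fun h => Q0 (hP.ind (h.trans (map_zero _).symm)), fun p => ?_⟩
  have e2 : exp ((((c' * c + 1) * a) • L) p) = exp ((a • L) p) ^ (c' * c + 1) := by
    rw [← exp_nsmul]
    congr 1
    simp only [Pi.smul_apply, nsmul_eq_mul]
    push_cast
    ring
  by_cases hp : V.Hz k p
  · rw [map_mul, map_mul, map_pow, e2]
    exact (mul_le_of_le_one_right' (hp _ (aeval45 hP.alg Q))).trans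
      ((mul_le_of_le_one_right' (hp _ (g l).2)).trans (pow_le_pow_left' (hP.sec p hp) _))
  · have h1 := hQ p hp w _ fun α hα => hw α (hα.trans (Nat.le_mul_of_pos_left _ hP.a0)) p
    have h2 := B2 g l ⟨p, hp⟩
    rw [hg] at h2
    rw [dif_pos hp] at h1
    have t0 : V.v p τ ^ (c' * c) ≠ 0 := pow_ne_zero _ ((Valuation.ne_zero_iff _).2 τ0)
    have h3 : V.v p (τ ^ (c' * c + 1) * g l * MvPolynomial.aeval z Q) ≤
        B ⟨p, hp⟩ * V.v p τ * V.v p (w * MvPolynomial.aeval z Q) := by
      rw [map_mul, map_mul, map_pow]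
      refine (mul_le_mul_left (mul_le_mul_right h2 _) _).trans (le_of_eq ?_)
      simp only [map_div₀, map_pow, map_mul, pow_succ]
      field_simp
    refine h3.trans ?_
    rw [mul_right_comm, ← le_div_iff₀ exp_pos, ← exp_sub] at h1
    refine h1.trans (le_of_eq ?_)
    congr 1
    rw [Pi.add_apply, Pi.smul_apply, Pi.smul_apply, Pi.smul_apply]
    simp only [nsmul_eq_mul]
    push_cast
    ring

end Pool.Agent.Lib.NV5
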