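import Pool.Agent.Lib.NV5.K3Top

/-! Project NV5: the algebraic part. A field with a family of discrete valuations. -/

open Filter WithZero

set_option linter.unusedVariables false

noncomputable section

namespace Pool.Agent.Lib.NV5

/-- The value group with zero. -/
abbrev Zm : Type := WithZero (Multiplicative ℤ)

/-- A finitely generated field with the orders along the prime divisors of a compact model. -/
structure VF (n : ℕ) (F : Type) [Field F] [Algebra ℂ F] where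
  P : Type
  v : P → Valuation F Zm
  cst : ∀ p c, v p (algebraMap ℂ F c) ≤ 1
  cof : ∀ x, ∀ᶠ p in cofinite, v p x ≤ 1
  der : ∀ D : Derivation ℂ F F, ∃ B : P → Zm, (∀ᶠ p in cofinite, B p ≤ 1) ∧
    ∀ p u, v p u = 1 → v p (D u) ≤ B p
  lio : ∀ x, (∀ p, v p x ≤ 1) → x ∈ Set.range (algebraMap ℂ F)
  fg : (⊤ : IntermediateField ℂ F).FG
  tr : Algebra.trdeg ℂ F = n

namespace VF

variable {n : ℕ} {F : Type} [Field F] [Algebra ℂ F] (V : VF n F)

/-- The order of vanishing. -/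
def od (p : V.P) (x : F) : ℤ := -log (V.v p x)

/-- A divisor: finite support. -/
def Fs (N : V.P → ℤ) : Prop := ∀ᶠ p in cofinite, N p = 0

/-- A section: poles at most `N`. -/
def Sec (N : V.P → ℤ) (f : F) : Prop := ∀ p, V.v p f ≤ exp (N p)

/-- The dimension of the space of sections. -/
def h0 (N : V.P → ℤ) : ℕ := Module.finrank ℂ (Submodule.span ℂ {f | V.Sec N f})

/-- The spaces of sections of `a L + b A` have finite dimension. -/
def FD (L A : V.P → ℤ) : Prop :=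
  ∀ a b : ℕ, FiniteDimensional ℂ (Submodule.span ℂ {f | V.Sec (a • L + b • A) f})

/-- The prime is horizontal over `k`. -/
def Hz (k : IntermediateField ℂ F) (p : V.P) : Prop := ∀ g ∈ k, V.v p g ≤ 1

/-- A section over the generic point of `k`. -/
def GS (k : IntermediateField ℂ F) (N : V.P → ℤ) (f : F) : Prop :=
  ∀ p, V.Hz k p → V.v p f ≤ exp (N p)

/-- `c L` minus the polar divisor of `z` is pseudo-effective. -/
def Dom (L A : V.P → ℤ) {d : ℕ} (z : Fin d → F) (c b : ℕ) : Prop :=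
  ∀ j : ℕ, ∃ w ≠ 0, ∀ α : Fin d → ℕ, ∑ i, α i ≤ j →
    V.Sec ((j * c) • L + b • A) (w * ∏ i, z i ^ α i)

/-- The same for one function. -/
def Dom1 (L A : V.P → ℤ) (g : F) : Prop := ∃ c b : ℕ, ∀ j : ℕ, ∃ w ≠ 0, ∀ i ≤ j,
  V.Sec ((j * c) • L + b • A) (w * g ^ i)

/-- Non-vanishing. -/
def Nv (L : V.P → ℤ) : Prop := ∃ m : ℕ, 0 < m ∧ ∃ s ≠ 0, V.Sec (m • L) s

/-- No regular one-form `f dx`. -/
def Q0 : Prop := ∀ f x : F, (∀ p, (∃ a : ℂ, V.v p (f * (x - algebraMap ℂ F a)) < 1) ∨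
  (V.v p f ≤ 1 ∧ V.v p x ≤ 1)) → f = 0 ∨ x ∈ Set.range (algebraMap ℂ F)

/-- The input: sections of `M + k L` for infinitely many `k`, whose ratios are dominated. -/
structure Inp (L A M : V.P → ℤ) (S : Set ℕ) (f : ℕ → F) : Prop where
  inf : S.Infinite
  ne : ∀ k ∈ S, f k ≠ 0
  sec : ∀ k ∈ S, V.Sec (k • L + M) (f k)
  dom : ∀ k₁ ∈ S, ∀ k₂ ∈ S, ∀ k₃ ∈ S, ∀ k₄ ∈ S, ∀ x y : ℕ, x * k₁ + y * k₂ = x * k₃ + y * k₄ →
    V.Dom1 L A (f k₁ ^ x * f k₂ ^ y / (f k₃ ^ x * f k₄ ^ y))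

/-- A dominated field `k` with a section `τ` over its generic point. -/
structure Pre (L A M : V.P → ℤ) (d : ℕ) (z : Fin d → F) (k : IntermediateField ℂ F) (a c b : ℕ)
    (τ : F) : Prop where
  ind : AlgebraicIndependent ℂ z
  alg : ∀ g, g ∈ k ↔ IsAlgebraic (IntermediateField.adjoin ℂ (Set.range z)) g
  dom : V.Dom L A z c b
  a0 : 0 < a
  τ0 : τ ≠ 0
  sec : V.GS k (a • L) τ
  psf : ∃ t ≠ 0, ∃ x y : ℕ,
    {i : ℕ | ∃ g ∈ k, g ≠ 0 ∧ V.Sec ((i * a) • L + (x • L + y • M)) (τ ^ i * g * t)}.Infinite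

/-- The generic fibre has Kodaira dimension at most zero. -/
def One (L : V.P → ℤ) (k : IntermediateField ℂ F) : Prop :=
  ∀ (m : ℕ) f g, V.GS k (m • L) f → V.GS k (m • L) g → f ≠ 0 → g / f ∈ k

/-- The sections of `i a L + b A` span spaces of unbounded dimension on the generic fibre. -/
def Unb (L A : V.P → ℤ) (k : IntermediateField ℂ F) (a b : ℕ) (τ : F) : Prop :=
  ∀ r : ℕ, ∃ y : Fin r → F, LinearIndependent k y ∧
    ∀ l, ∃ i : ℕ, V.Sec ((i * a) • L + b • A) (y l * τ ^ i)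

/-- The growth is faster than `j ^ d`. -/
def Gr (L A : V.P → ℤ) (d : ℕ) : Prop :=
  ∃ b : ℕ, ∀ C : ℕ, ∃ᶠ j : ℕ in atTop, C * j ^ d < V.h0 (j • L + b • A)

end VF

/-! ### Rows -/

/-- Domination of each function gives domination of the family. -/
def Sa_MUL : Prop := ∀ (n : ℕ) (F : Type) [Field F] [Algebra ℂ F] (V : VF n F) (L A : V.P → ℤ)
  (d : ℕ) (z : Fin d → F), (∀ i, V.Dom1 L A (z i)) → ∃ c b, V.Dom L A z c b

/-- The field generated by the ratios. -/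
def Sa_PRE : Prop := ∀ (n : ℕ) (F : Type) [Field F] [Algebra ℂ F] (V : VF n F) (L A M : V.P → ℤ)
  (S : Set ℕ) (f : ℕ → F), V.Inp L A M S f → ∃ d z k a c b τ, V.Pre L A M d z k a c b τ

/-- The trick of Kodaira: a section over the generic point has, after multiplication by a
polynomial, only poles along the poles of `z`. -/
def Sa_KT : Prop := ∀ (n : ℕ) (F : Type) [Field F] [Algebra ℂ F] (V : VF n F) (d : ℕ)
  (z : Fin d → F) (k : IntermediateField ℂ F), AlgebraicIndependent ℂ z →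
  (∀ g, g ∈ k ↔ IsAlgebraic (IntermediateField.adjoin ℂ (Set.range z)) g) →
  ∀ B : V.P → Zm, (∀ᶠ p in cofinite, B p ≤ 1) → ∃ (Q : MvPolynomial (Fin d) ℂ) (c : ℕ), Q ≠ 0 ∧
    Q.totalDegree ≤ c ∧ ∀ p, ¬ V.Hz k p → ∀ (w : F) (E : Zm),
      (∀ α : Fin d → ℕ, ∑ i, α i ≤ c → V.v p (w * ∏ i, z i ^ α i) ≤ E) →
      B p * V.v p (w * MvPolynomial.aeval z Q) ≤ E

/-- Two independent sections over the generic point give a larger dominated field. -/
def Sa_BIG : Prop := ∀ (n : ℕ) (F : Type) [Field F] [Algebra ℂ F] (V : VF n F) (L A M : V.P → ℤ)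
  (d : ℕ) (z : Fin d → F) (k : IntermediateField ℂ F) (a c b : ℕ) (τ : F), V.Fs L →
  V.Pre L A M d z k a c b τ → ¬ V.One L k →
  ∃ z' k' c' b', V.Pre L A M (d + 1) z' k' a c' b' τ

/-- The maximal dominated field. -/
def Sa_FIB : Prop := ∀ (n : ℕ) (F : Type) [Field F] [Algebra ℂ F] (V : VF n F) (L A M : V.P → ℤ)
  (S : Set ℕ) (f : ℕ → F), V.Fs L → V.Inp L A M S f →
  ∃ d z k a c b τ, V.Pre L A M d z k a c b τ ∧ V.One L k

/-- Without regular one-forms, curves are rational. -/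
def Sa_RAT : Prop := ∀ (n : ℕ) (F : Type) [Field F] [Algebra ℂ F] (V : VF n F) (z : Fin 1 → F)
  (k : IntermediateField ℂ F), V.Q0 → AlgebraicIndependent ℂ z →
  (∀ g, g ∈ k ↔ IsAlgebraic (IntermediateField.adjoin ℂ (Set.range z)) g) →
  ∃ t, Transcendental ℂ t ∧ k = IntermediateField.adjoin ℂ {t}

/-- The degree count on the projective line. -/
def Sa_P1 : Prop := ∀ (n : ℕ) (F : Type) [Field F] [Algebra ℂ F] (V : VF n F) (L N : V.P → ℤ)
  (t τ : F), V.Fs L → V.Fs N → Transcendental ℂ t → τ ≠ 0 →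
  V.GS (IntermediateField.adjoin ℂ {t}) L τ →
  {i : ℕ | ∃ g ∈ IntermediateField.adjoin ℂ {t}, g ≠ 0 ∧ V.Sec (i • L + N) (τ ^ i * g)}.Infinite →
  V.Nv L

/-- Base of dimension at most one. -/
def Sa_LOW : Prop := ∀ (n : ℕ) (F : Type) [Field F] [Algebra ℂ F] (V : VF n F) (L A M : V.P → ℤ)
  (d : ℕ) (z : Fin d → F) (k : IntermediateField ℂ F) (a c b : ℕ) (τ : F), V.Fs L → V.Fs M →
  V.Q0 → V.Pre L A M d z k a c b τ → d ≤ 1 → V.Nv L

/-- Bounded dimension on the generic fibre. -/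
def Sa_WR : Prop := ∀ (n : ℕ) (F : Type) [Field F] [Algebra ℂ F] (V : VF n F) (L A M : V.P → ℤ)
  (d : ℕ) (z : Fin d → F) (k : IntermediateField ℂ F) (a c b : ℕ) (τ : F), V.Fs L → V.Fs A →
  V.Pre L A M d z k a c b τ → ¬ V.Unb L A k a b τ → V.Nv L

/-- The count. -/
def Sa_CNT : Prop := ∀ (n : ℕ) (F : Type) [Field F] [Algebra ℂ F] (V : VF n F) (L A M : V.P → ℤ)
  (d : ℕ) (z : Fin d → F) (k : IntermediateField ℂ F) (a c b : ℕ) (τ : F), V.Fs L → V.FD L A →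
  ¬ V.Nv L → V.Pre L A M d z k a c b τ → V.Unb L A k a b τ → d < n ∧ V.Gr L A d

/-- The algebraic theorem. -/
def Sa_ALG : Prop := ∀ (n : ℕ) (F : Type) [Field F] [Algebra ℂ F] (V : VF n F) (L A M : V.P → ℤ)
  (S : Set ℕ) (f : ℕ → F), V.Fs L → V.Fs A → V.Fs M → V.FD L A → V.Q0 → V.Inp L A M S f →
  V.Nv L ∨ ∃ d z k a c b τ, 2 ≤ d ∧ d < n ∧ V.Pre L A M d z k a c b τ ∧ V.One L k ∧
    V.Unb L A k a b τ ∧ V.Gr L A d

/-- Finiteness of the set of poles, from residues of maximal transcendence degree. -/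
def Sa_COF : Prop := ∀ (n : ℕ) (F : Type) [Field F] [Algebra ℂ F] (P κ : Type) [Fintype κ]
  (v : P → Valuation F Zm) (T : κ → Fin (n - 1) → F), (⊤ : IntermediateField ℂ F).FG →
  Algebra.trdeg ℂ F = n →
  (∀ p, ∃ s, ∀ Q : MvPolynomial (Fin (n - 1)) ℂ, Q ≠ 0 → v p (MvPolynomial.aeval (T s) Q) = 1) →
  (∀ x, ∃ N : ℤ, ∀ p, v p x ≤ exp N) → ∀ x, {w | ∃ p, v p = w ∧ 1 < w x}.Finite

/-- The count of Siegel. -/
def Sa_SIE : Prop := ∀ (n r : ℕ) (F : Type) [Field F] [Algebra ℂ F] (U : ℕ → Submodule ℂ F)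
  (C : ℕ) (t : Fin r → F) (i₀ : Fin r) (I : Fin n → Fin r), (∀ j, FiniteDimensional ℂ (U j)) →
  (∀ j, Module.finrank ℂ (U j) ≤ C * (j + 1) ^ n) → (∀ i j, ∀ x ∈ U i, ∀ y ∈ U j, x * y ∈ U (i + j)) →
  1 ∈ U 0 → (∀ i, t i ∈ U 1) → t i₀ ≠ 0 → (AlgebraicIndependent ℂ fun i => t (I i) / t i₀) →
  (∀ x : F, ∃ j, ∃ y ∈ U j, ∃ y' ∈ U j, y' ≠ 0 ∧ x = y / y') →
  (⊤ : IntermediateField ℂ F).FG ∧ Algebra.trdeg ℂ F = n

end Pool.Agent.Lib.NV5
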