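import Pool.Agent.Lib.NV5.Blue

/-! Project NV5, row CORE: the theorem on the manifold layer. -/

noncomputable section

namespace Pool.Agent.Lib.NV5

open Pool.Agent.Lib.HS32 Pool.Agent.Lib.EX Pool.Agent.Lib.EXS Pool.Agent.Lib.ZL Pool.Agent.Lib.NV2

namespace COREb

theorem dv_smul {ι P : Type} [Fintype ι] (m : ι → P → ℤ) (a : ℕ) (l : ι → ℤ) :
    a • dv m l = dv m fun i => a * l i := by
  funext p
  simp only [dv, Pi.smul_apply, nsmul_eq_mul, Finset.mul_sum]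
  exact Finset.sum_congr rfl fun i _ => by ring

theorem dv_lin {ι P : Type} [Fintype ι] (m : ι → P → ℤ) (a b : ℕ) (l e : ι → ℤ) :
    a • dv m l + b • dv m e = dv m fun i => a * l i + b * e i := by
  rw [dv_smul, dv_smul]
  funext p
  simp only [dv, Pi.add_apply, ← Finset.sum_add_distrib, add_mul]

end COREb

open COREb in
theorem bCORE (hFLD : Sb_FLD) (hVF : Sb_VF) (hQ0 : Sb_Q0) (hINP : Sb_INP) (hALG : Sa_ALG)
    (hFN : Sb_FN) : Sb_CORE := by
  intro n M _ ι _ _ D r e t l q he hk hi hd ho hS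
  obtain ⟨F, i1, i2, ⟨Φ⟩⟩ := hFLD n M ι D
  obtain ⟨V, m, π, br⟩ := hVF n M ι D F Φ r (fun i => e i) t (fun i => Int.natCast_pos.2 (he i)) hk hi
  obtain ⟨Q, S, f, inp⟩ := hINP n M ι D F Φ V m π r e t l q he hk hi br hd hS
  rcases hALG n F V _ _ _ S f (br.fs _) (br.fs _) (br.fs _)
    (fun a b => by rw [dv_lin]; exact (br.dim _).1) (hQ0 n M ι D F Φ V m π br ho) inp with
    ⟨j, j0, s, s0, hs⟩ | ⟨d, z, k, a, c, b, τ, h⟩
  · rw [dv_smul] at hs
    obtain ⟨u, u1, u2⟩ := (br.sec _ _).1 hs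
    exact Or.inl ⟨j, j0, u, fun c => s0 (by rw [← u2, c]; exact (hFN n M ι D F Φ).2.1), u1⟩
  · exact Or.inr ⟨F, i1, i2, Φ, V, m, π, Q, d, z, k, a, c, b, τ, br, h⟩

end Pool.Agent.Lib.NV5
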