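import Pool.Agent.Lib.NV5.Blue
import Pool.Agent.Lib.EX.K1O
import Pool.Agent.Lib.EX.B_UNI

/-! Project NV5, row GS: sections over the generic fibre in the two languages. -/

open scoped Classical Topology ContDiff Manifold
open Set Filter

set_option linter.unusedVariables false
set_option linter.unusedSectionVars false

noncomputable section

namespace Pool.Agent.Lib.NV5

open Pool.Agent.Lib.SV (E)
open Pool.Agent.Lib.KP (HolAt)
open Pool.Agent.Lib.HS32 Pool.Agent.Lib.EX Pool.Agent.Lib.EXS Pool.Agent.Lib.ZL Pool.Agent.Lib.NV2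
open Pool.Agent.Lib.HS.BBR (mf)

namespace GSb

variable {n : ℕ} {Y I : Type} [TopologicalSpace Y] {e : OpenPartialHomeomorph Y (E n)} {z : E n}

theorem back {p : Y → Prop} (hz : z ∈ e.target) (h : ∀ᶠ w in 𝓝 z, p (e.symm w)) :
    ∀ᶠ x in 𝓝 (e.symm z), p x := by
  have h1 : ∀ᶠ w in 𝓝 (e (e.symm z)), p (e.symm w) := by rwa [e.right_inv hz]
  exact (K1.ev_chart (e.map_target hz) h1).mono fun x hx => e.left_inv hx.1 ▸ hx.2

theorem fr {p : Y → Prop} (hz : z ∈ e.target) :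
    (∃ᶠ x in 𝓝 (e.symm z), p x) ↔ ∃ᶠ w in 𝓝 z, p (e.symm w) :=
  not_congr ⟨fun h => (K1.ev_sym hz h).mono fun w hw => hw.2, fun h => back hz h⟩

theorem rt {a : E n → ℂ} (hz : z ∈ e.target) : (fun w => a (e (e.symm w))) =ᶠ[𝓝 z] a :=
  (e.open_target.eventually_mem hz).mono fun w hw => congrArg a (e.right_inv hw)

variable [ChartedSpace (E n) Y] [IsManifold 𝓘(ℂ, E n) ω Y] [Fintype I] [DecidableEq I]

theorem hol (he : e ∈ (mf n Y).C) (hz : z ∈ e.target) {a : E n → ℂ} (ha : HolN a z) :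
    ∀ᶠ x in 𝓝 (e.symm z), HolAt n 0 (fun x => a (e x)) x := by
  refine back hz ?_
  filter_upwards [ha, e.open_target.eventually_mem hz] with w h1 h2
  refine (K1.hol_iff0 he (e.map_target h2)).2 ?_
  rw [e.right_inv h2]
  exact h1.congr_of_eventuallyEq (rt h2)

theorem hy1 (he : e ∈ (mf n Y).C) (hz : z ∈ e.target) {u : E n → ℂ} (hu : Hy u z) :
    dAt n (fun x => u (e x)) (e.symm z) ≠ 0 := fun h0 => hu.2.2 (by
  obtain ⟨A, hA⟩ := K1.dAt_eq he (e.map_target hz)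
  have a := hA ℂ fun x => u (e x)
  rw [h0, e.right_inv hz] at a
  rw [← (rt (a := u) hz).fderiv_eq]
  exact (a (hu.1.self_of_nhds.congr_of_eventuallyEq (rt hz))).trans
    (ContinuousLinearMap.zero_comp _))

theorem hy2 (he : e ∈ (mf n Y).C) {y : Y} (hy : y ∈ e.source) {u : Y → ℂ}
    (h1 : ∀ᶠ x in 𝓝 y, HolAt n 0 u x) (h2 : u y = 0) (h3 : dAt n u y ≠ 0) :
    Hy (fun w => u (e.symm w)) (e y) := by
  have hl := e.left_inv hy
  have u1 := K1.holN_0 (v := u) he (e.map_source hy) (by rwa [hl])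
  refine ⟨u1, (congrArg u hl).trans h2, fun h0 => h3 ?_⟩
  obtain ⟨A, hA⟩ := K1.dAt_eq he hy
  have a := (hA ℂ u u1.self_of_nhds).symm.trans h0
  ext1 v
  simpa using DFunLike.congr_fun a (A.symm v)

theorem holx {c : I → Option (Fin n)} (ho : Off c z) (P : I → ℤ) : HolN (xm c P) z :=
  (K1.holN_prod (u := fun i => xi c i) (fun i => ⟨Eventually.of_forall fun w => by
    unfold xi
    cases c i with
    | none => exact differentiableAt_const _
    | some j => exact differentiableAt_apply j w, ho i⟩) P).1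

theorem pr {c : I → Option (Fin n)} {h u : I → ℂ} {w : E n} (a : ∀ i, h i = u i * xi c i w)
    (P : I → ℤ) : ∏ i, h i ^ P i = (∏ i, u i ^ P i) * xm c P w := by
  simp only [a, mul_zpow, Finset.prod_mul_distrib, xm]

variable [(mf n Y).Cpt] {S : I → Set Y} {D : Ad (mf n Y) I} {F : Type} [Field F] [Algebra ℂ F]
  (Φ : FM D F)

theorem key (hK : Sb_KIT) (hN : Sb_FN) (hF : D.Fit S) (hE : ∀ y, ∃ h, Eqs n S y h)
    (hs : ∀ P f, Sec n S P f ↔ Sp D P f) (h : Hg D) (u : Y → ℂ)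
    (hu : D.rd u h.d =ᶠ[𝓝 h.z] h.u) (P : I → ℤ) (f : F) :
    RegAt n S Φ.ev P f u ((D.e h.d).symm h.z) ↔ Φ.Reg h P f := by
  obtain ⟨k1, -, -, -, -, -, -, -, -, -, k2, k3, k4, -⟩ := hK n (mf n Y) I D
  obtain ⟨d, z, u₀, hz, hy⟩ := h
  have he := D.mem d
  have ht : z ∈ (D.e d).target := K1.tgt hz
  have hf := K1.fit_ev hF d hz
  have hb : ∀ᶠ w in 𝓝 z, w ∈ B2 n := Metric.isOpen_ball.eventually_mem hz
  constructor
  · rintro ⟨g, a, b, h1, h2, h3, h4⟩
    obtain ⟨v, v1, v2⟩ := K1.eqs_unit (Y := Y) bUNI he ht hf h1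
    obtain ⟨p1, p2⟩ := K1.holN_prod v1 P
    obtain ⟨⟨Q, q1⟩, ⟨Q', q2⟩, q3, q4⟩ := (Φ.frac f).choose_spec
    have h5 := K1.ev_sym (X := Y) ht (h4 (Q ⊔ Q') _ _ ((hs _ _).2 (k1 _ _ _ le_sup_left q1))
      ((hs _ _).2 (k1 _ _ _ le_sup_right q2)) q3 q4)
    have a1 := K1.holN_0 (X := Y) he ht (h2.mono fun x hx => hx.1)
    have b1 := K1.holN_0 (X := Y) he ht (h2.mono fun x hx => hx.2)
    refine ⟨D.rd a d, fun w => (∏ i, v i w ^ P i) * D.rd b d w, a1,
      ⟨(p1.and b1).mono fun w hw => hw.1.mul hw.2, ?_⟩, (k3 d z hz _).2 ⟨_, ⟨Q', q2⟩, q3, ?_⟩⟩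
    · refine (((fr (Y := Y) ht).1 h3).and_eventually
        (hu.and (p1.self_of_nhds.continuousAt.eventually_ne p2))).mono fun w hw => ?_
      exact ⟨hw.2.1.symm.trans hw.1.1, mul_ne_zero hw.2.2 hw.1.2⟩
    · filter_upwards [h5, v2, hf, hb] with w w1 w2 w3 w4 w5
      have ho := (k2 _ ⟨Q', q2⟩ d w w4).1 w5
      have w6 := w1.2 fun i hi => ho i ((w3 i).1 hi)
      rw [pr w2 P] at w6
      show D.rd _ d w / D.rd _ d w * _ * _ = _
      rw [div_mul_eq_mul_div, div_mul_eq_mul_div, div_eq_iff w5]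
      have r : ∀ x y p q : ℂ, x * y * (p * q) = x * (p * y) * q := fun _ _ _ _ => by ring
      exact (r _ _ _ _).trans w6
  · rintro ⟨a, b, a1, ⟨b1, b2⟩, h3⟩
    obtain ⟨g, h1⟩ := hE ((D.e d).symm z)
    obtain ⟨v, v1, v2⟩ := K1.eqs_unit (Y := Y) bUNI he ht hf h1
    obtain ⟨p1, p2⟩ := K1.holN_prod v1 P
    have a2 : HolN (fun w => (∏ i, v i w ^ P i) * a w) z :=
      (p1.and a1).mono fun w hw => hw.1.mul hw.2
    refine ⟨g, _, _, h1, (hol he ht a2).and (hol he ht b1), (fr (Y := Y) ht).2 ?_,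
      fun Q s t hs' ht' t0 hft => back (Y := Y) ht ?_⟩
    · refine (b2.and_eventually (hu.and (rt (Y := Y) (a := b) ht))).mono fun w hw => ?_
      exact ⟨hw.2.1.trans hw.1.1, fun h0 => hw.1.2 (hw.2.2.symm.trans h0)⟩
    · have rs : Rg D s := ⟨Q, (hs _ _).1 hs'⟩
      have rt' : Rg D t := ⟨Q, (hs _ _).1 ht'⟩
      have n1 := ((hN n (mf n Y) I D F Φ).2.2.2 d z hz).1 s t rs rt' t0
      have n2 : ∀ᶠ w in Gn D d z, D.rd t d w ≠ 0 :=
        (k3 d z hz _).2 ⟨t, rt', t0, Eventually.of_forall fun w hw => hw⟩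
      have n3 : ∀ᶠ w in Gn D d z, D.rd s d w * xm (D.c d) P w * b w = a w * D.rd t d w := by
        filter_upwards [h3, n1, n2] with w w1 w2 w3
        have w4 : Φ.fn f d w * xm (D.c d) P w * b w = a w := w1
        rw [hft, w2] at w4
        rw [← w4]
        field_simp
      filter_upwards [((k4 d z hz).2.2.1 _ n3).2, v2, hf, hb, a1.eventually_nhds,
        b1.eventually_nhds, (D.e d).open_target.eventually_mem ht] with w w1 w2 w3 w4 w5 w6 w7 w8
      have ho : Off (D.c d) w := fun i hi => w8 i ((w3 i).2 hi)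
      have s1 := (k2 s rs d w w4).2 ho
      have t1 := (k2 t rt' d w w4).2 ho
      have w9 := ((k4 d w w4).2.2.2.2 (fun w => D.rd s d w * xm (D.c d) P w * b w)
        (fun w => a w * D.rd t d w)
        ((s1.and ((holx ho P).and w6)).mono fun x hx => (hx.1.mul hx.2.1).mul hx.2.2)
        ((t1.and w5).mono fun x hx => hx.2.mul hx.1) w1).self_of_nhds
      rw [pr w2 P]
      show D.rd s d w * _ * b (D.e d ((D.e d).symm w)) =
        (∏ i, v i (D.e d ((D.e d).symm w)) ^ P i) * a (D.e d ((D.e d).symm w)) * D.rd t d w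
      rw [(D.e d).right_inv w7]
      linear_combination (∏ i, v i w ^ P i) * w9

end GSb

/-- Row `GS`. -/
theorem bGS (hS : St_SEC) (hK : Sb_KIT) (hN : Sb_FN) : Sb_GS := by
  intro n Y I _ _ _ _ _ _ _ _ _ S D F _ _ Φ V m π hF hE hB
  obtain ⟨-, -, hs, -⟩ := hS n Y I S D hF hE
  have rg : ∀ {P s}, Sec n S P s → Rg D s := fun h => ⟨_, (hs _ _).1 h⟩
  obtain ⟨k1, -⟩ := hK n (mf n Y) I D
  have key := fun h u hu P f => (GSb.key Φ hK hN hF hE hs h u hu P f).trans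
    ((hB.vl h).reg P f).symm
  refine ⟨⟨fun P s t h h' => Φ.add s t (rg h) (rg h'), fun P Q s t h h' => Φ.mul s t (rg h) (rg h'),
    fun P c s h => Φ.smul c s (rg h), fun P s h => Φ.inj s (rg h), fun f => ?_⟩,
    fun k Q f => ⟨fun H p hp => ?_, fun H u y h1 h2 h3 h4 => ?_⟩⟩
  · obtain ⟨p, ⟨Q, q1⟩, ⟨Q', q2⟩, q3, q4⟩ := Φ.frac f
    exact ⟨Q ⊔ Q', p.1, p.2, (hs _ _).2 (k1 _ _ _ le_sup_left q1),
      (hs _ _).2 (k1 _ _ _ le_sup_right q2), q3, q4⟩
  · obtain ⟨h, rfl⟩ := hB.sur p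
    have he := D.mem h.d
    have ht : h.z ∈ (D.e h.d).target := K1.tgt h.mem
    have hu := GSb.rt (Y := Y) (a := h.u) ht
    exact (key h (fun x => h.u (D.e h.d x)) hu Q f).1 (H _ _ (GSb.hol he ht h.hy.1)
      (hu.self_of_nhds.trans h.hy.2.1) (GSb.hy1 (Y := Y) he ht h.hy)
      fun g hg => (key h (fun x => h.u (D.e h.d x)) hu 0 g).2 (by simpa using hp g hg))
  · have hd : ∃ d, y ∈ (D.e d).source := by
      obtain ⟨d, -, hd⟩ := Finset.exists_ne_zero_of_sum_ne_zero ((D.sum y).trans_ne one_ne_zero)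
      exact ⟨d, (D.supp d y hd).1⟩
    obtain ⟨d, hd⟩ := hd
    have he := D.mem d
    have hl := (D.e d).left_inv hd
    let h : Hg D := ⟨d, D.e d y, D.rd u d, K1.b2 hd, GSb.hy2 (Y := Y) he hd h1 h2 h3⟩
    have kk : ∀ P f, RegAt n S Φ.ev P f u y ↔ _ := fun P f =>
      (Iff.of_eq (congrArg (RegAt n S Φ.ev P f u) hl.symm)).trans
        (key h u EventuallyEq.rfl P f)
    exact (kk Q f).2 (H (π h) fun g hg => by simpa using (kk 0 g).1 (h4 g hg))

end Pool.Agent.Lib.NV5
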