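import Pool.Agent.Lib.NV5.B_KIT
import Pool.Agent.Lib.NV2.B_TAN

/-! Project NV5, row INP: the input of the algebraic theorem. -/

open scoped Classical Topology
open Set Complex Metric Filter

set_option linter.unusedSectionVars false

noncomputable section

namespace Pool.Agent.Lib.NV5

open Pool.Agent.Lib.SV (E nsq)
open Pool.Agent.Lib.HS32 Pool.Agent.Lib.EX Pool.Agent.Lib.EXS Pool.Agent.Lib.ZL Pool.Agent.Lib.NV2

namespace INPb

variable {n : ℕ} {M : Mf n} {ι : Type} [Fintype ι] [DecidableEq ι] {D : Ad M ι}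
  {F : Type} [Field F] [Algebra ℂ F] (Φ : FM D F) (l : ι → ℤ)

/-- The ratio `g₁ / g₂` is the ratio of two proportional tensors. -/
def Pr (N B₁ B₂ : ℕ) (g₁ g₂ : F) : Prop := ∃ u₁ u₂, Rg D u₁ ∧ Rg D u₂ ∧ Φ.ev u₁ = g₁ ∧
  Φ.ev u₂ = g₂ ∧ ∃ b₁ b₂, Tns D N (fun i => B₁ * l i) b₁ ∧ Tns D N (fun i => B₂ * l i) b₂ ∧
    (OA D fun d z => ∀ I, b₁ d I z * D.rd u₂ d z = b₂ d I z * D.rd u₁ d z) ∧
    (OA D fun d z => D.rd u₂ d z ≠ 0 → ∃ I, b₂ d I z ≠ 0) ∧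
    OA D fun d z => ∀ I J, b₁ d I z * b₂ d J z = b₁ d J z * b₂ d I z

variable {Φ l}

theorem pr_one (h : Φ.ev (un D) = 1) : Pr Φ l 0 0 0 1 1 := by
  have h1 : Tns D 0 (fun i => (0 : ℕ) * l i) fun _ _ _ => 1 :=
    ⟨fun d z _ I => ⟨fun _ => 1, .of_forall fun _ => differentiableAt_const _,
      .of_forall fun y _ => by simp [xm]⟩, fun a d x _ _ _ I => by simp⟩
  exact ⟨un D, un D, ⟨0, KITb.one D⟩, ⟨0, KITb.one D⟩, h, h, _, _, h1, h1, fun _ _ _ _ _ => rfl,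
    fun _ _ _ _ _ => ⟨Fin.elim0, one_ne_zero⟩, fun _ _ _ _ _ _ => rfl⟩

theorem pr_mul (hT : ∀ q q' P Q b b', Tns D q P b → Tns D q' Q b' → Tns D (q + q') (P + Q)
    fun d I z => b d (fun p => I (Fin.castAdd q' p)) z * b' d (fun p => I (Fin.natAdd q p)) z)
    {N N' B₁ B₂ B₁' B₂' : ℕ} {g₁ g₂ g₁' g₂' : F} (h : Pr Φ l N B₁ B₂ g₁ g₂)
    (h' : Pr Φ l N' B₁' B₂' g₁' g₂') :
    Pr Φ l (N + N') (B₁ + B₁') (B₂ + B₂') (g₁ * g₁') (g₂ * g₂') := by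
  obtain ⟨u₁, u₂, r1, r2, rfl, rfl, b₁, b₂, t1, t2, a1, a2, a3⟩ := h
  obtain ⟨u₁', u₂', r1', r2', rfl, rfl, b₁', b₂', t1', t2', a1', a2', a3'⟩ := h'
  have e : ∀ B B' : ℕ, (fun i => ((B + B' : ℕ) : ℤ) * l i) =
      (fun i => (B : ℤ) * l i) + fun i => (B' : ℤ) * l i := fun B B' => by
    funext i
    simp only [Pi.add_apply, Nat.cast_add, add_mul]
  refine ⟨u₁ * u₁', u₂ * u₂', KITb.rmul r1 r1', KITb.rmul r2 r2', Φ.mul _ _ r1 r1',
    Φ.mul _ _ r2 r2', _, _, e _ _ ▸ hT _ _ _ _ _ _ t1 t1', e _ _ ▸ hT _ _ _ _ _ _ t2 t2',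
    fun d z hz ho I => ?_, fun d z hz ho h => ?_, fun d z hz ho I J => ?_⟩
  · show _ * _ * (D.rd u₂ d z * D.rd u₂' d z) = _ * _ * (D.rd u₁ d z * D.rd u₁' d z)
    rw [mul_mul_mul_comm, a1 d z hz ho, a1' d z hz ho, mul_mul_mul_comm]
  · have h1 : D.rd u₂ d z * D.rd u₂' d z ≠ 0 := h
    obtain ⟨I, hI⟩ := a2 d z hz ho (left_ne_zero_of_mul h1)
    obtain ⟨I', hI'⟩ := a2' d z hz ho (right_ne_zero_of_mul h1)
    refine ⟨Fin.append I I', ?_⟩
    simp only [Fin.append_left, Fin.append_right]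
    exact mul_ne_zero hI hI'
  · show _ * _ * (_ * _) = _ * _ * (_ * _)
    rw [mul_mul_mul_comm, a3 d z hz ho, a3' d z hz ho, mul_mul_mul_comm]

theorem pr_pow (h1 : Φ.ev (un D) = 1)
    (hT : ∀ q q' P Q b b', Tns D q P b → Tns D q' Q b' → Tns D (q + q') (P + Q)
    fun d I z => b d (fun p => I (Fin.castAdd q' p)) z * b' d (fun p => I (Fin.natAdd q p)) z)
    {N B₁ B₂ : ℕ} {g₁ g₂ : F} (h : Pr Φ l N B₁ B₂ g₁ g₂) (x : ℕ) :
    Pr Φ l (x * N) (x * B₁) (x * B₂) (g₁ ^ x) (g₂ ^ x) := by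
  induction x with
  | zero => simpa only [zero_mul, pow_zero] using pr_one h1
  | succ x ih => simpa only [Nat.succ_mul, pow_succ] using pr_mul hT ih h

theorem cov (x : M.X) : ∃ d, x ∈ (D.e d).source := by
  by_contra h
  have := D.sum x
  rw [Finset.sum_eq_zero fun a _ => by_contra fun h0 => h ⟨a, (D.supp a x h0).1⟩] at this
  exact zero_ne_one this

theorem pr_dom {V : VF n F} {m : ι → V.P → ℤ} {π : Hg D → V.P} {e : ι → ℕ} (hB : Φ.Br V m π)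
    (hD : DomH D l e) (h0 : Φ.ev 0 = 0) {N B : ℕ} {g₁ g₂ : F} (hN : N ≤ B) (hg : g₂ ≠ 0)
    (h : Pr Φ l N B B g₁ g₂) : V.Dom1 (dv m l) (dv m fun i => e i) (g₁ / g₂) := by
  obtain ⟨u₁, u₂, r1, r2, rfl, rfl, b₁, b₂, t1, t2, a1, a2, a3⟩ := h
  have pt : ∀ x, u₂ x ≠ 0 → ∃ d I, x ∈ (D.e d).source ∧ D.e d x ∈ B2 n ∧ Off (D.c d) (D.e d x) ∧
      b₂ d I (D.e d x) ≠ 0 := fun x hx => by
    obtain ⟨d, hd⟩ := cov (D := D) x
    have h1 : D.rd u₂ d (D.e d x) ≠ 0 := by rwa [GLU.rd_e u₂ hd]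
    have h2 := KITb.off_of_ne r2 (GLU.mem_B2 hd) h1
    obtain ⟨I, hI⟩ := a2 d _ (GLU.mem_B2 hd) h2 h1
    exact ⟨d, I, hd, GLU.mem_B2 hd, h2, hI⟩
  obtain ⟨x₀, hx₀⟩ : ∃ x, u₂ x ≠ 0 := by
    by_contra hn
    have : u₂ = 0 := funext fun x => by_contra fun h => hn ⟨x, h⟩
    exact hg (by rw [this, h0])
  obtain ⟨d₀, I₀, -, p1, p2, p3⟩ := pt x₀ hx₀
  obtain ⟨c, a, hw⟩ := hD N B b₁ b₂ hN t1 t2 ⟨d₀, I₀, _, p1, p2, p3⟩ a3
  refine ⟨c, a, fun j => ?_⟩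
  obtain ⟨w, w0, w1, w2⟩ := hw j
  have rw : ∀ i ≤ j, Rg D (w i) := fun i hi => ⟨_, w1 i hi⟩
  have key : ∀ i ≤ j, Φ.ev (w i) = Φ.ev (w 0) * (Φ.ev u₁ / Φ.ev u₂) ^ i := fun i => by
    induction i with
    | zero => simp
    | succ i ih =>
      intro hi
      have h1 : w (i + 1) * u₂ * u₂ = w i * u₁ * u₂ := by
        funext x
        by_cases hx : u₂ x = 0
        · simp only [Pi.mul_apply, hx, mul_zero]
        obtain ⟨d, I, hd, q1, q2, q3⟩ := pt x hx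
        have q4 := w2 i hi d _ q1 q2 I
        have q5 := a1 d _ q1 q2 I
        simp only [GLU.rd_e _ hd] at q4 q5
        simp only [Pi.mul_apply]
        refine congrArg (· * u₂ x) (mul_left_cancel₀ q3 ?_)
        linear_combination u₂ x * q4 + w i x * q5
      have h2 := congrArg Φ.ev h1
      have i1 := rw (i + 1) hi
      have i2 := rw i (by omega)
      rw [Φ.mul _ _ (KITb.rmul i1 r2) r2, Φ.mul _ _ i1 r2, Φ.mul _ _ (KITb.rmul i2 r1) r2,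
        Φ.mul _ _ i2 r1] at h2
      rw [pow_succ, ← mul_assoc, ← ih (by omega), ← mul_div_assoc, ← mul_right_cancel₀ hg h2,
        mul_div_cancel_right₀ _ hg]
  refine ⟨Φ.ev (w 0), fun h => w0 (Φ.inj _ (rw 0 j.zero_le) h), fun i hi => ?_⟩
  have e1 : (j * c) • dv m l + a • dv m (fun i => (e i : ℤ)) =
      dv m fun s => j * c * l s + a * e s := by
    funext p
    rw [Pi.add_apply, Pi.smul_apply, Pi.smul_apply]
    simp only [dv, nsmul_eq_mul, Finset.mul_sum, Nat.cast_mul, ← Finset.sum_add_distrib]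
    exact Finset.sum_congr rfl fun s _ => by ring
  rw [e1, ← key i hi]
  exact (hB.sec _ _).2 ⟨w i, w1 i hi, rfl⟩

theorem sp_sum {r : ℕ} {P : ι → ℤ} {t : Fin r → M.X → ℂ} (ht : ∀ a, Sp D P (t a))
    (c : Fin r → ℂ) : Sp D P (∑ a, c a • t a) :=
  Finset.sum_induction _ (Sp D P) (fun _ _ => KITb.add) (KITb.zero P) fun a _ =>
    KITb.smul _ (ht a)

end INPb

open INPb in
theorem bINP (hC : Sb_CRM) (hT : Sb_TNS) (hK : Sb_KIT) (hF : Sb_FN) : Sb_INP := by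
  intro n M _ ι _ _ D F _ _ Φ V m π r e t l q he hKd hI hB hD hinf
  obtain ⟨N, c, S, σ, hS, h1, h2⟩ := hC n M ι D l q hinf
  obtain ⟨t1, -, t3⟩ := hT n M ι D
  obtain ⟨-, -, -, -, -, -, -, -, -, k10, k11, -, -, -, k15⟩ := hK n M ι D
  obtain ⟨f1, f0, -⟩ := hF n M ι D F Φ
  obtain ⟨k₀, hk₀⟩ := hS.nonempty
  obtain ⟨-, -, d₀, I₀, z₀, hz₀, ho₀, hne₀⟩ := h1 k₀ hk₀
  have hrv : HolN (rv D t d₀) z₀ :=
    (eventually_all.2 fun a => (k11 (t a) ⟨_, hKd.1 a⟩ d₀ z₀ hz₀).2 ho₀).mono fun _ hy =>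
      differentiableAt_pi.2 hy
  have hinj : LinearMap.ker (fderiv ℂ (rv D t d₀) z₀ : E n →ₗ[ℂ] Fin r → ℂ) = ⊥ := by
    refine LinearMap.ker_eq_bot'.2 fun v hv => (TAN.imm (g := xm (D.c d₀) fun i => e i)
      hrv.self_of_nhds (MON.diff_xm fun i => .inl (ho₀ i)) (MON.xm_ne _ ho₀) ?_ (hI d₀ z₀ hz₀) 0 v
      (by rw [zero_smul, zero_add]; exact hv)).2
    filter_upwards [KITb.evB hz₀, MON.off_ev ho₀] with y y1 y2
    funext a
    have y3 := (k15 _ (t a) (hKd.1 a) d₀ y y1).2 y2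
    show val _ _ _ y = xm _ _ y * D.rd (t a) d₀ y
    rw [y3, ← mul_assoc, ← MON.xm_add _ _ y2, add_neg_cancel, ← neg_zero, KITb.xm0, one_mul]
  obtain ⟨G, hG⟩ := LinearMap.exists_leftInverse_of_injective _ hinj
  obtain ⟨R, hR⟩ := t3 (fun i => e i) N (fun p => ∑ a, G (Pi.single a 1) (I₀ p) • t a)
    fun p => sp_sum hKd.1 _
  have hx : ∀ p j, fderiv ℂ (D.rd (∑ a, G (Pi.single a 1) (I₀ p) • t a) d₀) z₀ (Pi.single j 1) =
      if I₀ p = j then 1 else 0 := fun p j => by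
    let L : (Fin r → ℂ) →L[ℂ] ℂ := LinearMap.toContinuousLinearMap ((LinearMap.proj (I₀ p)).comp G)
    have a1 : D.rd (∑ a, G (Pi.single a 1) (I₀ p) • t a) d₀ = L ∘ rv D t d₀ := by
      funext y
      show _ = G (rv D t d₀ y) (I₀ p)
      rw [LinearMap.pi_apply_eq_sum_univ G, Finset.sum_apply]
      simp only [Ad.rd, Finset.sum_apply, Pi.smul_apply, smul_eq_mul]
      refine Finset.sum_congr rfl fun a _ => ?_
      rw [mul_comm, show (fun j => if a = j then (1 : ℂ) else 0) = Pi.single a 1 from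
        funext fun j => (Pi.single_apply a 1 j).trans (if_congr eq_comm rfl rfl) |>.symm]
      rfl
    rw [a1, (L.hasFDerivAt.comp z₀ hrv.self_of_nhds.hasFDerivAt).fderiv]
    exact (congrFun (LinearMap.congr_fun hG (Pi.single j 1)) (I₀ p)).trans (Pi.single_apply _ _ _)
  choose! s hs hs' using fun k (hk : k ∈ S) => hR _ _ (h1 k hk).2.1
  have rs : ∀ k ∈ S, Rg D (s k) := fun k hk => ⟨_, hs k hk⟩
  have b1 : ∀ k ∈ S, ∀ k' ∈ S, OA D fun d z => ∀ J,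
      σ k d J z * D.rd (s k') d z = σ k' d J z * D.rd (s k) d z := fun k hk k' hk' d z hz ho J => by
    rw [hs' k hk d z hz ho, hs' k' hk' d z hz ho, Finset.mul_sum, Finset.mul_sum]
    refine Finset.sum_congr rfl fun I _ => ?_
    rw [← mul_assoc, ← mul_assoc, h2 k hk k' hk' d z hz ho J I, mul_comm (σ k d I z)]
  have s0 : s k₀ ≠ 0 := fun h => hne₀ (by
    have a1 := hs' k₀ hk₀ d₀ z₀ hz₀ ho₀
    rw [h, Finset.sum_eq_single I₀ (fun I _ hI => ?_) fun h => absurd (Finset.mem_univ _) h] at a1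
    · simp only [hx, if_true, Finset.prod_const_one, mul_one] at a1
      exact a1.symm
    · obtain ⟨p, hp⟩ := Function.ne_iff.1 hI
      rw [Finset.prod_eq_zero (Finset.mem_univ p) (by rw [hx, if_neg (Ne.symm hp)]), mul_zero])
  have sn : ∀ k ∈ S, Φ.ev (s k) ≠ 0 := fun k hk h => by
    have a0 := Φ.inj _ (rs k hk) h
    obtain ⟨-, a1, d, I, z, hz, ho, a2⟩ := h1 k hk
    obtain ⟨g, g1, g2⟩ := a1.pol d z hz I
    have g3 : g z ≠ 0 := fun h => a2 (by rw [g2.self_of_nhds ho, h, mul_zero])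
    obtain ⟨y, y1, y2, y3, y4, y5⟩ := ((k10 _ (rs k₀ hk₀) s0 d z hz).and_eventually
      ((KITb.evB hz).and ((MON.off_ev ho).and (g2.and
        (g1.self_of_nhds.continuousAt.eventually_ne g3))))).exists
    have y6 := b1 k hk k₀ hk₀ d y y2 y3 I
    rw [a0, y4 y3] at y6
    exact mul_ne_zero (mul_ne_zero (MON.xm_ne _ y3) y5) y1 (y6.trans (mul_zero _))
  have pr : ∀ k ∈ S, ∀ k' ∈ S, Pr Φ l N (k + c) (k' + c) (Φ.ev (s k)) (Φ.ev (s k')) :=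
    fun k hk k' hk' => ⟨s k, s k', rs k hk, rs k' hk', rfl, rfl, σ k, σ k', (h1 k hk).2.1,
      (h1 k' hk').2.1, b1 k hk k' hk', fun d z hz ho h => by_contra fun hn => h (by
        rw [hs' k' hk' d z hz ho]
        exact Finset.sum_eq_zero fun I _ => by
          rw [(by_contra fun a => hn ⟨I, a⟩ : σ k' d I z = 0), zero_mul]), h2 k hk k' hk'⟩
  refine ⟨fun i => c * l i + R i, S, fun k => Φ.ev (s k), hS, sn, fun k hk => ?_,
    fun k₁ a1 k₂ a2 k₃ a3 k₄ a4 x y hxy => ?_⟩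
  · have e1 : k • dv m l + dv m (fun i => c * l i + R i) =
        dv m ((fun i => ((k + c : ℕ) : ℤ) * l i) + R) := by
      funext p
      rw [Pi.add_apply, Pi.smul_apply]
      simp only [dv, Pi.add_apply, nsmul_eq_mul, Finset.mul_sum, Nat.cast_add,
        ← Finset.sum_add_distrib]
      exact Finset.sum_congr rfl fun s _ => by ring
    rw [e1]
    exact (hB.sec _ _).2 ⟨s k, hs k hk, rfl⟩
  · have p1 := pr_mul t1 (pr_pow f1 t1 (pr k₁ a1 k₃ a3) x) (pr_pow f1 t1 (pr k₂ a2 k₄ a4) y)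
    have e1 : x * (k₃ + c) + y * (k₄ + c) = x * (k₁ + c) + y * (k₂ + c) := by
      simp only [mul_add]
      omega
    rw [e1] at p1
    exact pr_dom hB hD f0 (add_le_add (Nat.mul_le_mul_left x (h1 k₁ a1).1)
      (Nat.mul_le_mul_left y (h1 k₂ a2).1))
      (mul_ne_zero (pow_ne_zero x (sn k₃ a3)) (pow_ne_zero y (sn k₄ a4))) p1

end Pool.Agent.Lib.NV5
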