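import Pool.Agent.Lib.NV5.Blue

/-! Project NV5, row ONE: one-forms in the two languages. -/

open scoped Classical Topology ContDiff Manifold
open Set Filter

set_option linter.unusedVariables false

noncomputable section

namespace Pool.Agent.Lib.NV5

open Pool.Agent.Lib.SV (E)
open Pool.Agent.Lib.KP (HolAt)
open Pool.Agent.Lib.HS32 Pool.Agent.Lib.EX
open Pool.Agent.Lib.HS.BBR (mf Cp cp_trans)

namespace ONEb

variable {n : ℕ} {Y : Type} [TopologicalSpace Y]

theorem dif {e e' : OpenPartialHomeomorph Y (E n)} (h : Cp e e') {x : Y} (hx : x ∈ e.source)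
    (hx' : x ∈ e'.source) : DifferentiableAt ℂ (e ∘ e'.symm) (e' x) :=
  h.at (e'.map_source hx') (by rw [e'.left_inv hx']; exact hx)

theorem chain {e₁ e₂ e₃ : OpenPartialHomeomorph Y (E n)} (h₁ : Cp e₁ e₂) (h₂ : Cp e₂ e₃) {x : Y}
    (hx₁ : x ∈ e₁.source) (hx₂ : x ∈ e₂.source) (hx₃ : x ∈ e₃.source) :
    fderiv ℂ (e₁ ∘ e₃.symm) (e₃ x) =
      (fderiv ℂ (e₁ ∘ e₂.symm) (e₂ x)).comp (fderiv ℂ (e₂ ∘ e₃.symm) (e₃ x)) := by
  have hp : (e₂ ∘ e₃.symm) (e₃ x) = e₂ x := by
    show e₂ (e₃.symm (e₃ x)) = e₂ x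
    rw [e₃.left_inv hx₃]
  have h1 : DifferentiableAt ℂ (e₁ ∘ e₂.symm) ((e₂ ∘ e₃.symm) (e₃ x)) := by
    rw [hp]
    exact dif h₁ hx₁ hx₂
  have h2 := fderiv_comp (e₃ x) h1 (dif h₂ hx₂ hx₃)
  rw [hp] at h2
  rw [← h2]
  refine EventuallyEq.fderiv_eq ?_
  have hm : e₃ x ∈ e₃.target ∩ e₃.symm ⁻¹' e₂.source :=
    ⟨e₃.map_source hx₃, by
      show e₃.symm (e₃ x) ∈ e₂.source
      rw [e₃.left_inv hx₃]
      exact hx₂⟩
  filter_upwards [(e₃.isOpen_inter_preimage_symm e₂.open_source).mem_nhds hm] with w hw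
  show e₁ (e₃.symm w) = e₁ (e₂.symm (e₂ (e₃.symm w)))
  rw [e₂.left_inv hw.2]

theorem self {e : OpenPartialHomeomorph Y (E n)} {x : Y} (hx : x ∈ e.source) :
    fderiv ℂ (e ∘ e.symm) (e x) = ContinuousLinearMap.id ℂ (E n) := by
  rw [← fderiv_id (𝕜 := ℂ) (x := e x)]
  refine EventuallyEq.fderiv_eq ?_
  filter_upwards [e.open_target.mem_nhds (e.map_source hx)] with w hw
  exact e.right_inv hw

theorem expand (b : E n →L[ℂ] ℂ) (L : E n →L[ℂ] E n) :
    b.comp L = ∑ i, b (Pi.single i 1) • (ContinuousLinearMap.proj i).comp L := by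
  ext1 v
  rw [sum_apply]
  have h : L v = ∑ i, L v i • (Pi.single i 1 : E n) := by
    funext j
    rw [Finset.sum_apply, Finset.sum_eq_single j (fun i _ hi => by simp [Ne.symm hi]) (by simp)]
    simp
  show b (L v) = ∑ i, b (Pi.single i 1) * L v i
  conv_lhs => rw [h]
  rw [map_sum]
  exact Finset.sum_congr rfl fun i _ => by rw [map_smul, smul_eq_mul, mul_comm]

variable [ChartedSpace (E n) Y]

theorem main {A : Type} (e : A → OpenPartialHomeomorph Y (E n))
    (he : ∀ a x, Cp (e a) (chartAt (E n) x) ∧ Cp (chartAt (E n) x) (e a))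
    (hc : ∀ x, ∃ a, x ∈ (e a).source) (hN : NoForm n Y) (b : A → E n → E n →L[ℂ] ℂ)
    (hb : ∀ a, ∀ x ∈ (e a).source, DifferentiableAt ℂ (b a) (e a x))
    (hl : ∀ a d, ∀ x ∈ (e a).source, x ∈ (e d).source →
      b d (e d x) = (b a (e a x)).comp (fderiv ℂ (e a ∘ (e d).symm) (e d x)))
    (d : A) (x : Y) (hx : x ∈ (e d).source) : b d (e d x) = 0 := by
  choose σ hσ using hc
  have hs : ∀ x : Y, x ∈ (chartAt (E n) x).source := mem_chart_source (E n)
  have hee : ∀ a d, Cp (e a) (e d) := fun a d =>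
    cp_trans (fun x => (he a x).1) fun x => (he d x).2
  let α : Y → E n →L[ℂ] ℂ := fun x => (b (σ x) (e (σ x) x)).comp
    (fderiv ℂ (e (σ x) ∘ (chartAt (E n) x).symm) (chartAt (E n) x x))
  have hα : ∀ a, ∀ x ∈ (e a).source, α x = (b a (e a x)).comp
      (fderiv ℂ (e a ∘ (chartAt (E n) x).symm) (chartAt (E n) x x)) := by
    intro a x hx
    rw [chain (hee a (σ x)) (he (σ x) x).1 hx (hσ x) (hs x), ← ContinuousLinearMap.comp_assoc,
      ← hl a (σ x) x hx (hσ x)]
  have h0 : α = 0 := by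
    refine hN α fun y => ⟨fun i x => b (σ y) (e (σ y) x) (Pi.single i 1),
      fun i x => e (σ y) x i, ?_⟩
    filter_upwards [(e (σ y)).open_source.mem_nhds (hσ y)] with x hx
    have h1 := dif (he (σ y) x).1 hx (hs x)
    have hp : (e (σ y) ∘ (chartAt (E n) x).symm) (chartAt (E n) x x) = e (σ y) x := by
      show e (σ y) ((chartAt (E n) x).symm (chartAt (E n) x x)) = _
      rw [(chartAt (E n) x).left_inv (hs x)]
    have h2 : DifferentiableAt ℂ (b (σ y))
        ((e (σ y) ∘ (chartAt (E n) x).symm) (chartAt (E n) x x)) := by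
      rw [hp]
      exact hb _ x hx
    refine ⟨fun i => ⟨?_, ?_⟩, ?_⟩
    · unfold HolAt
      simp only [pow_zero, mul_one]
      exact (h2.comp _ h1).clm_apply (differentiableAt_const _)
    · unfold HolAt
      simp only [pow_zero, mul_one]
      exact differentiableAt_pi.1 h1 i
    · rw [hα _ x hx, expand]
      refine Finset.sum_congr rfl fun i _ => ?_
      congr 1
      exact ((ContinuousLinearMap.proj (R := ℂ) (φ := fun _ : Fin n => ℂ) i).hasFDerivAt.comp _
        h1.hasFDerivAt).fderiv.symm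
  have h1 : (b d (e d x)).comp
      (fderiv ℂ (e d ∘ (chartAt (E n) x).symm) (chartAt (E n) x x)) = 0 := by
    rw [← hα d x hx, h0]
    rfl
  have h2 := chain (he d x).1 (he d x).2 hx (hs x) hx
  rw [self hx] at h2
  rw [← (b d (e d x)).comp_id, h2, ← ContinuousLinearMap.comp_assoc, h1,
    ContinuousLinearMap.zero_comp]

end ONEb

theorem bONE : Sb_ONE := by
  intro n Y I tY cY _ _ _ D hN b hb hl d z hz
  have hc : ∀ x, ∃ a, x ∈ (D.e a).source := fun x => by
    by_contra h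
    have h1 := D.sum x
    rw [Finset.sum_eq_zero fun a _ => by
      by_contra h0
      exact h ⟨a, (D.supp a x h0).1⟩] at h1
    exact zero_ne_one h1
  have ht : ∀ a, ∀ x ∈ (D.e a).source, D.e a x ∈ B2 n := fun a x hx =>
    D.tgt a ▸ (D.e a).map_source hx
  have hz' : z ∈ (D.e d).target := by
    rw [D.tgt d]
    exact hz
  have h := @ONEb.main n Y tY cY D.A D.e (fun a x => D.mem a x) hc hN b
    (fun a x hx => (hb a _ (ht a x hx)).self_of_nhds) hl d _ ((D.e d).map_target hz')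
  exact (congrArg (b d) ((D.e d).right_inv hz')).symm.trans h

end Pool.Agent.Lib.NV5
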