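import Pool.Agent.Lib.NV5.Blue

/-! Project NV5: row Q0, regular one-forms. -/

open scoped Classical Topology ContDiff ENNReal Manifold
open Set Complex Metric Filter

noncomputable section

namespace Pool.Agent.Lib.NV5

open Pool.Agent.Lib.SV (E)
open Pool.Agent.Lib.HS32 Pool.Agent.Lib.EX Pool.Agent.Lib.EXS Pool.Agent.Lib.ZL Pool.Agent.Lib.NV2

namespace Q0b

variable {n : ℕ} {z : E n}

theorem hd {G : Type} [NormedAddCommGroup G] [NormedSpace ℂ G] [CompleteSpace G] {g : E n → G}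
    (h : HolN g z) : HolN (fderiv ℂ g) z :=
  h.eventually_nhds.mono fun w hw =>
    ((SV.H85.contDiffAt_nat hw 2).fderiv_right (m := 1) (by norm_num)).differentiableAt one_ne_zero

theorem hv {g : E n → ℂ} (h : HolN g z) (v : E n) : HolN (fun w => fderiv ℂ g w v) z :=
  (hd h).mono fun _ hw => hw.clm_apply (differentiableAt_const v)

theorem hm {f g : E n → ℂ} (hf : HolN f z) (hg : HolN g z) : HolN (fun w => f w * g w) z :=
  (hf.and hg).mono fun _ h => h.1.mul h.2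

theorem hs {f g : E n → ℂ} (hf : HolN f z) (hg : HolN g z) : HolN (fun w => f w - g w) z :=
  (hf.and hg).mono fun _ h => h.1.sub h.2

theorem ha {f g : E n → ℂ} (hf : HolN f z) (hg : HolN g z) : HolN (fun w => f w + g w) z :=
  (hf.and hg).mono fun _ h => h.1.add h.2

theorem hc (c : ℂ) : HolN (fun _ => c) z := .of_forall fun _ => differentiableAt_const c

theorem hp {f : E n → ℂ} (hf : HolN f z) (k : ℕ) : HolN (fun w => f w ^ k) z :=
  hf.mono fun _ h => h.pow k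

theorem pr {X b a : E n → ℂ} (hX : DifferentiableAt ℂ X z) (hb : DifferentiableAt ℂ b z)
    (h : ∀ᶠ w in 𝓝 z, X w * b w = a w) (v : E n) :
    X z * fderiv ℂ b z v + b z * fderiv ℂ X z v = fderiv ℂ a z v := by
  rw [← EventuallyEq.fderiv_eq (f₁ := fun w => X w * b w) h,
    (hX.hasFDerivAt.fun_mul hb.hasFDerivAt).fderiv]
  simp

theorem zp {u a : E n → ℂ} (hu : DifferentiableAt ℂ u z) (ha : DifferentiableAt ℂ a z)
    (h0 : u z ≠ 0) (k : ℤ) (v : E n) : u z * fderiv ℂ (fun w => u w ^ k * a w) z v =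
      u z ^ k * (u z * fderiv ℂ a z v + k * a z * fderiv ℂ u z v) := by
  have h1 := (hasDerivAt_zpow k (u z) (Or.inl h0)).comp_hasFDerivAt z hu.hasFDerivAt
  rw [(HasFDerivAt.fun_mul (c := fun w => u w ^ k) h1 ha.hasFDerivAt).fderiv]
  simp only [ContinuousLinearMap.add_apply, ContinuousLinearMap.smul_apply, smul_eq_mul,
    zpow_sub_one₀ h0]
  field_simp

theorem cancel {u G : E n → ℂ} (hG : HolN G z) (hu : ∀ᶠ y in 𝓝 z, ∃ᶠ y' in 𝓝 y, u y' ≠ 0)
    (h : ∀ᶠ y in 𝓝 z, u y * G y = 0) : ∀ᶠ y in 𝓝 z, G y = 0 := by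
  filter_upwards [hG, hu, h.eventually_nhds] with y h1 h2 h3
  exact tendsto_nhds_unique_of_frequently_eq h1.continuousAt tendsto_const_nhds
    ((h2.and_eventually h3).mono fun w hw => (mul_eq_zero.1 hw.2).resolve_left hw.1)

variable {M : Mf n} [M.Cpt] {ι : Type} [Fintype ι] [DecidableEq ι] {D : Ad M ι} {F : Type}
  [Field F] [Algebra ℂ F] {Φ : FM D F}

theorem sub (hF : Sb_FN) {d : D.A} (hz : z ∈ B2 n) (x : F) (a : ℂ) :
    ∀ᶠ y in Gn D d z, Φ.fn (x - algebraMap ℂ F a) d y = Φ.fn x d y - a := by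
  obtain ⟨-, -, f3, f4, -⟩ := (hF n M ι D F Φ).2.2.2 d z hz
  filter_upwards [f3 x (algebraMap ℂ F (-a)), f4 (-a)] with y h1 h2
  rw [sub_eq_add_neg, ← map_neg, h1.1, h2, sub_eq_add_neg]

/-- No pole along a germ. -/
theorem germ (hO : Sb_ORD) (hK : Sb_KIT) (hF : Sb_FN) (h : Hg D) {v : Valuation F Zm} {m : ι → ℤ}
    (hl : Φ.Vl h v m) {f x : F} (hf : f ≠ 0) (hx : x ∉ range (algebraMap ℂ F))
    (hq : (∃ a : ℂ, v (f * (x - algebraMap ℂ F a)) < 1) ∨ (v f ≤ 1 ∧ v x ≤ 1)) (e : E n) :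
    ∃ a b, HolN a h.z ∧ Nd h.u h.z b ∧ ∀ᶠ y in Gn D h.d h.z, h.u y ≠ 0 →
      Φ.fn f h.d y * fderiv ℂ (Φ.fn x h.d) y e * b y = a y := by
  obtain ⟨-, -, o3, -⟩ := hO n h.u h.z h.hy
  obtain ⟨-, -, -, -, -, -, -, -, -, -, -, -, k13, -⟩ := hK n M ι D
  obtain ⟨-, -, g3, -⟩ := k13 h.d h.z h.mem
  obtain ⟨-, -, f3, -, f5, -⟩ := (hF n M ι D F Φ).2.2.2 h.d h.z h.mem
  have le : Gn D h.d h.z ≤ 𝓝 h.z := inf_le_left
  rcases hq with ⟨c, hc'⟩ | ⟨h1, h2⟩
  · have hx0 : x - algebraMap ℂ F c ≠ 0 := fun k => hx ⟨c, (sub_eq_zero.1 k).symm⟩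
    have hg0 := mul_ne_zero hf hx0
    obtain ⟨a1, b1, ha1, hb1, e1⟩ := hl.ord _ hg0
    obtain ⟨a2, b2, ha2, hb2, e2⟩ := hl.ord _ hx0
    generalize -WithZero.log (v (x - algebraMap ℂ F c)) = k at e2
    obtain ⟨j, hj⟩ : ∃ j : ℕ, -WithZero.log (v (f * (x - algebraMap ℂ F c))) = (j + 1 : ℕ) := by
      have := (WithZero.log_lt_log (v.ne_zero_iff.2 hg0) one_ne_zero).2 hc'
      rw [WithZero.log_one] at this
      exact ⟨(-WithZero.log (v (f * (x - algebraMap ℂ F c))) - 1).toNat, by omega⟩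
    rw [hj] at e1
    refine ⟨fun y => h.u y ^ j * a1 y * (h.u y * fderiv ℂ a2 y e * b2 y +
      k * a2 y * fderiv ℂ h.u y e * b2 y - h.u y * a2 y * fderiv ℂ b2 y e), b1 * (a2 * b2),
      hm (hm (hp h.hy.1 j) ha1.1) (hs (ha (hm (hm h.hy.1 (hv ha2.1 e)) hb2.1)
        (hm (hm (hm (hc _) ha2.1) (hv h.hy.1 e)) hb2.1)) (hm (hm h.hy.1 ha2.1) (hv hb2.1 e))),
      o3 _ _ hb1 (o3 _ _ ha2 hb2), ?_⟩
    filter_upwards [e1, (g3 _ (e2.and (sub hF h.mem x c))).1, f3 f (x - algebraMap ℂ F c), f5 x,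
      le h.hy.1, le ha2.1, le hb2.1] with y y1 y2 y3 y4 y5 y6 y7 y0
    have dx := y4.1.self_of_nhds
    have p1 := pr (X := fun w => Φ.fn x h.d w - c) (a := fun w => h.u w ^ k * a2 w)
      (dx.sub_const c) y7 (by
        filter_upwards [y2, y5.continuousAt.eventually_ne y0] with w w1 w2
        rw [← w1.2, w1.1 w2]) e
    have p2 := zp y5 y6 y0 k e
    have p3 := y2.self_of_nhds.1 y0
    have p4 := y1 y0
    rw [y3.2.1, zpow_natCast, y2.self_of_nhds.2] at p4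
    rw [y2.self_of_nhds.2] at p3
    rw [fderiv_sub_const] at p1
    rw [← p1] at p2
    refine mul_left_cancel₀ y0 ?_
    simp only [Pi.mul_apply]
    generalize h.u y ^ k = U at p2 p3
    linear_combination (Φ.fn f h.d y * b1 y * a2 y) * p2 -
      Φ.fn f h.d y * b1 y * (h.u y * fderiv ℂ a2 y e + k * a2 y * fderiv ℂ h.u y e) * p3 +
      (h.u y * fderiv ℂ a2 y e * b2 y + k * a2 y * fderiv ℂ h.u y e * b2 y -
        h.u y * a2 y * fderiv ℂ b2 y e) * p4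
  · obtain ⟨a1, b1, ha1, hb1, e1⟩ := (hl.reg 0 f).1 (by simpa using h1)
    obtain ⟨a2, b2, ha2, hb2, e2⟩ := (hl.reg 0 x).1 (by simpa using h2)
    simp only [xm, Pi.zero_apply, zpow_zero, Finset.prod_const_one, mul_one] at e1 e2
    refine ⟨fun y => a1 y * (fderiv ℂ a2 y e * b2 y - a2 y * fderiv ℂ b2 y e), b1 * (b2 * b2),
      hm ha1 (hs (hm (hv ha2 e) hb2.1) (hm ha2 (hv hb2.1 e))), o3 _ _ hb1 (o3 _ _ hb2 hb2), ?_⟩
    filter_upwards [e1, (g3 _ e2).1, f5 x, le hb2.1] with y y1 y2 y3 y4 _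
    have p1 := pr y3.1.self_of_nhds y4 y2 e
    have p2 := y2.self_of_nhds
    simp only [Pi.mul_apply]
    linear_combination (Φ.fn f h.d y * b1 y * b2 y) * p1 -
      Φ.fn f h.d y * b1 y * fderiv ℂ b2 y e * p2 +
      (fderiv ℂ a2 y e * b2 y - a2 y * fderiv ℂ b2 y e) * y1

/-- The coefficients are holomorphic. -/
theorem coef (hO : Sb_ORD) (hH : Sb_HT) (hK : Sb_KIT) (hF : Sb_FN) {f x : F} (e : E n)
    (hg : ∀ h : Hg D, ∃ a b, HolN a h.z ∧ Nd h.u h.z b ∧ ∀ᶠ y in Gn D h.d h.z, h.u y ≠ 0 →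
      Φ.fn f h.d y * fderiv ℂ (Φ.fn x h.d) y e * b y = a y) {d : D.A} (hz : z ∈ B2 n) :
    ∃ g, HolN g z ∧ ∀ᶠ y in Gn D d z, g y = Φ.fn f d y * fderiv ℂ (Φ.fn x d) y e := by
  obtain ⟨-, -, -, -, -, -, -, -, -, -, -, -, k13, -⟩ := hK n M ι D
  obtain ⟨g1, -, g3, -⟩ := k13 d z hz
  obtain ⟨-, -, -, -, f5, -, f7⟩ := (hF n M ι D F Φ).2.2.2 d z hz
  obtain ⟨p1, q1, hp1, hq1, -, e1⟩ := f7 f
  obtain ⟨p2, q2, hp2, hq2, -, e2⟩ := f7 x
  have le : Gn D d z ≤ 𝓝 z := inf_le_left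
  have hP := hm hp1 (hs (hm (hv hp2 e) hq2) (hm hp2 (hv hq2 e)))
  have hQ := hm hq1 (hm hq2 hq2)
  have key : ∀ᶠ y in Gn D d z, q1 y * (q2 y * q2 y) ≠ 0 ∧
      Φ.fn f d y * fderiv ℂ (Φ.fn x d) y e * (q1 y * (q2 y * q2 y)) =
        p1 y * (fderiv ℂ p2 y e * q2 y - p2 y * fderiv ℂ q2 y e) := by
    filter_upwards [e1, (g3 _ e2).1, f5 x, le hq2] with y y1 y2 y3 y4
    have r1 := pr y3.1.self_of_nhds y4 (y2.mono fun _ h => h.2) e
    have r2 := y2.self_of_nhds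
    refine ⟨mul_ne_zero y1.1 (mul_ne_zero r2.1 r2.1), ?_⟩
    linear_combination (Φ.fn f d y * q1 y * q2 y) * r1 -
      Φ.fn f d y * q1 y * fderiv ℂ q2 y e * r2.2 +
      (fderiv ℂ p2 y e * q2 y - p2 y * fderiv ℂ q2 y e) * y1.2
  obtain ⟨g, hg1, hg2⟩ := hH n _ _ z hP hQ ((key.mono fun _ h => h.1).frequently.filter_mono le) (by
    filter_upwards [(g3 _ key).2, hP.eventually_nhds, hQ.eventually_nhds,
      isOpen_ball.eventually_mem hz] with y y1 y2 y3 y4 u hu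
    obtain ⟨a, b, a1, b1, e3⟩ := hg ⟨d, y, u, y4, hu⟩
    obtain ⟨-, -, -, -, -, o6, -⟩ := hO n u y hu
    have hG := hs (hm y2 b1.1) (hm a1 y3)
    refine ⟨a, b, a1, b1, (cancel hG o6 ((k13 d y y4).2.2.2.2 _ _ (hm hu.1 hG) (hc 0) ?_)).mono
      fun w hw => sub_eq_zero.1 hw⟩
    filter_upwards [y1, e3] with w w1 w2
    by_cases h0 : u w = 0
    · rw [h0, zero_mul]
    · have w3 : Φ.fn f d w * fderiv ℂ (Φ.fn x d) w e * b w = a w := w2 h0
      rw [← w1.2, ← w3]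
      ring)
  refine ⟨g, hg1, ?_⟩
  filter_upwards [key, le hg2] with y y1 y2
  exact mul_right_cancel₀ y1.1 (y2.symm.trans y1.2.symm)

end Q0b

open Q0b in
theorem bQ0 (hO : Sb_ORD) (hH : Sb_HT) (hK : Sb_KIT) (hF : Sb_FN) : Sb_Q0 := by
  intro n M _ ι _ _ D F _ _ Φ V m π hB hN f x hq
  by_contra hne
  obtain ⟨hf, hx⟩ := not_or.1 hne
  obtain ⟨-, -, -, -, -, -, k7, -, -, -, -, k12, k13, -⟩ := hK n M ι D
  let φ : D.A → E n → E n →L[ℂ] ℂ := fun d y => Φ.fn f d y • fderiv ℂ (Φ.fn x d) y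
  let b : D.A → E n → E n →L[ℂ] ℂ := fun d z => limUnder (Gn D d z) (φ d)
  have hb : D.All fun d z => HolN (b d) z ∧ ∀ᶠ y in Gn D d z, b d y = φ d y := fun d z hz => by
    choose g g1 g2 using fun j : Fin n => coef hO hH hK hF (Pi.single j 1)
      (fun h => germ hO hK hF h (hB.vl h) hf hx (hq _) _) (d := d) hz
    let G : E n → E n →L[ℂ] ℂ := fun y => ∑ j, g j y • ContinuousLinearMap.proj j
    have G1 : HolN G z := (eventually_all.2 g1).mono fun w hw =>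
      DifferentiableAt.fun_sum fun j _ => (hw j).smul_const _
    have G2 : ∀ᶠ y in Gn D d z, G y = φ d y := (eventually_all.2 g2).mono fun y hy => by
      refine ContinuousLinearMap.ext fun w => ?_
      have e : fderiv ℂ (Φ.fn x d) y w = ∑ j, fderiv ℂ (Φ.fn x d) y (Pi.single j 1) * w j := by
        conv_lhs => rw [← Finset.univ_sum_single w, map_sum]
        refine Finset.sum_congr rfl fun j _ => ?_
        rw [mul_comm, ← smul_eq_mul, ← map_smul, ← Pi.single_smul, smul_eq_mul, mul_one]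
      simp only [G, φ, ContinuousLinearMap.sum_apply, ContinuousLinearMap.smul_apply,
        ContinuousLinearMap.proj_apply, smul_eq_mul, hy, e, Finset.mul_sum, mul_assoc]
    have G3 : ∀ᶠ y in 𝓝 z, b d y = G y := by
      filter_upwards [((k13 d z hz).2.2.1 _ G2).2, G1, isOpen_ball.eventually_mem hz]
        with y y1 y2 y3
      have := (k13 d y y3).1
      exact Tendsto.limUnder_eq ((y2.continuousAt.tendsto.mono_left inf_le_left).congr' y1)
    refine ⟨(G3.eventually_nhds.and G1).mono fun w hw => hw.2.congr_of_eventuallyEq hw.1, ?_⟩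
    filter_upwards [G2, (inf_le_left : Gn D d z ≤ 𝓝 z) G3] with y y1 y2
    exact Eq.trans y2 y1
  have h0 := hN b (fun d z hz => (hb d z hz).1) fun a d p ha hd' => by
    have hz := GLU.mem_B2 hd'
    have hz' := GLU.mem_B2 ha
    set z := D.e d p with hzd
    set τ : E n → E n := D.e a ∘ (D.e d).symm with hτ
    have τz : τ z = D.e a p := by simp only [hτ, hzd, Function.comp, (D.e d).left_inv hd']
    have ev := GLU.ev_on (d := d) (D.e a).open_source hz (by rwa [hzd, (D.e d).left_inv hd'])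
    have τh : HolN τ z := by
      filter_upwards [ev.eventually_nhds] with w hw
      exact (M.hol _ (D.mem a) _ (D.mem d) w ⟨GLU.mem_tgt d hw.self_of_nhds.1,
        hw.self_of_nhds.2⟩).differentiableAt (hw.mono fun y hy => ⟨GLU.mem_tgt d hy.1, hy.2⟩)
    have rd : ∀ᶠ w in 𝓝 z, ∀ t : M.X → ℂ, D.rd t a (τ w) = D.rd t d w :=
      ev.mono fun w hw t => GLU.rd_e t hw.2
    have fn : ∀ᶠ w in 𝓝 z, ∀ g : F, Φ.fn g a (τ w) = Φ.fn g d w :=
      rd.mono fun w hw g => by simp only [FM.fn, hw]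
    have tτ : Tendsto τ (𝓝 z) (𝓝 (D.e a p)) := τz ▸ τh.self_of_nhds.continuousAt.tendsto
    have tg : Tendsto τ (Gn D d z) (Gn D a (D.e a p)) := fun s hs => by
      obtain ⟨t, t1, t2, t3⟩ := (k12 a _ hz' (· ∈ s)).1 hs
      refine (k12 d z hz fun w => τ w ∈ s).2 ⟨t, t1, t2, ?_⟩
      filter_upwards [tτ.eventually t3, rd] with w w1 w2 w3
      exact w1 (by rwa [w2])
    have le : Gn D d z ≤ 𝓝 z := inf_le_left
    have := (k13 d z hz).1
    have c0 : ContinuousAt (b a) (τ z) := τz ▸ (hb a _ hz').1.self_of_nhds.continuousAt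
    have c1 : ContinuousAt (fun w => (b a (τ w)).comp (fderiv ℂ τ w)) z :=
      ContinuousAt.clm_comp (ContinuousAt.comp (g := b a) c0 τh.self_of_nhds.continuousAt)
        (hd τh).self_of_nhds.continuousAt
    change b d z = (b a (D.e a p)).comp (fderiv ℂ τ z)
    rw [← τz]
    refine tendsto_nhds_unique_of_eventuallyEq
      ((hb d z hz).1.self_of_nhds.continuousAt.tendsto.mono_left le) (c1.tendsto.mono_left le) ?_
    filter_upwards [(hb d z hz).2, tg.eventually (hb a _ hz').2, le fn.eventually_nhds, le τh,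
      tg.eventually (((hF n M ι D F Φ).2.2.2 a _ hz').2.2.2.2.1 x)] with w w1 w2 w3 w4 w5
    rw [w1, w2]
    simp only [φ]
    rw [ContinuousLinearMap.smul_comp, ← fderiv_comp w w5.1.self_of_nhds w4,
      (Eventually.self_of_nhds w3) f, EventuallyEq.fderiv_eq (f₁ := Φ.fn x a ∘ τ)
        (Eventually.mono w3 fun y hy => hy x)]
  obtain ⟨p, -⟩ := Function.ne_iff.1 k7
  obtain ⟨d, hd'⟩ := GLU.ex_ch D p
  have hz := GLU.mem_B2 hd'
  obtain ⟨g1, g2, g3, -⟩ := k13 d _ hz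
  have f5 := ((hF n M ι D F Φ).2.2.2 d _ hz).2.2.2.2.1
  have z0 : ∀ᶠ y in Gn D d (D.e d p), y ∈ B2 n ∧ DifferentiableAt ℂ (Φ.fn x d) y ∧
      fderiv ℂ (Φ.fn x d) y = 0 := by
    filter_upwards [g2, (hb d _ hz).2, f5 f, f5 x] with y y1 y2 y3 y4
    rw [h0 d y y1.1] at y2
    exact ⟨y1.1, y4.1.self_of_nhds, (smul_eq_zero.1 y2.symm).resolve_left (y3.2 hf)⟩
  obtain ⟨y, hy⟩ := (g3 _ z0).1.exists
  obtain ⟨r, hr, hy'⟩ := Metric.eventually_nhds_iff_ball.1 hy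
  obtain ⟨c, hc'⟩ := isOpen_ball.exists_is_const_of_fderiv_eq_zero (𝕜 := ℂ)
    (convex_ball y r).isPreconnected (fun w hw => (hy' w hw).2.1.differentiableWithinAt)
    fun w hw => (hy' w hw).2.2
  have hy2 := hy.self_of_nhds.1
  have := (k13 d y hy2).1
  obtain ⟨w, w1, w2, w3⟩ := ((sub (Φ := Φ) (d := d) hF hy2 x c).and
    ((((hF n M ι D F Φ).2.2.2 d y hy2).2.2.2.2.1 (x - algebraMap ℂ F c)).and
      ((inf_le_left : Gn D d y ≤ 𝓝 y) (ball_mem_nhds y hr)))).exists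
  exact w2.2 (fun k => hx ⟨c, (sub_eq_zero.1 k).symm⟩) (by rw [w1, hc' w w3, sub_self])

end Pool.Agent.Lib.NV5
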