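import Pool.Agent.Lib.ZL.Blue2
import Pool.Agent.Lib.RAA.Tools

/-! Project NV5, block DOM: the canonical class dominates a pencil of tensors. Blueprint. -/

open scoped Classical Topology ContDiff ENNReal ComplexOrder Matrix
open Set MeasureTheory Complex Metric Filter

set_option linter.unusedVariables false

noncomputable section

namespace Pool.Agent.Lib.DM

open Pool.Agent.Lib.SV (E nsq)
open Pool.Agent.Lib.HS32 Pool.Agent.Lib.EX Pool.Agent.Lib.EXS Pool.Agent.Lib.ZL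
open Pool.Agent.Lib.EXS.K32 (lv)
open Pool.Agent.Lib.RAA (hq kp hl)

section defs

variable {n : ℕ}

/-- A matrix of rank at most one. -/
def r1 (a : E n) : Mat n := Matrix.vecMulVec (star a) a

/-- The trace of `S` with respect to `T`. -/
def trm (T S : Mat n) : ℝ := (T⁻¹ * S).trace.re

/-- The squared norm of a contravariant tensor with values in a power of the canonical bundle. -/
def uv (N B : ℕ) (T : E n → Mat n) (s : E n → (Fin N → Fin n) → ℂ) (z : E n) : ℝ :=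
  hq (kp N (T z)) (s z) / (T z).det.re ^ B

variable (M : Mf n)

/-- The Laplacian of the logarithm. -/
def ll (G : M.Fam (Mat n)) (V : M.X → ℝ) (x : M.X) : ℝ :=
  (V x * M.lap G V x - M.gr G V V x) / V x ^ 2

/-- The trace of the form of the pencil. -/
def bb (G : M.Fam (Mat n)) (V W : M.X → ℝ) (s : ℝ) (x : M.X) : ℝ :=
  ll M G (fun y => V y + s * W y) x - ll M G V x

/-- The barrier. -/
def bar {Y : Type} (V W : Y → ℝ) (δ s η : ℝ) (x : Y) : ℝ :=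
  δ * (Real.log (V x + s * W x) - Real.log (V x + W x)) - η * Real.log (V x)

/-- The squared norms of two proportional tensors. -/
structure Pr (G : M.Fam (Mat n)) (l C : ℝ) (V W : M.X → ℝ) : Prop where
  sV : M.Sm V
  sW : M.Sm W
  nV : ∀ x, 0 ≤ V x
  nW : ∀ x, 0 ≤ W x
  nul : M.mu G {x | V x = 0} = 0
  loc : ∀ x, V x ≠ 0 → ∃ e ∈ M.C, x ∈ e.source ∧ ∃ g : E n → ℂ, HolN g (e x) ∧
    (∀ᶠ z in 𝓝 (e x), W (e.symm z) = V (e.symm z) * normSq (g z)) ∧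
    (C • G e (e x) + hl (V ∘ e.symm) (e x)).PosSemidef ∧
    -l ≤ trm (G e (e x)) (hl (V ∘ e.symm) (e x))

variable {M} {ι : Type} [Fintype ι] [DecidableEq ι] (D : Ad M ι)

/-- A contravariant tensor of order `N` with poles at most `Q`. -/
structure Tn (N : ℕ) (Q : ι → ℤ) (b : D.A → (Fin N → Fin n) → E n → ℂ) : Prop where
  pol : D.All fun d z => ∀ I, PolH (D.c d) Q (b d I) z
  law : D.Ov fun a d x => x ∈ off D → ∀ I,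
    b a I (D.e a x) = ∑ I' : Fin N → Fin n, (∏ p, D.J a d x (I p) (I' p)) * b d I' (D.e d x)

/-- A holomorphic contravariant tensor with values in the power `B` of the canonical bundle. -/
structure Hs (N B : ℕ) (s : D.A → E n → (Fin N → Fin n) → ℂ) : Prop where
  hol : D.All fun d z => HolN (s d) z
  law : D.Ov fun a d x =>
    (D.J a d x).det ^ B • s a (D.e a x) = kp N (D.J a d x) *ᵥ s d (D.e d x)

/-- A holomorphic function on an open set that contains the complement of a hypersurface. -/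
structure Rat (O : Set M.X) (g : M.X → ℂ) : Prop where
  op : IsOpen O
  hol : D.On O fun d z => HolN (D.rd g d) z
  eqn : ∀ d, ∃ q : E n → ℂ, DifferentiableOn ℂ q (B2 n) ∧
    ∀ z ∈ B2 n, ¬ q =ᶠ[𝓝 z] 0 ∧ (q z ≠ 0 → (D.e d).symm z ∈ O)

/-- The numerators `w` and the orders `l` define a meromorphic form of top degree. -/
def Can (l : ι → ℤ) (w : D.A → E n → ℂ) : Prop :=
  D.Ov fun b d x => w d (D.e d x) = w b (D.e b x) * D.um l b d x * (D.J b d x).det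

variable {D}

/-- The metric of the ample divisor. -/
def Fs (A : Am D) (H : M.Fam (Mat n)) : Prop := M.Kae H ∧
  D.All fun d z => H (D.e d) z = hess (fun y => (Real.log (nsq (A.t d y)) : ℝ)) z

/-- A weight `φ` for the poles `Q` whose singular part `u` is integrable near `z₀`. -/
structure Wu (Q : ι → ℤ) (d : D.A) (z₀ : E n) (r A C : ℝ) (φ u : M.X → ℝ) : Prop where
  psh : Psh D φ
  sm : SmO D u
  bd : ∀ x ∈ off D, |φ x - u x + lw D (fun i => Q i) x| ≤ C ∧ u x ≤ 0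
  int : ∫⁻ z in ball z₀ (2 * r), ENNReal.ofReal (Real.exp (-D.rd u d z)) ≤ ENNReal.ofReal A

end defs

/-! ### Rows without manifolds -/

/-- The determinant below a perturbation of rank one. -/
def St_DET : Prop := ∀ (n : ℕ) (G T : Mat n) (a : E n) (δ : ℝ), G.PosDef → T.PosDef → 0 ≤ δ →
  ((2 : ℝ) • G + δ • r1 a - T).PosSemidef →
  0 ≤ trm G (r1 a) ∧ (T.det / G.det).re ≤ 2 ^ n * (1 + δ * trm G (r1 a))

/-- The Hessian of a logarithm. -/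
def St_LOG : Prop := ∀ (n : ℕ) (V W : E n → ℝ) (z : E n), ContDiffAt ℝ ∞ V z → 0 < V z →
  hl V z = (V z)⁻¹ • hess (fun w => (V w : ℂ)) z -
    (V z ^ 2)⁻¹ • dd (fun w => (V w : ℂ)) (fun w => (V w : ℂ)) z ∧
  ∀ (g : E n → ℂ) (s : ℝ), HolN g z → 0 ≤ s → (∀ᶠ w in 𝓝 z, W w = V w * normSq (g w)) →
    ∃ a, hl (fun w => V w + s * W w) z = hl V z + r1 a

/-- The curvature of the norm of a tensor. -/
def St_CRV : Prop := ∀ n N B : ℕ,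
  (∀ (T : E n → Mat n) (s : E n → (Fin N → Fin n) → ℂ) (z : E n),
    (∀ᶠ w in 𝓝 z, SmM T w ∧ (T w).PosDef) → HolN s z →
    ContDiffAt ℝ ∞ (uv N B T s) z ∧ 0 ≤ uv N B T s z ∧ (uv N B T s z = 0 ↔ s z = 0) ∧
    (N ≤ B → (∀ᶠ w in 𝓝 z, ClM T w) → (T z - hess (ld T) z).PosSemidef → s z ≠ 0 →
      -(B * n : ℝ) ≤ trm (T z) (hl (uv N B T s) z))) ∧
  ∀ (M : Mf n) [M.Cpt] (G : M.Fam (Mat n)), M.Met G → ∃ C : ℝ, 0 < C ∧ M.All fun e z =>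
    ∀ s : E n → (Fin N → Fin n) → ℂ, HolN s z → s z ≠ 0 →
      (C • G e z + hl (uv N B (G e) s) z).PosSemidef

/-- Exponential integrability near a maximum. -/
def St_SKO : Prop := ∀ (n : ℕ) (J C : ℝ), 0 ≤ J → 0 ≤ C → ∃ r A : ℝ, 0 < r ∧ r ≤ 1 / 8 ∧
  ∀ (w : E n → ℝ) (z₀ z₁ : E n), (∀ z ∈ closedBall z₀ (1 / 2), ContDiffAt ℝ ∞ w z ∧ w z ≤ 0 ∧
    ∀ v, -(C * ‖v‖ ^ 2) ≤ lv w z v) → ‖z₁ - z₀‖ ≤ r → w z₁ = 0 →
    ∫⁻ z in ball z₀ (2 * r), ENNReal.ofReal (Real.exp (-(J * w z))) ≤ ENNReal.ofReal A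

/-- The volume argument. -/
def St_VOL : Prop := ∀ (Y : Type) [MeasurableSpace Y] (μ : Measure Y) [IsFiniteMeasure μ]
  (q : Y → ℝ) (K : ℝ), μ ≠ 0 → AEMeasurable q μ → 0 ≤ K → ∃ L t₀ : ℝ,
  ∀ (u Ψ b F : Y → ℝ) (δ t : ℝ), t₀ ≤ t → AEMeasurable b μ →
    (∀ᵐ x ∂μ, 0 ≤ δ * b x ∧ u x ≤ Ψ x ∧ -q x ≤ Ψ x ∧
      F x ≤ Real.exp (t * u x) * (Real.exp (-(t * Ψ x)) * (K * (1 + δ * b x)) + 1 / 8)) →
    ∫⁻ x, ENNReal.ofReal (K * (δ * b x)) ∂μ ≤ μ univ / 4 →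
    μ univ ≤ ∫⁻ x, ENNReal.ofReal (F x) ∂μ → ∃ x, -L ≤ u x

/-- The limit in a space of finite dimension. -/
def St_LIM : Prop := ∀ (Y : Type) [MeasurableSpace Y] (μ : Measure Y) (S : Submodule ℂ (Y → ℂ))
  (w h : Y → ℝ) (a : ℕ → Y → ℝ) (F : ℕ → Y → ℂ) (b B : ℝ), FiniteDimensional ℂ S → 0 < b →
  AEMeasurable w μ → (∀ x, 0 ≤ w x) → (∀ k, AEMeasurable (a k) μ) →
  (∀ f ∈ S, AEMeasurable f μ ∧ ∫⁻ x, ENNReal.ofReal (normSq (f x) * w x) ∂μ ≠ ⊤ ∧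
    (∫⁻ x, ENNReal.ofReal (normSq (f x) * w x) ∂μ = 0 → f = 0)) →
  (∀ᵐ x ∂μ, (∀ k, 1 ≤ a k x) ∧ ∃ c : ℕ → ℝ, Tendsto c atTop (𝓝 (h x)) ∧ ∀ k, c k ≤ a k x) →
  (∀ k, F k ∈ S ∧ ENNReal.ofReal b ≤ ∫⁻ x, ENNReal.ofReal (normSq (F k x) * w x) ∂μ ∧
    ∫⁻ x, ENNReal.ofReal (normSq (F k x) * w x * a k x) ∂μ ≤ ENNReal.ofReal B) →
  ∃ f ∈ S, f ≠ 0 ∧ ∫⁻ x, ENNReal.ofReal (normSq (f x) * w x * h x) ∂μ ≠ ⊤

/-! ### The Monge-Ampère step -/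

/-- The pointwise properties of a pair. -/
def St_PRK : Prop := ∀ (n : ℕ) (M : Mf n) (G : M.Fam (Mat n)) (l C : ℝ) (V W : M.X → ℝ),
  M.Met G → Pr M G l C V W → ∀ x, V x ≠ 0 → ∀ s, 0 ≤ s → -l ≤ ll M G V x ∧ 0 ≤ bb M G V W s x ∧
    ∀ δ η : ℝ, 0 ≤ δ → 0 ≤ η → η * C ≤ 1 → ∃ e ∈ M.C, x ∈ e.source ∧ ∀ T : Mat n, T.PosDef →
      (G e (e x) + M.hs (bar V W δ s η) e (e x) - T).PosSemidef →
      (T.det / (G e (e x)).det).re ≤ 2 ^ n * (1 + δ * bb M G V W s x)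

/-- The slope inequality. -/
def St_SLP : Prop := ∀ (n : ℕ) (M : Mf n) [M.Cpt] (G : M.Fam (Mat n)) (l : ℝ) (U V : M.X → ℝ),
  M.Kae G → 0 ≤ l → M.Sm U → M.Sm V → (∀ x, 0 ≤ V x ∧ V x ≤ U x) → M.mu G {x | V x = 0} = 0 →
  (∀ x, V x ≠ 0 → -l ≤ ll M G V x ∧ ll M G V x ≤ ll M G U x) →
  AEMeasurable (fun x => ll M G U x - ll M G V x) (M.mu G) ∧
  ∫⁻ x, ENNReal.ofReal (ll M G U x - ll M G V x) ∂M.mu G ≤ ENNReal.ofReal l * M.mu G univ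

/-- The maximum principle. -/
def St_MAX : Prop := ∀ (n : ℕ) (M : Mf n) [M.Cpt] (G : M.Fam (Mat n)) (V Ψ f : M.X → ℝ) (t ζ : ℝ),
  0 < n → M.Kae G → 0 < t → 0 < ζ → Continuous V → (∀ x, 0 ≤ V x) →
  (M.All fun e z => V (e.symm z) ≠ 0 →
    ContDiffAt ℝ ∞ (Ψ ∘ e.symm) z ∧ ContDiffAt ℝ ∞ (f ∘ e.symm) z) →
  (∀ x, V x ≠ 0 → 0 < f x ∧ ∃ e ∈ M.C, x ∈ e.source ∧ ∀ T : Mat n, T.PosDef →
    (G e (e x) + M.hs Ψ e (e x) - T).PosSemidef → (T.det / (G e (e x)).det).re ≤ f x) →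
  (∀ R : ℝ, ∃ κ > (0 : ℝ), ∀ x, V x ≠ 0 → V x ≤ κ → R ≤ Ψ x) →
  (∃ κ > (0 : ℝ), ∀ x, V x ≠ 0 → V x ≤ κ → Real.exp (-(t * Ψ x)) * f x ≤ ζ) →
  ∃ u, M.Sm u ∧ M.Kae (G + M.hs u) ∧ ∀ x, V x ≠ 0 → u x ≤ Ψ x ∧
    M.dq G (G + M.hs u) x ≤ Real.exp (t * u x) * (Real.exp (-(t * Ψ x)) * f x + ζ)

/-- The potentials. -/
def St_MV : Prop := ∀ (n : ℕ) (M : Mf n) [M.Cpt] (G : M.Fam (Mat n)) (l C δ : ℝ) (V W : M.X → ℝ),
  0 < n → M.Kae G → Pr M G l C V W → 0 ≤ l → 0 ≤ δ → 2 ^ (n + 2) * δ * l ≤ 1 → ∃ L : ℝ,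
  ∀ s ∈ Ioc (0 : ℝ) 1, ∀ η ∈ Ioc (0 : ℝ) 1, η * C ≤ 1 → ∃ u, M.Sm u ∧ M.Kae (G + M.hs u) ∧
    (∀ x, u x ≤ 0) ∧ (∃ x, u x = 0) ∧ ∀ x, V x ≠ 0 → u x ≤ bar V W δ s η x + L

/-! ### Tensors -/

/-- The holomorphic representative. -/
def St_REP : Prop := ∀ (n : ℕ) (M : Mf n) [M.Cpt] (ι : Type) [Fintype ι] [DecidableEq ι]
  (D : Ad M ι) (X : Cx D) (N B : ℕ) (b : D.A → (Fin N → Fin n) → E n → ℂ), Can D X.l X.w →
  Tn D N (fun i => B * X.l i) b → ∃ s, Hs D N B s ∧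
    OA D fun d z => ∀ I, s d z I = (X.w d z * xm (D.c d) X.l z) ^ B * b d I z

/-- The quotient of two proportional tensors. -/
def St_RAT : Prop := ∀ (n : ℕ) (M : Mf n) [M.Cpt] (ι : Type) [Fintype ι] [DecidableEq ι]
  (D : Ad M ι) (N B : ℕ) (s₁ s₂ : D.A → E n → (Fin N → Fin n) → ℂ), Hs D N B s₁ → Hs D N B s₂ →
  (∃ d, ∃ z ∈ B2 n, s₂ d z ≠ 0) →
  (OA D fun d z => ∀ I I', s₁ d z I * s₂ d z I' = s₁ d z I' * s₂ d z I) →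
  ∃ O g, Rat D O g ∧ D.All fun d z => ((D.e d).symm z ∈ O ↔ s₂ d z ≠ 0) ∧
    (s₂ d z ≠ 0 → s₁ d z = D.rd g d z • s₂ d z)

/-- The complement of the domain is negligible. -/
def St_NUL : Prop := ∀ (n : ℕ) (M : Mf n) [M.Cpt] (ι : Type) [Fintype ι] [DecidableEq ι]
  (D : Ad M ι) (X : Cx D) (O : Set M.X) (g : M.X → ℂ), Rat D O g → (∀ᵐ x ∂X.μ, x ∈ O) ∧
  (∀ G, M.Met G → M.mu G Oᶜ = 0) ∧ AEMeasurable g X.μ ∧
  D.All fun d z => ∃ᶠ y in 𝓝 z, Off (D.c d) y ∧ (D.e d).symm y ∈ O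

/-- The norm is a function on the manifold. -/
def St_NRM : Prop := ∀ (n : ℕ) (M : Mf n) [M.Cpt] (ι : Type) [Fintype ι] [DecidableEq ι]
  (D : Ad M ι) (N B : ℕ) (s : D.A → E n → (Fin N → Fin n) → ℂ) (G : M.Fam (Mat n)), M.Met G →
  Hs D N B s → ∃ V, M.Sm V ∧ D.All fun d z => D.rd V d z = uv N B (G (D.e d)) (s d) z

/-- The pair of norms. -/
def St_PAI : Prop := ∀ (n : ℕ) (M : Mf n) [M.Cpt] (ι : Type) [Fintype ι] [DecidableEq ι]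
  (D : Ad M ι) (X : Cx D) (N B : ℕ) (s₁ s₂ : D.A → E n → (Fin N → Fin n) → ℂ) (O : Set M.X)
  (g : M.X → ℂ) (G : M.Fam (Mat n)), N ≤ B → Hs D N B s₁ → Hs D N B s₂ → Rat D O g →
  (D.All fun d z => ((D.e d).symm z ∈ O ↔ s₂ d z ≠ 0) ∧
    (s₂ d z ≠ 0 → s₁ d z = D.rd g d z • s₂ d z)) → M.Kae G → M.Le 0 (G + M.ric G) →
  ∃ V W C, 0 < C ∧ Pr M G (B * n) C V W ∧ (∀ x, V x ≠ 0 ↔ x ∈ O) ∧
    ∀ x ∈ O, W x = V x * normSq (g x)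

/-! ### Metrics -/

/-- The metric of the ample divisor exists. -/
def St_KAH : Prop := ∀ (n : ℕ) (M : Mf n) [M.Cpt] (ι : Type) [Fintype ι] [DecidableEq ι]
  (D : Ad M ι) (A : Am D), ∃ H, Fs A H

/-- The canonical class is nef on the manifold layer. -/
def St_NEF : Prop := ∀ (n : ℕ) (M : Mf n) [M.Cpt] (ι : Type) [Fintype ι] [DecidableEq ι]
  (D : Ad M ι) (X : Cx D) (A : Am D) (H : M.Fam (Mat n)) (c : ℕ), Can D X.l X.w → Fs A H →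
  (∀ j : ℕ, Gens D fun i => j * X.l i + c * A.e i) →
  ∀ ε > (0 : ℝ), ∃ w, M.Sm w ∧ M.All fun e z => (M.gE H ε w e z).PosDef

/-- The weights on the multiples of the canonical class. -/
def St_RHO : Prop := ∀ (n : ℕ) (M : Mf n) [M.Cpt] (ι : Type) [Fintype ι] [DecidableEq ι]
  (D : Ad M ι) (X : Cx D) (A : Am D) (H : M.Fam (Mat n)) (J : ℕ) (v : M.X → ℝ), Can D X.l X.w →
  Fs A H → X.e = A.e → (∀ x ∈ off D, X.α x = Real.log (nsq (A.τ x))) → 0 < J → M.Sm v →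
  M.Met (M.gE H (1 / J) v) → ∃ (ρ : M.X → ℝ) (C : ℝ), 0 ≤ C ∧
    (∀ x ∈ off D, |ρ x + lw D (fun i => (J * X.l i + X.e i : ℤ)) x| ≤ C) ∧
    ∀ u, M.Sm u → M.Met (M.gE H (1 / J) v + M.hs u) → Psh D (fun x => ρ x + J * u x) ∧
      SmO D (fun x => J * u x) ∧ D.All fun d z => ContDiffAt ℝ ∞ (D.rd u d) z ∧
        (‖z‖ ≤ 3 / 2 → ∀ y, -(C * ‖y‖ ^ 2) ≤ lv (D.rd u d) z y)

/-! ### Sections -/

/-- A cut-off with small support. -/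
def St_CT2 : Prop := ∀ (n : ℕ) (M : Mf n) [M.Cpt] (ι : Type) [Fintype ι] [DecidableEq ι]
  (D : Ad M ι) (X : Cx D) (P : ι → ℤ) (d : D.A) (z₀ : E n) (r : ℝ), X.Big → ‖z₀‖ ≤ 1 → 0 < r →
  r ≤ 1 / 4 → ∃ (Γ : M.X → ℂ) (K : Set M.X) (B : ℝ), 0 ≤ B ∧ IsClosed K ∧ SmO D Γ ∧
    (∀ x ∈ off D, normSq (Γ x) ≤ B * Real.exp (-lw D (fun i => P i) x)) ∧
    (∀ z ∈ ball z₀ r, Off (D.c d) z → D.rd Γ d z = xm (D.c d) (-P) z) ∧
    (∀ x, Γ x ≠ 0 ∨ x ∈ K → x ∈ (D.e d).source ∧ ‖D.e d x - z₀‖ < 2 * r) ∧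
    (∀ x ∈ K, r ≤ ‖D.e d x - z₀‖) ∧
    Dom D Γ (K.indicator fun x => B * Real.exp (-lw D (fun i => P i) x)) X.α

/-- One application of the theorem of Hörmander. -/
def St_HK : Prop := ∀ (n : ℕ) (M : Mf n) [M.Cpt] (ι : Type) [Fintype ι] [DecidableEq ι]
  (D : Ad M ι) (X : Cx D), X.Big → ∃ c : ℕ, ∀ (Q : ι → ℤ) (d : D.A) (z₀ : E n) (r A C : ℝ),
  ‖z₀‖ ≤ 1 → 0 < r → r ≤ 1 / 8 → ∃ b B : ℝ, 0 < b ∧ ∀ φ u, Wu Q d z₀ r A C φ u →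
    ∃ F, Sp D (fun i => Q i + c * X.e i) F ∧ ENNReal.ofReal b ≤
      X.I (fun x => normSq (F x) * Real.exp (lw D (fun i => (Q i + c * X.e i : ℤ) - X.o i) x)) ∧
    X.I (fun x => normSq (F x) * Real.exp (lw D (fun i => (Q i + c * X.e i : ℤ) - X.o i) x) *
      Real.exp (-u x)) ≤ ENNReal.ofReal B

/-- The limit section. -/
def St_HL : Prop := ∀ (n : ℕ) (M : Mf n) [M.Cpt] (ι : Type) [Fintype ι] [DecidableEq ι]
  (D : Ad M ι) (X : Cx D), X.Big → ∃ c : ℕ, ∀ (Q : ι → ℤ) (d : D.A) (z₀ : E n) (r A C : ℝ)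
  (φ u : ℕ → M.X → ℝ) (h : M.X → ℝ), ‖z₀‖ ≤ 1 → 0 < r → r ≤ 1 / 8 →
  (∀ k, Wu Q d z₀ r A C (φ k) (u k)) →
  (∀ᵐ x ∂X.μ, ∃ a : ℕ → ℝ, Tendsto a atTop (𝓝 (h x)) ∧ ∀ k, a k ≤ Real.exp (-u k x)) →
  ∃ F, Sp D (fun i => Q i + c * X.e i) F ∧ F ≠ 0 ∧ X.I (fun x => normSq (F x) *
    Real.exp (lw D (fun i => (Q i + c * X.e i : ℤ) - X.o i) x) * h x) ≠ ⊤

/-- Removal of singularities. -/
def St_EXT : Prop := ∀ (n : ℕ) (M : Mf n) [M.Cpt] (ι : Type) [Fintype ι] [DecidableEq ι]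
  (D : Ad M ι) (X : Cx D) (O : Set M.X) (g F : M.X → ℂ) (P : ι → ℤ) (j : ℕ), Rat D O g →
  Sp D P F → X.I (fun x => normSq (F x) * Real.exp (lw D (fun i => P i - X.o i) x) *
    (1 + normSq (g x)) ^ j) ≠ ⊤ →
  ∀ i ≤ j, ∃ w, Sp D P w ∧ ∀ x ∈ off D, x ∈ O → w x = F x * g x ^ i

/-- The sections for one level. -/
def St_ONE : Prop := ∀ (n : ℕ) (M : Mf n) [M.Cpt] (ι : Type) [Fintype ι] [DecidableEq ι]
  (D : Ad M ι) (X : Cx D) (A : Am D) (H : M.Fam (Mat n)), 0 < n → Can D X.l X.w → Fs A H →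
  X.e = A.e → (∀ x ∈ off D, X.α x = Real.log (nsq (A.τ x))) → X.Big → ∃ a : ℕ,
  ∀ (J j : ℕ) (l C : ℝ) (v V W : M.X → ℝ) (O : Set M.X) (g : M.X → ℂ), 0 < J → 0 ≤ l → 0 < C →
    2 ^ (n + 2) * j * l ≤ J → M.Sm v → M.Kae (M.gE H (1 / J) v) →
    Pr M (M.gE H (1 / J) v) l C V W → Rat D O g → (∀ x, V x ≠ 0 ↔ x ∈ O) →
    (∀ x ∈ O, W x = V x * normSq (g x)) →
    ∃ F, Sp D (fun i => J * X.l i + a * X.e i) F ∧ F ≠ 0 ∧ X.I (fun x => normSq (F x) *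
      Real.exp (lw D (fun i => (J * X.l i + a * X.e i : ℤ) - X.o i) x) * (1 + normSq (g x)) ^ j) ≠ ⊤

/-- Domination. -/
def St_DOM : Prop := ∀ (n : ℕ) (M : Mf n) [M.Cpt] (ι : Type) [Fintype ι] [DecidableEq ι]
  (D : Ad M ι) (X : Cx D) (A : Am D) (c₀ N B : ℕ) (b₁ b₂ : D.A → (Fin N → Fin n) → E n → ℂ),
  0 < n → Can D X.l X.w → X.e = A.e → (∀ x ∈ off D, X.α x = Real.log (nsq (A.τ x))) → X.Big →
  (∀ j : ℕ, Gens D fun i => j * X.l i + c₀ * X.e i) → N ≤ B →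
  Tn D N (fun i => B * X.l i) b₁ → Tn D N (fun i => B * X.l i) b₂ →
  (∃ d I, ∃ z ∈ B2 n, Off (D.c d) z ∧ b₂ d I z ≠ 0) →
  (OA D fun d z => ∀ I I', b₁ d I z * b₂ d I' z = b₁ d I' z * b₂ d I z) →
  ∃ c a : ℕ, 0 < c ∧ ∀ j : ℕ, ∃ w : ℕ → M.X → ℂ, w 0 ≠ 0 ∧
    (∀ i ≤ j, Sp D (fun p => j * c * X.l p + a * X.e p) (w i)) ∧
    ∀ i < j, OA D fun d z => ∀ I, D.rd (w (i + 1)) d z * b₂ d I z = D.rd (w i) d z * b₁ d I z

end Pool.Agent.Lib.DM
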