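import Pool.Agent.Lib.NV5.Blue
import Pool.Agent.Lib.NV5.DomBlue

/-! Project NV5: the assembly of the target statement. -/

open scoped Classical Topology ContDiff ENNReal Manifold
open Set Complex Metric Filter

set_option linter.unusedVariables false

noncomputable section

namespace Pool.Agent.Lib.NV5

open Pool.Agent.Lib.SV (E nsq Pluri)
open Pool.Agent.Lib.GH (Hermitian)
open Pool.Agent.Lib.HS32 Pool.Agent.Lib.EX Pool.Agent.Lib.EXS Pool.Agent.Lib.ZL Pool.Agent.Lib.NV2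
open Pool.Agent.Lib.HS.BBR (mf)

namespace S1b

theorem dv_add {ι P : Type} [Fintype ι] (m : ι → P → ℤ) (l e : ι → ℤ) :
    dv m (fun i => l i + e i) = dv m l + dv m e := by
  funext p
  show ∑ i, (l i + e i) * m i p = ∑ i, l i * m i p + ∑ i, e i * m i p
  rw [← Finset.sum_add_distrib]
  exact Finset.sum_congr rfl fun i _ => add_mul _ _ _

theorem dv_smul {ι P : Type} [Fintype ι] (m : ι → P → ℤ) (a : ℕ) (l : ι → ℤ) :
    dv m (fun i => a * l i) = a • dv m l := by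
  funext p
  show ∑ i, (a * l i) * m i p = a • ∑ i, l i * m i p
  rw [nsmul_eq_mul, Finset.mul_sum]
  exact Finset.sum_congr rfl fun i _ => mul_assoc _ _ _

theorem dv_lin {ι P : Type} [Fintype ι] (m : ι → P → ℤ) (a b : ℕ) (l e : ι → ℤ) :
    dv m (fun i => a * l i + b * e i) = a • dv m l + b • dv m e := by
  rw [dv_add, dv_smul, dv_smul]

theorem dv_three {ι P : Type} [Fintype ι] (m : ι → P → ℤ) (a x y : ℕ) (l Q : ι → ℤ) :
    dv m (fun i => a * l i + (x * l i + y * Q i)) = a • dv m l + (x • dv m l + y • dv m Q) := by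
  rw [dv_add, dv_smul, dv_lin]

theorem domH (hDOM : DM.St_DOM) (hAM : Sb_AM) {n : ℕ} {M : Mf n} [M.Cpt] {ι : Type} [Fintype ι]
    [DecidableEq ι] (D : Ad M ι) (X : Cx D) {r c' : ℕ} {t : Fin r → M.X → ℂ} (hn : 0 < n)
    (he : ∀ i, 0 < X.e i) (hB : X.Big) (hC : DM.Can D X.l X.w) (hK : Kd D (fun i => X.e i) t)
    (hI : Imm D (fun i => X.e i) t) (hα : ∀ x ∈ off D, X.α x = lg t x)
    (hG : ∀ j : ℕ, Gens D fun i => j * X.l i + c' * X.e i) : DomH D X.l X.e := by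
  intro N B b₁ b₂ hN h1 h2 hne hp
  obtain ⟨A, hA, hτ⟩ := hAM n M ι D r X.e t he hK hI
  obtain ⟨c, a, -, h⟩ := hDOM n M ι D X A c' N B b₁ b₂ hn hC hA.symm
    (fun x hx => by rw [hα x hx, hτ x]; rfl) hB hG hN ⟨h1.pol, h1.law⟩ ⟨h2.pol, h2.law⟩ hne hp
  exact ⟨c, a, h⟩

theorem zero {M : Mf 0} [M.Cpt] {ι : Type} [Fintype ι] [DecidableEq ι] (D : Ad M ι)
    (P : ι → ℤ) : Sp D P (fun _ => 1) := by
  have hx : ∀ (d : D.A) i (z : E 0), xi (D.c d) i z = 1 := fun d i z => by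
    unfold xi
    cases h : D.c d i with
    | none => rfl
    | some j => exact j.elim0
  refine ⟨fun d z _ => ⟨fun _ => 1, Eventually.of_forall fun _ => differentiableAt_const _,
    Eventually.of_forall fun y _ => ?_⟩, fun x h => (h fun b _ i => ?_).elim⟩
  · simp [xm, hx, Ad.rd]
  · rw [hx]; exact one_ne_zero

end S1b

open S1b in
theorem bS1 (hCTX : St_CTX) (hNV : St_NV2) (hSEC : St_SEC) (hDOM : DM.St_DOM) (hCORE : Sb_CORE)
    (hAM : Sb_AM) (hONE : Sb_ONE) (hPLU : Sb_PLU) (hGS : Sb_GS) : St_S1 := by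
  intro n Y I _ _ _ _ _ _ _ G S a₀ e l η P hG hO hA hN hP hP0 hq
  have : (mf n Y).Cpt := ⟨‹_›, ‹_›, ‹_›⟩
  have hE : ∀ y, ∃ h, Eqs n S y h := fun y => (hO y).imp fun h ⟨w, hw⟩ => hw.1
  obtain ⟨D, X, r, c', t, hF, -, hl, he, hB, -, hw, hH, hK, hI, hα, hZ, hGe⟩ :=
    hCTX n Y I G S 1 e l l η hG hO hA one_pos hN
      ⟨fun i => by simp, fun k => ⟨fun i => k * e i, fun j f hf => by simpa using hf⟩⟩
  obtain ⟨-, -, hS, hz'⟩ := hSEC n Y I S D hF hE
  have hnv : ∀ m : ℕ, 0 < m → ∀ s ≠ 0, Sp D (fun i => m * l i) s →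
      ∃ m, 0 < m ∧ ∃ s ∈ Pluri n Y m, s ≠ 0 := fun m hm s hs h =>
    ⟨m, hm, hPLU n Y I S l η s m hO ((hS _ _).2 h) hs⟩
  rcases Nat.eq_zero_or_pos n with rfl | hn
  · refine Or.inl (hnv 1 one_pos (fun _ => 1) (fun h => ?_) (zero D _))
    exact one_ne_zero (congrFun h (Classical.arbitrary Y))
  subst hl he
  obtain ⟨q, hq'⟩ := hNV n (mf n Y) I D X r c' (fun i => X.l i + a₀ * X.l i) X.l t P hH hK hI hα
    (hZ a₀) (by simpa using hGe 1) (hP.mono fun j hj => by rw [← hz']; exact hj) hP0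
  have hinf : {a : ℕ | ∃ b, Ten D q (fun i => a * X.l i) b}.Infinite := by
    refine (hq'.image (f := fun a => 1 + a₀ + a) (add_right_injective _).injOn).mono ?_
    rintro _ ⟨a, ⟨b, hb⟩, rfl⟩
    refine ⟨b, ?_⟩
    have : (fun i => ((1 + a₀ + a : ℕ) : ℤ) * X.l i) = fun i => X.l i + a₀ * X.l i + a * X.l i := by
      funext i; push_cast; ring
    rw [this]; exact hb
  have hD : DomH D X.l X.e := domH hDOM hAM D X hn hA.1 hB
    (fun b d x h1 h2 => by simpa using hw b d x h1 h2) hK hI hα hGe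
  rcases hCORE n (mf n Y) I D r X.e t X.l q hA.1 hK hI hD (hONE n Y I D hq) hinf with
    ⟨m, hm, s, hs, h⟩ | ⟨F, _, _, Φ, V, m, π, Q, d, z, k, a, c, b, τ, hBr, hd, hdn, hPre, hOne, hUnb, hGr⟩
  · exact Or.inl (hnv m hm s hs h)
  obtain ⟨hFO, hG'⟩ := hGS n Y I S D F Φ V m π hF hE hBr
  have hsec : ∀ Q f, V.Sec (dv m Q) f → SecF n S Φ.ev Q f := fun Q f h =>
    ((hBr.sec Q f).1 h).imp fun s hs => ⟨(hS _ _).2 hs.1, hs.2⟩
  refine Or.inr ⟨F, _, _, Φ.ev, d, z, k, a, b, c, τ, hFO, hd, hdn, hPre.ind, hPre.alg, fun j => ?_,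
    ⟨hPre.a0, hPre.τ0, (hG' _ _ _).2 (by rw [dv_smul]; exact hPre.sec)⟩, fun j f g hf hg h0 => ?_,
    ?_, fun p => ?_, ?_⟩
  · obtain ⟨w, hw0, hw⟩ := hPre.dom j
    refine ⟨w, hw0, fun α hα => hsec _ _ ?_⟩
    have := hw α hα
    rw [← dv_lin] at this
    simpa using this
  · have h1 := (hG' _ _ _).1 hf
    have h2 := (hG' _ _ _).1 hg
    rw [dv_smul] at h1 h2
    exact hOne j f g h1 h2 h0
  · obtain ⟨u, hu, x, y, h⟩ := hPre.psf
    refine ⟨u, hu, fun i => x * X.l i + y * Q i, h.mono ?_⟩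
    rintro j ⟨g, hg, hg0, hs⟩
    refine ⟨g, hg, hg0, hsec _ _ ?_⟩
    rw [← dv_three] at hs
    simpa using hs
  · obtain ⟨y, hy, h⟩ := hUnb p
    refine ⟨y, hy, fun i => (h i).imp fun j hj => hsec _ _ ?_⟩
    rw [← dv_lin] at hj
    simpa using hj
  · obtain ⟨b', h⟩ := hGr
    refine ⟨b', fun C => (h C).mono fun j hj => ?_⟩
    rw [← dv_lin, (hBr.dim _).2] at hj
    rw [hz']
    exact hj

end Pool.Agent.Lib.NV5
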