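import Pool.Agent.Lib.NV5.DomBlue
import Pool.Agent.Lib.ZL.B_CUT

/-! Project NV5, block DOM, row CT2: a cut-off with small support. -/

open scoped Classical Topology ContDiff Matrix
open Set Complex Metric Filter

noncomputable section

namespace Pool.Agent.Lib.DM

open Pool.Agent.Lib.SV (E)
open Pool.Agent.Lib.HS32 Pool.Agent.Lib.EX Pool.Agent.Lib.EXS Pool.Agent.Lib.ZL
open Pool.Agent.Lib.EXS.K32

open ZL.CUT in
theorem dCT2 (hPW : ZL.St_PW) : St_CT2 := by
  intro n M _ ι _ _ D X P d z₀ r hB hz₀ r0 r1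
  obtain ⟨-, -, -, -, -, pn, -, -, pc, -⟩ := hPW n M ι D
  obtain ⟨C, -, hC⟩ := pc (3 / 2) (by norm_num)
  obtain ⟨k, k0, hk⟩ := hB
  let φ : ContDiffBump z₀ := ⟨r, 3 * r / 2, r0, by linarith⟩
  set g : E n → ℂ := fun y => xm (D.c d) (-P) y * (φ y : ℝ) with hg
  have nS : ∀ y ∈ closedBall z₀ (3 * r / 2), ‖y‖ ≤ 3 / 2 := fun y hy => by
    have := norm_le_norm_add_norm_sub' y z₀
    rw [mem_closedBall, dist_eq_norm] at hy
    linarith
  have hS : closedBall z₀ (3 * r / 2) ⊆ B2 n := fun y hy =>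
    mem_ball_zero_iff.2 ((nS y hy).trans_lt (by norm_num))
  have g0 : ∀ y ∉ closedBall z₀ (3 * r / 2), g y = 0 := fun y hy => by
    simp only [hg, φ.zero_of_le_dist (x := y) (not_le.1 hy).le, ofReal_zero, mul_zero]
  have gp : ∀ y, Pol (D.c d) P g y := fun y =>
    ⟨fun w => (φ w : ℝ), Eventually.of_forall fun w => cd_ofReal φ.contDiffAt,
      Eventually.of_forall fun w _ => rfl⟩
  have g1 : ∀ y ∈ ball z₀ r, g y = xm (D.c d) (-P) y := fun y hy => by
    simp only [hg, φ.one_of_mem_closedBall (ball_subset_closedBall hy), ofReal_one, mul_one]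
  obtain ⟨A, A0, hA⟩ := AVG.unif90 (isCompact_closedBall z₀ (3 * r / 2)) fun y _ => gp y
  set T : ℝ := Real.exp (C * ∑ i, |(-fun i => (P i : ℝ)) i|) with hT
  have T0 : 0 < T := Real.exp_pos _
  have b2 : ∀ x ∈ (D.e d).source, D.e d x ∈ closedBall z₀ (3 * r / 2) → Off (D.c d) (D.e d x) →
      normSq (xm (D.c d) (-P) (D.e d x)) ≤ T * Real.exp (-lw D (fun i => P i) x) :=
    fun x hx hy ho => by
      have := (hC (-fun i => (P i : ℝ)) d _ (nS _ hy) ho).1
      rw [← hT] at this
      rw [← POL.xr_int, ← pn]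
      simpa only [Pi.neg_def, Int.cast_neg, Ad.rd, (D.e d).left_inv hx] using this
  have cK : IsCompact (closedBall z₀ (3 * r / 2) \ ball z₀ r) :=
    (isCompact_closedBall _ _).diff isOpen_ball
  have Q0 : 0 ≤ (n * A) ^ 2 * T / k := by positivity
  refine ⟨zx D d g, (D.e d).symm '' (closedBall z₀ (3 * r / 2) \ ball z₀ r), T + (n * A) ^ 2 * T / k,
    by positivity, cls D d cK fun y hy => hS hy.1, fun b z hz ho => ?_, fun x hx => ?_,
    fun z hz ho => ?_, fun x hx => ?_, ?_, fun b z hz ho v => ?_⟩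
  · by_cases h : (D.e b).symm z ∈ (D.e d).source
    · exact ((AVG.pol_cd90 (gp _) (off_in D d b hz ho h)).comp z
        (mCHN n _ z (hol_in D d b hz h)).1).congr_of_eventuallyEq (rd_in D d g b hz h)
    · refine contDiffAt_const.congr_of_eventuallyEq
        (rd_out D d (isCompact_closedBall _ _) hS g0 b hz ?_)
      rintro ⟨y, hy, e⟩
      exact h (e ▸ EX.TRF.mem_src D (hS hy))
  · have x0 := Real.exp_pos (-lw D (fun i => P i) x)
    by_cases h : x ∈ (D.e d).source ∧ D.e d x ∈ closedBall z₀ (3 * r / 2)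
    · have q := b2 x h.1 h.2 (hx d h.1)
      have q1 : normSq ((φ (D.e d x) : ℝ) : ℂ) ≤ 1 := by
        rw [normSq_ofReal]
        exact mul_le_one₀ φ.le_one φ.nonneg φ.le_one
      rw [zx, if_pos h.1, hg, map_mul]
      nlinarith [mul_le_mul_of_nonneg_left q1 (normSq_nonneg (xm (D.c d) (-P) (D.e d x))),
        mul_nonneg Q0 x0.le]
    · have : zx D d g x = 0 := by
        by_cases e : x ∈ (D.e d).source
        · exact (if_pos e).trans (g0 _ fun hy => h ⟨e, hy⟩)
        · exact if_neg e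
      rw [this, map_zero]
      positivity
  · have hz' := hS (ball_subset_closedBall (ball_subset_ball (by linarith) hz))
    rw [Ad.rd, zx, if_pos (EX.TRF.mem_src D hz'), EX.TRF.rinv D hz', g1 z hz]
  · have h : x ∈ (D.e d).source ∧ D.e d x ∈ closedBall z₀ (3 * r / 2) := by
      rcases hx with hx | ⟨y, hy, rfl⟩
      · by_contra h
        refine hx ?_
        by_cases e : x ∈ (D.e d).source
        · exact (if_pos e).trans (g0 _ fun hy => h ⟨e, hy⟩)
        · exact if_neg e
      · refine ⟨EX.TRF.mem_src D (hS hy.1), ?_⟩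
        rw [EX.TRF.rinv D (hS hy.1)]
        exact hy.1
    have := h.2
    rw [mem_closedBall, dist_eq_norm] at this
    exact ⟨h.1, by linarith⟩
  · rintro _ ⟨y, hy, rfl⟩
    rw [EX.TRF.rinv D (hS hy.1), ← dist_eq_norm]
    exact not_lt.1 hy.2
  · have p0 := X.αp.2 b z hz ho v
    have x0 := Real.exp_pos (-lw D (fun i => P i) ((D.e b).symm z))
    have z0 : db (D.rd (zx D d g) b) z v = 0 → normSq (db (D.rd (zx D d g) b) z v) ≤
        D.rd (((D.e d).symm '' (closedBall z₀ (3 * r / 2) \ ball z₀ r)).indicator fun x =>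
          (T + (n * A) ^ 2 * T / k) * Real.exp (-lw D (fun i => P i) x)) b z *
          lv (D.rd X.α b) z v := fun e => by
      rw [e, map_zero]
      exact mul_nonneg (indicator_nonneg (fun x _ => by positivity) _) p0
    by_cases h : (D.e b).symm z ∈ (D.e d).symm '' closedBall z₀ (3 * r / 2)
    · obtain ⟨y, hy, e⟩ := h
      have h : (D.e b).symm z ∈ (D.e d).source := e ▸ EX.TRF.mem_src D (hS hy)
      have ey : D.e d ((D.e b).symm z) = y := by rw [← e, EX.TRF.rinv D (hS hy)]
      have oy : Off (D.c d) y := ey ▸ off_in D d b hz ho h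
      have hψ := hol_in D d b hz h
      have ey' : (D.e d ∘ (D.e b).symm) z = y := ey
      have e1 : db (D.rd (zx D d g) b) z v = db g y (jm (D.e d ∘ (D.e b).symm) z *ᵥ v) := by
        rw [ZL.TRF.db_congr36 (rd_in D d g b hz h),
          ZL.TRF.db_comp36 hψ (by rw [ey']; exact AVG.pol_cd90 (gp _) oy), ey']
      by_cases hr : y ∈ ball z₀ r
      · refine z0 ?_
        rw [e1, ZL.TRF.db_congr36 (eventually_of_mem (isOpen_ball.mem_nhds hr) g1)]
        exact db_zero (xm_hol fun i _ => oy i) _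
      · have e2 : lv (D.rd X.α b) z v = lv (D.rd X.α d) y (jm (D.e d ∘ (D.e b).symm) z *ᵥ v) := by
          have : D.rd X.α b =ᶠ[𝓝 z] D.rd X.α d ∘ (D.e d ∘ (D.e b).symm) := by
            filter_upwards [((D.e b).continuousAt_symm ((D.tgt b).symm ▸ hz)).preimage_mem_nhds
              ((D.e d).open_source.mem_nhds h)] with w hw
            exact congrArg X.α ((D.e d).left_inv hw).symm
          rw [lv_congr this, ZL.TRF.lv_comp36 hψ (by rw [ey']; exact X.αp.1 d y (hS hy) oy), ey']
        have hK : (D.e b).symm z ∈ (D.e d).symm '' (closedBall z₀ (3 * r / 2) \ ball z₀ r) :=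
          ⟨y, ⟨hy, hr⟩, e⟩
        rw [e1, e2, Ad.rd, indicator_of_mem hK]
        set u := jm (D.e d ∘ (D.e b).symm) z *ᵥ v
        have b1 := AVG.db_le90 (hA y hy oy) u
        have b3 := hk d y (hS hy) oy ((nS y hy).trans (by norm_num)) u
        have b4 := b2 _ h (ey ▸ hy) (ey ▸ oy)
        rw [ey, normSq_eq_norm_sq] at b4
        have b5 : 0 ≤ lv (D.rd X.α d) y u := le_trans (by positivity) b3
        rw [normSq_eq_norm_sq]
        calc _ ≤ (n * (A * ‖xm (D.c d) (-P) y‖) * ‖u‖) ^ 2 := pow_le_pow_left₀ (norm_nonneg _) b1 2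
          _ = (n * A) ^ 2 * ‖xm (D.c d) (-P) y‖ ^ 2 / k * (k * ‖u‖ ^ 2) := by field_simp
          _ ≤ (n * A) ^ 2 * (T * Real.exp (-lw D (fun i => P i) ((D.e b).symm z))) / k *
              lv (D.rd X.α d) y u := by gcongr
          _ = (n * A) ^ 2 * T / k * Real.exp (-lw D (fun i => P i) ((D.e b).symm z)) *
              lv (D.rd X.α d) y u := by ring
          _ ≤ _ := by gcongr; linarith
    · refine z0 ?_
      rw [ZL.TRF.db_congr36 (rd_out D d (isCompact_closedBall _ _) hS g0 b hz h)]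
      exact db_zero (Eventually.of_forall fun _ => differentiableAt_const _) _

end Pool.Agent.Lib.DM
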