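import Pool.Agent.Lib.NV5.DomBlue
import Pool.Agent.Lib.HW86.Vol
import Pool.Agent.Lib.EX.B_MON

/-! Project NV5, block DOM, row DOM: domination. -/

open scoped Classical Topology ContDiff ENNReal ComplexOrder Matrix
open Set MeasureTheory Complex Metric Filter

noncomputable section

namespace Pool.Agent.Lib.DM

open Pool.Agent.Lib.SV (E nsq)
open Pool.Agent.Lib.HS32 Pool.Agent.Lib.HS32.Mf Pool.Agent.Lib.EX Pool.Agent.Lib.EXS
open Pool.Agent.Lib.ZL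

namespace DOM

variable {n : ℕ} {ι : Type} [Fintype ι] [DecidableEq ι] {c : ι → Option (Fin n)} {z : E n}

theorem pol_cont {Q : ι → ℤ} {f : E n → ℂ} (h : PolH c Q f z) (ho : Off c z) :
    ContinuousAt f z := by
  obtain ⟨s, s1, s2⟩ := h
  refine (((MON.diff_xm (G := -Q) fun i => Or.inl (ho i)).mul
    s1.self_of_nhds).continuousAt).congr ?_
  filter_upwards [s2, MON.off_ev ho] with y h1 h2 using (h1 h2).symm

theorem eq_of {f g : E n → ℂ} {p : E n → Prop} (hf : ContinuousAt f z) (hg : ContinuousAt g z)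
    (hp : ∃ᶠ y in 𝓝 z, p y) (h : ∀ᶠ y in 𝓝 z, p y → f y = g y) : f z = g z := by
  by_contra hne
  obtain ⟨y, ⟨h1, h2⟩, h3⟩ := ((hp.and_eventually h).and_eventually
    ((hf.sub hg).eventually_ne (sub_ne_zero.2 hne))).exists
  exact h3 (sub_eq_zero.2 (h2 h1))

end DOM

open DOM

theorem dDOM (hA : HS.St_AUBIN) (hUPB : ZL.St_UPB) (hKAH : St_KAH) (hNEF : St_NEF) (hREP : St_REP)
    (hRAT : St_RAT) (hNUL : St_NUL) (hPAI : St_PAI) (hONE : St_ONE) (hEXT : St_EXT) : St_DOM := by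
  intro n M _ ι _ _ D X A c₀ N B b₁ b₂ hn hC he hα hB hG hN t₁ t₂ ⟨d₀, I₀, z₀, hz₀, o₀, n₀⟩ pr
  obtain ⟨H, hH⟩ := hKAH n M ι D A
  obtain ⟨s₁, p₁, q₁⟩ := hREP n M ι D X N B b₁ hC t₁
  obtain ⟨s₂, p₂, q₂⟩ := hREP n M ι D X N B b₂ hC t₂
  have ne : OA D fun d z => (X.w d z * xm (D.c d) X.l z) ^ B ≠ 0 := fun d z hz ho =>
    pow_ne_zero _ (mul_ne_zero (X.wne d z hz) (MON.xm_ne _ ho))
  obtain ⟨O, g, hR, hO⟩ := hRAT n M ι D N B s₁ s₂ p₁ p₂
    ⟨d₀, z₀, hz₀, fun h => mul_ne_zero (ne d₀ z₀ hz₀ o₀) n₀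
      ((q₂ d₀ z₀ hz₀ o₀ I₀).symm.trans (congrFun h I₀))⟩
    fun d z hz ho I I' => by
      rw [q₁ d z hz ho, q₁ d z hz ho, q₂ d z hz ho, q₂ d z hz ho]
      linear_combination ((X.w d z * xm (D.c d) X.l z) ^ B) ^ 2 * pr d z hz ho I I'
  obtain ⟨a, ha⟩ := hONE n M ι D X A H hn hC hH he hα hB
  have fr := (hNUL n M ι D X O g hR).2.2.2
  have of : ∀ d, ∀ z ∈ B2 n, Off (D.c d) z → (D.e d).symm z ∈ off D := fun d z hz ho =>
    (GLU.mem_off (GLU.mem_src d hz)).2 (by rwa [GLU.rinv d hz])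
  have key : ∀ j : ℕ, ∃ F, Sp D (fun p => j * (2 ^ (n + 2) * (B * n + 1) : ℕ) * X.l p +
      a * X.e p) F ∧ F ≠ 0 ∧ ∀ i ≤ j, ∃ w, Sp D (fun p => j * (2 ^ (n + 2) * (B * n + 1) : ℕ) *
        X.l p + a * X.e p) w ∧ ∀ x ∈ off D, x ∈ O → w x = F x * g x ^ i := fun j => by
    rcases Nat.eq_zero_or_pos j with rfl | hj
    · have u := hUPB n M ι D
      have s := ((u _).1 (fun _ => 1) ((u 0).2.2.1 (fun p => (0 : ℕ) *
        (2 ^ (n + 2) * (B * n + 1) : ℕ) * X.l p + a * X.e p) _ (fun p => by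
          simp only [Nat.cast_zero, zero_mul, zero_add]; positivity)
        fun d z _ => ⟨fun _ => 1, .of_forall fun _ => differentiableAt_const _,
          .of_forall fun y _ => by simp [xm, Ad.rd]⟩)).2
      refine ⟨_, s, fun h => ?_, fun i hi => ⟨_, s, fun x _ _ => by
        rw [Nat.le_zero.1 hi, pow_zero, mul_one]⟩⟩
      simpa [of d₀ z₀ hz₀ o₀] using congrFun h ((D.e d₀).symm z₀)
    have J0 : 0 < j * (2 ^ (n + 2) * (B * n + 1)) := by positivity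
    have e0 : (0 : ℝ) < 1 / (j * (2 ^ (n + 2) * (B * n + 1)) : ℕ) := one_div_pos.2 (Nat.cast_pos.2 J0)
    obtain ⟨w, w1, w2⟩ := hNEF n M ι D X A H c₀ hC hH (he ▸ hG) _ e0
    obtain ⟨v, hv⟩ := W86.sol_of_pos hA hn hH.1 w1 w2
    obtain ⟨V, W, C, C0, hP, hV, hW⟩ := hPAI n M ι D X N B s₁ s₂ O g _ hN p₁ p₂ hR hO hv.kae
      fun e he z hz => by
        have := GH.G34.sol_ric hH.1 (W86.solB hv) e he z hz
        rw [W86.gB_zero] at this
        simp only [Pi.add_apply, Pi.zero_apply, sub_zero, this, add_zero, add_sub_cancel]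
        exact psd_rsmul (hH.1.pos e he z hz).posSemidef e0.le
    obtain ⟨F, f1, f2, f3⟩ := ha _ j (B * n) C v V W O g J0 (by positivity) C0 (by
      push_cast
      nlinarith [show (0 : ℝ) ≤ 2 ^ (n + 2) * j by positivity]) hv.sm hv.kae hP hR hV hW
    rw [Nat.cast_mul j] at f1
    refine ⟨F, f1, f2, hEXT n M ι D X O g F _ j hR f1 ?_⟩
    simpa only [Nat.cast_mul j] using f3
  refine ⟨2 ^ (n + 2) * (B * n + 1), a, by positivity, fun j => ?_⟩
  obtain ⟨F, f1, f2, f3⟩ := key j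
  choose! w w1 w2 using f3
  have ct : ∀ {P F}, Sp D P F → OA D fun d z => ContinuousAt (D.rd F d) z :=
    fun h d z hz ho => pol_cont (h.1 d z hz) ho
  have ev : OA D fun d z => ∀ᶠ y in 𝓝 z, y ∈ B2 n := fun d z hz _ => isOpen_ball.mem_nhds hz
  refine ⟨w, fun h => f2 (funext fun x => ?_), w1, fun i hi d z hz ho I => ?_⟩
  · by_cases hx : x ∈ off D
    · obtain ⟨d, hd⟩ := GLU.ex_ch D x
      have hz : D.e d x ∈ B2 n := D.tgt d ▸ (D.e d).map_source hd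
      rw [← GLU.rd_e F hd]
      refine eq_of (ct f1 d _ hz (hx d hd)) continuousAt_const (fr d _ hz)
        ((ev d _ hz (hx d hd)).mono fun y hy h' => ?_)
      simpa [h, Ad.rd] using (w2 0 j.zero_le _ (of d y hy h'.1) h'.2).symm
    · exact f1.2 x hx
  · refine eq_of ((ct (w1 _ hi) d z hz ho).mul (pol_cont (t₂.pol d z hz I) ho))
      ((ct (w1 _ hi.le) d z hz ho).mul (pol_cont (t₁.pol d z hz I) ho)) (fr d z hz)
      ((ev d z hz ho).mono fun y hy h' => ?_)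
    have k := congrFun ((hO d y hy).2 ((hO d y hy).1.1 h'.2)) I
    rw [Pi.smul_apply, q₁ d y hy h'.1, q₂ d y hy h'.1, smul_eq_mul, mul_left_comm] at k
    have k' := mul_left_cancel₀ (ne d y hy h'.1) k
    simp only [Pi.mul_apply, Ad.rd] at k' ⊢
    rw [w2 (i + 1) hi _ (of d y hy h'.1) h'.2, w2 _ hi.le _ (of d y hy h'.1) h'.2, k']
    ring

end Pool.Agent.Lib.DM
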