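import Pool.Agent.Lib.NV5.DomBlue
import Pool.Agent.Lib.SV.Ext85
import Pool.Agent.Lib.EXS.RV2

/-! Project NV5, block DOM: row EXT, removal of singularities. -/

open scoped Classical Topology ContDiff ENNReal
open Set MeasureTheory Complex Metric Filter

noncomputable section

namespace Pool.Agent.Lib.DM

open Pool.Agent.Lib.SV (E)
open Pool.Agent.Lib.HS32 Pool.Agent.Lib.EX Pool.Agent.Lib.EXS Pool.Agent.Lib.ZL

namespace EXT

variable {n : ℕ} {ι : Type} [Fintype ι] [DecidableEq ι] {c : ι → Option (Fin n)} {z : E n}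

omit [DecidableEq ι] in
theorem off_iff : xs c Finset.univ z ≠ 0 ↔ Off c z := by
  simp only [xs, Finset.prod_ne_zero_iff, Finset.mem_univ, forall_true_left, Off]

theorem ne_ev {q : E n → ℂ} (hq : DifferentiableOn ℂ q (B2 n)) (hz : z ∈ B2 n)
    (h : ¬q =ᶠ[𝓝 z] 0) : ¬(fun y => q y * xs c Finset.univ y) =ᶠ[𝓝 z] 0 := fun h0 => h <| by
  filter_upwards [h0.eventually_nhds, isOpen_ball.mem_nhds hz] with y hy hy'
  exact tendsto_nhds_unique_of_frequently_eq
    (hq.continuousOn.continuousAt (isOpen_ball.mem_nhds hy')) tendsto_const_nhds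
    (((MON.off_freq c y).and_eventually hy).mono fun w hw =>
      (mul_eq_zero.1 hw.2).resolve_right (off_iff.2 hw.1))

end EXT

theorem dEXT (hMU : ZL.St_MU) (hUPB : ZL.St_UPB) : St_EXT := by
  intro n M _ ι _ _ D X O g F P j hR hF hi i hij
  obtain ⟨-, -, hI, -, hloc⟩ := hMU n M ι D X
  have hH := ((hUPB n M ι D P).1 F hF.1).1
  set f : M.X → ℂ := fun x => F x * g x ^ i with hf
  have hfin : X.I (fun x => normSq (f x) * Real.exp (lw D ((fun l => (P l : ℝ)) - X.o) x)) ≠ ⊤ := by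
    refine ne_top_of_le_ne_top hi (hI _ _ fun x _ => ?_)
    have h0 := normSq_nonneg (g x)
    rw [hf, map_mul, map_pow, mul_right_comm]
    exact mul_le_mul_of_nonneg_left ((pow_le_pow_left₀ h0 (by linarith) i).trans
      (pow_le_pow_right₀ (by linarith) hij)) (mul_nonneg (normSq_nonneg _) (Real.exp_pos _).le)
  have hd : ∀ d, ∀ y ∈ B2 n, Off (D.c d) y → (D.e d).symm y ∈ O →
      DifferentiableAt ℂ (fun y => xm (D.c d) P y * D.rd f d y) y := fun d y hy ho hO =>
    (MON.diff_xm fun l => Or.inl (ho l)).mul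
      ((hH d y hy ho).self_of_nhds.mul ((hR.hol d y hy hO).self_of_nhds.pow i))
  have key : ∀ d, ∃ G : E n → ℂ, DifferentiableOn ℂ G (B2 n) ∧ ∀ y ∈ B2 n,
      (Off (D.c d) y → (D.e d).symm y ∈ O → D.rd f d y = xm (D.c d) (-P) y * G y) ∧
      ∃ᶠ w in 𝓝 y, Off (D.c d) w ∧ (D.e d).symm w ∈ O := fun d => by
    obtain ⟨q, hq, hq'⟩ := hR.eqn d
    have hne : ∀ y ∈ B2 n, q y * xs (D.c d) Finset.univ y ≠ 0 →
        Off (D.c d) y ∧ (D.e d).symm y ∈ O := fun y hy h =>
      ⟨EXT.off_iff.1 (right_ne_zero_of_mul h), (hq' y hy).2 (left_ne_zero_of_mul h)⟩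
    have h0 := fun y hy => EXT.ne_ev (c := D.c d) hq hy (hq' y hy).1
    obtain ⟨G, hG, hG'⟩ := SV.H85.ext_sq volume (f := fun y => xm (D.c d) P y * D.rd f d y)
      isOpen_ball (hq.mul (MON.diff_xs (D.c d) Finset.univ).differentiableOn) h0
      (fun y hy => (hd d y hy.1 (hne y hy.1 hy.2).1 (hne y hy.1 hy.2).2).differentiableWithinAt)
      fun z hz => by
        obtain ⟨r, r1, r2⟩ := exists_between (mem_ball_zero_iff.1 hz)
        obtain ⟨C, hC⟩ := hloc r r2 (∑ l, |(P l : ℝ)|)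
        refine ⟨closedBall 0 r, mem_of_superset (isOpen_ball.mem_nhds (mem_ball_zero_iff.2 r1))
          ball_subset_closedBall, ne_top_of_le_ne_top (ENNReal.mul_ne_top ENNReal.ofReal_ne_top
            hfin) (le_trans ?_ (hC (fun l => P l) (fun x => normSq (f x)) d fun l =>
              Finset.single_le_sum (f := fun l => |(P l : ℝ)|) (fun _ _ => abs_nonneg _)
                (Finset.mem_univ l)))⟩
        refine (lintegral_mono_set fun y hy => hy.1).trans (le_of_eq (lintegral_congr fun y => ?_))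
        simp only [← normSq_eq_norm_sq, map_mul, xr, xm, map_prod, map_zpow₀, Real.rpow_intCast,
          Ad.rd, mul_comm]
    have hfr := fun y hy => (not_eventually.1 (h0 y hy)).and_eventually (isOpen_ball.mem_nhds hy)
    refine ⟨G, hG, fun y hy => ⟨fun ho hO => ?_, (hfr y hy).mono fun w hw => hne w hw.2 hw.1⟩⟩
    rw [tendsto_nhds_unique_of_frequently_eq
      (hG.continuousOn.continuousAt (isOpen_ball.mem_nhds hy)) (hd d y hy ho hO).continuousAt
      ((hfr y hy).mono fun w hw => hG' w hw.2 hw.1), MON.xm_neg,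
      inv_mul_cancel_left₀ (MON.xm_ne P ho)]
  choose G hG hG' using key
  set w : M.X → ℂ := (off D).indicator fun x => limUnder (𝓝[off D ∩ O] x) f with hw
  have hv : ∀ d, ∀ y ∈ B2 n, Off (D.c d) y → D.rd w d y = xm (D.c d) (-P) y * G d y := by
    intro d y hy ho
    have hs := GLU.mem_src d hy
    have t : Tendsto (D.e d) (𝓝 ((D.e d).symm y)) (𝓝 y) := by
      simpa only [GLU.rinv d hy] using ((D.e d).continuousAt hs).tendsto
    have : (𝓝[off D ∩ O] (D.e d).symm y).NeBot := by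
      refine mem_closure_iff_nhdsWithin_neBot.1 (mem_closure_iff_frequently.2
        (((D.e d).continuousAt_symm (GLU.mem_tgt d hy)).tendsto.frequently
          (((hG' d y hy).2.and_eventually (isOpen_ball.mem_nhds hy)).mono fun v hv => ⟨?_, hv.1.2⟩)))
      rw [GLU.mem_off (GLU.mem_src d hv.2), GLU.rinv d hv.2]
      exact hv.1.1
    rw [Ad.rd, hw, indicator_of_mem ((GLU.mem_off hs).2 (by rwa [GLU.rinv d hy]))]
    refine Tendsto.limUnder_eq ((((((MON.diff_xm fun l => Or.inl (ho l)).continuousAt.mul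
      ((hG d).continuousOn.continuousAt (isOpen_ball.mem_nhds hy))).tendsto).comp t).mono_left
        nhdsWithin_le_nhds).congr' ?_)
    filter_upwards [self_mem_nhdsWithin, nhdsWithin_le_nhds ((D.e d).open_source.mem_nhds hs)]
      with x x1 x2
    rw [← GLU.rd_e f x2, (hG' d _ (GLU.mem_B2 x2)).1 ((GLU.mem_off x2).1 x1.1)
      (by rw [(D.e d).left_inv x2]; exact x1.2)]
    rfl
  refine ⟨w, ⟨fun d z hz => ⟨G d, (hG d).eventually_differentiableAt (isOpen_ball.mem_nhds hz),
    mem_of_superset (isOpen_ball.mem_nhds hz) (hv d)⟩, fun x hx => indicator_of_notMem hx _⟩,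
    fun x hx hO => ?_⟩
  obtain ⟨d, hd'⟩ := GLU.ex_ch D x
  have ho := (GLU.mem_off hd').1 hx
  rw [← GLU.rd_e w hd', hv d _ (GLU.mem_B2 hd') ho, ← (hG' d _ (GLU.mem_B2 hd')).1 ho
    (by rwa [(D.e d).left_inv hd']), GLU.rd_e f hd']

end Pool.Agent.Lib.DM
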