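import Pool.Agent.Lib.NV5.DomBlue
import Pool.Agent.Lib.ZL.B_PK1
import Pool.Agent.Lib.ZL.B_MU

/-! Project NV5, block DOM: one application of the theorem of Hörmander. -/

open scoped Classical Topology ContDiff ENNReal
open Set MeasureTheory Complex Metric Filter

noncomputable section

namespace Pool.Agent.Lib.DM

open Pool.Agent.Lib.SV (E nsq)
open Pool.Agent.Lib.HS32 Pool.Agent.Lib.EX Pool.Agent.Lib.EXS Pool.Agent.Lib.ZL

namespace HK

variable {n : ℕ} {M : Mf n} {ι : Type} [Fintype ι] [DecidableEq ι] {D : Ad M ι}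

theorem le_nsq (v : E n) : ‖v‖ ^ 2 ≤ nsq v := by
  have : ‖v‖ ≤ √(nsq v) := (pi_norm_le_iff_of_nonneg (Real.sqrt_nonneg _)).2 fun i => by
    rw [Complex.norm_def]
    exact Real.sqrt_le_sqrt (Finset.single_le_sum (f := fun i => normSq (v i))
      (fun _ _ => normSq_nonneg _) (Finset.mem_univ i))
  exact (pow_le_pow_left₀ (norm_nonneg _) this 2).trans_eq (Real.sq_sqrt (SV.nsq_nonneg v))

/-- An upper bound for the integral of a function with support in one chart. -/
theorem up [M.Cpt] (hPW : St_PW) (X : Cx D) : ∃ C, 0 ≤ C ∧ ∀ (d : D.A) (O : Set (E n))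
    (f : M.X → ℝ), IsOpen O → O ⊆ closedBall 0 (3 / 2) →
    X.I (fun x => ((D.e d).source ∩ D.e d ⁻¹' O).indicator f x * Real.exp (lw D (-X.o) x)) ≤
      ENNReal.ofReal C * ∫⁻ z in O, ENNReal.ofReal (D.rd f d z) := by
  obtain ⟨C, -, hC⟩ := (hPW n M ι D).2.2.2.2.2.2.2.2.1 (3 / 2) (by norm_num)
  obtain ⟨b', b, -, b0, hw⟩ := MU.bds X (r := 3 / 2) (by norm_num)
  refine ⟨b * Real.exp (C * ∑ i, |(-X.o) i|), by positivity, fun d O f hO hs => ?_⟩
  rw [Cx.I, ← setLIntegral_eq_of_support_subset (s := (D.e d).source) fun x hx => by_contra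
    fun k => hx (by rw [indicator_of_notMem (fun h => k h.1), zero_mul, ENNReal.ofReal_zero]),
    MU.chg, ← lintegral_const_mul' _ _ ENNReal.ofReal_ne_top,
    ← lintegral_indicator hO.measurableSet]
  refine le_trans (lintegral_mono_ae ?_) (setLIntegral_le_lintegral (B2 n) _)
  filter_upwards [ae_restrict_of_ae (MON.off_ae (D.c d)), ae_restrict_mem measurableSet_ball]
    with z h1 h2
  by_cases h3 : z ∈ O
  · have hm : (D.e d).symm z ∈ (D.e d).source ∩ D.e d ⁻¹' O :=
      ⟨GLU.mem_src d h2, by rwa [mem_preimage, GLU.rinv d h2]⟩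
    have p := (MON.xr_pos X.o h1).le
    have q := normSq_nonneg (X.w d z)
    rw [indicator_of_mem hm, indicator_of_mem h3, ← ENNReal.ofReal_mul (by positivity),
      ← ENNReal.ofReal_mul (by positivity)]
    rcases le_total (f ((D.e d).symm z)) 0 with h4 | h4
    · exact (ENNReal.ofReal_of_nonpos (mul_nonpos_of_nonneg_of_nonpos (by positivity)
        (mul_nonpos_of_nonpos_of_nonneg h4 (Real.exp_pos _).le))).trans_le bot_le
    refine ENNReal.ofReal_le_ofReal ?_
    have h5 := (hw d z (hs h3)).2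
    have h6 : Real.exp (lw D (-X.o) ((D.e d).symm z)) ≤ _ :=
      (hC (-X.o) d z (mem_closedBall_zero_iff.1 (hs h3)) h1).2
    have e : xr (D.c d) X.o z * xr (D.c d) (-X.o) z = 1 := by
      rw [← MU.xr_add _ _ h1, add_neg_cancel]
      simp [xr]
    calc _ ≤ b * xr (D.c d) X.o z * (f ((D.e d).symm z) *
          (Real.exp (C * ∑ i, |(-X.o) i|) * xr (D.c d) (-X.o) z)) := by gcongr
      _ = _ := by
          rw [Ad.rd]
          linear_combination (b * Real.exp (C * ∑ i, |(-X.o) i|) * f ((D.e d).symm z)) * e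
  · rw [indicator_of_notMem (fun k => h3 (by
      have := k.2
      rwa [mem_preimage, GLU.rinv d h2] at this)), zero_mul, ENNReal.ofReal_zero, mul_zero]
    exact bot_le

end HK

open HK PK1 in
theorem dHK (hPW : ZL.St_PW) (hMU : ZL.St_MU) (hUPB : ZL.St_UPB) (hWGT : ZL.St_WGT)
    (hPOG : ZL.St_POG) (hLWC : ZL.St_LWC) (hBMP : ZL.St_BMP) (hCT2 : St_CT2) : St_HK := by
  intro n M _ ι _ _ D X hB
  obtain ⟨opn, -, ladd, lsub, lsm, lneg, -, lsmo, -, cont, hsm⟩ := hPW n M ι D
  obtain ⟨-, meas, mono, -, loc⟩ := hMU n M ι D X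
  obtain ⟨L, -, -, hW⟩ := hWGT
  obtain ⟨-, padd, pmul, -, -, -, -, -⟩ := hW n M ι D
  obtain ⟨C1, c1, h1⟩ := hLWC n M ι D X X.o
  obtain ⟨C2, R, c2, R0, R1, h2⟩ := hBMP n M ι D X hB
  obtain ⟨C6, c6, h6⟩ := up hPW X
  obtain ⟨Cα, hα⟩ := X.αb
  obtain ⟨c, hc⟩ := exists_nat_ge (C1 + (n + 1) * C2 + 1)
  refine ⟨c, fun Q d z₀ r A C hz r0 r1 => ?_⟩
  obtain ⟨P, hP⟩ : ∃ P : ι → ℤ, ∀ i, Q i + c * X.e i = P i := ⟨_, fun _ => rfl⟩
  simp only [hP]
  have q0 : 0 < min r R := lt_min r0 R0
  obtain ⟨Γ, K, B, B0, Kc, Γs, Γb, Γe, ΓS, Kr, Γd⟩ :=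
    hCT2 n M ι D X P d z₀ _ hB hz q0 ((min_le_right _ _).trans R1)
  have eP : ∀ x, lw D (fun i => P i) x =
      lw D (fun i => Q i) x + c * lw D (fun i => X.e i) x := fun x => by
    rw [← lsm, ← ladd]
    refine congrArg (lw D · x) (funext fun i => ?_)
    rw [← hP]
    simp
  have eQ : ∀ x, lw D (fun i => P i - X.o i) x = lw D (fun i => P i) x - lw D X.o x :=
    fun x => lsub _ _ x
  set C3 := C + c * Cα with hC3
  set C5 := C2 + |Real.log (min r R ^ 2)| with hC5
  set J := C6 * |A| with hJ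
  have J0 : 0 ≤ J := by positivity
  obtain ⟨C4, h4⟩ := loc (3 / 2) (by norm_num) (∑ i, |(P i : ℝ)|)
  set A1 := 10 * (B * Real.exp (C3 + (n + 1) * C5) * J) with hA
  have A0 : 0 ≤ A1 := by positivity
  set v := (volume (ball (0 : E n) 1)).toReal with hv
  have v0 : 0 < v :=
    ENNReal.toReal_pos (measure_ball_pos _ _ one_pos).ne' measure_ball_lt_top.ne
  obtain ⟨ρ, ρ0, ρr, ρv⟩ : ∃ ρ : ℝ, 0 < ρ ∧ ρ ≤ min r R ∧
      |C4| * (2 * (n + 1) ^ (n + 1) * (Real.exp C3 * A1)) * ρ ^ 2 < v / 2 := by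
    have t : Tendsto (fun ρ : ℝ => |C4| * (2 * (n + 1) ^ (n + 1) * (Real.exp C3 * A1)) * ρ ^ 2)
      (𝓝 0) (𝓝 _) := Continuous.tendsto (by fun_prop) 0
    have t2 := (t.eventually_lt_const (u := v / 2) (by simpa using v0)).and (eventually_le_nhds q0)
    obtain ⟨ρ, ⟨a, b⟩, e⟩ := ((t2.filter_mono nhdsWithin_le_nhds).and
      (self_mem_nhdsWithin (s := Ioi (0 : ℝ)))).exists
    exact ⟨ρ, e, b, a⟩
  have ρR := ρr.trans (min_le_right _ _)
  obtain ⟨w, ws, wp, wu, we, wl⟩ := h2 d z₀ hz (ρ ^ 2) ⟨by positivity, by nlinarith⟩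
  refine ⟨ρ ^ (n * 2) * v / (4 * (|C4| + 1)),
    2 * B * J + 2 * Real.exp ((n + 1) * C2) * (Real.exp C3 * A1), by positivity, fun φ u hu => ?_⟩
  have bd : ∀ x ∈ off D, |φ x - u x + c * X.α x + lw D (fun i => P i) x| ≤ C3 := fun x hx => by
    rw [eP, show φ x - u x + c * X.α x + (lw D (fun i => Q i) x + c * lw D (fun i => X.e i) x) =
      (φ x - u x + lw D (fun i => Q i) x) + c * (X.α x + lw D (fun i => X.e i) x) by ring]
    refine (abs_add_le _ _).trans ?_
    rw [abs_mul, Nat.abs_cast]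
    exact add_le_add (hu.bd x hx).1 (mul_le_mul_of_nonneg_left (hα x hx) (Nat.cast_nonneg _))
  set S := (D.e d).source ∩ D.e d ⁻¹' ball z₀ (2 * r) with hS
  have inS : ∀ x, Γ x ≠ 0 ∨ x ∈ K → x ∈ S := fun x hx => ⟨(ΓS x hx).1, mem_ball_iff_norm.2
    ((ΓS x hx).2.trans_le (by linarith [min_le_left r R]))⟩
  have sub0 : ball z₀ (2 * r) ⊆ closedBall 0 (3 / 2) := ball_subset_closedBall.trans
    (closedBall_subset_closedBall' (by rw [dist_zero_right]; linarith))
  have iS : X.I (fun x => S.indicator (fun x => Real.exp (-u x)) x * Real.exp (lw D (-X.o) x)) ≤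
      ENNReal.ofReal J := by
    rw [hJ, ENNReal.ofReal_mul c6]
    exact (h6 d _ _ isOpen_ball sub0).trans
      (mul_le_mul_right (hu.int.trans (ENNReal.ofReal_le_ofReal (le_abs_self A))) _)
  have S0 : ∀ x, 0 ≤ S.indicator (fun x => Real.exp (-u x)) x :=
    fun x => indicator_nonneg (fun _ _ => (Real.exp_pos _).le) x
  have wK : ∀ x ∈ K, -C5 ≤ w x := fun x hx => by
    have a := abs_nonneg (Real.log (min r R ^ 2))
    rcases le_or_gt R ‖D.e d x - z₀‖ with h | h
    · linarith [wl x fun _ => h]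
    · have b := we _ (mem_ball_iff_norm.2 h)
      rw [GLU.rd_e _ (ΓS x (Or.inr hx)).1] at b
      have e : Real.log (min r R ^ 2) ≤ w x := by
        rw [b]
        refine Real.log_le_log (by positivity) ?_
        nlinarith [le_nsq (D.e d x - z₀), pow_le_pow_left₀ q0.le (Kr x hx) 2, sq_nonneg ρ]
      linarith [neg_abs_le (Real.log (min r R ^ 2))]
  have g1 := padd _ _ (padd _ _ (padd _ _ hu.psh h1) (pmul (n + 1) _ (by positivity) wp))
    (pmul (c - 1 - C1 - (n + 1) * C2) _ (by linarith) X.αp)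
  generalize hg : (fun x => _ + _ * X.α x : M.X → ℝ) = g at g1
  have eg : ∀ x, g x + X.α x = φ x + c * X.α x + lw D X.o x + (n + 1) * w x := fun x => by
    rw [← hg]
    ring
  have β0 : ∀ x, 0 ≤ K.indicator (fun x => B * Real.exp (-lw D (fun i => P i) x)) x :=
    fun x => indicator_nonneg (fun _ _ => by positivity) x
  have m1 : ∀ a, AEMeasurable (fun x => Real.exp (lw D a x)) X.μ := fun a =>
    meas ℝ _ (Real.continuous_exp.comp_continuousOn (cont ℝ _ (lsmo a)))
  obtain ⟨F, Fh, Fi⟩ := X.hor (f := fun x => g x + X.α x) (padd _ _ g1 X.αp) Γs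
    (AEMeasurable.indicator (((m1 (-fun i => (P i : ℝ))).const_mul B).congr
      (.of_forall fun x => congrArg (fun t => B * Real.exp t) (lneg _ x))) Kc.measurableSet) (fun x _ => β0 x) fun b z hb ho w => (Γd b z hb ho w).trans
        (mul_le_mul_of_nonneg_left (by
          have := K32.lv_add (g1.1 b z hb ho) (X.αp.1 b z hb ho) w
          exact le_of_le_of_eq (le_add_of_nonneg_left (g1.2 b z hb ho w)) this.symm) (β0 _))
  have Fj : X.I (fun x => normSq (Γ x - F x) * Real.exp (-(g x + X.α x))) ≤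
      ENNReal.ofReal A1 := by
    refine Fi.trans ?_
    rw [hA, ENNReal.ofReal_mul (by norm_num), ENNReal.ofReal_ofNat,
      ENNReal.ofReal_mul (by positivity)]
    refine mul_le_mul_right ((mono _ _ fun x hx => ?_).trans
      ((SPL.int_mul (by positivity)).le.trans (mul_le_mul_right iS _))) _
    by_cases hK : x ∈ K
    · rw [indicator_of_mem hK, indicator_of_mem (inS x (Or.inr hK)), mul_assoc, mul_assoc,
        ← Real.exp_add, ← Real.exp_add, ← Real.exp_add, eg, lneg]
      have a := (abs_le.1 (bd x hx)).1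
      have b := mul_le_mul_of_nonneg_left (wK x hK) (by positivity : (0 : ℝ) ≤ n + 1)
      exact mul_le_mul_of_nonneg_left (Real.exp_le_exp.2 (by linarith)) B0
    · rw [indicator_of_notMem hK, zero_mul]
      have := S0 x
      positivity
  have Fk : X.I (fun x => normSq (Γ x - F x) * Real.exp (-u x - (n + 1) * w x) *
      Real.exp (lw D (fun i => P i - X.o i) x)) ≤ ENNReal.ofReal (Real.exp C3 * A1) := by
    rw [ENNReal.ofReal_mul (by positivity)]
    refine le_trans (mono _ _ fun x hx => ?_)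
      ((SPL.int_mul (Real.exp_pos C3).le).le.trans (mul_le_mul_right Fj _))
    rw [mul_left_comm, mul_assoc, ← Real.exp_add, ← Real.exp_add, eg, eQ]
    have a := (abs_le.1 (bd x hx)).2
    exact mul_le_mul_of_nonneg_left (Real.exp_le_exp.2 (by linarith)) (normSq_nonneg _)
  have Fu : X.I (fun x => normSq (F x) * Real.exp (lw D (fun i => P i - X.o i) x) *
      Real.exp (-u x)) ≤ ENNReal.ofReal
        (2 * B * J + 2 * Real.exp ((n + 1) * C2) * (Real.exp C3 * A1)) := by
    have mS : AEMeasurable (fun x => S.indicator (fun x => Real.exp (-u x)) x *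
        Real.exp (lw D (-X.o) x)) X.μ := ((meas ℝ _
      (Real.continuous_exp.comp_continuousOn (cont ℝ _ hu.sm).neg)).indicator
        ((D.e d).isOpen_inter_preimage isOpen_ball).measurableSet).mul (m1 (-X.o))
    refine (mono _ _ fun x hx => ?_).trans
      (SPL.int_lin mS (by positivity) (by positivity) J0 (by positivity) iS Fk)
    have a := SPL.nsq_add (Γ x) (-(Γ x - F x))
    rw [normSq_neg, show Γ x + -(Γ x - F x) = F x by ring] at a
    have b : normSq (Γ x) * (Real.exp (lw D (fun i => P i - X.o i) x) * Real.exp (-u x)) ≤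
        B * (S.indicator (fun x => Real.exp (-u x)) x * Real.exp (lw D (-X.o) x)) := by
      by_cases h : Γ x = 0
      · rw [h, map_zero, zero_mul]
        have := S0 x
        positivity
      refine (mul_le_mul_of_nonneg_right (Γb x hx) (by positivity)).trans (le_of_eq ?_)
      rw [indicator_of_mem (inS x (Or.inl h)), mul_assoc, ← Real.exp_add, ← Real.exp_add,
        ← Real.exp_add, eQ, lneg]
      congr 2
      ring
    have e : Real.exp (-u x) ≤ Real.exp ((n + 1) * C2) * Real.exp (-u x - (n + 1) * w x) := by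
      rw [← Real.exp_add]
      have := mul_le_mul_of_nonneg_left (wu x) (by positivity : (0 : ℝ) ≤ n + 1)
      exact Real.exp_le_exp.2 (by linarith)
    have p := Real.exp_pos (lw D (fun i => P i - X.o i) x)
    have q := mul_le_mul_of_nonneg_left e (mul_nonneg (normSq_nonneg (Γ x - F x)) p.le)
    have t := mul_le_mul_of_nonneg_right a (mul_pos p (Real.exp_pos (-u x))).le
    linarith
  have FM : Mer D P F := hPOG n M ι D X P F Fh (ne_top_of_le_ne_top ENNReal.ofReal_ne_top
    ((mono _ _ fun x hx => le_mul_of_one_le_right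
      (mul_nonneg (normSq_nonneg _) (Real.exp_pos _).le)
      (Real.one_le_exp (neg_nonneg.2 (hu.bd x hx).2))).trans Fu))
  refine ⟨_, ((hUPB n M ι D P).1 F FM).2, le_trans (not_lt.1 fun k => ρv.not_ge ?_)
    (mono (fun x => normSq (F x) * Real.exp (lw D (fun i => P i - X.o i) x)) _
      fun x hx => by rw [indicator_of_mem hx]),
    le_trans (mono _ _ fun x hx => by rw [indicator_of_mem hx]) Fu⟩
  have mF : AEMeasurable (fun x => normSq (F x) * Real.exp (lw D (fun i => P i - X.o i) x)) X.μ :=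
    (meas ℝ _ (continuous_normSq.comp_continuousOn (cont ℂ _ (hsm F Fh)))).mul (m1 _)
  have k1 := SPL.int_lin (a := 2) (b := 2 * ((n + 1) * ρ ^ 2) ^ (n + 1)) mF two_pos.le (by positivity) (by positivity) (by positivity) k.le Fk
  have k2 := (h4 (fun i => P i) (fun x => 2 * normSq (F x) + 2 * ((n + 1) * ρ ^ 2) ^ (n + 1) *
    (normSq (Γ x - F x) * Real.exp (-u x - (n + 1) * w x))) d fun i =>
      Finset.single_le_sum (f := fun i => |(P i : ℝ)|) (fun _ _ => abs_nonneg _)
        (Finset.mem_univ i)).trans (mul_le_mul (ENNReal.ofReal_le_ofReal (le_abs_self C4))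
          ((mono _ _ fun x _ => le_of_eq (by
            change _ * Real.exp (lw D (fun i => P i - X.o i) x) = _
            ring)).trans k1) zero_le zero_le)
  have sub : ball z₀ ρ ⊆ closedBall 0 (3 / 2) :=
    (ball_subset_ball (by linarith [min_le_left r R])).trans sub0
  have sub2 : closedBall (0 : E n) (3 / 2) ⊆ B2 n := closedBall_subset_ball (by norm_num)
  have k3 : ENNReal.ofReal (ρ ^ (n * 2) * v) ≤ _ := le_trans ?_ ((lintegral_mono_set sub).trans k2)
  · rw [← ENNReal.ofReal_mul (abs_nonneg _), ENNReal.ofReal_le_ofReal_iff (by positivity)] at k3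
    have p := pow_pos ρ0 (n * 2)
    have a : |C4| * (2 * (ρ ^ (n * 2) * v / (4 * (|C4| + 1)))) ≤ ρ ^ (n * 2) * (v / 2) := by
      have := abs_nonneg C4
      rw [← mul_div_assoc, ← mul_div_assoc, div_le_iff₀ (by positivity)]
      nlinarith [mul_pos p v0]
    refine le_of_mul_le_mul_left ?_ p
    rw [mul_add |C4|, mul_pow, ← pow_mul, show 2 * (n + 1) = n * 2 + 2 by ring, pow_add ρ] at k3
    linarith
  have e : Module.finrank ℝ (E n) = n * 2 := by
    simp [Module.finrank_pi_fintype, Complex.finrank_real_complex]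
  rw [ENNReal.ofReal_mul (by positivity), hv, ENNReal.ofReal_toReal measure_ball_lt_top.ne, ← e,
    ← Measure.addHaar_ball_of_pos _ z₀ ρ0, ← setLIntegral_one, ← ENNReal.ofReal_one]
  refine lintegral_mono_ae ?_
  filter_upwards [ae_restrict_mem measurableSet_ball,
    ae_restrict_of_ae (MON.off_ae (D.c d))] with y y1 yo
  refine ENNReal.ofReal_le_ofReal ?_
  have yB := sub2 (sub y1)
  have e1 : normSq (D.rd Γ d y) * xr (D.c d) (fun i => P i) y = 1 := by
    rw [Γe y (ball_subset_ball ρr y1) yo, MON.xm_neg, ← nsq_xm45, ← map_mul,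
      inv_mul_cancel₀ (MON.xm_ne P yo), map_one]
  have n0 := SV.nsq_nonneg (y - z₀)
  have e2 : D.rd w d y ≤ Real.log ((n + 1) * ρ ^ 2) := by
    rw [we y (ball_subset_ball ρR y1)]
    refine Real.log_le_log (by positivity) ?_
    have := nsq_le45 (mem_ball_iff_norm.1 y1).le
    linarith
  have e4 : D.rd u d y ≤ 0 := (hu.bd _ ((GLU.mem_off (GLU.mem_src d yB)).2
    (by rwa [GLU.rinv d yB]))).2
  have e3 : 1 ≤ ((n + 1) * ρ ^ 2) ^ (n + 1) * Real.exp (-D.rd u d y - (n + 1) * D.rd w d y) := by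
    rw [← Real.exp_log (by positivity : (0 : ℝ) < (n + 1) * ρ ^ 2), ← Real.exp_nat_mul,
      ← Real.exp_add]
    have := mul_le_mul_of_nonneg_left e2 (by positivity : (0 : ℝ) ≤ n + 1)
    exact Real.one_le_exp (by push_cast; linarith)
  have a := SPL.nsq_add (D.rd F d y) (D.rd Γ d y - D.rd F d y)
  rw [add_sub_cancel] at a
  have q := mul_le_mul_of_nonneg_left e3 (normSq_nonneg (D.rd Γ d y - D.rd F d y))
  refine e1.ge.trans (mul_le_mul_of_nonneg_right (a.trans ?_) (MON.xr_pos _ yo).le)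
  simp only [Ad.rd] at q ⊢
  linarith

end Pool.Agent.Lib.DM
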