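import Pool.Agent.Lib.NV5.DomBlue
import Pool.Agent.Lib.NV2.B_CHN

/-! Project NV5, block DOM, row `HL`: the limit section. -/

open scoped Classical Topology ENNReal
open Set MeasureTheory Complex Metric Filter

noncomputable section

namespace Pool.Agent.Lib.DM

open Pool.Agent.Lib.HS32 Pool.Agent.Lib.EX Pool.Agent.Lib.EXS Pool.Agent.Lib.ZL

/-- Row `HL`. -/
theorem dHL (hHK : St_HK) (hLIM : St_LIM) (hPW : ZL.St_PW) (hMU : ZL.St_MU) (hUPB : ZL.St_UPB)
    (hFIN : ZL.St_FIN) : St_HL := by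
  intro n M _ ι _ _ D X hX
  obtain ⟨c, hc⟩ := hHK n M ι D X hX
  refine ⟨c, fun Q d z₀ r A C φ u h hz r0 r1 hW ha => ?_⟩
  obtain ⟨b, B, b0, hb⟩ := hc Q d z₀ r A C hz r0 r1
  choose F f1 f2 f3 using fun k => hb (φ k) (u k) (hW k)
  set P : ι → ℤ := fun i => Q i + c * X.e i
  obtain ⟨V, hV, hm⟩ := hFIN n M ι D P
  obtain ⟨-, -, l1, -, -, l4, -, l6, -, l8, l9⟩ := hPW n M ι D
  obtain ⟨m1, m2, m3, m4, -⟩ := hMU n M ι D X
  have mw : AEMeasurable (fun x => Real.exp (lw D (fun i => (P i : ℝ) - X.o i) x)) X.μ :=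
    m2 ℝ _ (l8 ℝ _ (l6 _)).rexp
  obtain ⟨f, hf, g⟩ := hLIM M.X X.μ V (fun x => Real.exp (lw D (fun i => (P i : ℝ) - X.o i) x)) h
    (fun k x => Real.exp (-u k x)) F b B hV b0 mw (fun x => (Real.exp_pos _).le)
    (fun k => m2 ℝ _ (l8 ℝ _ (hW k).sm).neg.rexp) (fun f hf => by
      have s := (hm f).1 hf
      have mf : AEMeasurable f X.μ := m2 ℂ _ (l8 ℂ _ (l9 _ ((hUPB n M ι D P).1 f s.1).1))
      refine ⟨mf, ?_, fun q => NV2.CHN.ae_zero hPW hMU hUPB X s ?_⟩
      · obtain ⟨K, hK⟩ := (hUPB n M ι D P).2.2.2.2.1 f s.1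
        have e : (fun i => (P i : ℝ) - X.o i) = (fun i => (P i : ℝ)) + -X.o :=
          funext fun i => sub_eq_add_neg _ _
        refine ne_top_of_le_ne_top (b := ENNReal.ofReal |K| *
          X.I fun x => Real.exp (lw D (-X.o) x)) (ENNReal.mul_ne_top ENNReal.ofReal_ne_top
            (m4 _ fun i => by simp)) ?_
        rw [Cx.I, ← lintegral_const_mul' _ _ ENNReal.ofReal_ne_top]
        refine lintegral_mono_ae (m1.mono fun x hx => ?_)
        rw [← ENNReal.ofReal_mul (abs_nonneg _), e, l1, Real.exp_add, ← mul_assoc]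
        refine ENNReal.ofReal_le_ofReal (mul_le_mul_of_nonneg_right ?_ (Real.exp_pos _).le)
        have := mul_le_mul_of_nonneg_right (hK x hx) (Real.exp_pos (lw D (fun i => P i) x)).le
        rw [mul_assoc, ← Real.exp_add, neg_add_cancel, Real.exp_zero, mul_one] at this
        exact this.trans (le_abs_self K)
      · filter_upwards [(lintegral_eq_zero_iff' ((continuous_normSq.measurable.comp_aemeasurable
          mf).mul mw).ennreal_ofReal).1 q] with x hx
        exact normSq_eq_zero.1 (le_antisymm (nonpos_of_mul_nonpos_left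
          (ENNReal.ofReal_eq_zero.1 hx) (Real.exp_pos _)) (normSq_nonneg _)))
    (by
      filter_upwards [m1, ha] with x hx hy
      exact ⟨fun k => Real.one_le_exp (neg_nonneg.2 ((hW k).bd x hx).2), hy⟩)
    fun k => ⟨(hm _).2 (f1 k), f2 k, f3 k⟩
  exact ⟨f, (hm f).1 hf, g⟩

end Pool.Agent.Lib.DM
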