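import Pool.Agent.Lib.NV5.DomBlue
import Pool.Agent.Lib.EX.K1O
import Pool.Agent.Lib.EXS.B_GLU

/-! Project NV5, block DOM: the metric of the ample divisor. -/

open scoped Classical Topology ContDiff ComplexOrder Matrix
open Set Complex Metric Filter

set_option linter.unusedSectionVars false

noncomputable section

namespace Pool.Agent.Lib.DM

open Pool.Agent.Lib.SV (E nsq)
open Pool.Agent.Lib.HS32 Pool.Agent.Lib.EX Pool.Agent.Lib.EXS Pool.Agent.Lib.ZL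
open Pool.Agent.Lib.EXS.K32 Pool.Agent.Lib.EXS.GLU

namespace KAH

variable {n : ℕ} {M : Mf n} {ι : Type} [Fintype ι] [DecidableEq ι] {D : Ad M ι} (A : Am D)
  {a b : D.A} {x : M.X}

/-- The numerators differ by a unit. -/
theorem rel (ha : x ∈ (D.e a).source) (hb : x ∈ (D.e b).source) : ∃ U : E n → ℂ,
    HolN U (D.e b x) ∧ U (D.e b x) ≠ 0 ∧
      A.t b =ᶠ[𝓝 (D.e b x)] fun w => U w • (A.t a ∘ D.e a ∘ (D.e b).symm) w := by
  obtain ⟨t1, -, -, t2, -⟩ := (mTR n M).2.1 _ (D.mem a) _ (D.mem b) x ha hb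
  have e0 := (D.e b).left_inv hb
  obtain ⟨u1, u2⟩ := K1.holN_prod (u := fun i y => D.u a b i ((D.e b).symm y)) (z := D.e b x)
    (fun i => ⟨D.uhol a b i x ha hb, by rw [e0]; exact D.une a b i x ha hb⟩) fun i => -(A.e i : ℤ)
  have h1 : HolN (A.t a ∘ D.e a ∘ (D.e b).symm) (D.e b x) := by
    filter_upwards [t1, t2] with w w1 w2
    exact (A.thol a _ (mem_B2 w2.2.1)).1.self_of_nhds.comp w w1
  refine ⟨_, u1, u2, K1.ev_off (D.c b) (A.thol b _ (mem_B2 hb)).1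
    ((u1.and h1).mono fun w hw => hw.1.smul hw.2) (t2.mono fun w hw ho => ?_)⟩
  have o1 : Off (D.c b) (D.e b ((D.e b).symm w)) := by rwa [hw.2.2.2.2.2.1]
  have a1 := (A.thol a _ (mem_B2 hw.2.1)).2.2 ((mem_off hw.2.1).1 ((mem_off hw.2.2.1).2 o1))
  have a2 := (A.thol b _ (mem_B2 hw.2.2.1)).2.2 o1
  rw [rd_e _ hw.2.1, K1.xm_rel hw.2.1 hw.2.2.1, hw.2.2.2.2.2.1] at a1
  rw [rd_e _ hw.2.2.1, hw.2.2.2.2.2.1, a1, mul_comm, mul_smul] at a2
  exact (smul_right_injective _ (MON.xm_ne _ ho) a2).symm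

/-- The local forms. -/
def fs (d : D.A) : E n → Mat n := hess fun y => (Real.log (nsq (A.t d y)) : ℝ)

theorem sm {z : E n} (hz : z ∈ B2 n) : ContDiffAt ℝ ∞ (fun y => Real.log (nsq (A.t a y))) z :=
  (lv_lg (A.thol a z hz).1 (A.thol a z hz).2.1).1

theorem cmp (ha : x ∈ (D.e a).source) (hb : x ∈ (D.e b).source) : fs A b (D.e b x) =
    (M.J (D.e a) (D.e b) x)ᴴ * fs A a (D.e a x) * M.J (D.e a) (D.e b) x := by
  obtain ⟨U, u1, u2, u3⟩ := rel A ha hb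
  obtain ⟨t1, -, -, t2, -⟩ := (mTR n M).2.1 _ (D.mem a) _ (D.mem b) x ha hb
  have e0 : (D.e a ∘ (D.e b).symm) (D.e b x) = D.e a x := congrArg (D.e a) ((D.e b).left_inv hb)
  obtain ⟨l1, l2, -⟩ := ((mHOL n U _).2.2 u1).2.2.2 u2
  have s1 := cd_ofReal (sm A (a := a) (e0.symm ▸ mem_B2 ha))
  have e : (fun y => (Real.log (nsq (A.t b y)) : ℂ)) =ᶠ[𝓝 (D.e b x)] fun w =>
      (Real.log (normSq (U w)) : ℝ) +
        ((fun y => (Real.log (nsq (A.t a y)) : ℂ)) ∘ D.e a ∘ (D.e b).symm) w := by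
    filter_upwards [u3, t2, u1.self_of_nhds.continuousAt.eventually_ne u2] with w w1 w2 w3
    have e1 : ∀ (t : ℂ) (v : E A.r), nsq (t • v) = normSq t * nsq v := fun t v => by
      simp [nsq, Finset.mul_sum]
    rw [w1, e1]
    exact (congrArg ofReal (Real.log_mul (normSq_pos.2 w3).ne'
      (nsq_pos (A.thol a _ (mem_B2 w2.2.1)).2.1).ne')).trans (ofReal_add _ _)
  rw [fs, hess_congr e, hess_add (cd_ofReal l1) (s1.comp _ (mCHN n _ _ t1).1), l2, zero_add,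
    (mCHN n _ _ t1).2.2.2.2.2.2.2.2.2.2.2 _ s1, e0]
  rfl

end KAH

open KAH in
theorem dKAH : St_KAH := by
  intro n M _ ι _ _ D A
  have hS : M.Sub (range D.e) := ⟨range_subset_iff.2 D.mem, fun x =>
    let ⟨d, hd⟩ := ex_ch D x
    ⟨_, ⟨d, rfl⟩, hd⟩⟩
  let T : M.Fam (Mat n) := fun e => if h : ∃ d, D.e d = e then fs A h.choose else 0
  have hT : ∀ d, ∃ d', D.e d' = D.e d ∧ T (D.e d) = fs A d' := fun d =>
    have h : ∃ d', D.e d' = D.e d := ⟨d, rfl⟩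
    ⟨_, h.choose_spec, dif_pos h⟩
  have tg : ∀ d, ∀ z ∈ (D.e d).target, z ∈ B2 n := fun d z hz => D.tgt d ▸ hz
  obtain ⟨H, h1, h2⟩ := (mEXT n M _ hS).1 T (by
    rintro _ ⟨d, rfl⟩ z hz
    obtain ⟨d', -, e⟩ := hT d
    rw [e]
    exact smM_hess (cd_ofReal (sm A (tg d z hz)))) (by
    rintro _ ⟨a, rfl⟩ _ ⟨b, rfl⟩ x ha hb
    obtain ⟨a', a1, a2⟩ := hT a
    obtain ⟨b', b1, b2⟩ := hT b
    change T (D.e b) (D.e b x) = _ * T (D.e a) (D.e a x) * _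
    rw [a2, b2, ← a1, ← b1]
    exact cmp A (a1.symm ▸ ha) (b1.symm ▸ hb))
  have h3 : D.All fun d z => H (D.e d) z = fs A d z := fun d z hz => by
    obtain ⟨d', e1, e2⟩ := hT d
    have k := cmp A (a := d') (by rw [e1]; exact mem_src d hz) (mem_src d hz)
    rw [e1, (mTR n M).2.2.1 _ (D.mem d) _ (mem_src d hz), rinv d hz, Matrix.conjTranspose_one,
      Matrix.one_mul, Matrix.mul_one] at k
    exact (h2 _ ⟨d, rfl⟩ z (mem_tgt d hz)).trans ((congrFun e2 z).trans k.symm)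
  obtain ⟨-, s2, -, s4, -⟩ := (mSUB n M _ hS).1 H h1
  have pos := s2 (by
    rintro _ ⟨d, rfl⟩ z hz
    have hz' := tg d z hz
    change (H (D.e d) z).PosDef
    rw [h3 d z hz']
    exact pd_of_lv (sm A hz') fun v hv => ((lv_lg (A.thol d z hz').1 (A.thol d z hz').2.1).2 v).2
      fun t ht => hv (A.imm d z hz' v t ht))
  have cl := s4 (by
    rintro _ ⟨d, rfl⟩ z hz i j k
    have ev : ∀ᶠ w in 𝓝 z, H (D.e d) w = fs A d w :=
      (isOpen_ball.eventually_mem (tg d z hz)).mono fun w hw => h3 d w hw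
    have e : ∀ k j, dM k (H (D.e d)) z i j = dM k (fs A d) z i j := fun k j =>
      dz_congr (ev.mono fun w hw => congrFun (congrFun hw i) j)
    rw [e, e]
    exact clM_hess (cd_ofReal (sm A (tg d z hz))) i j k)
  have fo : M.Form H := ⟨h1, fun e he z hz => (pos e he z hz).1⟩
  exact ⟨H, ⟨⟨fo, cl⟩, pos⟩, h3⟩

end Pool.Agent.Lib.DM
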