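import Pool.Agent.Lib.NV5.DomBlue

/-! Project NV5, block DOM, row `LIM`: the limit in a space of finite dimension. -/

open scoped Classical Topology ENNReal
open Set MeasureTheory Complex Metric Filter

noncomputable section

namespace Pool.Agent.Lib.DM

namespace LIM

theorem sq_le {m : ℕ} (a e : Fin m → ℂ) :
    normSq (∑ i, a i * e i) ≤ ‖a‖ ^ 2 * (m * ∑ i, normSq (e i)) := by
  have h1 : ‖∑ i, a i * e i‖ ≤ ‖a‖ * ∑ i, ‖e i‖ := by
    rw [Finset.mul_sum]
    exact norm_sum_le_of_le _ fun i _ => (norm_mul_le _ _).trans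
      (mul_le_mul_of_nonneg_right (norm_le_pi_norm a i) (norm_nonneg _))
  have h2 := sq_sum_le_card_mul_sum_sq (s := Finset.univ) (f := fun i => ‖e i‖)
  rw [Finset.card_fin] at h2
  simp only [normSq_eq_norm_sq]
  refine (pow_le_pow_left₀ (norm_nonneg _) h1 2).trans ?_
  rw [mul_pow]
  exact mul_le_mul_of_nonneg_left h2 (sq_nonneg _)

end LIM

/-- Row `LIM`. -/
theorem dLIM : St_LIM := by
  intro Y _ μ S w h a F b B _ hb mw w0 ma hS hc hF
  set m := Module.finrank ℂ S
  let e := Module.finBasis ℂ S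
  have ms : ∀ v : S, AEMeasurable (fun x => normSq (v.1 x) * w x) μ := fun v =>
    (continuous_normSq.measurable.comp_aemeasurable (hS _ v.2).1).mul mw
  have hv : ∀ (v : S) x, v.1 x = ∑ i, e.equivFun v i * (e i).1 x := fun v x => by
    conv_lhs => rw [← e.sum_equivFun v]
    simp only [AddSubmonoidClass.coe_finsetSum, SetLike.val_smul, Finset.sum_apply,
      Pi.smul_apply, smul_eq_mul]
  set T : ℝ≥0∞ := ENNReal.ofReal m * ∑ i, ∫⁻ x, ENNReal.ofReal (normSq ((e i).1 x) * w x) ∂μ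
  have T0 : T ≠ ⊤ := ENNReal.mul_ne_top ENNReal.ofReal_ne_top
    (ENNReal.sum_ne_top.2 fun i _ => (hS _ (e i).2).2.1)
  have bd : ∀ v : S, ∫⁻ x, ENNReal.ofReal (normSq (v.1 x) * w x) ∂μ ≤
      ENNReal.ofReal (‖e.equivFun v‖ ^ 2) * T := fun v => by
    simp only [T]
    rw [← lintegral_finsetSum' _ fun i _ => (ms (e i)).ennreal_ofReal,
      ← lintegral_const_mul' _ _ ENNReal.ofReal_ne_top,
      ← lintegral_const_mul' _ _ ENNReal.ofReal_ne_top]
    refine lintegral_mono fun x => ?_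
    rw [← ENNReal.ofReal_sum_of_nonneg fun i _ => mul_nonneg (normSq_nonneg _) (w0 x),
      ← ENNReal.ofReal_mul (Nat.cast_nonneg _), ← ENNReal.ofReal_mul (sq_nonneg _),
      ← Finset.sum_mul, ← mul_assoc, ← mul_assoc, hv, mul_assoc (_ ^ 2)]
    exact ENNReal.ofReal_le_ofReal (mul_le_mul_of_nonneg_right (LIM.sq_le _ _) (w0 x))
  have b0 : ENNReal.ofReal b ≠ 0 := (ENNReal.ofReal_pos.2 hb).ne'
  let v : ℕ → S := fun k => ⟨F k, (hF k).1⟩
  have v1 : ∀ k, ENNReal.ofReal b ≤ ENNReal.ofReal (‖e.equivFun (v k)‖ ^ 2) * T := fun k =>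
    (hF k).2.1.trans (bd (v k))
  have v0 : ∀ k, ‖e.equivFun (v k)‖ ≠ 0 := fun k q => b0 (by
    have := v1 k
    rw [q, zero_pow two_ne_zero, ENNReal.ofReal_zero, zero_mul] at this
    exact le_antisymm this zero_le)
  let s : ℕ → ℝ := fun k => ‖e.equivFun (v k)‖⁻¹
  let u : ℕ → S := fun k => (s k : ℂ) • v k
  have u1 : ∀ k, e.equivFun (u k) ∈ sphere (0 : Fin m → ℂ) 1 := fun k => by
    rw [mem_sphere_zero_iff_norm, map_smul, norm_smul, norm_real, norm_inv, norm_norm,
      inv_mul_cancel₀ (v0 k)]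
  obtain ⟨c, hc1, φ, hφ, ht⟩ := (isCompact_sphere _ _).tendsto_subseq u1
  let f := e.equivFun.symm c
  have h1 : ∀ k, ∫⁻ x, ENNReal.ofReal (normSq ((u k).1 x) * w x * a k x) ∂μ ≤
      T * ENNReal.ofReal B / ENNReal.ofReal b := fun k => by
    rw [ENNReal.le_div_iff_mul_le (Or.inl b0) (Or.inl ENNReal.ofReal_ne_top)]
    have q : ∀ x, ENNReal.ofReal (normSq ((u k).1 x) * w x * a k x) =
        ENNReal.ofReal (s k ^ 2) * ENNReal.ofReal (normSq (F k x) * w x * a k x) := fun x => by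
      rw [← ENNReal.ofReal_mul (sq_nonneg _),
        show (u k).1 x = (s k : ℂ) * F k x from rfl, map_mul, normSq_ofReal]
      congr 1
      ring
    simp only [q]
    rw [lintegral_const_mul' _ _ ENNReal.ofReal_ne_top]
    refine (mul_le_mul' (mul_le_mul_right (hF k).2.2 _) (v1 k)).trans_eq ?_
    rw [mul_mul_mul_comm, ← ENNReal.ofReal_mul (sq_nonneg _), ← mul_pow,
      inv_mul_cancel₀ (v0 k), one_pow, ENNReal.ofReal_one, one_mul, mul_comm]
  refine ⟨f.1, f.2, fun q => ?_, ne_top_of_le_ne_top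
    (ENNReal.div_ne_top (ENNReal.mul_ne_top T0 ENNReal.ofReal_ne_top) b0) (le_trans
      (le_trans (lintegral_mono_ae (hc.mono fun x hx => ?_)) (lintegral_liminf_le' (u := atTop)
        fun k => ((ms (u (φ k))).mul (ma (φ k))).ennreal_ofReal))
      (liminf_le_of_frequently_le' (Frequently.of_forall fun k => h1 (φ k))))⟩
  · have : c = 0 := e.equivFun.symm.map_eq_zero_iff.1 (Subtype.ext q)
    simp [this] at hc1
  · obtain ⟨-, t, t1, t2⟩ := hx
    have p : Tendsto (fun k => (u (φ k)).1 x) atTop (𝓝 (f.1 x)) := by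
      rw [hv f x, e.equivFun.apply_symm_apply]
      exact (tendsto_finsetSum _ fun i _ => (tendsto_pi_nhds.1 ht i).mul_const _).congr
        fun k => (hv (u (φ k)) x).symm
    have p2 := ENNReal.tendsto_ofReal ((((continuous_normSq.tendsto _).comp p).mul_const
      (w x)).mul (t1.comp hφ.tendsto_atTop))
    rw [← p2.liminf_eq]
    exact liminf_le_liminf (Eventually.of_forall fun k => ENNReal.ofReal_le_ofReal
      (mul_le_mul_of_nonneg_left (t2 _) (mul_nonneg (normSq_nonneg _) (w0 x))))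

end Pool.Agent.Lib.DM
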