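import Pool.Agent.Lib.NV5.DomBlue
import Pool.Agent.Lib.SV.B_ZER
import Pool.Agent.Lib.SV.B_SUB
import Pool.Agent.Lib.EX.B_MON

/-! Project NV5, block DOM: row NUL, the complement of the domain is negligible. -/

open scoped Classical Topology ContDiff ENNReal
open Set MeasureTheory Complex Metric Filter

noncomputable section

namespace Pool.Agent.Lib.DM

open Pool.Agent.Lib.SV (E)
open Pool.Agent.Lib.HS32 Pool.Agent.Lib.EX Pool.Agent.Lib.EXS Pool.Agent.Lib.ZL

namespace NUL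

variable {n : ℕ} {M : Mf n} {ι : Type} [Fintype ι] [DecidableEq ι] {D : Ad M ι} {O : Set M.X}
  {g : M.X → ℂ}

omit [Fintype ι] [DecidableEq ι] in
theorem ae_in (h : Rat D O g) (d : D.A) :
    ∀ᵐ z ∂(volume.restrict (B2 n)), (D.e d).symm z ∈ O := by
  obtain ⟨q, hq, hq'⟩ := h.eqn d
  have h0 : (0 : E n) ∈ B2 n := mem_ball_self two_pos
  obtain ⟨w, hw⟩ := ((not_eventually.1 (hq' 0 h0).1).and_eventually
    (isOpen_ball.mem_nhds h0)).exists
  rw [ae_restrict_iff' measurableSet_ball]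
  refine measure_mono_null (fun z hz => ?_) (SV.stZER SV.stSUB n q 0 2 hq ⟨w, hw.2, hw.1⟩)
  have hz' : ¬(z ∈ B2 n → (D.e d).symm z ∈ O) := hz
  exact ⟨(Classical.not_imp.1 hz').1, by_contra fun k => hz' fun hb => (hq' z hb).2 k⟩

theorem null (h : Rat D O g) (μ : Measure M.X) (ρ : D.A → E n → ℝ≥0∞)
    (hμ : ∀ d (F : M.X → ℝ≥0∞), ∫⁻ x in (D.e d).source, F x ∂μ =
      ∫⁻ z in B2 n, ρ d z * F ((D.e d).symm z)) : μ Oᶜ = 0 := by
  have e : (univ : Set M.X) = ⋃ d, (D.e d).source :=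
    (eq_univ_of_forall fun x => mem_iUnion.2 (GLU.ex_ch D x)).symm
  change ∀ᵐ x ∂μ, x ∈ O
  rw [← Measure.restrict_univ (μ := μ), e, ae_restrict_iUnion_iff]
  intro d
  change (μ.restrict _) Oᶜ = 0
  rw [← lintegral_indicator_one h.op.measurableSet.compl, hμ]
  refine lintegral_eq_zero_of_ae_eq_zero ((ae_in h d).mono fun z hz => ?_)
  beta_reduce
  rw [indicator_of_notMem (notMem_compl_iff.2 hz), mul_zero, Pi.zero_apply]

theorem cont (h : Rat D O g) : ContinuousOn g O := fun x hx => by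
  obtain ⟨d, hd⟩ := GLU.ex_ch D x
  have h1 := (h.hol d _ (GLU.mem_B2 hd) (by rwa [(D.e d).left_inv hd])).self_of_nhds.continuousAt
  refine ((h1.comp ((D.e d).continuousAt hd)).congr ?_).continuousWithinAt
  filter_upwards [(D.e d).open_source.mem_nhds hd] with y hy
  exact GLU.rd_e g hy

end NUL

theorem dNUL : St_NUL := by
  intro n M _ ι _ _ D X O g h
  have h1 : ∀ᵐ x ∂X.μ, x ∈ O := NUL.null h X.μ _ X.eta
  refine ⟨h1, fun G hG => NUL.null h _ (fun d z => ENNReal.ofReal (G (D.e d) z).det.re)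
    fun d F => ?_, ?_, fun d z hz => ?_⟩
  · have := ((mMU n M G hG).2.2.2.2.2.1 _ (D.mem d) (B2 n) measurableSet_ball
      (D.tgt d).ge).2.1 F
    rwa [← D.tgt d, (D.e d).symm_image_target_eq_source, D.tgt d] at this
  · have := (NUL.cont h).aemeasurable (μ := X.μ) h.op.measurableSet
    rwa [Measure.restrict_eq_self_of_ae_mem h1] at this
  · by_contra k
    obtain ⟨U, hU, Uo, zU⟩ :=
      _root_.mem_nhds_iff.1 (inter_mem (not_frequently.1 k) (isOpen_ball.mem_nhds hz))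
    refine (Uo.measure_pos volume ⟨z, zU⟩).ne' (measure_mono_null (fun y hy => ?_)
      (((ae_restrict_iff' measurableSet_ball).1 (NUL.ae_in h d)).and (MON.off_ae (D.c d))))
    exact fun t => (hU hy).1 ⟨t.2, t.1 (hU hy).2⟩

end Pool.Agent.Lib.DM
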