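import Pool.Agent.Lib.NV5.DomBlue

/-! Project NV5, block DOM: the sections for one level. -/

open scoped Classical Topology ContDiff ENNReal ComplexOrder Matrix
open Set MeasureTheory Complex Metric Filter

noncomputable section

namespace Pool.Agent.Lib.DM

open Pool.Agent.Lib.SV (E nsq)
open Pool.Agent.Lib.HS32 Pool.Agent.Lib.EX Pool.Agent.Lib.EXS Pool.Agent.Lib.ZL

namespace ONE

theorem clu {A : Type} [Finite A] {n : ℕ} (d : ℕ → A) (z : ℕ → E n) (hz : ∀ k, ‖z k‖ ≤ 1) {r : ℝ}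
    (hr : 0 < r) : ∃ d₀ z₀, ‖z₀‖ ≤ 1 ∧ ∀ N, ∃ k, N ≤ k ∧ d k = d₀ ∧ ‖z k - z₀‖ ≤ r := by
  let U : Ultrafilter ℕ := Ultrafilter.of atTop
  obtain ⟨d₀, h0⟩ := Ultrafilter.eq_pure_of_finite (U.map d)
  obtain ⟨z₀, h1, h2⟩ := (isCompact_closedBall (0 : E n) 1).ultrafilter_le_nhds (U.map z)
    (le_principal_iff.2 (mem_map.2 (Eventually.of_forall fun k => mem_closedBall_zero_iff.2 (hz k))))
  refine ⟨d₀, z₀, mem_closedBall_zero_iff.1 h1, fun N => ?_⟩
  have a1 : ∀ᶠ k in (U : Filter ℕ), d k = d₀ := by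
    have : {d₀} ∈ U.map d := h0 ▸ Ultrafilter.mem_pure.2 rfl
    exact this
  have a2 : ∀ᶠ k in (U : Filter ℕ), z k ∈ closedBall z₀ r := h2 (closedBall_mem_nhds z₀ hr)
  have a3 : ∀ᶠ k in (U : Filter ℕ), N ≤ k := Ultrafilter.of_le atTop (eventually_ge_atTop N)
  obtain ⟨k, b3, b1, b2⟩ := (a3.and (a1.and a2)).exists
  exact ⟨k, b3, b1, mem_closedBall_iff_norm.1 b2⟩

theorem lim {Y : Type} {V W : Y → ℝ} {x : Y} {q L : ℝ} {J j : ℕ} {s : ℕ → ℝ} (hJ : 0 < J)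
    (hV : 0 < V x) (hq : 0 ≤ q) (hW : W x = V x * q) (hs : Tendsto s atTop (𝓝 0)) :
    Tendsto (fun k => Real.exp (-(J * (bar V W (j / J) (s k) (s k) x + L)))) atTop
      (𝓝 (Real.exp (-(J * L)) * (1 + q) ^ j)) := by
  have h1 : Tendsto (fun k => Real.log (V x + s k * W x)) atTop (𝓝 (Real.log (V x + 0 * W x))) :=
    (tendsto_const_nhds.add (hs.mul_const _)).log (by rw [zero_mul, add_zero]; exact hV.ne')
  have h2 := Real.continuous_exp.continuousAt.tendsto.comp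
    (((((h1.sub_const (Real.log (V x + W x))).const_mul ((j : ℝ) / J)).sub
      (hs.mul_const (Real.log (V x)))).add_const L).const_mul (J : ℝ)).neg
  have hJ' : (J : ℝ) ≠ 0 := Nat.cast_ne_zero.2 hJ.ne'
  have h3 : (0 : ℝ) < 1 + q := by linarith
  have e : Real.exp (-(J * L)) * (1 + q) ^ j = Real.exp (-(J * (j / J * (Real.log (V x + 0 * W x) -
      Real.log (V x + W x)) - 0 * Real.log (V x) + L))) := by
    rw [hW, ← mul_one_add, Real.log_mul hV.ne' h3.ne', ← Real.exp_log (pow_pos h3 j), Real.log_pow,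
      ← Real.exp_add, zero_mul, add_zero]
    congr 1
    field_simp
    ring
  rw [e]
  exact h2

end ONE

theorem dONE (hMV : St_MV) (hRHO : St_RHO) (hSKO : St_SKO) (hHL : St_HL) (hNUL : St_NUL)
    (hPW : St_PW) : St_ONE := by
  intro n M _ ι _ _ D X A H hn hC hF he hα hB
  obtain ⟨c, hc⟩ := hHL n M ι D X hB
  refine ⟨c + 1, fun J j l C v V W O g hJ hl hC0 hj hv hK hP hR hV hW => ?_⟩
  have hJ' : (0 : ℝ) < J := Nat.cast_pos.2 hJ
  obtain ⟨L, hL⟩ := hMV n M _ l C (j / J) V W hn hK hP hl (by positivity) (by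
    rw [← mul_div_assoc, div_mul_eq_mul_div]; exact (div_le_one hJ').2 hj)
  obtain ⟨ρ, C', c0, hρ, hu⟩ := hRHO n M ι D X A H J v hC hF he hα hJ hv hK.toMet
  obtain ⟨r, B, r0, r1, hS⟩ := hSKO n J C' hJ'.le c0
  have m0 : 0 < min 1 C⁻¹ := lt_min one_pos (inv_pos.2 hC0)
  have hs (k : ℕ) : min 1 C⁻¹ / (k + 1) ≤ min 1 C⁻¹ :=
    div_le_self m0.le (le_add_of_nonneg_left k.cast_nonneg)
  have hI (k : ℕ) : min 1 C⁻¹ / (k + 1) ∈ Ioc (0 : ℝ) 1 :=
    ⟨by positivity, (hs k).trans (min_le_left _ _)⟩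
  choose u u1 u2 u3 u4 u5 using fun k : ℕ => hL _ (hI k) _ (hI k)
    ((le_mul_inv_iff₀ hC0).1 (by rw [one_mul]; exact (hs k).trans (min_le_right _ _)))
  choose x hx using u4
  choose d hd hz using fun k => (hPW n M ι D).2.1 (x k)
  obtain ⟨d₀, z₀, h0, hk⟩ := ONE.clu d (fun k => D.e (d k) (x k)) hz r0
  choose k k1 k2 k3 using hk
  obtain ⟨F, f1, f2, f3⟩ := hc (fun i => J * X.l i + X.e i) d₀ z₀ r B C'
    (fun N y => ρ y + J * u (k N) y) (fun N y => J * u (k N) y)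
    (fun y => Real.exp (-(J * L)) * (1 + normSq (g y)) ^ j) h0 r0 r1 (fun N => by
      obtain ⟨a1, a2, a3⟩ := hu _ (u1 (k N)) (u2 (k N)).toMet
      refine ⟨a1, a2, fun y hy => ⟨?_, mul_nonpos_of_nonneg_of_nonpos hJ'.le (u3 _ _)⟩,
        hS (D.rd (u (k N)) d₀) z₀ _ (fun z hz => ?_) (k3 N) ?_⟩
      · rw [add_sub_cancel_right]; exact hρ y hy
      · have h : ‖z‖ ≤ 3 / 2 := by
          have := norm_add_le (z - z₀) z₀
          rw [sub_add_cancel] at this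
          linarith [mem_closedBall_iff_norm.1 hz]
        have b := a3 d₀ z (mem_ball_zero_iff.2 (by linarith))
        exact ⟨b.1, u3 _ _, b.2 h⟩
      · rw [← k2 N, Ad.rd, (D.e _).left_inv (hd _)]; exact hx _) (by
      filter_upwards [(hNUL n M ι D X O g hR).1] with y hy
      have v0 := (hV y).2 hy
      refine ⟨_, ONE.lim (s := fun N => min 1 C⁻¹ / (k N + 1)) (L := L) hJ
        ((hP.nV y).lt_of_ne' v0) (normSq_nonneg _) (hW y hy) ?_, fun N => Real.exp_le_exp.2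
        (neg_le_neg (mul_le_mul_of_nonneg_left (u5 _ y v0) hJ'.le))⟩
      exact tendsto_const_nhds.div_atTop (tendsto_atTop_add_const_right _ _
        (tendsto_natCast_atTop_atTop.comp (tendsto_atTop_mono k1 tendsto_id))))
  have e (i) : (J * X.l i + X.e i + c * X.e i : ℤ) = J * X.l i + (c + 1 : ℕ) * X.e i := by
    push_cast; ring
  simp only [e] at f1 f3
  refine ⟨F, f1, f2, fun h => f3 ?_⟩
  simp only [Cx.I, mul_left_comm _ (Real.exp (-(J * L))),
    ENNReal.ofReal_mul (Real.exp_pos (-(J * L))).le] at h ⊢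
  rw [lintegral_const_mul' _ _ ENNReal.ofReal_ne_top, h]
  exact ENNReal.mul_top (ENNReal.ofReal_pos.2 (Real.exp_pos _)).ne'

end Pool.Agent.Lib.DM
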