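import Pool.Agent.Lib.NV5.DomBlue
import Pool.Agent.Lib.HS32.EKit

/-! Project NV5, block DOM, row PAI: the pair of norms. -/

open scoped Classical Topology ContDiff ENNReal ComplexOrder Matrix
open Set MeasureTheory Complex Metric Filter

set_option linter.unusedVariables false
set_option linter.unusedSectionVars false

noncomputable section

namespace Pool.Agent.Lib.DM

open Pool.Agent.Lib.SV (E nsq)
open Pool.Agent.Lib.HS32 Pool.Agent.Lib.EX Pool.Agent.Lib.EXS Pool.Agent.Lib.ZL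
open Pool.Agent.Lib.RAA (hq kp hl)

namespace PAI

/-- The Hermitian form is homogeneous of degree two. -/
theorem hq_smul {κ : Type} [Fintype κ] (H : Matrix κ κ ℂ) (a : ℂ) (b : κ → ℂ) :
    hq H (a • b) = hq H b * normSq a := by
  unfold hq
  rw [Matrix.mulVec_smul, star_smul, smul_dotProduct, dotProduct_smul, smul_smul, smul_eq_mul]
  have : star a * a = (normSq a : ℝ) := by
    rw [normSq_eq_conj_mul_self]; rfl
  rw [this, re_ofReal_mul, mul_comm]

variable {n : ℕ} {M : Mf n} {ι : Type} [Fintype ι] [DecidableEq ι]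

/-- Every point lies in a chart of the atlas. -/
theorem pt (D : Ad M ι) (x : M.X) : ∃ d, x ∈ (D.e d).source ∧ D.e d x ∈ B2 n ∧
    (D.e d).symm (D.e d x) = x := by
  have h : ∃ d, D.χ d x ≠ 0 := by
    by_contra h
    push Not at h
    have := D.sum x
    simp [h] at this
  obtain ⟨d, hd⟩ := h
  have hx := (D.supp d x hd).1
  exact ⟨d, hx, D.tgt d ▸ (D.e d).map_source hx, (D.e d).left_inv hx⟩

end PAI

open PAI in
theorem dPAI (hCRV : St_CRV) (hNRM : St_NRM) (hNUL : St_NUL) : St_PAI := by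
  intro n M _ ι _ _ D X N B s₁ s₂ O g G hNB h₁ h₂ hR hO hG hL
  obtain ⟨hc, hC⟩ := hCRV n N B
  obtain ⟨C, C0, hC⟩ := hC M G hG.toMet
  obtain ⟨V, sV, eV⟩ := hNRM n M ι D N B s₂ G hG.toMet h₂
  obtain ⟨W, sW, eW⟩ := hNRM n M ι D N B s₁ G hG.toMet h₁
  have tg : ∀ d, ∀ z ∈ B2 n, z ∈ (D.e d).target := fun d z hz => (D.tgt d).symm ▸ hz
  have ev : ∀ d, ∀ z ∈ B2 n, ∀ᶠ w in 𝓝 z, SmM (G (D.e d)) w ∧ (G (D.e d) w).PosDef :=
    fun d z hz => (isOpen_ball.eventually_mem hz).mono fun w hw =>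
      ⟨hG.sm _ (D.mem d) w (tg d w hw), hG.pos _ (D.mem d) w (tg d w hw)⟩
  have k₁ := fun d z hz => hc _ (s₁ d) z (ev d z hz) (h₁.hol d z hz)
  have k₂ := fun d z hz => hc _ (s₂ d) z (ev d z hz) (h₂.hol d z hz)
  have vo : ∀ d, ∀ z ∈ B2 n, (V ((D.e d).symm z) ≠ 0 ↔ (D.e d).symm z ∈ O) := by
    intro d z hz
    have a : V ((D.e d).symm z) = uv N B (G (D.e d)) (s₂ d) z := eV d z hz
    rw [(hO d z hz).1, a]
    exact (k₂ d z hz).2.2.1.not
  have wv : ∀ d, ∀ z ∈ B2 n, (D.e d).symm z ∈ O →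
      W ((D.e d).symm z) = V ((D.e d).symm z) * normSq (D.rd g d z) := by
    intro d z hz h
    have a := eV d z hz
    have b := eW d z hz
    simp only [Ad.rd] at a b
    rw [a, b]
    unfold uv
    rw [(hO d z hz).2 ((hO d z hz).1.1 h), hq_smul]
    ring
  have hVO : ∀ x, V x ≠ 0 ↔ x ∈ O := by
    intro x
    obtain ⟨d, -, hz, e⟩ := pt D x
    have := vo d _ hz
    rwa [e] at this
  refine ⟨V, W, C, C0, ⟨sV, sW, fun x => ?_, fun x => ?_, ?_, fun x hx => ?_⟩, hVO, fun x hx => ?_⟩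
  · obtain ⟨d, -, hz, e⟩ := pt D x
    have a := eV d _ hz
    simp only [Ad.rd, e] at a
    exact a ▸ (k₂ d _ hz).2.1
  · obtain ⟨d, -, hz, e⟩ := pt D x
    have a := eW d _ hz
    simp only [Ad.rd, e] at a
    exact a ▸ (k₁ d _ hz).2.1
  · have : {x | V x = 0} = Oᶜ := by
      ext x
      simp only [mem_ofPred_eq, mem_compl_iff, ← hVO x, not_not]
    rw [this]
    exact (hNUL n M ι D X O g hR).2.1 G hG.toMet
  · obtain ⟨d, hs, hz, e⟩ := pt D x
    have xO := (hVO x).1 hx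
    have s0 : s₂ d (D.e d x) ≠ 0 := (hO d _ hz).1.1 (e.symm ▸ xO)
    have eh : hl (V ∘ (D.e d).symm) (D.e d x) = hl (uv N B (G (D.e d)) (s₂ d)) (D.e d x) := by
      unfold hl
      refine Pool.Agent.Lib.HS32.hess_congr ?_
      filter_upwards [isOpen_ball.eventually_mem hz] with w hw
      rw [← eV d w hw]
      rfl
    refine ⟨D.e d, D.mem d, hs, D.rd g d, hR.hol d _ hz (e.symm ▸ xO), ?_, ?_, ?_⟩
    · have ct : ContinuousAt (D.e d).symm (D.e d x) :=
        (D.e d).continuousAt_symm ((D.e d).map_source hs)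
      filter_upwards [isOpen_ball.eventually_mem hz,
        ct.eventually (hR.op.eventually_mem (e.symm ▸ xO))] with w h1 h2
      exact wv d w h1 h2
    · rw [eh]
      exact hC _ (D.mem d) _ (tg d _ hz) _ (h₂.hol d _ hz) s0
    · rw [eh]
      refine (k₂ d _ hz).2.2.2 hNB ((isOpen_ball.eventually_mem hz).mono fun w hw =>
        hG.cl _ (D.mem d) w (tg d w hw)) ?_ s0
      have := hL _ (D.mem d) _ (tg d _ hz)
      simpa [Mf.ric, sub_eq_add_neg] using this
  · obtain ⟨d, -, hz, e⟩ := pt D x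
    have := wv d _ hz (e.symm ▸ hx)
    simpa only [Ad.rd, e] using this

end Pool.Agent.Lib.DM
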