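import Pool.Agent.Lib.NV5.DomBlue

/-! Project NV5, block DOM, row RAT: the quotient of two proportional tensors. -/

open scoped Classical Topology ContDiff ENNReal Matrix
open Set MeasureTheory Complex Metric Filter

set_option linter.unusedSectionVars false

noncomputable section

namespace Pool.Agent.Lib.DM

open Pool.Agent.Lib.SV (E)
open Pool.Agent.Lib.HS32 Pool.Agent.Lib.EX Pool.Agent.Lib.EXS Pool.Agent.Lib.ZL
open Pool.Agent.Lib.RAA (kp)

namespace RAT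

variable {n : ℕ} {M : Mf n} {ι : Type} [Fintype ι] [DecidableEq ι] {D : Ad M ι} {N B : ℕ}
  {s s₁ s₂ : D.A → E n → (Fin N → Fin n) → ℂ}

theorem det_ne {a d : D.A} {x : M.X} (ha : x ∈ (D.e a).source) (hd : x ∈ (D.e d).source) :
    (D.J a d x).det ^ B ≠ 0 :=
  pow_ne_zero _ ((mTR n M).2.1 _ (D.mem a) _ (D.mem d) x ha hd).2.1

theorem chg (h₁ : Hs D N B s₁) (h₂ : Hs D N B s₂) {a d : D.A} {x : M.X}
    (ha : x ∈ (D.e a).source) (hd : x ∈ (D.e d).source) {c : ℂ}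
    (h : s₁ d (D.e d x) = c • s₂ d (D.e d x)) : s₁ a (D.e a x) = c • s₂ a (D.e a x) := by
  refine smul_right_injective _ (det_ne (B := B) ha hd) ?_
  show _ • _ = _ • _
  rw [h₁.law a d x ha hd, h, Matrix.mulVec_smul, ← h₂.law a d x ha hd, smul_comm]

theorem zero (h : Hs D N B s) {a d : D.A} {x : M.X} (ha : x ∈ (D.e a).source)
    (hd : x ∈ (D.e d).source) (h0 : s d (D.e d x) = 0) : s a (D.e a x) = 0 := by
  have := chg h h ha hd (c := 0) (by rw [h0, smul_zero])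
  rwa [zero_smul] at this

theorem src (d : D.A) {z : E n} (hz : z ∈ B2 n) :
    (D.e d).symm z ∈ (D.e d).source ∧ D.e d ((D.e d).symm z) = z :=
  ⟨(D.e d).map_target (D.tgt d ▸ hz), (D.e d).right_inv (D.tgt d ▸ hz)⟩

theorem tgt (d : D.A) {x : M.X} (hx : x ∈ (D.e d).source) : D.e d x ∈ B2 n :=
  D.tgt d ▸ (D.e d).map_source hx

theorem cov (x : M.X) : ∃ d, x ∈ (D.e d).source := by
  by_contra h
  push Not at h
  have : ∑ a, D.χ a x = 0 := Finset.sum_eq_zero fun a _ => by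
    by_contra h0
    exact h a (D.supp a x h0).1
  rw [D.sum x] at this
  exact one_ne_zero this

theorem dif (h : Hs D N B s) (d : D.A) : DifferentiableOn ℂ (s d) (B2 n) :=
  fun z hz => (h.hol d z hz).self_of_nhds.differentiableWithinAt

theorem difI (h : Hs D N B s) (d : D.A) (I : Fin N → Fin n) {z : E n} (hz : z ∈ B2 n) :
    DifferentiableAt ℂ (fun y => s d y I) z :=
  differentiableAt_pi.1 (h.hol d z hz).self_of_nhds I

/-- The tensor is not zero in any chart. -/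
theorem nz [M.Cpt] (h : Hs D N B s) (h0 : ∃ d, ∃ z ∈ B2 n, s d z ≠ 0) (d : D.A) :
    ∃ z ∈ B2 n, s d z ≠ 0 := by
  let P : D.A → Prop := fun a => ∃ z ∈ B2 n, s a z ≠ 0
  have hU : ∀ Q : D.A → Prop, IsOpen {x | ∃ a, Q a ∧ x ∈ (D.e a).source} := fun Q => by
    have : {x | ∃ a, Q a ∧ x ∈ (D.e a).source} = ⋃ a, ⋃ _ : Q a, (D.e a).source := by
      ext x
      simp
    rw [this]
    exact isOpen_iUnion fun a => isOpen_iUnion fun _ => (D.e a).open_source
  have key : ∀ a b x, P a → ¬ P b → x ∈ (D.e a).source → x ∈ (D.e b).source → False := by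
    rintro a b x ⟨z, hz, hz0⟩ hb ha hb'
    have hb0 : ∀ z ∈ B2 n, s b z = 0 := fun z hz => by
      by_contra h'
      exact hb ⟨z, hz, h'⟩
    refine hz0 (SV.H85.eqOn_zero_of_preconnected isOpen_ball (convex_ball _ _).isPreconnected
      (dif h a) (tgt a ha) ?_ hz)
    filter_upwards [((mTR n M).2.1 _ (D.mem b) _ (D.mem a) x hb' ha).2.2.2.1] with w hw
    have := zero h hw.2.2.1 hw.2.1 (hb0 _ (tgt b hw.2.1))
    rwa [hw.2.2.2.2.2.1] at this
  by_contra hd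
  obtain ⟨d₀, hd₀⟩ := h0
  have hz : (0 : E n) ∈ B2 n := mem_ball_self two_pos
  obtain ⟨x, -, ⟨a, ha, hxa⟩, b, hb, hxb⟩ := isPreconnected_univ (α := M.X) _ _ (hU P)
    (hU fun a => ¬ P a) (fun x _ => by
      obtain ⟨a, ha⟩ := cov (D := D) x
      by_cases hp : P a
      exacts [.inl ⟨a, hp, ha⟩, .inr ⟨a, hp, ha⟩])
    ⟨_, trivial, d₀, hd₀, (src d₀ hz).1⟩ ⟨_, trivial, d, hd, (src d hz).1⟩
  exact key a b x ha hb hxa hxb

/-- The proportionality holds at all points. -/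
theorem prop (h₁ : Hs D N B s₁) (h₂ : Hs D N B s₂)
    (h : OA D fun d z => ∀ I I', s₁ d z I * s₂ d z I' = s₁ d z I' * s₂ d z I) (d : D.A) {z : E n}
    (hz : z ∈ B2 n) {I : Fin N → Fin n} (hI : s₂ d z I ≠ 0) :
    s₁ d z = (s₁ d z I / s₂ d z I) • s₂ d z := by
  funext I'
  have e : s₁ d z I' * s₂ d z I = s₁ d z I * s₂ d z I' := by
    refine tendsto_nhds_unique_of_frequently_eq
      ((difI h₁ d I' hz).mul (difI h₂ d I hz)).continuousAt
      ((difI h₁ d I hz).mul (difI h₂ d I' hz)).continuousAt ?_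
    exact ((MON.off_freq (D.c d) z).and_eventually (isOpen_ball.mem_nhds hz)).mono
      fun y hy => h d y hy.2 hy.1 I' I
  rw [Pi.smul_apply, smul_eq_mul, div_mul_eq_mul_div, eq_div_iff hI, e]

end RAT

open RAT in
theorem dRAT : St_RAT := by
  intro n M _ ι _ _ D N B s₁ s₂ h₁ h₂ h0 hp
  let O : Set M.X := {x | ∃ d, x ∈ (D.e d).source ∧ s₂ d (D.e d x) ≠ 0}
  let g : M.X → ℂ := fun x => Classical.epsilon fun c : ℂ =>
    ∀ d, x ∈ (D.e d).source → s₁ d (D.e d x) = c • s₂ d (D.e d x)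
  have hO : ∀ d, ∀ z ∈ B2 n, ((D.e d).symm z ∈ O ↔ s₂ d z ≠ 0) := fun d z hz => by
    obtain ⟨e1, e2⟩ := src d hz
    refine ⟨?_, fun h => ⟨d, e1, by rwa [e2]⟩⟩
    rintro ⟨a, ha, h⟩ h'
    exact h (zero h₂ ha e1 (by rwa [e2]))
  have hg : ∀ d, ∀ z ∈ B2 n, s₂ d z ≠ 0 → s₁ d z = D.rd g d z • s₂ d z := fun d z hz h => by
    obtain ⟨e1, e2⟩ := src d hz
    obtain ⟨I, hI⟩ := Function.ne_iff.1 h
    have : s₁ d (D.e d ((D.e d).symm z)) = D.rd g d z • s₂ d (D.e d ((D.e d).symm z)) :=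
      Classical.epsilon_spec (p := fun c : ℂ => ∀ a, (D.e d).symm z ∈ (D.e a).source →
        s₁ a (D.e a ((D.e d).symm z)) = c • s₂ a (D.e a ((D.e d).symm z)))
      ⟨s₁ d z I / s₂ d z I, fun a ha => chg h₁ h₂ ha e1
        (by rw [e2]; exact prop h₁ h₂ hp d hz hI)⟩ d e1
    rwa [e2] at this
  refine ⟨O, g, ⟨?_, fun d z hz hzO => ?_, fun d => ?_⟩, fun d z hz => ⟨hO d z hz, hg d z hz⟩⟩
  · refine isOpen_iff_mem_nhds.2 ?_
    rintro x ⟨d, hd, h⟩
    have hc : ContinuousAt (fun y => s₂ d (D.e d y)) x :=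
      ContinuousAt.comp (h₂.hol d _ (tgt d hd)).self_of_nhds.continuousAt ((D.e d).continuousAt hd)
    filter_upwards [(D.e d).open_source.mem_nhds hd, hc.eventually_ne h] with y h1 h2
    exact ⟨d, h1, h2⟩
  · obtain ⟨I, hI⟩ := Function.ne_iff.1 ((hO d z hz).1 hzO)
    have hev : ∀ᶠ y in 𝓝 z, y ∈ B2 n ∧ s₂ d y I ≠ 0 :=
      (Filter.Eventually.and (isOpen_ball.mem_nhds hz)
        ((difI h₂ d I hz).continuousAt.eventually_ne hI))
    filter_upwards [hev.eventually_nhds] with y hy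
    have hq : DifferentiableAt ℂ (fun w => s₁ d w I * (s₂ d w I)⁻¹) y :=
      (difI h₁ d I hy.self_of_nhds.1).mul ((difI h₂ d I hy.self_of_nhds.1).inv hy.self_of_nhds.2)
    refine hq.congr_of_eventuallyEq (hy.mono fun w hw => ?_)
    have := congrFun (hg d w hw.1 (Function.ne_iff.2 ⟨I, hw.2⟩)) I
    rw [Pi.smul_apply, smul_eq_mul] at this
    show _ = s₁ d w I * (s₂ d w I)⁻¹
    rw [this, mul_inv_cancel_right₀ hw.2]
  · obtain ⟨z₀, hz₀, h⟩ := nz h₂ h0 d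
    obtain ⟨I, hI⟩ := Function.ne_iff.1 h
    have hd : DifferentiableOn ℂ (fun y => s₂ d y I) (B2 n) :=
      fun z hz => (difI h₂ d I hz).differentiableWithinAt
    refine ⟨fun y => s₂ d y I, hd, fun z hz => ⟨fun h' => hI ?_, fun h' => ?_⟩⟩
    · exact SV.H85.eqOn_zero_of_preconnected isOpen_ball (convex_ball _ _).isPreconnected hd hz h'
        hz₀
    · exact (hO d z hz).2 (Function.ne_iff.2 ⟨I, h'⟩)

end Pool.Agent.Lib.DM
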