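import Pool.Agent.Lib.NV5.DomBlue
import Pool.Agent.Lib.EX.B_TRF
import Pool.Agent.Lib.EX.B_MON

/-! Project NV5, block DOM: row REP, the holomorphic representative. -/

open scoped Classical Topology ContDiff Matrix
open Set Complex Metric Filter

noncomputable section

namespace Pool.Agent.Lib.DM

open Pool.Agent.Lib.SV (E)
open Pool.Agent.Lib.HS32 Pool.Agent.Lib.EX Pool.Agent.Lib.EXS Pool.Agent.Lib.ZL
open Pool.Agent.Lib.RAA (kp kq)

theorem dREP (hUPB : ZL.St_UPB) : St_REP := by
  intro n M _ ι _ _ D X N B b hC hT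
  have hv := fun d I => (hUPB n M ι D fun i => B * X.l i).2.2.2.2.2.1 (D.c d) (b d I)
    fun z hz => hT.pol d z hz I
  set s : D.A → E n → (Fin N → Fin n) → ℂ :=
    fun d z I => X.w d z ^ B * val (D.c d) (fun i => B * X.l i) (b d I) z with hs
  have h1 : D.All fun d z => DifferentiableAt ℂ (s d) z := fun d z hz =>
    differentiableAt_pi.2 fun I => ((X.whol d z hz).pow B).mul
      ((hv d I).1.differentiableAt (isOpen_ball.mem_nhds hz))
  have h2 : OA D fun d z => ∀ I, s d z I = (X.w d z * xm (D.c d) X.l z) ^ B * b d I z := by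
    intro d z hz ho I
    have e : xm (D.c d) (fun i => B * X.l i) z = xm (D.c d) X.l z ^ B := by
      simp only [xm, ← Finset.prod_pow]
      exact Finset.prod_congr rfl fun i _ => by rw [mul_comm, zpow_mul, zpow_natCast]
    simp only [hs]
    rw [(hv d I).2 z hz ho, e, mul_pow, mul_assoc]
  refine ⟨s, ⟨fun d z hz => (isOpen_ball.eventually_mem hz).mono fun y hy => h1 d y hy,
    fun a d x ha hd => funext fun I => ?_⟩, h2⟩
  have hJ : ∀ i j, ContinuousAt (fun y => D.J a d y i j) x := fun i j =>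
    ContinuousAt.comp (g := fun z => jm (D.e a ∘ (D.e d).symm) z i j)
      ((mCHN n _ _ (TRF.holT D ha hd)).2.1 i j).continuousAt ((D.e d).continuousAt hd)
  have hc : ∀ c, x ∈ (D.e c).source → ∀ I, ContinuousAt (fun y => s c (D.e c y) I) x :=
    fun c h I => continuousAt_pi.1 (ContinuousAt.comp (g := s c)
      (h1 c _ (GLU.mem_B2 h)).continuousAt ((D.e c).continuousAt h)) I
  have := GLU.neBot D x
  refine tendsto_nhds_unique_of_eventuallyEq (l := 𝓝[off D] x)
    (f := fun y => (D.J a d y).det ^ B * s a (D.e a y) I)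
    (g := fun y => ∑ I' : Fin N → Fin n, (∏ p, D.J a d y (I p) (I' p)) * s d (D.e d y) I')
    (((((Continuous.matrix_det continuous_id).continuousAt.comp (continuousAt_pi.2 fun i =>
      continuousAt_pi.2 (hJ i))).pow B).mul (hc a ha I)).tendsto.mono_left nhdsWithin_le_nhds)
    ((tendsto_finsetSum _ fun I' _ => (tendsto_finsetProd _ fun p _ => hJ _ _).mul
      (hc d hd I')).mono_left nhdsWithin_le_nhds) ?_
  filter_upwards [self_mem_nhdsWithin, nhdsWithin_le_nhds ((D.e a).open_source.mem_nhds ha),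
    nhdsWithin_le_nhds ((D.e d).open_source.mem_nhds hd)] with y hy y1 y2
  have e : X.w d (D.e d y) * xm (D.c d) X.l (D.e d y) =
      (D.J a d y).det * (X.w a (D.e a y) * xm (D.c a) X.l (D.e a y)) := by
    rw [hC a d y y1 y2, TRF.xm_eq D y1 y2]
    ring
  rw [h2 a _ (GLU.mem_B2 y1) (hy a y1), hT.law a d y y1 y2 hy, ← mul_assoc, ← mul_pow, ← e,
    Finset.mul_sum]
  exact Finset.sum_congr rfl fun I' _ => by
    rw [h2 d _ (GLU.mem_B2 y2) (hy d y2), mul_left_comm]

end Pool.Agent.Lib.DM
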