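import Pool.Agent.Lib.NV5.DomBlue
import Pool.Agent.Lib.GH76.Pshp

/-! Project NV5, block DOM, row SKO: exponential integrability near a maximum. -/

open scoped Classical Topology ContDiff ENNReal Pointwise
open Set MeasureTheory Complex Metric Filter

noncomputable section

namespace Pool.Agent.Lib.DM

open Pool.Agent.Lib.SV (E)
open Pool.Agent.Lib.HS32

namespace SKO

variable {n : ℕ} {w : E n → ℝ} {z y : E n} {ρ : ℝ}

theorem lv_scale (κ : ℝ) (hw : ContDiffAt ℝ 2 w (z + ρ • y)) (v : E n) :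
    HS66.lv (fun x => κ * w (z + ρ • x)) y v = κ * ρ ^ 2 * HS66.lv w (z + ρ • y) v := by
  have hA : ∀ x : E n, HasFDerivAt (fun x : E n => z + ρ • x)
      (ρ • ContinuousLinearMap.id ℝ (E n)) x := fun x =>
    ((hasFDerivAt_id x).const_smul ρ).const_add z
  have e1 : fderiv ℝ (fun x => κ * w (z + ρ • x)) =ᶠ[𝓝 y]
      fun x => (κ * ρ) • fderiv ℝ w (z + ρ • x) := by
    filter_upwards [(hA y).continuousAt.eventually (hw.eventually (by simp))] with x hx
    have := ((hx.differentiableAt (by simp)).hasFDerivAt.comp x (hA x)).const_mul κ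
    refine this.fderiv.trans ?_
    ext u
    simp [mul_assoc]
  have h2 := ((hw.fderiv_right (m := 1) le_rfl).differentiableAt (by simp)).hasFDerivAt
  have h3 := ((h2.comp y (hA y)).const_smul (κ * ρ)).fderiv
  have h4 : fderiv ℝ (fderiv ℝ fun x => κ * w (z + ρ • x)) y = (κ * ρ) •
      (fderiv ℝ (fderiv ℝ w) (z + ρ • y)).comp (ρ • ContinuousLinearMap.id ℝ (E n)) :=
    e1.fderiv_eq.trans h3
  rw [HS66.lv, HS66.lv, h4]
  simp only [smul_apply, ContinuousLinearMap.comp_apply,
    ContinuousLinearMap.id_apply, map_smul, smul_eq_mul]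
  ring

theorem int_scale (f : E n → ℝ) (z : E n) (hρ : 0 < ρ) (t : ℝ) :
    ∫ x in ball z (ρ * t), f x =
      ρ ^ Module.finrank ℝ (E n) * ∫ y in ball (0 : E n) t, f (z + ρ • y) := by
  rw [Measure.setIntegral_comp_smul_of_pos volume (fun x => f (z + x)) _ hρ,
    _root_.smul_ball hρ.ne', smul_zero, Real.norm_of_nonneg hρ.le, smul_eq_mul,
    mul_inv_cancel_left₀ (pow_pos hρ _).ne', ← integral_indicator measurableSet_ball,
    ← integral_indicator measurableSet_ball, ← integral_add_left_eq_self _ z]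
  refine integral_congr_ae (Eventually.of_forall fun x => ?_)
  have : z + x ∈ ball z (ρ * t) ↔ x ∈ ball (0 : E n) (ρ * t) := by simp [mem_ball, dist_eq_norm]
  simp only [indicator, this]

theorem hyp {C κ : ℝ} {z₀ : E n} (hκ : 0 ≤ κ) (hρ : 0 < ρ) (h1 : ‖z - z₀‖ + 4 * ρ ≤ 1 / 2)
    (h2 : 4 * κ * ρ ^ 2 * C ≤ 1)
    (hw : ∀ z ∈ closedBall z₀ (1 / 2), ContDiffAt ℝ ∞ w z ∧ w z ≤ 0 ∧
      ∀ v, -(C * ‖v‖ ^ 2) ≤ EXS.K32.lv w z v) :
    ∀ y ∈ closedBall (0 : E n) 4, ContDiffAt ℝ 2 (fun x => κ * w (z + ρ • x)) y ∧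
      κ * w (z + ρ • y) ≤ 0 ∧
      ∀ v, -(1 * ‖v‖ ^ 2) ≤ HS66.lv (fun x => κ * w (z + ρ • x)) y v := by
  intro y hy
  have hm : z + ρ • y ∈ closedBall z₀ (1 / 2) := by
    rw [mem_closedBall_iff_norm, add_sub_right_comm]
    refine (norm_add_le _ _).trans ?_
    rw [norm_smul, Real.norm_of_nonneg hρ.le]
    nlinarith [mem_closedBall_zero_iff.1 hy]
  obtain ⟨a1, a2, a3⟩ := hw _ hm
  have a4 : ContDiffAt ℝ 2 w (z + ρ • y) := a1.of_le (WithTop.coe_le_coe.2 le_top)
  refine ⟨contDiffAt_const.mul (a4.comp y (f := fun x : E n => z + ρ • x) (by fun_prop)),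
    mul_nonpos_of_nonneg_of_nonpos hκ a2, fun v => ?_⟩
  have a5 := a3 v
  rw [EXS.K32.lv, nq, BPSH.hess_lv a1, ofReal_re] at a5
  rw [lv_scale κ a4]
  have a6 : 0 ≤ κ * ρ ^ 2 := by positivity
  nlinarith [mul_le_mul_of_nonneg_left a5 a6, mul_le_mul_of_nonneg_right h2 (sq_nonneg ‖v‖)]

end SKO

open SKO in
theorem dSKO : St_SKO := by
  intro n J C hJ hC
  obtain ⟨g, c, hc, hg, hgc⟩ := BPSH.exists_ker3 (n := n)
  obtain ⟨α, A, hα, hA, hS⟩ := GH76.skoda_loc (n := n) (A := 1)
    (L := 5 ^ Module.finrank ℝ (E n) * (3 / c)) zero_le_one (by positivity)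
  have hκ : 0 ≤ J / α := by positivity
  have hd : 0 < 128 + 900 * (J / α * C) := by positivity
  set r : ℝ := 1 / (128 + 900 * (J / α * C)) with hr
  have r0 : 0 < r := by positivity
  have r1 : r * (128 + 900 * (J / α * C)) = 1 := by rw [hr]; field_simp
  have r3 : 0 ≤ r * (J / α * C) := by positivity
  have r2 : r ≤ 1 / 128 := by nlinarith
  refine ⟨r, A, r0, by linarith, fun w z₀ z₁ hw hz h0 => ?_⟩
  have ρ0 : 0 < 3 * r := by positivity
  have H1 := hyp (z := z₁) (ρ := 3 * r * 5) hκ (by positivity) (by linarith) (by nlinarith) hw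
  have H2 := hyp (z := z₁) (ρ := 3 * r) hκ ρ0 (by linarith) (by nlinarith) hw
  have sub : ∀ t ≤ 15 * r, closedBall z₁ t ⊆ closedBall z₀ (1 / 2) := fun t ht =>
    closedBall_subset_closedBall' (by rw [dist_eq_norm]; linarith)
  have h1 := BPSH.loc1 hg hgc zero_le_one (mem_ball_self one_pos) H1
  simp only [smul_zero, add_zero, h0, mul_zero, neg_zero, zero_add, mul_one] at h1
  have h2 := int_scale (fun x => -(J / α * w x)) z₁ (mul_pos ρ0 (by norm_num : (0 : ℝ) < 5)) 1
  rw [mul_one, int_scale _ z₁ ρ0 5, mul_pow (3 * r) 5, mul_assoc ((3 * r) ^ _)] at h2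
  have h3 := mul_left_cancel₀ (pow_pos ρ0 _).ne' h2
  have mem5 : ∀ y ∈ closedBall (0 : E n) 5, z₁ + (3 * r) • y ∈ closedBall z₀ (1 / 2) := by
    intro y hy
    refine sub _ le_rfl ?_
    rw [mem_closedBall_iff_norm, add_sub_cancel_left, norm_smul, Real.norm_of_nonneg ρ0.le]
    nlinarith [mem_closedBall_zero_iff.1 hy]
  have c5 : ContinuousOn (fun y : E n => -(J / α * w (z₁ + (3 * r) • y))) (closedBall 0 5) :=
    fun y hy => (continuousAt_const.mul (ContinuousAt.comp (f := fun x : E n => z₁ + (3 * r) • x)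
      (hw _ (mem5 y hy)).1.continuousAt (by fun_prop))).neg.continuousWithinAt
  have h4 := hS _ H2 (by
    refine le_trans (setIntegral_mono_set ((c5.integrableOn_compact
      (isCompact_closedBall _ _)).mono_set ball_subset_closedBall) ?_
      (closedBall_subset_ball (by norm_num : (4 : ℝ) < 5)).eventuallyLE) ?_
    · filter_upwards [ae_restrict_mem measurableSet_ball] with y hy
      exact neg_nonneg.2 (mul_nonpos_of_nonneg_of_nonpos hκ
        (hw _ (mem5 y (ball_subset_closedBall hy))).2.1)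
    · rw [h3]
      exact mul_le_mul_of_nonneg_left ((le_div_iff₀' hc).2 h1) (by positivity))
  have e : ∀ t : ℝ, α * -(J / α * t) = -(J * t) := fun t => by field_simp
  simp only [e] at h4
  have h5 := int_scale (fun x => Real.exp (-(J * w x))) z₁ ρ0 1
  rw [mul_one] at h5
  have c3 : ContinuousOn (fun x => Real.exp (-(J * w x))) (closedBall z₁ (3 * r)) := fun x hx =>
    (Real.continuous_exp.continuousAt.comp (continuousAt_const.mul
      (hw x (sub _ (by linarith) hx)).1.continuousAt).neg).continuousWithinAt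
  refine (lintegral_mono_set (ball_subset_ball' (y := z₁) (ε₂ := 3 * r) ?_)).trans ?_
  · rw [dist_comm, dist_eq_norm]
    linarith
  rw [← ofReal_integral_eq_lintegral_ofReal ((c3.integrableOn_compact
    (isCompact_closedBall _ _)).mono_set ball_subset_closedBall)
    (Eventually.of_forall fun x => (Real.exp_pos _).le), h5]
  refine ENNReal.ofReal_le_ofReal (le_trans (mul_le_mul (pow_le_one₀ ρ0.le (by linarith)) h4
    (integral_nonneg fun x => (Real.exp_pos _).le) zero_le_one) (one_mul _).le)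

end Pool.Agent.Lib.DM
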