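import Pool.Agent.Lib.NV5.D_CRV
import Pool.Agent.Lib.NV5.D_CT2
import Pool.Agent.Lib.NV5.D_DET
import Pool.Agent.Lib.NV5.D_DOM
import Pool.Agent.Lib.NV5.D_EXT
import Pool.Agent.Lib.NV5.D_HK
import Pool.Agent.Lib.NV5.D_HL
import Pool.Agent.Lib.NV5.D_KAH
import Pool.Agent.Lib.NV5.D_LIM
import Pool.Agent.Lib.NV5.D_LOG
import Pool.Agent.Lib.NV5.D_MAX
import Pool.Agent.Lib.NV5.D_MV
import Pool.Agent.Lib.NV5.D_NEF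
import Pool.Agent.Lib.NV5.D_NRM
import Pool.Agent.Lib.NV5.D_NUL
import Pool.Agent.Lib.NV5.D_ONE
import Pool.Agent.Lib.NV5.D_PAI
import Pool.Agent.Lib.NV5.D_PRK
import Pool.Agent.Lib.NV5.D_RAT
import Pool.Agent.Lib.NV5.D_REP
import Pool.Agent.Lib.NV5.D_RHO
import Pool.Agent.Lib.NV5.D_SKO
import Pool.Agent.Lib.NV5.D_SLP
import Pool.Agent.Lib.NV5.D_VOL
import Pool.Agent.Lib.ZL.Core
import Pool.Agent.Lib.ZL.B_BMP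
import Pool.Agent.Lib.ZL.B_LWC
import Pool.Agent.Lib.HS21.All

/-! Block DOM assembled. -/

namespace Pool.Agent.Lib.DM

theorem st_HK : St_HK :=
  dHK ZL.bPW ZL.st_MU ZL.st_UPB ZL.st_WGT ZL.st_POG (ZL.bLWC ZL.bTRF) ZL.bBMP (dCT2 ZL.bPW)

theorem st_HL : St_HL := dHL st_HK dLIM ZL.bPW ZL.st_MU ZL.st_UPB ZL.st_FIN

theorem st_MV : St_MV := dMV (dPRK dDET dLOG) dSLP (dMAX HS21.st_AUBIN) dVOL

theorem st_DOM : St_DOM :=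
  dDOM HS21.st_AUBIN ZL.st_UPB dKAH (dNEF ZL.st_UPB) (dREP ZL.st_UPB) dRAT dNUL
    (dPAI dCRV (dNRM dCRV) dNUL)
    (dONE st_MV (dRHO ZL.bPW) dSKO
      st_HL dNUL ZL.bPW)
    (dEXT ZL.st_MU ZL.st_UPB)

end Pool.Agent.Lib.DM
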