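import Pool.Agent.Lib.NV5.Kit
import Pool.Agent.Lib.NV5.A_RAT
import Pool.Agent.Lib.NV5.A_P1
import Pool.Agent.Lib.NV5.A_LOW
import Pool.Agent.Lib.NV5.A_ALG
import Pool.Agent.Lib.NV5.B_Q0
import Pool.Agent.Lib.NV5.B_INP
import Pool.Agent.Lib.NV5.B_CORE
import Pool.Agent.Lib.NV5.B_ONE
import Pool.Agent.Lib.NV5.B_GS
import Pool.Agent.Lib.NV5.B_S1
import Pool.Agent.Lib.NV5.D_All
import Pool.Agent.Lib.NV2.All

/-! Project NV5: the theorem without hypotheses. -/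

namespace Pool.Agent.Lib.NV5

theorem st_bINP : Sb_INP := bINP st_bCRM st_bTNS st_bKIT st_bFN

theorem st_aALG : Sa_ALG := aALG st_aFIB (aLOW aRAT aP1) st_aWR st_aCNT

theorem st_bCORE : Sb_CORE :=
  bCORE st_bFLD st_bVF (bQ0 st_bORD st_bHT st_bKIT st_bFN) st_bINP st_aALG st_bFN

/-- The theorem. -/
theorem st_S1 : St_S1 := bS1 NV2.st_CTX NV2.st_NV2 NV2.st_SEC DM.st_DOM st_bCORE st_bAM bONE
  st_bPLU (bGS NV2.st_SEC st_bKIT st_bFN)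

end Pool.Agent.Lib.NV5
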