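import Pool.Agent.Lib.NV5.Blue

/-! Project NV5, row AM: the ample divisor in the language of local equations. -/

open scoped Classical Topology ContDiff
open Set Complex Metric Filter

noncomputable section

namespace Pool.Agent.Lib.NV5

open Pool.Agent.Lib.SV (E nsq)
open Pool.Agent.Lib.HS32 Pool.Agent.Lib.EX Pool.Agent.Lib.EXS Pool.Agent.Lib.ZL Pool.Agent.Lib.NV2

theorem bAM (hKIT : Sb_KIT) : Sb_AM := by
  intro n M _ ι _ _ D r e t he hK hI
  have h := fun a => (hKIT n M ι D).2.2.2.2.2.2.2.2.2.2.2.2.2.2 _ _ (hK.1 a)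
  refine ⟨⟨r, e, fun x => (t · x), vv D (fun i => e i) t, he, fun d z hz => ⟨?_, fun h0 => ?_,
    fun ho => funext fun a => (h a d z hz).2 ho⟩, fun d z hz y c hy => ?_⟩, rfl, fun x => rfl⟩
  · filter_upwards [eventually_all.2 fun a => (h a d z hz).1] with w hw
    exact differentiableAt_pi.2 hw
  · exact one_ne_zero (hI d z hz 1 0 (by rw [h0, map_zero, smul_zero, add_zero])).1
  · exact (hI d z hz (-c) y (by rw [hy, neg_smul, neg_add_cancel])).2

end Pool.Agent.Lib.NV5
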