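import Pool.Agent.Lib.NV5.Blue

/-! Project NV5, row BD: the orders of a meromorphic function are bounded. -/

open scoped Classical Topology ContDiff
open Set Complex Metric Filter

noncomputable section

namespace Pool.Agent.Lib.NV5

open Pool.Agent.Lib.SV (E)
open Pool.Agent.Lib.HS32 Pool.Agent.Lib.EX Pool.Agent.Lib.EXS Pool.Agent.Lib.ZL

namespace BDb

variable {n : ℕ} {M : Mf n} {ι : Type} [Fintype ι] [DecidableEq ι] (D : Ad M ι) (P : ι → ℤ)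

/-- The numerator of `s` vanishes to order at most `N` along every hypersurface through `z`. -/
def Bn (s : M.X → ℂ) (N : ℕ) (d : D.A) (z : E n) : Prop := ∀ (u a : E n → ℂ) (k : ℕ),
  HolN u z → u z = 0 → HolN a z →
  (∀ᶠ y in 𝓝 z, Off (D.c d) y → D.rd s d y = xm (D.c d) (-P) y * (u y ^ k * a y)) → k ≤ N

variable {D P}

theorem Bn.tr {s : M.X → ℂ} {N : ℕ} {a b : D.A} {x : M.X} (ha : x ∈ (D.e a).source)
    (hb : x ∈ (D.e b).source) (h : Bn D P s N b (D.e b x)) : Bn D P s N a (D.e a x) := by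
  intro u α k hu u0 hα he
  refine h (D.tr a b u) (D.tr a b α * D.rd (D.um (-P) a b) b) k (EX.TRF.hoT D ha hb hu) ?_
    (EX.TRF.holN_mul (EX.TRF.hoT D ha hb hα) (EX.TRF.um_hol D _ ha hb)) ?_
  · rwa [Ad.tr, (D.e b).left_inv hb]
  · filter_upwards [EX.TRF.rep1 D ha hb he, EX.TRF.near D ha hb] with y a1 a2 a3
    have a4 := a1 a3
    simp only [Ad.tr, Ad.rd, Pi.mul_apply, (D.e a).left_inv a2.1] at a4 ⊢
    rw [a4, mul_assoc (u _ ^ k)]

theorem hol_pow {u : E n → ℂ} {z : E n} (h : HolN u z) (k : ℕ) : HolN (fun y => u y ^ k) z :=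
  h.mono fun _ hy => hy.pow k

theorem hol_xm (c : ι → Option (Fin n)) (h : 0 ≤ P) (z : E n) : HolN (xm c P) z :=
  Eventually.of_forall fun _ => MON.diff_xm fun i => Or.inr (h i)

theorem fr [M.Cpt] (hK : Sb_KIT) {s : M.X → ℂ} (hs : Sp D P s) (s0 : s ≠ 0) {d : D.A} {z : E n}
    (hz : z ∈ B2 n) : ∃ᶠ y in 𝓝 z, val (D.c d) P (D.rd s d) y ≠ 0 := by
  obtain ⟨-, -, -, -, -, -, -, -, -, k1, k2, -, -, -, k3⟩ := hK n M ι D
  refine ((k1 s ⟨P, hs⟩ s0 d _ hz).and_eventually (isOpen_ball.mem_nhds hz)).mono fun y hy h =>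
    hy.1 ?_
  rw [(k3 P s hs d y hy.2).2 ((k2 s ⟨P, hs⟩ d y hy.2).1 hy.1), h, mul_zero]

theorem bdd [M.Cpt] (h0 : Sb_BD0) (hK : Sb_KIT) {s : M.X → ℂ} (hs : Sp D P s) (s0 : s ≠ 0) :
    ∃ N, D.All fun d z => Bn D P s N d z := by
  obtain ⟨-, -, -, -, -, -, -, -, -, -, -, -, k2, -, k3⟩ := hK n M ι D
  have k : ∀ x : M.X, ∃ N, ∀ᶠ y in 𝓝 x, ∀ b, y ∈ (D.e b).source → Bn D P s N b (D.e b y) :=
    fun x => by
    obtain ⟨d, hd⟩ := GLU.ex_ch D x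
    have hz := GLU.mem_B2 hd
    obtain ⟨N, hN⟩ := h0 n _ _ (k3 P s hs d _ hz).1 (fr hK hs s0 hz)
    refine ⟨N, ?_⟩
    filter_upwards [((D.e d).continuousAt hd).eventually hN,
      (D.e d).open_source.eventually_mem hd] with y a1 a2 b a3
    refine Bn.tr a3 a2 fun u α k hu u0 hα he => a1 u α k hu u0 hα ?_
    have hy := GLU.mem_B2 a2
    refine (k2 d _ hy).2.2.2.2 _ (fun w => u w ^ k * α w) (k3 P s hs d _ hy).1
      (EX.TRF.holN_mul (hol_pow hu k) hα) ?_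
    filter_upwards [he.filter_mono inf_le_left, (k2 d _ hy).2.1] with w b1 b2
    exact mul_left_cancel₀ (MON.xm_ne (-P) b2.2)
      (((k3 P s hs d w b2.1).2 b2.2).symm.trans (b1 b2.2))
  choose N hU using k
  obtain ⟨t, ht⟩ := CompactSpace.elim_nhds_subcover _ hU
  refine ⟨t.sup N, fun d z hz => ?_⟩
  obtain ⟨x, hx, q⟩ := mem_iUnion₂.1 (ht.ge (mem_univ ((D.e d).symm z)))
  have q' := q d (GLU.mem_src d hz)
  rw [GLU.rinv d hz] at q'
  exact fun u α k hu u0 hα he => (q' u α k hu u0 hα he).trans (Finset.le_sup hx)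

end BDb

open BDb

theorem bBD (h0 : Sb_BD0) (hK : Sb_KIT) (hF : Sb_FN) (hO : Sb_ORD) : Sb_BD := by
  intro n M _ ι _ _ D F _ _ Φ f
  obtain ⟨⟨s, t⟩, ⟨P₀, hs₀⟩, ⟨Q₀, ht₀⟩, t0, rfl⟩ := Φ.frac f
  have K := hK n M ι D
  obtain ⟨P, P0, hs⟩ : ∃ P, 0 ≤ P ∧ Sp D P s := ⟨|P₀|, abs_nonneg _, K.1 _ _ _ (le_abs_self _) hs₀⟩
  obtain ⟨Q, Q0, ht⟩ : ∃ Q, 0 ≤ Q ∧ Sp D Q t := ⟨|Q₀|, abs_nonneg _, K.1 _ _ _ (le_abs_self _) ht₀⟩
  obtain ⟨-, -, -, -, -, -, -, -, -, -, -, -, k2, -, k3⟩ := K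
  obtain ⟨N, hN⟩ := bdd h0 hK ht t0
  refine ⟨∑ i, P i + N, fun h v m hv => ?_⟩
  have f2 := ((hF n M ι D F Φ).2.2.2 h.d h.z h.mem).2.1
  have G := k2 h.d h.z h.mem
  have O := hO n h.u h.z h.hy
  have up : v (Φ.ev s) ≤ WithZero.exp (∑ i, P i) := by
    refine ((hv.reg P _).2 ⟨_, fun _ => 1, (k3 P s hs h.d _ h.mem).1, O.2.2.2.1 _
      (Eventually.of_forall fun _ => differentiableAt_const _) one_ne_zero, ?_⟩).trans
      (WithZero.exp_le_exp.2 (Finset.sum_le_sum fun i _ => ?_))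
    · filter_upwards [f2 s ⟨P, hs⟩, G.2.1] with y a1 a2
      rw [a1, mul_one, (k3 P s hs h.d y a2.1).2 a2.2, MON.xm_neg, mul_right_comm,
        inv_mul_cancel₀ (MON.xm_ne P a2.2), one_mul]
    · rcases (hv.mul i).1 with e | e
      · rw [e, mul_zero]
        exact P0 i
      · rw [e, mul_one]
  have e0 : Φ.ev t ≠ 0 := fun e => t0 (Φ.inj t ⟨Q, ht⟩ e)
  have v0 : v (Φ.ev t) ≠ 0 := (map_ne_zero v).2 e0
  have lo : -WithZero.log (v (Φ.ev t)) ≤ N := by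
    obtain ⟨a, b, ha, hb, he⟩ := hv.ord _ e0
    generalize -WithZero.log (v (Φ.ev t)) = k at he
    rcases le_or_gt k 0 with hk | hk
    · exact hk.trans (Nat.cast_nonneg N)
    lift k to ℕ using hk.le
    have g1 := (k3 Q t ht h.d _ h.mem).1
    obtain ⟨j, α, hα, hj⟩ := O.1 _ g1 (fr hK ht t0 h.mem)
    have jN : j ≤ N := hN h.d _ h.mem h.u α j h.hy.1 h.hy.2.1 hα.1 (by
      filter_upwards [hj, isOpen_ball.mem_nhds h.mem] with y a1 a2 a3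
      rw [(k3 Q t ht h.d y a2).2 a3, a1])
    have ee := G.2.2.2.2 (fun y => h.u y * (val (D.c h.d) Q (D.rd t h.d) y * b y))
      (fun y => h.u y * (h.u y ^ k * (xm (D.c h.d) Q y * a y)))
      (EX.TRF.holN_mul h.hy.1 (EX.TRF.holN_mul g1 hb.1))
      (EX.TRF.holN_mul h.hy.1 (EX.TRF.holN_mul (hol_pow h.hy.1 k)
        (EX.TRF.holN_mul (hol_xm _ Q0 _) ha.1))) (by
      filter_upwards [he, f2 t ⟨Q, ht⟩, G.2.1] with y a1 a2 a3
      by_cases u0 : h.u y = 0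
      · rw [u0, zero_mul, zero_mul]
      have a4 := a1 u0
      rw [a2, (k3 Q t ht h.d y a3.1).2 a3.2, MON.xm_neg, zpow_natCast, mul_assoc,
        inv_mul_eq_iff_eq_mul₀ (MON.xm_ne Q a3.2)] at a4
      rw [a4]
      ring)
    have kj := O.2.2.2.2.2.2 j k (α * b) (fun y => xm (D.c h.d) Q y * a y) (O.2.2.1 _ _ hα hb)
      (EX.TRF.holN_mul (hol_xm _ Q0 _) ha.1) (by
      filter_upwards [ee, hj] with y a1 a2 u0
      have a3 := mul_left_cancel₀ u0 a1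
      rw [zpow_natCast, zpow_natCast, ← a3, a2, Pi.mul_apply, mul_assoc])
    exact kj.trans (Nat.cast_le.2 jN)
  rw [map_div₀, div_le_iff₀ (zero_lt_iff.2 v0), ← WithZero.exp_log v0, ← WithZero.exp_add]
  exact up.trans (WithZero.exp_le_exp.2 (by linarith))

end Pool.Agent.Lib.NV5
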