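import Pool.Agent.Lib.NV5.Blue

/-! Project NV5: orders are locally bounded. -/

open scoped Topology
open Set Complex Metric Filter Asymptotics

namespace Pool.Agent.Lib.NV5

open Pool.Agent.Lib.SV (E)
open Pool.Agent.Lib.HS32

theorem bBD0 : Sb_BD0 := by
  intro n g z hg h0
  have c0 : 0 < ‖g z‖ + 1 := by positivity
  obtain ⟨ε, e0, he⟩ := eventually_nhds_iff_ball.1 (hg.and
    (hg.self_of_nhds.continuousAt.norm.eventually (gt_mem_nhds (lt_add_one ‖g z‖))))
  have hb := ball_mem_nhds z (by positivity : 0 < ε / 8)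
  obtain ⟨w, w1, w2⟩ := (h0.and_eventually hb).exists
  obtain ⟨N, hN⟩ := exists_pow_lt_of_lt_one (div_pos (norm_pos_iff.2 w1) c0) one_half_lt_one
  refine ⟨N, ?_⟩
  filter_upwards [hb] with y hy u a k hu u0 ha hk
  by_contra hlt
  obtain ⟨j, rfl⟩ : ∃ j, k = j + 1 := ⟨k - 1, by omega⟩
  have g0 : g y = 0 := by rw [hk.self_of_nhds, u0, zero_pow j.succ_ne_zero, zero_mul]
  have hs : ball y (ε / 2) ⊆ ball z ε := ball_subset_ball' (by linarith [mem_ball.1 hy])
  have d1 : dist w y < ε / 4 := by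
    linarith [dist_triangle_right w y z, mem_ball.1 hy, mem_ball.1 w2]
  have o1 : u =O[𝓝 y] fun x => ‖x - y‖ := by
    simpa only [u0, sub_zero] using hu.self_of_nhds.isBigO_sub.norm_right
  have o2 : (fun x => u x * a x) =o[𝓝 y] fun _ => (1 : ℝ) := (isLittleO_one_iff ℝ).2 (by
    simpa only [u0, zero_mul] using
      hu.self_of_nhds.continuousAt.tendsto.mul ha.self_of_nhds.continuousAt.tendsto)
  have o3 : (g · - g y) =o[𝓝 y] fun x => ‖x - y‖ ^ j :=
    ((o1.pow j).mul_isLittleO o2).congr' (hk.mono fun x hx => by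
      beta_reduce; rw [g0, hx]; ring) (Eventually.of_forall fun x => mul_one _)
  have s := dist_le_mul_div_pow_of_mapsTo_ball_of_isLittleO (R₂ := ‖g z‖ + 1)
    (fun x hx => (he x (hs hx)).1.differentiableWithinAt)
    (fun x hx => by rw [g0, mem_closedBall_zero_iff]; exact (he x (hs hx)).2.le) o3
    (mem_ball.2 (by linarith : dist w y < ε / 2))
  rw [g0, dist_zero_right] at s
  have p : (dist w y / (ε / 2)) ^ (j + 1) ≤ (1 / 2) ^ N :=
    (pow_le_pow_left₀ (by positivity) ((div_le_iff₀ (by positivity)).2 (by linarith)) _).trans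
      (pow_le_pow_of_le_one one_half_pos.le one_half_lt_one.le (by omega))
  rw [lt_div_iff₀ c0] at hN
  nlinarith

end Pool.Agent.Lib.NV5
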