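import Pool.Agent.Lib.NV5.Blue

/-! Project NV5, row CH: a derivation of the field acts as a directional derivative. -/

open scoped Classical Topology
open Set Filter

noncomputable section

namespace Pool.Agent.Lib.NV5

open Pool.Agent.Lib.SV (E)
open Pool.Agent.Lib.HS32 Pool.Agent.Lib.EX

namespace CHb

theorem sep {A F : Type} [CommRing A] [IsDomain A] [CharZero A] [Field F] [Algebra A F]
    (hi : Function.Injective (algebraMap A F)) (f : F) (N : ℕ) :
    ∀ p : Polynomial A, p.natDegree < N → p ≠ 0 → Polynomial.aeval f p = 0 →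
      ∃ q : Polynomial A, Polynomial.aeval f q = 0 ∧ Polynomial.aeval f q.derivative ≠ 0 := by
  induction N with
  | zero => exact fun p h => absurd h (Nat.not_lt_zero _)
  | succ N ih =>
    intro p hN hp h0
    have hd : p.natDegree ≠ 0 := fun h => by
      rw [Polynomial.eq_C_of_natDegree_eq_zero h, Polynomial.aeval_C] at h0
      exact hp (by
        rw [Polynomial.eq_C_of_natDegree_eq_zero h, hi (h0.trans (map_zero _).symm), map_zero])
    by_cases h1 : Polynomial.aeval f p.derivative = 0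
    · exact ih _ (lt_of_lt_of_le (Polynomial.natDegree_derivative_lt hd) (Nat.lt_succ_iff.1 hN))
        (fun h => hd (Polynomial.derivative_eq_zero.1 h)) h1
    · exact ⟨p, h0, h1⟩

theorem core {F X κ : Type} [Field F] [Algebra ℂ F] [NormedAddCommGroup X] [NormedSpace ℂ X]
    (L : Filter X) (hL : ∀ p : X → Prop, (∀ᶠ y in L, p y) → ∀ᶠ y in L, ∀ᶠ x in 𝓝 y, p x)
    (φ : F → X → ℂ) (ha : ∀ f g, ∀ᶠ y in L, φ (f + g) y = φ f y + φ g y)
    (hm : ∀ f g, ∀ᶠ y in L, φ (f * g) y = φ f y * φ g y)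
    (hc : ∀ c : ℂ, ∀ᶠ y in L, φ (algebraMap ℂ F c) y = c)
    (hd : ∀ f, ∀ᶠ y in L, DifferentiableAt ℂ (φ f) y ∧ (f ≠ 0 → φ f y ≠ 0))
    (ξ : κ → F) (δ : Derivation ℂ F F) (f : F) (hξ : IsTranscendenceBasis ℂ ξ) :
    ∀ᶠ y in L, ∀ v : X, (∀ j, fderiv ℂ (φ (ξ j)) y v = φ (δ (ξ j)) y) →
      fderiv ℂ (φ f) y v = φ (δ f) y := by
  let e : F → X → X → ℂ := fun g y v => fderiv ℂ (φ g) y v - φ (δ g) y
  have h0 : ∀ᶠ y in L, φ 0 y = 0 := by simpa using hc 0
  have ea : ∀ g h, ∀ᶠ y in L, ∀ v, e (g + h) y v = e g y v + e h y v := by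
    intro g h
    filter_upwards [hL _ (ha g h), ha (δ g) (δ h), hd g, hd h] with y h1 h2 h3 h4 v
    have h5 : φ (g + h) =ᶠ[𝓝 y] φ g + φ h := h1
    simp only [e]
    rw [h5.fderiv_eq, fderiv_add h3.1 h4.1, map_add δ, h2, add_apply]
    ring
  have em : ∀ g h, ∀ᶠ y in L, ∀ v, e (g * h) y v = φ g y * e h y v + φ h y * e g y v := by
    intro g h
    filter_upwards [hL _ (hm g h), ha (g * δ h) (h * δ g), hm g (δ h), hm h (δ g), hd g, hd h]
      with y h1 h2 h2' h2'' h3 h4 v
    have h5 : φ (g * h) =ᶠ[𝓝 y] φ g * φ h := h1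
    simp only [e]
    rw [h5.fderiv_eq, fderiv_mul h3.1 h4.1, δ.leibniz, smul_eq_mul, smul_eq_mul, h2, h2', h2'',
      add_apply, smul_apply,
      smul_apply, smul_eq_mul, smul_eq_mul]
    ring
  have ec : ∀ c : ℂ, ∀ᶠ y in L, ∀ v, e (algebraMap ℂ F c) y v = 0 := by
    intro c
    filter_upwards [hL _ (hc c), h0] with y h1 h2 v
    have h5 : φ (algebraMap ℂ F c) =ᶠ[𝓝 y] fun _ => c := h1
    simp only [e]
    rw [h5.fderiv_eq, δ.map_algebraMap, h2]
    simp
  have eA : ∀ a ∈ Algebra.adjoin ℂ (range ξ), ∀ᶠ y in L, ∀ v,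
      (∀ j, fderiv ℂ (φ (ξ j)) y v = φ (δ (ξ j)) y) → e a y v = 0 := by
    intro a h
    induction h using Algebra.adjoin_induction with
    | mem x hx =>
      obtain ⟨j, rfl⟩ := hx
      exact Eventually.of_forall fun y v hv => sub_eq_zero.2 (hv j)
    | algebraMap c => exact (ec c).mono fun y h v _ => h v
    | add g h _ _ i1 i2 =>
      filter_upwards [ea g h, i1, i2] with y h1 h2 h3 v hv
      rw [h1, h2 v hv, h3 v hv, add_zero]
    | mul g h _ _ i1 i2 =>
      filter_upwards [em g h, i1, i2] with y h1 h2 h3 v hv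
      rw [h1, h2 v hv, h3 v hv, mul_zero, mul_zero, add_zero]
  have eP : ∀ p : Polynomial (Algebra.adjoin ℂ (range ξ)), ∀ᶠ y in L, ∀ v,
      (∀ j, fderiv ℂ (φ (ξ j)) y v = φ (δ (ξ j)) y) →
        e (Polynomial.aeval f p) y v = φ (Polynomial.aeval f p.derivative) y * e f y v := by
    intro p
    induction p using Polynomial.induction_on with
    | C a =>
      filter_upwards [eA a.1 a.2, h0] with y h1 h2 v hv
      rw [Polynomial.aeval_C, Polynomial.derivative_C, map_zero, h2, zero_mul]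
      exact h1 v hv
    | add p q i1 i2 =>
      filter_upwards [ea (Polynomial.aeval f p) (Polynomial.aeval f q),
        ha (Polynomial.aeval f p.derivative) (Polynomial.aeval f q.derivative), i1, i2]
        with y h1 h2 h3 h4 v hv
      rw [map_add, map_add, map_add, h1, h2, h3 v hv, h4 v hv, add_mul]
    | monomial k a ih =>
      rw [pow_succ, ← mul_assoc]
      generalize Polynomial.C a * Polynomial.X ^ k = q at ih
      filter_upwards [em (Polynomial.aeval f q) f, hm (Polynomial.aeval f q.derivative) f,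
        ha (Polynomial.aeval f q.derivative * f) (Polynomial.aeval f q), ih]
        with y h1 h2 h3 h4 v hv
      rw [Polynomial.derivative_mul, Polynomial.derivative_X, mul_one, map_add, map_mul, map_mul,
        Polynomial.aeval_X, h1, h3, h2, h4 v hv]
      ring
  obtain ⟨p, hp, hp0⟩ := hξ.isAlgebraic.isAlgebraic f
  have : CharZero F := charZero_of_injective_algebraMap (algebraMap ℂ F).injective
  obtain ⟨q, hq, hq'⟩ := sep (A := Algebra.adjoin ℂ (range ξ)) Subtype.val_injective f _ p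
    (Nat.lt_succ_self _) hp hp0
  filter_upwards [eP q, hd (Polynomial.aeval f q.derivative), ec 0] with y h1 h2 h3 v hv
  have h4 := h1 v hv
  rw [hq, ← map_zero (algebraMap ℂ F), h3 v] at h4
  exact sub_eq_zero.1 ((mul_eq_zero.1 h4.symm).resolve_left (h2.2 hq'))

end CHb

theorem bCH (hKIT : Sb_KIT) (hFN : Sb_FN) : Sb_CH := by
  intro n M _ ι _ _ D F _ _ Φ ξ δ f hξ d z hz
  obtain ⟨-, -, -, h⟩ := hFN n M ι D F Φ
  obtain ⟨-, -, h3, h4, h5, -⟩ := h d z hz
  have hK := ((hKIT n M ι D).2.2.2.2.2.2.2.2.2.2.2.2.1 d z hz).2.2.1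
  exact CHb.core (Gn D d z) (fun p hp => (hK p hp).1) (fun g => Φ.fn g d)
    (fun g h => (h3 g h).mono fun y hy => hy.1) (fun g h => (h3 g h).mono fun y hy => hy.2.1) h4
    (fun g => (h5 g).mono fun y hy => ⟨hy.1.self_of_nhds, hy.2⟩) ξ δ f hξ

end Pool.Agent.Lib.NV5
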