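import Pool.Agent.Lib.NV5.Exc4
import Pool.Agent.Lib.EX.B_BLW

/-! Project NV5, row CN: the contraction in the two languages. -/

open scoped Classical Topology ContDiff Manifold
open Set Filter

set_option linter.unusedVariables false

noncomputable section

namespace Pool.Agent.Lib.NV5

open Pool.Agent.Lib.SV (E)
open Pool.Agent.Lib.KP (HolAt)
open Pool.Agent.Lib.HS32 Pool.Agent.Lib.EX Pool.Agent.Lib.EX.BLW
open Pool.Agent.Lib.HS.BBR (mf)

namespace CNb

variable {n r : ℕ} {I : Type} [Fintype I] [DecidableEq I]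
  {Y : Type} [TopologicalSpace Y] [ChartedSpace (E n) Y] [IsManifold 𝓘(ℂ, E n) ω Y]
  {e : OpenPartialHomeomorph Y (E n)} {z : E n} {S : I → Set Y} {c : I → Option (Fin n)}

theorem back (he : e ∈ (mf n Y).C) (hz : z ∈ e.target) {τ : Y → E r}
    (h : DifferentiableAt ℂ (τ ∘ e.symm) z) :
    DifferentiableAt ℂ (τ ∘ (chartAt (E n) (e.symm z)).symm)
      (chartAt (E n) (e.symm z) (e.symm z)) := by
  have hy := mem_chart_source (E n) (e.symm z)
  have h0 : (chartAt (E n) (e.symm z)).symm (chartAt (E n) (e.symm z) (e.symm z)) ∈ e.source := by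
    rw [(chartAt (E n) (e.symm z)).left_inv hy]
    exact e.map_target hz
  have h1 := ((he (e.symm z)).1).at ((chartAt (E n) (e.symm z)).map_source hy) h0
  have h2 : DifferentiableAt ℂ (τ ∘ e.symm) ((e ∘ (chartAt (E n) (e.symm z)).symm)
      (chartAt (E n) (e.symm z) (e.symm z))) := by
    rw [Function.comp_apply (f := e), (chartAt (E n) (e.symm z)).left_inv hy, e.right_inv hz]
    exact h
  refine (h2.comp _ h1).congr_of_eventuallyEq ?_
  filter_upwards [((chartAt (E n) (e.symm z)).isOpen_inter_preimage_symm e.open_source).mem_nhds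
    ⟨(chartAt (E n) (e.symm z)).map_source hy, h0⟩] with w hw
  simp only [Function.comp_apply, e.left_inv hw.2]

theorem one (he : e ∈ (mf n Y).C) (hz : z ∈ e.target)
    (hF : ∀ w ∈ e.target, ∀ i, e.symm w ∈ S i ↔ xi c i w = 0) {ex : Set I} {τ : Y → E r}
    {b : I → ℤ} {h : I → Y → ℂ} {t : Y → E r} (hE : Eqs n S (e.symm z) h) (t0 : t (e.symm z) ≠ 0)
    (ht : ∀ᶠ x in 𝓝 (e.symm z), (∀ j, HolAt n 0 (t · j) x) ∧
      ((∀ i, x ∉ S i) → τ x = (∏ i, h i x ^ (-b i)) • t x))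
    (ec : ∀ i ∈ ex, e.symm z ∈ S i → ∃ v ≠ 0, dAt n (h i) (e.symm z) v = 0 ∧
      ∃ a : ℂ, dAt n t (e.symm z) v = a • t (e.symm z)) :
    (HolN (num c (-b) (τ ∘ e.symm)) z ∧ num c (-b) (τ ∘ e.symm) z ≠ 0 ∧
      (Off c z → τ (e.symm z) = xm c (-b) z • num c (-b) (τ ∘ e.symm) z)) ∧
    ∀ i ∈ ex, ∀ j, c i = some j → z j = 0 → ∃ v ≠ 0, v j = 0 ∧ ∃ a : ℂ,
      fderiv ℂ (num c (-b) (τ ∘ e.symm)) z v = a • num c (-b) (τ ∘ e.symm) z := by
  obtain ⟨u, hu, hg⟩ := unit bUNI he hz hF hE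
  obtain ⟨p1, p2⟩ := hol_prod hu (-b)
  set U : E n → ℂ := fun w => ∏ i, u i w ^ (-b) i with hUd
  have a1 : HolN (t ∘ e.symm) z := holN he hz (ht.mono fun x hx => holv hx.1)
  have a2 : HolN (U • t ∘ e.symm) z := (Eventually.and p1 a1).mono fun y hy => hy.1.smul hy.2
  have a3 : ∀ᶠ y in 𝓝 z, Off c y → (τ ∘ e.symm) y = xm c (-b) y • (U • t ∘ e.symm) y := by
    filter_upwards [ev hz ht, hg] with y b1 b2 ho
    simp only [Function.comp_apply, b1.2.2 fun i hi => ho i ((hF y b1.1 i).1 hi), b2, mul_zpow,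
      Finset.prod_mul_distrib, xm, hUd, smul_smul, mul_comm, Pi.smul_apply', Pi.neg_apply]
  have a4 := num_eq a2 a3
  refine ⟨⟨(Eventually.and a2 a4.eventually_nhds).mono fun y b => b.1.congr_of_eventuallyEq b.2,
    ?_, fun ho => ?_⟩, fun i hi j hj z0 => ?_⟩
  · rw [a4.self_of_nhds]
    exact smul_ne_zero p2 t0
  · rw [a4.self_of_nhds]
    exact a3.self_of_nhds ho
  · have e1 : xi c i = fun w => w j := MON.xi_some hj
    obtain ⟨w, w0, b1, a, b2⟩ := ec i hi ((hF z hz i).2 (by rw [e1]; exact z0))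
    obtain ⟨y, rfl⟩ := ph_surj he hz w
    refine ⟨y, fun b => w0 (by rw [b, map_zero]), ?_, a + fderiv ℂ U z y * (U z)⁻¹, ?_⟩
    · have b3 := der he hz (hol0 (hE.1.self_of_nhds i).1)
      have b4 : HasFDerivAt (h i ∘ e.symm) _ z :=
        ((hu i).1.self_of_nhds.hasFDerivAt.mul (hasFDerivAt_apply j z)).congr_of_eventuallyEq
          (hg.mono fun x hx => by simp only [Function.comp_apply, hx i, e1, Pi.mul_apply])
      have b5 : dAt n (h i) (e.symm z) (ph e z y) = u i z * y j + z j * fderiv ℂ (u i) z y :=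
        congrArg (fun L : E n →L[ℂ] ℂ => L y) (b3.unique b4)
      rw [b1, z0, zero_mul, add_zero] at b5
      exact (mul_eq_zero.1 b5.symm).resolve_left (hu i).2
    · have dt := der he hz (holv ht.self_of_nhds.1)
      rw [a4.fderiv_eq, a4.self_of_nhds, (p1.self_of_nhds.hasFDerivAt.smul dt).fderiv]
      show U z • dAt n t (e.symm z) (ph e z y) + fderiv ℂ U z y • t (e.symm z) =
        (a + fderiv ℂ U z y * (U z)⁻¹) • U z • t (e.symm z)
      rw [b2, add_smul, smul_comm a, smul_smul (_ * _), inv_mul_cancel_right₀ p2]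

theorem imm (he : e ∈ (mf n Y).C) (hz : z ∈ e.target) (ho : Off c z) {τ : Y → E r} {G : I → ℤ}
    {T : E n → E r} (hT : DifferentiableAt ℂ T z)
    (h : ∀ᶠ w in 𝓝 z, Off c w → τ (e.symm w) = xm c G w • T w)
    (im : ∀ v (a : ℂ), dAt n τ (e.symm z) v = a • τ (e.symm z) → v = 0) (y : E n) (a : ℂ)
    (hy : fderiv ℂ T z y = a • T z) : y = 0 := by
  have h1 : (τ ∘ e.symm) =ᶠ[𝓝 z] xm c G • T := by
    filter_upwards [h, MON.off_ev ho] with w b1 b2
    exact b1 b2
  have h2 := (((MON.diff_xm (G := G) fun i => Or.inl (ho i)).hasFDerivAt.smul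
    hT.hasFDerivAt).congr_of_eventuallyEq h1)
  have h3 : dAt n τ (e.symm z) (ph e z y) =
      xm c G z • fderiv ℂ T z y + fderiv ℂ (xm c G) z y • T z :=
    congrArg (fun L : E n →L[ℂ] E r => L y)
      ((der he hz (back he hz h2.differentiableAt)).unique h2)
  refine ph_inj he hz ((im _ (a + fderiv ℂ (xm c G) z y * (xm c G z)⁻¹) ?_).trans
    (map_zero _).symm)
  rw [h3, h.self_of_nhds ho, hy, add_smul, smul_comm a, smul_smul (_ * _),
    inv_mul_cancel_right₀ (MON.xm_ne G ho)]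

end CNb

theorem bCN : Sb_CN := by
  intro n Y I _ _ _ _ _ S D b ex hF ⟨r, τ, ⟨y, hy, im⟩, h⟩
  have key := fun (d : D.A) z (hz : z ∈ B2 n) =>
    let ⟨_, _, hE, t0, ht, ec⟩ := h ((D.e d).symm z)
    CNb.one (Y := Y) (D.mem d) (tgt D d hz) (fit hF d) hE t0 ht ec
  obtain ⟨d, hd⟩ : ∃ d, y ∈ (D.e d).source := by
    by_contra h0
    have h1 := D.sum y
    rw [Finset.sum_eq_zero fun a _ => by
      by_contra h2
      exact h0 ⟨a, (D.supp a y h2).1⟩] at h1
    exact zero_ne_one h1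
  have hz : D.e d y ∈ B2 n := D.tgt d ▸ (D.e d).map_source hd
  have hs : (D.e d).symm (D.e d y) = y := (D.e d).left_inv hd
  have ho : Off (D.c d) (D.e d y) := fun i h0 =>
    hy i (hs ▸ (fit hF d _ (tgt D d hz) i).2 h0)
  refine ⟨⟨r, τ, fun d => num (D.c d) (-b) (τ ∘ (D.e d).symm), fun d z hz => (key d z hz).1,
    ⟨d, _, hz, ho, CNb.imm (Y := Y) (G := -b) (D.mem d) (tgt D d hz) ho
      (key d _ hz).1.1.self_of_nhds ?_ (hs.symm ▸ im)⟩, fun d z hz => (key d z hz).2⟩⟩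
  filter_upwards [Metric.isOpen_ball.mem_nhds hz] with w hw
  exact (key d w hw).1.2.2

end Pool.Agent.Lib.NV5
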