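import Pool.Agent.Lib.NV5.Blue
import Pool.Agent.Lib.SV.B_SMO

/-! Project NV5, row DER: derivatives of units. -/

open scoped Classical Topology ContDiff
open Set Complex Metric Filter

noncomputable section

namespace Pool.Agent.Lib.NV5

open Pool.Agent.Lib.SV (E)
open Pool.Agent.Lib.HS32 Pool.Agent.Lib.EX Pool.Agent.Lib.EXS Pool.Agent.Lib.ZL

namespace DERb

variable {n : ℕ} {z : E n}

theorem hol_fd {β : Type} [NormedAddCommGroup β] [NormedSpace ℂ β] [CompleteSpace β]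
    {f : E n → β} (h : HolN f z) : HolN (fderiv ℂ f) z := by
  obtain ⟨U, hU, ho, hz⟩ := _root_.eventually_nhds_iff.1 h
  filter_upwards [ho.mem_nhds hz] with w hw
  have h2 : ContDiffAt ℂ 2 f w :=
    (SV.stSMO n β U f ho (fun w hw => (hU w hw).differentiableWithinAt) 2).contDiffAt
      (ho.mem_nhds hw)
  exact (h2.fderiv_right (m := 1) (by norm_num)).differentiableAt one_ne_zero

theorem hmul {a b : E n → ℂ} (ha : HolN a z) (hb : HolN b z) : HolN (a * b) z := by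
  filter_upwards [ha, hb] with y y1 y2 using y1.mul y2

theorem hadd {a b : E n → ℂ} (ha : HolN a z) (hb : HolN b z) : HolN (a + b) z := by
  filter_upwards [ha, hb] with y y1 y2 using y1.add y2

theorem hpow {a : E n → ℂ} (ha : HolN a z) (k : ℕ) : HolN (fun y => a y ^ k) z := by
  filter_upwards [ha] with y y1 using y1.fun_pow k

/-- Dual vector fields of a system of coordinates. -/
theorem dual {x : E n → E n} (hx : HolN x z) (hi : Function.Injective (fderiv ℂ x z)) :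
    ∃ c : Fin n → E n → E n, (∀ j, HolN (c j) z) ∧
      ∀ᶠ y in 𝓝 z, ∀ j, fderiv ℂ x y (c j y) = Pi.single j 1 := by
  have inv : ∀ A : E n →L[ℂ] E n, Function.Injective A → ∃ e : E n ≃L[ℂ] E n,
      (e : E n →L[ℂ] E n) = A := fun A hA =>
    ⟨(LinearEquiv.ofInjectiveEndo (A : E n →ₗ[ℂ] E n) hA).toContinuousLinearEquiv, by
      ext1 v
      rfl⟩
  have h1 : ∀ᶠ y in 𝓝 z, ∃ e : E n ≃L[ℂ] E n, (e : E n →L[ℂ] E n) = fderiv ℂ x y := by
    obtain ⟨e, he⟩ := inv _ hi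
    exact (hol_fd hx).self_of_nhds.continuousAt.eventually (he ▸ e.nhds)
  refine ⟨fun j y => (fderiv ℂ x y).inverse (Pi.single j 1), fun j => ?_, ?_⟩
  · filter_upwards [h1, hol_fd hx] with y ⟨e, he⟩ y2
    have h3 : DifferentiableAt ℂ ContinuousLinearMap.inverse (fderiv ℂ x y) :=
      he ▸ (contDiffAt_map_inverse (n := 1) e).differentiableAt one_ne_zero
    exact (h3.comp y y2).clm_apply (differentiableAt_const _)
  · filter_upwards [h1] with y ⟨e, he⟩ j
    rw [← he, ContinuousLinearMap.inverse_equiv]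
    exact e.apply_symm_apply _

/-- A pole of order at most `N` along `u`. -/
def Pl (G : Filter (E n)) (u : E n → ℂ) (z : E n) (N : ℤ) (φ : E n → ℂ) : Prop :=
  ∃ a b, HolN a z ∧ Nd u z b ∧ ∀ᶠ y in G, u y ≠ 0 → φ y * b y = u y ^ (-N) * a y

variable {G : Filter (E n)} {u : E n → ℂ} {N : ℤ}

theorem Pl.sum (h1 : Nd u z 1) (hm : ∀ a b, Nd u z a → Nd u z b → Nd u z (a * b)) {κ : Type}
    (s : Finset κ) (φ : κ → E n → ℂ) (h : ∀ j, Pl G u z N (φ j)) :
    Pl G u z N fun y => ∑ j ∈ s, φ j y := by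
  induction s using Finset.induction_on with
  | empty => exact ⟨0, 1, .of_forall fun _ => differentiableAt_const _, h1, by simp⟩
  | insert j s hj ih =>
    obtain ⟨a, b, ha, hb, e⟩ := h j
    obtain ⟨a', b', ha', hb', e'⟩ := ih
    refine ⟨a * b' + a' * b, b * b', hadd (hmul ha hb'.1) (hmul ha' hb.1), hm _ _ hb hb', ?_⟩
    filter_upwards [e, e'] with y y1 y2 h0
    simp only [Finset.sum_insert hj, Pi.mul_apply, Pi.add_apply]
    linear_combination b' y * y1 h0 + b y * y2 h0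

end DERb

open DERb in
theorem bDER (hCH : Sb_CH) (hRES : Sb_RES) (hORD : Sb_ORD) (hFN : Sb_FN) (hKIT : Sb_KIT) :
    Sb_DER := by
  intro n M _ ι _ _ D F _ _ Φ r P t hK hI htr δ h v m hv B f hB hf
  by_cases h0 : δ f = 0
  · rw [h0, map_zero]
    exact zero_le
  obtain ⟨i₀, I, x, -, hx, hi, ex, ind⟩ := (hRES n M ι D F Φ r P t hK hI).1 h.d h.z h.mem
  set ξ : Fin n → F := fun j => Φ.ev (t (I j)) / Φ.ev (t i₀) with hξ
  have bas : IsTranscendenceBasis ℂ ξ :=
    ind.isTranscendenceBasis_of_trdeg_le_of_finite (by rw [htr, Cardinal.mk_fin])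
  have ch := hCH n M ι D F Φ ξ δ f bas h.d h.z h.mem
  obtain ⟨-, -, o3, o4, -, -, o7⟩ := hORD n h.u h.z h.hy
  obtain ⟨-, -, -, fn⟩ := hFN n M ι D F Φ
  obtain ⟨-, -, -, f4, f5, -⟩ := fn h.d h.z h.mem
  obtain ⟨-, -, -, -, -, -, -, -, -, -, -, -, k13, -⟩ := hKIT n M ι D
  obtain ⟨g1, -, g3, -, g5⟩ := k13 h.d h.z h.mem
  have le : Gn D h.d h.z ≤ 𝓝 h.z := inf_le_left
  have n1 : Nd h.u h.z 1 := o4 1 (.of_forall fun _ => differentiableAt_const _) one_ne_zero
  have z0 : ∀ᶠ y in Gn D h.d h.z, Φ.fn 0 h.d y = 0 := by simpa using f4 0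
  rcases eq_or_ne B 0 with rfl | hB0
  · have e0 : ∀ j, δ (ξ j) = 0 := fun j => v.zero_iff.1 (le_zero_iff.1 (hB _ _))
    obtain ⟨y, y1, y2, y3⟩ := (ch.and ((f5 (δ f)).and z0)).exists
    exact absurd ((y1 0 fun j => by rw [e0, y3, map_zero]).symm.trans (map_zero _)) (y2.2 h0)
  obtain ⟨c, hc, ec⟩ := dual hx hi
  obtain ⟨a, b, ha, hb, e⟩ := (hv.reg 0 f).1 (by simpa using hf)
  have p1 : ∀ j, Pl (Gn D h.d h.z) h.u h.z (WithZero.log B) fun y =>
      Φ.fn (δ (ξ j)) h.d y * fderiv ℂ (Φ.fn f h.d) y (c j y) := fun j => by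
    have q : Pl (Gn D h.d h.z) h.u h.z (WithZero.log B) (Φ.fn (δ (ξ j)) h.d) := by
      by_cases hj : δ (ξ j) = 0
      · refine ⟨0, 1, .of_forall fun _ => differentiableAt_const _, n1, ?_⟩
        filter_upwards [z0] with y y1 _
        simp [hj, y1]
      · obtain ⟨a', b', ha', hb', e'⟩ := hv.ord _ hj
        have l : WithZero.log (v (δ (ξ j))) ≤ WithZero.log B :=
          (WithZero.log_le_log (v.ne_zero_iff.2 hj) hB0).2 (hB _ _)
        obtain ⟨k, hk⟩ := Int.eq_ofNat_of_zero_le (sub_nonneg.2 l)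
        refine ⟨(fun y => h.u y ^ k) * a', b', hmul (hpow h.hy.1 k) ha'.1, hb', ?_⟩
        filter_upwards [e'] with y y1 y0
        rw [y1 y0, Pi.mul_apply, ← mul_assoc, ← zpow_natCast, ← zpow_add₀ y0, ← hk]
        congr 2
        ring
    obtain ⟨a', b', ha', hb', e'⟩ := q
    have hd : ∀ g : E n → ℂ, HolN g h.z → HolN (fun y => fderiv ℂ g y (c j y)) h.z :=
      fun g hg => by
        filter_upwards [hol_fd hg, hc j] with y y1 y2 using y1.clm_apply y2
    refine ⟨a' * (b * (fun y => fderiv ℂ a y (c j y)) + (-a) * fun y => fderiv ℂ b y (c j y)),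
      b' * (b * b), hmul ha' (hadd (hmul hb.1 (hd a ha))
        (hmul (ha.mono fun _ h => h.neg) (hd b hb.1))), o3 _ _ hb' (o3 _ _ hb hb), ?_⟩
    filter_upwards [e', (g3 _ e).1, f5 f, le hb.1] with y y1 y2 y3 y4 y0
    have y5 : Φ.fn f h.d * b =ᶠ[𝓝 y] a := y2.mono fun w hw => by simpa [xm] using hw
    have y6 : fderiv ℂ (Φ.fn f h.d * b) y (c j y) = fderiv ℂ a y (c j y) := by
      rw [y5.fderiv_eq]
    have y7 : Φ.fn f h.d y * b y = a y := y5.self_of_nhds
    rw [fderiv_mul y3.1.self_of_nhds y4] at y6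
    simp only [_root_.add_apply, _root_.smul_apply, smul_eq_mul] at y6
    simp only [Pi.mul_apply, Pi.add_apply, Pi.neg_apply]
    rw [← y6, ← y7, ← mul_assoc (h.u y ^ _), ← y1 y0]
    ring
  obtain ⟨A, β, hA, hβ, eA⟩ := Pl.sum n1 o3 Finset.univ _ p1
  obtain ⟨a', b', ha', hb', e'⟩ := hv.ord _ h0
  set k := -WithZero.log (v (δ f)) with hk
  set N := WithZero.log B with hN
  obtain ⟨p, hp⟩ := Int.eq_ofNat_of_zero_le (show 0 ≤ k + (|k| + |N|) by
    linarith [neg_abs_le k, abs_nonneg N])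
  obtain ⟨q, hq⟩ := Int.eq_ofNat_of_zero_le (show 0 ≤ -N + (|k| + |N|) by
    linarith [le_abs_self N, abs_nonneg k])
  have fin := g5 ((fun y => h.u y ^ (p + 1)) * (a' * β)) ((fun y => h.u y ^ (q + 1)) * (A * b'))
    (hmul (hpow h.hy.1 _) (hmul ha'.1 hβ.1)) (hmul (hpow h.hy.1 _) (hmul hA hb'.1)) (by
      filter_upwards [e', eA, ch, (g3 _ ex).1, le ec, le hx] with y y1 y2 y3 y4 y5 y6
      by_cases y0 : h.u y = 0
      · simp [y0]
      have y7 := y3 (∑ j, Φ.fn (δ (ξ j)) h.d y • c j y) fun j => by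
        have y8 : Φ.fn (ξ j) h.d =ᶠ[𝓝 y] fun w => x w j := y4.mono fun w hw => hw j
        rw [y8.fderiv_eq, fderiv_apply y6, ContinuousLinearMap.comp_apply]
        simp [y5, Pi.single_apply]
      simp only [map_sum, map_smul, smul_eq_mul] at y7
      have y9 := y2 y0
      rw [y7] at y9
      simp only [Pi.mul_apply, pow_succ]
      rw [← zpow_natCast, ← zpow_natCast, ← hp, ← hq, zpow_add₀ y0 k, zpow_add₀ y0 (-N)]
      linear_combination h.u y ^ (|k| + |N|) * h.u y * (b' y * y9 - β y * y1 y0))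
  have := o7 (p + 1 : ℕ) (q + 1 : ℕ) _ _ (o3 _ _ ha' hβ) (hmul hA hb'.1)
    (fin.mono fun y y1 _ => by rw [zpow_natCast, zpow_natCast]; exact y1)
  push_cast at this
  exact (WithZero.log_le_log (v.ne_zero_iff.2 h0) hB0).1 (by linarith)

end Pool.Agent.Lib.NV5
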