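import Pool.Agent.Lib.NV5.Blue

/-! Project NV5: the field is finitely generated. -/

open scoped Classical Topology
open Set Filter

noncomputable section

namespace Pool.Agent.Lib.NV5

open Pool.Agent.Lib.SV (E)
open Pool.Agent.Lib.HS32 Pool.Agent.Lib.EX Pool.Agent.Lib.EXS Pool.Agent.Lib.ZL Pool.Agent.Lib.NV2

theorem bFG (hKIT : Sb_KIT) (hFN : Sb_FN) (hRES : Sb_RES) (hSGL : Sb_SGL) (hSIE : Sa_SIE) :
    Sb_FG := by
  intro n M _ ι _ _ D F _ _ Φ r P t hP hK hI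
  obtain ⟨k1, k2, k3, k4, k5, k6, -⟩ := hKIT n M ι D
  obtain ⟨f1, -⟩ := hFN n M ι D F Φ
  obtain ⟨hfd, C, hC⟩ := hSGL n M ι D P
  let W : (ι → ℤ) → Submodule ℂ (M.X → ℂ) := fun Q =>
    { carrier := {s | Sp D Q s}
      zero_mem' := k5 Q
      add_mem' := fun h h' => k2 Q _ _ h h'
      smul_mem' := fun c s h => k4 Q c s h }
  have hW : ∀ Q, Submodule.span ℂ {s | Sp D Q s} = W Q := fun Q => Submodule.span_eq (W Q)
  let L : ∀ Q, W Q →ₗ[ℂ] F := fun Q =>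
    { toFun := fun s => Φ.ev s
      map_add' := fun s s' => Φ.add _ _ ⟨Q, s.2⟩ ⟨Q, s'.2⟩
      map_smul' := fun c s => Φ.smul c _ ⟨Q, s.2⟩ }
  have hf : ∀ Q, FiniteDimensional ℂ (W Q) := fun Q => hW Q ▸ hfd Q
  have hL : ∀ Q s, Sp D Q s → Φ.ev s ∈ LinearMap.range (L Q) := fun Q s h => ⟨⟨s, h⟩, rfl⟩
  have hne : ∀ s, Rg D s → s ≠ 0 → Φ.ev s ≠ 0 := fun s h h0 e => h0 (Φ.inj s h e)
  obtain ⟨x⟩ : Nonempty M.X := inferInstance
  obtain ⟨d, -⟩ : ∃ d : D.A, True := by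
    by_contra h
    have : IsEmpty D.A := ⟨fun d => h ⟨d, trivial⟩⟩
    simpa using D.sum x
  obtain ⟨i₀, I, -, h0, -, -, -, hind⟩ := (hRES n M ι D F Φ r P t hK hI).1 d 0
    (Metric.mem_ball_self two_pos)
  refine hSIE n r F (fun j => LinearMap.range (L fun i => j * P i)) C (fun i => Φ.ev (t i)) i₀ I
    (fun j => have := hf fun i => j * P i; inferInstance) (fun j => ?_) ?_ ?_ (fun i => ?_)
    (hne _ ⟨P, hK.1 i₀⟩ h0) hind fun f => ?_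
  · have := hf fun i => j * P i
    refine (LinearMap.finrank_range_le _).trans (le_trans (le_of_eq ?_) (hC j))
    rw [NV2.h0, hW]
  · rintro i j _ ⟨s, rfl⟩ _ ⟨s', rfl⟩
    have e := Φ.mul _ _ ⟨_, s.2⟩ ⟨_, s'.2⟩
    refine e ▸ hL _ _ (k1 _ _ _ (fun a => le_of_eq ?_) (k3 _ _ _ _ s.2 s'.2))
    simp only [Pi.add_apply]
    push_cast
    ring
  · exact f1 ▸ hL _ _ (k1 _ _ _ (fun a => by simp) k6)
  · exact hL _ _ (k1 _ _ _ (fun a => by simp) (hK.1 i))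
  · obtain ⟨p, ⟨Q, h1⟩, ⟨Q', h2⟩, h3, rfl⟩ := Φ.frac f
    have k : ∀ R : ι → ℤ, ∀ j : ℕ, ∑ a, (R a).natAbs ≤ j → R ≤ fun a => j * P a := fun R j h a => by
      have e1 : (R a).natAbs ≤ j := (Finset.single_le_sum (f := fun a => (R a).natAbs)
        (fun _ _ => Nat.zero_le _) (Finset.mem_univ a)).trans h
      have e2 : (j : ℤ) ≤ j * P a := le_mul_of_one_le_right (Int.natCast_nonneg j) (hP a)
      have e3 : R a ≤ (R a).natAbs := Int.le_natAbs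
      show R a ≤ j * P a
      omega
    exact ⟨∑ a, (Q a).natAbs + ∑ a, (Q' a).natAbs, _,
      hL _ _ (k1 _ _ _ (k _ _ (Nat.le_add_right _ _)) h1), _,
      hL _ _ (k1 _ _ _ (k _ _ (Nat.le_add_left _ _)) h2), hne _ ⟨Q', h2⟩ h3, rfl⟩

end Pool.Agent.Lib.NV5
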