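import Pool.Agent.Lib.NV5.Blue

/-! Project NV5, row FLD: the field of fractions exists. -/

open scoped Classical
open Set

noncomputable section

namespace Pool.Agent.Lib.NV5

open Pool.Agent.Lib.HS32 Pool.Agent.Lib.EX Pool.Agent.Lib.EXS Pool.Agent.Lib.ZL

namespace FLDb

/-- The field of fractions of a ring of functions with a unit supported on `O`. -/
theorem ex {Y : Type} (O : Set Y) (R : (Y → ℂ) → Prop) (h1 : R (O.indicator 1))
    (h0 : O.indicator (1 : Y → ℂ) ≠ 0) (hu : ∀ s, R s → O.indicator 1 * s = s)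
    (hs : ∀ (c : ℂ) s, R s → R (c • s))
    (hr : ∀ s t, R s → R t → R (s + t) ∧ R (s * t) ∧ (s * t = 0 → s = 0 ∨ t = 0)) :
    ∃ (F : Type) (_ : Field F) (_ : Algebra ℂ F) (ev : (Y → ℂ) → F),
      (∀ s t, R s → R t → ev (s + t) = ev s + ev t) ∧
      (∀ s t, R s → R t → ev (s * t) = ev s * ev t) ∧
      (∀ (c : ℂ) s, R s → ev (c • s) = c • ev s) ∧ (∀ s, R s → ev s = 0 → s = 0) ∧
      ∀ f, ∃ p : (Y → ℂ) × (Y → ℂ), R p.1 ∧ R p.2 ∧ p.2 ≠ 0 ∧ f = ev p.1 / ev p.2 := by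
  have hi : ∀ s, R s → (fun x : O => s x) = 0 → s = 0 := fun s h e => by
    funext x
    by_cases hx : x ∈ O
    · exact congrFun e ⟨x, hx⟩
    · rw [← hu s h, Pi.mul_apply, indicator_of_notMem hx, zero_mul, Pi.zero_apply]
  let A : Subalgebra ℂ (O → ℂ) :=
    { carrier := {f | ∃ s, R s ∧ (fun x : O => s x) = f}
      mul_mem' := by
        rintro _ _ ⟨s, a, rfl⟩ ⟨t, b, rfl⟩
        exact ⟨s * t, (hr s t a b).2.1, rfl⟩
      add_mem' := by
        rintro _ _ ⟨s, a, rfl⟩ ⟨t, b, rfl⟩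
        exact ⟨s + t, (hr s t a b).1, rfl⟩
      algebraMap_mem' := fun c => ⟨c • O.indicator 1, hs c _ h1, funext fun x => by
        rw [Pi.smul_apply, indicator_of_mem x.2, Pi.one_apply, smul_eq_mul, mul_one]
        rfl⟩ }
  haveI : Nontrivial A := ⟨⟨⟨_, _, h1, rfl⟩, 0, fun e => h0 (hi _ h1 (congrArg Subtype.val e))⟩⟩
  haveI : NoZeroDivisors A := ⟨by
    rintro ⟨_, s, a, rfl⟩ ⟨_, t, b, rfl⟩ e
    refine ((hr s t a b).2.2 (hi _ (hr s t a b).2.1 (congrArg Subtype.val e))).imp ?_ ?_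
    · rintro rfl
      rfl
    · rintro rfl
      rfl⟩
  haveI : IsDomain A := NoZeroDivisors.to_isDomain A
  have he : ∃ ev : (Y → ℂ) → FractionRing A, ∀ s (h : R s),
      ev s = algebraMap A (FractionRing A) ⟨_, s, h, rfl⟩ :=
    ⟨fun s => if h : R s then algebraMap A (FractionRing A) ⟨_, s, h, rfl⟩ else 0,
      fun s h => dif_pos h⟩
  obtain ⟨ev, he⟩ := he
  refine ⟨FractionRing A, inferInstance, inferInstance, ev, fun s t a b => ?_, fun s t a b => ?_,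
    fun c s a => ?_, fun s a e => ?_, fun f => ?_⟩
  · rw [he _ (hr s t a b).1, he s a, he t b, ← map_add]
    rfl
  · rw [he _ (hr s t a b).2.1, he s a, he t b, ← map_mul]
    rfl
  · rw [he _ (hs c s a), he s a, Algebra.smul_def c (algebraMap A (FractionRing A) _),
      IsScalarTower.algebraMap_apply ℂ A (FractionRing A), ← map_mul, ← Algebra.smul_def]
    rfl
  · rw [he s a, IsFractionRing.to_map_eq_zero_iff] at e
    exact hi s a (congrArg Subtype.val e)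
  · obtain ⟨⟨_, s, a, rfl⟩, ⟨_, t, b, rfl⟩, h, rfl⟩ := IsFractionRing.div_surjective A f
    refine ⟨(s, t), a, b, ?_, by rw [he s a, he t b]⟩
    rintro (rfl : t = 0)
    exact nonZeroDivisors.ne_zero h rfl

end FLDb

theorem bFLD (hK : Sb_KIT) : Sb_FLD := by
  intro n M _ ι _ _ D
  obtain ⟨-, -, -, h4, -, h6, h7, h8, h9, -⟩ := hK n M ι D
  obtain ⟨F, _, _, ev, a, b, c, d, e⟩ := FLDb.ex (off D) (Rg D) ⟨0, h6⟩ h7 h8
    (fun c s ⟨Q, h⟩ => ⟨Q, h4 Q c s h⟩) h9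
  exact ⟨F, inferInstance, inferInstance, ⟨⟨ev, a, b, c, d, e⟩⟩⟩

end Pool.Agent.Lib.NV5
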