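import Pool.Agent.Lib.NV5.Blue

/-! Project NV5: row FN, elements of the field as functions. -/

open scoped Classical Topology
open Set Complex Metric Filter

noncomputable section

namespace Pool.Agent.Lib.NV5

open Pool.Agent.Lib.SV (E)
open Pool.Agent.Lib.HS32 Pool.Agent.Lib.EX Pool.Agent.Lib.EXS Pool.Agent.Lib.ZL

namespace FN

variable {n : ℕ} {M : Mf n} {ι : Type} [Fintype ι] [DecidableEq ι] {D : Ad M ι}

theorem gn_ne {t : M.X → ℂ} (h : Rg D t) (h0 : t ≠ 0) (d : D.A) (z : E n) :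
    ∀ᶠ y in Gn D d z, D.rd t d y ≠ 0 :=
  mem_inf_of_right (mem_iInf_of_mem (⟨t, h, h0⟩ : {t // Rg D t ∧ t ≠ 0}) (mem_principal_self _))

theorem un_one {d : D.A} {y : E n} (h : D.rd (un D) d y ≠ 0) : D.rd (un D) d y = 1 :=
  indicator_of_mem (mem_of_indicator_ne_zero h) _

end FN

open FN in
theorem bFN (hK : Sb_KIT) : Sb_FN := by
  intro n M _ ι _ _ D F _ _ Φ
  obtain ⟨k1, -, -, k4, k5, k6, k7, k8, k9, -, k11, -, k13, -, k15⟩ := hK n M ι D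
  have r0 : Rg D 0 := ⟨0, k5 0⟩
  have r1 : Rg D (un D) := ⟨0, k6⟩
  have rs : ∀ (c : ℂ) s, Rg D s → Rg D (c • s) := fun c s ⟨Q, h⟩ => ⟨Q, k4 Q c s h⟩
  have ne : ∀ s, Rg D s → s ≠ 0 → Φ.ev s ≠ 0 := fun s h h0 h1 => h0 (Φ.inj s h h1)
  have e1 : Φ.ev (un D) = 1 := mul_left_cancel₀ (ne _ r1 k7) (by
    rw [← Φ.mul _ _ r1 r1, k8 _ r1, mul_one])
  have e0 : Φ.ev 0 = 0 := by simpa using Φ.smul 0 0 r0
  have inj : ∀ s t, Rg D s → Rg D t → Φ.ev s = Φ.ev t → s = t := fun s t hs ht h => by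
    have := Φ.inj _ (k9 _ _ hs (rs (-1) t ht)).1 (by
      rw [Φ.add _ _ hs (rs _ _ ht), Φ.smul _ _ ht, h, neg_one_smul, add_neg_cancel])
    rwa [neg_one_smul, add_neg_eq_zero] at this
  have mne : ∀ s t, Rg D s → Rg D t → s ≠ 0 → t ≠ 0 → s * t ≠ 0 := fun s t hs ht h1 h2 h =>
    ((k9 s t hs ht).2.2 h).elim h1 h2
  refine ⟨e1, e0, inj, fun d z hz => ?_⟩
  have sp := fun f => (Φ.frac f).choose_spec
  have a : ∀ s t, Rg D s → Rg D t → t ≠ 0 →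
      ∀ᶠ y in Gn D d z, Φ.fn (Φ.ev s / Φ.ev t) d y = D.rd s d y / D.rd t d y := by
    intro s t hs ht h0
    obtain ⟨h1, h2, h3, h4⟩ := sp (Φ.ev s / Φ.ev t)
    rw [div_eq_div_iff (ne _ ht h0) (ne _ h2 h3), ← Φ.mul _ _ hs h2, ← Φ.mul _ _ h1 ht] at h4
    have h5 := inj _ _ (k9 _ _ hs h2).2.1 (k9 _ _ h1 ht).2.1 h4
    filter_upwards [gn_ne ht h0 d z, gn_ne h2 h3 d z] with y y1 y2
    exact (div_eq_div_iff y2 y1).2 (congrFun h5 _).symm
  have b : ∀ s, Rg D s → ∀ᶠ y in Gn D d z, Φ.fn (Φ.ev s) d y = D.rd s d y := fun s hs => by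
    filter_upwards [a s _ hs r1 k7, gn_ne r1 k7 d z] with y y1 y2
    rwa [e1, un_one y2, div_one, div_one] at y1
  have c : ∀ f g, ∀ᶠ y in Gn D d z, Φ.fn (f + g) d y = Φ.fn f d y + Φ.fn g d y ∧
      Φ.fn (f * g) d y = Φ.fn f d y * Φ.fn g d y ∧ Φ.fn (f / g) d y = Φ.fn f d y / Φ.fn g d y := by
    intro f g
    obtain ⟨p1, p2, p3, p4⟩ := sp f
    obtain ⟨q1, q2, q3, q4⟩ := sp g
    set s := (Φ.frac f).choose.1 with hs
    set t := (Φ.frac f).choose.2 with ht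
    set s' := (Φ.frac g).choose.1 with hs'
    set t' := (Φ.frac g).choose.2 with ht'
    have m := fun s t hs ht => (k9 s t hs ht).2.1
    have h1 := a _ _ (k9 _ _ (m _ _ p1 q2) (m _ _ p2 q1)).1 (m _ _ p2 q2) (mne _ _ p2 q2 p3 q3)
    have h2 := a _ _ (m _ _ p1 q1) (m _ _ p2 q2) (mne _ _ p2 q2 p3 q3)
    rw [Φ.add _ _ (m _ _ p1 q2) (m _ _ p2 q1), Φ.mul _ _ p1 q2, Φ.mul _ _ p2 q1, Φ.mul _ _ p2 q2,
      ← div_add_div _ _ (ne _ p2 p3) (ne _ q2 q3), ← p4, ← q4] at h1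
    rw [Φ.mul _ _ p1 q1, Φ.mul _ _ p2 q2, ← div_mul_div_comm, ← p4, ← q4] at h2
    have h3 : ∀ᶠ y in Gn D d z, Φ.fn (f / g) d y = Φ.fn f d y / Φ.fn g d y := by
      by_cases h0 : s' = 0
      · have hg : g = 0 := by rw [q4, h0, e0, zero_div]
        filter_upwards [b 0 r0] with y y1
        rw [e0] at y1
        rw [hg, div_zero, y1]
        exact (div_zero _).symm
      · have h4 := a _ _ (m _ _ p1 q2) (m _ _ p2 q1) (mne _ _ p2 q1 p3 h0)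
        rw [Φ.mul _ _ p1 q2, Φ.mul _ _ p2 q1, ← div_div_div_eq, ← p4, ← q4] at h4
        exact h4.mono fun y y1 => y1.trans (div_div_div_eq _ _ _ _).symm
    filter_upwards [h1, h2, h3, gn_ne p2 p3 d z, gn_ne q2 q3 d z] with y y1 y2 y3 y4 y5
    exact ⟨y1.trans (div_add_div _ _ y4 y5).symm, y2.trans (div_mul_div_comm _ _ _ _).symm, y3⟩
  have k : ∀ c : ℂ, ∀ᶠ y in Gn D d z, Φ.fn (algebraMap ℂ F c) d y = c := fun c => by
    filter_upwards [b _ (rs c _ r1), gn_ne r1 k7 d z] with y y1 y2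
    rw [Φ.smul _ _ r1, e1, ← Algebra.algebraMap_eq_smul_one] at y1
    exact y1.trans ((congrArg (c * ·) (un_one y2)).trans (mul_one c))
  obtain ⟨g1, g2, -⟩ := k13 d z hz
  refine ⟨a, b, c, k, fun f => ?_, fun κ _ x Q => ?_, fun f => ?_⟩
  · obtain ⟨p1, p2, p3, p4⟩ := sp f
    have h1 : ∀ᶠ y in Gn D d z, f ≠ 0 → D.rd (Φ.frac f).choose.1 d y ≠ 0 := by
      by_cases h0 : f = 0
      · exact .of_forall fun _ h => absurd h0 h
      · exact (gn_ne p1 (fun h => h0 (by rw [p4, h, e0, zero_div])) d z).mono fun _ h _ => h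
    filter_upwards [g2, gn_ne p2 p3 d z, h1] with y y1 y2 y3
    have u1 := (k11 _ p1 d y y1.1).2 y1.2
    have u2 := (k11 _ p2 d y y1.1).2 y1.2
    refine ⟨?_, fun h => div_ne_zero (y3 h) y2⟩
    filter_upwards [u1, u2, u2.self_of_nhds.continuousAt.eventually_ne y2] with w w1 w2 w3
    exact (w1.mul (w2.inv w3)).congr_of_eventuallyEq (.of_forall fun _ => div_eq_mul_inv _ _)
  · induction Q using MvPolynomial.induction_on with
    | C c => simpa using k c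
    | add P Q h1 h2 =>
      filter_upwards [h1, h2, c (MvPolynomial.aeval x P) (MvPolynomial.aeval x Q)] with y y1 y2 y3
      rw [map_add, map_add, y3.1, y1, y2]
    | mul_X P i h1 =>
      filter_upwards [h1, c (MvPolynomial.aeval x P) (x i)] with y y1 y3
      rw [map_mul, map_mul, MvPolynomial.aeval_X, MvPolynomial.eval_X, y3.2.1, y1]
  · obtain ⟨⟨P, p1⟩, ⟨Q, p2⟩, p3, -⟩ := sp f
    have s1 := k15 _ _ (k1 _ (P ⊔ Q) _ le_sup_left p1) d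
    have s2 := k15 _ _ (k1 _ (P ⊔ Q) _ le_sup_right p2) d
    have h : ∀ᶠ y in Gn D d z, val (D.c d) (P ⊔ Q) (D.rd (Φ.frac f).choose.2 d) y ≠ 0 ∧
        Φ.fn f d y * val (D.c d) (P ⊔ Q) (D.rd (Φ.frac f).choose.2 d) y =
          val (D.c d) (P ⊔ Q) (D.rd (Φ.frac f).choose.1 d) y := by
      filter_upwards [g2, gn_ne ⟨Q, p2⟩ p3 d z] with y y1 y2
      rw [(s2 y y1.1).2 y1.2] at y2
      refine ⟨right_ne_zero_of_mul y2, ?_⟩
      rw [FM.fn, (s1 y y1.1).2 y1.2, (s2 y y1.1).2 y1.2,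
        mul_div_mul_left _ _ (left_ne_zero_of_mul y2), div_mul_cancel₀ _ (right_ne_zero_of_mul y2)]
    exact ⟨_, _, (s1 z hz).1, (s2 z hz).1,
      (h.mono fun _ h => h.1).frequently.filter_mono inf_le_left, h⟩

end Pool.Agent.Lib.NV5
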