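import Pool.Agent.Lib.NV5.Blue

/-! Project NV5, row FS: along a component of the divisor one of the sections has a pole. -/

open scoped Classical Topology ContDiff
open Set Complex Metric Filter

noncomputable section

namespace Pool.Agent.Lib.NV5

open Pool.Agent.Lib.SV (E nsq)
open Pool.Agent.Lib.HS32 Pool.Agent.Lib.EX Pool.Agent.Lib.EXS Pool.Agent.Lib.ZL Pool.Agent.Lib.NV2

namespace FSb

theorem dxi {n : ℕ} {ι : Type} (c : ι → Option (Fin n)) (i : ι) (z : E n) :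
    DifferentiableAt ℂ (xi c i) z := by
  unfold xi
  cases c i with
  | none => exact differentiableAt_const _
  | some j => exact differentiableAt_apply j z

theorem dprod {n : ℕ} {ι : Type} (c : ι → Option (Fin n)) (k : ι → ℕ) (T : Finset ι) (z : E n) :
    DifferentiableAt ℂ (fun y => ∏ i ∈ T, xi c i y ^ k i) z := by
  induction T using Finset.induction_on with
  | empty => simp
  | insert i T hi ih =>
    simp only [Finset.prod_insert hi]
    exact ((dxi c i z).pow _).mul ih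

theorem xm_pos {n : ℕ} {ι : Type} [Fintype ι] (c : ι → Option (Fin n)) (P : ι → ℤ)
    (hP : ∀ i, 0 < P i) (y : E n) : xm c P y = ∏ i, xi c i y ^ (P i).toNat := by
  unfold xm
  refine Finset.prod_congr rfl fun i _ => ?_
  rw [← zpow_natCast, Int.toNat_of_nonneg (hP i).le]

theorem xm_neg {n : ℕ} {ι : Type} [Fintype ι] (c : ι → Option (Fin n)) (P : ι → ℤ) (y : E n)
    (hy : Off c y) : xm c P y * xm c (-P) y = 1 := by
  unfold xm
  rw [← Finset.prod_mul_distrib]
  refine Finset.prod_eq_one fun i _ => ?_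
  rw [Pi.neg_apply, zpow_neg, mul_inv_cancel₀ (zpow_ne_zero _ (hy i))]

end FSb

theorem bFS (hKIT : Sb_KIT) (hFN : Sb_FN) : Sb_FS := by
  intro n M _ ι _ _ D F _ _ Φ r P t hP hK hI h v m hV hm
  obtain ⟨-, -, -, -, -, -, -, -, -, -, -, -, hG, -, hval⟩ := hKIT n M ι D
  obtain ⟨-, hG2, -, -, hG5⟩ := hG h.d h.z h.mem
  obtain ⟨a, ha⟩ : ∃ a, vv D P t h.d h.z a ≠ 0 := by
    by_contra hc
    have h0 : vv D P t h.d h.z = 0 := funext fun a => not_not.1 fun h1 => hc ⟨a, h1⟩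
    exact one_ne_zero (hI h.d h.z h.mem 1 0 (by rw [h0, map_zero, smul_zero, add_zero])).1
  obtain ⟨i₀, hi₀⟩ : ∃ i, m i = 1 := by
    by_contra hc
    exact hm (funext fun i => ((hV.mul i).1).resolve_right fun h1 => hc ⟨i, h1⟩)
  refine ⟨a, lt_of_not_ge fun hle => ?_⟩
  obtain ⟨a', b, ha', hb, hab⟩ := (hV.reg 0 (Φ.ev (t a))).1 (by simpa using hle)
  obtain ⟨a₀, -, ha₀⟩ := (hV.mul i₀).2
  have hs := (hval P (t a) (hK.1 a) h.d h.z h.mem).1
  have hfn := ((hFN n M ι D F Φ).2.2.2 h.d h.z h.mem).2.1 (t a) ⟨P, hK.1 a⟩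
  have key : (fun y => val (D.c h.d) P (D.rd (t a) h.d) y * b y) =ᶠ[𝓝 h.z]
      fun y => (∏ i, xi (D.c h.d) i y ^ (P i).toNat) * a' y := by
    refine hG5 _ _ ?_ ?_ ?_
    · filter_upwards [hs, hb.1] with y h1 h2 using h1.mul h2
    · filter_upwards [ha'] with y h1
      exact (FSb.dprod _ _ _ y).mul h1
    · filter_upwards [hab, hfn, hG2] with y h1 h2 h3
      rw [h2, (hval P (t a) (hK.1 a) h.d y h3.1).2 h3.2] at h1
      have h4 : xm (D.c h.d) 0 y = 1 := by simp [xm]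
      rw [h4, mul_one] at h1
      rw [← FSb.xm_pos _ P hP, ← h1, ← mul_assoc, ← mul_assoc, FSb.xm_neg _ P y h3.2, one_mul]
  have hne : ∀ᶠ y in 𝓝 h.z, val (D.c h.d) P (D.rd (t a) h.d) y ≠ 0 :=
    hs.self_of_nhds.continuousAt.eventually_ne ha
  obtain ⟨y, ⟨hu, hb0⟩, h1, h2, h3⟩ := (hb.2.and_eventually (key.and (hne.and ha₀))).exists
  have h4 : xi (D.c h.d) i₀ y = 0 := by rw [h3, hi₀, hu, zpow_one, zero_mul]
  have h5 : ∏ i, xi (D.c h.d) i y ^ (P i).toNat = 0 :=
    Finset.prod_eq_zero (Finset.mem_univ i₀) (by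
      rw [h4]
      exact zero_pow (by have := hP i₀; omega))
  exact mul_ne_zero h2 hb0 (h1.trans (mul_eq_zero_of_left h5 _))

end Pool.Agent.Lib.NV5
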