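import Pool.Agent.Lib.NV5.Blue
import Pool.Agent.Lib.LJ84.B_PAR

/-! Project NV5, row HT: the test along hypersurfaces. -/

open scoped Classical Topology
open Set Complex Metric Filter

noncomputable section

namespace Pool.Agent.Lib.NV5

open Pool.Agent.Lib.SV (E)
open Pool.Agent.Lib.HS32

namespace HTb

variable {n : ℕ}

/-- If the ideal of `Z` is stable under derivatives, it is zero near the points of `Z`. -/
theorem jet {O Z : Set (E n)} (hO : IsOpen O) {y : E n} (hy : y ∈ O) (hZ : y ∈ Z)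
    (h : ∀ f : E n → ℂ, DifferentiableOn ℂ f O → (∀ x ∈ Z, f x = 0) → ∀ x ∈ Z, fderiv ℂ f x = 0)
    {f : E n → ℂ} (hf : DifferentiableOn ℂ f O) (h0 : ∀ x ∈ Z, f x = 0) : f =ᶠ[𝓝 y] 0 := by
  have key : ∀ (v : E n) (k : ℕ) (f : E n → ℂ), DifferentiableOn ℂ f O → (∀ x ∈ Z, f x = 0) →
      iteratedDeriv k (fun t : ℂ => f (y + t • v)) 0 = 0 := fun v k => by
    induction k with
    | zero =>
      intro f _ h0
      rw [iteratedDeriv_zero, zero_smul, add_zero, h0 y hZ]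
    | succ k ih =>
      intro f hf h0
      have hL : Continuous fun t : ℂ => y + t • v := by fun_prop
      have h1 : ∀ᶠ t : ℂ in 𝓝 0, y + t • v ∈ O :=
        hL.continuousAt.eventually (hO.mem_nhds (by simpa only [zero_smul, add_zero] using hy))
      have h2 : deriv (fun t : ℂ => f (y + t • v)) =ᶠ[𝓝 0] fun t => fderiv ℂ f (y + t • v) v :=
        h1.mono fun t ht => by
          have h3 := (hf.differentiableAt (hO.mem_nhds ht)).hasFDerivAt.comp_hasDerivAt t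
            (((hasDerivAt_id t).smul_const v).const_add y)
          rw [one_smul] at h3
          exact h3.deriv
      rw [iteratedDeriv_succ', h2.iteratedDeriv_eq]
      exact ih _ (SV.H85.differentiableOn_fderiv_apply hO hf v) fun x hx => by
        rw [h f hf h0 x hx]
        rfl
  obtain ⟨R, hR, hb⟩ := Metric.mem_nhds_iff.1 (hO.mem_nhds hy)
  filter_upwards [ball_mem_nhds y (half_pos hR)] with x hx
  have h1 : DifferentiableOn ℂ (fun t : ℂ => f (y + t • (x - y))) (ball 0 2) := by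
    refine hf.comp (f := fun t : ℂ => y + t • (x - y)) (by fun_prop) fun t ht => hb ?_
    rw [mem_ball_iff_norm, add_sub_cancel_left, norm_smul]
    have a1 := mem_ball_zero_iff.1 ht
    have a2 := mem_ball_iff_norm.1 hx
    nlinarith [norm_nonneg t, norm_nonneg (x - y)]
  have h2 := taylorSeries_eq_on_ball h1 (z := 1) (by simp)
  simp only [key (x - y) _ f hf h0, smul_zero, tsum_zero, one_smul, add_sub_cancel] at h2
  exact h2.symm

/-- The quotient is holomorphic at `x`. -/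
def Gd (p q : E n → ℂ) (x : E n) : Prop := ∃ g, HolN g x ∧ ∀ᶠ w in 𝓝 x, p w = g w * q w

variable {p q : E n → ℂ}

theorem gd_open : IsOpen {x | Gd p q x} :=
  isOpen_iff_mem_nhds.2 fun _ ⟨g, h1, h2⟩ =>
    (h1.eventually_nhds.and h2.eventually_nhds).mono fun _ h => ⟨g, h.1, h.2⟩

theorem gd_div {a b : E n → ℂ} {x : E n} (ha : HolN a x) (hb : HolN b x) (h0 : b x ≠ 0)
    (h : ∀ᶠ w in 𝓝 x, p w * b w = a w * q w) : Gd p q x := by
  have h1 : ∀ᶠ w in 𝓝 x, b w ≠ 0 := hb.self_of_nhds.continuousAt.eventually_ne h0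
  refine ⟨fun w => a w * (b w)⁻¹, ?_, ?_⟩
  · filter_upwards [ha, hb, h1] with w a1 a2 a3 using a1.mul (a2.inv a3)
  · filter_upwards [h, h1] with w a1 a2
    rw [mul_right_comm, ← a1, mul_inv_cancel_right₀ a2]

theorem glue {O : Set (E n)} (hO : IsOpen O) (hq : ∀ x ∈ O, ∃ᶠ w in 𝓝 x, q w ≠ 0) :
    ∃ G : E n → ℂ, ∀ x ∈ O, Gd p q x → HolN G x ∧ ∀ᶠ w in 𝓝 x, p w = G w * q w := by
  refine ⟨fun x => if h : Gd p q x then h.choose x else 0, fun x hx ⟨g, h1, h2⟩ => ?_⟩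
  have h3 : (fun x => if h : Gd p q x then h.choose x else 0) =ᶠ[𝓝 x] g := by
    filter_upwards [h1.eventually_nhds, h2.eventually_nhds, hO.mem_nhds hx] with w a1 a2 a3
    have a4 : Gd p q w := ⟨g, a1, a2⟩
    rw [dif_pos a4]
    refine tendsto_nhds_unique_of_frequently_eq a4.choose_spec.1.self_of_nhds.continuousAt
      a1.self_of_nhds.continuousAt
      (((hq w a3).and_eventually (a2.and a4.choose_spec.2)).mono fun s b => ?_)
    exact mul_right_cancel₀ b.1 (b.2.2.symm.trans b.2.1)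
  refine ⟨?_, ?_⟩
  · filter_upwards [h1, h3.eventually_nhds] with w a1 a2 using a1.congr_of_eventuallyEq a2
  · filter_upwards [h2, h3] with w a1 a2
    rw [a2, a1]

theorem inj {u : E n → ℂ} {y v : E n} (hu : HolN u y) (hv : fderiv ℂ u y v ≠ 0) :
    ∃ s ∈ 𝓝 y, ∀ x ∈ s, ∀ ζ : ℂ, x + ζ • v ∈ s → u (x + ζ • v) = u x → ζ = 0 := by
  have h1 : HasStrictFDerivAt u (fderiv ℂ u y) y :=
    (SV.H85.contDiffAt_nat hu 1).hasStrictFDerivAt (by simp)
  have hc : 0 < ‖fderiv ℂ u y v‖ := norm_pos_iff.2 hv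
  have hκ : 0 < ‖fderiv ℂ u y v‖ / (‖v‖ + 1) := by positivity
  obtain ⟨s, hs, h2⟩ := h1.approximates_deriv_on_nhds (c := ⟨_, hκ.le⟩) (Or.inr hκ)
  refine ⟨s, hs, fun x hx ζ hζ e => ?_⟩
  have h3 : ‖u (x + ζ • v) - u x - fderiv ℂ u y (x + ζ • v - x)‖ ≤
      ‖fderiv ℂ u y v‖ / (‖v‖ + 1) * ‖x + ζ • v - x‖ := h2 _ hζ _ hx
  rw [e, sub_self, zero_sub, norm_neg, add_sub_cancel_left, map_smul, norm_smul, norm_smul,
    div_mul_eq_mul_div, le_div_iff₀ (by positivity)] at h3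
  by_contra h4
  have h5 := mul_pos (norm_pos_iff.2 h4) hc
  nlinarith

end HTb

open HTb in
theorem bHT : Sb_HT := by
  intro n p q z hp hq hq0 hh
  obtain ⟨R, hR, hb⟩ := Metric.mem_nhds_iff.1 (hp.and (hq.and hh))
  have hO : IsOpen (ball z R) := isOpen_ball
  have hpO : ∀ x ∈ ball z R, HolN p x := fun x hx =>
    Filter.mem_of_superset (hO.mem_nhds hx) fun w hw => (hb hw).1
  have hqO : ∀ x ∈ ball z R, HolN q x := fun x hx =>
    Filter.mem_of_superset (hO.mem_nhds hx) fun w hw => (hb hw).2.1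
  have hqd : DifferentiableOn ℂ q (ball z R) := fun x hx => (hb hx).2.1.differentiableWithinAt
  have hq1 : ∀ x ∈ ball z R, ¬ q =ᶠ[𝓝 x] 0 := fun x hx h =>
    hq0 (Filter.mem_of_superset (ball_mem_nhds z hR) fun w hw => not_not.2
      (SV.H85.eq_zero_of_convex hO (convex_ball z R) hqd hx h hw))
  obtain ⟨G, hG⟩ := glue (p := p) hO fun x hx h => hq1 x hx (h.mono fun _ => not_not.1)
  by_contra hz
  obtain ⟨u, hu, hu0, y, ⟨hy, hy'⟩, hd⟩ : ∃ u : E n → ℂ, DifferentiableOn ℂ u (ball z R) ∧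
      (∀ x ∈ {x ∈ ball z R | ¬ Gd p q x}, u x = 0) ∧
      ∃ y ∈ {x ∈ ball z R | ¬ Gd p q x}, fderiv ℂ u y ≠ 0 := by
    by_contra hn
    refine hq1 z (mem_ball_self hR) (jet (Z := {x ∈ ball z R | ¬ Gd p q x}) hO (mem_ball_self hR)
      ⟨mem_ball_self hR, hz⟩ (fun f a1 a2 x hx => by_contra fun a3 => hn ⟨f, a1, a2, x, hx, a3⟩)
      hqd fun x hx => by_contra fun a1 => hx.2 ?_)
    exact gd_div (hpO x hx.1) (hqO x hx.1) a1 (Eventually.of_forall fun _ => rfl)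
  have huy : HolN u y := Filter.mem_of_superset (hO.mem_nhds hy) fun w hw =>
    hu.differentiableAt (hO.mem_nhds hw)
  obtain ⟨a, b, ha, hbn, hab⟩ := (hb hy).2.2 u ⟨huy, hu0 y ⟨hy, hy'⟩, hd⟩
  obtain ⟨v, hv⟩ : ∃ v, fderiv ℂ u y v ≠ 0 := by
    by_contra hn
    exact hd (ContinuousLinearMap.ext fun v => by_contra fun h => hn ⟨v, h⟩)
  obtain ⟨s, hs, hinj⟩ := inj huy hv
  have hW : IsOpen (ball z R ∩ {x | Gd p q x}) := hO.inter gd_open
  have hc : Continuous fun t : E n × ℂ => t.1 + t.2 • v := by fun_prop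
  have h1 : ∀ᶠ t : E n × ℂ in 𝓝 (y, 0), t.1 + t.2 • v ∈ s ∩ ball z R :=
    hc.continuousAt.preimage_mem_nhds (by
      simpa only [zero_smul, add_zero] using inter_mem hs (hO.mem_nhds hy))
  rw [nhds_prod_eq] at h1
  obtain ⟨N, hN, T, hT, h1⟩ := eventually_prod_iff.1 h1
  obtain ⟨r, hr, hT⟩ := nhds_basis_closedBall.mem_iff.1 hT
  have h2 : ∀ x, N x → u x = 0 → ∀ ζ ∈ closedBall (0 : ℂ) r, ζ ≠ 0 →
      x + ζ • v ∈ ball z R ∩ {x | Gd p q x} := fun x hx h0 ζ hζ hne => by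
    have a1 := h1 hx (hT hζ)
    have a2 := (h1 hx (hT (mem_closedBall_self hr.le))).1
    rw [zero_smul, add_zero] at a2
    exact ⟨a1.2, by_contra fun a3 => hne (hinj x a2 ζ a1.1 ((hu0 _ ⟨a1.2, a3⟩).trans h0.symm))⟩
  have h3 : ∀ᶠ x in 𝓝 y, ∀ ζ ∈ sphere (0 : ℂ) r, x + ζ • v ∈ ball z R ∩ {x | Gd p q x} :=
    (isCompact_sphere 0 r).eventually_forall_of_forall_eventually fun ζ hζ =>
      hc.continuousAt.eventually (hW.mem_nhds (h2 y hN.self_of_nhds (hu0 y ⟨hy, hy'⟩) ζ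
        (sphere_subset_closedBall hζ) (ne_of_mem_sphere hζ hr.ne')))
  obtain ⟨U, hU1, hU, hyU⟩ := _root_.eventually_nhds_iff.1 h3
  have hGd : ∀ x ∈ ball z R ∩ {x | Gd p q x}, DifferentiableAt ℂ G x := fun x hx =>
    (hG x hx.1 hx.2).1.self_of_nhds
  have h4 := LJ84.bPAR (E n) (fun t => (t.1 - 0)⁻¹ • G (t.2 + t.1 • v))
    ({t | t.1 ≠ 0} ∩ (fun t => t.2 + t.1 • v) ⁻¹' (ball z R ∩ {x | Gd p q x})) U 0 r
    ((isOpen_ne.preimage continuous_fst).inter (hW.preimage (by fun_prop))) hU hr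
    (fun t ht => ⟨ne_of_mem_sphere ht.1 hr.ne', hU1 _ ht.2 _ ht.1⟩) fun t ht =>
      (((differentiableAt_fst.sub_const (0 : ℂ)).inv (sub_ne_zero.2 ht.1)).smul
        ((hGd _ ht.2).comp (f := fun t : ℂ × E n => t.2 + t.1 • v) t
          (by fun_prop))).differentiableWithinAt
  obtain ⟨J, hJ⟩ : ∃ J : E n → ℂ, J = fun x => ∮ w in C(0, r), (w - 0)⁻¹ • G (x + w • v) :=
    ⟨_, rfl⟩
  have h5 : HolN (fun x => (2 * Real.pi * I)⁻¹ * J x) y :=
    Filter.mem_of_superset (hU.mem_nhds hyU) fun w hw => by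
      rw [hJ]
      exact (h4.differentiableAt (hU.mem_nhds hw)).const_mul _
  refine hy' ⟨_, h5, ?_⟩
  have h6 : (fun x => p x - (2 * Real.pi * I)⁻¹ * J x * q x) =ᶠ[𝓝 y] 0 := by
    refine SV.H85.eventually_zero_of_frequently ?_ ?_
    · filter_upwards [hpO y hy, hqO y hy, h5] with w a1 a2 a3 using a1.sub (a3.mul a2)
    refine (hbn.2.and_eventually (hN.and (ha.eventually_nhds.and (hbn.1.eventually_nhds.and
      (hab.eventually_nhds.and (hO.mem_nhds hy)))))).mono ?_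
    rintro x ⟨⟨a1, a2⟩, a3, a4, a5, a6, a7⟩
    have a8 : Gd p q x := gd_div a4 a5 a2 a6
    have a9 : ∀ᶠ w in 𝓝 x, ∀ ζ ∈ closedBall (0 : ℂ) r, w + ζ • v ∈ ball z R ∩ {x | Gd p q x} :=
      (isCompact_closedBall 0 r).eventually_forall_of_forall_eventually fun ζ hζ =>
        hc.continuousAt.eventually (hW.mem_nhds (by
          show x + ζ • v ∈ _
          by_cases h0 : ζ = 0
          · rw [h0, zero_smul, add_zero]
            exact ⟨a7, a8⟩
          · exact h2 x a3 a1 ζ hζ h0))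
    filter_upwards [a9, (hG x a7 a8).2] with w b1 b2
    have b3 : DifferentiableOn ℂ (fun ζ : ℂ => G (w + ζ • v)) (closedBall 0 r) := fun ζ hζ =>
      ((hGd _ (b1 ζ hζ)).comp (f := fun ζ : ℂ => w + ζ • v) ζ (by fun_prop)).differentiableWithinAt
    have b4 : J w = (2 * Real.pi * I) • G (w + (0 : ℂ) • v) := by
      rw [hJ]
      exact b3.circleIntegral_sub_inv_smul (mem_ball_self hr)
    rw [b4, zero_smul, add_zero, smul_eq_mul, inv_mul_cancel_left₀ two_pi_I_ne_zero, b2, sub_self,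
      Pi.zero_apply]
  exact h6.mono fun w hw => sub_eq_zero.1 hw

end Pool.Agent.Lib.NV5
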