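import Pool.Agent.Lib.NV5.Blue
import Pool.Agent.Lib.ZL.B_PW

/-! Row IND0: polynomials in independent functions. -/

open scoped Classical Topology ContDiff
open Set Complex Metric Filter

noncomputable section

namespace Pool.Agent.Lib.NV5

open Pool.Agent.Lib.SV (E)
open Pool.Agent.Lib.HS32

namespace IND0b

/-- A non-zero polynomial is non-zero at points near any point. -/
theorem poly_freq {m : ℕ} (w : E m) {Q : MvPolynomial (Fin m) ℂ} (hQ : Q ≠ 0) :
    ∃ᶠ y in 𝓝 w, MvPolynomial.eval y Q ≠ 0 := by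
  intro h
  obtain ⟨ε, hε, hb⟩ := Metric.eventually_nhds_iff_ball.1 h
  refine hQ (MvPolynomial.funext_set (fun i => ball (w i) ε)
    (fun i => infinite_of_mem_nhds (w i) (ball_mem_nhds _ hε)) fun x hx => ?_)
  have h1 := hb x (by rw [ball_pi _ hε]; exact hx)
  simpa using h1

variable {n : ℕ} {z : E n}

theorem cd_vec {m : ℕ} {x : E n → E m} (h : HolN x z) : ContDiffAt ℝ ∞ x z :=
  contDiffAt_pi.2 fun i => ZL.PW.cd_hol (h.mono fun _ hw => differentiableAt_pi.1 hw i)

/-- The open mapping theorem. -/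
theorem map_eq {G : Type} [NormedAddCommGroup G] [NormedSpace ℂ G] [NormedSpace ℝ G]
    [IsScalarTower ℝ ℂ G] [CompleteSpace G] {f : E n → G} {A : E n →L[ℂ] G}
    (hc : ContDiffAt ℝ ∞ f z) (hf : HasFDerivAt f A z) (hA : Function.Surjective A) :
    map f (𝓝 z) = 𝓝 (f z) := by
  have h1 := hc.hasStrictFDerivAt' (hf.restrictScalars ℝ) (by simp)
  exact h1.map_nhds_eq_of_surj (LinearMap.range_eq_top.2 hA)

/-- The choice of independent rows. -/
theorem rows {r : ℕ} (A : E n →L[ℂ] (Fin r → ℂ)) (hA : ∀ v, A v = 0 → v = 0) (i₀ : Fin r) :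
    ∀ (k : ℕ) (W : Submodule ℂ (E n)), Module.finrank ℂ W ≤ k →
      ∃ I : Fin k → Fin r, ∀ v ∈ W, (∀ j, A v (I j) = 0) → v = 0 := by
  intro k
  induction k with
  | zero =>
    intro W hW
    refine ⟨Fin.elim0, fun v hv _ => ?_⟩
    rwa [Submodule.finrank_eq_zero.1 (Nat.le_zero.1 hW), Submodule.mem_bot] at hv
  | succ k ih =>
    intro W hW
    by_cases h0 : ∀ v ∈ W, v = 0
    · exact ⟨fun _ => i₀, fun v hv _ => h0 v hv⟩
    push Not at h0
    obtain ⟨v, hv, hv0⟩ := h0
    obtain ⟨j, hj⟩ := Function.ne_iff.1 fun h => hv0 (hA v h)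
    have hlt : W ⊓ LinearMap.ker ((LinearMap.proj j).comp A.toLinearMap) < W :=
      lt_of_le_of_ne inf_le_left fun h => hj (by
        have h2 := (h.ge hv).2
        simpa using h2)
    obtain ⟨I, hI⟩ := ih _ (Nat.lt_succ_iff.1 ((Submodule.finrank_lt_finrank_of_lt hlt).trans_le hW))
    refine ⟨Fin.cons j I, fun u hu h => hI u ⟨hu, ?_⟩ fun l => h l.succ⟩
    simpa using h 0

theorem dim_ker {u : E n →L[ℂ] ℂ} (hu : u ≠ 0) :
    Module.finrank ℂ (LinearMap.ker u.toLinearMap) + 1 = n := by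
  have h := Module.Dual.finrank_ker_add_one_of_ne_zero (f := u.toLinearMap)
    (fun h => hu (ContinuousLinearMap.coe_injective h))
  simpa using h

theorem sel {r k : ℕ} {R : E n → Fin r → ℂ} (hR : DifferentiableAt ℂ R z) (I : Fin k → Fin r)
    (v : E n) (j : Fin k) : fderiv ℂ (fun y j => R y (I j)) z v j = fderiv ℂ R z v (I j) := by
  have h := (ContinuousLinearMap.pi fun j : Fin k =>
    (ContinuousLinearMap.proj (I j) : (Fin r → ℂ) →L[ℂ] ℂ)).hasFDerivAt.comp z hR.hasFDerivAt
  have h2 : HasFDerivAt (fun y j => R y (I j)) _ z := h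
  rw [h2.fderiv]
  rfl

end IND0b

open IND0b in
theorem bIND0 : Sb_IND0 := by
  intro n z
  refine ⟨fun x hx hi Q hQ => ?_, fun u x hu hx hi Q hQ => ⟨?_, ?_⟩, fun r T hT hi => ?_⟩
  · have hs : Function.Surjective (fderiv ℂ x z) :=
      (LinearMap.injective_iff_surjective (f := (fderiv ℂ x z).toLinearMap)).1 hi
    have h := poly_freq (x z) hQ
    rw [← map_eq (cd_vec hx) hx.self_of_nhds.hasFDerivAt hs] at h
    exact h
  · exact hx.mono fun w hw => ((AnalyticOnNhd.eval_mvPolynomial Q (x w)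
      (mem_univ _)).differentiableAt).comp w hw
  · have hd := dim_ker hu.2.2
    have hf := hu.1.self_of_nhds.hasFDerivAt.prodMk hx.self_of_nhds.hasFDerivAt
    have hs : Function.Surjective ((fderiv ℂ u z).prod (fderiv ℂ x z)) := by
      refine (LinearMap.injective_iff_surjective_of_finrank_eq_finrank
        (f := ((fderiv ℂ u z).prod (fderiv ℂ x z)).toLinearMap) ?_).1
        ((injective_iff_map_eq_zero _).2 fun v hv => ?_)
      · simp only [Module.finrank_prod, Module.finrank_self, Module.finrank_fin_fun]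
        omega
      · exact hi v (congrArg Prod.fst hv) (congrArg Prod.snd hv)
    have h : ∃ᶠ w in 𝓝 (u z, x z), w.1 = 0 ∧ MvPolynomial.eval w.2 Q ≠ 0 := by
      rw [hu.2.1]
      exact ((Continuous.prodMk_right (0 : ℂ)).tendsto (x z)).frequently
        ((poly_freq (x z) hQ).mono fun y hy => ⟨rfl, hy⟩)
    rw [← map_eq ((ZL.PW.cd_hol hu.1).prodMk (cd_vec hx)) hf hs] at h
    exact h
  · have h0 : T z ≠ 0 := fun h => one_ne_zero (hi 1 0 (by simp [h])).1
    obtain ⟨i₀, hi₀⟩ := Function.ne_iff.1 h0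
    have hi₀ : T z i₀ ≠ 0 := hi₀
    have hz := hT.self_of_nhds
    have hj : ∀ j, HasFDerivAt (fun y => T y j)
        ((ContinuousLinearMap.proj j).comp (fderiv ℂ T z)) z := fun j =>
      (ContinuousLinearMap.proj j : (Fin r → ℂ) →L[ℂ] ℂ).hasFDerivAt.comp z hz.hasFDerivAt
    have hR : DifferentiableAt ℂ (fun y j => T y j / T y i₀) z :=
      differentiableAt_pi.2 fun j => by
        simp only [div_eq_mul_inv]
        exact (hj j).differentiableAt.mul ((hj i₀).differentiableAt.inv hi₀)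
    have hA : ∀ v, fderiv ℂ (fun y j => T y j / T y i₀) z v = 0 → v = 0 := by
      intro v hv
      have he : T =ᶠ[𝓝 z] fun y => T y i₀ • fun j => T y j / T y i₀ := by
        filter_upwards [(hj i₀).continuousAt.eventually_ne hi₀] with y hy
        funext j
        simp only [Pi.smul_apply, smul_eq_mul]
        field_simp
      have h1 := ((hj i₀).smul hR.hasFDerivAt).congr_of_eventuallyEq he
      refine (hi (-(fderiv ℂ T z v i₀ / T z i₀)) v ?_).2
      have h2 : fderiv ℂ T z v = fderiv ℂ T z v i₀ • fun j => T z j / T z i₀ := by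
        have h3 := congrArg (fun B : E n →L[ℂ] (Fin r → ℂ) => B v) h1.fderiv
        simpa [hv] using h3
      funext j
      have h4 := congrFun h2 j
      simp only [Pi.smul_apply, smul_eq_mul] at h4
      simp only [Pi.add_apply, Pi.smul_apply, smul_eq_mul, Pi.zero_apply]
      rw [h4]
      field_simp
      ring
    refine ⟨i₀, hi₀, ?_, fun u hu => ?_⟩
    · obtain ⟨I, hI⟩ := rows _ hA i₀ n ⊤ (by simp)
      refine ⟨I, (injective_iff_map_eq_zero _).2 fun v hv => hI v trivial fun j => ?_⟩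
      rw [← sel hR I v j]
      exact congrFun hv j
    · obtain ⟨I, hI⟩ := rows _ hA i₀ (n - 1) (LinearMap.ker (fderiv ℂ u z).toLinearMap)
        (by have := dim_ker hu.2.2; omega)
      refine ⟨I, fun v h1 hv => hI v h1 fun j => ?_⟩
      rw [← sel hR I v j]
      exact congrFun hv j

end Pool.Agent.Lib.NV5
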