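import Pool.Agent.Lib.NV5.Blue
import Pool.Agent.Lib.SV.B_ZER

/-! Project NV5, row KIT: the ring of meromorphic functions and the generic filter. -/

open scoped Classical Topology
open Set Complex Metric Filter

set_option linter.unusedSectionVars false

noncomputable section

namespace Pool.Agent.Lib.NV5

open Pool.Agent.Lib.SV (E)
open Pool.Agent.Lib.HS32 Pool.Agent.Lib.EX Pool.Agent.Lib.EXS Pool.Agent.Lib.ZL
open Pool.Agent.Lib.EXS.GLU Pool.Agent.Lib.EX.MON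

namespace KITb

variable {n : ℕ} {M : Mf n} {ι : Type} [Fintype ι] [DecidableEq ι] {D : Ad M ι} {d : D.A}
  {z : E n} {P Q : ι → ℤ} {s t : M.X → ℂ} {c : ι → Option (Fin n)} {g σ : E n → ℂ}

/-- The identity theorem for germs. -/
theorem idt (hg : HolN g z) (h : ∃ᶠ y in 𝓝 z, ∀ᶠ x in 𝓝 y, g x = 0) : ∀ᶠ y in 𝓝 z, g y = 0 := by
  obtain ⟨r, hr, hb⟩ := Metric.eventually_nhds_iff_ball.1 hg
  obtain ⟨y, h0, hy⟩ := (h.and_eventually (ball_mem_nhds z hr)).exists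
  filter_upwards [ball_mem_nhds z hr] with w hw
    using SV.ZER.ident (fun x hx => (hb x hx).differentiableWithinAt) hw hy h0

theorem offI (hz : z ∈ B2 n) : (D.e d).symm z ∈ off D ↔ Off (D.c d) z := by
  rw [GLU.mem_off (mem_src d hz), rinv d hz]

theorem evB (hz : z ∈ B2 n) : ∀ᶠ y in 𝓝 z, y ∈ B2 n := isOpen_ball.eventually_mem hz

theorem xm0 (c : ι → Option (Fin n)) (z : E n) : xm c (-0) z = 1 := by simp [xm]

theorem val_eq (hs : ContinuousAt σ z)
    (e : ∀ᶠ y in 𝓝 z, Off c y → g y = xm c (-Q) y * σ y) : val c Q g z = σ z := by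
  have : (𝓝[{y | Off c y}] z).NeBot := mem_closure_iff_nhdsWithin_neBot.1 (off_dense c z)
  refine Tendsto.limUnder_eq ((hs.tendsto.mono_left nhdsWithin_le_nhds).congr' ?_)
  filter_upwards [self_mem_nhdsWithin, nhdsWithin_le_nhds e] with y ho hy
  rw [hy ho, MON.xm_neg, ← mul_assoc, mul_inv_cancel₀ (MON.xm_ne Q ho), one_mul]

theorem mono (h : P ≤ Q) (hs : Sp D P s) : Sp D Q s := by
  refine ⟨fun d z hz => ?_, hs.2⟩
  obtain ⟨σ, h1, h2⟩ := hs.1 d z hz
  refine ⟨fun y => xm (D.c d) (Q - P) y * σ y, h1.mono fun y hy =>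
    (diff_xm fun i => Or.inr (sub_nonneg.2 (h i))).mul hy, h2.mono fun y hy ho => ?_⟩
  rw [hy ho, ← mul_assoc, ← MON.xm_add _ _ ho, show -Q + (Q - P) = -P by abel]

theorem add (hs : Sp D P s) (ht : Sp D P t) : Sp D P (s + t) := by
  refine ⟨fun d z hz => ?_, fun x hx => by rw [Pi.add_apply, hs.2 x hx, ht.2 x hx, add_zero]⟩
  obtain ⟨σ, h1, h2⟩ := hs.1 d z hz
  obtain ⟨τ, h3, h4⟩ := ht.1 d z hz
  refine ⟨σ + τ, (h1.and h3).mono fun y hy => hy.1.add hy.2, (h2.and h4).mono fun y hy ho => ?_⟩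
  rw [Pi.add_apply, mul_add, ← hy.1 ho, ← hy.2 ho]
  rfl

theorem mul (hs : Sp D P s) (ht : Sp D Q t) : Sp D (P + Q) (s * t) := by
  refine ⟨fun d z hz => ?_, fun x hx => by rw [Pi.mul_apply, hs.2 x hx, zero_mul]⟩
  obtain ⟨σ, h1, h2⟩ := hs.1 d z hz
  obtain ⟨τ, h3, h4⟩ := ht.1 d z hz
  refine ⟨σ * τ, (h1.and h3).mono fun y hy => hy.1.mul hy.2, (h2.and h4).mono fun y hy ho => ?_⟩
  rw [Pi.mul_apply, neg_add, MON.xm_add _ _ ho, mul_mul_mul_comm, ← hy.1 ho, ← hy.2 ho]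
  rfl

theorem smul (a : ℂ) (hs : Sp D P s) : Sp D P (a • s) := by
  refine ⟨fun d z hz => ?_, fun x hx => by rw [Pi.smul_apply, hs.2 x hx, smul_zero]⟩
  obtain ⟨σ, h1, h2⟩ := hs.1 d z hz
  refine ⟨a • σ, h1.mono fun y hy => hy.const_smul a, h2.mono fun y hy ho => ?_⟩
  rw [Pi.smul_apply, smul_eq_mul, mul_left_comm, ← hy ho]
  rfl

theorem zero (P : ι → ℤ) : Sp D P 0 :=
  ⟨fun _ _ _ => ⟨0, Eventually.of_forall fun _ => differentiableAt_const 0,
    Eventually.of_forall fun _ _ => (mul_zero _).symm⟩, fun _ _ => rfl⟩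

theorem rd_un (hz : z ∈ B2 n) (ho : Off (D.c d) z) : D.rd (un D) d z = 1 :=
  indicator_of_mem ((offI hz).2 ho) _

theorem one (D : Ad M ι) : Sp D 0 (un D) :=
  ⟨fun d z hz => ⟨1, Eventually.of_forall fun _ => differentiableAt_const 1,
    (evB hz).mono fun y hy ho => by rw [rd_un hy ho, xm0, Pi.one_apply, one_mul]⟩,
    fun x hx => indicator_of_notMem hx _⟩

theorem un_ne [M.Cpt] (D : Ad M ι) : un D ≠ 0 := fun h => by
  obtain ⟨x⟩ : Nonempty M.X := inferInstance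
  have := neBot D x
  obtain ⟨y, hy⟩ := (eventually_mem_nhdsWithin (a := x) (s := off D)).exists
  have e := congrFun h y
  rw [un, indicator_of_mem hy] at e
  exact one_ne_zero e

theorem un_mul (hs : Rg D s) : un D * s = s := by
  obtain ⟨P, hs⟩ := hs
  funext x
  by_cases hx : x ∈ off D
  · rw [Pi.mul_apply, un, indicator_of_mem hx, Pi.one_apply, one_mul]
  · rw [Pi.mul_apply, hs.2 x hx, mul_zero]

theorem radd (hs : Rg D s) (ht : Rg D t) : Rg D (s + t) := by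
  obtain ⟨P, hs⟩ := hs
  obtain ⟨Q, ht⟩ := ht
  exact ⟨P ⊔ Q, add (mono le_sup_left hs) (mono le_sup_right ht)⟩

theorem rmul (hs : Rg D s) (ht : Rg D t) : Rg D (s * t) := by
  obtain ⟨P, hs⟩ := hs
  obtain ⟨Q, ht⟩ := ht
  exact ⟨P + Q, mul hs ht⟩

theorem off_of_ne (hs : Rg D s) (hz : z ∈ B2 n) (h : D.rd s d z ≠ 0) : Off (D.c d) z := by
  obtain ⟨P, hs⟩ := hs
  by_contra ho
  exact h (hs.2 _ fun k => ho ((offI hz).1 k))

theorem hol (hs : Rg D s) (hz : z ∈ B2 n) (ho : Off (D.c d) z) : HolN (D.rd s d) z := by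
  obtain ⟨P, hs⟩ := hs
  obtain ⟨σ, h1, h2⟩ := hs.1 d z hz
  filter_upwards [h1, h2.eventually_nhds, (MON.off_ev ho).eventually_nhds] with y a b e
  exact ((diff_xm (G := -P) fun i => Or.inl (e.self_of_nhds i)).mul a).congr_of_eventuallyEq
    ((b.and e).mono fun x hx => hx.1 hx.2)

theorem ev_ne (hs : Rg D s) (hz : z ∈ B2 n) (h : D.rd s d z ≠ 0) : ∀ᶠ y in 𝓝 z, D.rd s d y ≠ 0 :=
  (hol hs hz (off_of_ne hs hz h)).self_of_nhds.continuousAt.eventually_ne h

/-- The identity theorem for meromorphic germs. -/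
theorem idm (hs : Rg D s) (hz : z ∈ B2 n) (h : ∃ᶠ y in 𝓝 z, ∀ᶠ x in 𝓝 y, D.rd s d x = 0) :
    ∀ᶠ y in 𝓝 z, D.rd s d y = 0 := by
  obtain ⟨σ, h1, h2⟩ := hs.choose_spec.1 d z hz
  have h3 : ∀ᶠ y in 𝓝 z, σ y = 0 := by
    refine idt h1 ((h.and_eventually (h1.eventually_nhds.and h2.eventually_nhds)).mono
      fun y ⟨a, b, e⟩ => ?_)
    filter_upwards [a.eventually_nhds, b, e.eventually_nhds] with x a b e
    refine tendsto_nhds_unique_of_frequently_eq b.continuousAt tendsto_const_nhds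
      (((off_freq (D.c d) x).and_eventually (a.and e)).mono fun w ⟨ho, p, q⟩ => ?_)
    exact (mul_eq_zero.1 ((q ho).symm.trans p)).resolve_left (MON.xm_ne _ ho)
  filter_upwards [h2, h3, evB hz] with y a b e
  by_contra k
  exact k (by rw [a (off_of_ne hs e k), b, mul_zero])

variable [M.Cpt]

/-- The identity theorem on the manifold. -/
theorem freq (hs : Rg D s) (h0 : s ≠ 0) (d : D.A) (hz : z ∈ B2 n) :
    ∃ᶠ y in 𝓝 z, D.rd s d y ≠ 0 := by
  have hc : IsClopen {x | ∀ᶠ y in 𝓝 x, s y = 0} := by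
    refine ⟨isClosed_of_closure_subset fun x hx => ?_, isOpen_setOf_eventually_nhds⟩
    obtain ⟨b, hb⟩ := ex_ch D x
    refine ((D.e b).eventually_nhds' (fun y => s y = 0) hb).1 (idm hs (mem_B2 hb) ?_)
    refine ((D.e b).continuousAt hb).tendsto.frequently
      (((mem_closure_iff_frequently.1 hx).and_eventually
        ((D.e b).open_source.eventually_mem hb)).mono fun y hy => ?_)
    exact ((D.e b).eventually_nhds' (fun y => s y = 0) hy.2).2 hy.1
  intro h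
  have hx : ∀ᶠ y in 𝓝 ((D.e d).symm z), s y = 0 := by
    refine ((D.e d).eventually_nhds' (fun y => s y = 0) (mem_src d hz)).1 ?_
    rw [rinv d hz]
    exact h.mono fun y hy => not_not.1 hy
  have hu := hc.eq_univ ⟨_, hx⟩
  exact h0 (funext fun x => (show ∀ᶠ y in 𝓝 x, s y = 0 from
    (hu.symm ▸ mem_univ x : x ∈ {x | ∀ᶠ y in 𝓝 x, s y = 0})).self_of_nhds)

theorem mul_ne (hs : Rg D s) (ht : Rg D t) (h0 : s ≠ 0) (h1 : t ≠ 0) : s * t ≠ 0 := fun h => by
  obtain ⟨x⟩ : Nonempty M.X := inferInstance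
  obtain ⟨d, hd⟩ := ex_ch D x
  obtain ⟨y, a, hy⟩ := ((freq hs h0 d (mem_B2 hd)).and_eventually (evB (mem_B2 hd))).exists
  obtain ⟨w, b, e⟩ := ((freq ht h1 d hy).and_eventually (ev_ne hs hy a)).exists
  exact mul_ne_zero e b (congrFun h ((D.e d).symm w))

theorem gn (p : E n → Prop) : (∀ᶠ y in Gn D d z, p y) ↔
    ∃ t, Rg D t ∧ t ≠ 0 ∧ ∀ᶠ y in 𝓝 z, D.rd t d y ≠ 0 → p y := by
  have : Nonempty {t // Rg D t ∧ t ≠ 0} := ⟨⟨un D, ⟨0, one D⟩, un_ne D⟩⟩
  rw [Gn, inf_iInf, Filter.Eventually, mem_iInf_of_directed]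
  · exact ⟨fun ⟨t, h⟩ => ⟨t.1, t.2.1, t.2.2, eventually_inf_principal.1 h⟩,
      fun ⟨t, a, b, h⟩ => ⟨⟨t, a, b⟩, eventually_inf_principal.2 h⟩⟩
  · exact fun s t => ⟨⟨s.1 * t.1, rmul s.2.1 t.2.1, mul_ne s.2.1 t.2.1 s.2.2 t.2.2⟩,
      inf_le_inf_left _ (principal_mono.2 fun y hy => left_ne_zero_of_mul hy),
      inf_le_inf_left _ (principal_mono.2 fun y hy => right_ne_zero_of_mul hy)⟩

theorem gn_ne (d : D.A) (hz : z ∈ B2 n) : (Gn D d z).NeBot := by
  refine ⟨fun h => ?_⟩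
  obtain ⟨t, a, b, e⟩ := (gn (D := D) (d := d) (z := z) fun _ => False).1 (h ▸ eventually_bot)
  exact freq a b d hz e

theorem gn_ev (hz : z ∈ B2 n) {p : E n → Prop} (h : ∀ᶠ y in Gn D d z, p y) :
    (∀ᶠ y in Gn D d z, ∀ᶠ x in 𝓝 y, p x) ∧ ∀ᶠ y in 𝓝 z, ∀ᶠ x in Gn D d y, p x := by
  obtain ⟨t, a, b, e⟩ := (gn p).1 h
  refine ⟨(gn _).2 ⟨t, a, b, ?_⟩, e.eventually_nhds.mono fun y hy => (gn p).2 ⟨t, a, b, hy⟩⟩
  filter_upwards [e.eventually_nhds, evB hz] with y k hy h0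
  filter_upwards [k, ev_ne a hy h0] with x u v using u v

theorem gn_zero (hz : z ∈ B2 n) (hg : HolN g z) (h : ∀ᶠ y in Gn D d z, g y = 0) :
    ∀ᶠ y in 𝓝 z, g y = 0 :=
  have := gn_ne d hz
  idt hg ((gn_ev hz h).1.frequently.filter_mono inf_le_left)

/-- The maximum principle. -/
theorem const (hs : Sp D 0 s) : ∃ a : ℂ, s = a • un D := by
  have hF : D.All fun d z => HolN (D.rd (glu D s) d) z ∧
      ∀ᶠ y in 𝓝 z, Off (D.c d) y → D.rd s d y = D.rd (glu D s) d y := fun d z hz => by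
    obtain ⟨σ, h1, h2⟩ := hs.1 d z hz
    have h3 : ∀ᶠ y in 𝓝 z, Off (D.c d) y → D.rd s d y = σ y :=
      h2.mono fun y hy ho => by rw [hy ho, xm0, one_mul]
    have h4 := bGLU n M ι D ℂ s d σ z hz (h1.mono fun y hy => hy.continuousAt) h3
    refine ⟨?_, (h3.and h4).mono fun y hy ho => (hy.1 ho).trans hy.2.symm⟩
    filter_upwards [h1, h4.eventually_nhds] with y a b using a.congr_of_eventuallyEq b
  have hc : Continuous (glu D s) := continuous_iff_continuousAt.2 fun x => by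
    obtain ⟨d, hd⟩ := ex_ch D x
    exact cont_rd hd (hF d _ (mem_B2 hd)).1.self_of_nhds.continuousAt
  obtain ⟨x, -, hx⟩ := isCompact_univ.exists_isMaxOn univ_nonempty hc.norm.continuousOn
  obtain ⟨d, hd⟩ := ex_ch D x
  have h5 := Complex.eventually_eq_of_isLocalMax_norm (hF d _ (mem_B2 hd)).1
    (Eventually.of_forall fun y => by
      rw [Function.comp_apply, Function.comp_apply, rd_e _ hd]
      exact hx (mem_univ ((D.e d).symm y)))
  rw [rd_e _ hd] at h5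
  refine ⟨glu D s x, ?_⟩
  by_contra h0
  have hr : Rg D (s + (-glu D s x) • un D) := ⟨0, add hs (smul _ (one D))⟩
  refine freq hr (fun k => h0 (by rwa [neg_smul, add_neg_eq_zero] at k)) d (mem_B2 hd) ?_
  filter_upwards [h5, (hF d _ (mem_B2 hd)).2, evB (mem_B2 hd)] with y a b e k
  have ho := off_of_ne hr e k
  refine k (show D.rd s d y + -glu D s x * D.rd (un D) d y = 0 from ?_)
  rw [b ho, a, rd_un e ho, mul_one, add_neg_cancel]

end KITb

open KITb in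
theorem bKIT : Sb_KIT := by
  intro n M _ ι _ _ D
  refine ⟨fun P Q s h => mono h, fun P s t => add, fun P Q s t => mul, fun P a s => smul a, zero,
    one D, un_ne D, fun s => un_mul, fun s t a b => ⟨radd a b, rmul a b, fun h => ?_⟩,
    fun s a b d z hz => freq a b d hz, fun s a d z hz => ⟨off_of_ne a hz, hol a hz⟩,
    fun d z _ => gn, fun d z hz => ⟨gn_ne d hz, (gn _).2 ⟨un D, ⟨0, one D⟩, un_ne D,
      (evB hz).mono fun y hy h => ⟨hy, off_of_ne ⟨0, one D⟩ hy h⟩⟩, fun p => gn_ev hz,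
      fun g hg h k => h ((gn_zero hz hg (k.mono fun y => not_not.1)).mono fun y e f => f e),
      fun f g hf hg h => (gn_zero (g := f - g) hz ((hf.and hg).mono fun y e => e.1.sub e.2)
        (h.mono fun y => sub_eq_zero.2)).mono fun y => sub_eq_zero.1⟩,
    fun s => const, fun P s hs d z hz => ?_⟩
  · by_contra! k
    exact mul_ne a b k.1 k.2 h
  · obtain ⟨σ, h1, h2⟩ := hs.1 d z hz
    have h3 : val (D.c d) P (D.rd s d) =ᶠ[𝓝 z] σ := by
      filter_upwards [h1, h2.eventually_nhds] with y a b using val_eq a.continuousAt b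
    refine ⟨?_, fun ho => by rw [h3.self_of_nhds, h2.self_of_nhds ho]⟩
    filter_upwards [h1, h3.eventually_nhds] with y a b using a.congr_of_eventuallyEq b

end Pool.Agent.Lib.NV5
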