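import Pool.Agent.Lib.NV5.Blue
import Pool.Agent.Lib.EX.K68A
import Pool.Agent.Lib.SV.Hol85

/-! Project NV5: division by the equation of a smooth hypersurface. -/

open scoped Classical Topology
open Set Complex Metric Filter

set_option linter.unusedVariables false

noncomputable section

namespace Pool.Agent.Lib.NV5

open Pool.Agent.Lib.SV (E)
open Pool.Agent.Lib.SV Pool.Agent.Lib.HS32 Pool.Agent.Lib.EX

namespace ORDb

variable {n : ℕ} {u : E n → ℂ} {z : E n}

/-- Coordinates in which `u` is a coordinate. -/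
theorem chart (h : Hy u z) : ∃ (j : Fin n) (Φ Ψ : E n → E n), HolN Φ z ∧ HolN Ψ (Φ z) ∧
    (∀ᶠ y in 𝓝 z, Ψ (Φ y) = y) ∧ (∀ᶠ w in 𝓝 (Φ z), Φ (Ψ w) = w) ∧ ∀ y, Φ y j = u y := by
  obtain ⟨hu, -, hd⟩ := h
  obtain ⟨j, hj⟩ : ∃ j, fderiv ℂ u z (Pi.single j 1) ≠ 0 := by
    by_contra hc
    push Not at hc
    refine hd (ContinuousLinearMap.ext fun v => ?_)
    rw [pi_eq_sum_univ' v, map_sum]
    simp [hc]
  set Φ : E n → E n := fun y i => if i = j then u y else y i with hΦ
  have h1 : HolN Φ z := hu.mono fun y hy => differentiableAt_pi.mpr fun i => by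
    by_cases e : i = j
    · simpa [hΦ, e] using hy
    · simpa [hΦ, e] using differentiableAt_apply (𝕜 := ℂ) i y
  set A : E n →L[ℂ] E n := ContinuousLinearMap.pi fun i =>
    if i = j then fderiv ℂ u z else ContinuousLinearMap.proj i with hA
  have h2 : HasFDerivAt Φ A z := hasFDerivAt_pi.mpr fun i => by
    by_cases e : i = j
    · simpa [hΦ, e] using hu.self_of_nhds.hasFDerivAt
    · simpa [hΦ, e] using hasFDerivAt_apply (𝕜 := ℂ) i z
  have h3 : Function.Injective A := (injective_iff_map_eq_zero A).mpr fun v hv => by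
    have a1 : ∀ i, i ≠ j → v i = 0 := fun i e => by simpa [hA, e] using congrFun hv i
    have a2 : v = v j • (Pi.single j 1 : E n) := funext fun i => by
      by_cases e : i = j
      · simp [e]
      · simp [e, a1 i e]
    have a3 : fderiv ℂ u z v = 0 := by simpa [hA] using congrFun hv j
    rw [a2, map_smul, smul_eq_mul, mul_eq_zero] at a3
    rw [a2, a3.resolve_right hj, zero_smul]
  let B : E n ≃L[ℂ] E n :=
    (LinearEquiv.ofInjectiveEndo (A : E n →ₗ[ℂ] E n) h3).toContinuousLinearEquiv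
  have h4 : HasFDerivAt Φ (B : E n →L[ℂ] E n) z := h2
  have h5 : ContDiffAt ℂ (1 : ℕ) Φ z := H85.contDiffAt_nat h1 1
  have h6 : ((1 : ℕ) : WithTop ℕ∞) ≠ 0 := by norm_num
  refine ⟨j, Φ, h5.localInverse h4 h6, h1, ?_, (h5.hasStrictFDerivAt' h4 h6).eventually_left_inverse,
    (h5.hasStrictFDerivAt' h4 h6).eventually_right_inverse, fun y => if_pos rfl⟩
  exact ((h5.to_localInverse h4 h6).eventually (by norm_num)).mono fun w hw =>
    hw.differentiableAt h6

theorem tend {F : Type} [NormedAddCommGroup F] [NormedSpace ℂ F] {f : E n → F} (h : HolN f z) :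
    Tendsto f (𝓝 z) (𝓝 (f z)) := h.self_of_nhds.continuousAt

theorem comp {F : Type} [NormedAddCommGroup F] [NormedSpace ℂ F] {f : E n → F} {Φ : E n → E n}
    {w : E n} (hf : HolN f w) (hΦ : HolN Φ z) (e : Φ z = w) : HolN (fun y => f (Φ y)) z := by
  subst e
  filter_upwards [(tend hΦ).eventually hf, hΦ] with y h1 h2 using h1.comp y h2

/-- Division. -/
theorem div (h : Hy u z) {g : E n → ℂ} (hg : HolN g z) (h0 : ∀ᶠ y in 𝓝 z, u y = 0 → g y = 0) :
    ∃ a, HolN a z ∧ ∀ᶠ y in 𝓝 z, g y = u y * a y := by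
  obtain ⟨j, Φ, Ψ, h1, h2, h3, h4, h5⟩ := chart h
  have e := h3.self_of_nhds
  have t : Tendsto Ψ (𝓝 (Φ z)) (𝓝 z) := by simpa only [e] using tend h2
  obtain ⟨a, a1, a2⟩ := K68.div_prod_germ (I := {j}) (comp hg h2 e) (by
    filter_upwards [t.eventually h0, h4] with w b1 b2 i hi b3
    exact b1 (by rw [← h5, b2, ← Finset.mem_singleton.mp hi, b3]))
  refine ⟨fun y => a (Φ y), comp a1 h1 rfl, ?_⟩
  filter_upwards [(tend h1).eventually a2, h3] with y b1 b2
  rwa [b2, Finset.prod_singleton, h5] at b1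

/-- The identity theorem on the hypersurface. -/
theorem idn (h : Hy u z) {a : E n → ℂ} (ha : HolN a z)
    (h0 : ∃ᶠ y in 𝓝 z, u y = 0 ∧ ∀ᶠ y' in 𝓝 y, u y' = 0 → a y' = 0) :
    ∀ᶠ y in 𝓝 z, u y = 0 → a y = 0 := by
  obtain ⟨j, Φ, Ψ, h1, h2, h3, h4, h5⟩ := chart h
  have pz : ∀ y, u y = 0 → K68.pz {j} (Φ y) = Φ y := fun y hy =>
    K68.pz_single_self (by rw [h5, hy])
  have hp : ∀ w : E n, HolN (K68.pz {j} : E n → E n) w := fun w =>
    Eventually.of_forall (K68.diff_pz _)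
  have b1 : HolN (fun w => a (Ψ (K68.pz {j} w))) (Φ z) :=
    comp (f := fun w => a (Ψ w)) (comp ha h2 h3.self_of_nhds) (hp _) (pz z h.2.1)
  have b2 := H85.eventually_zero_of_frequently b1 ((tend h1).frequently (by
    refine (h0.and_eventually (h3.and ((tend h1).eventually
      (h2.and h4).eventually_nhds))).mono fun y hy => ?_
    obtain ⟨⟨c1, c2⟩, c3, c4⟩ := hy
    have t1 : Tendsto (K68.pz {j}) (𝓝 (Φ y)) (𝓝 (Φ y)) := by simpa only [pz y c1] using tend (hp (Φ y))
    have t2 : Tendsto Ψ (𝓝 (Φ y)) (𝓝 y) := by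
      simpa only [c3] using c4.self_of_nhds.1.continuousAt.tendsto
    filter_upwards [t1.eventually (t2.eventually c2), t1.eventually c4] with w d1 d2
    exact d1 (by rw [← h5, d2.2]; exact K68.pz_mem (Finset.mem_singleton_self j))))
  filter_upwards [(tend h1).eventually b2, h3] with y c1 c2 c3
  rwa [pz y c3, c2] at c1

theorem fd_ne (h : Hy u z) : ∀ᶠ y in 𝓝 z, fderiv ℂ u y ≠ 0 :=
  ((H85.contDiffAt_nat h.1 1).continuousAt_fderiv (by norm_num)).eventually_ne h.2.2

theorem dense (h : Hy u z) : ∀ᶠ y in 𝓝 z, ∃ᶠ y' in 𝓝 y, u y' ≠ 0 :=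
  (fd_ne h).mono fun y hy hc => hy (by
    have : u =ᶠ[𝓝 y] fun _ => 0 := hc.mono fun _ h => not_not.mp h
    rw [this.fderiv_eq, fderiv_fun_const]; rfl)

theorem van {a : E n → ℂ} (ha : HolN a z) (h : ¬ Nd u z a) : ∀ᶠ y in 𝓝 z, u y = 0 → a y = 0 :=
  (not_frequently.mp fun h' => h ⟨ha, h'⟩).mono fun y hy h0 => by_contra fun h1 => hy ⟨h0, h1⟩

theorem near (h : Hy u z) {a : E n → ℂ} (ha : Nd u z a) :
    ∀ᶠ y in 𝓝 z, u y = 0 → Hy u y ∧ Nd u y a := by
  have h1 : ∀ᶠ y in 𝓝 z, u y = 0 → Nd u y a := by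
    by_contra hc
    have := idn h ha.1 (((not_eventually.mp hc).and_eventually ha.1.eventually_nhds).mono
      fun y hy => ⟨(Classical.not_imp.mp hy.1).1, van hy.2 (Classical.not_imp.mp hy.1).2⟩)
    obtain ⟨y, h2, h3⟩ := (ha.2.and_eventually this).exists
    exact h2.2 (h3 h2.1)
  filter_upwards [h1, h.1.eventually_nhds, fd_ne h] with y b1 b2 b3 b4
  exact ⟨⟨b2, b4, b3⟩, b1 b4⟩

/-- A function that is divisible by every power of `u` vanishes. -/
theorem flat (h : Hy u z) {g : E n → ℂ} (hg : HolN g z)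
    (h0 : ∀ k : ℕ, ∃ a, HolN a z ∧ ∀ᶠ y in 𝓝 z, g y = u y ^ k * a y) : ∀ᶠ y in 𝓝 z, g y = 0 := by
  obtain ⟨R, hR, hb⟩ := Metric.mem_nhds_iff.1 hg
  filter_upwards [ball_mem_nhds z (half_pos hR)] with y hy
  set L : ℂ → E n := fun t => z + t • (y - z) with hL
  have L0 : L 0 = z := by simp [hL]
  have Ld : Differentiable ℂ L := by fun_prop
  have t : Tendsto L (𝓝 0) (𝓝 z) := L0 ▸ Ld.continuous.tendsto 0
  have an : ∀ f : E n → ℂ, HolN f z → AnalyticAt ℂ (f ∘ L) 0 := fun f hf =>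
    analyticAt_iff_eventually_differentiableAt.mpr
      ((t.eventually hf).mono fun s hs => hs.comp s (Ld s))
  have h1 : analyticOrderAt (g ∘ L) 0 = ⊤ := ENat.eq_top_iff_forall_ge.mpr fun k => by
    obtain ⟨a, a1, a2⟩ := h0 k
    have e : (g ∘ L) =ᶠ[𝓝 0] (u ∘ L) ^ k * (a ∘ L) := t.eventually a2
    rw [analyticOrderAt_congr e, analyticOrderAt_mul ((an u h.1).pow k) (an a a1),
      analyticOrderAt_pow (an u h.1)]
    have o : 1 ≤ analyticOrderAt (u ∘ L) 0 := Order.one_le_iff_ne_zero.mpr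
      ((an u h.1).analyticOrderAt_ne_zero.mpr (by simp [L0, h.2.1]))
    refine le_add_right ?_
    simpa using nsmul_le_nsmul_right o k
  have h2 := H85.eq_zero_of_convex (f := g ∘ L) isOpen_ball (convex_ball (0 : ℂ) 2)
    (fun s hs => DifferentiableAt.differentiableWithinAt ((hb (show L s ∈ ball z R by
      rw [mem_ball_iff_norm] at hy ⊢
      rw [mem_ball_zero_iff] at hs
      simp only [hL, add_sub_cancel_left, norm_smul]
      nlinarith [norm_nonneg s, norm_nonneg (y - z)])).comp s (Ld s)))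
    (mem_ball_self two_pos) (analyticOrderAt_eq_top.mp h1) (z := 1) (by simp)
  simpa [hL] using h2

end ORDb

open ORDb in
theorem bORD : Sb_ORD := by
  intro n u z h
  refine ⟨fun g hg h0 => ?_, fun g hg h0 => div h hg (van hg h0), fun a b ha hb => ⟨?_, ?_⟩,
    fun a ha h0 => ⟨ha, (frequently_pure.mpr ⟨h.2.1, h0⟩).filter_mono (pure_le_nhds z)⟩,
    fun a ha => near h ha, dense h, fun k k' a a' ha ha' e => ?_⟩
  · by_contra hc
    refine h0 ((flat h hg fun k => ?_).mono fun y hy => not_not.mpr hy)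
    induction k with
    | zero => exact ⟨g, hg, Eventually.of_forall fun y => by simp⟩
    | succ k ih =>
      obtain ⟨a, a1, a2⟩ := ih
      obtain ⟨b, b1, b2⟩ := div h a1 (van a1 fun h' => hc ⟨k, a, h', a2⟩)
      exact ⟨b, b1, (a2.and b2).mono fun y hy => by rw [hy.1, hy.2]; ring⟩
  · exact (ha.1.and hb.1).mono fun y hy => hy.1.mul hy.2
  · refine frequently_frequently_nhds.mp
      ((ha.2.and_eventually (ha.1.and (near h hb))).mono fun y hy => ?_)
    exact ((hy.2.2 hy.1.1).2.2.and_eventually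
      (hy.2.1.continuousAt.eventually_ne hy.1.2)).mono fun w hw =>
        ⟨hw.1.1, mul_ne_zero hw.2 hw.1.2⟩
  · by_contra hc
    obtain ⟨m, hm⟩ : ∃ m : ℕ, k' = k + (m + 1 : ℕ) := ⟨(k' - k - 1).toNat, by omega⟩
    have h1 : ∀ᶠ y in 𝓝 z, u y = 0 → a y = 0 := by
      filter_upwards [e.eventually_nhds, dense h, ha.1, ha', h.1] with y b1 b2 b3 b4 b5 b6
      have := tendsto_nhds_unique_of_frequently_eq b3.continuousAt.tendsto
        ((b5.continuousAt.pow (m + 1)).mul b4.continuousAt).tendsto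
        ((b2.and_eventually b1).mono fun w hw => by
          have c := hw.2 hw.1
          rw [hm, zpow_add₀ hw.1, zpow_natCast, mul_assoc] at c
          exact mul_left_cancel₀ (zpow_ne_zero _ hw.1) c)
      simpa [b6] using this
    obtain ⟨y, h2, h3⟩ := (ha.2.and_eventually h1).exists
    exact h2.2 (h3 h2.1)

end Pool.Agent.Lib.NV5
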