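import Pool.Agent.Lib.NV5.Blue
import Pool.Agent.Lib.EX.K1O
import Pool.Agent.Lib.EX.B_ADA
import Pool.Agent.Lib.EX.B_UNI

/-! Project NV5: a section of the canonical divisor gives a pluricanonical form. -/

open scoped Classical Topology ContDiff Manifold
open Set Complex Metric Filter

set_option linter.unusedVariables false
set_option linter.unusedSectionVars false

noncomputable section

namespace Pool.Agent.Lib.NV5

open Pool.Agent.Lib.SV (E Pluri)
open Pool.Agent.Lib.KP (HolAt)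
open Pool.Agent.Lib.HS32 Pool.Agent.Lib.EX Pool.Agent.Lib.NV2 Pool.Agent.Lib.EX.K1
open Pool.Agent.Lib.HS.BBR (mf)

namespace PLUb

variable {n m : ℕ} {Y I : Type} [TopologicalSpace Y] [ChartedSpace (E n) Y]
  [IsManifold 𝓘(ℂ, E n) ω Y] [Fintype I] {S : I → Set Y} {l : I → ℤ} {η s φ : Y → ℂ}
  {e : OpenPartialHomeomorph Y (E n)} {c : I → Option (Fin n)} {g : E n → ℂ} {x : Y}

theorem loc (y : Y) (hη : Ord n 1 S l η y) (hs : PolAt n S (fun i => m * l i) s y) :
    ∃ (e : OpenPartialHomeomorph Y (E n)) (c : I → Option (Fin n)) (g : E n → ℂ),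
      e ∈ (mf n Y).C ∧ y ∈ e.source ∧ (∀ x ∈ e.source, (∀ i, x ∉ S i) ↔ Off c (e x)) ∧
      HolN g (e y) ∧ ∀ᶠ w in 𝓝 (e y), Off c w →
        s (e.symm w) * η (e.symm w) ^ m * jd e (e.symm w) ^ m = g w := by
  obtain ⟨h, s₀, hh, h0⟩ := hs
  obtain ⟨a1, a2⟩ := eqs_chart (ch_mf y) (mem_chart_source _ y) hh
  obtain ⟨e, c, ok, hy, -⟩ : ∃ (e : OpenPartialHomeomorph Y (E n)) (c : I → Option (Fin n)),
      ADA.Ok (M := mf n Y) S e c ∧ y ∈ e.source ∧ e y = 0 ∧ e.source ⊆ univ :=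
    ADA.loc (M := mf n Y) univ_mem (ch_mf y) (mem_chart_source _ y) a1 a2
  have he : e ∈ (mf n Y).C := ok.mem
  have fit : ∀ x ∈ e.source, ∀ i, x ∈ S i ↔ xi c i (e x) = 0 := ok.fit
  have hz := e.map_source hy
  have e0 := e.left_inv hy
  have hF : ∀ᶠ w in 𝓝 (e y), ∀ i, e.symm w ∈ S i ↔ xi c i w = 0 :=
    (e.open_target.eventually_mem hz).mono fun w hw i => by
      rw [fit _ (e.map_target hw), e.right_inv hw]
  rw [← e0] at hη hh h0
  obtain ⟨a, b1, -, b2⟩ := ord_chart bUNI he hz hF hη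
  obtain ⟨u, u1, u2⟩ := eqs_unit bUNI he hz hF hh
  refine ⟨e, c, fun w => s₀ (e.symm w) * (∏ i, u i w ^ (-(m * l i))) * a w ^ m, he, hy,
    fun x hx => forall_congr' fun i => (fit x hx i).not, ?_, ?_⟩
  · filter_upwards [holN_0 he hz (h0.mono fun x hx => hx.1), (holN_prod u1 _).1, b1] with w p q r
      using (p.mul q).mul (r.pow m)
  · filter_upwards [b2, u2, ev_sym hz h0, hF] with w p q r t ho
    have k : (∏ i, xi c i w ^ (-(m * l i))) * xm c l w ^ m = 1 := by
      rw [xm, ← Finset.prod_pow, ← Finset.prod_mul_distrib]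
      refine Finset.prod_eq_one fun i _ => ?_
      rw [← zpow_natCast, ← zpow_mul, ← zpow_add₀ (ho i), mul_comm, neg_add_cancel, zpow_zero]
    rw [pow_one, smul_eq_mul] at p
    rw [mul_assoc, ← mul_pow, p, r.2.2 fun i hi => ho i ((t i).1 hi)]
    simp only [q, mul_zpow, Finset.prod_mul_distrib, mul_pow]
    linear_combination s₀ (e.symm w) * (∏ i, u i w ^ (-(m * l i))) * a w ^ m * k

variable (n m S) in
/-- The extension across the divisor. -/
def ex (φ : Y → ℂ) (x : Y) : ℂ :=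
  limUnder (𝓝[{y | ∀ i, y ∉ S i}] x) fun y => φ y * jd (chartAt (E n) x) y ^ m

theorem ex_eq (he : e ∈ (mf n Y).C) (hx : x ∈ e.source)
    (hO : ∀ x ∈ e.source, (∀ i, x ∉ S i) ↔ Off c (e x)) (hg : ContinuousAt g (e x))
    (h : ∀ᶠ w in 𝓝 (e x), Off c w → φ (e.symm w) * jd e (e.symm w) ^ m = g w) :
    ex n m S φ x * jd e x ^ m = g (e x) := by
  have h0 := mem_chart_source (E n) x
  have nb : (𝓝[{y | ∀ i, y ∉ S i}] x).NeBot := by
    rw [← mem_closure_iff_nhdsWithin_neBot, mem_closure_iff_frequently]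
    refine (e.tendsto_symm hx).frequently (((MON.off_freq c (e x)).and_eventually
      (e.open_target.eventually_mem (e.map_source hx))).mono fun w hw => ?_)
    exact (hO _ (e.map_target hw.2)).2 ((e.right_inv hw.2).symm ▸ hw.1)
  have t1 : HolN (chartAt (E n) x ∘ e.symm) (e x) :=
    ((mTR n (mf n Y)).2.1 _ (ch_mf x) e he x h0 hx).1
  have t2 := ((mCHN n _ _ t1).2.2.2.2.1.self_of_nhds.continuousAt.pow m)
  have j0 : jd e x ^ m ≠ 0 := pow_ne_zero _ (jd_ne he hx)
  refine (eq_div_iff j0).1 (Tendsto.limUnder_eq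
    ((((hg.div t2 j0).tendsto.comp (e.continuousAt hx)).mono_left nhdsWithin_le_nhds).congr' ?_))
  filter_upwards [nhdsWithin_le_nhds (ev_chart hx h),
    nhdsWithin_le_nhds ((chartAt (E n) x).open_source.mem_nhds h0), self_mem_nhdsWithin]
    with y a b o
  have k := a.2 ((hO y a.1).1 o)
  have j1 := jd_ne he a.1
  rw [e.left_inv a.1] at k
  rw [jd_mul (ch_mf x) he b a.1] at k j1
  refine (div_eq_iff (pow_ne_zero m (right_ne_zero_of_mul j1))).2 ?_
  rw [← k]
  ring

end PLUb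

open PLUb in
theorem bPLU : Sb_PLU := by
  intro n Y I _ _ _ _ S l η s m hη hs s0
  refine ⟨ex n m S fun x => s x * η x ^ m, fun y => ?_, fun h => s0 (funext fun y => ?_)⟩
  · obtain ⟨e, c, g, he, hy, hO, hg, h⟩ := loc y (hη y) (hs.2 y)
    refine (hol_iff he hy).2 (hg.self_of_nhds.congr_of_eventuallyEq ?_)
    filter_upwards [hg, h.eventually_nhds, e.open_target.eventually_mem (e.map_source hy)]
      with w p q r
    rw [← e.right_inv r] at p q
    exact (ex_eq he (e.map_target r) hO p.continuousAt q).trans (congrArg g (e.right_inv r))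
  · by_contra hy0
    have o : ∀ i, y ∉ S i := fun i hi => hy0 (hs.1 i y hi)
    obtain ⟨e, c, g, he, hy, hO, hg, k⟩ := loc y (hη y) (hs.2 y)
    have k1 := ex_eq (φ := fun x => s x * η x ^ m) he hy hO hg.self_of_nhds.continuousAt k
    have k2 := k.self_of_nhds ((hO y hy).1 o)
    rw [h, ← k2, e.left_inv hy, Pi.zero_apply, zero_mul] at k1
    obtain ⟨f, w, f1, f2⟩ := hη y
    refine mul_ne_zero (mul_ne_zero hy0 (pow_ne_zero m ?_)) (pow_ne_zero m (jd_ne he hy)) k1.symm
    rw [f2.self_of_nhds.2.2]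
    exact mul_ne_zero f2.self_of_nhds.2.1 (Finset.prod_ne_zero_iff.2 fun i _ =>
      zpow_ne_zero _ fun h => o i ((f1.1.self_of_nhds i).2.2 h))

end Pool.Agent.Lib.NV5
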