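import Pool.Agent.Lib.NV5.Blue

/-! Project NV5, row RES: the projective coordinates. -/

open scoped Classical Topology
open Set Complex Metric Filter

set_option linter.unusedSectionVars false

noncomputable section

namespace Pool.Agent.Lib.NV5

open Pool.Agent.Lib.SV (E)
open Pool.Agent.Lib.HS32 Pool.Agent.Lib.EX Pool.Agent.Lib.EXS Pool.Agent.Lib.ZL Pool.Agent.Lib.NV2

namespace RESb

variable {n : ℕ}

theorem hol_eval {κ : Type} [Fintype κ] {x : E n → κ → ℂ} {z : E n} (hx : HolN x z)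
    (Q : MvPolynomial κ ℂ) : HolN (fun y => MvPolynomial.eval (x y) Q) z := by
  refine hx.mono fun y hy => ?_
  induction Q using MvPolynomial.induction_on with
  | C a => simpa using differentiableAt_const a
  | add p q hp hq => simpa only [map_add] using hp.fun_add hq
  | mul_X p i hp =>
    simpa only [map_mul, MvPolynomial.eval_X] using hp.fun_mul (differentiableAt_pi.1 hy i)

theorem hol_quo {r : ℕ} {κ : Type} [Fintype κ] {T : E n → Fin r → ℂ} {z : E n} (hT : HolN T z)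
    {i₀ : Fin r} (h0 : T z i₀ ≠ 0) (I : κ → Fin r) : HolN (fun y j => T y (I j) / T y i₀) z := by
  filter_upwards [hT, (differentiableAt_pi.1 hT.self_of_nhds i₀).continuousAt.eventually_ne h0]
    with y h1 h2
  refine differentiableAt_pi.2 fun j => ?_
  simp only [div_eq_mul_inv]
  exact (differentiableAt_pi.1 h1 (I j)).fun_mul ((differentiableAt_pi.1 h1 i₀).fun_inv h2)

end RESb

open RESb in
theorem bRES (hI : Sb_IND0) (hK : Sb_KIT) (hF : Sb_FN) : Sb_RES := by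
  intro n M _ ι _ _ D F _ _ Φ r P t hKd hIm
  obtain ⟨-, -, -, -, -, -, -, -, -, -, -, -, kG, -, kV⟩ := hK n M ι D
  obtain ⟨-, -, -, fn⟩ := hF n M ι D F Φ
  have rg : ∀ a, Rg D (t a) := fun a => ⟨P, hKd.1 a⟩
  have hT : D.All fun d z => HolN (vv D P t d) z := fun d z hz =>
    (eventually_all.2 fun a => (kV P _ (hKd.1 a) d z hz).1).mono fun y hy =>
      differentiableAt_pi.2 hy
  have t0 : D.All fun d z => ∀ i, vv D P t d z i ≠ 0 → t i ≠ 0 := fun d z hz i hi h => by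
    obtain ⟨y, ⟨yo, yb⟩, y0⟩ := (((MON.off_freq (D.c d) z).and_eventually
      (isOpen_ball.mem_nhds hz)).and_eventually
      ((differentiableAt_pi.1 (hT d z hz).self_of_nhds i).continuousAt.eventually_ne hi)).exists
    have e := (kV P _ (hKd.1 i) d y yb).2 yo
    refine mul_ne_zero (MON.xm_ne (-P) yo) y0 (e.symm.trans ?_)
    rw [h]
    rfl
  have gq : D.All fun d z => ∀ (κ : Type) [Fintype κ] (I : κ → Fin r) (i₀ : Fin r), t i₀ ≠ 0 →
      ∀ᶠ y in Gn D d z, ∀ j, Φ.fn (Φ.ev (t (I j)) / Φ.ev (t i₀)) d y =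
        vv D P t d y (I j) / vv D P t d y i₀ := fun d z hz κ _ I i₀ h0 => by
    refine eventually_all.2 fun j => ?_
    filter_upwards [(fn d z hz).1 _ _ (rg (I j)) (rg i₀) h0, (kG d z hz).2.1] with y e hy
    rw [e, (kV P _ (hKd.1 (I j)) d y hy.1).2 hy.2, (kV P _ (hKd.1 i₀) d y hy.1).2 hy.2,
      mul_div_mul_left _ _ (MON.xm_ne (-P) hy.2)]
    rfl
  have ge : D.All fun d z => ∀ (κ : Type) [Fintype κ] (I : κ → Fin r) (i₀ : Fin r)
      (Q : MvPolynomial κ ℂ), vv D P t d z i₀ ≠ 0 → (∃ᶠ y in 𝓝 z,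
        MvPolynomial.eval (fun j => vv D P t d y (I j) / vv D P t d y i₀) Q ≠ 0) →
      MvPolynomial.aeval (fun j => Φ.ev (t (I j)) / Φ.ev (t i₀)) Q ≠ 0 ∧ ∀ᶠ y in Gn D d z,
        Φ.fn (MvPolynomial.aeval (fun j => Φ.ev (t (I j)) / Φ.ev (t i₀)) Q) d y =
          MvPolynomial.eval (fun j => vv D P t d y (I j) / vv D P t d y i₀) Q :=
    fun d z hz κ _ I i₀ Q h0 hq => by
      have e : ∀ᶠ y in Gn D d z,
          Φ.fn (MvPolynomial.aeval (fun j => Φ.ev (t (I j)) / Φ.ev (t i₀)) Q) d y =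
            MvPolynomial.eval (fun j => vv D P t d y (I j) / vv D P t d y i₀) Q := by
        filter_upwards [(fn d z hz).2.2.2.2.2.1 κ (fun j => Φ.ev (t (I j)) / Φ.ev (t i₀)) Q,
          gq d z hz κ I i₀ (t0 d z hz i₀ h0)] with y e1 e2
        rw [e1, funext e2]
      refine ⟨fun h => ?_, e⟩
      obtain ⟨y, y1, y2, y3⟩ := (((kG d z hz).2.2.2.1 _ (hol_eval (hol_quo (hT d z hz) h0 I) Q)
        hq).and_eventually (e.and ((fn d z hz).2.2.2.1 0))).exists
      rw [map_zero] at y3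
      exact y1 (by rw [← y2, h, y3])
  refine ⟨fun d z hz => ?_, fun h v m hv => ?_⟩
  · obtain ⟨i₀, h0, ⟨I, hI'⟩, -⟩ := (hI n z).2.2 r _ (hT d z hz) (hIm d z hz)
    have hx := hol_quo (hT d z hz) h0 I
    refine ⟨i₀, I, _, t0 d z hz i₀ h0, hx, hI', gq d z hz _ I i₀ (t0 d z hz i₀ h0),
      algebraicIndependent_iff.2 fun Q hQ => ?_⟩
    by_contra hq
    exact (ge d z hz _ I i₀ Q h0 ((hI n z).1 _ hx hI' Q hq)).1 hQ
  · obtain ⟨i₀, h0, -, hu⟩ := (hI n h.z).2.2 r _ (hT _ _ h.mem) (hIm _ _ h.mem)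
    obtain ⟨I, hI'⟩ := hu h.u h.hy
    refine ⟨i₀, I, fun Q hQ => ?_⟩
    have nd := (hI n h.z).2.1 h.u _ h.hy (hol_quo (hT _ _ h.mem) h0 I) hI' Q hQ
    obtain ⟨f0, e⟩ := ge _ _ h.mem _ I i₀ Q h0 (nd.2.mono fun y hy => hy.2)
    generalize MvPolynomial.aeval (fun j => Φ.ev (t (I j)) / Φ.ev (t i₀)) Q = f at f0 e ⊢
    have one : HolN (fun _ : E n => (1 : ℂ)) h.z :=
      Eventually.of_forall fun _ => differentiableAt_const _
    have r0 : ∀ g, Φ.Reg h 0 g → v g ≤ 1 := fun g hg => by simpa using (hv.reg 0 g).2 hg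
    have a1 : v f ≤ 1 := r0 f ⟨_, fun _ => 1, nd.1, ⟨one, nd.2.mono fun y hy => ⟨hy.1, one_ne_zero⟩⟩,
      e.mono fun y hy => by simp [xm, hy]⟩
    have a2 : v (algebraMap ℂ F 1 / f) ≤ 1 := r0 _ ⟨fun _ => 1, _, one, nd, by
      filter_upwards [e, (fn _ _ h.mem).2.2.1 (algebraMap ℂ F 1) f, (fn _ _ h.mem).2.2.2.1 1,
        (fn _ _ h.mem).2.2.2.2.1 f] with y e1 e2 e3 e4
      rw [e2.2.2, e3, ← e1]
      simp [xm, e4.2 f0]⟩
    rw [map_one, map_div₀, map_one, div_le_one₀ ((Valuation.pos_iff v).2 f0)] at a2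
    exact le_antisymm a1 a2

end Pool.Agent.Lib.NV5
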