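import Pool.Agent.Lib.NV5.Blue

/-! Project NV5: sections are detected by the valuations. -/

open scoped Classical Topology
open Set Complex Metric Filter

noncomputable section

namespace Pool.Agent.Lib.NV5

open Pool.Agent.Lib.SV (E)
open Pool.Agent.Lib.HS32 Pool.Agent.Lib.EX Pool.Agent.Lib.EXS Pool.Agent.Lib.ZL

namespace SECb

variable {n : ℕ} {M : Mf n} {ι : Type} [Fintype ι] [DecidableEq ι] {D : Ad M ι}

theorem hmul {a b : E n → ℂ} {z : E n} (ha : HolN a z) (hb : HolN b z) :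
    HolN (fun y => a y * b y) z := (ha.and hb).mono fun _ h => h.1.mul h.2

/-- The quotient, extended by continuity. -/
def quo (D : Ad M ι) (p q : M.X → ℂ) : M.X → ℂ :=
  (off D).indicator fun x => limUnder (𝓝[{x | q x ≠ 0}] x) fun x => p x / q x

theorem quo_eq {p q : M.X → ℂ} {d : D.A} {y : E n} (hy : y ∈ B2 n) (ho : Off (D.c d) y)
    (hq : ∃ᶠ x in 𝓝 y, D.rd q d x ≠ 0) {G : E n → ℂ} (hG : ContinuousAt G y)
    (h : ∀ᶠ x in 𝓝 y, D.rd p d x = G x * D.rd q d x) : D.rd (quo D p q) d y = G y := by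
  have hs := GLU.mem_src d hy
  have e := GLU.rinv d hy
  have hx : (D.e d).symm y ∈ off D := by rwa [GLU.mem_off hs, e]
  haveI : (𝓝[{x | q x ≠ 0}] ((D.e d).symm y)).NeBot :=
    mem_closure_iff_nhdsWithin_neBot.1 (mem_closure_iff_frequently.2
      (((D.e d).continuousAt_symm (GLU.mem_tgt d hy)).tendsto.frequently hq))
  have ht : Tendsto (D.e d) (𝓝 ((D.e d).symm y)) (𝓝 y) := by
    have h1 := ((D.e d).continuousAt hs).tendsto
    rwa [e] at h1
  rw [Ad.rd, quo, indicator_of_mem hx]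
  refine Tendsto.limUnder_eq (((hG.tendsto.comp ht).mono_left nhdsWithin_le_nhds).congr' ?_)
  filter_upwards [self_mem_nhdsWithin, nhdsWithin_le_nhds (ht.eventually h),
    nhdsWithin_le_nhds ((D.e d).open_source.mem_nhds hs)] with x h1 h2 h3
  have h4 : D.rd p d (D.e d x) = G (D.e d x) * D.rd q d (D.e d x) := h2
  rw [GLU.rd_e p h3, GLU.rd_e q h3] at h4
  rw [h4, mul_div_cancel_right₀ _ h1]
  rfl

end SECb

open SECb in
theorem bSEC (hO : Sb_ORD) (hH : Sb_HT) (hK : Sb_KIT) (hF : Sb_FN) : Sb_SEC := by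
  intro n M _ ι _ _ D F _ _ Φ Q f
  obtain ⟨k1, -, -, -, -, -, -, -, -, k2, -, k3, k4, -, k5⟩ := hK n M ι D
  constructor
  · intro hR
    obtain ⟨p, q, R, hp, hq, h0, hf, e⟩ : ∃ p q R, Sp D (R + Q) p ∧ Sp D R q ∧ q ≠ 0 ∧
        f = Φ.ev p / Φ.ev q ∧ ∀ d y, Φ.fn f d y = D.rd p d y / D.rd q d y := by
      obtain ⟨⟨P₁, s₁⟩, ⟨P₂, s₂⟩, h0, hf⟩ := (Φ.frac f).choose_spec
      exact ⟨_, _, P₂ ⊔ (P₁ - Q), k1 _ _ _ (sub_le_iff_le_add.1 le_sup_right) s₁,
        k1 _ _ _ le_sup_left s₂, h0, hf, fun _ _ => rfl⟩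
    have rq : Rg D q := ⟨_, hq⟩
    have ep : ∀ d, ∀ y ∈ B2 n, Off (D.c d) y → D.rd p d y = xm (D.c d) (-R) y *
        (xm (D.c d) (-Q) y * val (D.c d) (R + Q) (D.rd p d) y) := fun d y hy ho => by
      rw [← mul_assoc, ← MON.xm_add _ _ ho, ← neg_add]
      exact (k5 _ _ hp d y hy).2 ho
    have key : ∀ d, ∀ z ∈ B2 n, ∃ g, HolN g z ∧ ∀ᶠ y in 𝓝 z, Off (D.c d) y →
        D.rd p d y = xm (D.c d) (-Q) y * g y * D.rd q d y := by
      intro d z hz
      have hb : ∀ᶠ y in 𝓝 z, y ∈ B2 n := isOpen_ball.eventually_mem hz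
      obtain ⟨g, hg, h⟩ := hH n _ _ z (k5 _ _ hp d z hz).1 (k5 _ _ hq d z hz).1
        (((k2 q rq h0 d z hz).and_eventually hb).mono fun y hy h => by
          have ho : Off (D.c d) y := (GLU.rinv d hy.2) ▸ (GLU.mem_off (GLU.mem_src d hy.2)).1
            (by_contra fun k => hy.1 (hq.2 _ k))
          exact hy.1 (by rw [(k5 _ _ hq d y hy.2).2 ho, h, mul_zero]))
        (hb.mono fun y hy u hu => by
          obtain ⟨a, b, ha, hn, h⟩ := hR ⟨d, y, u, hy, hu⟩
          refine ⟨a, b, ha, hn, (k4 d y hy).2.2.2.2 _ _ (hmul (k5 _ _ hp d y hy).1 hn.1)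
            (hmul ha (k5 _ _ hq d y hy).1) ?_⟩
          filter_upwards [h, (k4 d y hy).2.1,
            (k3 d y hy fun x => D.rd q d x ≠ 0).2 ⟨q, rq, h0, Eventually.of_forall fun _ => id⟩]
            with x h1 h2 h3
          have h4 := (k5 _ _ hq d x h2.1).2 h2.2
          have h5 := MON.xm_ne (-R) h2.2
          have h6 := MON.xm_ne Q h2.2
          have h7 : val (D.c d) R (D.rd q d) x ≠ 0 := fun k => h3 (by rw [h4, k, mul_zero])
          rw [← h1, e, ep d x h2.1 h2.2, MON.xm_neg Q]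
          generalize val (D.c d) (R + Q) (D.rd p d) x = v₁
          generalize val (D.c d) R (D.rd q d) x = v₂ at h4 h7
          rw [h4]
          field_simp)
      refine ⟨g, hg, (h.and hb).mono fun y hy ho => ?_⟩
      rw [ep d y hy.2 ho, hy.1]
      have h4 := (k5 _ _ hq d y hy.2).2 ho
      generalize val (D.c d) R (D.rd q d) y = v₂ at h4
      rw [h4]
      ring
    have loc : ∀ d, ∀ z ∈ B2 n, ∃ g, HolN g z ∧ ∀ᶠ y in 𝓝 z, Off (D.c d) y →
        D.rd (quo D p q) d y = xm (D.c d) (-Q) y * g y ∧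
        D.rd p d y = xm (D.c d) (-Q) y * g y * D.rd q d y := by
      intro d z hz
      obtain ⟨g, hg, h⟩ := key d z hz
      refine ⟨g, hg, ?_⟩
      filter_upwards [hg, h.eventually_nhds, isOpen_ball.eventually_mem hz] with y h1 h2 h3 ho
      exact ⟨quo_eq (G := fun y => xm (D.c d) (-Q) y * g y) h3 ho (k2 q rq h0 d y h3)
        ((MON.diff_xm fun i => Or.inl (ho i)).mul h1).continuousAt
        ((h2.and (MON.off_ev ho)).mono fun x hx => hx.1 hx.2), h2.self_of_nhds ho⟩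
    have hs : Sp D Q (quo D p q) := ⟨fun d z hz => (loc d z hz).imp fun g h =>
      ⟨h.1, h.2.mono fun y hy ho => (hy ho).1⟩, fun x hx => indicator_of_notMem hx _⟩
    have hm : quo D p q * q = p := funext fun x => by
      by_cases hx : x ∈ off D
      · obtain ⟨d, hd⟩ := GLU.ex_ch D x
        obtain ⟨g, -, h⟩ := loc d _ (GLU.mem_B2 hd)
        obtain ⟨h1, h2⟩ := h.self_of_nhds (hx d hd)
        rw [← h1, GLU.rd_e _ hd, GLU.rd_e _ hd, GLU.rd_e _ hd] at h2
        exact h2.symm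
      · rw [Pi.mul_apply, hq.2 x hx, hp.2 x hx, mul_zero]
    refine ⟨_, hs, ?_⟩
    have h1 := Φ.mul _ _ ⟨_, hs⟩ rq
    rw [hm] at h1
    rw [hf, h1, mul_div_cancel_right₀ _ fun k => h0 (Φ.inj q rq k)]
  · rintro ⟨s, hs, rfl⟩ h
    have h1 : HolN (fun _ : E n => (1 : ℂ)) h.z :=
      Eventually.of_forall fun _ => differentiableAt_const _
    refine ⟨_, _, (k5 _ _ hs h.d h.z h.mem).1, (hO n h.u h.z h.hy).2.2.2.1 _ h1 one_ne_zero, ?_⟩
    filter_upwards [((hF n M ι D F Φ).2.2.2 h.d h.z h.mem).2.1 s ⟨_, hs⟩,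
      (k4 h.d h.z h.mem).2.1] with y h2 h3
    have h4 := (k5 _ _ hs h.d y h3.1).2 h3.2
    have h6 := MON.xm_ne Q h3.2
    generalize val (D.c h.d) Q (D.rd s h.d) y = v at h4
    rw [h2, h4, MON.xm_neg]
    field_simp

end Pool.Agent.Lib.NV5
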