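import Pool.Agent.Lib.NV5.Blue
import Pool.Agent.Lib.SV.B_JET
import Pool.Agent.Lib.SV.B_SIE
import Pool.Agent.Lib.SV.B_SMO
import Pool.Agent.Lib.ZL.B_PW
import Pool.Agent.Lib.ZL.B_UPB

/-! Project NV5: the lemma of Siegel. -/

open scoped Classical Topology
open Set Complex Metric Filter

noncomputable section

namespace Pool.Agent.Lib.NV5

open Pool.Agent.Lib.SV (E)
open Pool.Agent.Lib.HS32 Pool.Agent.Lib.EX Pool.Agent.Lib.EXS Pool.Agent.Lib.ZL Pool.Agent.Lib.NV2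

namespace SGLb

theorem main (hK : Sb_KIT) {n : ℕ} {M : Mf n} [M.Cpt] {ι : Type} [Fintype ι] [DecidableEq ι]
    (D : Ad M ι) : ∃ (C : ℝ) (N : ℕ), ∀ (Q : ι → ℤ) (t : ℕ),
    2 * Real.exp (C * ∑ i, |(Q i : ℝ)|) < 2 ^ t →
    FiniteDimensional ℂ (Submodule.span ℂ {s | Sp D Q s}) ∧ h0 D Q ≤ N * t ^ n := by
  obtain ⟨-, k2, -, k4, k5, -, -, -, -, -, -, -, -, -, k⟩ := hK n M ι D
  obtain ⟨-, p2, -, -, -, -, -, -, p9, -⟩ := bPW n M ι D
  obtain ⟨C, -, hC⟩ := p9 (7 / 4) (by norm_num)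
  obtain ⟨T, t1, t2, t3⟩ := finite_cover_balls_of_compact (isCompact_closedBall (0 : E n) 1)
    (by norm_num : (0 : ℝ) < 1 / 4)
  have := t2.fintype
  refine ⟨C, Fintype.card (D.A × T), fun Q t ht => ?_⟩
  have hs (s : Submodule.span ℂ {s | Sp D Q s}) : Sp D Q s.1 :=
    Submodule.span_induction (p := fun s _ => Sp D Q s) (fun _ h => h) (k5 Q)
      (fun a b _ _ => k2 Q a b) (fun c a _ => k4 Q c a) s.2
  let r (d : D.A) : Submodule.span ℂ {s | Sp D Q s} →ₗ[ℂ] E n → ℂ :=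
    { toFun := fun s => (B2 n).indicator (val (D.c d) Q (D.rd s.1 d))
      map_add' := fun a b => by
        rw [← indicator_add']
        refine indicator_congr fun z hz => U11.val_eq ((k Q _ (hs a) d z hz).1.self_of_nhds.add
          (k Q _ (hs b) d z hz).1.self_of_nhds).continuousAt ?_
        filter_upwards [isOpen_ball.mem_nhds hz] with y hy ho
        rw [Pi.add_apply, mul_add, ← (k Q _ (hs a) d y hy).2 ho, ← (k Q _ (hs b) d y hy).2 ho]
        rfl
      map_smul' := fun c a => by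
        refine Eq.trans (indicator_congr fun z hz => U11.val_eq ((k Q _ (hs a) d z hz).1.self_of_nhds.const_smul
          c).continuousAt ?_) (indicator_const_smul _ c _)
        filter_upwards [isOpen_ball.mem_nhds hz] with y hy ho
        rw [Pi.smul_apply, mul_smul_comm, ← (k Q _ (hs a) d y hy).2 ho]
        rfl }
  have hr (d s z) (hz : z ∈ B2 n) : r d s =ᶠ[𝓝 z] val (D.c d) Q (D.rd s.1 d) := by
    filter_upwards [isOpen_ball.mem_nhds hz] with y hy using indicator_of_mem hy _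
  have hn (d s z) (hz : z ∈ B2 n) (ho : Off (D.c d) z) :
      normSq (r d s z) = xr (D.c d) (fun i => Q i) z * normSq (D.rd s.1 d z) := by
    have e := U11.nsq (c := D.c d) (P := -Q) (z := z)
    rw [neg_neg] at e
    rw [(hr d s z hz).self_of_nhds, (k Q _ (hs s) d z hz).2 ho, MON.xm_neg, map_mul, map_inv₀, e]
    simp only [Pi.neg_apply, Int.cast_neg, ← Pi.neg_def, neg_neg] at e ⊢
    rw [mul_inv_cancel_left₀ (e ▸ (map_ne_zero normSq).2 (MON.xm_ne Q ho))]
  have hb (j : D.A × T) (w) (hw : w ∈ ball j.2.1 (2 * (1 / 4))) : ‖w‖ < 7 / 4 := by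
    have := norm_add_le (w - j.2.1) j.2.1
    rw [sub_add_cancel] at this
    linarith [mem_ball_iff_norm.1 hw, mem_closedBall_zero_iff.1 (t1 j.2.2)]
  have h2 {w : E n} (h : ‖w‖ < 7 / 4) : w ∈ B2 n := mem_ball_zero_iff.2 (by linarith)
  have hd (d s w) (h : w ∈ B2 n) : DifferentiableAt ℂ (r d s) w :=
    (k Q _ (hs s) d w h).1.self_of_nhds.congr_of_eventuallyEq (hr d s w h)
  have hc (x : M.X) : ∃ j : D.A × T, x ∈ (D.e j.1).source ∧ ‖D.e j.1 x‖ ≤ 1 ∧
      D.e j.1 x ∈ ball j.2.1 (1 / 4) := by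
    obtain ⟨d, a, b⟩ := p2 x
    obtain ⟨y, c, e⟩ := mem_iUnion₂.1 (t3 (mem_closedBall_zero_iff.2 b))
    exact ⟨(d, ⟨y, c⟩), a, b, e⟩
  obtain ⟨Φ, hΦ⟩ := SV.stSIE (SV.stJET SV.stSMO) n t _ (D.A × T) (fun j => r j.1) (fun j => j.2.1)
    (fun _ => 1 / 4) _ (fun _ => by norm_num) (Real.exp_pos _).le ht
    (fun j s w hw => (hd _ s w (h2 (hb j w hw))).differentiableWithinAt) fun s m m0 hm j w hw => by
      refine le_of_tendsto_of_frequently (hd _ s w (h2 (hb j w hw))).continuousAt.norm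
        (((MON.off_freq (D.c j.1) w).and_eventually
          (continuous_norm.continuousAt.eventually (gt_mem_nhds (hb j w hw)))).mono fun y ⟨o, b⟩ => ?_)
      obtain ⟨i, a1, a2, a3⟩ := hc ((D.e j.1).symm y)
      have o' := (GLU.mem_off (GLU.mem_src _ (h2 b))).2 ((GLU.rinv j.1 (h2 b)).symm ▸ o) _ a1
      have e1 := (hC (fun i => Q i) _ _ b.le o).1
      have e2 := (hC (fun i => Q i) _ _ (a2.trans (by norm_num)) o').2
      have e3 := pow_le_pow_left₀ (norm_nonneg _) (hm i _ a3) 2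
      rw [← normSq_eq_norm_sq, hn _ _ _ (GLU.mem_B2 a1) o', GLU.rd_e _ a1] at e3
      rw [GLU.rd_e _ a1] at e2
      refine (pow_le_pow_iff_left₀ (norm_nonneg _) (by positivity) two_ne_zero).1 ?_
      rw [← normSq_eq_norm_sq, hn _ _ _ (h2 b) o, mul_pow, sq, mul_assoc]
      refine (mul_le_mul_of_nonneg_right (e1.trans (mul_le_mul_of_nonneg_left e2
        (Real.exp_pos _).le)) (normSq_nonneg _)).trans ?_
      rw [mul_assoc, mul_assoc]
      gcongr
      exact e3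
  have hi : Function.Injective Φ := (injective_iff_map_eq_zero Φ).2 fun s h0 => by
    refine Subtype.ext (funext fun x => ?_)
    by_cases hx : x ∈ off D
    · obtain ⟨i, a1, -, a3⟩ := hc x
      have e := hΦ s h0 i _ (ball_subset_ball (by norm_num) a3)
      have b := GLU.mem_B2 a1
      rw [← GLU.rd_e s.1 a1, (k Q _ (hs s) _ _ b).2 (hx _ a1), ← (hr _ s _ b).self_of_nhds, e,
        mul_zero]
      rfl
    · exact (hs s).2 x hx
  refine ⟨Module.Finite.of_injective Φ hi, (LinearMap.finrank_le_finrank_of_injective hi).trans ?_⟩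
  simp

end SGLb

theorem bSGL (hK : Sb_KIT) : Sb_SGL := by
  intro n M _ ι _ _ D P
  obtain ⟨C, N, h⟩ := SGLb.main hK D
  refine ⟨fun Q => ?_, ?_⟩
  · obtain ⟨t, ht⟩ := pow_unbounded_of_one_lt (2 * Real.exp (C * ∑ i, |(Q i : ℝ)|)) one_lt_two
    exact (h Q t ht).1
  obtain ⟨K, hK⟩ := pow_unbounded_of_one_lt (Real.exp (C * ∑ i, |(P i : ℝ)|)) one_lt_two
  refine ⟨N * (K + 2) ^ n, fun j => (h _ (K * j + 2) ?_).2.trans ?_⟩
  · have e : C * ∑ i, |((j * P i : ℤ) : ℝ)| = j * (C * ∑ i, |(P i : ℝ)|) := by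
      simp only [Int.cast_mul, Int.cast_natCast, abs_mul, Nat.abs_cast, ← Finset.mul_sum]
      ring
    have := pow_le_pow_left₀ (Real.exp_pos _).le hK.le j
    have p : (0 : ℝ) < (2 ^ K) ^ j := by positivity
    rw [e, Real.exp_nat_mul, pow_add, pow_mul]
    linarith
  · rw [mul_assoc, ← mul_pow]
    exact Nat.mul_le_mul_left _ (Nat.pow_le_pow_left (by nlinarith) _)

end Pool.Agent.Lib.NV5
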