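import Pool.Agent.Lib.NV5.Blue

/-! Project NV5, row `TNS`: products, determinants and contractions of tensors. -/

open scoped Classical Topology ContDiff ENNReal Manifold
open Set Complex Metric Filter

set_option linter.unusedSectionVars false

noncomputable section

namespace Pool.Agent.Lib.NV5

open Pool.Agent.Lib.SV (E nsq Pluri)
open Pool.Agent.Lib.HS32 Pool.Agent.Lib.EX Pool.Agent.Lib.EXS Pool.Agent.Lib.ZL Pool.Agent.Lib.NV2

namespace TNSb

variable {n : ℕ} {ι : Type} [Fintype ι] [DecidableEq ι]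

section euc

variable {c : ι → Option (Fin n)} {P Q : ι → ℤ} {f g : E n → ℂ} {z : E n}

theorem pcong (h : PolH c P g z) (e : ∀ᶠ y in 𝓝 z, Off c y → f y = g y) : PolH c P f z := by
  obtain ⟨s, h1, h2⟩ := h
  exact ⟨s, h1, (e.and h2).mono fun y hy ho => (hy.1 ho).trans (hy.2 ho)⟩

theorem phol (h : HolN f z) : PolH c 0 f z := ⟨f, h, .of_forall fun y _ => by simp [xm]⟩

theorem pconst (a : ℂ) : PolH c 0 (fun _ => a) z :=
  phol (.of_forall fun _ => differentiableAt_const _)

theorem pmul (h : PolH c P f z) (k : PolH c Q g z) : PolH c (P + Q) (fun y => f y * g y) z := by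
  obtain ⟨s, h1, h2⟩ := h
  obtain ⟨t, k1, k2⟩ := k
  refine ⟨fun y => s y * t y, (h1.and k1).mono fun y hy => hy.1.mul hy.2,
    (h2.and k2).mono fun y hy ho => ?_⟩
  beta_reduce
  rw [hy.1 ho, hy.2 ho, neg_add, MON.xm_add _ _ ho]
  ring

theorem padd (h : PolH c P f z) (k : PolH c P g z) : PolH c P (fun y => f y + g y) z := by
  obtain ⟨s, h1, h2⟩ := h
  obtain ⟨t, k1, k2⟩ := k
  refine ⟨fun y => s y + t y, (h1.and k1).mono fun y hy => hy.1.add hy.2,
    (h2.and k2).mono fun y hy ho => ?_⟩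
  beta_reduce
  rw [hy.1 ho, hy.2 ho, mul_add]

theorem psum {κ : Type} (S : Finset κ) {F : κ → E n → ℂ} (h : ∀ k ∈ S, PolH c P (F k) z) :
    PolH c P (fun y => ∑ k ∈ S, F k y) z := by
  induction S using Finset.induction_on with
  | empty => exact ⟨fun _ => 0, .of_forall fun _ => differentiableAt_const _, by simp⟩
  | insert k S hk ih =>
    simp only [Finset.sum_insert hk]
    exact padd (h k (by simp)) (ih fun j hj => h j (by simp [hj]))

theorem pprod {κ : Type} (S : Finset κ) {R : κ → ι → ℤ} {F : κ → E n → ℂ}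
    (h : ∀ k ∈ S, PolH c (R k) (F k) z) : PolH c (∑ k ∈ S, R k) (fun y => ∏ k ∈ S, F k y) z := by
  induction S using Finset.induction_on with
  | empty => simpa using pconst 1
  | insert k S hk ih =>
    simp only [Finset.sum_insert hk, Finset.prod_insert hk]
    exact pmul (h k (by simp)) (ih fun j hj => h j (by simp [hj]))

theorem pxm (h : ∀ i, 0 ≤ (P + Q) i) : PolH c P (xm c Q) z :=
  ⟨xm c (P + Q), .of_forall fun _ => MON.diff_xm fun i => .inr (h i), .of_forall fun y ho => by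
    rw [← MON.xm_add _ _ ho, neg_add_cancel_left]⟩

theorem pdiff (h : PolH c P f z) (ho : Off c z) : DifferentiableAt ℂ f z := by
  obtain ⟨s, h1, h2⟩ := h
  exact ((MON.diff_xm fun i => .inl (ho i)).mul h1.self_of_nhds).congr_of_eventuallyEq
    ((h2.and (MON.off_ev ho)).mono fun y hy => hy.1 hy.2)

theorem dxm (G : ι → ℤ) (h : Off c z) (v : E n) : fderiv ℂ (xm c G) z v =
    ∑ i, (G i * (c i).elim 0 v) * xm c (G - Pi.single i 1) z := by
  have hx : ∀ i, ∃ L : E n →L[ℂ] ℂ, HasFDerivAt (xi c i) L z ∧ L v = (c i).elim 0 v := fun i => by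
    rcases MON.xi_cases c i with ⟨h1, h2⟩ | ⟨j, h1, h2⟩
    · exact ⟨0, h2 ▸ hasFDerivAt_const _ _, by simp [h1]⟩
    · exact ⟨.proj j, h2 ▸ hasFDerivAt_apply j z, by simp [h1]⟩
  choose L h1 h2 using hx
  have hi : ∀ i, HasFDerivAt (fun w => xi c i w ^ G i) ((G i * xi c i z ^ (G i - 1)) • L i) z :=
    fun i => (hasDerivAt_zpow (G i) _ (Or.inl (h i))).comp_hasFDerivAt z (h1 i)
  have e : HasFDerivAt (xm c G) _ z := HasFDerivAt.finsetProd (u := Finset.univ) fun i _ => hi i
  rw [e.fderiv, sum_apply]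
  refine Finset.sum_congr rfl fun i _ => ?_
  have e1 : ∏ j ∈ Finset.univ.erase i, xi c j z ^ (G - Pi.single i 1 : ι → ℤ) j =
      ∏ j ∈ Finset.univ.erase i, xi c j z ^ G j := Finset.prod_congr rfl fun j hj => by
    rw [Pi.sub_apply, Pi.single_eq_of_ne (Finset.ne_of_mem_erase hj), sub_zero]
  rw [xm, ← Finset.mul_prod_erase _ _ (Finset.mem_univ i), e1, Pi.sub_apply, Pi.single_eq_same,
    smul_apply, smul_apply, h2, smul_eq_mul, smul_eq_mul]
  ring

theorem hder (h : HolN f z) (j : Fin n) : HolN (fun y => fderiv ℂ f y (Pi.single j 1)) z := by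
  filter_upwards [((mHOL n f z).2.2 h).2.1 j, h.eventually_nhds] with y y1 y2
  exact y1.congr_of_eventuallyEq (y2.mono fun w hw => ((mHOL n f w).2.1 hw j).symm)

theorem pder (h : PolH c P f z) (j : Fin n) :
    PolH c (P + 1) (fun y => fderiv ℂ f y (Pi.single j 1)) z := by
  obtain ⟨s, h1, h2⟩ := h
  have a1 := pmul (pxm (c := c) (z := z) (P := P + 1) (Q := -P) fun i => by simp) (phol (hder h1 j))
  have a2 := psum Finset.univ fun i _ => pmul (pconst (((-P) i : ℤ) * (c i).elim 0 (Pi.single j 1)))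
    (pxm (c := c) (z := z) (P := P + 1) (Q := -P - Pi.single i 1) fun k => by
      by_cases hk : k = i
      · simp [hk]
      · simp [hk])
  have a3 := pmul (phol h1) a2
  rw [add_zero] at a1
  rw [zero_add, zero_add] at a3
  refine pcong (padd a1 a3) ?_
  filter_upwards [h1, h2.eventually_nhds] with y y1 y2 ho
  have e : f =ᶠ[𝓝 y] fun w => xm c (-P) w * s w :=
    (y2.and (MON.off_ev ho)).mono fun w hw => hw.1 hw.2
  rw [e.fderiv_eq, fderiv_fun_mul (MON.diff_xm fun i => .inl (ho i)) y1,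
    add_apply, smul_apply, smul_apply,
    dxm _ ho, smul_eq_mul, smul_eq_mul]

end euc

section alg

variable {q q' r : ℕ} (J : Mat n)

theorem aprod (B : (Fin q → Fin n) → ℂ) (B' : (Fin q' → Fin n) → ℂ) (I : Fin (q + q') → Fin n) :
    (∑ K : Fin q → Fin n, (∏ p, J (I (Fin.castAdd q' p)) (K p)) * B K) *
      (∑ K : Fin q' → Fin n, (∏ p, J (I (Fin.natAdd q p)) (K p)) * B' K) =
    ∑ K : Fin (q + q') → Fin n, (∏ p, J (I p) (K p)) *
      (B (fun p => K (Fin.castAdd q' p)) * B' fun p => K (Fin.natAdd q p)) := by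
  rw [← Equiv.sum_comp (Fin.appendEquiv q q'), Fintype.sum_prod_type, Finset.sum_mul_sum]
  refine Finset.sum_congr rfl fun K _ => Finset.sum_congr rfl fun K' _ => ?_
  simp only [Fin.prod_univ_add, Fin.appendEquiv_apply, Fin.append_left, Fin.append_right]
  ring

theorem adet (B : Fin r → (Fin q → Fin n) → ℂ) (I : Fin (r * q) → Fin n) :
    (Matrix.of fun a a' : Fin r => ∑ K : Fin q → Fin n,
      (∏ p, J (I (finProdFinEquiv (a', p))) (K p)) * B a K).det =
    ∑ K : Fin (r * q) → Fin n, (∏ p, J (I p) (K p)) *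
      (Matrix.of fun a a' : Fin r => B a fun p => K (finProdFinEquiv (a', p))).det := by
  simp only [Matrix.det_apply', Matrix.of_apply, Finset.mul_sum]
  rw [Finset.sum_comm]
  refine Finset.sum_congr rfl fun σ _ => ?_
  rw [Finset.prod_univ_sum, Fintype.piFinset_univ, Finset.mul_sum]
  refine (Fintype.sum_equiv ((Equiv.arrowCongr finProdFinEquiv.symm (Equiv.refl _)).trans
    (Equiv.curry _ _ _)) _ _ fun K => ?_).symm
  rw [← Equiv.prod_comp finProdFinEquiv, Fintype.prod_prod_type, Finset.prod_mul_distrib,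
    mul_left_comm]
  rfl

theorem acon (B : (Fin q → Fin n) → ℂ) (ξ : Fin q → Fin n → ℂ) :
    ∑ I : Fin q → Fin n, (∑ K : Fin q → Fin n, (∏ p, J (I p) (K p)) * B K) * ∏ p, ξ p (I p) =
      ∑ K : Fin q → Fin n, B K * ∏ p, ∑ i, J i (K p) * ξ p i := by
  simp only [Finset.sum_mul]
  rw [Finset.sum_comm]
  refine Finset.sum_congr rfl fun K _ => ?_
  rw [Finset.prod_univ_sum, Fintype.piFinset_univ, Finset.mul_sum]
  refine Finset.sum_congr rfl fun I _ => ?_
  rw [Finset.prod_mul_distrib]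
  ring

end alg

variable {M : Mf n} {D : Ad M ι}

theorem chg {f : M.X → ℂ} {x : M.X} {a d : D.A} (ha : x ∈ (D.e a).source)
    (hd : x ∈ (D.e d).source) (hf : DifferentiableAt ℂ (D.rd f a) (D.e a x)) (j : Fin n) :
    fderiv ℂ (D.rd f d) (D.e d x) (Pi.single j 1) =
      ∑ i, D.J a d x i j * fderiv ℂ (D.rd f a) (D.e a x) (Pi.single i 1) := by
  have e0 : (D.e d).symm (D.e d x) = x := (D.e d).left_inv hd
  have hs : ∀ᶠ y in 𝓝 (D.e d x), y ∈ B2 n ∧ (D.e d).symm y ∈ (D.e a).source :=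
    GLU.ev_on (D.e a).open_source (GLU.mem_B2 hd) (e0.symm ▸ ha)
  have h1 : DifferentiableAt ℂ (D.e a ∘ (D.e d).symm) (D.e d x) :=
    (M.hol _ (D.mem a) _ (D.mem d)).differentiableAt
      (hs.mono fun y hy => ⟨GLU.mem_tgt d hy.1, hy.2⟩)
  have e1 : (D.e a ∘ (D.e d).symm) (D.e d x) = D.e a x := congrArg (D.e a) e0
  have e2 : D.rd f d =ᶠ[𝓝 (D.e d x)] D.rd f a ∘ D.e a ∘ (D.e d).symm := hs.mono fun y hy =>
    (GLU.rd_e f hy.2).symm
  rw [e2.fderiv_eq, fderiv_comp _ (e1 ▸ hf) h1, e1, ContinuousLinearMap.comp_apply,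
    ← Finset.univ_sum_single (fderiv ℂ (D.e a ∘ (D.e d).symm) (D.e d x) (Pi.single j 1)), map_sum]
  refine Finset.sum_congr rfl fun i _ => ?_
  rw [← smul_eq_mul, ← map_smul, ← Pi.single_smul, smul_eq_mul, mul_one]
  rfl

end TNSb

open TNSb in
/-- Row `TNS`. -/
theorem bTNS : Sb_TNS := by
  intro n M _ ι _ _ D
  refine ⟨fun q q' P Q b b' h h' => ⟨fun d z hz I => pmul (h.pol d z hz _) (h'.pol d z hz _),
    fun a d x ha hd ho I => ?_⟩, fun q r Q b h => ⟨fun d z hz I => ?_, fun a d x ha hd ho I => ?_⟩,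
    fun P q x hx => ⟨∑ _p : Fin q, (P + 1), fun Q b h => ?_⟩⟩
  · rw [h.law a d x ha hd ho, h'.law a d x ha hd ho]
    exact aprod _ _ _ I
  · simp only [Matrix.det_apply', Matrix.of_apply]
    refine psum _ fun σ _ => ?_
    have k := pmul (pconst ((Equiv.Perm.sign σ : ℤ) : ℂ)) (pprod Finset.univ fun a _ =>
      (h (σ a)).pol d z hz fun p => I (finProdFinEquiv (a, p)))
    rwa [zero_add, Equiv.sum_comp σ Q] at k
  · simp only [fun k => (h k).law a d x ha hd ho]
    exact adet _ _ I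
  · choose ch hch using GLU.ex_ch D
    let Φ : D.A → E n → ℂ := fun d z =>
      ∑ I : Fin q → Fin n, b d I z * ∏ p, fderiv ℂ (D.rd (x p) d) z (Pi.single (I p) 1)
    have k : OA D fun d z => D.rd ((off D).indicator fun y => Φ (ch y) (D.e (ch y) y)) d z =
        Φ d z := fun d z hz ho => by
      have hd := GLU.mem_src (D := D) d hz
      have hr := GLU.rinv (D := D) d hz
      generalize hy : (D.e d).symm z = y at hd hr
      subst hr
      have ho' := (GLU.mem_off hd).2 ho
      beta_reduce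
      rw [GLU.rd_e _ hd, indicator_of_mem ho']
      have e := acon (D.J (ch y) d y) (fun I => b d I (D.e d y)) fun p i =>
        fderiv ℂ (D.rd (x p) (ch y)) (D.e (ch y) y) (Pi.single i 1)
      refine Eq.trans (Finset.sum_congr rfl fun I _ => ?_) (e.trans
        (Finset.sum_congr rfl fun I _ => congrArg _ (Finset.prod_congr rfl fun p _ => ?_)))
      · rw [h.law _ d y (hch y) hd ho']
      · exact (chg (hch y) hd (pdiff ((hx p).1 _ _ (GLU.mem_B2 (hch y))) (ho' _ (hch y))) _).symm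
    refine ⟨_, ⟨fun d z hz => pcong (g := Φ d) (psum _ fun I _ => pmul (h.pol d z hz I)
      (pprod _ fun p _ => pder ((hx p).1 d z hz) _)) ?_, fun y hy => indicator_of_notMem hy _⟩, k⟩
    exact (isOpen_ball.eventually_mem hz).mono fun y hy => k d y hy

end Pool.Agent.Lib.NV5
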