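import Pool.Agent.Lib.NV5.Blue

/-! Project NV5, row VAL: the valuation of a germ. -/

open scoped Classical Topology
open Filter

noncomputable section

namespace Pool.Agent.Lib.NV5

open Pool.Agent.Lib.SV (E)
open Pool.Agent.Lib.HS32 Pool.Agent.Lib.EX Pool.Agent.Lib.EXS Pool.Agent.Lib.ZL Pool.Agent.Lib.NV2

namespace VALb

variable {n : ℕ} {u a b a' b' φ : E n → ℂ} {z : E n} {G : Filter (E n)}

theorem hm (ha : HolN a z) (hb : HolN b z) : HolN (a * b) z :=
  (ha.and hb).mono fun _ h => h.1.mul h.2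

theorem hs (ha : HolN a z) (hb : HolN b z) : HolN (a + b) z :=
  (ha.and hb).mono fun _ h => h.1.add h.2

theorem hw (ha : HolN a z) (k : ℕ) : HolN (a ^ k) z := ha.mono fun _ h => h.pow k

theorem hc (c : ℂ) : HolN (fun _ : E n => c) z := .of_forall fun _ => differentiableAt_const c

/-- Holomorphic functions that agree along the filter agree. -/
def Id (G : Filter (E n)) (z : E n) : Prop :=
  ∀ f g : E n → ℂ, HolN f z → HolN g z → (∀ᶠ y in G, f y = g y) → f =ᶠ[𝓝 z] g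

/-- The order relation. -/
def R (G : Filter (E n)) (u φ a b : E n → ℂ) (k : ℤ) : Prop :=
  ∀ᶠ y in G, u y ≠ 0 → φ y * b y = u y ^ k * a y

theorem cmp (hO : Sb_ORD) (hu : Hy u z) (hG : Id G z) {k k' : ℤ} (ha : Nd u z a) (ha' : HolN a' z)
    (h : ∀ᶠ y in G, u y ≠ 0 → u y ^ k * a y = u y ^ k' * a' y) : k' ≤ k := by
  obtain ⟨N, h1, h2⟩ : ∃ N : ℤ, 0 < k + N ∧ 0 < k' + N := ⟨max (-k) (-k') + 1, by omega, by omega⟩
  obtain ⟨p, hp⟩ := Int.eq_ofNat_of_zero_le h1.le
  obtain ⟨q, hq⟩ := Int.eq_ofNat_of_zero_le h2.le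
  have e := hG (u ^ p * a) (u ^ q * a') (hm (hw hu.1 p) ha.1) (hm (hw hu.1 q) ha')
    (h.mono fun y hy => by
      by_cases u0 : u y = 0
      · simp [u0, show p ≠ 0 by omega, show q ≠ 0 by omega]
      · simp only [Pi.mul_apply, Pi.pow_apply, ← zpow_natCast, ← hp, ← hq, zpow_add₀ u0]
        linear_combination u y ^ N * hy u0)
  have := (hO n u z hu).2.2.2.2.2.2 p q a a' ha ha' (e.mono fun y hy _ => by simpa using hy)
  omega

theorem le (hO : Sb_ORD) (hu : Hy u z) (hG : Id G z) {j k : ℤ} (ha : Nd u z a) (hb : HolN b z)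
    (ha' : HolN a' z) (hb' : Nd u z b') (h : R G u φ a b j) (h' : R G u φ a' b' k) : k ≤ j :=
  cmp hO hu hG ((hO n u z hu).2.2.1 a b' ha hb') (hm ha' hb) ((h.and h').mono fun y e u0 => by
    simp only [Pi.mul_apply]
    linear_combination b y * e.2 u0 - b' y * e.1 u0)

theorem exv (hO : Sb_ORD) (hu : Hy u z) (hG : Id G z) {F : Type} [Field F] (fn : F → E n → ℂ)
    (hA : ∀ f g, ∀ᶠ y in G, fn (f + g) y = fn f y + fn g y ∧ fn (f * g) y = fn f y * fn g y)
    (ex : ∀ f ≠ 0, ∃ k a b, Nd u z a ∧ Nd u z b ∧ R G u (fn f) a b k) :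
    ∃ v : Valuation F Zm, (∀ f ≠ 0, ∃ a b, Nd u z a ∧ Nd u z b ∧
      R G u (fn f) a b (-WithZero.log (v f))) ∧
      ∀ f k, v f ≤ WithZero.exp (-k) ↔ ∃ a b, HolN a z ∧ Nd u z b ∧ R G u (fn f) a b k := by
  obtain ⟨-, -, nm, nu, -⟩ := hO n u z hu
  choose! o ho using ex
  have key : ∀ f k, (if f = 0 then 0 else WithZero.exp (-o f)) ≤ WithZero.exp (-k) ↔
      ∃ a b, HolN a z ∧ Nd u z b ∧ R G u (fn f) a b k := by
    intro f k
    split_ifs with f0
    · subst f0
      refine iff_of_true zero_le ⟨fun _ => 0, fun _ => 1, hc 0, nu _ (hc 1) one_ne_zero,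
        (hA 0 0).mono fun y e _ => ?_⟩
      have := e.1
      rw [add_zero] at this
      linear_combination -this
    · obtain ⟨a, b, ha, hb, h⟩ := ho f f0
      rw [WithZero.exp_le_exp, neg_le_neg_iff]
      refine ⟨fun hk => ?_, fun ⟨a', b', ha', hb', h'⟩ => le hO hu hG ha hb.1 ha' hb' h h'⟩
      obtain ⟨p, hp⟩ := Int.eq_ofNat_of_zero_le (sub_nonneg.2 hk)
      refine ⟨u ^ p * a, b, hm (hw hu.1 p) ha.1, hb, h.mono fun y e u0 => ?_⟩
      rw [e u0, show o f = k + p by omega, zpow_add₀ u0, zpow_natCast, mul_assoc]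
      rfl
  have mul : ∀ f ≠ 0, ∀ g ≠ 0, o (f * g) = o f + o g := by
    intro f f0 g g0
    obtain ⟨a, b, ha, hb, h⟩ := ho f f0
    obtain ⟨a', b', ha', hb', h'⟩ := ho g g0
    obtain ⟨c, d, hc, hd, h''⟩ := ho _ (mul_ne_zero f0 g0)
    have r : R G u (fn (f * g)) (a * a') (b * b') (o f + o g) :=
      ((h.and h').and (hA f g)).mono fun y e u0 => by
        simp only [Pi.mul_apply, zpow_add₀ u0, e.2.2]
        linear_combination fn g y * b' y * e.1.1 u0 + u y ^ o f * a y * e.1.2 u0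
    exact le_antisymm (le hO hu hG (nm _ _ ha ha') (hm hb.1 hb'.1) hc.1 hd r h'')
      (le hO hu hG hc hd.1 (hm ha.1 ha'.1) (nm _ _ hb hb') h'' r)
  have add : ∀ f g k, (if f = 0 then 0 else WithZero.exp (-o f)) ≤ WithZero.exp (-k) →
      (if g = 0 then 0 else WithZero.exp (-o g)) ≤ WithZero.exp (-k) →
      (if f + g = 0 then 0 else WithZero.exp (-o (f + g))) ≤ WithZero.exp (-k) := by
    intro f g k
    rw [key, key, key]
    rintro ⟨a, b, ha, hb, h⟩ ⟨a', b', ha', hb', h'⟩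
    refine ⟨a * b' + a' * b, b * b', hs (hm ha hb'.1) (hm ha' hb.1), nm _ _ hb hb',
      ((h.and h').and (hA f g)).mono fun y e u0 => ?_⟩
    simp only [Pi.mul_apply, Pi.add_apply, e.2.1]
    linear_combination b' y * e.1.1 u0 + b y * e.1.2 u0
  refine ⟨{ toFun := fun f => if f = 0 then 0 else WithZero.exp (-o f)
            map_zero' := if_pos rfl
            map_one' := ?_
            map_mul' := fun f g => ?_
            map_add_le_max' := fun f g => ?_ }, fun f f0 => ?_, key⟩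
  · have := mul 1 one_ne_zero 1 one_ne_zero
    rw [mul_one] at this
    rw [if_neg one_ne_zero, show o 1 = 0 by omega, neg_zero, WithZero.exp_zero]
  · by_cases f0 : f = 0
    · simp [f0]
    by_cases g0 : g = 0
    · simp [g0]
    rw [if_neg (mul_ne_zero f0 g0), if_neg f0, if_neg g0, mul f f0 g g0, neg_add, WithZero.exp_add]
  · by_cases f0 : f = 0
    · simp [f0]
    by_cases g0 : g = 0
    · simp [g0]
    have e : ∀ {f : F} {k : ℤ}, f ≠ 0 → k ≤ o f →
        (if f = 0 then 0 else WithZero.exp (-o f)) ≤ WithZero.exp (-k) := fun f0 h => by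
      rw [if_neg f0]; exact WithZero.exp_le_exp.2 (neg_le_neg h)
    refine (add f g (min (o f) (o g)) (e f0 (min_le_left _ _)) (e g0 (min_le_right _ _))).trans ?_
    simp only [if_neg f0, if_neg g0]
    rcases le_total (o f) (o g) with h | h
    · rw [min_eq_left h]; exact le_max_left _ _
    · rw [min_eq_right h]; exact le_max_right _ _
  · have := ho f f0
    rwa [show o f = -WithZero.log (if f = 0 then 0 else WithZero.exp (-o f)) by
      rw [if_neg f0, WithZero.log_exp, neg_neg]] at this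

theorem exm (hO : Sb_ORD) (hu : Hy u z) (c : Option (Fin n)) : ∃ m : ℤ, ((m = 0 ∨ m = 1) ∧
    ∃ a, Nd u z a ∧ ∀ᶠ y in 𝓝 z, c.elim 1 y = u y ^ m * a y) ∧
    (m = 1 → ∃ j, c = some j ∧ ∀ᶠ y in 𝓝 z, u y = 0 ↔ y j = 0) := by
  obtain ⟨-, dv, -, nu, -⟩ := hO n u z hu
  rcases c with _ | j
  · exact ⟨0, ⟨.inl rfl, fun _ => 1, nu _ (hc 1) one_ne_zero, .of_forall fun y => by simp⟩,
      fun h => by omega⟩
  have hj : HolN (fun y : E n => y j) z := .of_forall fun y => by fun_prop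
  by_cases h : Nd u z fun y => y j
  · exact ⟨0, ⟨.inl rfl, _, h, .of_forall fun y => by simp⟩, fun h => by omega⟩
  obtain ⟨a, ha, e⟩ := dv _ hj h
  have a0 : a z ≠ 0 := fun a0 => by
    have d1 := (hu.1.self_of_nhds.hasFDerivAt.mul ha.self_of_nhds.hasFDerivAt).congr_of_eventuallyEq
      (f₁ := fun y : E n => y j) e
    have d2 := d1.unique (hasFDerivAt_apply (𝕜 := ℂ) j z)
    have := congrArg (fun L : E n →L[ℂ] ℂ => L (Pi.single j 1)) d2
    simp [a0, hu.2.1] at this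
  refine ⟨1, ⟨.inr rfl, a, nu a ha a0, e.mono fun y ey => by simpa using ey⟩, fun _ => ⟨j, rfl,
    (e.and (ha.self_of_nhds.continuousAt.eventually_ne a0)).mono fun y ey => ?_⟩⟩
  simp [ey.1, ey.2]

theorem np (hO : Sb_ORD) (hu : Hy u z) {ι : Type} (s : Finset ι) (a : ι → E n → ℂ) (k : ι → ℕ)
    (ha : ∀ i, Nd u z (a i)) : Nd u z fun y => ∏ i ∈ s, a i y ^ k i := by
  obtain ⟨-, -, nm, nu, -⟩ := hO n u z hu
  have pw : ∀ i (k : ℕ), Nd u z fun y => a i y ^ k := fun i k => by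
    induction k with
    | zero => simpa using nu _ (hc 1) one_ne_zero
    | succ k ih => simp only [pow_succ]; exact nm _ _ ih (ha i)
  induction s using Finset.induction_on with
  | empty => simpa using nu _ (hc 1) one_ne_zero
  | insert i s hi ih => simp only [Finset.prod_insert hi]; exact nm _ _ (pw i (k i)) ih

theorem xm_eq {ι : Type} [Fintype ι] {c : ι → Option (Fin n)} {a : ι → E n → ℂ} {m : ι → ℤ}
    (Q : ι → ℤ) {y : E n} (hy : Off c y) (u0 : u y ≠ 0) (e : ∀ i, xi c i y = u y ^ m i * a i y) :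
    xm c Q y * ∏ i, a i y ^ (-Q i).toNat =
      u y ^ (∑ i, Q i * m i) * ∏ i, a i y ^ (Q i).toNat := by
  have s : ∀ s : Finset ι, u y ^ (∑ i ∈ s, Q i * m i) = ∏ i ∈ s, u y ^ (Q i * m i) := fun s => by
    induction s using Finset.induction_on with
    | empty => simp
    | insert i s hi ih => rw [Finset.sum_insert hi, Finset.prod_insert hi, zpow_add₀ u0, ih]
  rw [xm, s, ← Finset.prod_mul_distrib, ← Finset.prod_mul_distrib]
  refine Finset.prod_congr rfl fun i _ => ?_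
  have a0 : a i y ≠ 0 := right_ne_zero_of_mul (e i ▸ hy i)
  rw [e i, mul_zpow, ← zpow_mul, mul_comm (m i), mul_assoc, ← zpow_natCast, ← zpow_natCast,
    ← zpow_add₀ a0]
  congr 2
  omega

end VALb

open VALb in
theorem bVAL (hO : Sb_ORD) (hK : Sb_KIT) (hF : Sb_FN) : Sb_VAL := by
  intro n M _ ι _ _ D F _ _ Φ ⟨d, z, u, hz, hu⟩
  obtain ⟨g0, g1, g2, -, hG⟩ := (hK n M ι D).2.2.2.2.2.2.2.2.2.2.2.2.1 d z hz
  obtain ⟨-, -, f1, -, f2, -, f3⟩ := (hF n M ι D F Φ).2.2.2 d z hz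
  obtain ⟨o1, -, nm, -, -, o6, -⟩ := hO n u z hu
  have gl : Gn D d z ≤ 𝓝 z := inf_le_left
  obtain ⟨v, v1, v2⟩ := exv hO hu hG (fun f => Φ.fn f d)
    (fun f g => (f1 f g).mono fun y e => ⟨e.1, e.2.1⟩) fun f f0 => by
      obtain ⟨p, q, hp, hq, q0, e⟩ := f3 f
      obtain ⟨k, a, ha, ea⟩ := o1 p hp (((e.and (f2 f)).mono fun y e => by
        rw [← e.1.2]; exact mul_ne_zero (e.2.2 f0) e.1.1).frequently.filter_mono gl)
      obtain ⟨k', b, hb, eb⟩ := o1 q hq q0
      refine ⟨k - k', a, b, ha, hb, ((e.and (gl ea)).and (gl eb)).mono fun y e u0 => ?_⟩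
      have := e.1.1.2
      rw [e.1.2, e.2] at this
      rw [zpow_sub₀ u0, zpow_natCast, zpow_natCast]
      field_simp
      linear_combination this
  choose m hm1 hm2 using fun i => exm hO hu (D.c d i)
  refine ⟨v, m, v1, hm1, hm2, fun Q f => ?_⟩
  choose a ha ea using fun i => (hm1 i).2
  have hA := np hO hu Finset.univ a (fun i => (Q i).toNat) ha
  have hB := np hO hu Finset.univ a (fun i => (-Q i).toNat) ha
  have ex := ((g1.and (gl (eventually_all.2 ea))).mono fun y e u0 =>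
    xm_eq (u := u) Q e.1.2 u0 e.2)
  rw [← neg_neg (∑ i, Q i * m i), v2]
  refine ⟨fun ⟨a', b', ha', hb', h⟩ => ⟨_, _, hm hA.1 ha', nm _ _ hB hb', ?_⟩,
    fun ⟨a', b', ha', hb', h⟩ => ⟨_, _, hm hB.1 ha', nm _ _ hA hb',
      (ex.and h).mono fun y e u0 => ?_⟩⟩
  · have e1 := (g2 _ (ex.and h)).1
    filter_upwards [e1, g1, f2 f, gl o6, gl (hm hA.1 ha'), gl (hm hB.1 hb'.1)] with y e1 e2 e3 e4
      e5 e6
    have cx : ContinuousAt (xm (D.c d) Q) y := tendsto_finsetProd _ fun i _ =>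
      ContinuousAt.zpow₀ (f := xi (D.c d) i) (by
        unfold xi
        rcases D.c d i with _ | j
        · exact continuousAt_const
        · exact (continuous_apply j).continuousAt) _
        (.inl (e2.2 i))
    refine tendsto_nhds_unique_of_frequently_eq
      ((e3.1.self_of_nhds.continuousAt.mul cx).mul e6.continuousAt) e5.continuousAt
      ((e4.and_eventually e1).mono fun x e => ?_)
    have i1 := e.2.1 e.1
    have i2 := e.2.2 e.1
    have i3 := zpow_ne_zero (∑ i, Q i * m i) e.1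
    rw [zpow_neg, ← div_eq_inv_mul, eq_div_iff i3] at i2
    simp only [Pi.mul_apply]
    linear_combination Φ.fn f d x * b' x * i1 + (∏ i, a i x ^ (Q i).toNat) * i2
  · have i1 := e.1 u0
    have i3 := zpow_ne_zero (∑ i, Q i * m i) u0
    rw [zpow_neg, ← div_eq_inv_mul, eq_div_iff i3]
    simp only [Pi.mul_apply]
    linear_combination (∏ i, a i y ^ (-Q i).toNat) * e.2 - Φ.fn f d y * b' y * i1

end Pool.Agent.Lib.NV5
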