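import Pool.Agent.Lib.NV5.Blue

/-! Project NV5, row VF: the dictionary exists. -/

open Set Filter

noncomputable section

namespace Pool.Agent.Lib.NV5

open Pool.Agent.Lib.HS32 Pool.Agent.Lib.EX Pool.Agent.Lib.EXS Pool.Agent.Lib.ZL Pool.Agent.Lib.NV2

theorem bVF (hVAL : Sb_VAL) (hSEC : Sb_SEC) (hBD : Sb_BD) (hRES : Sb_RES) (hFG : Sb_FG)
    (hDER : Sb_DER) (hFS : Sb_FS) (hCOF : Sa_COF) (hSGL : Sb_SGL) (hKIT : Sb_KIT) (hFN : Sb_FN) :
    Sb_VF := by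
  intro n M _ ι _ _ D F _ _ Φ r P t hP hk hi
  choose v m vl using hVAL n M ι D F Φ
  obtain ⟨-, k2, -, k4, k5, k6, -, -, -, -, -, -, -, k7, -⟩ := hKIT n M ι D
  obtain ⟨fg, tr⟩ := hFG n M ι D F Φ r P t hP hk hi
  let T := {p : Valuation F Zm × (ι → ℤ) // ∃ h, (v h, m h) = p}
  have pl : ∀ p : T, ∃ h, Φ.Vl h p.1.1 p.1.2 := fun ⟨_, h, e⟩ => ⟨h, e ▸ vl h⟩
  have sec : ∀ Q f, (∀ p : T, p.1.1 f ≤ WithZero.exp (∑ i, Q i * p.1.2 i)) ↔
      ∃ s, Sp D Q s ∧ Φ.ev s = f := fun Q f => by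
    rw [← hSEC n M ι D F Φ Q f]
    exact ⟨fun a h => ((vl h).reg Q f).1 (a ⟨_, h, rfl⟩),
      fun a ⟨_, h, e⟩ => e ▸ ((vl h).reg Q f).2 (a h)⟩
  have ec : ∀ c : ℂ, Φ.ev (c • un D) = algebraMap ℂ F c := fun c => by
    rw [Φ.smul c _ ⟨0, k6⟩, (hFN n M ι D F Φ).1, Algebra.algebraMap_eq_smul_one]
  have cof : ∀ x, ∀ᶠ p : T in cofinite, p.1.1 x ≤ 1 := fun x => by
    have a := hCOF n F T (Fin r × (Fin (n - 1) → Fin r)) (fun p => p.1.1)
      (fun s j => Φ.ev (t (s.2 j)) / Φ.ev (t s.1)) fg tr (fun p => by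
        obtain ⟨h, hp⟩ := pl p
        obtain ⟨i, I, b⟩ := (hRES n M ι D F Φ r P t hk hi).2 h _ _ hp
        exact ⟨(i, I), b⟩) (fun x => by
        obtain ⟨N, b⟩ := hBD n M ι D F Φ x
        exact ⟨N, fun p => (pl p).elim fun h hp => b h _ _ hp⟩) x
    have b : (Set.pi univ fun _ : ι => ({0, 1} : Set ℤ)).Finite :=
      Finite.pi fun _ => toFinite _
    refine ((a.prod b).preimage Subtype.val_injective.injOn).subset fun p hp => ?_
    obtain ⟨h, c⟩ := pl p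
    exact ⟨⟨p, rfl, not_le.1 hp⟩, fun i _ => (c.mul i).1⟩
  let V : VF n F :=
    { P := T
      v := fun p => p.1.1
      cst := fun p c => by simpa using (sec 0 _).2 ⟨_, k4 0 c _ k6, ec c⟩ p
      cof := cof
      der := fun δ => ⟨fun p => Finset.univ.sup fun q : Fin r × Fin r =>
          p.1.1 (δ (Φ.ev (t q.1) / Φ.ev (t q.2))),
        (eventually_all.2 fun q : Fin r × Fin r => cof (δ (Φ.ev (t q.1) / Φ.ev (t q.2)))).mono
          fun p a => Finset.sup_le fun q _ => a q,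
        fun p u hu => (pl p).elim fun h hp => hDER n M ι D F Φ r P t hk hi tr δ h _ _ hp _ u
          (fun i j => Finset.le_sup (f := fun q : Fin r × Fin r =>
            p.1.1 (δ (Φ.ev (t q.1) / Φ.ev (t q.2)))) (Finset.mem_univ (i, j))) hu.le⟩
      lio := fun x hx => by
        obtain ⟨s, s1, rfl⟩ := (sec 0 x).1 fun p => by simpa using hx p
        obtain ⟨c, rfl⟩ := k7 s s1
        exact ⟨c, (ec c).symm⟩
      fg := fg
      tr := tr }
  refine ⟨V, fun i p => p.1.2 i, fun h => ⟨_, h, rfl⟩, fun ⟨_, h, e⟩ => ⟨h, Subtype.ext e⟩, vl,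
    fun Q => ?_, sec, fun Q => ?_⟩
  · refine (eventually_all.2 fun a => cof (Φ.ev (t a))).mono fun p a => ?_
    obtain ⟨h, hp⟩ := pl p
    have : p.1.2 = 0 := by_contra fun c => by
      obtain ⟨b, hb⟩ := hFS n M ι D F Φ r P t hP hk hi h _ _ hp c
      exact not_le.2 hb (a b)
    simp [dv, this]
  · let U : Submodule ℂ (M.X → ℂ) :=
      { carrier := {s | Sp D Q s}
        add_mem' := fun a b => k2 Q _ _ a b
        zero_mem' := k5 Q
        smul_mem' := fun c s a => k4 Q c s a }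
    have e1 : Submodule.span ℂ {s | Sp D Q s} = U := Submodule.span_eq U
    have fd : FiniteDimensional ℂ U := e1 ▸ (hSGL n M ι D Q).1 Q
    let L : U →ₗ[ℂ] F :=
      { toFun := fun s => Φ.ev s.1
        map_add' := fun a b => Φ.add _ _ ⟨Q, a.2⟩ ⟨Q, b.2⟩
        map_smul' := fun c a => Φ.smul c _ ⟨Q, a.2⟩ }
    have e2 : Submodule.span ℂ {f | V.Sec (dv (fun i (p : T) => p.1.2 i) Q) f} =
        LinearMap.range L := by
      rw [← Submodule.span_eq (LinearMap.range L)]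
      refine congrArg _ (Set.ext fun f => (sec Q f).trans ?_)
      exact ⟨fun ⟨s, a, b⟩ => ⟨⟨s, a⟩, b⟩, fun ⟨s, b⟩ => ⟨s.1, s.2, b⟩⟩
    refine ⟨e2 ▸ inferInstance, ?_⟩
    rw [VF.h0, e2, LinearMap.finrank_range_of_inj
      ((injective_iff_map_eq_zero L).2 fun a b => Subtype.ext (Φ.inj _ ⟨Q, a.2⟩ b)), h0, e1]

end Pool.Agent.Lib.NV5
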