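import Pool.Agent.Lib.NV5.Exc5
import Pool.Agent.Lib.NV2.B_MV
import Pool.Agent.Lib.NV2.B_SEC
import Pool.Agent.Lib.EX.B_UNI

/-! Project NV5, row `VM`: the tensor of a multivector field. -/

open scoped Classical Topology ContDiff Manifold
open Set Complex Metric Filter

noncomputable section

namespace Pool.Agent.Lib.NV5

open Pool.Agent.Lib.SV (E)
open Pool.Agent.Lib.KP (HolAt)
open Pool.Agent.Lib.HS32 Pool.Agent.Lib.EX Pool.Agent.Lib.EXS Pool.Agent.Lib.ZL Pool.Agent.Lib.NV2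
open Pool.Agent.Lib.HS.BBR (mf)

theorem VMb.exp {n q : ℕ} (a : (E n →L[ℂ] ℂ) [⋀^Fin q]→ₗ[ℂ] ℂ) (c : Fin q → Fin n → ℂ)
    (ζ : Fin n → E n →L[ℂ] ℂ) : a (fun p => ∑ j, c p j • ζ j) =
      ∑ J : Fin q → Fin n, (∏ p, c p (J p)) * a fun p => ζ (J p) :=
  (a.toMultilinearMap.map_sum fun p j => c p j • ζ j).trans
    (Finset.sum_congr rfl fun J _ => a.map_smul_univ (fun p => c p (J p)) fun p => ζ (J p))

theorem bVM : Sb_VM := by
  intro n Y I _ _ _ _ _ S D q Q b hF hE hb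
  obtain ⟨s1, s2, -⟩ := bSEC EX.bUNI n Y I S D hF hE
  have e : ∀ d j, ∀ x ∈ (D.e d).source, (fun w => D.e d ((D.e d).symm w) j) =ᶠ[𝓝 (D.e d x)]
      (ContinuousLinearMap.proj j : E n →L[ℂ] ℂ) := fun d j x hx =>
    (isOpen_ball.eventually_mem (TRF.mem_B D hx)).mono fun w hw => congrFun (TRF.rinv D hw) j
  have u : ∀ d j, ∀ x ∈ (D.e d).source,
      DifferentiableAt ℂ (fun w => D.e d ((D.e d).symm w) j) (D.e d x) := fun d j x hx =>
    (ContinuousLinearMap.differentiableAt _).congr_of_eventuallyEq (e d j x hx)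
  have k : ∀ d (x : Y), x ∈ (D.e d).source → ∃ A : E n ≃L[ℂ] E n,
      (∀ h : Y → ℂ, DifferentiableAt ℂ (fun w => h ((D.e d).symm w)) (D.e d x) →
        fderiv ℂ (fun w => h ((D.e d).symm w)) (D.e d x) = (dAt n h x).comp (A : E n →L[ℂ] E n)) ∧
      ∀ ξ : E n →L[ℂ] ℂ, ξ = ∑ j, ξ (A (Pi.single j 1)) • dAt n (fun y : Y => D.e d y j) x :=
    fun d x hx => by
      obtain ⟨A, hA⟩ := K1.dAt_eq (D.mem d) hx
      refine ⟨A, hA ℂ, fun ξ => ContinuousLinearMap.ext fun v => ?_⟩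
      obtain ⟨v, rfl⟩ := A.surjective v
      have h : ∀ j, dAt n (fun y : Y => D.e d y j) x (A v) = v j := fun j =>
        (congrArg (· v) ((hA ℂ (fun y => D.e d y j) (u d j x hx)).symm.trans
          ((e d j x hx).fderiv_eq.trans (ContinuousLinearMap.fderiv _))) :)
      simp only [ContinuousLinearMap.sum_apply, ContinuousLinearMap.smul_apply, h]
      conv_lhs => rw [pi_eq_sum_univ' v]
      simp only [map_sum, map_smul, smul_eq_mul, mul_comm]
  refine ⟨fun d J => D.rd (fun x : Y => b x fun p => dAt n (fun y : Y => D.e d y (J p)) x) d,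
    fun d z hz J => (s2 Q _ d z hz).1 (hb.2 _ _ ?_), fun a d (x : Y) ha hd _ J => ?_,
    fun d z _ _ J σ => ?_, ?_⟩
  · exact ((D.e d).open_source.eventually_mem (TRF.mem_src D hz)).mono fun x hx p =>
      (K1.hol_iff0 (D.mem d) hx).2 (u d _ x hx)
  · obtain ⟨A, h1, h2⟩ := k d x hd
    have t := (TRF.holT D ha hd).self_of_nhds
    simp only [Ad.rd, (D.e a).left_inv ha, (D.e d).left_inv hd]
    rw [← VMb.exp (b x) (fun p j => D.J a d x (J p) j) fun j => dAt n (fun y : Y => D.e d y j) x]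
    refine congrArg (b x) (funext fun p => (h2 _).trans (Finset.sum_congr rfl fun j _ => ?_))
    refine congrArg (· • _) ?_
    refine (congrArg (· (Pi.single j 1))
      (h1 (fun y => D.e a y (J p)) (differentiableAt_pi.1 t _))).symm.trans ?_
    exact congrArg (· (Pi.single j 1)) (fderiv_apply t (J p))
  · exact ((b _).map_perm (fun p => dAt n (fun y : Y => D.e d y (J p)) _) σ).trans
      (by rw [Units.smul_def, zsmul_eq_mul]; rfl)
  · obtain ⟨x, hx, h0⟩ := hb.1
    obtain ⟨d, hd⟩ := MV.chart D x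
    obtain ⟨A, -, h2⟩ := k d x hd
    by_contra hn
    refine h0 (AlternatingMap.ext fun ξ => ?_)
    rw [funext fun p => h2 (ξ p), VMb.exp]
    refine Finset.sum_eq_zero fun J _ => mul_eq_zero_of_right _ (by_contra fun h => hn
      ⟨d, J, _, TRF.mem_B D hd, (s1 x).2 hx d hd, ?_⟩)
    simpa only [Ad.rd, (D.e d).left_inv hd] using h

end Pool.Agent.Lib.NV5
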