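import Pool.Agent.Lib.NV5.SDefs

/-! Project NV5: the target statement. -/

open scoped Manifold ContDiff Topology

namespace Pool.Agent.Lib.NV5

open Pool.Agent.Lib.SV Pool.Agent.Lib.HS Pool.Agent.Lib.GH Pool.Agent.Lib.EX Pool.Agent.Lib.ZL
  Pool.Agent.Lib.NV2

/-- Non-vanishing, or a fibration that contradicts abundance in smaller dimension. -/
def St_S1 : Prop := ∀ (n : ℕ) (Y I : Type) [TopologicalSpace Y] [ChartedSpace (E n) Y]
  [IsManifold 𝓘(ℂ, E n) ω Y] [CompactSpace Y] [T2Space Y] [ConnectedSpace Y] [Fintype I]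
  (G : Y → Mat n) (D : I → Set Y) (a₀ : ℕ) (e : I → ℕ) (l : I → ℤ) (η : Y → ℂ)
  (P : Polynomial ℚ), Hermitian G → (∀ y, Ord n 1 D l η y) → AmpBy n D e → Nef n G D l →
  (∀ᶠ j : ℕ in Filter.atTop, (hz n D (fun i => l i + a₀ * l i + j * e i) : ℚ) = P.eval (j : ℚ)) →
  P.eval 0 ≠ 0 → NoForm n Y →
  (∃ m, 0 < m ∧ ∃ s ∈ Pluri n Y m, s ≠ 0) ∨
    ∃ (F : Type) (_ : Field F) (_ : Algebra ℂ F) (ev : (Y → ℂ) → F) (d : ℕ) (z : Fin d → F)
      (k : IntermediateField ℂ F) (a b c : ℕ) (τ : F),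
      FieldOf n D ev ∧ 2 ≤ d ∧ d < n ∧ Fibr n D ev l e d z k a b c τ

end Pool.Agent.Lib.NV5
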