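import Pool.Agent.Lib.NV5.Alg
import Pool.Agent.Lib.NV5.Stmt
import Pool.Agent.Lib.NV2.Blue2

/-! Project NV5: the field of meromorphic functions and its orders. Objects and blueprint. -/

open scoped Classical Topology ContDiff ENNReal Manifold
open Set Complex Metric Filter

set_option linter.unusedVariables false

noncomputable section

namespace Pool.Agent.Lib.NV5

open Pool.Agent.Lib.SV (E nsq Pluri)
open Pool.Agent.Lib.GH (Hermitian)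
open Pool.Agent.Lib.HS32 Pool.Agent.Lib.EX Pool.Agent.Lib.EXS Pool.Agent.Lib.ZL Pool.Agent.Lib.NV2
open Pool.Agent.Lib.HS.BBR (mf)

section euc

variable {n : ℕ}

/-- The germ of a smooth hypersurface. -/
def Hy (u : E n → ℂ) (z : E n) : Prop := HolN u z ∧ u z = 0 ∧ fderiv ℂ u z ≠ 0

/-- Holomorphic and not identically zero on the hypersurface. -/
def Nd (u : E n → ℂ) (z : E n) (b : E n → ℂ) : Prop := HolN b z ∧ ∃ᶠ y in 𝓝 z, u y = 0 ∧ b y ≠ 0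

end euc

section defs

variable {n : ℕ} {M : Mf n} {ι : Type} [Fintype ι] [DecidableEq ι] (D : Ad M ι)

/-- The ring of meromorphic functions with poles on the divisor. -/
def Rg (s : M.X → ℂ) : Prop := ∃ Q, Sp D Q s

/-- The unit of the ring. -/
def un : M.X → ℂ := (off D).indicator 1

/-- The divisor with coefficients `Q`, as a function of the prime. -/
def dv {P : Type} (m : ι → P → ℤ) (Q : ι → ℤ) : P → ℤ := fun p => ∑ i, Q i * m i p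

/-- Generic points near `z`. -/
def Gn (d : D.A) (z : E n) : Filter (E n) :=
  𝓝 z ⊓ ⨅ t : {t // Rg D t ∧ t ≠ 0}, 𝓟 {y | D.rd t.1 d y ≠ 0}

/-- The germs of smooth hypersurfaces. -/
structure Hg where
  d : D.A
  z : E n
  u : E n → ℂ
  mem : z ∈ B2 n
  hy : Hy u z

/-- A contravariant tensor with poles at most `Q`. -/
structure Tns (q : ℕ) (Q : ι → ℤ) (b : D.A → (Fin q → Fin n) → E n → ℂ) : Prop where
  pol : D.All fun d z => ∀ I, PolH (D.c d) Q (b d I) z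
  law : D.Ov fun a d x => x ∈ off D → ∀ I,
    b a I (D.e a x) = ∑ I' : Fin q → Fin n, (∏ p, D.J a d x (I p) (I' p)) * b d I' (D.e d x)

/-- Ratios of tensors are dominated. -/
def DomH (l : ι → ℤ) (e : ι → ℕ) : Prop := ∀ (N B : ℕ) (b₁ b₂ : D.A → (Fin N → Fin n) → E n → ℂ),
  N ≤ B → Tns D N (fun i => B * l i) b₁ → Tns D N (fun i => B * l i) b₂ →
  (∃ d I, ∃ z ∈ B2 n, Off (D.c d) z ∧ b₂ d I z ≠ 0) →
  (OA D fun d z => ∀ I J, b₁ d I z * b₂ d J z = b₁ d J z * b₂ d I z) →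
  ∃ c a : ℕ, ∀ j : ℕ, ∃ w : ℕ → M.X → ℂ, w 0 ≠ 0 ∧
    (∀ i ≤ j, Sp D (fun s => j * c * l s + a * e s) (w i)) ∧
    ∀ i < j, OA D fun d z => ∀ I, D.rd (w (i + 1)) d z * b₂ d I z = D.rd (w i) d z * b₁ d I z

/-- Every holomorphic one-form is zero. -/
def NoOne : Prop := ∀ b : D.A → E n → E n →L[ℂ] ℂ, (D.All fun d z => HolN (b d) z) →
  (D.Ov fun a d x => b d (D.e d x) =
    (b a (D.e a x)).comp (fderiv ℂ (D.e a ∘ (D.e d).symm) (D.e d x))) →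
  D.All fun d z => b d z = 0

/-- The field of fractions. -/
structure FM (F : Type) [Field F] [Algebra ℂ F] where
  ev : (M.X → ℂ) → F
  add : ∀ s t, Rg D s → Rg D t → ev (s + t) = ev s + ev t
  mul : ∀ s t, Rg D s → Rg D t → ev (s * t) = ev s * ev t
  smul : ∀ (c : ℂ) s, Rg D s → ev (c • s) = c • ev s
  inj : ∀ s, Rg D s → ev s = 0 → s = 0
  frac : ∀ f, ∃ p : (M.X → ℂ) × (M.X → ℂ), Rg D p.1 ∧ Rg D p.2 ∧ p.2 ≠ 0 ∧ f = ev p.1 / ev p.2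

variable {D} {F : Type} [Field F] [Algebra ℂ F] (Φ : FM D F)

namespace FM

/-- An element of the field as a function in a chart. -/
def fn (f : F) (d : D.A) (y : E n) : ℂ :=
  D.rd (Φ.frac f).choose.1 d y / D.rd (Φ.frac f).choose.2 d y

/-- The order of `f` along the germ `h` is `k`. -/
def HO (h : Hg D) (f : F) (k : ℤ) : Prop := ∃ a b, Nd h.u h.z a ∧ Nd h.u h.z b ∧
  ∀ᶠ y in Gn D h.d h.z, h.u y ≠ 0 → Φ.fn f h.d y * b y = h.u y ^ k * a y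

/-- The poles of `f` along the germ `h` are at most `Q`. -/
def Reg (h : Hg D) (Q : ι → ℤ) (f : F) : Prop := ∃ a b, HolN a h.z ∧ Nd h.u h.z b ∧
  ∀ᶠ y in Gn D h.d h.z, Φ.fn f h.d y * xm (D.c h.d) Q y * b y = a y

/-- The valuation `v` and the multiplicities `m` belong to the germ `h`. -/
structure Vl (h : Hg D) (v : Valuation F Zm) (m : ι → ℤ) : Prop where
  ord : ∀ f ≠ 0, Φ.HO h f (-WithZero.log (v f))
  mul : ∀ i, (m i = 0 ∨ m i = 1) ∧ ∃ a, Nd h.u h.z a ∧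
    ∀ᶠ y in 𝓝 h.z, xi (D.c h.d) i y = h.u y ^ m i * a y
  cmp : ∀ i, m i = 1 → ∃ j, D.c h.d i = some j ∧ ∀ᶠ y in 𝓝 h.z, h.u y = 0 ↔ y j = 0
  reg : ∀ Q f, v f ≤ WithZero.exp (∑ i, Q i * m i) ↔ Φ.Reg h Q f

/-- The dictionary. -/
structure Br (V : VF n F) (m : ι → V.P → ℤ) (π : Hg D → V.P) : Prop where
  sur : Function.Surjective π
  vl : ∀ h, Φ.Vl h (V.v (π h)) fun i => m i (π h)
  fs : ∀ Q, V.Fs (dv m Q)
  sec : ∀ Q f, V.Sec (dv m Q) f ↔ ∃ s, Sp D Q s ∧ Φ.ev s = f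
  dim : ∀ Q, FiniteDimensional ℂ (Submodule.span ℂ {f | V.Sec (dv m Q) f}) ∧
    V.h0 (dv m Q) = h0 D Q

end FM

end defs

/-! ### Rows in coordinates -/

/-- Division by the equation of a hypersurface. -/
def Sb_ORD : Prop := ∀ (n : ℕ) (u : E n → ℂ) (z : E n), Hy u z →
  (∀ g, HolN g z → (∃ᶠ y in 𝓝 z, g y ≠ 0) →
    ∃ (k : ℕ) (a : E n → ℂ), Nd u z a ∧ ∀ᶠ y in 𝓝 z, g y = u y ^ k * a y) ∧
  (∀ g, HolN g z → ¬ Nd u z g → ∃ a, HolN a z ∧ ∀ᶠ y in 𝓝 z, g y = u y * a y) ∧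
  (∀ a b, Nd u z a → Nd u z b → Nd u z (a * b)) ∧
  (∀ a, HolN a z → a z ≠ 0 → Nd u z a) ∧
  (∀ a, Nd u z a → ∀ᶠ y in 𝓝 z, u y = 0 → Hy u y ∧ Nd u y a) ∧
  (∀ᶠ y in 𝓝 z, ∃ᶠ y' in 𝓝 y, u y' ≠ 0) ∧
  ∀ (k k' : ℤ) (a a' : E n → ℂ), Nd u z a → HolN a' z →
    (∀ᶠ y in 𝓝 z, u y ≠ 0 → u y ^ k * a y = u y ^ k' * a' y) → k' ≤ k

/-- The test along hypersurfaces: a quotient without pole along any germ of a smooth hypersurface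
is holomorphic. -/
def Sb_HT : Prop := ∀ (n : ℕ) (p q : E n → ℂ) (z : E n), HolN p z → HolN q z →
  (∃ᶠ y in 𝓝 z, q y ≠ 0) →
  (∀ᶠ y in 𝓝 z, ∀ u, Hy u y → ∃ a b, HolN a y ∧ Nd u y b ∧ ∀ᶠ x in 𝓝 y, p x * b x = a x * q x) →
  ∃ g, HolN g z ∧ ∀ᶠ y in 𝓝 z, p y = g y * q y

/-- Orders are locally bounded. -/
def Sb_BD0 : Prop := ∀ (n : ℕ) (g : E n → ℂ) (z : E n), HolN g z → (∃ᶠ y in 𝓝 z, g y ≠ 0) →
  ∃ N : ℕ, ∀ᶠ y in 𝓝 z, ∀ (u a : E n → ℂ) (k : ℕ), HolN u y → u y = 0 → HolN a y →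
    (∀ᶠ x in 𝓝 y, g x = u x ^ k * a x) → k ≤ N

/-- Polynomials in independent functions. -/
def Sb_IND0 : Prop := ∀ (n : ℕ) (z : E n),
  (∀ x : E n → E n, HolN x z → Function.Injective (fderiv ℂ x z) →
    ∀ Q : MvPolynomial (Fin n) ℂ, Q ≠ 0 → ∃ᶠ y in 𝓝 z, MvPolynomial.eval (x y) Q ≠ 0) ∧
  (∀ (u : E n → ℂ) (x : E n → E (n - 1)), Hy u z → HolN x z →
    (∀ v, fderiv ℂ u z v = 0 → fderiv ℂ x z v = 0 → v = 0) →
    ∀ Q : MvPolynomial (Fin (n - 1)) ℂ, Q ≠ 0 → Nd u z fun y => MvPolynomial.eval (x y) Q) ∧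
  ∀ (r : ℕ) (T : E n → Fin r → ℂ), HolN T z →
    (∀ (c : ℂ) (v : E n), c • T z + fderiv ℂ T z v = 0 → c = 0 ∧ v = 0) → ∃ i₀, T z i₀ ≠ 0 ∧
      (∃ I : Fin n → Fin r, Function.Injective (fderiv ℂ (fun y j => T y (I j) / T y i₀) z)) ∧
      ∀ u, Hy u z → ∃ I : Fin (n - 1) → Fin r, ∀ v, fderiv ℂ u z v = 0 →
        fderiv ℂ (fun y j => T y (I j) / T y i₀) z v = 0 → v = 0

/-! ### Rows on the manifold -/

/-- The ring and the generic filter. -/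
def Sb_KIT : Prop := ∀ (n : ℕ) (M : Mf n) [M.Cpt] (ι : Type) [Fintype ι] [DecidableEq ι]
  (D : Ad M ι),
  (∀ P Q s, P ≤ Q → Sp D P s → Sp D Q s) ∧ (∀ P s t, Sp D P s → Sp D P t → Sp D P (s + t)) ∧
  (∀ P Q s t, Sp D P s → Sp D Q t → Sp D (P + Q) (s * t)) ∧
  (∀ P (c : ℂ) s, Sp D P s → Sp D P (c • s)) ∧ (∀ P, Sp D P 0) ∧ Sp D 0 (un D) ∧ un D ≠ 0 ∧
  (∀ s, Rg D s → un D * s = s) ∧
  (∀ s t, Rg D s → Rg D t → Rg D (s + t) ∧ Rg D (s * t) ∧ (s * t = 0 → s = 0 ∨ t = 0)) ∧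
  (∀ s, Rg D s → s ≠ 0 → D.All fun d z => ∃ᶠ y in 𝓝 z, D.rd s d y ≠ 0) ∧
  (∀ s, Rg D s → D.All fun d z => (D.rd s d z ≠ 0 → Off (D.c d) z) ∧
    (Off (D.c d) z → HolN (D.rd s d) z)) ∧
  (D.All fun d z => ∀ p : E n → Prop, (∀ᶠ y in Gn D d z, p y) ↔
    ∃ t, Rg D t ∧ t ≠ 0 ∧ ∀ᶠ y in 𝓝 z, D.rd t d y ≠ 0 → p y) ∧
  (D.All fun d z => (Gn D d z).NeBot ∧ (∀ᶠ y in Gn D d z, y ∈ B2 n ∧ Off (D.c d) y) ∧
    (∀ p : E n → Prop, (∀ᶠ y in Gn D d z, p y) → (∀ᶠ y in Gn D d z, ∀ᶠ x in 𝓝 y, p x) ∧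
      ∀ᶠ y in 𝓝 z, ∀ᶠ x in Gn D d y, p x) ∧
    (∀ g : E n → ℂ, HolN g z → (∃ᶠ y in 𝓝 z, g y ≠ 0) → ∃ᶠ y in Gn D d z, g y ≠ 0) ∧
    ∀ f g : E n → ℂ, HolN f z → HolN g z → (∀ᶠ y in Gn D d z, f y = g y) → f =ᶠ[𝓝 z] g) ∧
  (∀ s, Sp D 0 s → ∃ c : ℂ, s = c • un D) ∧
  ∀ P s, Sp D P s → D.All fun d z => HolN (val (D.c d) P (D.rd s d)) z ∧
    (Off (D.c d) z → D.rd s d z = xm (D.c d) (-P) z * val (D.c d) P (D.rd s d) z)

/-- The field exists. -/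
def Sb_FLD : Prop := ∀ (n : ℕ) (M : Mf n) [M.Cpt] (ι : Type) [Fintype ι] [DecidableEq ι]
  (D : Ad M ι), ∃ (F : Type) (_ : Field F) (_ : Algebra ℂ F), Nonempty (FM D F)

/-- Elements of the field as functions. -/
def Sb_FN : Prop := ∀ (n : ℕ) (M : Mf n) [M.Cpt] (ι : Type) [Fintype ι] [DecidableEq ι]
  (D : Ad M ι) (F : Type) [Field F] [Algebra ℂ F] (Φ : FM D F), Φ.ev (un D) = 1 ∧ Φ.ev 0 = 0 ∧
  (∀ s t, Rg D s → Rg D t → Φ.ev s = Φ.ev t → s = t) ∧ D.All fun d z =>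
    (∀ s t, Rg D s → Rg D t → t ≠ 0 →
      ∀ᶠ y in Gn D d z, Φ.fn (Φ.ev s / Φ.ev t) d y = D.rd s d y / D.rd t d y) ∧
    (∀ s, Rg D s → ∀ᶠ y in Gn D d z, Φ.fn (Φ.ev s) d y = D.rd s d y) ∧
    (∀ f g, ∀ᶠ y in Gn D d z, Φ.fn (f + g) d y = Φ.fn f d y + Φ.fn g d y ∧
      Φ.fn (f * g) d y = Φ.fn f d y * Φ.fn g d y ∧ Φ.fn (f / g) d y = Φ.fn f d y / Φ.fn g d y) ∧
    (∀ c : ℂ, ∀ᶠ y in Gn D d z, Φ.fn (algebraMap ℂ F c) d y = c) ∧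
    (∀ f, ∀ᶠ y in Gn D d z, HolN (Φ.fn f d) y ∧ (f ≠ 0 → Φ.fn f d y ≠ 0)) ∧
    (∀ (κ : Type) [Fintype κ] (x : κ → F) (Q : MvPolynomial κ ℂ), ∀ᶠ y in Gn D d z,
      Φ.fn (MvPolynomial.aeval x Q) d y = MvPolynomial.eval (fun i => Φ.fn (x i) d y) Q) ∧
    ∀ f, ∃ p q : E n → ℂ, HolN p z ∧ HolN q z ∧ (∃ᶠ y in 𝓝 z, q y ≠ 0) ∧
      ∀ᶠ y in Gn D d z, q y ≠ 0 ∧ Φ.fn f d y * q y = p y

/-- The valuation of a germ. -/
def Sb_VAL : Prop := ∀ (n : ℕ) (M : Mf n) [M.Cpt] (ι : Type) [Fintype ι] [DecidableEq ι]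
  (D : Ad M ι) (F : Type) [Field F] [Algebra ℂ F] (Φ : FM D F) (h : Hg D), ∃ v m, Φ.Vl h v m

/-- Sections are detected by the valuations. -/
def Sb_SEC : Prop := ∀ (n : ℕ) (M : Mf n) [M.Cpt] (ι : Type) [Fintype ι] [DecidableEq ι]
  (D : Ad M ι) (F : Type) [Field F] [Algebra ℂ F] (Φ : FM D F) (Q : ι → ℤ) (f : F),
  (∀ h, Φ.Reg h Q f) ↔ ∃ s, Sp D Q s ∧ Φ.ev s = f

/-- Orders are bounded. -/
def Sb_BD : Prop := ∀ (n : ℕ) (M : Mf n) [M.Cpt] (ι : Type) [Fintype ι] [DecidableEq ι]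
  (D : Ad M ι) (F : Type) [Field F] [Algebra ℂ F] (Φ : FM D F) (f : F), ∃ N : ℤ,
    ∀ h v m, Φ.Vl h v m → v f ≤ WithZero.exp N

/-- The projective coordinates: residues and a transcendence basis. -/
def Sb_RES : Prop := ∀ (n : ℕ) (M : Mf n) [M.Cpt] (ι : Type) [Fintype ι] [DecidableEq ι]
  (D : Ad M ι) (F : Type) [Field F] [Algebra ℂ F] (Φ : FM D F) (r : ℕ) (P : ι → ℤ)
  (t : Fin r → M.X → ℂ), Kd D P t → Imm D P t →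
  (D.All fun d z => ∃ (i₀ : Fin r) (I : Fin n → Fin r) (x : E n → E n), t i₀ ≠ 0 ∧ HolN x z ∧
    Function.Injective (fderiv ℂ x z) ∧
    (∀ᶠ y in Gn D d z, ∀ j, Φ.fn (Φ.ev (t (I j)) / Φ.ev (t i₀)) d y = x y j) ∧
    AlgebraicIndependent ℂ fun j => Φ.ev (t (I j)) / Φ.ev (t i₀)) ∧
  ∀ h v m, Φ.Vl h v m → ∃ (i₀ : Fin r) (I : Fin (n - 1) → Fin r),
    ∀ Q : MvPolynomial (Fin (n - 1)) ℂ, Q ≠ 0 →
      v (MvPolynomial.aeval (fun j => Φ.ev (t (I j)) / Φ.ev (t i₀)) Q) = 1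

/-- The lemma of Siegel. -/
def Sb_SGL : Prop := ∀ (n : ℕ) (M : Mf n) [M.Cpt] (ι : Type) [Fintype ι] [DecidableEq ι]
  (D : Ad M ι) (P : ι → ℤ), (∀ Q, FiniteDimensional ℂ (Submodule.span ℂ {s | Sp D Q s})) ∧
  ∃ C : ℕ, ∀ j : ℕ, h0 D (fun i => j * P i) ≤ C * (j + 1) ^ n

/-- The field is finitely generated. -/
def Sb_FG : Prop := ∀ (n : ℕ) (M : Mf n) [M.Cpt] (ι : Type) [Fintype ι] [DecidableEq ι]
  (D : Ad M ι) (F : Type) [Field F] [Algebra ℂ F] (Φ : FM D F) (r : ℕ) (P : ι → ℤ)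
  (t : Fin r → M.X → ℂ), (∀ i, 0 < P i) → Kd D P t → Imm D P t →
  (⊤ : IntermediateField ℂ F).FG ∧ Algebra.trdeg ℂ F = n

/-- The chain rule for derivations. -/
def Sb_CH : Prop := ∀ (n : ℕ) (M : Mf n) [M.Cpt] (ι : Type) [Fintype ι] [DecidableEq ι]
  (D : Ad M ι) (F : Type) [Field F] [Algebra ℂ F] (Φ : FM D F) (ξ : Fin n → F)
  (δ : Derivation ℂ F F) (f : F), IsTranscendenceBasis ℂ ξ → D.All fun d z =>
    ∀ᶠ y in Gn D d z, ∀ v : E n, (∀ j, fderiv ℂ (Φ.fn (ξ j) d) y v = Φ.fn (δ (ξ j)) d y) →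
      fderiv ℂ (Φ.fn f d) y v = Φ.fn (δ f) d y

/-- Derivatives of units. -/
def Sb_DER : Prop := ∀ (n : ℕ) (M : Mf n) [M.Cpt] (ι : Type) [Fintype ι] [DecidableEq ι]
  (D : Ad M ι) (F : Type) [Field F] [Algebra ℂ F] (Φ : FM D F) (r : ℕ) (P : ι → ℤ)
  (t : Fin r → M.X → ℂ), Kd D P t → Imm D P t → Algebra.trdeg ℂ F = n →
  ∀ (δ : Derivation ℂ F F) h v m, Φ.Vl h v m → ∀ (B : Zm) (f : F),
    (∀ i j, v (δ (Φ.ev (t i) / Φ.ev (t j))) ≤ B) → v f ≤ 1 → v (δ f) ≤ B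

/-- Only finitely many valuations lie on the divisor. -/
def Sb_FS : Prop := ∀ (n : ℕ) (M : Mf n) [M.Cpt] (ι : Type) [Fintype ι] [DecidableEq ι]
  (D : Ad M ι) (F : Type) [Field F] [Algebra ℂ F] (Φ : FM D F) (r : ℕ) (P : ι → ℤ)
  (t : Fin r → M.X → ℂ), (∀ i, 0 < P i) → Kd D P t → Imm D P t →
  ∀ h v m, Φ.Vl h v m → m ≠ 0 → ∃ a, 1 < v (Φ.ev (t a))

/-- The dictionary exists. -/
def Sb_VF : Prop := ∀ (n : ℕ) (M : Mf n) [M.Cpt] (ι : Type) [Fintype ι] [DecidableEq ι]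
  (D : Ad M ι) (F : Type) [Field F] [Algebra ℂ F] (Φ : FM D F) (r : ℕ) (P : ι → ℤ)
  (t : Fin r → M.X → ℂ), (∀ i, 0 < P i) → Kd D P t → Imm D P t →
  ∃ (V : VF n F) (m : ι → V.P → ℤ) (π : Hg D → V.P), Φ.Br V m π

/-- One-forms. -/
def Sb_Q0 : Prop := ∀ (n : ℕ) (M : Mf n) [M.Cpt] (ι : Type) [Fintype ι] [DecidableEq ι]
  (D : Ad M ι) (F : Type) [Field F] [Algebra ℂ F] (Φ : FM D F) (V : VF n F) (m : ι → V.P → ℤ)
  (π : Hg D → V.P), Φ.Br V m π → NoOne D → V.Q0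

/-- Operations on tensors: products, determinants, evaluation on differentials. -/
def Sb_TNS : Prop := ∀ (n : ℕ) (M : Mf n) [M.Cpt] (ι : Type) [Fintype ι] [DecidableEq ι]
  (D : Ad M ι),
  (∀ q q' P Q b b', Tns D q P b → Tns D q' Q b' → Tns D (q + q') (P + Q)
    fun d I z => b d (fun p => I (Fin.castAdd q' p)) z * b' d (fun p => I (Fin.natAdd q p)) z) ∧
  (∀ (q r : ℕ) (Q : Fin r → ι → ℤ) (b : Fin r → D.A → (Fin q → Fin n) → E n → ℂ),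
    (∀ a, Tns D q (Q a) (b a)) → Tns D (r * q) (∑ a, Q a) fun d I z =>
      (Matrix.of fun a a' : Fin r => b a d (fun p => I (finProdFinEquiv (a', p))) z).det) ∧
  ∀ (P : ι → ℤ) (q : ℕ) (x : Fin q → M.X → ℂ), (∀ p, Sp D P (x p)) → ∃ R : ι → ℤ,
    ∀ Q b, Tns D q Q b → ∃ s, Sp D (Q + R) s ∧ OA D fun d z => D.rd s d z =
      ∑ I : Fin q → Fin n, b d I z * ∏ p, fderiv ℂ (D.rd (x p) d) z (Pi.single (I p) 1)

/-- The rule of Cramer: infinitely many proportional tensors. -/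
def Sb_CRM : Prop := ∀ (n : ℕ) (M : Mf n) [M.Cpt] (ι : Type) [Fintype ι] [DecidableEq ι]
  (D : Ad M ι) (l : ι → ℤ) (q : ℕ), {a : ℕ | ∃ b, Ten D q (fun i => a * l i) b}.Infinite →
  ∃ (N c : ℕ) (S : Set ℕ) (σ : ℕ → D.A → (Fin N → Fin n) → E n → ℂ), S.Infinite ∧
    (∀ k ∈ S, N ≤ k + c ∧ Tns D N (fun i => (k + c : ℕ) * l i) (σ k) ∧
      ∃ d I, ∃ z ∈ B2 n, Off (D.c d) z ∧ σ k d I z ≠ 0) ∧
    ∀ k ∈ S, ∀ k' ∈ S, OA D fun d z => ∀ I J, σ k d I z * σ k' d J z = σ k d J z * σ k' d I z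

/-- The input of the algebraic theorem. -/
def Sb_INP : Prop := ∀ (n : ℕ) (M : Mf n) [M.Cpt] (ι : Type) [Fintype ι] [DecidableEq ι]
  (D : Ad M ι) (F : Type) [Field F] [Algebra ℂ F] (Φ : FM D F) (V : VF n F) (m : ι → V.P → ℤ)
  (π : Hg D → V.P) (r : ℕ) (e : ι → ℕ) (t : Fin r → M.X → ℂ) (l : ι → ℤ) (q : ℕ),
  (∀ i, 0 < e i) → Kd D (fun i => e i) t → Imm D (fun i => e i) t → Φ.Br V m π → DomH D l e →
  {a : ℕ | ∃ b, Ten D q (fun i => a * l i) b}.Infinite →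
  ∃ Q S f, V.Inp (dv m l) (dv m fun i => e i) (dv m Q) S f

/-- The theorem on the manifold layer. -/
def Sb_CORE : Prop := ∀ (n : ℕ) (M : Mf n) [M.Cpt] (ι : Type) [Fintype ι] [DecidableEq ι]
  (D : Ad M ι) (r : ℕ) (e : ι → ℕ) (t : Fin r → M.X → ℂ) (l : ι → ℤ) (q : ℕ),
  (∀ i, 0 < e i) → Kd D (fun i => e i) t → Imm D (fun i => e i) t → DomH D l e → NoOne D →
  {a : ℕ | ∃ b, Ten D q (fun i => a * l i) b}.Infinite →
  (∃ m : ℕ, 0 < m ∧ ∃ s ≠ 0, Sp D (fun i => m * l i) s) ∨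
    ∃ (F : Type) (_ : Field F) (_ : Algebra ℂ F) (Φ : FM D F) (V : VF n F) (m : ι → V.P → ℤ)
      (π : Hg D → V.P) (Q : ι → ℤ) (d : ℕ) (z : Fin d → F) (k : IntermediateField ℂ F)
      (a c b : ℕ) (τ : F), Φ.Br V m π ∧ 2 ≤ d ∧ d < n ∧
      V.Pre (dv m l) (dv m fun i => e i) (dv m Q) d z k a c b τ ∧ V.One (dv m l) k ∧
      V.Unb (dv m l) (dv m fun i => e i) k a b τ ∧ V.Gr (dv m l) (dv m fun i => e i) d

/-- The ample divisor in the language of local equations. -/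
def Sb_AM : Prop := ∀ (n : ℕ) (M : Mf n) [M.Cpt] (ι : Type) [Fintype ι] [DecidableEq ι]
  (D : Ad M ι) (r : ℕ) (e : ι → ℕ) (t : Fin r → M.X → ℂ), (∀ i, 0 < e i) →
  Kd D (fun i => e i) t → Imm D (fun i => e i) t →
  ∃ A : Am D, A.e = e ∧ ∀ x, nsq (A.τ x) = nsq (t · x)

/-! ### The outer layer -/

/-- One-forms in the two languages. -/
def Sb_ONE : Prop := ∀ (n : ℕ) (Y I : Type) [TopologicalSpace Y] [ChartedSpace (E n) Y]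
  [IsManifold 𝓘(ℂ, E n) ω Y] [Fintype I] [DecidableEq I] (D : Ad (mf n Y) I),
  NoForm n Y → NoOne D

/-- Pluricanonical forms in the two languages. -/
def Sb_PLU : Prop := ∀ (n : ℕ) (Y I : Type) [TopologicalSpace Y] [ChartedSpace (E n) Y]
  [IsManifold 𝓘(ℂ, E n) ω Y] [Fintype I] (S : I → Set Y) (l : I → ℤ) (η s : Y → ℂ) (m : ℕ),
  (∀ y, Ord n 1 S l η y) → Sec n S (fun i => m * l i) s → s ≠ 0 → ∃ s' ∈ Pluri n Y m, s' ≠ 0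

/-- Sections over the generic fibre in the two languages. -/
def Sb_GS : Prop := ∀ (n : ℕ) (Y I : Type) [TopologicalSpace Y] [ChartedSpace (E n) Y]
  [IsManifold 𝓘(ℂ, E n) ω Y] [CompactSpace Y] [T2Space Y] [ConnectedSpace Y] [(mf n Y).Cpt]
  [Fintype I] [DecidableEq I] (S : I → Set Y) (D : Ad (mf n Y) I) (F : Type) [Field F]
  [Algebra ℂ F] (Φ : FM D F) (V : VF n F) (m : I → V.P → ℤ) (π : Hg D → V.P), D.Fit S →
  (∀ y, ∃ h, Eqs n S y h) → Φ.Br V m π → FieldOf n S Φ.ev ∧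
    ∀ (k : IntermediateField ℂ F) (Q : I → ℤ) (f : F), GSec n S Φ.ev k Q f ↔ V.GS k (dv m Q) f

end Pool.Agent.Lib.NV5
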