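import Pool.Agent.Lib.NV5.DomBlue

/-! Project NV5, block DOM, row NEF: the canonical class is nef on the manifold layer. -/

open scoped Classical Topology ContDiff ENNReal ComplexOrder Matrix
open Set MeasureTheory Complex Metric Filter

set_option linter.unusedSectionVars false

noncomputable section

namespace Pool.Agent.Lib.DM

open Pool.Agent.Lib.SV (E nsq)
open Pool.Agent.Lib.HS32 Pool.Agent.Lib.EX Pool.Agent.Lib.EXS Pool.Agent.Lib.ZL
open Pool.Agent.Lib.EXS.K32

namespace NEF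

variable {n : ℕ} {M : Mf n} {ι : Type} [Fintype ι] [DecidableEq ι] {D : Ad M ι}

theorem nsq_smul {κ : Type} [Fintype κ] (c : ℂ) (v : κ → ℂ) : nsq (c • v) = normSq c * nsq v := by
  simp [nsq, Finset.mul_sum]

theorem xm_nat (c : ι → Option (Fin n)) (j : ℕ) (l : ι → ℤ) (z : E n) :
    xm c (fun i => j * l i) z = xm c l z ^ j := by
  rw [xm, xm, ← Finset.prod_pow]
  exact Finset.prod_congr rfl fun i _ => by rw [mul_comm, zpow_mul, zpow_natCast]

theorem det_cj (T J : Mat n) : (Jᴴ * T * J).det.re = normSq J.det * T.det.re := by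
  rw [Matrix.det_mul, Matrix.det_mul, Matrix.det_conjTranspose, mul_right_comm, star_def,
    ← Complex.normSq_eq_conj_mul_self, Complex.re_ofReal_mul]

theorem det_pos {T : Mat n} (h : T.PosDef) : 0 < T.det.re := (Complex.pos_iff.1 h.det_pos).1

/-- The density of the meromorphic form does not depend on the chart. -/
theorem den (X : Cx D) {H : M.Fam (Mat n)} (hC : Can D X.l X.w) (hH : M.Met H) {b d : D.A}
    {x : M.X} (hb : x ∈ (D.e b).source) (hd : x ∈ (D.e d).source) :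
    normSq (X.w d (D.e d x) * xm (D.c d) X.l (D.e d x)) / (H (D.e d) (D.e d x)).det.re =
      normSq (X.w b (D.e b x) * xm (D.c b) X.l (D.e b x)) / (H (D.e b) (D.e b x)).det.re := by
  have hJ : normSq (M.J (D.e b) (D.e d) x).det ≠ 0 :=
    (normSq_pos.2 ((mTR n M).2.1 _ (D.mem b) _ (D.mem d) x hb hd).2.1).ne'
  have e : xm (D.c b) X.l (D.e b x) = D.um X.l b d x * xm (D.c d) X.l (D.e d x) := by
    simp only [xm, Ad.um, D.urel b d _ x hb hd, mul_zpow, Finset.prod_mul_distrib]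
  rw [hH.cmp _ (D.mem b) _ (D.mem d) x hb hd, det_cj, hC b d x hb hd, e, Ad.J,
    ← mul_div_mul_left _ (H (D.e b) (D.e b x)).det.re hJ]
  simp only [map_mul]
  ring

end NEF

open NEF in
theorem dNEF (hUPB : ZL.St_UPB) : St_NEF := by
  intro n M _ ι _ _ D X A H c hC hF hG ε hε
  obtain ⟨j, hj⟩ := exists_nat_gt (c / ε)
  have j0 : (0 : ℝ) < j := lt_of_le_of_lt (by positivity) hj
  have jc : 0 < ε - c / j := by
    rw [sub_pos, div_lt_iff₀ j0, mul_comm]
    exact (div_lt_iff₀ hε).1 hj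
  obtain ⟨r, G, hM, hg⟩ := hG j
  generalize hP : (fun i => j * X.l i + c * A.e i : ι → ℤ) = P at hM hg
  have hH := hF.1.toMet
  let S : D.A → E n → Fin r → ℂ := fun d z a => val (D.c d) P (D.rd (G a) d) z
  have hv := fun d a => (hUPB n M ι D P).2.2.2.2.2.1 (D.c d) (D.rd (G a) d) (hM a d)
  have Sh : D.All fun d z => HolN (S d) z := fun d z hz =>
    (isOpen_ball.eventually_mem hz).mono fun y hy => differentiableAt_pi.2 fun a =>
      (hv d a).1.differentiableAt (isOpen_ball.mem_nhds hy)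
  have Sn : D.All fun d z => S d z ≠ 0 := fun d z hz => by
    obtain ⟨a, s, s1, s2, s3⟩ := hg d z hz
    refine Function.ne_iff.2 ⟨a, ?_⟩
    have e : S d z a = s z := tendsto_nhds_unique_of_frequently_eq
      (hol_apply (Sh d z hz) a).self_of_nhds.continuousAt s1.self_of_nhds.continuousAt
      (((MON.off_freq (D.c d) z).and_eventually (s3.and (isOpen_ball.mem_nhds hz))).mono
        fun y hy => by
          show val (D.c d) P (D.rd (G a) d) y = s y
          rw [(hv d a).2 y hy.2.2 hy.1, hy.2.1 hy.1, MON.xm_neg,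
            mul_inv_cancel_left₀ (MON.xm_ne P hy.1)])
    rwa [e]
  have wh : D.All fun d z => HolN (X.w d) z := fun d z hz =>
    (isOpen_ball.eventually_mem hz).mono fun y hy => X.whol d y hy
  have Hp : D.All fun d z => (H (D.e d) z).PosDef := fun d z hz =>
    hH.pos _ (D.mem d) z (GLU.mem_tgt d hz)
  have Hs : D.All fun d z => ContDiffAt ℝ ∞ (fun y => Real.log (H (D.e d) y).det.re) z :=
    fun d z hz => ((mCOF n _ z (hH.sm _ (D.mem d) z (GLU.mem_tgt d hz))).2.2.2.2.2
      ((isOpen_ball.eventually_mem hz).mono fun y hy => Hp d y hy)).2.1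
  let V : D.A → E n → ℝ := fun d z => (j : ℝ)⁻¹ * Real.log (nsq (S d z)) +
    Real.log (normSq (X.w d z))
  let W : D.A → E n → ℝ := fun d z => V d z - c / j * Real.log (nsq (A.t d z)) -
    Real.log (H (D.e d) z).det.re
  have ts := fun d z hz => lv_lg (A.thol d z hz).1 (A.thol d z hz).2.1
  have Vs : D.All fun d z => ContDiffAt ℝ ∞ (V d) z := fun d z hz =>
    (contDiffAt_const.mul (lv_lg (Sh d z hz) (Sn d z hz)).1).add
      (lv_log (wh d z hz) (X.wne d z hz)).1
  have Ws : D.All fun d z => ContDiffAt ℝ ∞ (W d) z := fun d z hz =>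
    ((Vs d z hz).sub (contDiffAt_const.mul (ts d z hz).1)).sub (Hs d z hz)
  choose ch hch using GLU.ex_ch D
  let f : M.X → ℝ := fun x => (j : ℝ)⁻¹ * Real.log (nsq fun a => G a x) -
    c / j * Real.log (nsq (A.τ x)) + Real.log (normSq (X.w (ch x) (D.e (ch x) x) *
      xm (D.c (ch x)) X.l (D.e (ch x) x)) / (H (D.e (ch x)) (D.e (ch x) x)).det.re)
  have fW : ∀ d, ∀ z ∈ B2 n, Off (D.c d) z → D.rd f d z = W d z := fun d z hz ho => by
    have e1 := den X hC hH (GLU.mem_src d hz) (hch _)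
    rw [GLU.rinv d hz] at e1
    have e2 : S d z = xm (D.c d) P z • fun a => G a ((D.e d).symm z) :=
      funext fun a => (hv d a).2 z hz ho
    have e3 : A.τ ((D.e d).symm z) = xm (D.c d) (-fun i => (A.e i : ℤ)) z • A.t d z :=
      (A.thol d z hz).2.2 ho
    have e4 : xm (D.c d) P z = xm (D.c d) X.l z ^ j * xm (D.c d) (fun i => (A.e i : ℤ)) z ^ c := by
      rw [← xm_nat, ← xm_nat, ← MON.xm_add _ _ ho, ← hP]
      rfl
    have g0 : 0 < nsq fun a => G a ((D.e d).symm z) := nsq_pos fun h => Sn d z hz (by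
      rw [e2, h, smul_zero])
    have n1 := (normSq_pos.2 (MON.xm_ne X.l ho)).ne'
    have n2 := (normSq_pos.2 (MON.xm_ne (fun i => (A.e i : ℤ)) ho)).ne'
    have n3 := (normSq_pos.2 (X.wne d z hz)).ne'
    have n4 := (det_pos (Hp d z hz)).ne'
    have n5 := (nsq_pos (A.thol d z hz).2.1).ne'
    simp only [Ad.rd, f, W, V]
    rw [e1, e2, e3, nsq_smul, nsq_smul, e4, MON.xm_neg]
    simp only [map_mul, map_pow, map_inv₀]
    rw [Real.log_mul (mul_ne_zero (pow_ne_zero _ n1) (pow_ne_zero _ n2)) g0.ne',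
      Real.log_mul (pow_ne_zero _ n1) (pow_ne_zero _ n2), Real.log_pow, Real.log_pow,
      Real.log_mul (inv_ne_zero n2) n5, Real.log_inv, Real.log_div (mul_ne_zero n3 n1) n4,
      Real.log_mul n3 n1]
    field_simp
    ring
  have gW : D.All fun d z => D.rd (glu D f) d =ᶠ[𝓝 z] W d := fun d z hz =>
    bGLU n M ι D ℝ f d (W d) z hz
      ((isOpen_ball.eventually_mem hz).mono fun y hy => (Ws d y hy).continuousAt)
      ((isOpen_ball.eventually_mem hz).mono fun y hy => fW d y hy)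
  have hS : M.Sub (range D.e) :=
    ⟨by rintro _ ⟨d, rfl⟩; exact D.mem d, fun x => ⟨_, ⟨ch x, rfl⟩, hch x⟩⟩
  have sm : M.Sm (glu D f) := (mSUB n M _ hS).2.1 ℝ _ (by
    rintro _ ⟨d, rfl⟩ z hz
    rw [D.tgt d] at hz
    exact (Ws d z hz).congr_of_eventuallyEq (gW d z hz))
  refine ⟨glu D f, sm, ((mSUB n M _ hS).1 _ (((hH.toTen.smul ε).sub
    ((mHES n M).2.2.2.2.2.2.2.2.1 H hH).toTen).add ((mHES n M).1 _ sm).toTen)).2.1 ?_⟩
  rintro _ ⟨d, rfl⟩ z hz
  rw [D.tgt d] at hz
  have c1 := cd_ofReal (ts d z hz).1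
  have c2 := cd_ofReal (Vs d z hz)
  have c3 : ContDiffAt ℝ ∞ (ld (H (D.e d))) z := cd_ofReal (Hs d z hz)
  have e1 : M.hs (glu D f) (D.e d) z = hess (fun y => (V d y : ℂ)) z - (c / j : ℝ) • H (D.e d) z -
      hess (ld (H (D.e d))) z := by
    have : M.lc (glu D f) (D.e d) =ᶠ[𝓝 z] fun y => (V d y : ℂ) -
        ((c / j : ℝ) : ℂ) * (Real.log (nsq (A.t d y)) : ℝ) - ld (H (D.e d)) y :=
      (gW d z hz).mono fun y hy => by
        show ((D.rd (glu D f) d y : ℝ) : ℂ) = _
        rw [hy]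
        simp only [W, ld, ofReal_sub, ofReal_mul]
    rw [Mf.hs, hess_congr this, hess_sub (c2.sub (contDiffAt_const.mul c1)) c3,
      hess_sub c2 (contDiffAt_const.mul c1), hess_const_mul _ c1, ← hF.2 d z hz]
    rfl
  have e2 : (ε • H - M.ric H + M.hs (glu D f)) (D.e d) z =
      (ε - c / j) • H (D.e d) z + hess (fun y => (V d y : ℂ)) z := by
    simp only [Pi.add_apply, Pi.sub_apply, Pi.smul_apply, Mf.ric, e1, sub_smul]
    abel
  rw [e2]
  refine ((Hp d z hz).smul jc).add_posSemidef (psd_of_lv (Vs d z hz) fun v => ?_)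
  obtain ⟨a1, a2⟩ := lv_lg (Sh d z hz) (Sn d z hz)
  obtain ⟨b1, b2⟩ := lv_log (wh d z hz) (X.wne d z hz)
  rw [lv_add (contDiffAt_const.mul a1) b1, lv_mul a1, b2, add_zero]
  exact mul_nonneg (by positivity) (a2 v).1

end Pool.Agent.Lib.DM
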