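import Pool.Agent.Lib.NV5.B_S1
import Pool.Agent.Lib.NV5.A_LOW

/-! Project NV5: the exceptional fibration as the only remaining case. -/

open scoped Classical Topology ContDiff ENNReal Manifold
open Set Complex Metric Filter

set_option linter.unusedVariables false

noncomputable section

namespace Pool.Agent.Lib.NV5

open Pool.Agent.Lib.SV (E nsq Pluri)
open Pool.Agent.Lib.GH (Hermitian)
open Pool.Agent.Lib.HS32 Pool.Agent.Lib.EX Pool.Agent.Lib.EXS Pool.Agent.Lib.ZL Pool.Agent.Lib.NV2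
open Pool.Agent.Lib.ZQ (HqC)
open Pool.Agent.Lib.HS.BBR (mf)

/-- Non-vanishing for a nef canonical class with non-zero Euler characteristic. -/
def St_S3 : Prop := ∀ (n : ℕ) (Y I : Type) [TopologicalSpace Y] [ChartedSpace (E n) Y]
  [IsManifold 𝓘(ℂ, E n) ω Y] [CompactSpace Y] [T2Space Y] [ConnectedSpace Y] [Fintype I]
  (G : Y → HS.Mat n) (D : I → Set Y) (a₀ : ℕ) (e : I → ℕ) (l : I → ℤ) (η : Y → ℂ)
  (P : Polynomial ℚ), Hermitian G → (∀ y, Ord n 1 D l η y) → AmpBy n D e → Nef n G D l →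
  (∀ᶠ j : ℕ in Filter.atTop, (hz n D (fun i => l i + a₀ * l i + j * e i) : ℚ) = P.eval (j : ℚ)) →
  P.eval 0 ≠ 0 → ∃ m, 0 < m ∧ ∃ s ∈ Pluri n Y m, s ≠ 0

/-- The analytic data of a projective manifold with nef canonical class. -/
structure Ctx {n : ℕ} {M : Mf n} {ι : Type} [Fintype ι] [DecidableEq ι] {D : Ad M ι} (X : Cx D)
    {r : ℕ} (t : Fin r → M.X → ℂ) (c' : ℕ) : Prop where
  pos : 0 < n
  one : X.m = 1
  epos : ∀ i, 0 < X.e i
  big : X.Big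
  nef : X.Nf X.l
  can : DM.Can D X.l X.w
  hq : HqC 1 D X.μ
  kd : Kd D (fun i => X.e i) t
  imm : Imm D (fun i => X.e i) t
  alp : ∀ x ∈ off D, X.α x = lg t x
  zo : ∀ a₀ : ℕ, Zo X (fun i => X.l i + a₀ * X.l i) X.l
  gen : ∀ j : ℕ, Gens D fun i => j * X.l i + c' * X.e i

/-- Non-vanishing for a dominated fibration whose generic fibre has Kodaira dimension zero. -/
def Sb_EXC : Prop := ∀ (n : ℕ) (M : Mf n) [M.Cpt] (ι : Type) [Fintype ι] [DecidableEq ι]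
  (D : Ad M ι) (X : Cx D) (r c' : ℕ) (t : Fin r → M.X → ℂ) (F : Type) [Field F] [Algebra ℂ F]
  (Φ : FM D F) (V : VF n F) (m : ι → V.P → ℤ) (π : Hg D → V.P) (Q : ι → ℤ) (d : ℕ)
  (z : Fin d → F) (k : IntermediateField ℂ F) (a c b : ℕ) (τ : F), Ctx X t c' → Φ.Br V m π →
  0 < d → V.Pre (dv m X.l) (dv m fun i => X.e i) (dv m Q) d z k a c b τ → V.One (dv m X.l) k →
  ∃ j : ℕ, 0 < j ∧ ∃ s ≠ 0, Sp D (fun i => j * X.l i) s

open S1b in
theorem bS3 (hCTX : St_CTX) (hNV : St_NV2) (hSEC : St_SEC) (hDOM : DM.St_DOM) (hAM : Sb_AM)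
    (hPLU : Sb_PLU) (hFLD : Sb_FLD) (hVF : Sb_VF) (hINP : Sb_INP) (hFN : Sb_FN) (hFIB : Sa_FIB)
    (hEXC : Sb_EXC) : St_S3 := by
  intro n Y I _ _ _ _ _ _ _ G S a₀ e l η P hG hO hA hN hP hP0
  have : (mf n Y).Cpt := ⟨‹_›, ‹_›, ‹_›⟩
  have hE : ∀ y, ∃ h, Eqs n S y h := fun y => (hO y).imp fun h ⟨w, hw⟩ => hw.1
  obtain ⟨D, X, r, c', t, hF, h1, hl, he, hB, hnf, hw, hH, hK, hI, hα, hZ, hGe⟩ :=
    hCTX n Y I G S 1 e l l η hG hO hA one_pos hN
      ⟨fun i => by simp, fun k => ⟨fun i => k * e i, fun j f hf => by simpa using hf⟩⟩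
  obtain ⟨-, -, hS, hz'⟩ := hSEC n Y I S D hF hE
  have hnv : ∀ m : ℕ, 0 < m → ∀ s ≠ 0, Sp D (fun i => m * l i) s →
      ∃ m, 0 < m ∧ ∃ s ∈ Pluri n Y m, s ≠ 0 := fun m hm s hs h =>
    ⟨m, hm, hPLU n Y I S l η s m hO ((hS _ _).2 h) hs⟩
  rcases Nat.eq_zero_or_pos n with rfl | hn
  · refine hnv 1 one_pos (fun _ => 1) (fun h => ?_) (zero D _)
    exact one_ne_zero (congrFun h (Classical.arbitrary Y))
  subst hl he
  obtain ⟨q, hq'⟩ := hNV n (mf n Y) I D X r c' (fun i => X.l i + a₀ * X.l i) X.l t P hH hK hI hα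
    (hZ a₀) (by simpa using hGe 1) (hP.mono fun j hj => by rw [← hz']; exact hj) hP0
  have hinf : {a : ℕ | ∃ b, Ten D q (fun i => a * X.l i) b}.Infinite := by
    refine (hq'.image (f := fun a => 1 + a₀ + a) (add_right_injective _).injOn).mono ?_
    rintro _ ⟨a, ⟨b, hb⟩, rfl⟩
    refine ⟨b, ?_⟩
    have : (fun i => ((1 + a₀ + a : ℕ) : ℤ) * X.l i) = fun i => X.l i + a₀ * X.l i + a * X.l i := by
      funext i; push_cast; ring
    rw [this]; exact hb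
  have hC : DM.Can D X.l X.w := fun b d x h1 h2 => by simpa using hw b d x h1 h2
  have hD : DomH D X.l X.e := domH hDOM hAM D X hn hA.1 hB hC hK hI hα hGe
  obtain ⟨F, i1, i2, ⟨Φ⟩⟩ := hFLD n (mf n Y) I D
  obtain ⟨V, m, π, br⟩ := hVF n (mf n Y) I D F Φ r (fun i => X.e i) t
    (fun i => Int.natCast_pos.2 (hA.1 i)) hK hI
  obtain ⟨Q, T, f, inp⟩ := hINP n (mf n Y) I D F Φ V m π r X.e t X.l q hA.1 hK hI br hD hinf
  obtain ⟨d, z, k, a, c, b, τ, hPre, hOne⟩ := hFIB n F V _ _ _ T f (br.fs _) inp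
  rcases Nat.eq_zero_or_pos d with rfl | hd
  · have hs : V.Sec (dv m fun i => a * X.l i) τ := by
      rw [dv_smul]
      refine fun p => hPre.sec p fun g hg => LOW.le_one_of_alg V ?_ p
      have h1 := (hPre.alg g).1 hg
      rw [Set.range_eq_empty, IntermediateField.adjoin_empty] at h1
      have : Algebra.IsAlgebraic ℂ (⊥ : IntermediateField ℂ F) :=
        (IntermediateField.botEquiv ℂ F).symm.isAlgebraic
      exact h1.restrictScalars ℂ
    obtain ⟨u, u1, u2⟩ := (br.sec _ _).1 hs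
    exact hnv a hPre.a0 u
      (fun c => hPre.τ0 (by rw [← u2, c]; exact (hFN n (mf n Y) I D F Φ).2.1)) u1
  · obtain ⟨j, hj, s, hs, h⟩ := hEXC n (mf n Y) I D X r c' t F Φ V m π Q d z k a c b τ
      ⟨hn, h1, hA.1, hB, hnf, hC, hH, hK, hI, hα, hZ, hGe⟩ br hd hPre hOne
    exact hnv j hj s hs h

end Pool.Agent.Lib.NV5
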