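import Pool.Agent.Lib.NV2.SDefs

/-! Definition used in the statement: a morphism that contracts some components of a divisor. -/

open scoped Topology

namespace Pool.Agent.Lib.NV5

open Pool.Agent.Lib.SV Pool.Agent.Lib.KP Pool.Agent.Lib.EX

variable (n : ℕ) {Y I : Type} [TopologicalSpace Y] [ChartedSpace (E n) Y] [Fintype I]

/-- `∑ b i D i` is the pull-back of a hyperplane class by a holomorphic map `[t]` of `Y` to a
projective space, `τ = t / ∏ h i ^ b i` is globally defined; the map is an immersion at some point,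
and its restriction to `D i` is nowhere an immersion for `i ∈ ex`. -/
def Contr (D : I → Set Y) (b : I → ℤ) (ex : Set I) : Prop :=
  ∃ (r : ℕ) (τ : Y → E r),
    (∃ y, (∀ i, y ∉ D i) ∧ ∀ v (c : ℂ), dAt n τ y v = c • τ y → v = 0) ∧
    ∀ y, ∃ (h : I → Y → ℂ) (t : Y → E r), Eqs n D y h ∧ t y ≠ 0 ∧
      (∀ᶠ x in 𝓝 y, (∀ j, HolAt n 0 (t · j) x) ∧
        ((∀ i, x ∉ D i) → τ x = (∏ i, h i x ^ (-b i)) • t x)) ∧
      ∀ i ∈ ex, y ∈ D i → ∃ v ≠ 0, dAt n (h i) y v = 0 ∧ ∃ c : ℂ, dAt n t y v = c • t y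

end Pool.Agent.Lib.NV5
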