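import Pool.Agent.Lib.NV5.Exc
import Pool.Agent.Lib.NV5.SDefs4
import Pool.Agent.Lib.EX.B_MON

/-! Project NV5: resolutions of minimal models. -/

open scoped Classical Topology ContDiff ENNReal Manifold
open Set Complex Metric Filter

set_option linter.unusedVariables false

noncomputable section

namespace Pool.Agent.Lib.NV5

open Pool.Agent.Lib.SV (E nsq Pluri)
open Pool.Agent.Lib.GH (Hermitian)
open Pool.Agent.Lib.HS32 Pool.Agent.Lib.EX Pool.Agent.Lib.EXS Pool.Agent.Lib.ZL Pool.Agent.Lib.NV2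
open Pool.Agent.Lib.ZQ (HqC)
open Pool.Agent.Lib.HS.BBR (mf)

/-- Non-vanishing for `c K = N + E` with `N` nef and `E` exceptional. -/
def St_S4 : Prop := ∀ (n : ℕ) (Y I : Type) [TopologicalSpace Y] [ChartedSpace (E n) Y]
  [IsManifold 𝓘(ℂ, E n) ω Y] [CompactSpace Y] [T2Space Y] [ConnectedSpace Y] [Fintype I]
  (G : Y → HS.Mat n) (D : I → Set Y) (c a₀ : ℕ) (e : I → ℕ) (l ν b : I → ℤ) (η : Y → ℂ)
  (P : Polynomial ℚ), Hermitian G → (∀ y, Ord n 1 D l η y) → AmpBy n D e → 0 < c → Nef n G D ν →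
  Zar n D (fun i => c * l i) ν e → Contr n D b {i | ν i < c * l i} → Nef n G D (b - ν) →
  (∀ᶠ j : ℕ in Filter.atTop, (hz n D (fun i => l i + a₀ * ν i + j * e i) : ℚ) = P.eval (j : ℚ)) →
  P.eval 0 ≠ 0 → ∃ m, 0 < m ∧ ∃ s ∈ Pluri n Y m, s ≠ 0

section defs

variable {n : ℕ} {M : Mf n} {ι : Type} [Fintype ι] [DecidableEq ι]

/-- A generically finite morphism that contracts the components in `ex`. -/
structure Cn (D : Ad M ι) (b : ι → ℤ) (ex : Set ι) where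
  r : ℕ
  τ : M.X → E r
  t : D.A → E n → E r
  thol : D.All fun d z => HolN (t d) z ∧ t d z ≠ 0 ∧
    (Off (D.c d) z → D.rd τ d z = xm (D.c d) (-b) z • t d z)
  imm : ∃ d, ∃ z ∈ B2 n, Off (D.c d) z ∧
    ∀ (y : E n) (c : ℂ), fderiv ℂ (t d) z y = c • t d z → y = 0
  deg : D.All fun d z => ∀ i ∈ ex, ∀ j, D.c d i = some j → z j = 0 →
    ∃ v ≠ 0, v j = 0 ∧ ∃ c : ℂ, fderiv ℂ (t d) z v = c • t d z

/-- The analytic data of a Zariski decomposition `c K = N + E`. -/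
structure Ctx4 {D : Ad M ι} (X : Cx D) {r : ℕ} (t : Fin r → M.X → ℂ) (c' c : ℕ) (ν : ι → ℤ) :
    Prop where
  pos : 0 < n
  one : X.m = 1
  epos : ∀ i, 0 < X.e i
  big : X.Big
  nef : X.Nf ν
  can : DM.Can D X.l X.w
  hq : HqC 1 D X.μ
  kd : Kd D (fun i => X.e i) t
  imm : Imm D (fun i => X.e i) t
  alp : ∀ x ∈ off D, X.α x = lg t x
  zo : ∀ a₀ : ℕ, Zo X (fun i => X.l i + a₀ * ν i) ν
  gen : ∀ j : ℕ, Gens D fun i => j * ν i + c' * X.e i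
  cpos : 0 < c
  le : ∀ i, ν i ≤ c * X.l i
  zar : ∀ k : ℕ, ∃ a : ι → ℤ, ∀ (j : ℕ) U,
    Sp D (fun i => j * (c * X.l i) + k * X.e i) U → Sp D (fun i => j * ν i + a i) U

end defs

/-- The contraction in the two languages. -/
def Sb_CN : Prop := ∀ (n : ℕ) (Y I : Type) [TopologicalSpace Y] [ChartedSpace (E n) Y]
  [IsManifold 𝓘(ℂ, E n) ω Y] [Fintype I] [DecidableEq I] (S : I → Set Y) (D : Ad (mf n Y) I)
  (b : I → ℤ) (ex : Set I), D.Fit S → Contr n S b ex → Nonempty (Cn D b ex)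

/-- Domination on a resolution. -/
def Sb_DOMX : Prop := ∀ (n : ℕ) (M : Mf n) [M.Cpt] (ι : Type) [Fintype ι] [DecidableEq ι]
  (D : Ad M ι) (X : Cx D) (r c' c : ℕ) (t : Fin r → M.X → ℂ) (ν b : ι → ℤ), Ctx4 X t c' c ν →
  Cn D b {i | ν i < c * X.l i} → X.Nf (b - ν) → DomH D X.l X.e

/-- Non-vanishing for a dominated fibration on a resolution. -/
def Sb_EXC4 : Prop := ∀ (n : ℕ) (M : Mf n) [M.Cpt] (ι : Type) [Fintype ι] [DecidableEq ι]
  (D : Ad M ι) (X : Cx D) (r c' c₀ : ℕ) (t : Fin r → M.X → ℂ) (ν : ι → ℤ) (F : Type) [Field F]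
  [Algebra ℂ F] (Φ : FM D F) (V : VF n F) (m : ι → V.P → ℤ) (π : Hg D → V.P) (Q : ι → ℤ) (d : ℕ)
  (z : Fin d → F) (k : IntermediateField ℂ F) (a c b : ℕ) (τ : F), Ctx4 X t c' c₀ ν →
  Φ.Br V m π → 0 < d → V.Pre (dv m X.l) (dv m fun i => X.e i) (dv m Q) d z k a c b τ →
  V.One (dv m X.l) k → ∃ j : ℕ, 0 < j ∧ ∃ s ≠ 0, Sp D (fun i => j * X.l i) s

theorem exc_of_exc4 (h : Sb_EXC4) : Sb_EXC := by
  intro n M _ ι _ _ D X r c' t F _ _ Φ V m π Q d z k a c b τ C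
  exact h n M ι D X r c' 1 t X.l F Φ V m π Q d z k a c b τ ⟨C.pos, C.one, C.epos, C.big, C.nef,
    C.can, C.hq, C.kd, C.imm, C.alp, C.zo, C.gen, one_pos, fun i => by simp,
    fun k => ⟨fun i => k * X.e i, fun j U hU => by simpa using hU⟩⟩

open S1b in
theorem bS4 (hCTX : St_CTX) (hNV : St_NV2) (hSEC : St_SEC) (hNFB : St_NFB) (hCN : Sb_CN)
    (hDOM : Sb_DOMX) (hPLU : Sb_PLU) (hFLD : Sb_FLD) (hVF : Sb_VF) (hINP : Sb_INP) (hFN : Sb_FN)
    (hFIB : Sa_FIB) (hEXC : Sb_EXC4) : St_S4 := by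
  intro n Y I _ _ _ _ _ _ _ G S c₀ a₀ e l ν β η P hG hO hA hc hN hZa hCo hNb hP hP0
  have : (mf n Y).Cpt := ⟨‹_›, ‹_›, ‹_›⟩
  have hE : ∀ y, ∃ h, Eqs n S y h := fun y => (hO y).imp fun h ⟨w, hw⟩ => hw.1
  obtain ⟨D, X, r, c', t, hF, h1, hl, he, hB, hnf, hw, hH, hK, hI, hα, hZ, hGe⟩ :=
    hCTX n Y I G S c₀ e l ν η hG hO hA hc hN hZa
  obtain ⟨-, -, hS, hz'⟩ := hSEC n Y I S D hF hE
  have hnv : ∀ m : ℕ, 0 < m → ∀ s ≠ 0, Sp D (fun i => m * l i) s →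
      ∃ m, 0 < m ∧ ∃ s ∈ Pluri n Y m, s ≠ 0 := fun m hm s hs h =>
    ⟨m, hm, hPLU n Y I S l η s m hO ((hS _ _).2 h) hs⟩
  rcases Nat.eq_zero_or_pos n with rfl | hn
  · refine hnv 1 one_pos (fun _ => 1) (fun h => ?_) (zero D _)
    exact one_ne_zero (congrFun h (Classical.arbitrary Y))
  subst hl he
  obtain ⟨q, hq'⟩ := hNV n (mf n Y) I D X r c' (fun i => X.l i + a₀ * ν i) ν t P hH hK hI hα
    (hZ a₀) (by simpa using hGe 1) (hP.mono fun j hj => by rw [← hz']; exact hj) hP0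
  have hinf : {a : ℕ | ∃ b, Ten D q (fun i => a * X.l i) b}.Infinite := by
    refine (hq'.image (f := fun a => 1 + (a₀ + a) * c₀) fun x _ y _ h => ?_).mono ?_
    · have := Nat.eq_of_mul_eq_mul_right hc (Nat.add_left_cancel h)
      omega
    rintro _ ⟨a, ⟨b, hb⟩, rfl⟩
    refine ⟨b, fun d z hz I => ?_, hb.law, hb.alt, hb.ne⟩
    obtain ⟨s, hs, h⟩ := hb.pol d z hz I
    refine ⟨fun y => xm (D.c d) (fun i => (a₀ + a : ℤ) * (c₀ * X.l i - ν i)) y * s y,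
      hs.mono fun y hy => (MON.diff_xm fun i => .inr
        (mul_nonneg (by positivity) (sub_nonneg.2 (hZa.1 i)))).mul hy, h.mono fun y hy ho => ?_⟩
    rw [hy ho, ← mul_assoc, ← MON.xm_add _ _ ho]
    congr 2
    funext i
    simp only [Pi.neg_apply, Pi.add_apply]
    push_cast
    ring
  have hC : DM.Can D X.l X.w := fun b d x h1 h2 => by simpa using hw b d x h1 h2
  have C : Ctx4 X t c' c₀ ν := ⟨hn, h1, hA.1, hB, hnf, hC, hH, hK, hI, hα, hZ, hGe, hc, hZa.1,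
    fun k => (hZa.2 k).imp fun a ha j U hU => (hS _ _).1 (ha j U ((hS _ _).2 hU))⟩
  obtain ⟨cn⟩ := hCN n Y I S D β _ hF hCo
  have hD : DomH D X.l X.e := hDOM n (mf n Y) I D X r c' c₀ t ν β C cn
    (hNFB n Y I G S _ D X hG hF hNb)
  obtain ⟨F, i1, i2, ⟨Φ⟩⟩ := hFLD n (mf n Y) I D
  obtain ⟨V, m, π, br⟩ := hVF n (mf n Y) I D F Φ r (fun i => X.e i) t
    (fun i => Int.natCast_pos.2 (hA.1 i)) hK hI
  obtain ⟨Q, T, f, inp⟩ := hINP n (mf n Y) I D F Φ V m π r X.e t X.l q hA.1 hK hI br hD hinf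
  obtain ⟨d, z, k, a, c, b, τ, hPre, hOne⟩ := hFIB n F V _ _ _ T f (br.fs _) inp
  rcases Nat.eq_zero_or_pos d with rfl | hd
  · have hs : V.Sec (dv m fun i => a * X.l i) τ := by
      rw [dv_smul]
      refine fun p => hPre.sec p fun g hg => LOW.le_one_of_alg V ?_ p
      have h1 := (hPre.alg g).1 hg
      rw [Set.range_eq_empty, IntermediateField.adjoin_empty] at h1
      have : Algebra.IsAlgebraic ℂ (⊥ : IntermediateField ℂ F) :=
        (IntermediateField.botEquiv ℂ F).symm.isAlgebraic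
      exact h1.restrictScalars ℂ
    obtain ⟨u, u1, u2⟩ := (br.sec _ _).1 hs
    exact hnv a hPre.a0 u
      (fun c => hPre.τ0 (by rw [← u2, c]; exact (hFN n (mf n Y) I D F Φ).2.1)) u1
  · obtain ⟨j, hj, s, hs, h⟩ := hEXC n (mf n Y) I D X r c' c₀ t ν F Φ V m π Q d z k a c b τ
      C br hd hPre hOne
    exact hnv j hj s hs h

end Pool.Agent.Lib.NV5
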