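import Pool.Agent.Lib.NV5.Exc4

/-! Project NV5: non-vanishing from twisted multivector fields. -/

open scoped Classical Topology ContDiff ENNReal Manifold
open Set Complex Metric Filter

set_option linter.unusedVariables false

noncomputable section

namespace Pool.Agent.Lib.NV5

open Pool.Agent.Lib.SV (E nsq Pluri)
open Pool.Agent.Lib.GH (Hermitian)
open Pool.Agent.Lib.HS32 Pool.Agent.Lib.EX Pool.Agent.Lib.EXS Pool.Agent.Lib.ZL Pool.Agent.Lib.NV2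
open Pool.Agent.Lib.ZQ (HqC)
open Pool.Agent.Lib.HS.BBR (mf)

/-- Non-vanishing for a nef canonical class from twisted multivector fields. -/
def St_S3F : Prop := ∀ (n : ℕ) (Y I : Type) [TopologicalSpace Y] [ChartedSpace (E n) Y]
  [IsManifold 𝓘(ℂ, E n) ω Y] [CompactSpace Y] [T2Space Y] [ConnectedSpace Y] [Fintype I]
  (G : Y → HS.Mat n) (D : I → Set Y) (q : ℕ) (e : I → ℕ) (l : I → ℤ) (η : Y → ℂ),
  Hermitian G → (∀ y, Ord n 1 D l η y) → AmpBy n D e → Nef n G D l →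
  {a : ℕ | ∃ b, MVec n q D (fun i => a * l i) b}.Infinite → ∃ m, 0 < m ∧ ∃ s ∈ Pluri n Y m, s ≠ 0

/-- The same on a resolution of a minimal model. -/
def St_S4F : Prop := ∀ (n : ℕ) (Y I : Type) [TopologicalSpace Y] [ChartedSpace (E n) Y]
  [IsManifold 𝓘(ℂ, E n) ω Y] [CompactSpace Y] [T2Space Y] [ConnectedSpace Y] [Fintype I]
  (G : Y → HS.Mat n) (D : I → Set Y) (c q : ℕ) (e : I → ℕ) (l ν b : I → ℤ) (η : Y → ℂ),
  Hermitian G → (∀ y, Ord n 1 D l η y) → AmpBy n D e → 0 < c → Nef n G D ν →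
  Zar n D (fun i => c * l i) ν e → Contr n D b {i | ν i < c * l i} → Nef n G D (b - ν) →
  {a : ℕ | ∃ b, MVec n q D (fun i => a * l i) b}.Infinite → ∃ m, 0 < m ∧ ∃ s ∈ Pluri n Y m, s ≠ 0

/-- The tensor of a multivector field. -/
def Sb_VM : Prop := ∀ (n : ℕ) (Y I : Type) [TopologicalSpace Y] [ChartedSpace (E n) Y]
  [IsManifold 𝓘(ℂ, E n) ω Y] [Fintype I] [DecidableEq I] (S : I → Set Y) (D : Ad (mf n Y) I)
  (q : ℕ) (Q : I → ℤ) (b : Y → (E n →L[ℂ] ℂ) [⋀^Fin q]→ₗ[ℂ] ℂ),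
  D.Fit S → (∀ y, ∃ h, Eqs n S y h) → MVec n q S Q b → ∃ b', Ten D q Q b'

open S1b in
theorem of_ten (hFLD : Sb_FLD) (hVF : Sb_VF) (hINP : Sb_INP) (hFN : Sb_FN) (hFIB : Sa_FIB)
    {n : ℕ} {M : Mf n} [M.Cpt] {ι : Type} [Fintype ι] [DecidableEq ι] {D : Ad M ι} (X : Cx D)
    {r q : ℕ} {t : Fin r → M.X → ℂ} (he : ∀ i, 0 < X.e i) (hK : Kd D (fun i => X.e i) t)
    (hI : Imm D (fun i => X.e i) t) (hD : DomH D X.l X.e)
    (hinf : {a : ℕ | ∃ b, Ten D q (fun i => a * X.l i) b}.Infinite)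
    (hE : ∀ (F : Type) [Field F] [Algebra ℂ F] (Φ : FM D F) (V : VF n F) (m : ι → V.P → ℤ)
      (π : Hg D → V.P) (Q : ι → ℤ) (d : ℕ) (z : Fin d → F) (k : IntermediateField ℂ F) (a c b : ℕ)
      (τ : F), Φ.Br V m π → 0 < d →
      V.Pre (dv m X.l) (dv m fun i => X.e i) (dv m Q) d z k a c b τ → V.One (dv m X.l) k →
      ∃ j : ℕ, 0 < j ∧ ∃ s ≠ 0, Sp D (fun i => j * X.l i) s) :
    ∃ j : ℕ, 0 < j ∧ ∃ s ≠ 0, Sp D (fun i => j * X.l i) s := by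
  obtain ⟨F, i1, i2, ⟨Φ⟩⟩ := hFLD n M ι D
  obtain ⟨V, m, π, br⟩ := hVF n M ι D F Φ r (fun i => X.e i) t
    (fun i => Int.natCast_pos.2 (he i)) hK hI
  obtain ⟨Q, T, f, inp⟩ := hINP n M ι D F Φ V m π r X.e t X.l q he hK hI br hD hinf
  obtain ⟨d, z, k, a, c, b, τ, hPre, hOne⟩ := hFIB n F V _ _ _ T f (br.fs _) inp
  rcases Nat.eq_zero_or_pos d with rfl | hd
  · have hs : V.Sec (dv m fun i => a * X.l i) τ := by
      rw [dv_smul]
      refine fun p => hPre.sec p fun g hg => LOW.le_one_of_alg V ?_ p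
      have h1 := (hPre.alg g).1 hg
      rw [Set.range_eq_empty, IntermediateField.adjoin_empty] at h1
      have : Algebra.IsAlgebraic ℂ (⊥ : IntermediateField ℂ F) :=
        (IntermediateField.botEquiv ℂ F).symm.isAlgebraic
      exact h1.restrictScalars ℂ
    obtain ⟨u, u1, u2⟩ := (br.sec _ _).1 hs
    exact ⟨a, hPre.a0, u, fun c => hPre.τ0 (by rw [← u2, c]; exact (hFN n M ι D F Φ).2.1), u1⟩
  · exact hE F Φ V m π Q d z k a c b τ br hd hPre hOne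

open S1b in
theorem bS3F (hCTX : St_CTX) (hSEC : St_SEC) (hVM : Sb_VM) (hDOM : DM.St_DOM) (hAM : Sb_AM)
    (hPLU : Sb_PLU) (hFLD : Sb_FLD) (hVF : Sb_VF) (hINP : Sb_INP) (hFN : Sb_FN) (hFIB : Sa_FIB)
    (hEXC : Sb_EXC) : St_S3F := by
  intro n Y I _ _ _ _ _ _ _ G S q e l η hG hO hA hN hM
  have : (mf n Y).Cpt := ⟨‹_›, ‹_›, ‹_›⟩
  have hE : ∀ y, ∃ h, Eqs n S y h := fun y => (hO y).imp fun h ⟨w, hw⟩ => hw.1
  obtain ⟨D, X, r, c', t, hF, h1, hl, he, hB, hnf, hw, hH, hK, hI, hα, hZ, hGe⟩ :=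
    hCTX n Y I G S 1 e l l η hG hO hA one_pos hN
      ⟨fun i => by simp, fun k => ⟨fun i => k * e i, fun j f hf => by simpa using hf⟩⟩
  obtain ⟨-, -, hS, -⟩ := hSEC n Y I S D hF hE
  suffices h : ∃ m : ℕ, 0 < m ∧ ∃ s ≠ 0, Sp D (fun i => m * l i) s from
    h.imp fun m ⟨hm, s, hs, h⟩ => ⟨hm, hPLU n Y I S l η s m hO ((hS _ _).2 h) hs⟩
  rcases Nat.eq_zero_or_pos n with rfl | hn
  · exact ⟨1, one_pos, fun _ => 1,
      fun h => one_ne_zero (congrFun h (Classical.arbitrary Y)), zero D _⟩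
  subst hl he
  have hC : DM.Can D X.l X.w := fun b d x h1 h2 => by simpa using hw b d x h1 h2
  exact of_ten hFLD hVF hINP hFN hFIB X hA.1 hK hI (domH hDOM hAM D X hn hA.1 hB hC hK hI hα hGe)
    (hM.mono fun a ha => ha.elim fun b hb => hVM n Y I S D q _ b hF hE hb)
    fun F _ _ Φ V m π Q d z k a c b τ => hEXC n (mf n Y) I D X r c' t F Φ V m π Q d z k a c b τ
      ⟨hn, h1, hA.1, hB, hnf, hC, hH, hK, hI, hα, hZ, hGe⟩

open S1b in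
theorem bS4F (hCTX : St_CTX) (hSEC : St_SEC) (hVM : Sb_VM) (hNFB : St_NFB) (hCN : Sb_CN)
    (hDOM : Sb_DOMX) (hPLU : Sb_PLU) (hFLD : Sb_FLD) (hVF : Sb_VF) (hINP : Sb_INP) (hFN : Sb_FN)
    (hFIB : Sa_FIB) (hEXC : Sb_EXC4) : St_S4F := by
  intro n Y I _ _ _ _ _ _ _ G S c₀ q e l ν β η hG hO hA hc hN hZa hCo hNb hM
  have : (mf n Y).Cpt := ⟨‹_›, ‹_›, ‹_›⟩
  have hE : ∀ y, ∃ h, Eqs n S y h := fun y => (hO y).imp fun h ⟨w, hw⟩ => hw.1
  obtain ⟨D, X, r, c', t, hF, h1, hl, he, hB, hnf, hw, hH, hK, hI, hα, hZ, hGe⟩ :=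
    hCTX n Y I G S c₀ e l ν η hG hO hA hc hN hZa
  obtain ⟨-, -, hS, -⟩ := hSEC n Y I S D hF hE
  suffices h : ∃ m : ℕ, 0 < m ∧ ∃ s ≠ 0, Sp D (fun i => m * l i) s from
    h.imp fun m ⟨hm, s, hs, h⟩ => ⟨hm, hPLU n Y I S l η s m hO ((hS _ _).2 h) hs⟩
  rcases Nat.eq_zero_or_pos n with rfl | hn
  · exact ⟨1, one_pos, fun _ => 1,
      fun h => one_ne_zero (congrFun h (Classical.arbitrary Y)), zero D _⟩
  subst hl he
  have hC : DM.Can D X.l X.w := fun b d x h1 h2 => by simpa using hw b d x h1 h2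
  have C : Ctx4 X t c' c₀ ν := ⟨hn, h1, hA.1, hB, hnf, hC, hH, hK, hI, hα, hZ, hGe, hc, hZa.1,
    fun k => (hZa.2 k).imp fun a ha j U hU => (hS _ _).1 (ha j U ((hS _ _).2 hU))⟩
  obtain ⟨cn⟩ := hCN n Y I S D β _ hF hCo
  exact of_ten hFLD hVF hINP hFN hFIB X hA.1 hK hI
    (hDOM n (mf n Y) I D X r c' c₀ t ν β C cn (hNFB n Y I G S _ D X hG hF hNb))
    (hM.mono fun a ha => ha.elim fun b hb => hVM n Y I S D q _ b hF hE hb)
    fun F _ _ Φ V m π Q d z k a c b τ =>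
      hEXC n (mf n Y) I D X r c' c₀ t ν F Φ V m π Q d z k a c b τ C

end Pool.Agent.Lib.NV5
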