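import Pool.Agent.Lib.NV5.Kit
import Pool.Agent.Lib.NV5.B_INP
import Pool.Agent.Lib.NV5.B_CN
import Pool.Agent.Lib.NV5.Exc5
import Pool.Agent.Lib.NV5.D_All
import Pool.Agent.Lib.NV2.All

/-! Project NV5: the reductions without further hypotheses. -/

namespace Pool.Agent.Lib.NV5

theorem fin_INP : Sb_INP := bINP st_bCRM st_bTNS st_bKIT st_bFN

theorem s3_of (h : Sb_EXC) : St_S3 := bS3 NV2.st_CTX NV2.st_NV2 NV2.st_SEC DM.st_DOM st_bAM st_bPLU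
  st_bFLD st_bVF fin_INP st_bFN st_aFIB h

theorem s4_of (hD : Sb_DOMX) (h : Sb_EXC4) : St_S4 := bS4 NV2.st_CTX NV2.st_NV2 NV2.st_SEC ZL.bNFB
  bCN hD st_bPLU st_bFLD st_bVF fin_INP st_bFN st_aFIB h

theorem s3f_of (hV : Sb_VM) (h : Sb_EXC) : St_S3F := bS3F NV2.st_CTX NV2.st_SEC hV DM.st_DOM st_bAM
  st_bPLU st_bFLD st_bVF fin_INP st_bFN st_aFIB h

theorem s4f_of (hV : Sb_VM) (hD : Sb_DOMX) (h : Sb_EXC4) : St_S4F := bS4F NV2.st_CTX NV2.st_SEC hV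
  ZL.bNFB bCN hD st_bPLU st_bFLD st_bVF fin_INP st_bFN st_aFIB h

end Pool.Agent.Lib.NV5
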