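import Pool.Agent.Lib.NV5.K3Wro

/-! Valuations of derivatives. -/

open Filter

namespace Pool.Agent.Lib.NV5.K3

variable {C F Γ : Type} [Field C] [Field F] [Algebra C F] [LinearOrderedCommGroupWithZero Γ]

/-- On a finitely generated ring of integral elements, derivatives are bounded by the
derivatives of the generators. -/
theorem adj_le (v : Valuation F Γ) (D : Derivation C F F) (s : Set F) (B : Γ)
    (hC : ∀ c, v (algebraMap C F c) ≤ 1) (hs : ∀ x ∈ s, v x ≤ 1 ∧ v (D x) ≤ B) {a : F}
    (ha : a ∈ Algebra.adjoin C s) : v a ≤ 1 ∧ v (D a) ≤ B := by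
  induction ha using Algebra.adjoin_induction with
  | mem x hx => exact hs x hx
  | algebraMap c => exact ⟨hC c, by simp⟩
  | add x y _ _ hx hy =>
    rw [map_add D]
    exact ⟨v.map_add_le hx.1 hy.1, v.map_add_le hx.2 hy.2⟩
  | mul x y _ _ hx hy =>
    rw [Derivation.leibniz, smul_eq_mul, smul_eq_mul]
    refine ⟨by rw [map_mul]; exact mul_le_one' hx.1 hy.1, v.map_add_le ?_ ?_⟩
    · rw [map_mul]
      exact (mul_le_of_le_one_left' hx.1).trans hy.2
    · rw [map_mul]
      exact (mul_le_of_le_one_left' hy.1).trans hx.2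

/-- The same for fractions whose denominator is a unit. -/
theorem div_le (v : Valuation F Γ) (D : Derivation C F F) (B : Γ) {a b : F} (ha : v a ≤ 1)
    (hb : v b = 1) (ha' : v (D a) ≤ B) (hb' : v (D b) ≤ B) : v (D (a / b)) ≤ B := by
  rw [Derivation.leibniz_div, smul_eq_mul, smul_eq_mul, smul_eq_mul, map_mul, map_pow, map_inv₀,
    hb, inv_one, one_pow, one_mul]
  refine v.map_sub_le ?_ ?_
  · rw [map_mul, hb, one_mul]
    exact ha'
  · rw [map_mul]
    exact (mul_le_of_le_one_left' ha).trans hb'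

/-- If a power of `x` is a unit times a constant of `D`, the logarithmic derivative of `x` is
bounded like the derivatives of units. -/
theorem log_le (v : Valuation F Γ) (D : Derivation C F F) (B : Γ)
    (hu : ∀ u, v u = 1 → v (D u) ≤ B) {x t : F} {a : ℕ} (ha : v (a : F) = 1) (ht : D t = 0)
    (hx : v t = v x ^ a) : v (D x) ≤ B * v x := by
  by_cases h0 : x = 0
  · simp [h0]
  have hv0 : v x ≠ 0 := by simpa using h0
  have ht0 : v t ≠ 0 := hx ▸ pow_ne_zero _ hv0
  have ht1 : t ≠ 0 := by simpa using ht0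
  have h1 := hu (x ^ a / t) (by rw [map_div₀, map_pow, ← hx, div_self ht0])
  have ha0 : a ≠ 0 := by
    rintro rfl
    simp at ha
  have h2 : D (x ^ a / t) = (a : F) * (x ^ a / t) * (D x / x) := by
    obtain ⟨b, rfl⟩ := Nat.exists_eq_succ_of_ne_zero ha0
    rw [Derivation.leibniz_div, Derivation.leibniz_pow, ht]
    simp only [smul_eq_mul, nsmul_eq_mul, Nat.succ_sub_one, pow_succ]
    field_simp
    ring
  rw [h2, map_mul, map_mul, ha, map_div₀, map_pow, ← hx, div_self ht0, one_mul, one_mul,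
    map_div₀, div_le_iff₀ (zero_lt_iff.2 hv0)] at h1
  exact h1

/-- For a discrete valuation that is not trivial on the constants of `D`. -/
theorem vert_le [CharZero C] (v : Valuation F (WithZero (Multiplicative ℤ))) (D : Derivation C F F)
    (B : WithZero (Multiplicative ℤ)) (hC : ∀ c, v (algebraMap C F c) ≤ 1)
    (hu : ∀ u, v u = 1 → v (D u) ≤ B) {t : F} (ht : D t = 0) (h0 : t ≠ 0) (h1 : v t ≠ 1) (x : F) :
    v (D x) ≤ B * v x := by
  by_cases hx : x = 0
  · simp [hx]
  have hv : v x ≠ 0 := by simpa using hx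
  have hw : v t ≠ 0 := by simpa using h0
  have hz : ∀ m : ℤ, D (t ^ m) = 0 := fun m => by rw [Derivation.leibniz_zpow, ht]; simp
  have hn : ∀ a : ℕ, a ≠ 0 → v (a : F) = 1 := by
    intro a ha
    have e1 := hC a
    have e2 := hC (a : C)⁻¹
    have e3 : (a : C) ≠ 0 := Nat.cast_ne_zero.2 ha
    rw [map_natCast] at e1
    rw [map_inv₀, map_natCast, map_inv₀] at e2
    have e4 : v (a : F) ≠ 0 := by
      rw [← map_natCast (algebraMap C F), v.ne_zero_iff]
      exact (map_ne_zero _).2 e3
    exact le_antisymm e1 ((inv_le_one₀ (zero_lt_iff.2 e4)).1 e2)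
  have he : WithZero.log (v t) ≠ 0 := fun h => h1 (by rw [← WithZero.exp_log hw, h]; rfl)
  refine log_le v D B hu (t := t ^ ((WithZero.log (v t)).sign * WithZero.log (v x)))
    (hn (WithZero.log (v t)).natAbs (Int.natAbs_ne_zero.2 he)) (hz _) ?_
  rw [map_zpow₀]
  conv_lhs => rw [← WithZero.exp_log hw]
  conv_rhs => rw [← WithZero.exp_log hv]
  rw [← WithZero.exp_zsmul, ← WithZero.exp_nsmul, smul_eq_mul,
    nsmul_eq_mul, ← Int.sign_mul_self_eq_natAbs]
  congr 1
  rw [WithZero.log_exp]
  ring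

end Pool.Agent.Lib.NV5.K3
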