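import Pool.Agent.Lib.NV5.K3Log

/-! Orders of the coordinates along vertical valuations. -/

open Filter TensorProduct

set_option linter.style.haveILetI false

namespace Pool.Agent.Lib.NV5.K3

/-- Derivations with given values on a transcendence basis. -/
theorem der_basis {k F ι : Type} [Field k] [CharZero k] [Field F] [Algebra k F] {x : ι → F}
    (hx : IsTranscendenceBasis k x) (y : ι → F) : ∃ D : Derivation k F F, ∀ i, D (x i) = y i := by
  classical
  let A := MvPolynomial ι k
  letI : Algebra A F := (MvPolynomial.aeval x : A →ₐ[k] F).toRingHom.toAlgebra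
  have hA : ∀ a : A, algebraMap A F a = MvPolynomial.aeval x a := fun _ => rfl
  haveI : IsScalarTower k A F := IsScalarTower.of_algebraMap_eq fun c => by
    rw [hA]; exact ((MvPolynomial.aeval x : A →ₐ[k] F).commutes c).symm
  haveI : FaithfulSMul A F := (faithfulSMul_iff_algebraMap_injective A F).2 hx.1
  let L := FractionRing A
  letI : Algebra L F := FractionRing.liftAlgebra A F
  haveI : IsScalarTower A L F := FractionRing.isScalarTower_liftAlgebra A F
  haveI : Algebra.IsAlgebraic A F := ⟨fun z =>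
    IsAlgebraic.of_ringHom_of_comp_eq (R := A) (S := Algebra.adjoin k (Set.range x))
      (f := (hx.1.aevalEquiv : A ≃ₐ[k] _).toRingEquiv.toRingHom) (g := RingHom.id F)
      (hx.isAlgebraic.1 z) hx.1.aevalEquiv.surjective (fun _ _ h => h)
      (RingHom.ext fun a => hx.1.algebraMap_aevalEquiv a)⟩
  haveI : Algebra.IsAlgebraic L F := Algebra.IsAlgebraic.extendScalars (R := A)
    (IsFractionRing.injective A L)
  haveI : CharZero L := charZero_of_injective_algebraMap (R := k) (algebraMap k L).injective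
  haveI : Algebra.FormallyEtale A L := Algebra.FormallyEtale.of_isLocalization (nonZeroDivisors A)
  haveI : Algebra.FormallyEtale L F := Algebra.FormallyEtale.of_isSeparable L F
  haveI : Algebra.FormallyEtale A F := Algebra.FormallyEtale.comp A L F
  let d : Derivation k A F := MvPolynomial.mkDerivation k y
  let e := KaehlerDifferential.tensorKaehlerEquivOfFormallyEtale k A F
  let l : F ⊗[A] Ω[A⁄k] →ₗ[F] F := d.liftKaehlerDifferential.liftBaseChange F
  refine ⟨(l ∘ₗ e.symm.toLinearMap).compDer (KaehlerDifferential.D k F), fun i => ?_⟩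
  have h1 : x i = algebraMap A F (MvPolynomial.X i) := by simp [hA]
  change l (e.symm (KaehlerDifferential.D k F (x i))) = y i
  rw [h1, KaehlerDifferential.tensorKaehlerEquivOfFormallyEtale_symm_D_algebraMap k A F]
  simp only [l, d, LinearMap.liftBaseChange_tmul, one_smul,
    Derivation.liftKaehlerDifferential_comp_D]
  exact MvPolynomial.mkDerivation_X k y i

/-- The common constants of all derivations are algebraic. -/
theorem alg_of_const {k F : Type} [Field k] [CharZero k] [Field F] [Algebra k F] {e : F}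
    (h : ∀ D : Derivation k F F, D e = 0) : IsAlgebraic k e := by
  by_contra he
  have h1 : AlgebraicIndepOn k id ({e} : Set F) := by
    rw [AlgebraicIndepOn, algebraicIndependent_unique_type_iff]
    exact he
  obtain ⟨t, ht, hb⟩ := exists_isTranscendenceBasis_superset h1
  obtain ⟨D, hD⟩ := der_basis hb fun _ => 1
  exact one_ne_zero ((hD ⟨e, ht rfl⟩).symm.trans (h D))

variable {C k F P ι : Type} [Field C] [CharZero C] [Field k] [Field F] [Algebra C k] [Algebra C F]
  [Algebra k F] [IsScalarTower C k F] [Fintype ι]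

/-- The bound for vertical discrete valuations, given bounds for the derivatives of units. -/
theorem wro_unit (v : P → Valuation F (WithZero (Multiplicative ℤ)))
    (hk : ∀ x : F, IsAlgebraic k x → x ∈ Set.range (algebraMap k F))
    (hC : ∀ p c, v p (algebraMap C F c) ≤ 1) (hv : ∀ x, ∀ᶠ p in cofinite, v p x ≤ 1)
    (hu : ∀ D : Derivation C F F, ∃ B : P → WithZero (Multiplicative ℤ),
      (∀ᶠ p in cofinite, B p ≤ 1) ∧ ∀ p u, v p u = 1 → v p (D u) ≤ B p)
    (ht : ∀ p, ∃ t : k, t ≠ 0 ∧ v p (algebraMap k F t) ≠ 1)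
    (e : ι → F) (he : LinearIndependent k e) :
    ∃ B : P → WithZero (Multiplicative ℤ), (∀ᶠ p in cofinite, B p ≤ 1) ∧ ∀ (c : ι → k) l p,
      v p (algebraMap k F (c l)) ≤ B p * v p (∑ j, c j • e j) := by
  haveI : CharZero k := charZero_of_injective_algebraMap (algebraMap C k).injective
  refine bound v Set.univ (fun x h => hk x (alg_of_const fun D => h D trivial)) hv
    (fun D _ => ?_) e he
  obtain ⟨B, h1, h2⟩ := hu (D.restrictScalars C)
  refine ⟨B, h1, fun p x => ?_⟩
  obtain ⟨t, h3, h4⟩ := ht p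
  exact vert_le (v p) (D.restrictScalars C) (B p) (hC p) (h2 p) (D.map_algebraMap t)
    ((map_ne_zero _).2 h3) h4 x

/-- The bound for vertical discrete valuations whose rings are localisations of finitely many
finitely generated rings. -/
theorem wro (v : P → Valuation F (WithZero (Multiplicative ℤ))) (T : Finset F)
    (hk : ∀ x : F, IsAlgebraic k x → x ∈ Set.range (algebraMap k F))
    (hC : ∀ p c, v p (algebraMap C F c) ≤ 1) (hv : ∀ x, ∀ᶠ p in cofinite, v p x ≤ 1)
    (hT : ∀ p, ∃ s ⊆ (T : Set F), (∀ x ∈ s, v p x ≤ 1) ∧ ∀ u, v p u = 1 →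
      ∃ a ∈ Algebra.adjoin C s, ∃ b ∈ Algebra.adjoin C s, v p b = 1 ∧ u = a / b)
    (ht : ∀ p, ∃ t : k, t ≠ 0 ∧ v p (algebraMap k F t) ≠ 1)
    (e : ι → F) (he : LinearIndependent k e) :
    ∃ B : P → WithZero (Multiplicative ℤ), (∀ᶠ p in cofinite, B p ≤ 1) ∧ ∀ (c : ι → k) l p,
      v p (algebraMap k F (c l)) ≤ B p * v p (∑ j, c j • e j) := by
  refine wro_unit v hk hC hv (fun D => ⟨fun p => T.fold max 1 fun x => v p (D x), ?_, ?_⟩) ht e he
  · have h2 : ∀ᶠ p in cofinite, ∀ x ∈ T, v p (D x) ≤ 1 :=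
      (eventually_all_finset _).2 fun x _ => hv (D x)
    exact h2.mono fun p h => (Finset.fold_max_le _).2 ⟨le_rfl, h⟩
  · intro p u hu
    obtain ⟨s, h1, h2, h3⟩ := hT p
    obtain ⟨a, ha, b, hb, h4, rfl⟩ := h3 u hu
    have h5 : ∀ x ∈ s, v p x ≤ 1 ∧ v p (D x) ≤ T.fold max 1 fun x => v p (D x) := fun x hx =>
      ⟨h2 x hx, (Finset.le_fold_max _).2 (Or.inr ⟨x, h1 hx, le_rfl⟩)⟩
    have h6 := adj_le (v p) D s _ (hC p) h5 ha
    exact div_le (v p) D _ h6.1 h4 h6.2 (adj_le (v p) D s _ (hC p) h5 hb).2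

end Pool.Agent.Lib.NV5.K3
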