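import Mathlib

/-! Coordinates over the field of constants are combinations of derivatives. -/

open Filter

namespace Pool.Agent.Lib.NV5.K3

variable {k F ι : Type} [Field k] [Field F] [Algebra k F] [Fintype ι]

/-- A word in derivations applied to an element. -/
def wd (w : List (Derivation k F F)) (x : F) : F := w.foldr (fun D y => D y) x

theorem wd_lin (w : List (Derivation k F F)) (c : ι → k) (e : ι → F) :
    wd w (∑ j, c j • e j) = ∑ j, algebraMap k F (c j) * wd w (e j) := by
  induction w with
  | nil => simp [wd, Algebra.smul_def]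
  | cons D w ih =>
    have h : wd (D :: w) (∑ j, c j • e j) = D (wd w (∑ j, c j • e j)) := rfl
    rw [h, ih, map_sum]
    refine Finset.sum_congr rfl fun j _ => ?_
    rw [← Algebra.smul_def, ← Algebra.smul_def, Derivation.map_smul]
    rfl

/-- No non-trivial relation over the big field holds for all words. -/
theorem rel_zero (S : Set (Derivation k F F))
    (hS : ∀ x, (∀ D ∈ S, D x = 0) → x ∈ Set.range (algebraMap k F)) (e : ι → F)
    (he : LinearIndependent k e) (N : ℕ) : ∀ (s : Finset ι) (c : ι → F), s.card ≤ N →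
    (∀ l ∉ s, c l = 0) → (∀ w, (∀ D ∈ w, D ∈ S) → ∑ l, c l * wd w (e l) = 0) → c = 0 := by
  classical
  induction N with
  | zero =>
    intro s c hs h0 _
    funext l
    exact h0 l (by simp [Finset.card_eq_zero.1 (Nat.le_zero.1 hs)])
  | succ N ih =>
    intro s c hs h0 hc
    by_contra hne
    obtain ⟨i, hi⟩ := Function.ne_iff.1 hne
    have hi0 : c i ≠ 0 := hi
    have his : i ∈ s := by
      by_contra h
      exact hi0 (h0 i h)
    have hc' : ∀ w, (∀ D ∈ w, D ∈ S) → ∑ l, c l / c i * wd w (e l) = 0 := by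
      intro w hw
      have h1 : ∑ l, c l / c i * wd w (e l) = (∑ l, c l * wd w (e l)) / c i := by
        rw [Finset.sum_div]
        exact Finset.sum_congr rfl fun l _ => by ring
      rw [h1, hc w hw, zero_div]
    have hk : ∀ l, c l / c i ∈ Set.range (algebraMap k F) := by
      intro l
      refine hS _ fun D hD => ?_
      refine congrFun (ih (s.erase i) (fun l => D (c l / c i)) ?_ ?_ ?_) l
      · rw [Finset.card_erase_of_mem his]
        omega
      · intro l hl
        by_cases hli : l = i
        · simp [hli, div_self hi0]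
        · have : l ∉ s := fun h => hl (Finset.mem_erase.2 ⟨hli, h⟩)
          simp [h0 l this]
      · intro w hw
        have h1 := congrArg D (hc' w hw)
        have h2 := hc' (D :: w) (by
          intro D' hD'
          rcases List.mem_cons.1 hD' with h | h
          · exact h ▸ hD
          · exact hw _ h)
        rw [map_sum, map_zero] at h1
        have h3 : ∑ l, D (c l / c i * wd w (e l)) = ∑ l, c l / c i * wd (D :: w) (e l) +
            ∑ l, D (c l / c i) * wd w (e l) := by
          rw [← Finset.sum_add_distrib]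
          refine Finset.sum_congr rfl fun l _ => ?_
          rw [Derivation.leibniz, smul_eq_mul, smul_eq_mul, mul_comm (wd w (e l))]
          rfl
        rw [h3, h2, zero_add] at h1
        exact h1
    choose a ha using hk
    have h4 : ∑ l, a l • e l = 0 := by
      rw [← hc' [] (by simp)]
      refine Finset.sum_congr rfl fun l _ => ?_
      rw [Algebra.smul_def, ha]
      rfl
    have h5 := ha i
    rw [Fintype.linearIndependent_iff.1 he a h4 i, map_zero, div_self hi0] at h5
    exact zero_ne_one h5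

/-- The vectors of derivatives span the whole space. -/
theorem span_top (S : Set (Derivation k F F))
    (hS : ∀ x, (∀ D ∈ S, D x = 0) → x ∈ Set.range (algebraMap k F)) (e : ι → F)
    (he : LinearIndependent k e) :
    Submodule.span F ((fun w l => wd w (e l)) '' {w | ∀ D ∈ w, D ∈ S}) = ⊤ := by
  classical
  by_contra hne
  obtain ⟨φ, hφ, hk⟩ := Submodule.exists_le_ker_of_lt_top _ (lt_top_iff_ne_top.2 hne)
  have hx : ∀ u : ι → F, φ u = ∑ l, φ (Pi.single l 1) * u l := by
    intro u
    conv_lhs => rw [pi_eq_sum_univ' u, map_sum]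
    exact Finset.sum_congr rfl fun l _ => by rw [map_smul, smul_eq_mul, mul_comm]
  have h0 := rel_zero S hS e he _ Finset.univ (fun l => φ (Pi.single l 1)) le_rfl (by simp)
    fun w hw => by
      rw [← hx]
      exact hk (Submodule.subset_span ⟨w, hw, rfl⟩)
  refine hφ (LinearMap.ext fun u => ?_)
  rw [hx]
  exact Finset.sum_eq_zero fun l _ => by rw [congrFun h0 l]; simp

/-- The coordinates are fixed combinations of derivatives. -/
theorem coef (S : Set (Derivation k F F))
    (hS : ∀ x, (∀ D ∈ S, D x = 0) → x ∈ Set.range (algebraMap k F)) (e : ι → F)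
    (he : LinearIndependent k e) (l : ι) :
    ∃ (t : Finset (List (Derivation k F F))) (a : List (Derivation k F F) → F),
      (∀ w ∈ t, ∀ D ∈ w, D ∈ S) ∧
      ∀ c : ι → k, algebraMap k F (c l) = ∑ w ∈ t, a w * wd w (∑ j, c j • e j) := by
  classical
  have h : (Pi.single l 1 : ι → F) ∈
      Submodule.span F ((fun w l => wd w (e l)) '' {w | ∀ D ∈ w, D ∈ S}) := by
    rw [span_top S hS e he]
    trivial
  obtain ⟨a, ha, hs⟩ := (Finsupp.mem_span_image_iff_linearCombination F).1 h
  refine ⟨a.support, a, fun w hw => ha hw, fun c => ?_⟩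
  have h1 : ∀ j, ∑ w ∈ a.support, a w * wd w (e j) = (Pi.single l 1 : ι → F) j := by
    intro j
    rw [← hs, Finsupp.linearCombination_apply, Finsupp.sum, Finset.sum_apply]
    rfl
  have h2 : ∑ w ∈ a.support, a w * wd w (∑ j, c j • e j) =
      ∑ j, algebraMap k F (c j) * ∑ w ∈ a.support, a w * wd w (e j) := by
    simp only [wd_lin, Finset.mul_sum]
    rw [Finset.sum_comm]
    exact Finset.sum_congr rfl fun j _ => Finset.sum_congr rfl fun w _ => by ring
  rw [h2]
  simp [h1, Pi.single_apply]

variable {P Γ : Type} [LinearOrderedCommMonoidWithZero Γ]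

theorem wd_le (v : P → Valuation F Γ) (S : Set (Derivation k F F))
    (hD : ∀ D ∈ S, ∃ B : P → Γ, (∀ᶠ p in cofinite, B p ≤ 1) ∧ ∀ p x, v p (D x) ≤ B p * v p x)
    (w : List (Derivation k F F)) (hw : ∀ D ∈ w, D ∈ S) :
    ∃ B : P → Γ, (∀ᶠ p in cofinite, B p ≤ 1) ∧ ∀ p x, v p (wd w x) ≤ B p * v p x := by
  induction w with
  | nil => exact ⟨1, by simp, fun p x => by simp [wd]⟩
  | cons D w ih =>
    obtain ⟨B, h1, h2⟩ := ih fun D' h => hw _ (List.mem_cons_of_mem _ h)
    obtain ⟨B', h3, h4⟩ := hD D (hw _ List.mem_cons_self)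
    refine ⟨fun p => B' p * B p, (h1.and h3).mono fun p h => mul_le_one' h.2 h.1, fun p x => ?_⟩
    refine (h4 p (wd w x)).trans ?_
    rw [mul_assoc]
    exact mul_le_mul_right (h2 p x) _

/-- The coordinates are bounded by the element, up to fixed constants that are at most `1` for
almost all valuations. -/
theorem bound (v : P → Valuation F Γ) (S : Set (Derivation k F F))
    (hS : ∀ x, (∀ D ∈ S, D x = 0) → x ∈ Set.range (algebraMap k F))
    (hv : ∀ x, ∀ᶠ p in cofinite, v p x ≤ 1)
    (hD : ∀ D ∈ S, ∃ B : P → Γ, (∀ᶠ p in cofinite, B p ≤ 1) ∧ ∀ p x, v p (D x) ≤ B p * v p x)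
    (e : ι → F) (he : LinearIndependent k e) :
    ∃ C : P → Γ, (∀ᶠ p in cofinite, C p ≤ 1) ∧ ∀ (c : ι → k) l p,
      v p (algebraMap k F (c l)) ≤ C p * v p (∑ j, c j • e j) := by
  classical
  choose t a ht ha using coef S hS e he
  have h1 : ∀ l w, ∃ B : P → Γ, (∀ᶠ p in cofinite, B p ≤ 1) ∧
      (w ∈ t l → ∀ p x, v p (a l w * wd w x) ≤ B p * v p x) := by
    intro l w
    by_cases hw : w ∈ t l
    · obtain ⟨B, h2, h3⟩ := wd_le v S hD w (ht l w hw)
      refine ⟨fun p => v p (a l w) * B p,
        (h2.and (hv (a l w))).mono fun p h => mul_le_one' h.2 h.1, fun _ p x => ?_⟩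
      rw [map_mul, mul_assoc]
      exact mul_le_mul_right (h3 p x) _
    · exact ⟨1, by simp, fun h => absurd h hw⟩
  choose B hB1 hB2 using h1
  refine ⟨fun p => (Finset.univ.sigma t).fold max 1 fun x => B x.1 x.2 p, ?_, fun c l p => ?_⟩
  · have h2 : ∀ᶠ p in cofinite, ∀ x ∈ Finset.univ.sigma t, B x.1 x.2 p ≤ 1 :=
      (eventually_all_finset _).2 fun x _ => hB1 x.1 x.2
    exact h2.mono fun p h => (Finset.fold_max_le _).2 ⟨le_rfl, h⟩
  · rw [ha l c]
    refine Valuation.map_sum_le _ fun w hw => (hB2 l w hw p _).trans ?_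
    have h3 : (⟨l, w⟩ : Σ _ : ι, List (Derivation k F F)) ∈ Finset.univ.sigma t := by simp [hw]
    have h4 : B l w p ≤ (Finset.univ.sigma t).fold max 1 fun x => B x.1 x.2 p :=
      (Finset.le_fold_max _).2 (Or.inr ⟨_, h3, le_rfl⟩)
    exact mul_le_mul_left h4 _

end Pool.Agent.Lib.NV5.K3
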