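import Pool.Agent.Lib.NV5.B_KIT
import Pool.Agent.Lib.NV5.B_FLD
import Pool.Agent.Lib.NV5.B_ORD
import Pool.Agent.Lib.NV5.B_FN
import Pool.Agent.Lib.NV5.B_VAL
import Pool.Agent.Lib.NV5.B_HT
import Pool.Agent.Lib.NV5.B_SEC
import Pool.Agent.Lib.NV5.B_BD0
import Pool.Agent.Lib.NV5.B_BD
import Pool.Agent.Lib.NV5.B_IND0
import Pool.Agent.Lib.NV5.B_RES
import Pool.Agent.Lib.NV5.B_SGL
import Pool.Agent.Lib.NV5.A_SIE
import Pool.Agent.Lib.NV5.B_FG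
import Pool.Agent.Lib.NV5.B_CH
import Pool.Agent.Lib.NV5.B_DER
import Pool.Agent.Lib.NV5.B_FS
import Pool.Agent.Lib.NV5.A_COF
import Pool.Agent.Lib.NV5.B_VF
import Pool.Agent.Lib.NV5.A_MUL
import Pool.Agent.Lib.NV5.A_PRE
import Pool.Agent.Lib.NV5.A_KT
import Pool.Agent.Lib.NV5.A_BIG
import Pool.Agent.Lib.NV5.A_FIB
import Pool.Agent.Lib.NV5.A_WR
import Pool.Agent.Lib.NV5.A_CNT
import Pool.Agent.Lib.NV5.B_AM
import Pool.Agent.Lib.NV5.B_PLU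
import Pool.Agent.Lib.NV5.B_TNS
import Pool.Agent.Lib.NV5.B_CRM

/-! Project NV5: the dictionary without hypotheses. -/

namespace Pool.Agent.Lib.NV5

theorem st_bKIT : Sb_KIT := bKIT

theorem st_bFLD : Sb_FLD := bFLD st_bKIT

theorem st_bORD : Sb_ORD := bORD

theorem st_bFN : Sb_FN := bFN st_bKIT

theorem st_bVAL : Sb_VAL := bVAL st_bORD st_bKIT st_bFN

theorem st_bHT : Sb_HT := bHT

theorem st_bSEC : Sb_SEC := bSEC st_bORD st_bHT st_bKIT st_bFN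

theorem st_bBD0 : Sb_BD0 := bBD0

theorem st_bBD : Sb_BD := bBD st_bBD0 st_bKIT st_bFN st_bORD

theorem st_bIND0 : Sb_IND0 := bIND0

theorem st_bRES : Sb_RES := bRES st_bIND0 st_bKIT st_bFN

theorem st_bSGL : Sb_SGL := bSGL st_bKIT

theorem st_aSIE : Sa_SIE := aSIE

theorem st_bFG : Sb_FG := bFG st_bKIT st_bFN st_bRES st_bSGL st_aSIE

theorem st_bCH : Sb_CH := bCH st_bKIT st_bFN

theorem st_bDER : Sb_DER := bDER st_bCH st_bRES st_bORD st_bFN st_bKIT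

theorem st_bFS : Sb_FS := bFS st_bKIT st_bFN

theorem st_aCOF : Sa_COF := aCOF

theorem st_bVF : Sb_VF := bVF st_bVAL st_bSEC st_bBD st_bRES st_bFG st_bDER st_bFS st_aCOF st_bSGL
  st_bKIT st_bFN

theorem st_aMUL : Sa_MUL := aMUL

theorem st_aPRE : Sa_PRE := aPRE st_aMUL

theorem st_aKT : Sa_KT := aKT

theorem st_aBIG : Sa_BIG := aBIG st_aKT

theorem st_aFIB : Sa_FIB := aFIB st_aPRE st_aBIG

theorem st_aWR : Sa_WR := aWR st_aKT

theorem st_aCNT : Sa_CNT := aCNT st_aKT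

theorem st_bAM : Sb_AM := bAM st_bKIT

theorem st_bPLU : Sb_PLU := bPLU

theorem st_bTNS : Sb_TNS := bTNS

theorem st_bCRM : Sb_CRM := bCRM st_bTNS

end Pool.Agent.Lib.NV5
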