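import Pool.Agent.Lib.NV2.SDefs

/-! Definitions used in the statement: holomorphic one-forms, the field of meromorphic functions,
sections over the generic fibre of a fibration. -/

open scoped Topology

noncomputable section

namespace Pool.Agent.Lib.NV5

open Pool.Agent.Lib.SV Pool.Agent.Lib.KP Pool.Agent.Lib.EX Pool.Agent.Lib.NV2

variable (n : ℕ) {Y I F : Type} [TopologicalSpace Y] [ChartedSpace (E n) Y] [Fintype I]
  [Field F] [Algebra ℂ F]

variable (Y) in
/-- Every holomorphic one-form (locally `∑ a i d f i`) is zero. -/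
def NoForm : Prop := ∀ α : Y → E n →L[ℂ] ℂ, (∀ y, ∃ a f : Fin n → Y → ℂ, ∀ᶠ x in 𝓝 y,
  (∀ i, HolAt n 0 (a i) x ∧ HolAt n 0 (f i) x) ∧ α x = ∑ i, a i x • dAt n (f i) x) → α = 0

/-- `F` is the field of fractions of the ring of meromorphic functions with poles on the `D i`. -/
structure FieldOf (D : I → Set Y) (ev : (Y → ℂ) → F) : Prop where
  add : ∀ P s t, Sec n D P s → Sec n D P t → ev (s + t) = ev s + ev t
  mul : ∀ P Q s t, Sec n D P s → Sec n D Q t → ev (s * t) = ev s * ev t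
  smul : ∀ P (c : ℂ) s, Sec n D P s → ev (c • s) = c • ev s
  inj : ∀ P s, Sec n D P s → ev s = 0 → s = 0
  frac : ∀ f, ∃ P s t, Sec n D P s ∧ Sec n D P t ∧ t ≠ 0 ∧ f = ev s / ev t

/-- `f` is a section of `∑ P i D i`. -/
def SecF (D : I → Set Y) (ev : (Y → ℂ) → F) (P : I → ℤ) (f : F) : Prop :=
  ∃ s, Sec n D P s ∧ ev s = f

/-- Along the germ at `y` of the hypersurface `u = 0`, the poles of `f` are at most `∑ P i D i`:
`f ∏ h i ^ P i = a / b` with `b` not identically zero on the hypersurface. -/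
def RegAt (D : I → Set Y) (ev : (Y → ℂ) → F) (P : I → ℤ) (f : F) (u : Y → ℂ) (y : Y) : Prop :=
  ∃ h a b, Eqs n D y h ∧ (∀ᶠ x in 𝓝 y, HolAt n 0 a x ∧ HolAt n 0 b x) ∧
    (∃ᶠ x in 𝓝 y, u x = 0 ∧ b x ≠ 0) ∧ ∀ Q s t, Sec n D Q s → Sec n D Q t → t ≠ 0 →
      f = ev s / ev t → ∀ᶠ x in 𝓝 y, (∀ i, x ∉ D i) → s x * (∏ i, h i x ^ P i) * b x = a x * t x

/-- `f` is a section of `∑ P i D i` over the generic fibre of the fibration given by the subfield
`k`: the poles are at most `∑ P i D i` along all germs of smooth hypersurfaces that are horizontal,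
i.e. along which all elements of `k` are regular. -/
def GSec (D : I → Set Y) (ev : (Y → ℂ) → F) (k : IntermediateField ℂ F) (P : I → ℤ) (f : F) :
    Prop := ∀ u y, (∀ᶠ x in 𝓝 y, HolAt n 0 u x) → u y = 0 → dAt n u y ≠ 0 →
  (∀ g ∈ k, RegAt n D ev 0 g u y) → RegAt n D ev P f u y

/-- A fibration over a base of dimension `d` with function field `k`, the algebraic closure of
`ℂ(z)`, for `K = ∑ l i D i` and `A = ∑ e i D i`. -/
structure Fibr (D : I → Set Y) (ev : (Y → ℂ) → F) (l : I → ℤ) (e : I → ℕ) (d : ℕ)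
    (z : Fin d → F) (k : IntermediateField ℂ F) (a b c : ℕ) (τ : F) : Prop where
  ind : AlgebraicIndependent ℂ z
  alg : ∀ g, g ∈ k ↔ IsAlgebraic (IntermediateField.adjoin ℂ (Set.range z)) g
  /-- `c K` minus the polar divisor of `z` is pseudo-effective -/
  dom : ∀ j : ℕ, ∃ w ≠ 0, ∀ α : Fin d → ℕ, ∑ i, α i ≤ j →
    SecF n D ev (fun i => j * c * l i + b * e i) (w * ∏ i, z i ^ α i)
  /-- the generic fibre has Kodaira dimension zero -/
  sec : 0 < a ∧ τ ≠ 0 ∧ GSec n D ev k (fun i => a * l i) τ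
  one : ∀ (m : ℕ) f g, GSec n D ev k (fun i => m * l i) f → GSec n D ev k (fun i => m * l i) g →
    f ≠ 0 → g / f ∈ k
  /-- the direct image is pseudo-effective -/
  psf : ∃ t ≠ 0, ∃ Q : I → ℤ, {j : ℕ | ∃ g ∈ k, g ≠ 0 ∧
    SecF n D ev (fun i => j * a * l i + Q i) (τ ^ j * g * t)}.Infinite
  /-- the numerical dimension of the generic fibre is positive -/
  unb : ∀ r : ℕ, ∃ y : Fin r → F, LinearIndependent k y ∧
    ∀ p, ∃ j : ℕ, SecF n D ev (fun i => j * a * l i + b * e i) (y p * τ ^ j)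
  /-- the numerical dimension is larger than `d` -/
  gro : ∃ b' : ℕ, ∀ C : ℕ, ∃ᶠ j : ℕ in Filter.atTop,
    C * j ^ d < hz n D fun i => j * l i + b' * e i

end Pool.Agent.Lib.NV5
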