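import Pool.Agent.Lib.NV5.X_GLU
import Pool.Agent.Lib.NV5.X_CV
import Pool.Agent.Lib.NV5.X_KXA
import Pool.Agent.Lib.NV5.X_KL
import Pool.Agent.Lib.NV5.B_KIT
import Pool.Agent.Lib.NV5.B_AM
import Pool.Agent.Lib.ZL.B_PK1
import Pool.Agent.Lib.ZL.B_GEN
import Pool.Agent.Lib.ZL.B_PEAK
import Pool.Agent.Lib.ZL.B_CUT

/-! Project NV5: the family of metrics on a resolution. -/

open scoped Classical Topology ContDiff ComplexOrder Matrix
open Set MeasureTheory Complex Metric Filter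

noncomputable section

namespace Pool.Agent.Lib.DM.KX

open Pool.Agent.Lib.SV (E nsq)
open Pool.Agent.Lib.HS32 Pool.Agent.Lib.HS32.Mf Pool.Agent.Lib.EX Pool.Agent.Lib.EXS
open Pool.Agent.Lib.ZL Pool.Agent.Lib.EXS.K32 Pool.Agent.Lib.EXS.GLU Pool.Agent.Lib.DM.K63

variable {n : ℕ} {M : Mf n} [M.Cpt] {ι : Type} [Fintype ι] [DecidableEq ι] {D : Ad M ι}
  {H β Θ : M.Fam (Mat n)} {σ : M.X → ℝ}

omit [M.Cpt] [DecidableEq ι] in
theorem of_off {d : D.A} {z : E n} (hz : z ∈ B2 n) (ho : Off (D.c d) z) :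
    (D.e d).symm z ∈ off D := (mem_off (mem_src d hz)).2 (by rwa [rinv d hz])

theorem sg_of {P : ι → ℝ} (h : Cv D P Θ fun x => -Real.log (σ x)) (hσ : M.Sm σ)
    (h0 : ∀ x, 0 ≤ σ x) (hp : ∀ x ∈ off D, σ x ≠ 0) : Sg M σ Θ := by
  obtain ⟨c, ψ, l, e⟩ := h
  obtain ⟨x⟩ : Nonempty M.X := inferInstance
  obtain ⟨d, hd⟩ := GLU.ex_ch D x
  obtain ⟨y, y1, y2⟩ := ((MON.off_freq (D.c d) _).and_eventually
    (isOpen_ball.eventually_mem (mem_B2 hd))).exists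
  refine Sg.of_dense hσ h0 ⟨_, hp _ (of_off y2 y1)⟩ c (XC.sub D) (XC.on fun d z hz =>
    ((MON.off_freq (D.c d) z).and_eventually (isOpen_ball.eventually_mem hz)).mono fun w hw =>
      ⟨hp _ (of_off hw.2 hw.1), ?_⟩)
  have k := fun i => ((mHOL n (xi (D.c d) i) w).2.2 (.of_forall fun y => MON.diff_xi _ i y)).2.2.2
    (hw.1 i)
  have s := fun i => (contDiffAt_const (c := P i)).mul (k i).1
  have ev : (fun y => Real.log (σ ((D.e d).symm y))) =ᶠ[𝓝 w] fun y =>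
      -1 * ψ d y + ∑ i, P i * Real.log (normSq (xi (D.c d) i y)) := by
    filter_upwards [isOpen_ball.eventually_mem hw.2, MON.off_ev hw.1] with y h1 h2
    have := (l d y h1).2 h2
    simp only [Ad.rd, lm] at this
    linarith
  refine (XC.hr_congr ev).trans ?_
  rw [XC.hr_add (contDiffAt_const.mul (l d w hw.2).1) (ContDiffAt.sum fun i _ => s i),
    XC.hr_mul _ (l d w hw.2).1, XC.hr_sum fun i _ => s i, Finset.sum_eq_zero fun i _ => by
      rw [XC.hr_mul _ (k i).1, show hr _ w = 0 from (k i).2.1, smul_zero],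
    e d w hw.2, add_zero, neg_one_smul]

theorem sg_ne (i : ι) : ∀ x ∈ off D, XC.sg D i x ≠ 0 := fun x hx => by
  obtain ⟨d, hd⟩ := GLU.ex_ch D x
  rw [← rd_e (XC.sg D i) hd, (XC.sig D i).2.2.2.1 d _ (mem_B2 hd)]
  exact (mul_pos (PW.gf_pos D i (mem_B2 hd)) (normSq_pos.2 (hx d hd i))).ne'

/-- The degree of a contracted component tends to zero. -/
theorem one {b : ι → ℤ} {ex : Set ι} (R : NV5.Cn D b ex) (hH : M.Kae H) (hβ : M.Clo β)
    (β0 : M.Le 0 β) {s : ℝ}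
    (hb : D.All fun d z => β (D.e d) z = s • hr (fun y => Real.log (nsq (R.t d y))) z) {i : ι}
    (hi : i ∈ ex) (h : Cv D (Pi.single i 1) Θ fun x => -Real.log (XC.sg D i x)) {η : ℝ}
    (η0 : 0 < η) :
    ∀ᶠ ε in 𝓝[>] (0 : ℝ), ∫ x, M.tr (β + ε • H) Θ x ∂M.mu (β + ε • H) ≤ η := by
  obtain ⟨s1, s2, -, s4, -⟩ := XC.sig D i
  refine exc hH hβ β0 (sg_of h s1 s2 (sg_ne i)) (fun x hx => ?_) η0
  obtain ⟨d, hd⟩ := GLU.ex_ch D x
  have hz := mem_B2 hd
  have g0 := PW.gf_pos D (d := d) i hz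
  have x0 : xi (D.c d) i (D.e d x) = 0 := by
    rw [← rd_e (XC.sg D i) hd, s4 d _ hz] at hx
    exact normSq_eq_zero.1 ((mul_eq_zero.1 hx).resolve_left g0.ne')
  obtain hc | ⟨j, hc⟩ := Option.eq_none_or_eq_some (D.c d i)
  · simp [xi, hc] at x0
  have xj : ∀ y, xi (D.c d) i y = y j := fun y => by simp [xi, hc]
  rw [xj] at x0
  obtain ⟨v, v0, vj, c, hv⟩ := R.deg d _ hz i hi j hc x0
  have e : pk M (XC.sg D i) Θ (D.e d) (D.e d x) =
      (PW.gf D d i (D.e d x) : ℂ) • Matrix.single j j 1 := by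
    rw [pk, (D.e d).left_inv hd, hx, zero_smul, add_zero]
    exact KL.peak (σ := D.rd (XC.sg D i) d) (PW.gf_sm D i hz) x0
      ((isOpen_ball.eventually_mem hz).mono fun y hy => by rw [s4 d y hy, xj])
  refine ⟨_, D.mem d, hd, ?_⟩
  rw [e]
  refine KL.peak_tr (ofReal_ne_zero.2 g0.ne') (adj_kk _ j v v0 vj ?_)
  rw [hb d _ hz, Matrix.smul_mulVec, KL.ker (R.thol d _ hz).1 (R.thol d _ hz).2.1 hv, smul_zero]

/-- The exceptional divisor. -/
theorem all {b : ι → ℤ} {ex : Set ι} (R : NV5.Cn D b ex) (hH : M.Kae H) (a : ι → ℕ)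
    (ha : ∀ i, a i ≠ 0 → i ∈ ex) : ∃ σ Θ φ, Sg M σ Θ ∧ Cv D (fun i => a i) Θ φ ∧
      ∀ β (s η : ℝ), M.Clo β → M.Le 0 β → 0 < η →
        (D.All fun d z => β (D.e d) z = s • hr (fun y => Real.log (nsq (R.t d y))) z) →
        ∀ᶠ ε in 𝓝[>] (0 : ℝ), ∫ x, M.tr (β + ε • H) Θ x ∂M.mu (β + ε • H) ≤ η := by
  choose T hT _ using fun i => (XC.sig D i).2.2.2.2
  have key : ∀ S : Finset ι, Cv D (∑ i ∈ S, (a i : ℝ) • Pi.single i 1) (∑ i ∈ S, (a i : ℝ) • T i)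
      (fun x => -Real.log (∏ i ∈ S, XC.sg D i x ^ a i)) ∧
      ∀ β (s η : ℝ), M.Clo β → M.Le 0 β → 0 < η →
        (D.All fun d z => β (D.e d) z = s • hr (fun y => Real.log (nsq (R.t d y))) z) →
        ∀ᶠ ε in 𝓝[>] (0 : ℝ), ∫ x, M.tr (β + ε • H) (∑ i ∈ S, (a i : ℝ) • T i) x
          ∂M.mu (β + ε • H) ≤ η := fun S => by
    induction S using Finset.induction_on with
    | empty =>
      refine ⟨XC.congr (XC.smul 0 (XC.sm D (sm_const (0 : ℝ)))) (by simp) (by simp [AllOn])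
        (by simp), fun β s η _ _ h _ => .of_forall fun ε => ?_⟩
      simpa [tr_zero] using h.le
    | insert i S hi ih =>
      simp only [Finset.sum_insert hi, Finset.prod_insert hi]
      refine ⟨XC.congr (XC.add (XC.smul (a i) (hT i)) ih.1) rfl (fun _ _ _ _ => rfl)
        fun x hx => ?_, fun β s η h1 h2 h3 h4 => ?_⟩
      · rw [Real.log_mul (pow_ne_zero _ (sg_ne i x hx))
          (Finset.prod_ne_zero_iff.2 fun j _ => pow_ne_zero _ (sg_ne j x hx)), Real.log_pow]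
        ring
      by_cases h0 : a i = 0
      · simpa only [h0, Nat.cast_zero, zero_smul, zero_add] using ih.2 β s η h1 h2 h3 h4
      have a0 : (0 : ℝ) < a i := Nat.cast_pos.2 (Nat.pos_of_ne_zero h0)
      filter_upwards [ih.2 β s _ h1 h2 (half_pos h3) h4, self_mem_nhdsWithin,
        one R hH h1 h2 h4 (ha i h0) (hT i) (div_pos (half_pos h3) a0)] with ε k1 k2 k3
      have g := (hH.toMet.smul k2).of_le (h1.toForm.add (hH.toForm.smul ε))
        (by simpa using h2.add (Le.refl (ε • H)))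
      simp only [tr_add, tr_smul]
      rw [integral_add ((int g (tr_c g (hT i).1.toTen)).const_mul _) (int g (tr_c g ih.1.1.toTen)),
        integral_const_mul]
      linarith [(le_div_iff₀' a0).1 k3]
  obtain ⟨k1, k2⟩ := key Finset.univ
  have k3 := XC.congr k1 (P' := fun i => (a i : ℝ)) (funext fun i => by simp [Pi.single_apply])
    (fun _ _ _ _ => rfl) fun _ _ => rfl
  refine ⟨_, _, _, sg_of k3 (fun e he z hz => ?_) (fun x => Finset.prod_nonneg fun i _ =>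
    pow_nonneg ((XC.sig D i).2.1 x) _) fun x hx => Finset.prod_ne_zero_iff.2 fun j _ =>
      pow_ne_zero _ (sg_ne j x hx), k3, k2⟩
  exact contDiffAt_prod fun i _ => ((XC.sig D i).1 e he z hz).pow _

theorem vol_le {G T : M.Fam (Mat n)} (hH : M.Met H) (hG : M.Met G) (hT : M.Form T)
    (h0 : M.Le 0 T) (h : M.Le T G) : ∫ x, M.dq H T x ∂M.mu H ≤ (M.mu G).real univ := by
  have k := ((mMU n M H hH).2.2.2.2.2.2 G hG).2.1 fun _ => 1
  simp only [integral_const, smul_eq_mul, mul_one] at k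
  rw [k]
  refine integral_mono (int hH (dq_c hH hT.toTen)) (int hH (dq_c hH hG.toTen)) fun x => ?_
  have := HS76.det_le_of_le (c := 1) (hG.ev_pos x) (ev_psd h0 x) (by
    rw [ofReal_one, one_smul]; exact AllOn.ch h x)
  rw [dq, dq, HS76.det_eq_re (hH.ev_pos x).posSemidef, div_ofReal_re, div_ofReal_re]
  exact div_le_div_of_nonneg_right (by simpa using this) (pd_det_re (hH.ev_pos x)).le

theorem kx {X : Cx D} {A : Am D} {b ν : ι → ℤ} {c c₀ c₁ : ℕ} (hn : 0 < n) (hc : 0 < c)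
    (hC : Can D X.l X.w) (hl : ∀ i, ν i ≤ c * X.l i) (R : NV5.Cn D b {i | ν i < c * X.l i})
    (g₀ : ∀ j : ℕ, Gens D fun i => j * ν i + c₀ * A.e i)
    (g₁ : ∀ j : ℕ, Gens D fun i => j * (b - ν) i + c₁ * A.e i) : Kx D ν A.e := by
  obtain ⟨H, hF⟩ := dKAH n M ι D A
  have hH := hF.1
  obtain ⟨β, b1, b2, b3⟩ := XC.tt R.thol
  obtain ⟨σ, Θ, φ, s1, s2, s3⟩ := all R hH (fun i => (c * X.l i - ν i).toNat) fun i h => by
    have := Int.toNat_eq_zero.not.1 h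
    change ν i < c * X.l i
    omega
  obtain ⟨d₀, z₀, hz₀, -, im⟩ := R.imm
  have t₀ := lv_lg (R.thol d₀ z₀ hz₀).1 (R.thol d₀ z₀ hz₀).2.1
  have v0 := KL.vol_pos hH.toMet b1.1.toForm b2 (D.mem d₀) (mem_tgt d₀ hz₀) (by
    rw [b3 d₀ z₀ hz₀]
    exact pd_of_lv t₀.1 fun v hv => (t₀.2 v).2 fun t ht => hv (im v t ht))
  obtain ⟨K, K0, hK, -⟩ := (mBD n M H hH.toMet).1 β b1.1.toForm
  obtain ⟨k, hk⟩ := exists_nat_ge K
  have c1 : (1 : ℝ) ≤ c := Nat.one_le_cast.2 hc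
  have c2 : (c : ℝ)⁻¹ ≤ 1 := inv_le_one_of_one_le₀ c1
  have c3 : 0 ≤ (c : ℝ)⁻¹ := by positivity
  refine ⟨k + 2, n + 2, by positivity, fun j hj => ?_⟩
  have j0 : (0 : ℝ) < j := Nat.cast_pos.2 hj
  have e0 : 0 < (j : ℝ)⁻¹ := inv_pos.2 j0
  have η0 := mul_pos (pow_pos e0 n) v0
  have f1 := b1.1.smul (1 + (j : ℝ)⁻¹)
  obtain ⟨ε₃, h3, h4, h5⟩ := ((s3 _ (1 + (j : ℝ)⁻¹) _ f1 (by simpa using b2.smul (by positivity))
    η0 fun d z hz => congrArg ((1 + (j : ℝ)⁻¹) • ·) (b3 d z hz)).and (Ioc_mem_nhdsGT e0)).exists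
  obtain ⟨ε, rfl⟩ : ∃ ε, ε₃ = 3 * ε := ⟨ε₃ / 3, by ring⟩
  have ε0 : 0 < ε := by linarith
  obtain ⟨T, ψ, t1, t2⟩ := XC.nef hF g₀ ε0
  obtain ⟨T', ψ', t3, t4⟩ := XC.nef hF g₁ ε0
  have pH := fun e he z hz => (hH.pos e he z hz).posSemidef
  have cG := (t1.1.add (b1.1.smul (j : ℝ)⁻¹)).add (hH.toClo.smul (2 * ε))
  have l1 : M.Le ((j : ℝ)⁻¹ • β) (T + (j : ℝ)⁻¹ • β + (2 * ε) • H) := fun e he z hz => by
    refine (congrArg Matrix.PosSemidef ?_).mp
      ((le0.1 t2 e he z hz).add (psd_rsmul (pH e he z hz) ε0.le))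
    simp only [Pi.add_apply, Pi.smul_apply]
    module
  have hG : M.Kae (T + (j : ℝ)⁻¹ • β + (2 * ε) • H) :=
    { cG, (hH.toMet.smul ε0).of_le cG.toForm (fun e he z hz => by
      refine (congrArg Matrix.PosSemidef ?_).mp
        ((le0.1 t2 e he z hz).add (psd_rsmul (le0.1 b2 e he z hz) e0.le))
      simp only [Pi.add_apply, Pi.smul_apply]
      module) with }
  obtain ⟨f, f2, f3, -⟩ := XC.diff b1 (XC.congr (XC.add t1 t3) (funext fun i => by simp)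
    (fun _ _ _ _ => rfl) fun _ _ => rfl)
  have c0 := f1.add (hH.toClo.smul (3 * ε))
  have hB₀ : M.Kae ((1 + (j : ℝ)⁻¹) • β + (3 * ε) • H) :=
    { c0, (hH.toMet.smul h4).of_le c0.toForm (fun e he z hz => by
      simpa using psd_rsmul (le0.1 b2 e he z hz) (show 0 ≤ 1 + (j : ℝ)⁻¹ by positivity)) with }
  have cB := c0.add ((mHES n M).1 f f2)
  have l2 : M.Le (T + (j : ℝ)⁻¹ • β + (2 * ε) • H)
      ((1 + (j : ℝ)⁻¹) • β + (3 * ε) • H + M.hs f) := fun e he z hz => by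
    refine (congrArg Matrix.PosSemidef ?_).mp (le0.1 t4 e he z hz)
    have := f3 e he z hz
    simp only [Pi.add_apply, Pi.smul_apply] at this ⊢
    rw [eq_sub_of_add_eq' this]
    module
  have hB : M.Kae ((1 + (j : ℝ)⁻¹) • β + (3 * ε) • H + M.hs f) :=
    { cB, hG.toMet.of_le cB.toForm l2 with }
  obtain ⟨F, F1, F2, -⟩ := XC.diff (XC.can X hC hG.toMet) (XC.congr
    (XC.smul (c : ℝ)⁻¹ (XC.add t1 s2)) (funext fun i => by
      have : (((c * X.l i - ν i).toNat : ℤ) : ℝ) = (c * X.l i - ν i : ℤ) :=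
        congrArg _ (Int.toNat_of_nonneg (sub_nonneg.2 (hl i)))
      simp only [Pi.smul_apply, Pi.add_apply, smul_eq_mul]
      push_cast at this
      rw [this]
      field_simp
      ring) (fun _ _ _ _ => rfl) fun _ _ => rfl)
  obtain ⟨u, Q, u1, u2, q1, q2, q3, q4⟩ := kxa HS21.st_AUBIN hn hG hB l2 s1 F1 c3 η0
    fun e he z hz => by
      refine (congrArg Matrix.PosSemidef ?_).mp (((psd_rsmul (le0.1 t2 e he z hz)
        (sub_nonneg.2 c2)).add (psd_rsmul (le0.1 b2 e he z hz) e0.le)).add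
        (psd_rsmul (pH e he z hz) (show 0 ≤ (1 + (c : ℝ)⁻¹) * ε by positivity)))
      have := F2 e he z hz
      simp only [Pi.add_apply, Pi.sub_apply, Pi.smul_apply, Pi.neg_apply] at this ⊢
      rw [sub_eq_neg_add (M.hs F e z), ← this]
      module
  obtain ⟨r1, ⟨C, r2⟩, r3⟩ := XC.bd (XC.congr (XC.add (XC.add (XC.smul j t1)
    (XC.smul (k + 2) (XC.amp hF))) (XC.smul j (XC.sm D u1)))
    (P' := fun i => ((j * ν i + (k + 2 : ℕ) * A.e i : ℤ) : ℝ)) (funext fun i => by simp)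
    (fun _ _ _ _ => rfl) fun _ _ => rfl)
  refine ⟨_, Q, _, C, u2, q1, q2, q3, ?_, r1, r2, fun d z hz ho y => ?_⟩
  · have v1 := vol_le hH.toMet hG.toMet (b1.1.toForm.smul _) (by simpa using b2.smul e0.le) l1
    simp only [dq_smul] at v1
    rw [integral_const_mul, ← vol hG u1 u2.toMet] at v1
    rw [mix hB₀ f2 hB.toMet s1.clo] at q4
    nlinarith [mul_le_mul_of_nonneg_left h3 c3, mul_le_of_le_one_left η0.le c2]
  · rw [r3 d z hz ho, ← RHO.nq_smul30, ← sub_nonneg]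
    have m := D.mem d
    have t := mem_tgt d hz
    have j1 : (j : ℝ) * (3 * ε) ≤ 1 := by rwa [← le_inv_mul_iff₀ j0, mul_one]
    have p := (hK _ m z t).add (psd_rsmul (pH _ m z t)
      (show 0 ≤ k + 2 - K - j * (2 * ε) by nlinarith))
    refine (Complex.nonneg_iff.1 (p.dotProduct_mulVec_nonneg y)).1.trans_eq ?_
    simp only [nq, ← sub_re, ← dotProduct_sub, ← Matrix.sub_mulVec, Pi.add_apply, Pi.smul_apply,
      smul_add, smul_smul, mul_inv_cancel₀ j0.ne']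
    congr 3
    module

end Pool.Agent.Lib.DM.KX

namespace Pool.Agent.Lib.NV5

open ZL in
theorem bKX : Sb_KX := by
  intro n M _ ι _ _ D X r c' c t ν b C R hN
  obtain ⟨A, hA, -⟩ := bAM bKIT n M ι D r X.e t C.epos C.kd C.imm
  obtain ⟨c₁, X', -, -, -, -, -, he, -, hG⟩ := bPEAK (bPK1 bPW st_MU st_UPB st_WGT st_POG
    (bLWC bTRF) bBMP (bCUT bPW)) bGEN n M ι D X _ C.big hN
  rw [← hA]
  refine DM.KX.kx (c₀ := c') (c₁ := c₁) C.pos C.cpos C.can C.le R (hA ▸ C.gen) fun j => ?_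
  simpa only [he, hA, Nat.cast_mul] using hG j

theorem st_bDOMX : Sb_DOMX := bDOMX bKX

end Pool.Agent.Lib.NV5
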