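import Pool.Agent.Lib.NV5.Fin
import Pool.Agent.Lib.NV5.X_KX
import Pool.Agent.Lib.NV5.B_VM
import Pool.Agent.Lib.NV6.C_All
import Pool.Agent.Lib.NV6.J_All
import Pool.Agent.Lib.NV6.J_ZW
import Pool.Agent.Lib.NV6.G_GAP
import Pool.Agent.Lib.NV6.G_GD2
import Pool.Agent.Lib.NV6.G_MP
import Pool.Agent.Lib.NV6.G_DIC
import Pool.Agent.Lib.NV6.G_R4
import Pool.Agent.Lib.NV6.G_Z4
import Pool.Agent.Lib.NV6.G_D4
import Pool.Agent.Lib.NV6.R_ALG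
import Pool.Agent.Lib.NV6.R_BND
import Pool.Agent.Lib.NV6.R_CHW
import Pool.Agent.Lib.NV6.R_COV
import Pool.Agent.Lib.NV6.R_DEN
import Pool.Agent.Lib.NV6.R_EVG
import Pool.Agent.Lib.NV6.R_FAM
import Pool.Agent.Lib.NV6.R_FGK
import Pool.Agent.Lib.NV6.R_GEN
import Pool.Agent.Lib.NV6.R_HQA
import Pool.Agent.Lib.NV6.R_IND
import Pool.Agent.Lib.NV6.R_INT
import Pool.Agent.Lib.NV6.R_ITP
import Pool.Agent.Lib.NV6.R_KD
import Pool.Agent.Lib.NV6.R_KIT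
import Pool.Agent.Lib.NV6.R_L2V
import Pool.Agent.Lib.NV6.R_LOC
import Pool.Agent.Lib.NV6.R_LOW
import Pool.Agent.Lib.NV6.R_MD
import Pool.Agent.Lib.NV6.R_MIN
import Pool.Agent.Lib.NV6.R_NI
import Pool.Agent.Lib.NV6.R_ONE
import Pool.Agent.Lib.NV6.R_OUT
import Pool.Agent.Lib.NV6.R_PT
import Pool.Agent.Lib.NV6.R_R
import Pool.Agent.Lib.NV6.R_ROOT
import Pool.Agent.Lib.NV6.R_SEG
import Pool.Agent.Lib.NV6.R_SET
import Pool.Agent.Lib.NV6.R_SYM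
import Pool.Agent.Lib.NV6.R_TRS
import Pool.Agent.Lib.NV6.R_UPP

/-! Project NV5: the final assembly. -/

namespace Pool.Agent.Lib.NV5.Top

open Pool.Agent.Lib.R6

theorem tUPP : St_UPP := rUPP rKIT rITP rTRS rMIN rSYM rEVG (rBND rKIT)

theorem tALG : St_ALG :=
  rALG rKIT (rCOV rCHW rITP) rIND rTRS (rLOC rKIT rMIN (rROOT rKIT) tUPP) (rSEG rKIT)

theorem tPT : St_PT := rPT st_bKIT st_bFN

theorem tGEN : St_GEN :=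
  rGEN ZL.bPW ZL.st_MU ZL.st_UPB (ZL.bLWC ZL.bTRF) NV6.J.st_KIT NV6.J.st_SK st_bKIT

theorem tONE : St_ONE :=
  rONE (rL2V rNI st_bORD st_bKIT st_bFN ZL.st_MU) (rDEN rKIT) tPT rKIT st_bKIT

theorem tKD (h : ZL.St_PEAK) : St_KD := rKD (ZL.bLWC ZL.bTRF) h ZL.st_UPB ZL.bPW ZL.st_WGT st_bKIT

theorem tR (h : ZL.St_PEAK) : St_R :=
  rR (rOUT rKIT tALG (rDEN rKIT) rFGK tPT (tKD h) (rSET tGEN rINT rFGK st_bRES st_bKIT) tONE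
    (rFAM tPT st_bKIT) (rLOW rKIT ZL.st_UPB) st_bKIT st_bFN) tONE
    (rMD NV6.J.st_KIT NV6.J.jFRM ZL.st_UPB st_bKIT)

theorem tGAP (h : ZL.St_PEAK) : NV6.St_GAP :=
  NV6.gGAP ZL.st_UPB st_bAM DM.dKAH NV6.J.st_KIT NV6.J.st_J (tR h) NV6.st_HOM NV6.st_EXT NV6.st_THC
    NV6.gMP (NV6.gGD2 ZL.bPW ZL.st_MU ZL.st_UPB ZL.st_POG NV6.st_SEC NV6.st_SPH NV6.st_ADM)
    (NV6.gDIC st_bKIT st_bFN)

theorem tEXC4 (h : ZL.St_PEAK) : Sb_EXC4 :=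
  NV6.gEXC4 ZL.st_UPB (tGAP h) (NV6.gZ4 ZL.bPW ZL.st_MU rHQA) NV6.gR4 (NV6.gD4 st_bKIT st_bFN)

/-- The theorem for the Euler characteristic. -/
theorem tS4 : St_S4 := s4_of st_bDOMX (tEXC4 ZL.st_PEAK)

/-- The theorem for twisted forms. -/
theorem tS4F : St_S4F := s4f_of bVM st_bDOMX (tEXC4 ZL.st_PEAK)

/-- The theorem for a nef canonical class. -/
theorem tS3 : St_S3 := s3_of (exc_of_exc4 (tEXC4 ZL.st_PEAK))

end Pool.Agent.Lib.NV5.Top
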