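import Pool.Agent.Lib.NV5.D_All
import Pool.Agent.Lib.NV5.X_MV

/-! Project NV5, block DOM: domination from a family of metrics with a mean bound for the Ricci
curvature. -/

open scoped Classical Topology ContDiff ENNReal ComplexOrder Matrix
open Set MeasureTheory Complex Metric Filter

noncomputable section

namespace Pool.Agent.Lib.DM

open Pool.Agent.Lib.SV (E nsq)
open Pool.Agent.Lib.HS32 Pool.Agent.Lib.HS32.Mf Pool.Agent.Lib.EX Pool.Agent.Lib.EXS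
open Pool.Agent.Lib.ZL Pool.Agent.Lib.EXS.K32
open Pool.Agent.Lib.RAA (hq kp hl)

variable {n : ℕ} {M : Mf n} {ι : Type} [Fintype ι] [DecidableEq ι]

/-- Kähler metrics `G` such that `j G` is below the curvature of a weight of `j ν + a e` and the
mean of a lower bound of the Ricci curvature is bounded. -/
def Kx (D : Ad M ι) (ν : ι → ℤ) (e : ι → ℕ) : Prop := ∃ (a : ℕ) (k : ℝ), 0 ≤ k ∧
  ∀ j : ℕ, 0 < j → ∃ (G Q : M.Fam (Mat n)) (ρ : M.X → ℝ) (C : ℝ), M.Kae G ∧ M.Form Q ∧ M.Le 0 Q ∧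
    M.Le 0 (Q + M.ric G) ∧ ∫ x, M.tr G Q x ∂M.mu G ≤ k * (M.mu G).real univ ∧ SmO D ρ ∧
    (∀ x ∈ off D, |ρ x + lw D (fun i => (j * ν i + a * e i : ℤ)) x| ≤ C) ∧
    OA D fun d z => ∀ y, j * nq (G (D.e d) z) y ≤ lv (D.rd ρ d) z y

namespace XK

variable [M.Cpt] {D : Ad M ι} (X : Cx D) {G Q : M.Fam (Mat n)}

open PAI in
include X in
theorem pai {N B : ℕ} {s₁ s₂ : D.A → E n → (Fin N → Fin n) → ℂ} {O : Set M.X} {g : M.X → ℂ}
    (hNB : N ≤ B) (h₁ : Hs D N B s₁) (h₂ : Hs D N B s₂) (hR : Rat D O g)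
    (hO : D.All fun d z => ((D.e d).symm z ∈ O ↔ s₂ d z ≠ 0) ∧
      (s₂ d z ≠ 0 → s₁ d z = D.rd g d z • s₂ d z)) (hG : M.Kae G) (hQ : M.Form Q)
    (Q0 : M.Le 0 Q) (hL : M.Le 0 (Q + M.ric G)) : ∃ V W C l, 0 < C ∧ 0 ≤ l ∧ Pr M G l C V W ∧
      (∀ x, V x ≠ 0 ↔ x ∈ O) ∧ (∀ x ∈ O, W x = V x * normSq (g x)) ∧
      ∀ x, V x ≠ 0 → -(B * M.tr G Q x) ≤ ll M G V x := by
  obtain ⟨hc, hC⟩ := dCRV n N B
  obtain ⟨r1, r2, -⟩ := (mINV n M G hG.toMet).1 Q hQ.toTen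
  obtain ⟨K, K0, hK⟩ := r2.exists_bound
  obtain ⟨C, C0, hC⟩ := hC M G hG.toMet
  obtain ⟨V, sV, eV⟩ := dNRM dCRV n M ι D N B s₂ G hG.toMet h₂
  obtain ⟨W, sW, eW⟩ := dNRM dCRV n M ι D N B s₁ G hG.toMet h₁
  have tg : ∀ d, ∀ z ∈ B2 n, z ∈ (D.e d).target := fun d z hz => (D.tgt d).symm ▸ hz
  have ev : ∀ d, ∀ z ∈ B2 n, ∀ᶠ w in 𝓝 z, SmM (G (D.e d)) w ∧ (G (D.e d) w).PosDef :=
    fun d z hz => (isOpen_ball.eventually_mem hz).mono fun w hw =>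
      ⟨hG.sm _ (D.mem d) w (tg d w hw), hG.pos _ (D.mem d) w (tg d w hw)⟩
  have k₁ := fun d z hz => hc _ (s₁ d) z (ev d z hz) (h₁.hol d z hz)
  have k₂ := fun d z hz => hc _ (s₂ d) z (ev d z hz) (h₂.hol d z hz)
  have vo : ∀ d, ∀ z ∈ B2 n, (V ((D.e d).symm z) ≠ 0 ↔ (D.e d).symm z ∈ O) := by
    intro d z hz
    have a : V ((D.e d).symm z) = uv N B (G (D.e d)) (s₂ d) z := eV d z hz
    rw [(hO d z hz).1, a]
    exact (k₂ d z hz).2.2.1.not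
  have wv : ∀ d, ∀ z ∈ B2 n, (D.e d).symm z ∈ O →
      W ((D.e d).symm z) = V ((D.e d).symm z) * normSq (D.rd g d z) := by
    intro d z hz h
    have a := eV d z hz
    have b := eW d z hz
    simp only [Ad.rd] at a b
    rw [a, b]
    unfold uv
    rw [(hO d z hz).2 ((hO d z hz).1.1 h), hq_smul]
    ring
  have hVO : ∀ x, V x ≠ 0 ↔ x ∈ O := by
    intro x
    obtain ⟨d, -, hz, e⟩ := pt D x
    have := vo d _ hz
    rwa [e] at this
  have V0 : ∀ x, 0 ≤ V x := fun x => by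
    obtain ⟨d, -, hz, e⟩ := pt D x
    have a := eV d _ hz
    simp only [Ad.rd, e] at a
    exact a ▸ (k₂ d _ hz).2.1
  have eh : ∀ d, ∀ z ∈ B2 n, hl (V ∘ (D.e d).symm) z = hl (uv N B (G (D.e d)) (s₂ d)) z :=
    fun d z hz => by
      unfold hl
      refine Pool.Agent.Lib.HS32.hess_congr ?_
      filter_upwards [isOpen_ball.eventually_mem hz] with w hw
      rw [← eV d w hw]
      rfl
  have lo : ∀ d, ∀ z ∈ B2 n, s₂ d z ≠ 0 → -(B * M.tr G Q ((D.e d).symm z)) ≤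
      trm (G (D.e d) z) (hl (V ∘ (D.e d).symm) z) := fun d z hz s0 => by
    rw [eh d z hz, r1 _ (D.mem d) _ (tg d _ hz)]
    refine trace (ev d z hz) (h₂.hol d z hz) hNB ((isOpen_ball.eventually_mem hz).mono fun w hw =>
      hG.cl _ (D.mem d) w (tg d w hw)) (by simpa using Q0 _ (D.mem d) _ (tg d _ hz)) ?_ s0
    simpa [Mf.ric, sub_eq_add_neg] using hL _ (D.mem d) _ (tg d _ hz)
  refine ⟨V, W, C, B * K, C0, by positivity, ⟨sV, sW, V0, fun x => ?_, ?_, fun x hx => ?_⟩, hVO,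
    fun x hx => ?_, fun x hx => ?_⟩
  · obtain ⟨d, -, hz, e⟩ := pt D x
    have a := eW d _ hz
    simp only [Ad.rd, e] at a
    exact a ▸ (k₁ d _ hz).2.1
  · have : {x | V x = 0} = Oᶜ := by
      ext x
      simp only [mem_ofPred_eq, mem_compl_iff, ← hVO x, not_not]
    rw [this]
    exact (dNUL n M ι D X O g hR).2.1 G hG.toMet
  · obtain ⟨d, hs, hz, e⟩ := pt D x
    have xO := (hVO x).1 hx
    have s0 : s₂ d (D.e d x) ≠ 0 := (hO d _ hz).1.1 (e.symm ▸ xO)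
    refine ⟨D.e d, D.mem d, hs, D.rd g d, hR.hol d _ hz (e.symm ▸ xO), ?_, ?_, ?_⟩
    · have ct : ContinuousAt (D.e d).symm (D.e d x) :=
        (D.e d).continuousAt_symm ((D.e d).map_source hs)
      filter_upwards [isOpen_ball.eventually_mem hz,
        ct.eventually (hR.op.eventually_mem (e.symm ▸ xO))] with w h1 h2
      exact wv d w h1 h2
    · rw [eh d _ hz]
      exact hC _ (D.mem d) _ (tg d _ hz) _ (h₂.hol d _ hz) s0
    · exact (neg_le_neg (mul_le_mul_of_nonneg_left ((le_abs_self _).trans (hK _))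
        B.cast_nonneg)).trans (lo d _ hz s0)
  · obtain ⟨d, -, hz, e⟩ := pt D x
    have := wv d _ hz (e.symm ▸ hx)
    simpa only [Ad.rd, e] using this
  · obtain ⟨d, hs, hz, e⟩ := pt D x
    have := lo d _ hz ((hO d _ hz).1.1 (e.symm ▸ (hVO x).1 hx))
    rwa [e, ← PRK.ll_eq dLOG hG.toMet sV (D.mem d) hs ((V0 x).lt_of_ne' hx)] at this

theorem rho (hG : M.Met G) {J : ℝ} (J0 : 0 ≤ J) {ρ : M.X → ℝ} (h1 : SmO D ρ)
    (h2 : OA D fun d z => ∀ y, J * nq (G (D.e d) z) y ≤ lv (D.rd ρ d) z y) : ∃ C : ℝ, 0 ≤ C ∧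
    ∀ u, M.Sm u → M.Met (G + M.hs u) → Psh D (fun x => ρ x + J * u x) ∧
      SmO D (fun x => J * u x) ∧ D.All fun d z => ContDiffAt ℝ ∞ (D.rd u d) z ∧
        (‖z‖ ≤ 3 / 2 → ∀ y, -(C * ‖y‖ ^ 2) ≤ lv (D.rd u d) z y) := by
  choose B B0 hB using fun d => (mBD n M G hG).2.2.1 _ (D.mem d) (closedBall 0 (3 / 2))
    (isCompact_closedBall _ _) ((closedBall_subset_ball (by norm_num)).trans (D.tgt d).ge)
  obtain ⟨B', hB'⟩ := (Set.finite_range B).bddAbove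
  refine ⟨|B'| * n, by positivity, fun u hu hK => ?_⟩
  have su : ∀ d, ∀ z ∈ B2 n, ContDiffAt ℝ ∞ (D.rd u d) z := fun d z hz =>
    hu _ (D.mem d) z (GLU.mem_tgt d hz)
  have ps : ∀ d, ∀ z ∈ B2 n, ∀ y, 0 ≤ nq (G (D.e d) z) y + lv (D.rd u d) z y := fun d z hz y =>
    (Complex.nonneg_iff.1 ((hK.pos _ (D.mem d) z
      (GLU.mem_tgt d hz)).posSemidef.dotProduct_mulVec_nonneg y)).1.trans_eq (RHO.nq_add30 _ _ y)
  have s4 := fun d z hz => (contDiffAt_const (c := J)).mul (su d z hz)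
  refine ⟨⟨fun d z hz ho => (h1 d z hz ho).add (s4 d z hz), fun d z hz ho y => ?_⟩,
    fun d z hz _ => s4 d z hz, fun d z hz => ⟨su d z hz, fun h y => ?_⟩⟩
  · refine le_trans ?_ (lv_add (h1 d z hz ho) (s4 d z hz) y).ge
    rw [lv_mul (su d z hz)]
    nlinarith [h2 d z hz ho y, mul_nonneg J0 (ps d z hz y)]
  have a1 := (Complex.nonneg_iff.1 ((hB d z (mem_closedBall_zero_iff.2 h)).2.1.dotProduct_mulVec_nonneg
    y)).1
  have a2 := (hB' ⟨d, rfl⟩).trans (le_abs_self B')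
  have a3 : nq (1 : Mat n) y ≤ n * ‖y‖ ^ 2 := by
    rw [nq, Matrix.one_mulVec, dotProduct, re_sum]
    refine (Finset.sum_le_card_nsmul _ _ (‖y‖ ^ 2) fun i _ => ?_).trans_eq (by simp)
    rw [Pi.star_apply, star_def, ← normSq_eq_conj_mul_self, ofReal_re, normSq_eq_norm_sq]
    exact pow_le_pow_left₀ (norm_nonneg _) (norm_le_pi_norm y i) 2
  have a4 : nq (B d • (1 : Mat n)) y = nq (B d • (1 : Mat n) - G (D.e d) z) y +
      nq (G (D.e d) z) y := by rw [← RHO.nq_add30, sub_add_cancel]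
  rw [RHO.nq_smul30] at a4
  change 0 ≤ nq _ y at a1
  have a5 : 0 ≤ nq (1 : Mat n) y := Matrix.PosSemidef.one.re_dotProduct_nonneg y
  nlinarith [ps d z hz y, mul_le_mul a2 a3 a5 (abs_nonneg B')]

theorem one (hn : 0 < n) (hB : X.Big) : ∃ c : ℕ, ∀ (P : ι → ℤ) (J j : ℕ) (l l' C C₀ : ℝ)
    (G : M.Fam (Mat n)) (p ρ V W : M.X → ℝ) (O : Set M.X) (g : M.X → ℂ), 0 < J → 0 ≤ l → 0 ≤ l' →
    0 < C → 2 ^ (n + 2) * j * l' ≤ J → M.Kae G → Pr M G l C V W → Continuous p → (∀ x, 0 ≤ p x) →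
    (∀ x, V x ≠ 0 → -p x ≤ ll M G V x) → ∫ x, p x ∂M.mu G ≤ l' * (M.mu G).real univ →
    SmO D ρ → (∀ x ∈ off D, |ρ x + lw D (fun i => P i) x| ≤ C₀) →
    (OA D fun d z => ∀ y, J * nq (G (D.e d) z) y ≤ lv (D.rd ρ d) z y) →
    Rat D O g → (∀ x, V x ≠ 0 ↔ x ∈ O) → (∀ x ∈ O, W x = V x * normSq (g x)) →
    ∃ F, Sp D (fun i => P i + c * X.e i) F ∧ F ≠ 0 ∧ X.I (fun x => normSq (F x) *
      Real.exp (lw D (fun i => (P i + c * X.e i : ℤ) - X.o i) x) * (1 + normSq (g x)) ^ j) ≠ ⊤ := by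
  obtain ⟨c, hc⟩ := st_HL n M ι D X hB
  refine ⟨c, fun P J j l l' C C₀ G p ρ V W O g hJ hl hl' hC0 hj hK hP pc p0 hp pI ρ1 hρ ρ2 hR hV
    hW => ?_⟩
  have hJ' : (0 : ℝ) < J := Nat.cast_pos.2 hJ
  obtain ⟨L, hL⟩ := mv (dPRK dDET dLOG) (dMAX HS21.st_AUBIN) dVOL (δ := j / J) hn hK hP hl
    (by positivity) pc p0 hp hl' pI (by
      rw [← mul_div_assoc, div_mul_eq_mul_div]; exact (div_le_one hJ').2 hj)
  obtain ⟨C', c0, hu⟩ := rho hK.toMet hJ'.le ρ1 ρ2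
  obtain ⟨r, B, r0, r1, hS⟩ := dSKO n J C' hJ'.le c0
  have m0 : 0 < min 1 C⁻¹ := lt_min one_pos (inv_pos.2 hC0)
  have hs (k : ℕ) : min 1 C⁻¹ / (k + 1) ≤ min 1 C⁻¹ :=
    div_le_self m0.le (le_add_of_nonneg_left k.cast_nonneg)
  have hI (k : ℕ) : min 1 C⁻¹ / (k + 1) ∈ Ioc (0 : ℝ) 1 :=
    ⟨by positivity, (hs k).trans (min_le_left _ _)⟩
  choose u u1 u2 u3 u4 u5 using fun k : ℕ => hL _ (hI k) _ (hI k)
    ((le_mul_inv_iff₀ hC0).1 (by rw [one_mul]; exact (hs k).trans (min_le_right _ _)))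
  choose x hx using u4
  choose d hd hz using fun k => (bPW n M ι D).2.1 (x k)
  obtain ⟨d₀, z₀, h0, hk⟩ := ONE.clu d (fun k => D.e (d k) (x k)) hz r0
  choose k k1 k2 k3 using hk
  obtain ⟨F, f1, f2, f3⟩ := hc P d₀ z₀ r B C₀
    (fun N y => ρ y + J * u (k N) y) (fun N y => J * u (k N) y)
    (fun y => Real.exp (-(J * L)) * (1 + normSq (g y)) ^ j) h0 r0 r1 (fun N => by
      obtain ⟨a1, a2, a3⟩ := hu _ (u1 (k N)) (u2 (k N)).toMet
      refine ⟨a1, a2, fun y hy => ⟨?_, mul_nonpos_of_nonneg_of_nonpos hJ'.le (u3 _ _)⟩,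
        hS (D.rd (u (k N)) d₀) z₀ _ (fun z hz => ?_) (k3 N) ?_⟩
      · rw [add_sub_cancel_right]; exact hρ y hy
      · have h : ‖z‖ ≤ 3 / 2 := by
          have := norm_add_le (z - z₀) z₀
          rw [sub_add_cancel] at this
          linarith [mem_closedBall_iff_norm.1 hz]
        have b := a3 d₀ z (mem_ball_zero_iff.2 (by linarith))
        exact ⟨b.1, u3 _ _, b.2 h⟩
      · rw [← k2 N, Ad.rd, (D.e _).left_inv (hd _)]; exact hx _) (by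
      filter_upwards [(dNUL n M ι D X O g hR).1] with y hy
      have v0 := (hV y).2 hy
      refine ⟨_, ONE.lim (s := fun N => min 1 C⁻¹ / (k N + 1)) (L := L) hJ
        ((hP.nV y).lt_of_ne' v0) (normSq_nonneg _) (hW y hy) ?_, fun N => Real.exp_le_exp.2
        (neg_le_neg (mul_le_mul_of_nonneg_left (u5 _ y v0) hJ'.le))⟩
      exact tendsto_const_nhds.div_atTop (tendsto_atTop_add_const_right _ _
        (tendsto_natCast_atTop_atTop.comp (tendsto_atTop_mono k1 tendsto_id))))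
  refine ⟨F, f1, f2, fun h => f3 ?_⟩
  simp only [Cx.I, mul_left_comm _ (Real.exp (-(J * L))),
    ENNReal.ofReal_mul (Real.exp_pos (-(J * L))).le] at h ⊢
  rw [lintegral_const_mul' _ _ ENNReal.ofReal_ne_top, h]
  exact ENNReal.mul_top (ENNReal.ofReal_pos.2 (Real.exp_pos _)).ne'

open DOM in
theorem dom {ν : ι → ℤ} {N B : ℕ} {b₁ b₂ : D.A → (Fin N → Fin n) → E n → ℂ} (hn : 0 < n)
    (hC : Can D X.l X.w) (hB : X.Big) (hK : Kx D ν X.e) (hN : N ≤ B)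
    (t₁ : Tn D N (fun i => B * X.l i) b₁) (t₂ : Tn D N (fun i => B * X.l i) b₂)
    (h0 : ∃ d I, ∃ z ∈ B2 n, Off (D.c d) z ∧ b₂ d I z ≠ 0)
    (pr : OA D fun d z => ∀ I I', b₁ d I z * b₂ d I' z = b₁ d I' z * b₂ d I z) :
    ∃ c a : ℕ, 0 < c ∧ ∀ j : ℕ, ∃ w : ℕ → M.X → ℂ, w 0 ≠ 0 ∧
      (∀ i ≤ j, Sp D (fun p => j * c * ν p + a * X.e p) (w i)) ∧
      ∀ i < j, OA D fun d z => ∀ I,
        D.rd (w (i + 1)) d z * b₂ d I z = D.rd (w i) d z * b₁ d I z := by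
  obtain ⟨d₀, I₀, z₀, hz₀, o₀, n₀⟩ := h0
  obtain ⟨a₀, k, k0, hK⟩ := hK
  obtain ⟨c, hc⟩ := exists_nat_gt (2 ^ (n + 2) * (B * k))
  have c0 : 0 < c := Nat.cast_pos.1 (lt_of_le_of_lt (by positivity) hc)
  obtain ⟨s₁, p₁, q₁⟩ := dREP st_UPB n M ι D X N B b₁ hC t₁
  obtain ⟨s₂, p₂, q₂⟩ := dREP st_UPB n M ι D X N B b₂ hC t₂
  have ne : OA D fun d z => (X.w d z * xm (D.c d) X.l z) ^ B ≠ 0 := fun d z hz ho =>
    pow_ne_zero _ (mul_ne_zero (X.wne d z hz) (MON.xm_ne _ ho))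
  obtain ⟨O, g, hR, hO⟩ := dRAT n M ι D N B s₁ s₂ p₁ p₂
    ⟨d₀, z₀, hz₀, fun h => mul_ne_zero (ne d₀ z₀ hz₀ o₀) n₀
      ((q₂ d₀ z₀ hz₀ o₀ I₀).symm.trans (congrFun h I₀))⟩
    fun d z hz ho I I' => by
      rw [q₁ d z hz ho, q₁ d z hz ho, q₂ d z hz ho, q₂ d z hz ho]
      linear_combination ((X.w d z * xm (D.c d) X.l z) ^ B) ^ 2 * pr d z hz ho I I'
  obtain ⟨a, ha⟩ := one X hn hB
  have fr := (dNUL n M ι D X O g hR).2.2.2
  have of : ∀ d, ∀ z ∈ B2 n, Off (D.c d) z → (D.e d).symm z ∈ off D := fun d z hz ho =>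
    (GLU.mem_off (GLU.mem_src d hz)).2 (by rwa [GLU.rinv d hz])
  have key : ∀ j : ℕ, ∃ F, Sp D (fun p => j * c * ν p + (a₀ + a : ℕ) * X.e p) F ∧ F ≠ 0 ∧
      ∀ i ≤ j, ∃ w, Sp D (fun p => j * c * ν p + (a₀ + a : ℕ) * X.e p) w ∧
        ∀ x ∈ off D, x ∈ O → w x = F x * g x ^ i := fun j => by
    rcases Nat.eq_zero_or_pos j with rfl | hj
    · have u := st_UPB n M ι D
      have s := ((u _).1 (fun _ => 1) ((u 0).2.2.1 (fun p => (0 : ℕ) * c * ν p +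
        (a₀ + a : ℕ) * X.e p) _ (fun p => by
          simp only [Nat.cast_zero, zero_mul, zero_add]; positivity)
        fun d z _ => ⟨fun _ => 1, .of_forall fun _ => differentiableAt_const _,
          .of_forall fun y _ => by simp [xm, Ad.rd]⟩)).2
      refine ⟨_, s, fun h => ?_, fun i hi => ⟨_, s, fun x _ _ => by
        rw [Nat.le_zero.1 hi, pow_zero, mul_one]⟩⟩
      simpa [of d₀ z₀ hz₀ o₀] using congrFun h ((D.e d₀).symm z₀)
    obtain ⟨G, Q, ρ, C₀, g1, g2, g3, g4, g5, g6, g7, g8⟩ := hK (j * c) (by positivity)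
    obtain ⟨V, W, C, l, C0, l0, hP, hV, hW, hp⟩ := pai X hN p₁ p₂ hR hO g1 g2 g3 g4
    obtain ⟨r1, r2, -⟩ := (mINV n M G g1.toMet).1 Q g2.toTen
    obtain ⟨F, f1, f2, f3⟩ := ha _ (j * c) j l (B * k) C C₀ G (fun x => B * M.tr G Q x) ρ V W O g
      (by positivity) l0 (by positivity) C0 (by
        push_cast
        nlinarith [(j.cast_nonneg : (0 : ℝ) ≤ j)]) g1 hP (continuous_const.mul r2.continuous)
      (fun x => mul_nonneg B.cast_nonneg (HS76.tr_nonneg (g1.toMet.ev_pos x)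
        (by simpa [Mf.ev] using g3 _ ((mTR n M).1 x).1 _ ((M.ch x).map_source ((mTR n M).1 x).2))))
      hp
      (by rw [integral_const_mul, mul_assoc]; exact mul_le_mul_of_nonneg_left g5 B.cast_nonneg)
      g6 g7 g8 hR hV hW
    have e (i) : ((j * c : ℕ) * ν i + a₀ * X.e i + a * X.e i : ℤ) =
        j * c * ν i + (a₀ + a : ℕ) * X.e i := by push_cast; ring
    simp only [e] at f1 f3
    exact ⟨F, f1, f2, dEXT st_MU st_UPB n M ι D X O g F _ j hR f1 f3⟩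
  refine ⟨c, a₀ + a, c0, fun j => ?_⟩
  obtain ⟨F, f1, f2, f3⟩ := key j
  choose! w w1 w2 using f3
  have ct : ∀ {P F}, Sp D P F → OA D fun d z => ContinuousAt (D.rd F d) z :=
    fun h d z hz ho => pol_cont (h.1 d z hz) ho
  have ev : OA D fun d z => ∀ᶠ y in 𝓝 z, y ∈ B2 n := fun d z hz _ => isOpen_ball.mem_nhds hz
  refine ⟨w, fun h => f2 (funext fun x => ?_), w1, fun i hi d z hz ho I => ?_⟩
  · by_cases hx : x ∈ off D
    · obtain ⟨d, hd⟩ := GLU.ex_ch D x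
      have hz : D.e d x ∈ B2 n := D.tgt d ▸ (D.e d).map_source hd
      rw [← GLU.rd_e F hd]
      refine eq_of (ct f1 d _ hz (hx d hd)) continuousAt_const (fr d _ hz)
        ((ev d _ hz (hx d hd)).mono fun y hy h' => ?_)
      simpa [h, Ad.rd] using (w2 0 j.zero_le _ (of d y hy h'.1) h'.2).symm
    · exact f1.2 x hx
  · refine eq_of ((ct (w1 _ hi) d z hz ho).mul (pol_cont (t₂.pol d z hz I) ho))
      ((ct (w1 _ hi.le) d z hz ho).mul (pol_cont (t₁.pol d z hz I) ho)) (fr d z hz)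
      ((ev d z hz ho).mono fun y hy h' => ?_)
    have k := congrFun ((hO d y hy).2 ((hO d y hy).1.1 h'.2)) I
    rw [Pi.smul_apply, q₁ d y hy h'.1, q₂ d y hy h'.1, smul_eq_mul, mul_left_comm] at k
    have k' := mul_left_cancel₀ (ne d y hy h'.1) k
    simp only [Pi.mul_apply, Ad.rd] at k' ⊢
    rw [w2 (i + 1) hi _ (of d y hy h'.1) h'.2, w2 _ hi.le _ (of d y hy h'.1) h'.2, k']
    ring

end XK

end Pool.Agent.Lib.DM
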