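import Pool.Agent.Lib.NV5.Exc4
import Pool.Agent.Lib.NV5.X_DOM

/-! Project NV5: domination on a resolution from the family of metrics. -/

namespace Pool.Agent.Lib.NV5

open Pool.Agent.Lib.HS32 Pool.Agent.Lib.EX Pool.Agent.Lib.ZL

/-- The family of metrics on a resolution. -/
def Sb_KX : Prop := ∀ (n : ℕ) (M : Mf n) [M.Cpt] (ι : Type) [Fintype ι] [DecidableEq ι]
  (D : Ad M ι) (X : Cx D) (r c' c : ℕ) (t : Fin r → M.X → ℂ) (ν b : ι → ℤ), Ctx4 X t c' c ν →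
  Cn D b {i | ν i < c * X.l i} → X.Nf (b - ν) → DM.Kx D ν X.e

theorem bDOMX (h : Sb_KX) : Sb_DOMX := by
  intro n M _ ι _ _ D X r c' c t ν b C cn nf N B b₁ b₂ hN h1 h2 hne hp
  obtain ⟨k, a, -, hk⟩ := DM.XK.dom X C.pos C.can C.big (h n M ι D X r c' c t ν b C cn nf) hN
    ⟨h1.pol, h1.law⟩ ⟨h2.pol, h2.law⟩ hne hp
  refine ⟨k * c, a, fun j => ?_⟩
  obtain ⟨w, w0, w1, w2⟩ := hk j
  refine ⟨w, w0, fun i hi => ⟨(st_UPB n M ι D _).2.2.1 _ _ (fun p => ?_) (w1 i hi).1,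
    (w1 i hi).2⟩, w2⟩
  have := mul_le_mul_of_nonneg_left (C.le p) (show (0 : ℤ) ≤ j * k by positivity)
  push_cast
  linarith

end Pool.Agent.Lib.NV5
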