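import Pool.Agent.Lib.NV5.X_CV
import Pool.Agent.Lib.ZL.B_PK1
import Pool.Agent.Lib.ZL.B_GEN
import Pool.Agent.Lib.ZL.B_CUT
import Pool.Agent.Lib.ZL.B_BMP

/-! Project NV5: curvature off the divisor and generation for nef divisors. -/

open scoped Classical Topology ContDiff ComplexOrder Matrix
open Set MeasureTheory Complex Metric Filter

set_option linter.unusedSectionVars false

noncomputable section

namespace Pool.Agent.Lib.DM.XC

open Pool.Agent.Lib.SV (E nsq)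
open Pool.Agent.Lib.HS32 Pool.Agent.Lib.HS32.Mf Pool.Agent.Lib.EX Pool.Agent.Lib.EXS
open Pool.Agent.Lib.ZL Pool.Agent.Lib.EXS.K32 Pool.Agent.Lib.EXS.GLU

variable {n : ℕ} {M : Mf n} {ι : Type} [Fintype ι] [DecidableEq ι] {D : Ad M ι}

theorem hs_eq {P : ι → ℝ} {T : M.Fam (Mat n)} {φ : M.X → ℝ} (h : Cv D P T φ) :
    OA D fun d z => M.hs φ (D.e d) z = T (D.e d) z := fun d z hz ho => by
  obtain ⟨-, ψ, l, e⟩ := h
  have k := fun i => ((mHOL n _ z).2.2 (.of_forall fun w => MON.diff_xi (D.c d) i w)).2.2.2 (ho i)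
  have ev : D.rd φ d =ᶠ[𝓝 z] fun y => ψ d y + -1 * lm (D.c d) P y := by
    filter_upwards [isOpen_ball.eventually_mem hz, MON.off_ev ho] with y h1 h2
    rw [(l d y h1).2 h2]
    ring
  have z1 : hr (lm (D.c d) P) z = 0 :=
    (hr_sum fun i _ => contDiffAt_const.mul (k i).1).trans (Finset.sum_eq_zero fun i _ => by
      rw [hr_mul _ (k i).1, show hr _ _ = 0 from (k i).2.1, smul_zero])
  refine (hr_congr ev).trans ?_
  rw [hr_add (l d z hz).1 (contDiffAt_const.mul (LWC.lm_ph P ho).1), hr_mul _ (LWC.lm_ph P ho).1,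
    z1, smul_zero, add_zero, e d z hz]

variable [M.Cpt]

theorem gens (X : Cx D) {ν : ι → ℤ} (hB : X.Big) (h : X.Nf ν) :
    ∃ c : ℕ, ∀ j : ℕ, Gens D fun i => j * ν i + c * X.e i := by
  obtain ⟨c, -, hc⟩ := bPK1 bPW st_MU st_UPB st_WGT st_POG (bLWC bTRF) bBMP (bCUT bPW) n M ι D X
    ν hB h
  exact ⟨c, fun j => bGEN n M ι D _ fun d z hz => by simpa using hc j d z hz⟩

end Pool.Agent.Lib.DM.XC
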