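import Pool.Agent.Lib.NV5.X_K63
import Pool.Agent.Lib.HS.Top

/-! Project NV5, domination on resolutions: the regularised Monge-Ampère equation. -/

open scoped Classical Topology ContDiff ENNReal ComplexOrder Matrix
open Set MeasureTheory Complex Metric Filter

set_option linter.unusedVariables false

noncomputable section

namespace Pool.Agent.Lib.DM.K63

open Pool.Agent.Lib.HS32

theorem lam_le {s δ S R : ℝ} (hs : 0 ≤ s) (hδ : 0 < δ) (hS : 0 ≤ S) (hR : 0 < R)
    (h : Real.log (s + δ) ≤ S) :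
    δ / (s + δ) ≤ δ * Real.exp R + (S - Real.log (s + δ)) / R := by
  have h0 : 0 < s + δ := by positivity
  have h1 : 0 ≤ δ * Real.exp R := by positivity
  rcases le_total R (S - Real.log (s + δ)) with k | k
  · have : δ / (s + δ) ≤ 1 := by rw [div_le_one h0]; linarith
    have := (one_le_div hR).2 k
    linarith
  · have h2 : (s + δ)⁻¹ ≤ Real.exp R := by
      rw [← Real.log_le_iff_le_exp (inv_pos.2 h0), Real.log_inv]; linarith
    have := mul_le_mul_of_nonneg_left h2 hδ.le
    have h3 : 0 ≤ (S - Real.log (s + δ)) / R := div_nonneg (by linarith) hR.le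
    rw [div_eq_mul_inv]
    linarith

variable {n : ℕ} {M : Mf n} [M.Cpt] {G H : M.Fam (Mat n)} {u w σ F : M.X → ℝ} {C : ℝ}

omit [M.Cpt] in
theorem hs_add_const (hu : M.Sm u) (c : ℝ) :
    M.All fun e z => M.hs (fun x => u x + c) e z = M.hs u e z := fun e he z hz => by
  have h := (mLAP n M u (fun _ => c) hu (Mf.sm_const c)).1 c e he z hz
  exact h.2.1.trans (by rw [h.1, add_zero])

omit [M.Cpt] in
theorem hs_const_sub (hu : M.Sm u) (c : ℝ) :
    M.All fun e z => M.hs (fun x => c - u x) e z = -M.hs u e z := fun e he z hz => by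
  have h := (mLAP n M (fun _ => c) u (Mf.sm_const c) hu).1 c e he z hz
  exact h.2.2.1.trans (by rw [h.1, zero_sub])

/-- The maximum is bounded by the mean. -/
theorem sup_le (hH : M.Met H) (C : ℝ) : ∃ P : ℝ, ∀ u, M.Sm u → M.Le 0 (C • H + M.hs u) →
    ∀ x, u x * (M.mu H).real univ ≤ ∫ y, u y ∂M.mu H + P := by
  obtain ⟨P, -, h, -⟩ := mPSH n M H C hH
  refine ⟨P, fun u hu h0 x => ?_⟩
  obtain ⟨y, hy⟩ := hu.exists_max
  have := (mMU n M H hH).2.1
  have k := h (fun x => u x + -u y) (hu.add (Mf.sm_const _))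
    (h0.congr (fun _ _ _ _ => rfl) fun e he z hz => by
      simp only [Pi.add_apply]; rw [hs_add_const hu _ e he z hz])
    (fun x => by linarith [hy x]) ⟨y, add_neg_cancel _⟩
  rw [integral_add (int hH hu.continuous) (integrable_const _), integral_const, smul_eq_mul] at k
  nlinarith [mul_le_mul_of_nonneg_right (hy x) (measureReal_nonneg (μ := M.mu H) (s := univ))]

theorem cln' {K L : ℝ} (hH : M.Kae H) (hG : M.Kae G) (hu : M.Sm u) (hG' : M.Met (G + M.hs u))
    (hw : M.Sm w) (hC : M.Le (M.hs w) (C • H)) (C0 : 0 ≤ C) (hK : ∀ x, -K ≤ u x ∧ u x ≤ L) :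
    ∫ x, w x * M.dq H (G + M.hs u + H) x ∂M.mu H ≤ ∫ x, w x * M.dq H (G + H) x ∂M.mu H +
      n * C * (L + K) * ∫ x, M.dq H (G + H) x ∂M.mu H := by
  have e := hs_add_const hu K
  have h := cln (K := L + K) hH hG (hu.add (Mf.sm_const K))
    (hG'.congr fun a ha z hz => by simp only [Pi.add_apply]; rw [e a ha z hz]) hw hC C0
    fun x => ⟨by linarith [(hK x).1], by linarith [(hK x).2]⟩
  rwa [Mf.dq_congr (G := H) (T' := G + M.hs u + H) (fun _ _ _ _ => rfl) fun a ha z hz => by
    simp only [Pi.add_apply]; rw [e a ha z hz]] at h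

/-- The regularised logarithms are bounded in the mean. -/
theorem psi_bd {S : ℝ} (hH : M.Met H) (hσ : M.Sm σ) (σ0 : ∀ x, 0 ≤ σ x ∧ σ x ≤ S)
    (hne : ∃ x, σ x ≠ 0) (hC : ∀ δ > 0, M.Le 0 (C • H + M.hs fun x => Real.log (σ x + δ)))
    {q : M.X → ℝ} (hq : M.Sm q) : ∃ A : ℝ, 0 ≤ A ∧ ∀ δ ∈ Ioc (0 : ℝ) 1,
      ∫ x, (S - Real.log (σ x + δ)) * q x ∂M.mu H ≤ A := by
  obtain ⟨P, hP⟩ := sup_le hH C
  obtain ⟨B, B0, hB⟩ := hq.exists_bound
  obtain ⟨y, hy⟩ := hne
  have y0 : 0 < σ y := (σ0 y).1.lt_of_ne' hy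
  have := (mMU n M H hH).2.1
  refine ⟨max 0 (B * ((S - Real.log (σ y)) * (M.mu H).real univ + P)), le_max_left _ _,
    fun δ hδ => le_max_of_le_right ?_⟩
  have p : ∀ x, 0 < σ x + δ := fun x => add_pos_of_nonneg_of_pos (σ0 x).1 hδ.1
  have hf : M.Sm fun x => Real.log (σ x + δ) := (hσ.add (Mf.sm_const δ)).log fun x => (p x).ne'
  have h1 := hP _ hf (hC δ hδ.1) y
  have h2 := mul_le_mul_of_nonneg_right (Real.log_le_log y0 (le_add_of_nonneg_right hδ.1.le))
    (measureReal_nonneg (μ := M.mu H) (s := univ))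
  have hψ := (Mf.sm_const S).sub hf
  calc _ ≤ ∫ x, B * (S - Real.log (σ x + δ)) ∂M.mu H :=
        integral_mono (int hH (hψ.mul hq).continuous) (int hH (hψ.const_mul B).continuous)
          fun x => by
            have := Real.log_le_sub_one_of_pos (p x)
            exact (mul_le_mul_of_nonneg_left ((le_abs_self _).trans (hB x))
              (by linarith [(σ0 x).2, hδ.2])).trans_eq (mul_comm _ _)
    _ ≤ _ := by
        rw [integral_const_mul, integral_sub (integrable_const _) (int hH hf.continuous),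
          integral_const, smul_eq_mul]
        exact mul_le_mul_of_nonneg_left (by linarith) B0.le

/-- The solutions of the regularised equations put little mass near the zero set. -/
theorem mae (hA : HS.St_AUBIN) (hn : 0 < n) (hH : M.Kae H) (hG : M.Kae G) (hσ : M.Sm σ)
    (σ0 : ∀ x, 0 ≤ σ x) (hne : ∃ x, σ x ≠ 0) (hF : M.Sm F) {a η : ℝ} (a0 : 0 ≤ a) (C0 : 0 ≤ C)
    (hC : ∀ δ > 0, M.Le 0 (C • H + M.hs fun x => Real.log (σ x + δ))) (η0 : 0 < η) :
    ∃ δ > (0 : ℝ), ∃ u, M.Sm u ∧ M.Kae (G + M.hs u) ∧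
      (∀ x, M.dq G (G + M.hs u) x = Real.exp (u x + (F x + a * Real.log (σ x + δ)))) ∧
      ∫ x, δ / (σ x + δ) * M.tr (G + M.hs u) H x ∂M.mu (G + M.hs u) ≤ η := by
  obtain ⟨S, S0, hS⟩ := hσ.exists_bound
  have σ1 : ∀ x, 0 ≤ σ x ∧ σ x ≤ S := fun x => ⟨σ0 x, (le_abs_self _).trans (hS x)⟩
  obtain ⟨B, B0, hB⟩ := hF.exists_bound
  have hGH := hG.toClo.add hH.toClo
  have sq := fun T (hT : M.Ten T) => ((mINV n M H hH.toMet).1 T hT).2.2.2.1
  obtain ⟨A₁, A0, h1⟩ := psi_bd hH.toMet hσ σ1 hne hC (sq _ hG.toTen)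
  obtain ⟨A₂, A0', h2⟩ := psi_bd hH.toMet hσ σ1 hne hC (sq _ hGH.toTen)
  obtain ⟨P, hP⟩ := sup_le hG.toMet 1
  obtain ⟨-, fin, -, v0, -⟩ := mMU n M G hG.toMet
  set v := (M.mu G).real univ with hv
  set V := ∫ x, M.dq H (G + H) x ∂M.mu H with hV
  set Z := |A₂ + n * C * ((v * (1 + B) + a * A₁ + P) / v + (B + a * S)) * V| + 1 with hZ
  have Z0 : 0 < Z := by positivity
  set R := 2 * Z / η with hR
  have R0 : 0 < R := by positivity
  set δ := min 1 (η / (2 * Real.exp R * (|V| + 1))) with hδ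
  have δ0 : 0 < δ := by positivity
  have δ1 : δ ∈ Ioc (0 : ℝ) 1 := ⟨δ0, min_le_left _ _⟩
  have p : ∀ x, 0 < σ x + δ := fun x => add_pos_of_nonneg_of_pos (σ0 x) δ0
  have hf : M.Sm fun x => Real.log (σ x + δ) := (hσ.add (Mf.sm_const δ)).log fun x => (p x).ne'
  have fS : ∀ x, Real.log (σ x + δ) ≤ S := fun x => by
    linarith [Real.log_le_sub_one_of_pos (p x), (σ1 x).2, δ1.2]
  have hF' := hF.add (hf.const_mul a)
  obtain ⟨u, u1, u2, u3⟩ := hA n M G _ 1 hn hG hF' one_pos
  simp only [one_mul] at u3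
  refine ⟨δ, δ0, u, u1, u2, u3, ?_⟩
  have hψ := (Mf.sm_const S).sub hf
  have lo : ∀ x, -(B + a * S) ≤ u x := fun x => by
    obtain ⟨y, hy⟩ := u1.exists_min
    have k := (((mLAP n M u u u1 u1).2.2 G hG.toMet).2.2.1 y 0).2.2.2.2.2.2.2.2.2
      (Eventually.of_forall hy) |>.2.2 _ (Mf.ch_mem y) (Mf.mem_ch y)
    have k2 := HS76.det_mono (B := M.ev (G + M.hs u) y) (hG.toMet.ev_pos y)
      ((congrArg Matrix.PosSemidef (add_sub_cancel_left _ _)).mpr k)
    have k3 : 1 ≤ M.dq G (G + M.hs u) y := by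
      rw [Mf.dq, HS76.det_eq_re (hG.toMet.ev_pos y).posSemidef, div_ofReal_re,
        one_le_div (HS76.det_re_pos (hG.toMet.ev_pos y))]
      exact k2
    rw [u3, Real.one_le_exp_iff] at k3
    linarith [hy x, (le_abs_self _).trans (hB y), mul_le_mul_of_nonneg_left (fS y) a0]
  have hi : ∀ x, u x ≤ (v * (1 + B) + a * A₁ + P) / v := fun x => by
    have k1 := hP u u1 (by rw [one_smul]; exact u2.toMet.nonneg) x
    have k2 := mCOH n M G G u hG.toMet hG.toClo u1
    simp only [hG.toMet.dq_self, integral_const, smul_eq_mul, mul_one] at k2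
    have k3 := h1 δ δ1
    rw [← chg hH.toMet hG.toMet hG.toForm] at k3
    simp only [hG.toMet.dq_self, mul_one] at k3
    have k4 : ∫ y, u y ∂M.mu G ≤
        ∫ y, (M.dq G (G + M.hs u) y + B + a * (S - Real.log (σ y + δ))) ∂M.mu G :=
      integral_mono (int hG.toMet u1.continuous) (int hG.toMet (((dq_c hG.toMet u2.toTen).add
        continuous_const).add (hψ.const_mul a).continuous)) fun y => by
          have := Real.add_one_le_exp (u y + (F y + a * Real.log (σ y + δ)))
          simp only [u3]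
          linarith [(neg_le_abs _).trans (hB y), mul_nonneg a0 S0.le]
    rw [integral_add (int hG.toMet ((dq_c hG.toMet u2.toTen).fun_add continuous_const))
      (int hG.toMet (hψ.const_mul a).continuous), integral_add
      (int hG.toMet (dq_c hG.toMet u2.toTen)) (integrable_const _), k2, integral_const,
      integral_const_mul, smul_eq_mul] at k4
    rw [le_div_iff₀ v0]
    linarith [mul_le_mul_of_nonneg_left k3 a0]
  have c1 := cln' hH hG u1 u2.toMet hψ (fun e he z hz => by
    have := hC δ δ0 e he z hz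
    simp only [Pi.add_apply, Pi.zero_apply, sub_zero] at this
    simp only [hs_const_sub hf S e he z hz, sub_neg_eq_add]
    exact this) C0 fun x => ⟨lo x, hi x⟩
  have hm : M.Met (G + M.hs u + H) := u2.toMet.of_le (u2.toForm.add hH.toForm)
    fun e he z hz => (congrArg Matrix.PosSemidef (add_sub_cancel_left _ _)).mpr
      (hH.pos e he z hz).posSemidef
  have cq := dq_c hH.toMet hm.toTen
  have cl : Continuous fun x => δ / (σ x + δ) :=
    continuous_const.div (hσ.continuous.add continuous_const) fun x => (p x).ne'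
  have v1 : ∫ x, M.dq H (G + M.hs u + H) x ∂M.mu H = V := by
    rw [add_right_comm]; exact mCOH n M H _ u hH.toMet hGH u1
  calc _ ≤ _ := tr_le hH.toMet u2.toMet hH.toForm hH.toMet.nonneg cl
        fun x => div_nonneg δ0.le (p x).le
    _ ≤ ∫ x, (δ * Real.exp R * M.dq H (G + M.hs u + H) x +
          R⁻¹ * ((S - Real.log (σ x + δ)) * M.dq H (G + M.hs u + H) x)) ∂M.mu H :=
        integral_mono (int hH.toMet (cl.mul cq)) (int hH.toMet ((continuous_const.mul cq).add
          (continuous_const.mul (hψ.continuous.mul cq)))) fun x =>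
          (mul_le_mul_of_nonneg_right (lam_le (σ0 x) δ0 S0.le R0 (fS x))
            (((mINV n M H hH.toMet).2.2.2.2.2.2.2 _ hm).1 x).le).trans_eq (by ring)
    _ ≤ η / 2 + η / 2 := by
        rw [integral_add (int hH.toMet (continuous_const.fun_mul cq))
          (int hH.toMet (continuous_const.fun_mul (hψ.continuous.fun_mul cq))), integral_const_mul,
          integral_const_mul, v1]
        refine add_le_add ?_ ?_
        · have k := (le_div_iff₀ (by positivity)).1 (min_le_right 1 (η / (2 * Real.exp R * (|V| + 1))))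
          have k2 := mul_le_mul_of_nonneg_left ((le_abs_self V).trans (le_add_of_nonneg_right zero_le_one))
            (mul_pos δ0 (Real.exp_pos R)).le
          linarith
        · have k : R⁻¹ * Z = η / 2 := by rw [hR]; field_simp
          rw [← k]
          refine mul_le_mul_of_nonneg_left ?_ (inv_pos.2 R0).le
          linarith [h2 δ δ1, le_abs_self
            (A₂ + n * C * ((v * (1 + B) + a * A₁ + P) / v + (B + a * S)) * V)]
    _ = η := add_halves η

end Pool.Agent.Lib.DM.K63
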